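import Pool.Agent.R443.SKc

/-!
# Automatic sequences: finiteness of the kernel
-/

set_option autoImplicit false

namespace Pool.Agent.R443.Auto

/-- The `k`-kernel of a sequence. -/
def kernel (k : ℕ) (e : ℕ → ℕ) : Set (ℕ → ℕ) :=
  {f | ∃ i j : ℕ, j < k ^ i ∧ f = fun n => e (k ^ i * n + j)}

/-- A sequence is `k`-automatic if its `k`-kernel is finite. -/
def IsAutomatic (k : ℕ) (e : ℕ → ℕ) : Prop := (kernel k e).Finite

/-- `φ_4(N)`, the largest `s` with `4^s ∣ N`, for a nonzero integer `N`. -/
noncomputable def phi4 (z : ℤ) : ℕ := multiplicity (4 : ℤ) z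

theorem phi4_eq {z : ℤ} (hz : z ≠ 0) : phi4 z = padicValInt 2 z / 2 := by
  have : Fact (Nat.Prime 2) := ⟨Nat.prime_two⟩
  unfold phi4
  have h4 : (4 : ℤ) = 2 ^ 2 := by norm_num
  apply multiplicity_eq_of_dvd_of_not_dvd
  · rw [h4, ← pow_mul]
    have := (padicValInt_dvd_iff (p := 2) (2 * (padicValInt 2 z / 2)) z).mpr (Or.inr (by omega))
    exact_mod_cast this
  · rw [h4, ← pow_mul]
    intro h
    have h1 : ((2 : ℕ) : ℤ) ^ (2 * (padicValInt 2 z / 2 + 1)) ∣ z := by exact_mod_cast h
    rcases (padicValInt_dvd_iff _ z).mp h1 with h2 | h2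
    · exact hz h2
    · omega

/-- A function of the `2`-adic valuation which is periodic from `1` on is `4`-automatic. -/
theorem automatic_of_nu {e : ℕ → ℕ} (g : ℕ → ℕ) (hg : ∀ v, 1 ≤ v → g (v + 4) = g v)
    (he : ∀ n, n ≠ 0 → e n = g (padicValNat 2 n)) : IsAutomatic 4 e := by
  have hfact : Fact (Nat.Prime 2) := ⟨Nat.prime_two⟩
  have hred : ∀ v, ∃ w, w < 5 ∧ g v = g w := by
    intro v
    induction v using Nat.strong_induction_on with
    | _ v ih =>
      rcases Nat.lt_or_ge v 5 with h | h
      · exact ⟨v, h, rfl⟩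
      · obtain ⟨w, hw, hw2⟩ := ih (v - 4) (by omega)
        refine ⟨w, hw, ?_⟩
        have := hg (v - 4) (by omega)
        rw [Nat.sub_add_cancel (by omega)] at this
        rw [this, hw2]
  have hper : ∀ i v, 1 ≤ v → g (v + 4 * i) = g v := by
    intro i v hv
    induction i with
    | zero => simp
    | succ i ih => rw [show v + 4 * (i + 1) = v + 4 * i + 4 by ring, hg _ (by omega), ih]
  have hnu : ∀ i n, n ≠ 0 → padicValNat 2 (4 ^ i * n) = padicValNat 2 n + 2 * i := by
    intro i n hn
    rw [padicValNat.mul (by positivity) hn, show (4 : ℕ) = 2 ^ 2 by norm_num, ← pow_mul,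
      padicValNat.prime_pow]
    ring
  have hnu2 : ∀ i j n, j ≠ 0 → j < 4 ^ i → padicValNat 2 (4 ^ i * n + j) = padicValNat 2 j := by
    intro i j n hj hji
    have h1 : ¬ 2 ^ (2 * i) ∣ j := by
      intro h
      have := Nat.le_of_dvd (by omega) h
      rw [pow_mul] at this
      norm_num at this
      omega
    have h2 : padicValNat 2 j < 2 * i := by
      by_contra h
      exact h1 ((padicValNat_dvd_iff_le hj).mpr (by omega))
    have h4 : (4 : ℕ) ^ i = 2 ^ (2 * i) := by
      rw [pow_mul]
      norm_num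
    have h5 : ∀ t, t ≤ 2 * i → (2 ^ t ∣ 4 ^ i * n + j ↔ 2 ^ t ∣ j) := by
      intro t ht
      have h6 : 2 ^ t ∣ 4 ^ i * n := by
        rw [h4]
        exact dvd_mul_of_dvd_left (pow_dvd_pow 2 ht) n
      exact (Nat.dvd_add_right h6)
    have h7 : 4 ^ i * n + j ≠ 0 := by omega
    apply le_antisymm
    · by_contra h
      have h8 : padicValNat 2 j + 1 ≤ padicValNat 2 (4 ^ i * n + j) := by omega
      have h9 := (padicValNat_dvd_iff_le h7).mpr h8
      rw [h5 _ (by omega), padicValNat_dvd_iff_le hj] at h9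
      omega
    · rw [← padicValNat_dvd_iff_le h7, h5 _ (by omega)]
      exact pow_padicValNat_dvd
  -- finite superset
  have hfin : (((fun w : ℕ => (fun _ : ℕ => g w)) '' (Set.Iio 5)) ∪
      ((fun i : ℕ => (fun n : ℕ => e (4 ^ i * n))) '' (Set.Iio 3))).Finite :=
    ((Set.finite_Iio 5).image _).union ((Set.finite_Iio 3).image _)
  apply hfin.subset
  rintro f ⟨i, j, hj, rfl⟩
  rcases Nat.eq_zero_or_pos j with h0 | h0
  · right
    subst h0
    have hstep : ∀ i, ∃ i', i' < 3 ∧ (fun n => e (4 ^ i * n + 0)) = fun n => e (4 ^ i' * n) := by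
      intro i
      induction i using Nat.strong_induction_on with
      | _ i ih =>
        rcases Nat.lt_or_ge i 3 with h | h
        · exact ⟨i, h, rfl⟩
        · obtain ⟨i', hi', heq⟩ := ih (i - 2) (by omega)
          refine ⟨i', hi', ?_⟩
          rw [← heq]
          funext n
          rcases Nat.eq_zero_or_pos n with hn | hn
          · subst hn
            simp
          · rw [add_zero, add_zero, he _ (by positivity), he _ (by positivity),
              hnu i n (by omega), hnu (i - 2) n (by omega)]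
            have : padicValNat 2 n + 2 * i = (padicValNat 2 n + 2 * (i - 2)) + 4 := by omega
            rw [this, hg _ (by omega)]
    obtain ⟨i', hi', heq⟩ := hstep i
    exact ⟨i', hi', heq.symm⟩
  · left
    obtain ⟨w, hw, hw2⟩ := hred (padicValNat 2 j)
    refine ⟨w, hw, ?_⟩
    funext n
    simp only
    rw [he _ (by omega), hnu2 i j n (by omega) hj, hw2]

end Pool.Agent.R443.Auto
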