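import Pool.Agent.R443.IsoC

/-!
# Coloured binary partitions: the functional equation over `x^4` and `c_m(4n) - c_m(n)`
-/

set_option autoImplicit false

namespace Pool.Agent.R443.Bin

open PowerSeries Finset
open Pool.Agent.R443.PS Pool.Agent.R443.SK Pool.Agent.R443.Iso

/-- the full series for `k = 2` -/
noncomputable def H2 (m : ℕ) : ℤ⟦X⟧ := mk (S 2 m)

theorem factor_eq : iv 1 ^ 2 * iv 2 * (1 - X ^ 4) = 1 + 2 * ka := by
  have h1 := one_sub_mul
  have h2 : (1 - X ^ 2 : ℤ⟦X⟧) * iv 2 = 1 := mul_iv (by norm_num)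
  unfold ka
  generalize iv 1 = u at *
  generalize iv 2 = v at *
  linear_combination (u ^ 2 * (1 + X ^ 2)) * h2 + ((1 - X) * u + 1) * h1

theorem PK_fun2 (m N : ℕ) :
    PK 2 m (N + 2) = (1 + 2 * ka) ^ m * expand 4 (by norm_num) (PK 2 m N) := by
  unfold PK
  rw [prod_range_succ', prod_range_succ', map_mul, map_pow, map_prod, expand_iv one_ne_zero]
  have h1 : ∀ i ∈ range N, expand 4 (by norm_num) (iv (2 ^ i) ^ (m * (2 - 1))) =
      iv (2 ^ (i + 1 + 1)) ^ (m * (2 - 1)) := by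
    intro i _
    rw [map_pow, expand_iv (by positivity)]
    congr 2
    ring
  rw [prod_congr rfl h1]
  have h2 : ((1 : ℤ⟦X⟧) - X ^ 4) * iv (4 * 1) = 1 := mul_iv (by norm_num)
  have h3 : (((1 : ℤ⟦X⟧) - X ^ 4)) ^ m * iv (4 * 1) ^ m = 1 := by
    rw [← mul_pow, h2, one_pow]
  have h4 : m * (2 - 1) = m := by omega
  rw [h4, ← factor_eq, mul_pow, mul_pow, ← pow_mul]
  have h5 : iv 1 ^ (2 * m) = iv 1 ^ m * iv 1 ^ m := by
    rw [← pow_add]
    congr 1
    ring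
  rw [h5]
  simp only [zero_add, pow_zero, pow_one]
  linear_combination (-(iv 1 ^ m * iv 1 ^ m * iv 2 ^ m *
    (∏ x ∈ range N, iv (2 ^ (x + 1 + 1)) ^ m))) * h3

theorem H2_fun (m : ℕ) : H2 m = (1 + 2 * ka) ^ m * expand 4 (by norm_num) (H2 m) := by
  ext n
  have h1 : coeff n (H2 m) = coeff n (PK 2 m (n + 1 + 2)) := by
    rw [H2, coeff_mk, coeff_PK (by norm_num) (by omega)]
  rw [h1, PK_fun2, coeff_mul, coeff_mul]
  apply sum_congr rfl
  intro x hx
  rw [HasAntidiagonal.mem_antidiagonal] at hx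
  congr 1
  rcases Classical.em (4 ∣ x.2) with h2 | h2
  · obtain ⟨j, hj⟩ := h2
    rw [hj, coeff_expand_mul, coeff_expand_mul, H2, coeff_mk]
    exact coeff_PK (by norm_num) (by omega)
  · rw [coeff_expand_of_not_dvd _ _ _ h2, coeff_expand_of_not_dvd _ _ _ h2]

/-- the functional `f ↦ [x^n] (f F^m)` -/
noncomputable def ps (m n : ℕ) : ℤ⟦X⟧ →ₗ[ℤ] ℤ :=
  (coeff n).comp (LinearMap.mulRight ℤ (H2 m))

theorem ps_apply (m n : ℕ) (f : ℤ⟦X⟧) : ps m n f = coeff n (f * H2 m) := rfl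

theorem ps_step (m N : ℕ) (f : ℤ⟦X⟧) :
    ps m (4 * N) f = ps m N (U 0 ((1 + 2 * ka) ^ m * f)) := by
  rw [ps_apply, ps_apply]
  have h1 : f * H2 m = expand 4 (by norm_num) (H2 m) * ((1 + 2 * ka) ^ m * f) := by
    nth_rewrite 1 [H2_fun m]
    ring
  have h2 := U_expand 0 (by norm_num) ((1 + 2 * ka) ^ m * f) (H2 m)
  have h3 : coeff (4 * N) (f * H2 m) = coeff N (U 0 (f * H2 m)) := by
    rw [coeff_U, add_zero]
  rw [h3, h1, h2, mul_comm]

theorem ps_one (m n : ℕ) : ps m n 1 = S 2 m n := by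
  rw [ps_apply, one_mul, H2, coeff_mk]

theorem two_ka_pow_mul {f : ℤ⟦X⟧} (hf : f ∈ Kk) (m : ℕ) : (1 + 2 * ka) ^ m * f ∈ Kk := by
  induction m with
  | zero => simpa using hf
  | succ m ih =>
    have : (1 + 2 * ka) ^ (m + 1) * f =
      (1 + 2 * ka) ^ m * f + 2 * ka * ((1 + 2 * ka) ^ m * f) := by ring
    rw [this]
    exact add_mem ih (Kk_two_ka ih)

theorem V4_four {f : ℤ⟦X⟧} (hf : f ∈ V4) : ∃ g ∈ Kk, f = (4 : ℤ) • g := by
  unfold V4 at hf
  induction hf using Submodule.span_induction with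
  | mem x hx =>
    obtain ⟨j, rfl⟩ := hx
    refine ⟨(8 ^ j : ℤ) • (ka * (2 * ka) ^ j), Submodule.smul_mem _ _ (Kk_gen j), ?_⟩
    simp only [zsmul_eq_mul]
    push_cast
    have : (16 * ka : ℤ⟦X⟧) ^ j = 8 ^ j * (2 * ka) ^ j := by
      rw [← mul_pow]
      congr 1
      ring
    rw [this]
    ring
  | zero => exact ⟨0, zero_mem _, by simp⟩
  | add x y _ _ hx hy =>
    obtain ⟨g, hg, rfl⟩ := hx
    obtain ⟨g', hg', rfl⟩ := hy
    exact ⟨g + g', add_mem hg hg', by rw [smul_add]⟩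
  | smul z x _ hx =>
    obtain ⟨g, hg, rfl⟩ := hx
    exact ⟨z • g, Submodule.smul_mem _ _ hg, by rw [smul_comm]⟩

theorem Kk_mod_two {f : ℤ⟦X⟧} (hf : f ∈ Kk) : ∃ a : ℤ, ∃ g : ℤ⟦X⟧,
    f = a • ka + (2 : ℤ) • g := by
  unfold Kk at hf
  induction hf using Submodule.span_induction with
  | mem x hx =>
    obtain ⟨j, rfl⟩ := hx
    rcases j with _ | j
    · exact ⟨1, 0, by simp⟩
    · refine ⟨0, ka * ka * (2 * ka) ^ j, ?_⟩
      simp only [zsmul_eq_mul]
      push_cast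
      ring
  | zero => exact ⟨0, 0, by simp⟩
  | add x y _ _ hx hy =>
    obtain ⟨a, g, rfl⟩ := hx
    obtain ⟨a', g', rfl⟩ := hy
    refine ⟨a + a', g + g', ?_⟩
    simp only [zsmul_eq_mul]
    push_cast
    ring
  | smul z x _ hx =>
    obtain ⟨a, g, rfl⟩ := hx
    refine ⟨z * a, z • g, ?_⟩
    simp only [zsmul_eq_mul]
    push_cast
    ring

/-- `iv d ≡ 1` pattern: `F ≡ 1` modulo `2` -/
theorem PK2_mod_two (m N : ℕ) : ∃ g : ℤ⟦X⟧,
    PK 2 m N * (1 - X ^ (2 ^ N)) ^ m = 1 + (2 : ℤ) • g := by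
  -- `iv 1 * (1 - X)`-type telescoping modulo 2
  have hstep : ∀ d : ℕ, d ≠ 0 → ∃ g : ℤ⟦X⟧, iv d * (1 - X ^ (2 * d)) = (1 - X ^ d) + (2 : ℤ) • g := by
    intro d hd
    refine ⟨X ^ d, ?_⟩
    have h := iv_mul hd
    simp only [zsmul_eq_mul]
    push_cast
    have h2 : (X : ℤ⟦X⟧) ^ (2 * d) = (X ^ d) ^ 2 := by ring
    rw [h2]
    linear_combination (1 + X ^ d) * h
  have hpow : ∀ (a b : ℤ⟦X⟧) (r : ℕ), (∃ g, a = b + (2 : ℤ) • g) →
      ∃ g, a ^ r = b ^ r + (2 : ℤ) • g := by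
    rintro a b r ⟨g, rfl⟩
    induction r with
    | zero => exact ⟨0, by simp⟩
    | succ r ih =>
      obtain ⟨g', h'⟩ := ih
      refine ⟨b * g' + g * b ^ r + 2 * g * g', ?_⟩
      rw [pow_succ, h', pow_succ]
      simp only [zsmul_eq_mul]
      push_cast
      ring
  induction N with
  | zero =>
    refine ⟨0, ?_⟩
    unfold PK
    have h := iv_mul one_ne_zero
    rw [prod_range_zero, mul_one, pow_zero, pow_one, ← mul_pow]
    rw [pow_one] at h
    rw [h, one_pow]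
    simp
  | succ N ih =>
    obtain ⟨g, hg⟩ := ih
    obtain ⟨g', hg'⟩ := hpow _ _ m (hstep (2 ^ N) (by positivity))
    refine ⟨g + PK 2 m N * g', ?_⟩
    have h1 : PK 2 m (N + 1) = PK 2 m N * iv (2 ^ N) ^ m := by
      unfold PK
      rw [prod_range_succ]
      norm_num
      ring
    have h2 : (1 - X ^ (2 ^ (N + 1)) : ℤ⟦X⟧) = 1 - X ^ (2 * 2 ^ N) := by
      congr 2
      ring
    have h3 : PK 2 m (N + 1) * (1 - X ^ (2 ^ (N + 1))) ^ m =
        PK 2 m N * ((iv (2 ^ N) * (1 - X ^ (2 * 2 ^ N))) ^ m) := by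
      rw [h1, h2, mul_pow]
      ring
    rw [h3, hg', mul_add, hg]
    simp only [zsmul_eq_mul]
    push_cast
    ring

theorem S2_even {m n : ℕ} (hn : n ≠ 0) : (2 : ℤ) ∣ S 2 m n := by
  obtain ⟨g, hg⟩ := PK2_mod_two m (n + 1)
  have hlt : n < 2 ^ (n + 1) := lt_trans (Nat.lt_succ_self n) (Nat.lt_pow_self (by norm_num))
  have h0 : PK 2 m (n + 1) = (PK 2 m (n + 1) * (1 - X ^ (2 ^ (n + 1))) ^ m) *
      iv (2 ^ (n + 1)) ^ m := by
    have h := mul_iv (d := 2 ^ (n + 1)) (by positivity)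
    rw [mul_assoc, ← mul_pow, h, one_pow, mul_one]
  have h1 : coeff n (PK 2 m (n + 1)) = coeff n (1 + (2 : ℤ) • g) := by
    rw [h0, hg, mul_comm]
    exact coeff_iv_pow_mul_of_lt m _ hlt
  have h2 : S 2 m n = coeff n (PK 2 m (n + 1)) := rfl
  rw [h2, h1, map_add, coeff_one, if_neg hn, zero_add, map_smul, smul_eq_mul]
  exact dvd_mul_right 2 _

theorem H2_eq (m : ℕ) : ∃ g : ℤ⟦X⟧, H2 m = 1 + (2 : ℤ) • g := by
  refine ⟨mk fun n => if n = 0 then 0 else S 2 m n / 2, ?_⟩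
  ext n
  rw [map_add, map_smul, coeff_mk, H2, coeff_mk, coeff_one]
  split_ifs with h
  · subst h
    rw [S_zero (by norm_num)]
    simp
  · have := S2_even (m := m) h
    rw [smul_eq_mul, zero_add]
    omega

/-- divisibility of the coefficients by the power of `2` in the index -/
theorem ps_dvd (m : ℕ) : ∀ n, n ≠ 0 → ∀ f ∈ Kk, (2 : ℤ) ^ padicValNat 2 n ∣ ps m n f := by
  have hfact : Fact (Nat.Prime 2) := ⟨Nat.prime_two⟩
  intro n
  induction n using Nat.strong_induction_on with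
  | _ n ih =>
    intro hn f hf
    rcases Classical.em (4 ∣ n) with h4 | h4
    · obtain ⟨N, rfl⟩ := h4
      obtain ⟨g, hg, h1⟩ := V4_four (U0_Kk (two_ka_pow_mul hf m))
      have hN : N ≠ 0 := by omega
      rw [ps_step, h1, map_smul, smul_eq_mul]
      have h2 : padicValNat 2 (4 * N) = padicValNat 2 N + 2 := by
        rw [padicValNat.mul (by norm_num) hN, show (4 : ℕ) = 2 ^ 2 by norm_num,
          padicValNat.prime_pow]
        omega
      rw [h2, pow_add, mul_comm]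
      exact mul_dvd_mul (by norm_num) (ih N (by omega) hN g hg)
    · rcases Classical.em (2 ∣ n) with h2 | h2
      · obtain ⟨N, rfl⟩ := h2
        have h3 : padicValNat 2 (2 * N) = 1 := by
          rw [padicValNat.mul (by norm_num) (by omega), padicValNat.self (by norm_num),
            padicValNat.eq_zero_of_not_dvd (by omega)]
        rw [h3, pow_one]
        obtain ⟨a, g, rfl⟩ := Kk_mod_two hf
        obtain ⟨g', hg'⟩ := H2_eq m
        have h5 : (a • ka + (2 : ℤ) • g) * H2 m =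
            a • ka + (2 : ℤ) • (g * H2 m + (a : ℤ⟦X⟧) * ka * g') := by
          rw [hg']
          simp only [zsmul_eq_mul]
          push_cast
          ring
        rw [ps_apply, h5, map_add, map_smul, map_smul, coeff_ka, smul_eq_mul, smul_eq_mul]
        push_cast
        exact dvd_add (Dvd.dvd.mul_left (dvd_mul_right 2 _) _) (dvd_mul_right 2 _)
      · have h3 : padicValNat 2 n = 0 := padicValNat.eq_zero_of_not_dvd h2
        rw [h3, pow_zero]
        exact one_dvd _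

theorem two_pow_eq (m : ℕ) : ∃ w ∈ Kk, (1 + 2 * ka) ^ m = 1 + (2 : ℤ) • w := by
  induction m with
  | zero => exact ⟨0, zero_mem _, by simp⟩
  | succ m ih =>
    obtain ⟨w, hw, h⟩ := ih
    have g0 := Kk_gen 0
    refine ⟨w + 2 * ka * w + ka * (2 * ka) ^ 0, add_mem (add_mem hw (Kk_two_ka hw)) g0, ?_⟩
    rw [pow_succ, h]
    simp only [zsmul_eq_mul]
    push_cast
    ring

/-- the section of `(1 + 2κ)^m` -/
theorem section_eq (m : ℕ) : ∃ v ∈ V4, U 0 ((1 + 2 * ka) ^ m) = 1 + (2 : ℤ) • v := by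
  obtain ⟨w, hw, h⟩ := two_pow_eq m
  refine ⟨U 0 w, U0_Kk hw, ?_⟩
  rw [h, map_add, map_smul, U_one 0 (by norm_num), if_pos rfl]

/-- `c_m(4n) - c_m(n)` as a coefficient -/
theorem diff_eq (m n : ℕ) (v : ℤ⟦X⟧) (hv : U 0 ((1 + 2 * ka) ^ m) = 1 + (2 : ℤ) • v) :
    S 2 m (4 * n) - S 2 m n = 2 * ps m n v := by
  have h1 := ps_step m n 1
  rw [mul_one, hv, map_add, map_smul, ps_one, ps_one, smul_eq_mul] at h1
  linarith

/-- second order shape of elements of `V4` -/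
theorem V4_decomp2 {v : ℤ⟦X⟧} (hv : v ∈ V4) :
    ∃ a c : ℤ, ∃ h ∈ Kk, v = a • (4 * ka) + c • (64 * ka ^ 2) +
      (256 : ℤ) • (2 * ka * (2 * ka * h)) ∧ coeff 1 (ka ^ 2 * h) = 0 ∧ coeff 2 (ka ^ 2 * h) = 0 := by
  have hz : ∀ j : ℕ, coeff 1 (ka ^ 2 * (ka * (2 * ka) ^ j)) = 0 ∧
      coeff 2 (ka ^ 2 * (ka * (2 * ka) ^ j)) = 0 := by
    intro j
    have h1 : ka ^ 2 * (ka * (2 * ka) ^ j) = X ^ 3 * (iv 1 ^ 6 * (2 * ka) ^ j) := by
      have : ka = X * iv 1 ^ 2 := rfl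
      rw [this]
      ring
    rw [h1, coeff_X_pow_mul', coeff_X_pow_mul']
    simp
  unfold V4 at hv
  induction hv using Submodule.span_induction with
  | mem x hx =>
    obtain ⟨j, rfl⟩ := hx
    rcases j with _ | _ | j
    · exact ⟨1, 0, 0, zero_mem _, by simp, by simp, by simp⟩
    · exact ⟨0, 1, 0, zero_mem _, by simp; ring, by simp, by simp⟩
    · refine ⟨0, 0, (8 ^ j : ℤ) • (ka * (2 * ka) ^ j), Submodule.smul_mem _ _ (Kk_gen j), ?_, ?_, ?_⟩
      · simp only [zsmul_eq_mul]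
        push_cast
        have : (16 * ka : ℤ⟦X⟧) ^ j = 8 ^ j * (2 * ka) ^ j := by
          rw [← mul_pow]
          congr 1
          ring
        rw [pow_succ, pow_succ, this]
        ring
      · rw [mul_smul_comm, map_smul, (hz j).1, smul_zero]
      · rw [mul_smul_comm, map_smul, (hz j).2, smul_zero]
  | zero => exact ⟨0, 0, 0, zero_mem _, by simp, by simp, by simp⟩
  | add x y _ _ hx hy =>
    obtain ⟨a, c, h, hh, rfl, e1, e2⟩ := hx
    obtain ⟨a', c', h', hh', rfl, e1', e2'⟩ := hy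
    refine ⟨a + a', c + c', h + h', add_mem hh hh', ?_, ?_, ?_⟩
    · simp only [zsmul_eq_mul]
      push_cast
      ring
    · rw [mul_add, map_add, e1, e1', add_zero]
    · rw [mul_add, map_add, e2, e2', add_zero]
  | smul z x _ hx =>
    obtain ⟨a, c, h, hh, rfl, e1, e2⟩ := hx
    refine ⟨z * a, z * c, z • h, Submodule.smul_mem _ _ hh, ?_, ?_, ?_⟩
    · simp only [zsmul_eq_mul]
      push_cast
      ring
    · rw [mul_smul_comm, map_smul, e1, smul_zero]
    · rw [mul_smul_comm, map_smul, e2, smul_zero]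

end Pool.Agent.R443.Bin
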