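import Pool.Agent.R443.IsoC

/-!
# Numerical part: `m ≡ 6 (mod 8)`
-/

set_option autoImplicit false

namespace Pool.Agent.R443.Iso

open PowerSeries Finset
open Pool.Agent.R443.PS Pool.Agent.R443.SK

theorem coeff_zsmul (n : ℕ) (z : ℤ) (f : ℤ⟦X⟧) : coeff n (z • f) = z * coeff n f := by
  rw [map_smul, smul_eq_mul]

theorem coeff_ka_pow (n i : ℕ) : coeff n (ka ^ (i + 1)) =
    ((Nat.choose (n + i) (2 * i + 1) : ℕ) : ℤ) := by
  unfold ka
  rw [mul_pow, ← pow_mul, coeff_X_pow_mul']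
  split_ifs with h
  · rw [show 2 * (i + 1) = (2 * i + 1) + 1 by ring, coeff_iv_pow_succ one_ne_zero,
      if_pos (one_dvd _)]
    congr 2
    simp
    omega
  · rw [Nat.choose_eq_zero_of_lt (by omega)]
    simp

/-- polynomial in `κ` without constant term -/
noncomputable def kp (l : List ℤ) : ℤ⟦X⟧ := ∑ i ∈ range l.length, l.getD i 0 • ka ^ (i + 1)

/-- its coefficients -/
def cc (l : List ℤ) (n : ℕ) : ℤ :=
  ∑ i ∈ range l.length, l.getD i 0 * ((Nat.choose (n + i) (2 * i + 1) : ℕ) : ℤ)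

theorem coeff_kp (l : List ℤ) (n : ℕ) : coeff n (kp l) = cc l n := by
  unfold kp cc
  rw [map_sum]
  apply sum_congr rfl
  intro i _
  rw [map_smul, coeff_ka_pow, smul_eq_mul]

/-- `A = C^2 - 1` -/
noncomputable def A : ℤ⟦X⟧ := 8 * ka + 20 * ka ^ 2 + 16 * ka ^ 3

theorem A1_eq : A = kp [8, 20, 16] := by
  unfold A kp
  simp only [List.length_cons, List.length_nil, sum_range_succ, sum_range_zero, List.getD_cons_zero,
    List.getD_cons_succ, zsmul_eq_mul]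
  push_cast
  ring

theorem A2_eq : A ^ 2 = kp [0, 64, 320, 656, 640, 256] := by
  unfold A kp
  simp only [List.length_cons, List.length_nil, sum_range_succ, sum_range_zero, List.getD_cons_zero,
    List.getD_cons_succ, zsmul_eq_mul]
  push_cast
  ring

theorem A3_eq : A ^ 3 = kp [0, 0, 512, 3840, 12672, 23360, 25344, 15360, 4096] := by
  unfold A kp
  simp only [List.length_cons, List.length_nil, sum_range_succ, sum_range_zero, List.getD_cons_zero,
    List.getD_cons_succ, zsmul_eq_mul]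
  push_cast
  ring

theorem A4_eq : A ^ 4 = kp [0, 0, 0, 4096, 40960, 186368, 501760, 872704, 1003520, 745472, 327680,
    65536] := by
  unfold A kp
  simp only [List.length_cons, List.length_nil, sum_range_succ, sum_range_zero, List.getD_cons_zero,
    List.getD_cons_succ, zsmul_eq_mul]
  push_cast
  ring

theorem kA1_eq : ka * A = kp [0, 8, 20, 16] := by
  unfold A kp
  simp only [List.length_cons, List.length_nil, sum_range_succ, sum_range_zero, List.getD_cons_zero,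
    List.getD_cons_succ, zsmul_eq_mul]
  push_cast
  ring

theorem kA2_eq : ka * A ^ 2 = kp [0, 0, 64, 320, 656, 640, 256] := by
  unfold A kp
  simp only [List.length_cons, List.length_nil, sum_range_succ, sum_range_zero, List.getD_cons_zero,
    List.getD_cons_succ, zsmul_eq_mul]
  push_cast
  ring

/-- binomial expansion to fourth order -/
theorem pow_expand {R : Type*} [CommRing R] (c : R) (q : ℕ) : ∃ r : R, (1 + c) ^ q =
    1 + q * c + (Nat.choose q 2 : ℕ) * c ^ 2 + (Nat.choose q 3 : ℕ) * c ^ 3 +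
      (Nat.choose q 4 : ℕ) * c ^ 4 + c ^ 5 * r := by
  induction q with
  | zero => exact ⟨0, by simp⟩
  | succ q ih =>
    obtain ⟨r, hr⟩ := ih
    refine ⟨(Nat.choose q 4 : ℕ) + r + c * r, ?_⟩
    rw [pow_succ, hr, Nat.choose_succ_succ q 1, Nat.choose_succ_succ q 2,
      Nat.choose_succ_succ q 3, Nat.choose_one_right]
    push_cast
    ring

theorem coeff_W (q n : ℕ) (hn : n ≠ 0) : ∃ z : ℤ, coeff n (Cs ^ (2 * q)) =
    q * cc [8, 20, 16] n + (Nat.choose q 2 : ℕ) * cc [0, 64, 320, 656, 640, 256] n +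
    (Nat.choose q 3 : ℕ) * cc [0, 0, 512, 3840, 12672, 23360, 25344, 15360, 4096] n +
    (Nat.choose q 4 : ℕ) * cc [0, 0, 0, 4096, 40960, 186368, 501760, 872704, 1003520, 745472,
      327680, 65536] n + 1024 * z := by
  obtain ⟨r, hr⟩ := pow_expand A q
  refine ⟨coeff n ((2 * ka + 5 * ka ^ 2 + 4 * ka ^ 3) ^ 5 * r), ?_⟩
  have h1 : Cs ^ (2 * q) = 1 + (q : ℤ) • A + ((Nat.choose q 2 : ℕ) : ℤ) • A ^ 2 +
      ((Nat.choose q 3 : ℕ) : ℤ) • A ^ 3 + ((Nat.choose q 4 : ℕ) : ℤ) • A ^ 4 +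
      (1024 : ℤ) • ((2 * ka + 5 * ka ^ 2 + 4 * ka ^ 3) ^ 5 * r) := by
    have h2 : Cs ^ 2 = 1 + A := by
      rw [Cs_two]
      unfold A
      ring
    have h3 : A ^ 5 = 1024 * (2 * ka + 5 * ka ^ 2 + 4 * ka ^ 3) ^ 5 := by
      unfold A
      ring
    rw [pow_mul, h2, hr, h3]
    simp only [zsmul_eq_mul]
    push_cast
    ring
  rw [h1, A4_eq, A3_eq, A2_eq, A1_eq]
  simp only [map_add, coeff_zsmul, coeff_kp, coeff_one, if_neg hn, zero_add]

theorem coeff_kW (q n : ℕ) : ∃ z : ℤ, coeff n (Cs ^ (2 * q) * ka) =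
    n + q * cc [0, 8, 20, 16] n +
    (Nat.choose q 2 : ℕ) * cc [0, 0, 64, 320, 656, 640, 256] n + 64 * z := by
  obtain ⟨r, hr⟩ := pow_expand A q
  refine ⟨coeff n ((2 * ka + 5 * ka ^ 2 + 4 * ka ^ 3) ^ 3 * (((Nat.choose q 3 : ℕ) : ℤ⟦X⟧) +
    ((Nat.choose q 4 : ℕ) : ℤ⟦X⟧) * A + A ^ 2 * r) * ka), ?_⟩
  have h1 : Cs ^ (2 * q) * ka = ka + (q : ℤ) • (ka * A) +
      ((Nat.choose q 2 : ℕ) : ℤ) • (ka * A ^ 2) +
      (64 : ℤ) • ((2 * ka + 5 * ka ^ 2 + 4 * ka ^ 3) ^ 3 * (((Nat.choose q 3 : ℕ) : ℤ⟦X⟧) +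
    ((Nat.choose q 4 : ℕ) : ℤ⟦X⟧) * A + A ^ 2 * r) * ka) := by
    have h2 : Cs ^ 2 = 1 + A := by
      rw [Cs_two]
      unfold A
      ring
    have h3 : (64 : ℤ⟦X⟧) * (2 * ka + 5 * ka ^ 2 + 4 * ka ^ 3) ^ 3 = A ^ 3 := by
      unfold A
      ring
    rw [pow_mul, h2, hr]
    simp only [zsmul_eq_mul]
    push_cast
    linear_combination -(((Nat.choose q 3 : ℕ) : ℤ⟦X⟧) +
      ((Nat.choose q 4 : ℕ) : ℤ⟦X⟧) * A + A ^ 2 * r) * ka * h3
  rw [h1, kA1_eq, kA2_eq]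
  simp only [map_add, coeff_zsmul, coeff_kp, coeff_ka]

/-- finer shape of elements of `L` -/
theorem L_decomp5 {f : ℤ⟦X⟧} (hf : f ∈ L) :
    ∃ a0 a1 a2 a3 a4 : ℤ, ∃ g ∈ M, (∀ N < 5, coeff N g = 0) ∧
      f = a0 • b 0 + (4 * a1) • b 1 + (16 * a2) • b 2 + (64 * a3) • b 3 + (256 * a4) • b 4 +
        (128 : ℤ) • g := by
  unfold L at hf
  induction hf using Submodule.span_induction with
  | mem x hx =>
    obtain ⟨d, rfl⟩ := hx
    rcases d with _ | _ | _ | _ | _ | d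
    · exact ⟨1, 0, 0, 0, 0, 0, zero_mem _, fun _ _ => by simp, by simp⟩
    · exact ⟨0, 1, 0, 0, 0, 0, zero_mem _, fun _ _ => by simp, by simp⟩
    · exact ⟨0, 0, 1, 0, 0, 0, zero_mem _, fun _ _ => by simp, by norm_num⟩
    · exact ⟨0, 0, 0, 1, 0, 0, zero_mem _, fun _ _ => by simp, by norm_num⟩
    · exact ⟨0, 0, 0, 0, 1, 0, zero_mem _, fun _ _ => by simp, by norm_num⟩
    · refine ⟨0, 0, 0, 0, 0, (2 : ℤ) ^ (2 * d + 3) • b (d + 5), pow_smul_mem (by omega), ?_, ?_⟩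
      · intro N hN
        rw [map_smul, coeff_b, Nat.choose_eq_zero_of_lt (by omega)]
        simp
      · simp only [zero_smul, mul_zero, zero_add, smul_smul]
        congr 1
        have : (4 : ℤ) ^ d = 2 ^ (2 * d) := by
          rw [pow_mul]
          norm_num
        rw [show d + 1 + 1 + 1 + 1 + 1 = d + 5 from rfl, pow_add 4 d 5, this,
          pow_add 2 (2 * d) 3]
        ring
  | zero => exact ⟨0, 0, 0, 0, 0, 0, zero_mem _, fun _ _ => by simp, by simp⟩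
  | add x y _ _ hx hy =>
    obtain ⟨a0, a1, a2, a3, a4, g, hg, hz, rfl⟩ := hx
    obtain ⟨a0', a1', a2', a3', a4', g', hg', hz', rfl⟩ := hy
    refine ⟨a0 + a0', a1 + a1', a2 + a2', a3 + a3', a4 + a4', g + g', add_mem hg hg', ?_, ?_⟩
    · intro N hN
      rw [map_add, hz N hN, hz' N hN, add_zero]
    · simp only [zsmul_eq_mul]
      push_cast
      ring
  | smul z x _ hx =>
    obtain ⟨a0, a1, a2, a3, a4, g, hg, hz, rfl⟩ := hx
    refine ⟨z * a0, z * a1, z * a2, z * a3, z * a4, z • g, Submodule.smul_mem _ _ hg, ?_, ?_⟩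
    · intro N hN
      rw [map_smul, hz N hN, smul_zero]
    · simp only [zsmul_eq_mul]
      push_cast
      ring

theorem choose_facts (q : ℕ) (hq : q % 4 = 3) : ((Nat.choose q 2 : ℕ) : ℤ) % 2 = 1 ∧
    ((Nat.choose q 3 : ℕ) : ℤ) % 2 = 1 ∧ (q % 8 = 7 → ((Nat.choose q 2 : ℕ) : ℤ) % 4 = 1) ∧
    (q % 8 = 3 → ((Nat.choose q 2 : ℕ) : ℤ) % 4 = 3) := by
  have h2 := two_choose q
  have h3 := six_choose' q
  obtain ⟨t, rfl⟩ : ∃ t, q = 4 * t + 3 := ⟨q / 4, by omega⟩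
  push_cast at h2 h3
  have e2 : 2 * ((Nat.choose (4 * t + 3) 2 : ℕ) : ℤ) = 16 * (t : ℤ) ^ 2 + 20 * t + 6 := by
    linear_combination h2
  have e3 : 6 * ((Nat.choose (4 * t + 3) 3 : ℕ) : ℤ) =
      64 * (t : ℤ) ^ 3 + 96 * (t : ℤ) ^ 2 + 44 * t + 6 := by
    linear_combination h3
  generalize ((Nat.choose (4 * t + 3) 2 : ℕ) : ℤ) = u at *
  generalize ((Nat.choose (4 * t + 3) 3 : ℕ) : ℤ) = v at *
  generalize (t : ℤ) ^ 2 = w at *
  generalize (t : ℤ) ^ 3 = w' at *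
  refine ⟨by omega, by omega, fun h => by omega, fun h => by omega⟩

/-- the main part of the section series -/
noncomputable def F1 (q : ℕ) (c : ℤ) : ℤ⟦X⟧ :=
  U 1 (Cs ^ (2 * q)) + (8 * c) • U 1 (Cs ^ (2 * q) * ka)

theorem ka_mem_M : ka ∈ M := by
  rw [ka_eq]
  exact b1_mem

theorem F1_mem (q : ℕ) (c : ℤ) : F1 q c ∈ L := by
  unfold F1
  obtain ⟨w, hw, h⟩ := Cs_pow_eq q
  apply add_mem
  · rw [h, map_add, map_smul, U_one 1 (by norm_num), if_neg (by norm_num), zero_add]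
    exact Submodule.smul_mem _ _ (U_mem (by norm_num) (Kk_le_M hw))
  · exact Submodule.smul_mem _ _ (U_mem (by norm_num) (Cs_pow_mul ka_mem_M _))

theorem F1_shape (q : ℕ) (c : ℤ) (hq : q % 4 = 3) (hc : (c = 1 ∧ q % 8 = 7) ∨ (c = 5 ∧ q % 8 = 3)) :
    ∃ al be : ℤ, be % 2 = 1 ∧ ∃ g ∈ M,
      F1 q c = (64 : ℤ) • (al • b 0 + be • b 1 + (2 : ℤ) • g) := by
  obtain ⟨a0, a1, a2, a3, a4, g, hg, hz, hF⟩ := L_decomp5 (F1_mem q c)
  obtain ⟨p2, p3, _, _⟩ := choose_facts q hq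
  have hcoef : ∀ N < 5, coeff (4 * N + 1) (Cs ^ (2 * q)) +
      8 * c * coeff (4 * N + 1) (Cs ^ (2 * q) * ka) =
      a0 + 4 * a1 * ((Nat.choose N 1 : ℕ) : ℤ) + 16 * a2 * ((Nat.choose N 2 : ℕ) : ℤ) +
      64 * a3 * ((Nat.choose N 3 : ℕ) : ℤ) + 256 * a4 * ((Nat.choose N 4 : ℕ) : ℤ) := by
    intro N hN
    have h1 := congrArg (coeff N) hF
    unfold F1 at h1
    simp only [map_add, coeff_zsmul, coeff_U, coeff_b, hz N hN] at h1
    rw [h1, Nat.choose_zero_right]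
    push_cast
    ring
  have h0 := hcoef 0 (by norm_num)
  have h1 := hcoef 1 (by norm_num)
  have h2 := hcoef 2 (by norm_num)
  have h3 := hcoef 3 (by norm_num)
  have h4 := hcoef 4 (by norm_num)
  clear hcoef hz
  norm_num [Nat.choose] at h0 h1 h2 h3 h4
  obtain ⟨z0, e0⟩ := coeff_W q 1 (by norm_num)
  obtain ⟨z1, e1⟩ := coeff_W q 5 (by norm_num)
  obtain ⟨z2, e2⟩ := coeff_W q 9 (by norm_num)
  obtain ⟨z3, e3⟩ := coeff_W q 13 (by norm_num)
  obtain ⟨z4, e4⟩ := coeff_W q 17 (by norm_num)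
  obtain ⟨y0, d0⟩ := coeff_kW q 1
  obtain ⟨y1, d1⟩ := coeff_kW q 5
  obtain ⟨y2, d2⟩ := coeff_kW q 9
  obtain ⟨y3, d3⟩ := coeff_kW q 13
  obtain ⟨y4, d4⟩ := coeff_kW q 17
  rw [show cc [8, 20, 16] 1 = 8 by decide +kernel,
    show cc [0, 64, 320, 656, 640, 256] 1 = 0 by decide +kernel,
    show cc [0, 0, 512, 3840, 12672, 23360, 25344, 15360, 4096] 1 = 0 by decide +kernel,
    show cc [0, 0, 0, 4096, 40960, 186368, 501760, 872704, 1003520, 745472, 327680, 65536] 1 = 0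
      by decide +kernel] at e0
  rw [show cc [8, 20, 16] 5 = 776 by decide +kernel,
    show cc [0, 64, 320, 656, 640, 256] 5 = 13888 by decide +kernel,
    show cc [0, 0, 512, 3840, 12672, 23360, 25344, 15360, 4096] 5 = 54144 by decide +kernel,
    show cc [0, 0, 0, 4096, 40960, 186368, 501760, 872704, 1003520, 745472, 327680, 65536] 5 =
      73728 by decide +kernel] at e1
  rw [show cc [8, 20, 16] 9 = 9864 by decide +kernel,
    show cc [0, 64, 320, 656, 640, 256] 9 = 1225856 by decide +kernel,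
    show cc [0, 0, 512, 3840, 12672, 23360, 25344, 15360, 4096] 9 = 23752320 by decide +kernel,
    show cc [0, 0, 0, 4096, 40960, 186368, 501760, 872704, 1003520, 745472, 327680, 65536] 9 =
      168019968 by decide +kernel] at e2
  rw [show cc [8, 20, 16] 13 = 55432 by decide +kernel,
    show cc [0, 64, 320, 656, 640, 256] 13 = 32194240 by decide +kernel,
    show cc [0, 0, 512, 3840, 12672, 23360, 25344, 15360, 4096] 13 = 2047221504
      by decide +kernel,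
    show cc [0, 0, 0, 4096, 40960, 186368, 501760, 872704, 1003520, 745472, 327680, 65536] 13 =
      41356296192 by decide +kernel] at e3
  rw [show cc [8, 20, 16] 17 = 202504 by decide +kernel,
    show cc [0, 64, 320, 656, 640, 256] 17 = 423332096 by decide +kernel,
    show cc [0, 0, 512, 3840, 12672, 23360, 25344, 15360, 4096] 17 = 74015804160
      by decide +kernel,
    show cc [0, 0, 0, 4096, 40960, 186368, 501760, 872704, 1003520, 745472, 327680, 65536] 17 =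
      3538128433152 by decide +kernel] at e4
  rw [show cc [0, 8, 20, 16] 1 = 0 by decide +kernel,
    show cc [0, 0, 64, 320, 656, 640, 256] 1 = 0 by decide +kernel] at d0
  rw [show cc [0, 8, 20, 16] 5 = 708 by decide +kernel,
    show cc [0, 0, 64, 320, 656, 640, 256] 5 = 4560 by decide +kernel] at d1
  rw [show cc [0, 8, 20, 16] 9 = 22872 by decide +kernel,
    show cc [0, 0, 64, 320, 656, 640, 256] 9 = 1011888 by decide +kernel] at d2
  rw [show cc [0, 8, 20, 16] 13 = 246012 by decide +kernel,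
    show cc [0, 0, 64, 320, 656, 640, 256] 13 = 47113504 by decide +kernel] at d3
  rw [show cc [0, 8, 20, 16] 17 = 1479408 by decide +kernel,
    show cc [0, 0, 64, 320, 656, 640, 256] 17 = 962726048 by decide +kernel] at d4
  rw [e0, d0] at h0
  rw [e1, d1] at h1
  rw [e2, d2] at h2
  rw [e3, d3] at h3
  rw [e4, d4] at h4
  generalize ((Nat.choose q 2 : ℕ) : ℤ) = b2 at *
  generalize ((Nat.choose q 3 : ℕ) : ℤ) = b3 at *
  generalize ((Nat.choose q 4 : ℕ) : ℤ) = b4 at *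
  have key : a0 % 64 = 0 ∧ a1 % 32 = 16 ∧ a2 % 16 = 0 ∧ a3 % 4 = 0 ∧ a4 % 2 = 0 := by
    rcases hc with ⟨rfl, hq8⟩ | ⟨rfl, hq8⟩
    · push_cast at *
      clear hF hg
      refine ⟨by omega, by omega, by omega, by omega, by omega⟩
    · push_cast at *
      clear hF hg
      refine ⟨by omega, by omega, by omega, by omega, by omega⟩
  obtain ⟨k0, k1, k2, k3, k4⟩ := key
  obtain ⟨j0, rfl⟩ : ∃ j, a0 = 64 * j := ⟨a0 / 64, by omega⟩
  obtain ⟨j1, rfl⟩ : ∃ j, a1 = 16 * (2 * j + 1) := ⟨a1 / 32, by omega⟩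
  obtain ⟨j2, rfl⟩ : ∃ j, a2 = 16 * j := ⟨a2 / 16, by omega⟩
  obtain ⟨j3, rfl⟩ : ∃ j, a3 = 4 * j := ⟨a3 / 4, by omega⟩
  obtain ⟨j4, rfl⟩ : ∃ j, a4 = 2 * j := ⟨a4 / 2, by omega⟩
  refine ⟨j0, 2 * j1 + 1, by omega, j2 • ((2 : ℤ) ^ 1 • b 2) + j3 • ((2 : ℤ) ^ 1 • b 3) +
    j4 • ((2 : ℤ) ^ 2 • b 4) + g, ?_, ?_⟩
  · exact add_mem (add_mem (add_mem (Submodule.smul_mem _ _ (pow_smul_mem (by norm_num)))
      (Submodule.smul_mem _ _ (pow_smul_mem (by norm_num))))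
      (Submodule.smul_mem _ _ (pow_smul_mem (by norm_num)))) hg
  · rw [hF]
    simp only [zsmul_eq_mul]
    push_cast
    ring

end Pool.Agent.R443.Iso
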