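import Pool.Agent.R443.Bin
import Pool.Agent.R443.IsoD

/-!
# `c_m(4n) - c_m(n)` for `m ≡ 15 (mod 16)`
-/

set_option autoImplicit false

namespace Pool.Agent.R443.Bin

open PowerSeries Finset
open Pool.Agent.R443.PS Pool.Agent.R443.SK Pool.Agent.R443.Iso

theorem coeff_two_pow (m n : ℕ) (hn : n ≠ 0) (hmn : n ≤ m) : coeff n ((1 + 2 * ka) ^ m) =
    ∑ i ∈ range n, ((Nat.choose m (i + 1) : ℕ) : ℤ) * 2 ^ (i + 1) *
      ((Nat.choose (n + i) (2 * i + 1) : ℕ) : ℤ) := by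
  have h1 : (1 + 2 * ka : ℤ⟦X⟧) ^ m =
      ∑ j ∈ range (m + 1), (((Nat.choose m j : ℕ) : ℤ) * 2 ^ j) • ka ^ j := by
    rw [add_comm, add_pow]
    apply sum_congr rfl
    intro j _
    simp only [zsmul_eq_mul, one_pow, mul_one]
    push_cast
    ring
  rw [h1, map_sum, sum_range_succ']
  have h2 : coeff n ((((Nat.choose m 0 : ℕ) : ℤ) * 2 ^ 0) • ka ^ 0) = 0 := by
    rw [coeff_zsmul, pow_zero, pow_zero, coeff_one, if_neg hn, mul_zero]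
  rw [h2, add_zero]
  symm
  rw [← sum_subset (range_mono hmn)]
  · apply sum_congr rfl
    intro i _
    rw [coeff_zsmul, coeff_ka_pow]
  · intro i _ hi
    rw [mem_range] at hi
    rw [coeff_zsmul, coeff_ka_pow, Nat.choose_eq_zero_of_lt (by omega : n + i < 2 * i + 1)]
    simp

/-- residues of small binomial coefficients for `m = 16 u + 15` -/
theorem choose_facts15 (u : ℕ) : ∃ x1 x2 x3 x4 x5 : ℤ,
    ((Nat.choose (16 * u + 15) 2 : ℕ) : ℤ) = 8 * u + 9 + 16 * x1 ∧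
    ((Nat.choose (16 * u + 15) 3 : ℕ) : ℤ) = 7 + 8 * x2 ∧
    ((Nat.choose (16 * u + 15) 4 : ℕ) : ℤ) = 4 * u + 5 + 8 * x3 ∧
    ((Nat.choose (16 * u + 15) 5 : ℕ) : ℤ) = 1 + 2 * x4 ∧
    ((Nat.choose (16 * u + 15) 6 : ℕ) : ℤ) = 1 + 2 * x5 := by
  have e2 := two_choose (16 * u + 15)
  have e3 : ((Nat.choose (16 * u + 15) 3 : ℕ) : ℤ) * 3 =
      ((Nat.choose (16 * u + 15) 2 : ℕ) : ℤ) * (16 * u + 13) := by
    have h := Nat.choose_succ_right_eq (16 * u + 15) 2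
    rw [show 16 * u + 15 - 2 = 16 * u + 13 by omega] at h
    exact_mod_cast h
  have e4 : ((Nat.choose (16 * u + 15) 4 : ℕ) : ℤ) * 4 =
      ((Nat.choose (16 * u + 15) 3 : ℕ) : ℤ) * (16 * u + 12) := by
    have h := Nat.choose_succ_right_eq (16 * u + 15) 3
    rw [show 16 * u + 15 - 3 = 16 * u + 12 by omega] at h
    exact_mod_cast h
  have e5 : ((Nat.choose (16 * u + 15) 5 : ℕ) : ℤ) * 5 =
      ((Nat.choose (16 * u + 15) 4 : ℕ) : ℤ) * (16 * u + 11) := by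
    have h := Nat.choose_succ_right_eq (16 * u + 15) 4
    rw [show 16 * u + 15 - 4 = 16 * u + 11 by omega] at h
    exact_mod_cast h
  have e6 : ((Nat.choose (16 * u + 15) 6 : ℕ) : ℤ) * 6 =
      ((Nat.choose (16 * u + 15) 5 : ℕ) : ℤ) * (16 * u + 10) := by
    have h := Nat.choose_succ_right_eq (16 * u + 15) 5
    rw [show 16 * u + 15 - 5 = 16 * u + 10 by omega] at h
    exact_mod_cast h
  push_cast at e2
  generalize ((Nat.choose (16 * u + 15) 2 : ℕ) : ℤ) = c2 at *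
  generalize ((Nat.choose (16 * u + 15) 3 : ℕ) : ℤ) = c3 at *
  generalize ((Nat.choose (16 * u + 15) 4 : ℕ) : ℤ) = c4 at *
  generalize ((Nat.choose (16 * u + 15) 5 : ℕ) : ℤ) = c5 at *
  generalize ((Nat.choose (16 * u + 15) 6 : ℕ) : ℤ) = c6 at *
  have f2 : c2 = 8 * u + 9 + 16 * (8 * (u : ℤ) ^ 2 + 14 * u + 6) := by
    have : 2 * c2 = 2 * (8 * u + 9 + 16 * (8 * (u : ℤ) ^ 2 + 14 * u + 6)) := by
      rw [e2]
      ring
    linarith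
  have f3 : ∃ x, c3 = 7 + 8 * x := by
    have h : c3 * 3 = 8 * (16 * (u : ℤ) ^ 2 + 31 * u + 8 * (u : ℤ) * 2 +
      2 * (8 * (u : ℤ) ^ 2 + 14 * u + 6) * (16 * u + 13) - 8 * u - 8 * u + 14) + 5 - 0 := by
      rw [e3, f2]
      ring
    generalize (16 * (u : ℤ) ^ 2 + 31 * u + 8 * (u : ℤ) * 2 +
      2 * (8 * (u : ℤ) ^ 2 + 14 * u + 6) * (16 * u + 13) - 8 * u - 8 * u + 14) = w at h
    exact ⟨(c3 - 7) / 8, by omega⟩
  obtain ⟨x2, hx2⟩ := f3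
  have f4 : c4 = 4 * u + 5 + 8 * (4 * x2 * u + 3 * x2 + 3 * u + 2) := by
    have : c4 * 4 = 4 * (4 * u + 5 + 8 * (4 * x2 * u + 3 * x2 + 3 * u + 2)) := by
      rw [e4, hx2]
      ring
    linarith
  have f5 : ∃ x, c5 = 1 + 2 * x := by
    have h : c5 * 5 = 2 * ((4 * u + 5 + 8 * (4 * x2 * u + 3 * x2 + 3 * u + 2)) * (8 * u + 5) +
      (2 * u + 2 + 4 * (4 * x2 * u + 3 * x2 + 3 * u + 2))) + 1 := by
      rw [e5, f4]
      ring
    generalize ((4 * u + 5 + 8 * (4 * x2 * u + 3 * x2 + 3 * u + 2)) * (8 * u + 5) +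
      (2 * u + 2 + 4 * (4 * x2 * u + 3 * x2 + 3 * u + 2))) = w at h
    exact ⟨(c5 - 1) / 2, by omega⟩
  obtain ⟨x4, hx4⟩ := f5
  have f6 : ∃ x, c6 = 1 + 2 * x := by
    have h : c6 * 6 = 2 * (2 * (x4 * (8 * u + 5) + 4 * u + 2) + 1) := by
      rw [e6, hx4]
      ring
    generalize x4 * (8 * (u : ℤ) + 5) + 4 * u + 2 = w at h
    exact ⟨(c6 - 1) / 2, by omega⟩
  obtain ⟨x5, hx5⟩ := f6
  exact ⟨_, x2, _, x4, x5, f2, hx2, f4, hx4, hx5⟩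

theorem sum4 (f : ℕ → ℤ) : ∑ i ∈ range 4, f (i + 1) * 2 ^ (i + 1) *
    ((Nat.choose (4 + i) (2 * i + 1) : ℕ) : ℤ) = 8 * f 1 + 40 * f 2 + 48 * f 3 + 16 * f 4 := by
  simp only [sum_range_succ, sum_range_zero]
  rw [show Nat.choose (4 + 0) (2 * 0 + 1) = 4 from rfl,
    show Nat.choose (4 + 1) (2 * 1 + 1) = 10 from rfl,
    show Nat.choose (4 + 2) (2 * 2 + 1) = 6 from rfl,
    show Nat.choose (4 + 3) (2 * 3 + 1) = 1 from rfl]
  push_cast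
  ring

theorem sum8 (f : ℕ → ℤ) : ∑ i ∈ range 8, f (i + 1) * 2 ^ (i + 1) *
    ((Nat.choose (8 + i) (2 * i + 1) : ℕ) : ℤ) = 16 * f 1 + 336 * f 2 + 2016 * f 3 + 5280 * f 4 +
      7040 * f 5 + 4992 * f 6 + 1792 * f 7 + 256 * f 8 := by
  simp only [sum_range_succ, sum_range_zero]
  rw [show Nat.choose (8 + 0) (2 * 0 + 1) = 8 from rfl,
    show Nat.choose (8 + 1) (2 * 1 + 1) = 84 from rfl,
    show Nat.choose (8 + 2) (2 * 2 + 1) = 252 from rfl,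
    show Nat.choose (8 + 3) (2 * 3 + 1) = 330 from rfl,
    show Nat.choose (8 + 4) (2 * 4 + 1) = 220 from rfl,
    show Nat.choose (8 + 5) (2 * 5 + 1) = 78 from rfl,
    show Nat.choose (8 + 6) (2 * 6 + 1) = 14 from rfl,
    show Nat.choose (8 + 7) (2 * 7 + 1) = 1 from rfl]
  push_cast
  ring

theorem arith15 (u a c c7 c8 x1 x2 x3 x4 x5 : ℤ)
    (k1 : 8 * (16 * u + 15) + 40 * (8 * u + 9 + 16 * x1) + 48 * (7 + 8 * x2) +
      16 * (4 * u + 5 + 8 * x3) = 8 * a)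
    (k2 : 16 * (16 * u + 15) + 336 * (8 * u + 9 + 16 * x1) + 2016 * (7 + 8 * x2) +
      5280 * (4 * u + 5 + 8 * x3) + 7040 * (1 + 2 * x4) + 4992 * (1 + 2 * x5) + 1792 * c7 +
      256 * c8 = 16 * a + 128 * c) : a % 16 = 0 ∧ c % 2 = 0 := by
  omega

/-- For `m ≡ 15 (mod 16)` the difference is divisible by `2^(ν₂(n)+7)`. -/
theorem diff_dvd (m n : ℕ) (hm : m % 16 = 15) (hn : n ≠ 0) :
    (2 : ℤ) ^ (padicValNat 2 n + 7) ∣ S 2 m (4 * n) - S 2 m n := by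
  obtain ⟨u, rfl⟩ : ∃ u, m = 16 * u + 15 := ⟨m / 16, by omega⟩
  obtain ⟨v, hv, hU⟩ := section_eq (16 * u + 15)
  obtain ⟨a, c, h, hh, rfl, z1, z2⟩ := V4_decomp2 hv
  have k1 := congrArg (coeff 1) hU
  have k2 := congrArg (coeff 2) hU
  rw [coeff_U] at k1 k2
  have hsq1 : coeff 1 (ka ^ 2) = 0 := by
    rw [coeff_ka_sq]
    rfl
  have hsq2 : coeff 2 (ka ^ 2) = 1 := by
    rw [coeff_ka_sq]
    rfl
  have hX : (1 : ℤ⟦X⟧) + (2 : ℤ) • (a • (4 * ka) + c • (64 * ka ^ 2) +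
      (256 : ℤ) • (2 * ka * (2 * ka * h))) = 1 + (8 * a) • ka + (128 * c) • ka ^ 2 +
      (2048 : ℤ) • (ka ^ 2 * h) := by
    simp only [zsmul_eq_mul]
    push_cast
    ring
  rw [hX, map_add, map_add, map_add, coeff_zsmul, coeff_zsmul, coeff_zsmul, coeff_one, coeff_ka,
    hsq1, z1, if_neg (by decide), show 4 * 1 + 0 = 4 from rfl,
    coeff_two_pow (16 * u + 15) 4 (by decide) (by omega),
    sum4 (fun j => ((Nat.choose (16 * u + 15) j : ℕ) : ℤ))] at k1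
  rw [hX, map_add, map_add, map_add, coeff_zsmul, coeff_zsmul, coeff_zsmul, coeff_one, coeff_ka,
    hsq2, z2, if_neg (by decide), show 4 * 2 + 0 = 8 from rfl,
    coeff_two_pow (16 * u + 15) 8 (by decide) (by omega),
    sum8 (fun j => ((Nat.choose (16 * u + 15) j : ℕ) : ℤ))] at k2
  obtain ⟨x1, x2, x3, x4, x5, c2, c3, c4, c5, c6⟩ := choose_facts15 u
  rw [Nat.choose_one_right, c2, c3, c4] at k1
  rw [Nat.choose_one_right, c2, c3, c4, c5, c6] at k2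
  obtain ⟨ha, hc⟩ := arith15 u a c ((Nat.choose (16 * u + 15) 7 : ℕ) : ℤ)
    ((Nat.choose (16 * u + 15) 8 : ℕ) : ℤ) x1 x2 x3 x4 x5 (by push_cast at k1; linarith)
    (by push_cast at k2; linarith)
  obtain ⟨a', rfl⟩ : ∃ a', a = 16 * a' := ⟨a / 16, by omega⟩
  obtain ⟨c', rfl⟩ : ∃ c', c = 2 * c' := ⟨c / 2, by omega⟩
  rw [diff_eq _ n _ hU]
  have hw : (16 * a') • (4 * ka) + (2 * c') • (64 * ka ^ 2) + (256 : ℤ) • (2 * ka * (2 * ka * h)) =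
      (64 : ℤ) • (a' • (ka * (2 * ka) ^ 0) + c' • (ka * (2 * ka) ^ 1) +
        (4 : ℤ) • (2 * ka * (2 * ka * h))) := by
    simp only [zsmul_eq_mul]
    push_cast
    ring
  rw [hw, map_smul, smul_eq_mul]
  have hmem : a' • (ka * (2 * ka) ^ 0) + c' • (ka * (2 * ka) ^ 1) +
        (4 : ℤ) • (2 * ka * (2 * ka * h)) ∈ Kk :=
    add_mem (add_mem (Submodule.smul_mem _ _ (Kk_gen 0)) (Submodule.smul_mem _ _ (Kk_gen 1)))
      (Submodule.smul_mem _ _ (Kk_two_ka (Kk_two_ka hh)))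
  obtain ⟨w, hw2⟩ := ps_dvd (16 * u + 15) n hn _ hmem
  rw [hw2]
  refine ⟨w, ?_⟩
  rw [pow_add]
  ring

end Pool.Agent.R443.Bin
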