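import Pool.Agent.R443.PS

/-!
# A conjugate Bailey pair and a Hecke-type series
-/

set_option autoImplicit false

namespace Pool.Agent.R443.CB

open PowerSeries Finset Pool.Agent.R443.PS

/-- `(q²;q²)_n` -/
noncomputable def P (n : ℕ) : ℤ⟦X⟧ := ∏ i ∈ range n, (1 - X ^ (2 * (i + 1)))

/-- the inverse of `(q²;q²)_n` -/
noncomputable def IP (n : ℕ) : ℤ⟦X⟧ := ∏ i ∈ range n, iv (2 * (i + 1))

/-- `(q;q²)_n` -/
noncomputable def O (n : ℕ) : ℤ⟦X⟧ := ∏ i ∈ range n, (1 - X ^ (2 * i + 1))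

/-- `1 / (q²;q²)_{m-k}`, zero for `m < k` -/
noncomputable def J (m k : ℕ) : ℤ⟦X⟧ := if k ≤ m then IP (m - k) else 0

/-- `(-q²;q²)_N / (-q²;q²)_m` -/
noncomputable def bb (m N : ℕ) : ℤ⟦X⟧ := ∏ i ∈ Ico m N, (1 + X ^ (2 * (i + 1)))

theorem P_succ (n : ℕ) : P (n + 1) = P n * (1 - X ^ (2 * (n + 1))) := prod_range_succ _ _

theorem IP_mul (n : ℕ) : IP n = IP (n + 1) * (1 - X ^ (2 * (n + 1))) := by
  unfold IP
  rw [prod_range_succ, mul_assoc, iv_mul (by omega), mul_one]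

theorem P_IP (n : ℕ) : P n * IP n = 1 := by
  unfold P IP
  rw [← prod_mul_distrib]
  apply prod_eq_one
  intro i _
  exact mul_iv (by omega)

theorem J_succ_succ (m k : ℕ) : J (m + 1) (k + 1) = J m k := by
  unfold J
  by_cases h : k ≤ m
  · rw [if_pos h, if_pos (by omega), show m + 1 - (k + 1) = m - k by omega]
  · rw [if_neg h, if_neg (by omega)]

theorem J_succ (m k : ℕ) : J m (k + 1) = J m k * (1 - X ^ (2 * (m - k))) := by
  unfold J
  by_cases h : k + 1 ≤ m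
  · rw [if_pos h, if_pos (by omega), show m - k = (m - (k + 1)) + 1 by omega,
      IP_mul (m - (k + 1))]
  · by_cases h' : k ≤ m
    · rw [if_neg h, if_pos h', show m - k = 0 by omega]
      simp
    · rw [if_neg h, if_neg h', zero_mul]

theorem J_zero (m : ℕ) : J m 0 = IP m := by
  unfold J
  rw [if_pos (Nat.zero_le m), Nat.sub_zero]

theorem J_eq_zero {m k : ℕ} (h : m < k) : J m k = 0 := by
  unfold J
  rw [if_neg (by omega)]

theorem bb_succ {m N : ℕ} (h : m < N) : bb m N = (1 + X ^ (2 * (m + 1))) * bb (m + 1) N :=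
  prod_eq_prod_Ico_succ_bot h _

/-- the Gaussian coefficient with the weight -/
noncomputable def H (N m k : ℕ) : ℤ⟦X⟧ := P (2 * m) * J m k * IP (m + k) * bb m N

/-- the telescoping relation -/
theorem H_rel {N m : ℕ} (k : ℕ) (h : m < N) :
    X ^ (2 * m) * (H N m k + X ^ (6 * k + 6) * H N m (k + 2)) =
      X ^ (2 * k) * (1 + X ^ (2 * k + 2)) * (H N (m + 1) (k + 1) - H N m (k + 1)) := by
  set D := P (2 * m) * J m k * IP (m + k + 2) * bb (m + 1) N with hD
  have e0 : H N m k = D * (1 - X ^ (2 * (m + k + 2))) * (1 - X ^ (2 * (m + k + 1))) *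
      (1 + X ^ (2 * (m + 1))) := by
    rw [H, hD, bb_succ h, IP_mul (m + k), IP_mul (m + k + 1)]
    ring
  have e2 : H N m (k + 2) = D * (1 - X ^ (2 * (m - k))) * (1 - X ^ (2 * (m - (k + 1)))) *
      (1 + X ^ (2 * (m + 1))) := by
    rw [H, hD, bb_succ h, J_succ m (k + 1), J_succ m k, show m + (k + 2) = m + k + 2 by ring]
    ring
  have e3 : H N (m + 1) (k + 1) = D * (1 - X ^ (2 * (2 * m + 1))) *
      (1 - X ^ (2 * (2 * m + 2))) := by
    rw [H, hD, J_succ_succ, show 2 * (m + 1) = 2 * m + 1 + 1 by ring, P_succ, P_succ,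
      show m + 1 + (k + 1) = m + k + 2 by ring]
    ring
  have e1 : H N m (k + 1) = D * (1 - X ^ (2 * (m - k))) * (1 - X ^ (2 * (m + k + 2))) *
      (1 + X ^ (2 * (m + 1))) := by
    rw [H, hD, bb_succ h, J_succ m k, show m + (k + 1) = m + k + 1 by ring,
      IP_mul (m + k + 1)]
    ring
  rw [e0, e1, e2, e3]
  by_cases hk : k ≤ m
  · obtain ⟨d, rfl⟩ := Nat.exists_eq_add_of_le hk
    rcases d with _ | d
    · rw [show k + 0 - k = 0 by omega]
      ring
    · rw [show k + (d + 1) - k = d + 1 by omega, show k + (d + 1) - (k + 1) = d by omega]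
      ring
  · rw [hD, J_eq_zero (by omega)]
    ring

/-- the terms of the finite triple product -/
noncomputable def c (m k : ℕ) : ℤ⟦X⟧ := (-1) ^ k * X ^ (k * k) * (P (2 * m) * J m k * IP (m + k))

theorem c_rec (m j : ℕ) : c (m + 1) (j + 1) = (1 + X ^ (4 * m + 2)) * c m (j + 1) -
    X ^ (2 * m + 1) * (c m j + c m (j + 2)) := by
  set D := (-1) ^ j * P (2 * m) * J m j * IP (m + j + 2) with hD
  have e3 : c (m + 1) (j + 1) = - (D * X ^ ((j + 1) * (j + 1)) * (1 - X ^ (2 * (2 * m + 1))) *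
      (1 - X ^ (2 * (2 * m + 2)))) := by
    rw [c, hD, J_succ_succ, show 2 * (m + 1) = 2 * m + 1 + 1 by ring, P_succ, P_succ,
      show m + 1 + (j + 1) = m + j + 2 by ring, pow_succ (-1 : ℤ⟦X⟧) j]
    ring
  have e1 : c m (j + 1) = - (D * X ^ ((j + 1) * (j + 1)) * (1 - X ^ (2 * (m - j))) *
      (1 - X ^ (2 * (m + j + 2)))) := by
    rw [c, hD, J_succ m j, show m + (j + 1) = m + j + 1 by ring, IP_mul (m + j + 1),
      pow_succ (-1 : ℤ⟦X⟧) j]
    ring
  have e0 : c m j = D * X ^ (j * j) * (1 - X ^ (2 * (m + j + 2))) *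
      (1 - X ^ (2 * (m + j + 1))) := by
    rw [c, hD, IP_mul (m + j), IP_mul (m + j + 1)]
    ring
  have e2 : c m (j + 2) = D * X ^ ((j + 2) * (j + 2)) * (1 - X ^ (2 * (m - j))) *
      (1 - X ^ (2 * (m - (j + 1)))) := by
    rw [c, hD, J_succ m (j + 1), J_succ m j, show m + (j + 2) = m + j + 2 by ring,
      pow_succ (-1 : ℤ⟦X⟧) (j + 1), pow_succ (-1 : ℤ⟦X⟧) j]
    ring
  rw [e0, e1, e2, e3]
  by_cases hk : j ≤ m
  · obtain ⟨d, rfl⟩ := Nat.exists_eq_add_of_le hk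
    rcases d with _ | d
    · rw [show j + 0 - j = 0 by omega]
      ring
    · rw [show j + (d + 1) - j = d + 1 by omega, show j + (d + 1) - (j + 1) = d by omega]
      ring
  · rw [hD, J_eq_zero (by omega)]
    ring

theorem c_rec0 (m : ℕ) : c (m + 1) 0 = (1 + X ^ (4 * m + 2)) * c m 0 -
    2 * X ^ (2 * m + 1) * c m 1 := by
  set D := P (2 * m) * IP (m + 1) * IP (m + 1) with hD
  have e3 : c (m + 1) 0 = D * (1 - X ^ (2 * (2 * m + 1))) * (1 - X ^ (2 * (2 * m + 2))) := by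
    rw [c, hD, J_zero, show 2 * (m + 1) = 2 * m + 1 + 1 by ring, P_succ, P_succ]
    ring
  have e0 : c m 0 = D * (1 - X ^ (2 * (m + 1))) * (1 - X ^ (2 * (m + 1))) := by
    rw [c, hD, J_zero, add_zero, IP_mul m]
    ring
  have e1 : c m 1 = - (X * D * (1 - X ^ (2 * m)) * (1 - X ^ (2 * (m + 1)))) := by
    rw [c, hD, J_succ m 0, J_zero, Nat.sub_zero, IP_mul m]
    ring
  rw [e0, e1, e3]
  ring

/-- the sum of the finite triple product -/
noncomputable def T (M m : ℕ) : ℤ⟦X⟧ := c m 0 + 2 * ∑ k ∈ range M, c m (k + 1)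

theorem c_eq_zero {m k : ℕ} (h : m < k) : c m k = 0 := by
  rw [c, J_eq_zero h]
  ring

theorem T_succ {M m : ℕ} (h : m < M) :
    T M (m + 1) = (1 - X ^ (2 * m + 1)) ^ 2 * T M m := by
  unfold T
  have h1 : ∑ k ∈ range M, c (m + 1) (k + 1) =
      (1 + X ^ (4 * m + 2)) * ∑ k ∈ range M, c m (k + 1) -
      X ^ (2 * m + 1) * (∑ k ∈ range M, c m k + ∑ k ∈ range M, c m (k + 2)) := by
    rw [← sum_add_distrib, mul_sum, mul_sum, ← sum_sub_distrib]
    apply sum_congr rfl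
    intro k _
    exact c_rec m k
  have h2 : ∑ k ∈ range M, c m k = c m 0 + ∑ k ∈ range M, c m (k + 1) := by
    have := sum_range_succ' (fun k => c m k) M
    rw [sum_range_succ, c_eq_zero h, add_zero] at this
    rw [this, add_comm]
  have h3 : ∑ k ∈ range M, c m (k + 2) = ∑ k ∈ range M, c m (k + 1) - c m 1 := by
    have := sum_range_succ' (fun k => c m (k + 1)) M
    rw [sum_range_succ, c_eq_zero (show m < M + 1 by omega), add_zero] at this
    rw [this]
    ring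
  rw [h1, h2, h3, c_rec0]
  ring

theorem T_eq {M : ℕ} : ∀ m : ℕ, m ≤ M → T M m = O m ^ 2 := by
  intro m
  induction m with
  | zero =>
    intro _
    unfold T
    have : ∑ k ∈ range M, c 0 (k + 1) = 0 := by
      apply sum_eq_zero
      intro k _
      exact c_eq_zero (by omega)
    rw [this, c, J_zero, IP, P, O]
    simp
  | succ m ih =>
    intro h
    rw [T_succ (by omega), ih (by omega)]
    unfold O
    rw [prod_range_succ]
    ring

/-! ### Congruences modulo powers of `X` -/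

theorem dvd_mul_sub_one {d : ℕ} {a b : ℤ⟦X⟧} (ha : X ^ d ∣ a - 1) (hb : X ^ d ∣ b - 1) :
    X ^ d ∣ a * b - 1 := by
  have e : a * b - 1 = (a - 1) * b + (b - 1) := by ring
  rw [e]
  exact dvd_add (Dvd.dvd.mul_right ha b) hb

theorem dvd_prod_sub_one {d : ℕ} {ι : Type*} (s : Finset ι) (f : ι → ℤ⟦X⟧)
    (h : ∀ i ∈ s, X ^ d ∣ f i - 1) : X ^ d ∣ ∏ i ∈ s, f i - 1 := by
  classical
  induction s using Finset.induction_on with
  | empty => simp
  | insert a s ha ih =>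
    rw [prod_insert ha]
    exact dvd_mul_sub_one (h a (mem_insert_self a s))
      (ih (fun i hi => h i (mem_insert_of_mem hi)))

theorem P_mul_IP {n N : ℕ} (h : n ≤ N) :
    P N * IP n = ∏ i ∈ Ico n N, (1 - X ^ (2 * (i + 1))) := by
  have : P N = P n * ∏ i ∈ Ico n N, (1 - X ^ (2 * (i + 1))) := by
    unfold P
    rw [prod_range_mul_prod_Ico _ h]
  rw [this, mul_right_comm, P_IP, one_mul]

theorem P_mul_IP_dvd {n N d : ℕ} (h : n ≤ N) (hd : d ≤ 2 * (n + 1)) :
    X ^ d ∣ P N * IP n - 1 := by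
  rw [P_mul_IP h]
  apply dvd_prod_sub_one
  intro i hi
  rw [mem_Ico] at hi
  have e : (1 - X ^ (2 * (i + 1)) : ℤ⟦X⟧) - 1 = X ^ (2 * (i + 1)) * (-1) := by ring
  rw [e]
  exact Dvd.dvd.mul_right (pow_dvd_pow X (by omega)) _

/-- the limiting Gaussian coefficient -/
noncomputable def U (N k : ℕ) : ℤ⟦X⟧ := P N * (P (2 * N) * J N k * IP (N + k))

theorem U_dvd {N k : ℕ} (h : k ≤ N) : X ^ (2 * (N - k + 1)) ∣ U N k - 1 := by
  have e : U N k = (P N * IP (N - k)) * (P (2 * N) * IP (N + k)) := by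
    rw [U, J, if_pos h]
    ring
  rw [e]
  apply dvd_mul_sub_one
  · exact P_mul_IP_dvd (by omega) le_rfl
  · exact P_mul_IP_dvd (by omega) (by omega)

theorem U_zero {N k : ℕ} (h : N < k) : U N k = 0 := by
  rw [U, J_eq_zero h]
  ring

/-- the weighted sums of the Gaussian coefficients -/
noncomputable def A (N k : ℕ) : ℤ⟦X⟧ := P N * ∑ m ∈ range N, X ^ (2 * m) * H N m k

theorem A_rel (N k : ℕ) : A N k + X ^ (6 * k + 6) * A N (k + 2) =
    X ^ (2 * k) * (1 + X ^ (2 * k + 2)) * U N (k + 1) := by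
  have h1 : ∑ m ∈ range N, X ^ (2 * m) * H N m k +
      X ^ (6 * k + 6) * ∑ m ∈ range N, X ^ (2 * m) * H N m (k + 2) =
      X ^ (2 * k) * (1 + X ^ (2 * k + 2)) * (H N N (k + 1) - H N 0 (k + 1)) := by
    rw [← sum_range_sub (fun m => H N m (k + 1)), mul_sum, mul_sum, ← sum_add_distrib]
    apply sum_congr rfl
    intro m hm
    rw [← H_rel k (mem_range.mp hm)]
    ring
  have h2 : H N 0 (k + 1) = 0 := by
    rw [H, J_eq_zero (by omega)]
    ring
  have h3 : H N N (k + 1) = P (2 * N) * J N (k + 1) * IP (N + (k + 1)) := by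
    rw [H, bb, Ico_self, prod_empty, mul_one]
  rw [h2, sub_zero, h3] at h1
  unfold A U
  linear_combination P N * h1

theorem A_dvd (N k : ℕ) : X ^ (2 * N) ∣ A N k + X ^ (6 * k + 6) * A N (k + 2) -
    X ^ (2 * k) * (1 + X ^ (2 * k + 2)) := by
  rw [A_rel]
  have e : X ^ (2 * k) * (1 + X ^ (2 * k + 2)) * U N (k + 1) -
      X ^ (2 * k) * (1 + X ^ (2 * k + 2)) =
      (X ^ (2 * k) * (U N (k + 1) - 1)) * (1 + X ^ (2 * k + 2)) := by ring
  rw [e]
  apply Dvd.dvd.mul_right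
  by_cases h : k + 1 ≤ N
  · obtain ⟨g, hg⟩ := U_dvd h
    rw [hg, show (2 * N : ℕ) = 2 * k + 2 * (N - (k + 1) + 1) by omega, pow_add]
    exact ⟨g, by ring⟩
  · apply Dvd.dvd.mul_right
    exact pow_dvd_pow X (by omega)

/-- the limit of `A N k` -/
noncomputable def B (k n : ℕ) : ℤ⟦X⟧ := ∑ j ∈ range n,
  (-1) ^ j * (X ^ (2 * k + 6 * j * k + 6 * j * j + 4 * j) * (1 + X ^ (2 * k + 4 * j + 2)))

theorem B_succ (k n : ℕ) : B k (n + 1) = X ^ (2 * k) * (1 + X ^ (2 * k + 2)) -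
    X ^ (6 * k + 6) * B (k + 2) n := by
  unfold B
  rw [sum_range_succ', mul_sum]
  have : ∑ j ∈ range n, (-1 : ℤ⟦X⟧) ^ (j + 1) * (X ^ (2 * k + 6 * (j + 1) * k +
      6 * (j + 1) * (j + 1) + 4 * (j + 1)) * (1 + X ^ (2 * k + 4 * (j + 1) + 2))) =
      - ∑ j ∈ range n, X ^ (6 * k + 6) * ((-1) ^ j * (X ^ (2 * (k + 2) + 6 * j * (k + 2) +
      6 * j * j + 4 * j) * (1 + X ^ (2 * (k + 2) + 4 * j + 2)))) := by
    rw [← sum_neg_distrib]
    apply sum_congr rfl
    intro j _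
    rw [pow_succ (-1 : ℤ⟦X⟧) j]
    ring
  rw [this]
  ring

theorem A_sub_B (N : ℕ) : ∀ n d k : ℕ, d ≤ 2 * N → d ≤ 6 * n → X ^ d ∣ A N k - B k n := by
  intro n
  induction n with
  | zero =>
    intro d k _ h
    rw [show d = 0 by omega, pow_zero]
    exact one_dvd _
  | succ n ih =>
    intro d k h1 h2
    have e : A N k - B k (n + 1) = (A N k + X ^ (6 * k + 6) * A N (k + 2) -
        X ^ (2 * k) * (1 + X ^ (2 * k + 2))) - X ^ (6 * k + 6) * (A N (k + 2) - B (k + 2) n) := by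
      rw [B_succ]
      ring
    rw [e]
    apply dvd_sub
    · exact (pow_dvd_pow X h1).trans (A_dvd N k)
    · obtain ⟨g, hg⟩ := ih (d - 6) (k + 2) (by omega) (by omega)
      rw [hg, ← mul_assoc, ← pow_add]
      exact Dvd.dvd.mul_right (pow_dvd_pow X (by omega)) _

/-! ### The generating function -/

/-- the truncated generating function -/
noncomputable def G (N : ℕ) : ℤ⟦X⟧ := ∑ m ∈ range N,
  (∏ i ∈ Ico m N, (1 + X ^ (2 * (i + 1)))) * X ^ (2 * m + 1) *
    (∏ i ∈ Ico m N, iv (2 * i + 1)) ^ 2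

/-- the truncated theta series -/
noncomputable def Th (N : ℕ) : ℤ⟦X⟧ := 1 + 2 * ∑ k ∈ range N, (-1) ^ (k + 1) * X ^ ((k + 1) * (k + 1))

/-- the truncated Hecke-type series -/
noncomputable def W (N : ℕ) : ℤ⟦X⟧ := X * (B 0 N + 2 * ∑ k ∈ range N,
  (-1) ^ (k + 1) * X ^ ((k + 1) * (k + 1)) * B (k + 1) N)

theorem O_mul_iv {m N : ℕ} (h : m ≤ N) : O N * ∏ i ∈ Ico m N, iv (2 * i + 1) = O m := by
  unfold O
  rw [← prod_range_mul_prod_Ico _ h, mul_assoc, ← prod_mul_distrib]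
  have : ∏ i ∈ Ico m N, ((1 - X ^ (2 * i + 1)) * iv (2 * i + 1)) = (1 : ℤ⟦X⟧) := by
    apply prod_eq_one
    intro i _
    exact mul_iv (by omega)
  rw [this, mul_one]

theorem G_mul (N : ℕ) : G N * (O N ^ 2 * P N) = X * (A N 0 + 2 * ∑ k ∈ range N,
    (-1) ^ (k + 1) * X ^ ((k + 1) * (k + 1)) * A N (k + 1)) := by
  have h1 : G N * (O N ^ 2 * P N) =
      X * (P N * ∑ m ∈ range N, X ^ (2 * m) * bb m N * T N m) := by
    unfold G
    rw [sum_mul, mul_sum, mul_sum]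
    apply sum_congr rfl
    intro m hm
    rw [T_eq m (by rw [mem_range] at hm; omega),
      ← O_mul_iv (show m ≤ N by rw [mem_range] at hm; omega)]
    unfold bb
    ring
  have h2 : ∀ m : ℕ, X ^ (2 * m) * bb m N * T N m = X ^ (2 * m) * H N m 0 +
      ∑ k ∈ range N, 2 * ((-1) ^ (k + 1) * X ^ ((k + 1) * (k + 1))) *
        (X ^ (2 * m) * H N m (k + 1)) := by
    intro m
    unfold T
    rw [mul_add]
    congr 1
    · unfold c H
      ring
    · rw [← mul_assoc, mul_sum]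
      apply sum_congr rfl
      intro k _
      unfold c H
      ring
  have h3 : ∑ m ∈ range N, X ^ (2 * m) * bb m N * T N m =
      ∑ m ∈ range N, X ^ (2 * m) * H N m 0 + ∑ k ∈ range N,
        2 * ((-1) ^ (k + 1) * X ^ ((k + 1) * (k + 1))) *
        ∑ m ∈ range N, X ^ (2 * m) * H N m (k + 1) := by
    rw [sum_congr rfl (fun m _ => h2 m), sum_add_distrib, sum_comm]
    congr 1
    apply sum_congr rfl
    intro k _
    rw [mul_sum]
  rw [h1, h3]
  congr 1
  unfold A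
  rw [mul_add]
  congr 1
  rw [mul_sum, mul_sum]
  apply sum_congr rfl
  intro k _
  ring

theorem OP_dvd (N : ℕ) : X ^ (2 * N) ∣ O N ^ 2 * P N - Th N := by
  rw [← T_eq N le_rfl]
  have key : ∀ k : ℕ, X ^ (2 * N) ∣ P N * c N k - (-1) ^ k * X ^ (k * k) := by
    intro k
    have e : P N * c N k - (-1) ^ k * X ^ (k * k) =
        (X ^ (k * k) * (U N k - 1)) * (-1) ^ k := by
      unfold c U
      ring
    rw [e]
    apply Dvd.dvd.mul_right
    by_cases h : k ≤ N
    · obtain ⟨g, hg⟩ := U_dvd h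
      rw [hg, ← mul_assoc, ← pow_add]
      apply Dvd.dvd.mul_right
      apply pow_dvd_pow X
      have : 2 * k ≤ k * k + 1 := by nlinarith [sq_nonneg ((k : ℤ) - 1)]
      omega
    · apply Dvd.dvd.mul_right
      apply pow_dvd_pow X
      nlinarith
  have e : T N N * P N - Th N = (P N * c N 0 - (-1) ^ 0 * X ^ (0 * 0)) +
      2 * ∑ k ∈ range N, (P N * c N (k + 1) - (-1) ^ (k + 1) * X ^ ((k + 1) * (k + 1))) := by
    unfold T Th
    rw [sum_sub_distrib, ← mul_sum]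
    ring
  rw [e]
  apply dvd_add (key 0)
  apply Dvd.dvd.mul_left
  exact dvd_sum (fun k _ => key (k + 1))

/-- the main identity, truncated -/
theorem main (N : ℕ) : X ^ (2 * N) ∣ G N * Th N - W N := by
  have e : G N * Th N - W N = (G N * (O N ^ 2 * P N) - W N) -
      G N * (O N ^ 2 * P N - Th N) := by ring
  rw [e]
  apply dvd_sub
  · rw [G_mul]
    unfold W
    have e2 : X * (A N 0 + 2 * ∑ k ∈ range N, (-1) ^ (k + 1) * X ^ ((k + 1) * (k + 1)) *
        A N (k + 1)) - X * (B 0 N + 2 * ∑ k ∈ range N,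
        (-1) ^ (k + 1) * X ^ ((k + 1) * (k + 1)) * B (k + 1) N) =
        X * ((A N 0 - B 0 N) + 2 * ∑ k ∈ range N, (-1) ^ (k + 1) * X ^ ((k + 1) * (k + 1)) *
        (A N (k + 1) - B (k + 1) N)) := by
      simp only [mul_sub, sum_sub_distrib]
      ring
    rw [e2]
    apply Dvd.dvd.mul_left
    apply dvd_add (A_sub_B N N (2 * N) 0 le_rfl (by omega))
    apply Dvd.dvd.mul_left
    apply dvd_sum
    intro k _
    exact Dvd.dvd.mul_left (A_sub_B N N (2 * N) (k + 1) le_rfl (by omega)) _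
  · exact Dvd.dvd.mul_left (OP_dvd N) _

end Pool.Agent.R443.CB
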