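import Pool.Agent.R443.Quad2

/-!
# The form `x² + 2 y²` and divisors
-/

set_option autoImplicit false

namespace Pool.Agent.R443.Quad

open Finset Pool.Agent.R443.Nu2

/-- positive solutions of `x² + 2 y z = M` -/
noncomputable def T3 (M : ℤ) : Finset (ℤ × ℤ × ℤ) :=
  (Icc 1 M ×ˢ Icc 1 M ×ˢ Icc 1 M).filter (fun v => v.1 * v.1 + 2 * (v.2.1 * v.2.2) = M)

theorem mem_T3 {M x y z : ℤ} : (x, y, z) ∈ T3 M ↔
    0 < x ∧ 0 < y ∧ 0 < z ∧ x * x + 2 * (y * z) = M := by
  unfold T3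
  simp only [mem_filter, mem_product, mem_Icc]
  constructor
  · rintro ⟨⟨⟨h1, _⟩, ⟨h2, _⟩, h3, _⟩, h4⟩
    exact ⟨by omega, by omega, by omega, h4⟩
  · rintro ⟨h1, h2, h3, h4⟩
    have a1 := self_le x
    have a2 : 0 < y * z := mul_pos h2 h3
    have a3 : y ≤ y * z := by nlinarith
    have a4 : z ≤ y * z := by nlinarith
    refine ⟨⟨⟨by omega, by omega⟩, ⟨by omega, by omega⟩, by omega, by omega⟩, h4⟩

/-- the piecewise linear involution -/
def jk (v : ℤ × ℤ × ℤ) : ℤ × ℤ × ℤ :=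
  if 2 * v.2.1 < v.1 then
    (v.1 - 2 * v.2.1, v.2.2 + 2 * v.1 - 2 * v.2.1, v.2.1)
  else if 2 * v.2.1 < 2 * v.1 + v.2.2 then
    (2 * v.2.1 - v.1, v.2.1, 2 * v.1 - 2 * v.2.1 + v.2.2)
  else if 2 * v.2.1 < 3 * v.1 + 2 * v.2.2 then
    (3 * v.1 - 2 * v.2.1 + 2 * v.2.2, 2 * v.1 - v.2.1 + 2 * v.2.2, -2 * v.1 + 2 * v.2.1 - v.2.2)
  else if v.2.1 < 2 * v.1 + 2 * v.2.2 then
    (-3 * v.1 + 2 * v.2.1 - 2 * v.2.2, -2 * v.1 + 2 * v.2.1 - v.2.2, 2 * v.1 - v.2.1 + 2 * v.2.2)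
  else
    (v.1 + 2 * v.2.2, v.2.2, -2 * v.1 + v.2.1 - 2 * v.2.2)

theorem jk1 {x y z : ℤ} (h : 2 * y < x) :
    jk (x, y, z) = (x - 2 * y, z + 2 * x - 2 * y, y) := if_pos h

theorem jk2 {x y z : ℤ} (h : x ≤ 2 * y) (h' : 2 * y < 2 * x + z) :
    jk (x, y, z) = (2 * y - x, y, 2 * x - 2 * y + z) :=
  (if_neg (not_lt.mpr h)).trans (if_pos h')

theorem jk3 {x y z : ℤ} (h0 : x ≤ 2 * y) (h : 2 * x + z ≤ 2 * y) (h' : 2 * y < 3 * x + 2 * z) :
    jk (x, y, z) = (3 * x - 2 * y + 2 * z, 2 * x - y + 2 * z, -2 * x + 2 * y - z) :=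
  (if_neg (not_lt.mpr h0)).trans ((if_neg (not_lt.mpr h)).trans (if_pos h'))

theorem jk4 {x y z : ℤ} (h0 : x ≤ 2 * y) (h1 : 2 * x + z ≤ 2 * y) (h : 3 * x + 2 * z ≤ 2 * y)
    (h' : y < 2 * x + 2 * z) :
    jk (x, y, z) = (-3 * x + 2 * y - 2 * z, -2 * x + 2 * y - z, 2 * x - y + 2 * z) :=
  (if_neg (not_lt.mpr h0)).trans ((if_neg (not_lt.mpr h1)).trans
    ((if_neg (not_lt.mpr h)).trans (if_pos h')))

theorem jk5 {x y z : ℤ} (h0 : x ≤ 2 * y) (h1 : 2 * x + z ≤ 2 * y) (h : 3 * x + 2 * z ≤ 2 * y)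
    (h' : 2 * x + 2 * z ≤ y) :
    jk (x, y, z) = (x + 2 * z, z, -2 * x + y - 2 * z) :=
  (if_neg (not_lt.mpr h0)).trans ((if_neg (not_lt.mpr h1)).trans
    ((if_neg (not_lt.mpr h)).trans (if_neg (not_lt.mpr h'))))

theorem mod8 (t : ℤ) : t * t % 8 = 0 ∨ t * t % 8 = 1 ∨ t * t % 8 = 4 := by
  have h3 : t % 8 = 0 ∨ t % 8 = 1 ∨ t % 8 = 2 ∨ t % 8 = 3 ∨ t % 8 = 4 ∨ t % 8 = 5 ∨ t % 8 = 6 ∨
    t % 8 = 7 := by omega
  rcases h3 with h | h | h | h | h | h | h | h <;> simp [Int.mul_emod, h]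

/-- the five regions, with strict inequalities -/
theorem regions {M x y z : ℤ} (hM : M % 8 = 3) (h : (x, y, z) ∈ T3 M) :
    (2 * y < x) ∨ (x < 2 * y ∧ 2 * y < 2 * x + z) ∨ (2 * x + z < 2 * y ∧ 2 * y < 3 * x + 2 * z) ∨
      (3 * x + 2 * z < 2 * y ∧ y < 2 * x + 2 * z) ∨ (2 * x + 2 * z < y) := by
  rw [mem_T3] at h
  obtain ⟨h1, h2, h3, h4⟩ := h
  have hx : x % 2 = 1 := by
    by_contra hcon
    obtain ⟨c, rfl⟩ : ∃ c, x = 2 * c := ⟨x / 2, by omega⟩
    have e : 2 * c * (2 * c) = 2 * (2 * (c * c)) := by ring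
    omega
  have n1 : 2 * y ≠ x := by omega
  have n2 : 2 * y ≠ 2 * x + z := by
    intro h
    have hz : z = 2 * y - 2 * x := by omega
    subst hz
    have e : x * x + 2 * (y * (2 * y - 2 * x)) = (2 * y - x) * (2 * y - x) := by ring
    have := mod8 (2 * y - x)
    omega
  have n3 : 2 * y ≠ 3 * x + 2 * z := by omega
  have n4 : y ≠ 2 * x + 2 * z := by
    intro h
    subst h
    have e : x * x + 2 * ((2 * x + 2 * z) * z) = (x + 2 * z) * (x + 2 * z) := by ring
    have := mod8 (x + 2 * z)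
    omega
  omega

theorem T3_div {M : ℤ} (hM : M % 8 = 3) : (((T3 M).card : ℕ) : ZMod 2) =
    ((((T3 M).filter (fun v => v.1 = v.2.1)).card : ℕ) : ZMod 2) := by
  rw [parity_invol (T3 M) jk]
  · congr 2
    apply filter_congr
    rintro ⟨x, y, z⟩ h
    have hr := regions hM h
    rw [mem_T3] at h
    obtain ⟨h1, h2, h3, h4⟩ := h
    simp only
    rcases hr with hr | hr | hr | hr | hr
    · rw [jk1 hr, Prod.mk.injEq, Prod.mk.injEq]
      omega
    · rw [jk2 hr.1.le hr.2, Prod.mk.injEq, Prod.mk.injEq]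
      omega
    · rw [jk3 (by linarith) hr.1.le hr.2, Prod.mk.injEq, Prod.mk.injEq]
      constructor
      · rintro ⟨h5, _, _⟩
        exfalso
        have hy : y = x + z := by omega
        subst hy
        have e : x * x + 2 * ((x + z) * z) = (x + z) * (x + z) + z * z := by ring
        have := mod8 (x + z)
        have := mod8 z
        omega
      · intro h5
        omega
    · rw [jk4 (by linarith) (by linarith) hr.1.le hr.2, Prod.mk.injEq, Prod.mk.injEq]
      constructor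
      · rintro ⟨h5, _, _⟩
        exfalso
        have hy : y = 2 * x + z := by omega
        subst hy
        have e : x * x + 2 * ((2 * x + z) * z) = (x + 2 * z) * (x + 2 * z) - 2 * (z * z) := by
          ring
        have := mod8 (x + 2 * z)
        have := mod8 z
        omega
      · intro h5
        omega
    · rw [jk5 (by linarith) (by linarith) (by linarith) hr.le, Prod.mk.injEq, Prod.mk.injEq]
      omega
  · rintro ⟨x, y, z⟩ h
    have hr := regions hM h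
    rw [mem_T3] at h
    obtain ⟨h1, h2, h3, h4⟩ := h
    rcases hr with hr | hr | hr | hr | hr
    · rw [jk1 hr, mem_T3]
      refine ⟨by linarith, by linarith, by linarith, ?_⟩
      rw [← h4]; ring
    · rw [jk2 hr.1.le hr.2, mem_T3]
      refine ⟨by linarith, by linarith, by linarith, ?_⟩
      rw [← h4]; ring
    · rw [jk3 (by linarith) hr.1.le hr.2, mem_T3]
      refine ⟨by linarith, by linarith, by linarith, ?_⟩
      rw [← h4]; ring
    · rw [jk4 (by linarith) (by linarith) hr.1.le hr.2, mem_T3]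
      refine ⟨by linarith, by linarith, by linarith, ?_⟩
      rw [← h4]; ring
    · rw [jk5 (by linarith) (by linarith) (by linarith) hr.le, mem_T3]
      refine ⟨by linarith, by linarith, by linarith, ?_⟩
      rw [← h4]; ring
  · rintro ⟨x, y, z⟩ h
    have hr := regions hM h
    rw [mem_T3] at h
    obtain ⟨h1, h2, h3, h4⟩ := h
    rcases hr with hr | hr | hr | hr | hr
    · rw [jk1 hr, jk5 (by linarith) (by linarith) (by linarith) (by linarith), Prod.mk.injEq,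
        Prod.mk.injEq]
      refine ⟨by ring, by ring, by ring⟩
    · rw [jk2 hr.1.le hr.2, jk2 (by linarith) (by linarith), Prod.mk.injEq, Prod.mk.injEq]
      refine ⟨by ring, by ring, by ring⟩
    · rw [jk3 (by linarith) hr.1.le hr.2, jk3 (by linarith) (by linarith) (by linarith),
        Prod.mk.injEq, Prod.mk.injEq]
      refine ⟨by ring, by ring, by ring⟩
    · rw [jk4 (by linarith) (by linarith) hr.1.le hr.2, jk4 (by linarith) (by linarith)
        (by linarith) (by linarith), Prod.mk.injEq, Prod.mk.injEq]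
      refine ⟨by ring, by ring, by ring⟩
    · rw [jk5 (by linarith) (by linarith) (by linarith) hr.le, jk1 (by linarith),
        Prod.mk.injEq, Prod.mk.injEq]
      refine ⟨by ring, by ring, by ring⟩

theorem T3_form (M : ℤ) : (((T3 M).card : ℕ) : ZMod 2) =
    ((((T3 M).filter (fun v => v.2.1 = v.2.2)).card : ℕ) : ZMod 2) := by
  rw [parity_invol (T3 M) (fun v => (v.1, v.2.2, v.2.1))]
  · congr 2
    apply filter_congr
    rintro ⟨x, y, z⟩ _
    simp only [Prod.mk.injEq, true_and]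
    omega
  · rintro ⟨x, y, z⟩ h
    rw [mem_T3] at h ⊢
    obtain ⟨h1, h2, h3, h4⟩ := h
    simp only
    rw [mul_comm z y]
    exact ⟨h1, h3, h2, h4⟩
  · rintro ⟨x, y, z⟩ _
    rfl

theorem T3_form_count (M : ℕ) : ((T3 M).filter (fun v => v.2.1 = v.2.2)).card = r3 M := by
  unfold r3
  apply card_nbij' (fun v : ℤ × ℤ × ℤ => ((v.1.toNat, v.2.1.toNat) : ℕ × ℕ))
    (fun t : ℕ × ℕ => (((t.1 : ℤ), (t.2 : ℤ), (t.2 : ℤ)) : ℤ × ℤ × ℤ))
  · rintro ⟨x, y, z⟩ h
    simp only [coe_filter, Set.mem_ofPred, mem_product, mem_Icc] at h ⊢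
    rw [mem_T3] at h
    obtain ⟨⟨h1, h2, h3, h4⟩, h5⟩ := h
    subst h5
    obtain ⟨a, rfl⟩ := Int.eq_ofNat_of_zero_le h1.le
    obtain ⟨b, rfl⟩ := Int.eq_ofNat_of_zero_le h2.le
    simp only [Int.toNat_natCast]
    have e : a * a + 2 * (b * b) = M := by exact_mod_cast h4
    have ha : 1 ≤ a := by omega
    have hb : 1 ≤ b := by omega
    have := le_self ha
    have := le_self hb
    omega
  · rintro ⟨a, b⟩ h
    simp only [coe_filter, Set.mem_ofPred, mem_product, mem_Icc] at h ⊢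
    rw [mem_T3]
    refine ⟨⟨by omega, by omega, by omega, ?_⟩, trivial⟩
    exact_mod_cast h.2
  · rintro ⟨x, y, z⟩ h
    simp only [coe_filter, Set.mem_ofPred] at h
    rw [mem_T3] at h
    simp only [Prod.mk.injEq]
    omega
  · rintro ⟨a, b⟩ _
    simp only [Int.toNat_natCast]

theorem T3_div_count {M : ℕ} (hM : M % 2 = 1) :
    ((T3 M).filter (fun v => v.1 = v.2.1)).card = e M := by
  unfold e
  apply card_nbij' (fun v : ℤ × ℤ × ℤ => ((v.1.toNat, (v.1 + 2 * v.2.2).toNat) : ℕ × ℕ))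
    (fun t : ℕ × ℕ => (((t.1 : ℤ), (t.1 : ℤ), ((t.2 : ℤ) - t.1) / 2) : ℤ × ℤ × ℤ))
  · rintro ⟨x, y, z⟩ h
    simp only [coe_filter, Set.mem_ofPred] at h ⊢
    rw [mem_T3] at h
    obtain ⟨⟨h1, h2, h3, h4⟩, h5⟩ := h
    subst h5
    obtain ⟨a, rfl⟩ := Int.eq_ofNat_of_zero_le h1.le
    obtain ⟨b, rfl⟩ := Int.eq_ofNat_of_zero_le h3.le
    rw [Nat.mem_divisorsAntidiagonal]
    simp only [Int.toNat_natCast]
    have e0 : ((a : ℤ) + 2 * b).toNat = a + 2 * b := by omega
    rw [e0]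
    have e1 : a * (a + 2 * b) = M := by
      have : ((a : ℤ) * (a + 2 * b)) = M := by rw [← h4]; ring
      exact_mod_cast this
    refine ⟨⟨e1, by omega⟩, by omega⟩
  · rintro ⟨x, k⟩ h
    simp only [coe_filter, Set.mem_ofPred] at h ⊢
    rw [Nat.mem_divisorsAntidiagonal] at h
    obtain ⟨⟨h1, h2⟩, h3⟩ := h
    have hodd : x % 2 = 1 ∧ k % 2 = 1 := by
      rw [← h1, Nat.mul_mod] at hM
      have := Nat.mod_two_eq_zero_or_one x
      have := Nat.mod_two_eq_zero_or_one k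
      rcases this with h | h <;> rcases Nat.mod_two_eq_zero_or_one x with h' | h' <;>
        simp [h, h'] at hM ⊢
    obtain ⟨z, hz⟩ : ∃ z : ℤ, (k : ℤ) - x = 2 * z := ⟨((k : ℤ) - x) / 2, by omega⟩
    rw [hz, show 2 * z / 2 = z by omega, mem_T3]
    refine ⟨⟨by omega, by omega, by omega, ?_⟩, trivial⟩
    have : (x : ℤ) * k = M := by exact_mod_cast h1
    rw [← this, show (k : ℤ) = x + 2 * z by omega]
    ring
  · rintro ⟨x, y, z⟩ h
    simp only [coe_filter, Set.mem_ofPred] at h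
    rw [mem_T3] at h
    simp only [Prod.mk.injEq]
    omega
  · rintro ⟨x, k⟩ h
    simp only [coe_filter, Set.mem_ofPred] at h
    rw [Nat.mem_divisorsAntidiagonal] at h
    obtain ⟨⟨h1, h2⟩, h3⟩ := h
    have hodd : x % 2 = 1 ∧ k % 2 = 1 := by
      rw [← h1, Nat.mul_mod] at hM
      have := Nat.mod_two_eq_zero_or_one x
      have := Nat.mod_two_eq_zero_or_one k
      rcases this with h | h <;> rcases Nat.mod_two_eq_zero_or_one x with h' | h' <;>
        simp [h, h'] at hM ⊢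
    simp only [Prod.mk.injEq, Int.toNat_natCast, true_and]
    omega

/-- For `M ≡ 3 (mod 8)` the form `x² + 2 y²` represents `M` as often as half the number of
divisors, modulo two. -/
theorem form_two {M : ℕ} (hM : M % 8 = 3) : ((r3 M : ℕ) : ZMod 2) = ((e M : ℕ) : ZMod 2) := by
  rw [← T3_form_count, ← T3_form, T3_div (by omega), T3_div_count (by omega)]

/-- The first parity needed: `L ≡ 11 (mod 24)`. -/
theorem parity_one {L : ℕ} (hL : L % 24 = 11) : 2 ∣ r1 L + r2 L := by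
  rw [← ZMod.natCast_eq_zero_iff]
  have h1 := quad_odd (L := L) (by omega) (by omega)
  have h2 := form_two (M := L) (by omega)
  rw [Nat.cast_add, Nat.cast_add, h2, add_assoc, CharTwo.add_self_eq_zero, add_zero] at h1
  exact h1

theorem even_of_sq {a : ℕ} (h : a * a % 2 = 0) : ∃ b, a = 2 * b := by
  refine ⟨a / 2, ?_⟩
  have : a % 2 = 0 ∨ a % 2 = 1 := by omega
  rcases this with h1 | h1
  · omega
  · rw [Nat.mul_mod, h1] at h
    simp at h

theorem r3_double {M : ℕ} : r3 (2 * M) = r3 M := by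
  unfold r3
  apply card_nbij' (fun t => (t.2, t.1 / 2)) (fun t => (2 * t.2, t.1))
  · rintro ⟨b, x⟩ h
    simp only [coe_filter, Set.mem_ofPred, mem_product, mem_Icc] at h ⊢
    obtain ⟨⟨⟨h1, h2⟩, h3, h4⟩, h5⟩ := h
    obtain ⟨c, rfl⟩ := even_of_sq (a := b) (by omega)
    rw [show 2 * c / 2 = c by omega]
    have e : 2 * c * (2 * c) = 4 * (c * c) := by ring
    have hc : 1 ≤ c := by omega
    have := le_self hc
    have := le_self h3
    omega
  · rintro ⟨x, c⟩ h
    simp only [coe_filter, Set.mem_ofPred, mem_product, mem_Icc] at h ⊢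
    obtain ⟨⟨⟨h1, h2⟩, h3, h4⟩, h5⟩ := h
    have e : 2 * c * (2 * c) = 4 * (c * c) := by ring
    have := le_self h1
    have := le_self h3
    omega
  · rintro ⟨b, x⟩ h
    simp only [coe_filter, Set.mem_ofPred, mem_product, mem_Icc] at h
    obtain ⟨⟨⟨h1, h2⟩, h3, h4⟩, h5⟩ := h
    obtain ⟨c, rfl⟩ := even_of_sq (a := b) (by omega)
    simp only [Prod.mk.injEq, and_true]
    omega
  · rintro ⟨x, c⟩ _
    simp only [Prod.mk.injEq, true_and]
    omega

theorem r2_four {L : ℕ} : r2 (4 * L) = r2 L := by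
  have key : ∀ b x : ℕ, 3 * (b * b) + 2 * (x * x) = 4 * L → ∃ c y, b = 2 * c ∧ x = 2 * y := by
    intro b x h
    obtain ⟨c, rfl⟩ := even_of_sq (a := b) (by omega)
    have e : 2 * c * (2 * c) = 4 * (c * c) := by ring
    obtain ⟨y, rfl⟩ := even_of_sq (a := x) (by omega)
    exact ⟨c, y, rfl, rfl⟩
  unfold r2
  apply card_nbij' (fun t => (t.1 / 2, t.2 / 2)) (fun t => (2 * t.1, 2 * t.2))
  · rintro ⟨b, x⟩ h
    simp only [coe_filter, Set.mem_ofPred, mem_product, mem_Icc] at h ⊢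
    obtain ⟨⟨⟨h1, h2⟩, h3, h4⟩, h5⟩ := h
    obtain ⟨c, y, rfl, rfl⟩ := key b x h5
    rw [show 2 * c / 2 = c by omega, show 2 * y / 2 = y by omega]
    have e : 2 * c * (2 * c) = 4 * (c * c) := by ring
    have e' : 2 * y * (2 * y) = 4 * (y * y) := by ring
    have hc : 1 ≤ c := by omega
    have hy : 1 ≤ y := by omega
    have := le_self hc
    have := le_self hy
    omega
  · rintro ⟨c, y⟩ h
    simp only [coe_filter, Set.mem_ofPred, mem_product, mem_Icc] at h ⊢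
    obtain ⟨⟨⟨h1, h2⟩, h3, h4⟩, h5⟩ := h
    have e : 2 * c * (2 * c) = 4 * (c * c) := by ring
    have e' : 2 * y * (2 * y) = 4 * (y * y) := by ring
    omega
  · rintro ⟨b, x⟩ h
    simp only [coe_filter, Set.mem_ofPred, mem_product, mem_Icc] at h
    obtain ⟨c, y, rfl, rfl⟩ := key b x h.2
    simp only [Prod.mk.injEq]
    omega
  · rintro ⟨c, y⟩ _
    simp only [Prod.mk.injEq]
    omega

theorem r1_four {L : ℕ} : r1 (4 * L) = r1 L := by
  have key : ∀ x k : ℕ, 2 * (x * x) + 6 * (x * k) + 3 * (k * k) = 4 * L →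
      ∃ c y, x = 2 * c ∧ k = 2 * y := by
    intro x k h
    obtain ⟨y, rfl⟩ := even_of_sq (a := k) (by omega)
    have e : 2 * y * (2 * y) = 4 * (y * y) := by ring
    have e' : x * (2 * y) = 2 * (x * y) := by ring
    obtain ⟨c, rfl⟩ := even_of_sq (a := x) (by omega)
    exact ⟨c, y, rfl, rfl⟩
  unfold r1
  apply card_nbij' (fun t => (t.1 / 2, t.2 / 2)) (fun t => (2 * t.1, 2 * t.2))
  · rintro ⟨b, x⟩ h
    simp only [coe_filter, Set.mem_ofPred, mem_product, mem_Icc] at h ⊢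
    obtain ⟨⟨⟨h1, h2⟩, h3, h4⟩, h5⟩ := h
    obtain ⟨c, y, rfl, rfl⟩ := key b x h5
    rw [show 2 * c / 2 = c by omega, show 2 * y / 2 = y by omega]
    have e : 2 * c * (2 * c) = 4 * (c * c) := by ring
    have e' : 2 * y * (2 * y) = 4 * (y * y) := by ring
    have e'' : 2 * c * (2 * y) = 4 * (c * y) := by ring
    have hc : 1 ≤ c := by omega
    have hy : 1 ≤ y := by omega
    have := le_self hc
    have := le_self hy
    omega
  · rintro ⟨c, y⟩ h
    simp only [coe_filter, Set.mem_ofPred, mem_product, mem_Icc] at h ⊢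
    obtain ⟨⟨⟨h1, h2⟩, h3, h4⟩, h5⟩ := h
    have e : 2 * c * (2 * c) = 4 * (c * c) := by ring
    have e' : 2 * y * (2 * y) = 4 * (y * y) := by ring
    have e'' : 2 * c * (2 * y) = 4 * (c * y) := by ring
    omega
  · rintro ⟨b, x⟩ h
    simp only [coe_filter, Set.mem_ofPred, mem_product, mem_Icc] at h
    obtain ⟨c, y, rfl, rfl⟩ := key b x h.2
    simp only [Prod.mk.injEq]
    omega
  · rintro ⟨c, y⟩ _
    simp only [Prod.mk.injEq]
    omega

/-- The second parity needed: `L = 2 M` with `M ≡ 19 (mod 24)`. -/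
theorem parity_two {M : ℕ} (hM : M % 24 = 19) : 2 ∣ r1 (2 * M) + r2 (2 * M) := by
  rw [← ZMod.natCast_eq_zero_iff]
  have h1 := quad_even (M := M) (by omega) (by omega)
  have h2 := form_two (M := M) (by omega)
  rw [Nat.cast_add, Nat.cast_add, r3_double, h2, add_assoc, CharTwo.add_self_eq_zero,
    add_zero] at h1
  exact h1

theorem parity_pow {L : ℕ} (h : 2 ∣ r1 L + r2 L) (k : ℕ) :
    2 ∣ r1 (4 ^ k * L) + r2 (4 ^ k * L) := by
  induction k with
  | zero => simpa using h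
  | succ k ih =>
    rw [show 4 ^ (k + 1) * L = 4 * (4 ^ k * L) by rw [pow_succ]; ring, r1_four, r2_four]
    exact ih

end Pool.Agent.R443.Quad
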