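import Pool.Agent.R443.CB
import Pool.Agent.R443.Quad3

/-!
# The coefficients of the two-colour generating function modulo 4 and 8
-/

set_option autoImplicit false

namespace Pool.Agent.R443.CB

open PowerSeries Finset Pool.Agent.R443.PS Pool.Agent.R443.Quad

theorem iv_sub_one_dvd {d n : ℕ} (hd : d ≠ 0) (h : n ≤ d) : X ^ n ∣ iv d - 1 := by
  have e : iv d - 1 = X ^ d * iv d := by
    have := iv_mul hd
    linear_combination this
  rw [e]
  exact Dvd.dvd.mul_right (pow_dvd_pow X h) _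

theorem G_succ_dvd (N : ℕ) : X ^ N ∣ G (N + 1) - G N := by
  unfold G
  rw [sum_range_succ]
  have h1 : ∑ m ∈ range N, (∏ i ∈ Ico m (N + 1), (1 + X ^ (2 * (i + 1)) : ℤ⟦X⟧)) *
      X ^ (2 * m + 1) * (∏ i ∈ Ico m (N + 1), iv (2 * i + 1)) ^ 2 =
      (∑ m ∈ range N, (∏ i ∈ Ico m N, (1 + X ^ (2 * (i + 1)) : ℤ⟦X⟧)) *
      X ^ (2 * m + 1) * (∏ i ∈ Ico m N, iv (2 * i + 1)) ^ 2) *
      ((1 + X ^ (2 * (N + 1))) * (iv (2 * N + 1) * iv (2 * N + 1))) := by
    rw [sum_mul]
    apply sum_congr rfl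
    intro m hm
    rw [mem_range] at hm
    rw [prod_Ico_succ_top (by omega), prod_Ico_succ_top (by omega)]
    ring
  rw [h1]
  set S := (∑ m ∈ range N, (∏ i ∈ Ico m N, (1 + X ^ (2 * (i + 1)) : ℤ⟦X⟧)) *
      X ^ (2 * m + 1) * (∏ i ∈ Ico m N, iv (2 * i + 1)) ^ 2) with hS
  have h2 : X ^ N ∣ ((1 + X ^ (2 * (N + 1))) * (iv (2 * N + 1) * iv (2 * N + 1)) : ℤ⟦X⟧) - 1 := by
    apply dvd_mul_sub_one
    · rw [add_sub_cancel_left]
      exact pow_dvd_pow X (by omega)
    · apply dvd_mul_sub_one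
      · exact iv_sub_one_dvd (by omega) (by omega)
      · exact iv_sub_one_dvd (by omega) (by omega)
  have e : S * ((1 + X ^ (2 * (N + 1))) * (iv (2 * N + 1) * iv (2 * N + 1))) +
      (∏ i ∈ Ico N (N + 1), (1 + X ^ (2 * (i + 1)) : ℤ⟦X⟧)) * X ^ (2 * N + 1) *
      (∏ i ∈ Ico N (N + 1), iv (2 * i + 1)) ^ 2 - S =
      S * (((1 + X ^ (2 * (N + 1))) * (iv (2 * N + 1) * iv (2 * N + 1)) : ℤ⟦X⟧) - 1) +
      X ^ (2 * N + 1) * ((∏ i ∈ Ico N (N + 1), (1 + X ^ (2 * (i + 1)) : ℤ⟦X⟧)) *
      (∏ i ∈ Ico N (N + 1), iv (2 * i + 1)) ^ 2) := by ring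
  rw [e]
  apply dvd_add
  · exact Dvd.dvd.mul_left h2 _
  · exact Dvd.dvd.mul_right (pow_dvd_pow X (by omega)) _

/-- the coefficients of the generating function -/
noncomputable def Cc (n : ℕ) : ℤ := coeff n (G (n + 1))

theorem coeff_G {n N : ℕ} (h : n < N) : coeff n (G N) = Cc n := by
  obtain ⟨d, rfl⟩ : ∃ d, N = n + 1 + d := ⟨N - (n + 1), by omega⟩
  induction d with
  | zero => rfl
  | succ d ih =>
    have h1 := X_pow_dvd_iff.mp (G_succ_dvd (n + 1 + d)) n (by omega)
    rw [map_sub, sub_eq_zero] at h1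
    rw [show n + 1 + (d + 1) = n + 1 + d + 1 by ring, h1]
    exact ih (by omega)

/-- shifted coefficient -/
noncomputable def Dn (n b : ℕ) : ℤ := if b * b ≤ n then Cc (n - b * b) else 0

/-- exponents of the Hecke-type series -/
def E (k j : ℕ) : ℕ := 1 + k * k + 2 * k + 6 * j * k + 6 * j * j + 4 * j

/-- exponents of the Hecke-type series -/
def E' (k j : ℕ) : ℕ := 1 + k * k + 2 * k + 6 * j * k + 6 * j * j + 4 * j + (2 * k + 4 * j + 2)

/-- coefficients of the rows of the Hecke-type series -/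
def wt (N n k : ℕ) : ℤ := ∑ j ∈ range N,
  (-1) ^ (k + j) * ((if E k j = n then 1 else 0) + (if E' k j = n then 1 else 0))

theorem coeff_row (N n k : ℕ) :
    coeff n (X * ((-1) ^ k * X ^ (k * k) * B k N)) = wt N n k := by
  unfold B wt
  have e : (X * ((-1) ^ k * X ^ (k * k) * ∑ j ∈ range N, (-1) ^ j *
      (X ^ (2 * k + 6 * j * k + 6 * j * j + 4 * j) * (1 + X ^ (2 * k + 4 * j + 2)))) : ℤ⟦X⟧) =
      ∑ j ∈ range N, ((((-1) ^ (k + j) : ℤ)) • X ^ (E k j) +
        (((-1) ^ (k + j) : ℤ)) • X ^ (E' k j)) := by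
    rw [mul_sum, mul_sum]
    apply sum_congr rfl
    intro j _
    unfold E E'
    rw [zsmul_eq_mul, zsmul_eq_mul]
    push_cast
    ring
  rw [e, map_sum]
  apply sum_congr rfl
  intro j _
  rw [map_add, map_zsmul, map_zsmul, coeff_X_pow, coeff_X_pow, smul_eq_mul, smul_eq_mul,
    mul_add]
  congr 2
  · by_cases h : E k j = n
    · rw [if_pos h, if_pos h.symm]
    · rw [if_neg h, if_neg (fun h' => h h'.symm)]
  · by_cases h : E' k j = n
    · rw [if_pos h, if_pos h.symm]
    · rw [if_neg h, if_neg (fun h' => h h'.symm)]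

/-- the recurrence for the coefficients -/
theorem recC {n N : ℕ} (h : n < N) : Cc n + 2 * ∑ k ∈ range N, (-1) ^ (k + 1) * Dn n (k + 1) =
    wt N n 0 + 2 * ∑ k ∈ range N, wt N n (k + 1) := by
  have h1 := X_pow_dvd_iff.mp (main N) n (by omega)
  rw [map_sub, sub_eq_zero] at h1
  have h2 : coeff n (G N * Th N) = Cc n + 2 * ∑ k ∈ range N, (-1) ^ (k + 1) * Dn n (k + 1) := by
    have e : G N * Th N = G N + ∑ k ∈ range N,
        ((2 * (-1) ^ (k + 1) : ℤ)) • (G N * X ^ ((k + 1) * (k + 1))) := by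
      unfold Th
      rw [mul_add, mul_one, mul_sum, mul_sum]
      congr 1
      apply sum_congr rfl
      intro k _
      rw [zsmul_eq_mul]
      push_cast
      ring
    rw [e, map_add, map_sum, coeff_G h, mul_sum]
    congr 1
    apply sum_congr rfl
    intro k _
    rw [map_zsmul, coeff_mul_X_pow', smul_eq_mul, Dn, mul_assoc]
    congr 2
    split_ifs with h3
    · exact coeff_G (by omega)
    · rfl
  have h3 : coeff n (W N) = wt N n 0 + 2 * ∑ k ∈ range N, wt N n (k + 1) := by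
    have e : W N = X * ((-1) ^ 0 * X ^ (0 * 0) * B 0 N) + ∑ k ∈ range N,
        (2 : ℤ) • (X * ((-1) ^ (k + 1) * X ^ ((k + 1) * (k + 1)) * B (k + 1) N)) := by
      unfold W
      rw [mul_add, mul_sum, mul_sum]
      congr 1
      · ring
      · apply sum_congr rfl
        intro k _
        rw [zsmul_eq_mul]
        push_cast
        ring
    rw [e, map_add, map_sum, coeff_row, mul_sum]
    congr 1
    apply sum_congr rfl
    intro k _
    rw [map_zsmul, coeff_row, smul_eq_mul]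
  rw [← h2, ← h3, h1]

theorem E_three (k j : ℕ) : 3 * E k j = 2 * ((3 * j + 1) * (3 * j + 1)) +
    6 * ((3 * j + 1) * k) + 3 * (k * k) + 1 := by
  unfold E; ring

theorem E'_three (k j : ℕ) : 3 * E' k j = 2 * ((3 * j + 2) * (3 * j + 2)) +
    6 * ((3 * j + 2) * k) + 3 * (k * k) + 1 := by
  unfold E'; ring

theorem wt_zero {N n k : ℕ}
    (h : ∀ x : ℕ, 1 ≤ x → 2 * (x * x) + 6 * (x * k) + 3 * (k * k) + 1 ≠ 3 * n) :
    wt N n k = 0 := by
  unfold wt
  apply sum_eq_zero
  intro j _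
  have h1 : E k j ≠ n := by
    rintro rfl
    exact h (3 * j + 1) (by omega) (E_three k j).symm
  have h2 : E' k j ≠ n := by
    rintro rfl
    exact h (3 * j + 2) (by omega) (E'_three k j).symm
  rw [if_neg h1, if_neg h2]
  simp

/-- number of `x` with `2 x² + 6 x k + 3 k² = L` -/
def qk (L k : ℕ) : ℕ := ((Icc 1 L).filter
  (fun x => 2 * (x * x) + 6 * (x * k) + 3 * (k * k) = L)).card

theorem wt_parity {N n k : ℕ} (hn : 1 ≤ n) (hN : n < N) :
    ((wt N n k : ℤ) : ZMod 2) = ((qk (3 * n - 1) k : ℕ) : ZMod 2) := by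
  have h1 : ((wt N n k : ℤ) : ZMod 2) = (((((range N).filter (fun j => E k j = n)).card +
      ((range N).filter (fun j => E' k j = n)).card : ℕ)) : ZMod 2) := by
    unfold wt
    rw [card_filter, card_filter, ← sum_add_distrib, Int.cast_sum, Nat.cast_sum]
    apply sum_congr rfl
    intro j _
    have h2 : (((-1 : ℤ) ^ (k + j) : ℤ) : ZMod 2) = 1 := by
      push_cast
      rw [show (-1 : ZMod 2) = 1 by decide, one_pow]
    rw [Int.cast_mul, h2, one_mul]
    push_cast
    rfl
  rw [h1]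
  congr 1
  unfold qk
  rw [← Finset.card_filter_add_card_filter_not (s := (Icc 1 (3 * n - 1)).filter
    (fun x => 2 * (x * x) + 6 * (x * k) + 3 * (k * k) = 3 * n - 1)) (fun x => x % 3 = 1)]
  congr 1
  · apply card_nbij' (fun j => 3 * j + 1) (fun x => x / 3)
    · intro j hj
      simp only [coe_filter, Set.mem_ofPred, mem_filter, mem_range, mem_Icc] at hj ⊢
      obtain ⟨h2, h3⟩ := hj
      have h4 := E_three k j
      rw [h3] at h4
      have : 3 * j + 1 ≤ (3 * j + 1) * (3 * j + 1) := le_self (by omega)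
      omega
    · intro x hx
      simp only [coe_filter, Set.mem_ofPred, mem_filter, mem_range, mem_Icc] at hx ⊢
      obtain ⟨⟨⟨h2, h3⟩, h4⟩, h5⟩ := hx
      obtain ⟨j, rfl⟩ : ∃ j, x = 3 * j + 1 := ⟨x / 3, by omega⟩
      rw [show (3 * j + 1) / 3 = j by omega]
      have h6 := E_three k j
      have : 3 * j + 1 ≤ (3 * j + 1) * (3 * j + 1) := le_self (by omega)
      omega
    · intro j _
      show (3 * j + 1) / 3 = j
      omega
    · intro x hx
      simp only [coe_filter, Set.mem_ofPred, mem_filter, mem_Icc] at hx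
      show 3 * (x / 3) + 1 = x
      omega
  · apply card_nbij' (fun j => 3 * j + 2) (fun x => x / 3)
    · intro j hj
      simp only [coe_filter, Set.mem_ofPred, mem_filter, mem_range, mem_Icc] at hj ⊢
      obtain ⟨h2, h3⟩ := hj
      have h4 := E'_three k j
      rw [h3] at h4
      have : 3 * j + 2 ≤ (3 * j + 2) * (3 * j + 2) := le_self (by omega)
      omega
    · intro x hx
      simp only [coe_filter, Set.mem_ofPred, mem_filter, mem_range, mem_Icc] at hx ⊢
      obtain ⟨⟨⟨h2, h3⟩, h4⟩, h5⟩ := hx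
      have h7 : x % 3 ≠ 0 := by
        intro h
        obtain ⟨j, rfl⟩ : ∃ j, x = 3 * j := ⟨x / 3, by omega⟩
        have e1 : 3 * j * (3 * j) = 3 * (3 * (j * j)) := by ring
        omega
      obtain ⟨j, rfl⟩ : ∃ j, x = 3 * j + 2 := ⟨x / 3, by omega⟩
      rw [show (3 * j + 2) / 3 = j by omega]
      have h6 := E'_three k j
      have : 3 * j + 2 ≤ (3 * j + 2) * (3 * j + 2) := le_self (by omega)
      omega
    · intro j _
      show (3 * j + 2) / 3 = j
      omega
    · intro x hx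
      simp only [coe_filter, Set.mem_ofPred, mem_filter, mem_Icc] at hx
      obtain ⟨⟨⟨h2, h3⟩, h4⟩, h5⟩ := hx
      have h7 : x % 3 ≠ 0 := by
        intro h
        obtain ⟨j, rfl⟩ : ∃ j, x = 3 * j := ⟨x / 3, by omega⟩
        have e1 : 3 * j * (3 * j) = 3 * (3 * (j * j)) := by ring
        omega
      show 3 * (x / 3) + 2 = x
      omega

theorem qk_zero {n k : ℕ} (h : n < k) : qk (3 * n - 1) k = 0 := by
  unfold qk
  rw [card_eq_zero, filter_eq_empty_iff]
  intro x hx he
  rw [mem_Icc] at hx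
  have h1 : k ≤ x * k := Nat.le_mul_of_pos_left k (by omega)
  omega

theorem r1_sum {n N : ℕ} (hn : 1 ≤ n) (hN : n < N) :
    r1 (3 * n - 1) = ∑ k ∈ range N, qk (3 * n - 1) (k + 1) := by
  have h1 : r1 (3 * n - 1) = ∑ κ ∈ Icc 1 (3 * n - 1), qk (3 * n - 1) κ := by
    unfold r1 qk
    rw [card_filter, sum_product_right]
    apply sum_congr rfl
    intro κ _
    rw [card_filter]
  have h2 : ∑ κ ∈ Icc 1 (3 * n - 1), qk (3 * n - 1) κ =
      ∑ k ∈ range (3 * n - 1), qk (3 * n - 1) (k + 1) := by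
    apply sum_nbij' (fun κ => κ - 1) (fun k => k + 1)
    · intro κ hκ
      rw [mem_Icc] at hκ
      rw [mem_range]
      omega
    · intro k hk
      rw [mem_range] at hk
      rw [mem_Icc]
      omega
    · intro κ hκ
      rw [mem_Icc] at hκ
      show κ - 1 + 1 = κ
      omega
    · intro k _
      rfl
    · intro κ hκ
      rw [mem_Icc] at hκ
      show qk (3 * n - 1) κ = qk (3 * n - 1) (κ - 1 + 1)
      rw [show κ - 1 + 1 = κ by omega]
  have h3 : ∑ k ∈ range n, qk (3 * n - 1) (k + 1) =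
      ∑ k ∈ range (3 * n - 1), qk (3 * n - 1) (k + 1) := by
    apply sum_subset
    · intro k hk
      rw [mem_range] at hk ⊢
      omega
    · intro k _ hk
      rw [mem_range] at hk
      exact qk_zero (by omega)
  have h4 : ∑ k ∈ range n, qk (3 * n - 1) (k + 1) =
      ∑ k ∈ range N, qk (3 * n - 1) (k + 1) := by
    apply sum_subset
    · intro k hk
      rw [mem_range] at hk ⊢
      omega
    · intro k _ hk
      rw [mem_range] at hk
      exact qk_zero (by omega)
  rw [h1, h2, ← h3, h4]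

theorem Cc_zero : Cc 0 = 0 := by
  unfold Cc G
  simp

theorem two_dvd_iff (z : ℤ) : (2 : ℤ) ∣ z ↔ (z : ZMod 2) = 0 :=
  (ZMod.intCast_zmod_eq_zero_iff_dvd z 2).symm

theorem Cc_parity (m : ℕ) : ((Cc m : ℤ) : ZMod 2) = ((qk (3 * m - 1) 0 : ℕ) : ZMod 2) := by
  rcases Nat.eq_zero_or_pos m with rfl | hm
  · rw [Cc_zero]
    simp [qk]
  · have h := congrArg (fun z : ℤ => (z : ZMod 2)) (recC (n := m) (N := m + 1) (by omega))
    simp only [Int.cast_add, Int.cast_mul] at h
    rw [show (((2 : ℤ)) : ZMod 2) = 0 by decide, zero_mul, zero_mul, add_zero, add_zero,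
      wt_parity hm (by omega)] at h
    exact h

theorem Dn_parity (n b : ℕ) : ((Dn n b : ℤ) : ZMod 2) =
    ((((Icc 1 (3 * n - 1)).filter (fun x => 3 * (b * b) + 2 * (x * x) = 3 * n - 1)).card : ℕ) :
      ZMod 2) := by
  unfold Dn
  split_ifs with h
  · rw [Cc_parity]
    congr 1
    unfold qk
    congr 1
    ext x
    simp only [mem_filter, mem_Icc, mul_zero, add_zero]
    constructor
    · rintro ⟨⟨h1, h2⟩, h3⟩
      have := le_self h1
      omega
    · rintro ⟨⟨h1, h2⟩, h3⟩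
      have := le_self h1
      omega
  · rw [Int.cast_zero]
    symm
    have : (Icc 1 (3 * n - 1)).filter (fun x => 3 * (b * b) + 2 * (x * x) = 3 * n - 1) = ∅ := by
      rw [filter_eq_empty_iff]
      intro x hx he
      omega
    rw [this]
    simp

theorem r2_sum {n N : ℕ} (hn : 1 ≤ n) (hN : n < N) :
    ((∑ k ∈ range N, Dn n (k + 1) : ℤ) : ZMod 2) = ((r2 (3 * n - 1) : ℕ) : ZMod 2) := by
  set g : ℕ → ℕ := fun b =>
    ((Icc 1 (3 * n - 1)).filter (fun x => 3 * (b * b) + 2 * (x * x) = 3 * n - 1)).card with hg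
  have hg0 : ∀ b, n < b → g b = 0 := by
    intro b hb
    rw [hg]
    simp only
    rw [card_eq_zero, filter_eq_empty_iff]
    intro x _ he
    have : b ≤ b * b := le_self (by omega)
    omega
  have h1 : r2 (3 * n - 1) = ∑ b ∈ Icc 1 (3 * n - 1), g b := by
    unfold r2
    rw [card_filter, sum_product]
    apply sum_congr rfl
    intro b _
    rw [hg]
    simp only
    rw [card_filter]
  have h2 : ∑ b ∈ Icc 1 (3 * n - 1), g b = ∑ k ∈ range (3 * n - 1), g (k + 1) := by
    apply sum_nbij' (fun κ => κ - 1) (fun k => k + 1)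
    · intro κ hκ
      rw [mem_Icc] at hκ
      rw [mem_range]
      omega
    · intro k hk
      rw [mem_range] at hk
      rw [mem_Icc]
      omega
    · intro κ hκ
      rw [mem_Icc] at hκ
      show κ - 1 + 1 = κ
      omega
    · intro k _
      rfl
    · intro κ hκ
      rw [mem_Icc] at hκ
      show g κ = g (κ - 1 + 1)
      rw [show κ - 1 + 1 = κ by omega]
  have h3 : ∑ k ∈ range n, g (k + 1) = ∑ k ∈ range (3 * n - 1), g (k + 1) := by
    apply sum_subset
    · intro k hk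
      rw [mem_range] at hk ⊢
      omega
    · intro k _ hk
      rw [mem_range] at hk
      exact hg0 _ (by omega)
  have h4 : ∑ k ∈ range n, g (k + 1) = ∑ k ∈ range N, g (k + 1) := by
    apply sum_subset
    · intro k hk
      rw [mem_range] at hk ⊢
      omega
    · intro k _ hk
      rw [mem_range] at hk
      exact hg0 _ (by omega)
  rw [h1, h2, ← h3, h4, Int.cast_sum, Nat.cast_sum]
  apply sum_congr rfl
  intro k _
  exact Dn_parity n (k + 1)

/-- divisibility by four -/
theorem four_dvd {n : ℕ} (hn : 1 ≤ n) (hs : ∀ x : ℕ, 1 ≤ x → 2 * (x * x) + 1 ≠ 3 * n)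
    (h : 2 ∣ r1 (3 * n - 1) + r2 (3 * n - 1)) : (4 : ℤ) ∣ Cc n := by
  have h1 := recC (n := n) (N := n + 1) (by omega)
  have h2 : wt (n + 1) n 0 = 0 := by
    apply wt_zero
    intro x hx he
    exact hs x hx (by rw [← he]; ring)
  rw [h2, zero_add] at h1
  set S1 := ∑ k ∈ range (n + 1), (-1 : ℤ) ^ (k + 1) * Dn n (k + 1) with hS1
  set S2 := ∑ k ∈ range (n + 1), wt (n + 1) n (k + 1) with hS2
  have h3 : (2 : ℤ) ∣ S2 - S1 := by
    rw [two_dvd_iff, Int.cast_sub, CharTwo.sub_eq_add]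
    have e1 : ((S1 : ℤ) : ZMod 2) = ((r2 (3 * n - 1) : ℕ) : ZMod 2) := by
      rw [← r2_sum hn (show n < n + 1 by omega), hS1, Int.cast_sum, Int.cast_sum]
      apply sum_congr rfl
      intro k _
      push_cast
      rw [show (-1 : ZMod 2) = 1 by decide, one_pow, one_mul]
    have e2 : ((S2 : ℤ) : ZMod 2) = ((r1 (3 * n - 1) : ℕ) : ZMod 2) := by
      rw [r1_sum hn (show n < n + 1 by omega), hS2, Int.cast_sum, Nat.cast_sum]
      apply sum_congr rfl
      intro k _
      exact wt_parity hn (by omega)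
    rw [e1, e2, ← Nat.cast_add, ZMod.natCast_eq_zero_iff]
    exact h
  obtain ⟨t, ht⟩ := h3
  exact ⟨t, by linarith⟩

/-- symmetric double sums in characteristic two -/
theorem sum_symm {ι : Type*} [DecidableEq ι] (s : Finset ι) (f : ι → ι → ZMod 2)
    (hf : ∀ i j, f i j = f j i) : ∑ i ∈ s, ∑ j ∈ s, f i j = ∑ i ∈ s, f i i := by
  rw [← sum_product']
  rw [← Finset.sum_filter_add_sum_filter_not (s ×ˢ s) (fun p => p.1 = p.2)]
  have h1 : ∑ p ∈ (s ×ˢ s).filter (fun p => ¬ p.1 = p.2), f p.1 p.2 = 0 := by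
    apply Finset.sum_involution (fun p _ => p.swap)
    · intro p _
      simp only [Prod.fst_swap, Prod.snd_swap]
      rw [hf p.2 p.1]
      exact CharTwo.add_self_eq_zero _
    · intro p hp _
      rw [mem_filter] at hp
      intro h
      exact hp.2 (congrArg Prod.fst h).symm
    · intro p _
      exact Prod.swap_swap p
    · intro p hp
      rw [mem_filter, mem_product] at hp ⊢
      exact ⟨⟨hp.1.2, hp.1.1⟩, fun h => hp.2 h.symm⟩
  rw [h1, add_zero]
  apply sum_nbij' (fun p => p.1) (fun i => (i, i))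
  · intro p hp
    rw [mem_filter, mem_product] at hp
    exact hp.1.1
  · intro i hi
    rw [mem_filter, mem_product]
    exact ⟨⟨hi, hi⟩, rfl⟩
  · rintro ⟨i, j⟩ hp
    rw [mem_filter] at hp
    have : i = j := hp.2
    rw [this]
  · intro i _
    rfl
  · rintro ⟨i, j⟩ hp
    rw [mem_filter] at hp
    have : i = j := hp.2
    rw [this]

/-- divisibility by eight -/
theorem eight_dvd {n : ℕ}
    (h1 : ∀ x k b : ℕ, 1 ≤ x → 2 * (x * x) + 6 * (x * k) + 3 * (k * k) + 3 * (b * b) + 1 ≠ 3 * n)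
    (h2 : ∀ x b : ℕ, 1 ≤ x → 2 * (x * x) + 6 * (b * b) + 1 ≠ 3 * n) : (8 : ℤ) ∣ Cc n := by
  have key : ∀ b : ℕ, b * b ≤ n → Cc (n - b * b) =
      -2 * ∑ k ∈ range (n + 1), (-1) ^ (k + 1) * Dn (n - b * b) (k + 1) := by
    intro b hb
    have h3 := recC (n := n - b * b) (N := n + 1) (by omega)
    have h4 : ∀ k, wt (n + 1) (n - b * b) k = 0 := by
      intro k
      apply wt_zero
      intro x hx he
      apply h1 x k b hx
      omega
    rw [h4, sum_congr rfl (fun k _ => h4 (k + 1)), sum_const_zero] at h3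
    linarith
  have h5 : Cc n = 4 * ∑ i ∈ range (n + 1), ∑ j ∈ range (n + 1), (-1) ^ (i + 1) * ((-1) ^ (j + 1) *
      (if (i + 1) * (i + 1) ≤ n then Dn (n - (i + 1) * (i + 1)) (j + 1) else 0)) := by
    have h6 := key 0 (by omega)
    rw [mul_zero, Nat.sub_zero] at h6
    rw [h6, mul_sum, mul_sum]
    apply sum_congr rfl
    intro i _
    rw [Dn]
    split_ifs with h
    · rw [key (i + 1) h, ← mul_sum]
      ring
    · simp
  rw [h5]
  have h7 : (2 : ℤ) ∣ ∑ i ∈ range (n + 1), ∑ j ∈ range (n + 1),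
      (-1) ^ (i + 1) * ((-1) ^ (j + 1) *
      (if (i + 1) * (i + 1) ≤ n then Dn (n - (i + 1) * (i + 1)) (j + 1) else 0)) := by
    rw [two_dvd_iff, Int.cast_sum]
    have e1 : ∀ i ∈ range (n + 1), (((∑ j ∈ range (n + 1), (-1) ^ (i + 1) * ((-1) ^ (j + 1) *
        (if (i + 1) * (i + 1) ≤ n then Dn (n - (i + 1) * (i + 1)) (j + 1) else 0)) : ℤ)) :
        ZMod 2) = ∑ j ∈ range (n + 1),
        (((if (i + 1) * (i + 1) + (j + 1) * (j + 1) ≤ n then
          Cc (n - (i + 1) * (i + 1) - (j + 1) * (j + 1)) else 0 : ℤ)) : ZMod 2) := by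
      intro i _
      rw [Int.cast_sum]
      apply sum_congr rfl
      intro j _
      rw [Int.cast_mul, Int.cast_mul, Int.cast_pow, Int.cast_pow,
        show (((-1 : ℤ)) : ZMod 2) = 1 by decide, one_pow, one_pow, one_mul, one_mul]
      unfold Dn
      split_ifs with g1 g2 g3 g4 g5
      · rfl
      · omega
      · omega
      · rfl
      · omega
      · rfl
    rw [sum_congr rfl e1, sum_symm (range (n + 1)) (fun i j =>
        (((if (i + 1) * (i + 1) + (j + 1) * (j + 1) ≤ n then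
          Cc (n - (i + 1) * (i + 1) - (j + 1) * (j + 1)) else 0 : ℤ)) : ZMod 2))]
    · apply sum_eq_zero
      intro i _
      split_ifs with g1
      · rw [Cc_parity]
        have : qk (3 * (n - (i + 1) * (i + 1) - (i + 1) * (i + 1)) - 1) 0 = 0 := by
          unfold qk
          rw [card_eq_zero, filter_eq_empty_iff]
          intro x hx he
          rw [mem_Icc] at hx
          apply h2 x (i + 1) hx.1
          simp only [mul_zero, add_zero] at he
          omega
        rw [this]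
        rfl
      · rfl
    · intro i j
      rw [add_comm ((i + 1) * (i + 1)), Nat.sub_right_comm]
  obtain ⟨t, ht⟩ := h7
  rw [ht]
  exact ⟨t, by ring⟩

end Pool.Agent.R443.CB
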