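import Mathlib

/-!
Clausen's identity for `D_n(x) = sum_k C(n+k,2k) C(2k,k) x^k`:
`D_n(x)^2 = sum_k C(n+k,2k) C(2k,k)^2 (x(x+1))^k`.
-/

set_option autoImplicit false

namespace Pool.Agent.R443.CL

open Finset Polynomial

/-- `C(n+k,2k)`. -/
def e (n k : ℕ) : ℤ := ((Nat.choose (n + k) (2 * k) : ℕ) : ℤ)

/-- `C(2k,k)`. -/
def b (k : ℕ) : ℤ := ((Nat.centralBinom k : ℕ) : ℤ)

theorem b_succ (j : ℕ) : ((j : ℤ) + 1) * b (j + 1) = 2 * (2 * (j : ℤ) + 1) * b j := by
  have := Nat.succ_mul_centralBinom_succ j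
  have h' : (((j + 1) * Nat.centralBinom (j + 1) : ℕ) : ℤ) =
    ((2 * (2 * j + 1) * Nat.centralBinom j : ℕ) : ℤ) := by exact_mod_cast this
  push_cast at h'
  unfold b
  linear_combination h'

theorem e_zero_of_lt {n k : ℕ} (h : n < k) : e n k = 0 := by
  unfold e
  rw [Nat.choose_eq_zero_of_lt (by omega)]
  simp

theorem e_succ (n k : ℕ) : (2 * (k : ℤ) + 1) * (2 * (k : ℤ) + 2) * e n (k + 1) =
    ((n : ℤ) - k) * ((n : ℤ) + k + 1) * e n k := by
  rcases Nat.lt_or_ge n k with h | h
  · rw [e_zero_of_lt h, e_zero_of_lt (by omega : n < k + 1)]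
    simp
  · rcases Nat.eq_or_lt_of_le h with h' | h'
    · subst h'
      rw [e_zero_of_lt (by omega : k < k + 1)]
      simp
    · have h1 := Nat.add_one_mul_choose_eq (n + k) (2 * k + 1)
      have h2 := Nat.choose_succ_right_eq (n + k) (2 * k)
      have h3 : (((n + k + 1) * Nat.choose (n + k) (2 * k + 1) : ℕ) : ℤ) =
        ((Nat.choose (n + k + 1) (2 * k + 1 + 1) * (2 * k + 1 + 1) : ℕ) : ℤ) := by
          exact_mod_cast h1
      have h4 : ((Nat.choose (n + k) (2 * k + 1) * (2 * k + 1) : ℕ) : ℤ) =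
        ((Nat.choose (n + k) (2 * k) * (n + k - 2 * k) : ℕ) : ℤ) := by exact_mod_cast h2
      rw [show n + k - 2 * k = n - k by omega] at h4
      push_cast [Nat.cast_sub h] at h3 h4
      unfold e
      rw [show n + (k + 1) = n + k + 1 by ring, show 2 * (k + 1) = 2 * k + 1 + 1 by ring]
      linear_combination (-(2 * (k : ℤ) + 1)) * h3 + ((n : ℤ) + k + 1) * h4

theorem c_succ (n k : ℕ) : ((k : ℤ) + 1) ^ 2 * (e n (k + 1) * b (k + 1)) =
    ((n : ℤ) - k) * ((n : ℤ) + k + 1) * (e n k * b k) := by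
  have h1 := e_succ n k
  have h2 := b_succ k
  have hne : (2 * (k : ℤ) + 1) ≠ 0 := by positivity
  apply mul_left_cancel₀ hne
  linear_combination (2 * (k : ℤ) + 1) * ((k : ℤ) + 1) * e n (k + 1) * h2 +
    (2 * (k : ℤ) + 1) * b k * h1

theorem d_succ (n k : ℕ) : ((k : ℤ) + 1) ^ 3 * (e n (k + 1) * b (k + 1) ^ 2) =
    2 * (2 * (k : ℤ) + 1) * (((n : ℤ) - k) * ((n : ℤ) + k + 1)) * (e n k * b k ^ 2) := by
  have h1 := c_succ n k
  have h2 := b_succ k
  linear_combination ((k : ℤ) + 1) * b (k + 1) * h1 +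
    ((n : ℤ) - k) * ((n : ℤ) + k + 1) * (e n k * b k) * h2

/-- `t = X^2 + X`. -/
noncomputable def t : ℤ[X] := X ^ 2 + X

/-- The Legendre-type polynomial. -/
noncomputable def D (n : ℕ) : ℤ[X] := ∑ k ∈ range (n + 1), C (e n k * b k) * X ^ k

/-- The right-hand side of Clausen's identity. -/
noncomputable def W (n : ℕ) : ℤ[X] := ∑ k ∈ range (n + 1), C (e n k * b k ^ 2) * t ^ k

/-- The third-order operator. -/
noncomputable def L (N : ℤ) (w : ℤ[X]) : ℤ[X] :=
  derivative (t * (derivative (t * derivative w) - C (2 * N) * w)) -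
    C (2 * N) * (t * derivative w)

theorem L_add (N : ℤ) (p q : ℤ[X]) : L N (p + q) = L N p + L N q := by
  unfold L
  simp only [derivative_add, mul_add]
  simp only [derivative_sub, derivative_add, mul_sub, mul_add, sub_eq_add_neg, neg_add,
    derivative_neg]
  ring

theorem L_C_mul (N a : ℤ) (p : ℤ[X]) : L N (C a * p) = C a * L N p := by
  unfold L
  simp only [derivative_C_mul, derivative_mul, derivative_sub, derivative_C, zero_mul, zero_add,
    derivative_add]
  ring

theorem dt : derivative t = 2 * X + 1 := by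
  unfold t
  simp

theorem L_one (N : ℤ) : L N 1 = -(C (2 * N) * derivative t) := by
  unfold L
  simp only [derivative_one, mul_zero, derivative_zero, zero_sub, sub_zero, mul_one,
    derivative_mul, derivative_neg, derivative_C]
  ring

theorem dt2 : derivative (derivative t) = 2 := by
  rw [dt]
  simp

theorem dtsq : derivative t ^ 2 = 1 + 4 * t := by
  rw [dt]
  unfold t
  ring

theorem L_pow (N : ℤ) (k : ℕ) : L N (t ^ (k + 1)) = derivative t * (C (((k : ℤ) + 1) ^ 3) * t ^ k -
    C (2 * (2 * (k : ℤ) + 3) * (N - ((k : ℤ) + 1) * ((k : ℤ) + 2))) * t ^ (k + 1)) := by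
  have h1 : derivative (t ^ (k + 1)) = C ((k : ℤ) + 1) * t ^ k * derivative t := by
    rw [derivative_pow_succ]
  have h2 : t * derivative (t ^ (k + 1)) = C ((k : ℤ) + 1) * t ^ (k + 1) * derivative t := by
    rw [h1]
    ring
  have h3 : derivative (t * derivative (t ^ (k + 1))) =
      C (((k : ℤ) + 1) ^ 2) * t ^ k + C (4 * ((k : ℤ) + 1) ^ 2 + 2 * ((k : ℤ) + 1)) *
        t ^ (k + 1) := by
    rw [h2, derivative_mul, derivative_C_mul, h1, dt2]
    simp only [map_add, map_mul, map_pow, map_one]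
    have hC4 : (C (4 : ℤ) : ℤ[X]) = 4 := rfl
    have hC2 : (C (2 : ℤ) : ℤ[X]) = 2 := rfl
    rw [hC4, hC2]
    have := dtsq
    linear_combination (C (k : ℤ) + 1) ^ 2 * t ^ k * this
  unfold L
  rw [h3, h2]
  have h4 : t * (C (((k : ℤ) + 1) ^ 2) * t ^ k + C (4 * ((k : ℤ) + 1) ^ 2 + 2 * ((k : ℤ) + 1)) *
        t ^ (k + 1) - C (2 * N) * t ^ (k + 1)) = C (((k : ℤ) + 1) ^ 2) * t ^ (k + 1) +
        C (4 * ((k : ℤ) + 1) ^ 2 + 2 * ((k : ℤ) + 1) - 2 * N) * t ^ (k + 1 + 1) := by
    rw [C_sub]
    ring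
  have h5 : derivative (t ^ (k + 1 + 1)) = C ((k : ℤ) + 2) * t ^ (k + 1) * derivative t := by
    rw [derivative_pow_succ]
    push_cast
    have : (C ((k : ℤ) + 2) : ℤ[X]) = (k : ℤ[X]) + 1 + 1 := by
      rw [C_add]
      have hC2 : (C (2 : ℤ) : ℤ[X]) = 2 := rfl
      rw [hC2]
      simp
      ring
    rw [this]
    simp
  rw [h4, derivative_add, derivative_C_mul, derivative_C_mul, h1, h5]
  simp only [map_add, map_mul, map_pow, map_one, map_sub]
  have hC4 : (C (4 : ℤ) : ℤ[X]) = 4 := rfl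
  have hC3 : (C (3 : ℤ) : ℤ[X]) = 3 := rfl
  have hC2 : (C (2 : ℤ) : ℤ[X]) = 2 := rfl
  rw [hC4, hC3, hC2]
  ring

theorem L_zero (N : ℤ) : L N 0 = 0 := by
  unfold L
  simp

theorem L_W_partial (n K : ℕ) : L ((n : ℤ) * ((n : ℤ) + 1))
    (∑ k ∈ range (K + 1), C (e n k * b k ^ 2) * t ^ k) =
    -(derivative t * (C (((K : ℤ) + 1) ^ 3 * (e n (K + 1) * b (K + 1) ^ 2)) * t ^ K)) := by
  induction K with
  | zero =>
    rw [Finset.sum_range_one, pow_zero, L_C_mul, L_one]
    rw [d_succ]
    simp only [map_add, map_mul, map_pow, map_one, map_sub, pow_zero, mul_one]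
    push_cast
    simp
    ring
  | succ K ih =>
    rw [Finset.sum_range_succ, L_add, ih, L_C_mul, L_pow, d_succ n (K + 1)]
    simp only [map_add, map_mul, map_pow, map_one, map_sub]
    push_cast
    have hC3 : (C (3 : ℤ) : ℤ[X]) = 3 := rfl
    have hC2 : (C (2 : ℤ) : ℤ[X]) = 2 := rfl
    simp only [hC3, hC2, map_natCast, map_add, map_one]
    ring

theorem L_W (n : ℕ) : L ((n : ℤ) * ((n : ℤ) + 1)) (W n) = 0 := by
  unfold W
  rw [L_W_partial, e_zero_of_lt (by omega : n < n + 1)]
  simp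

theorem D_ode_partial (n K : ℕ) :
    derivative (t * derivative (∑ k ∈ range (K + 1), C (e n k * b k) * X ^ k)) =
      C ((n : ℤ) * ((n : ℤ) + 1)) * (∑ k ∈ range (K + 1), C (e n k * b k) * X ^ k) -
      C (((K : ℤ) + 1) ^ 2 * (e n (K + 1) * b (K + 1))) * X ^ K := by
  induction K with
  | zero =>
    rw [Finset.sum_range_one, pow_zero, mul_one, derivative_C, mul_zero, derivative_zero, c_succ]
    simp only [map_add, map_mul, map_one, map_sub]
    push_cast
    simp
  | succ K ih =>
    rw [Finset.sum_range_succ, derivative_add, mul_add, derivative_add, ih, mul_add,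
      c_succ n (K + 1), derivative_C_mul]
    have h1 : derivative ((X : ℤ[X]) ^ (K + 1)) = C ((K : ℤ) + 1) * X ^ K := by
      rw [derivative_X_pow]
      simp
    have h2 : t * (C (e n (K + 1) * b (K + 1)) * derivative ((X : ℤ[X]) ^ (K + 1))) =
        C (e n (K + 1) * b (K + 1) * ((K : ℤ) + 1)) * (X ^ (K + 1 + 1) + X ^ (K + 1)) := by
      rw [h1]
      unfold t
      simp only [map_mul]
      ring
    have h3 : derivative ((X : ℤ[X]) ^ (K + 1 + 1)) = C ((K : ℤ) + 2) * X ^ (K + 1) := by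
      rw [derivative_X_pow]
      have : (C ((K : ℤ) + 2) : ℤ[X]) = (K : ℤ[X]) + 1 + 1 := by
        rw [C_add]
        have hC2 : (C (2 : ℤ) : ℤ[X]) = 2 := rfl
        rw [hC2]
        simp
        ring
      rw [this]
      simp
    rw [h2, derivative_C_mul, derivative_add, h1, h3]
    simp only [map_add, map_mul, map_pow, map_one, map_sub]
    push_cast
    have hC2 : (C (2 : ℤ) : ℤ[X]) = 2 := rfl
    simp only [hC2, map_natCast, map_add, map_one]
    ring

theorem D_ode (n : ℕ) : derivative (t * derivative (D n)) =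
    C ((n : ℤ) * ((n : ℤ) + 1)) * D n := by
  unfold D
  rw [D_ode_partial, e_zero_of_lt (by omega : n < n + 1)]
  simp

theorem L_D_sq (n : ℕ) : L ((n : ℤ) * ((n : ℤ) + 1)) (D n ^ 2) = 0 := by
  have h := D_ode n
  generalize (n : ℤ) * ((n : ℤ) + 1) = N at *
  generalize hA : t * derivative (D n) = A at *
  have h1 : t * derivative (D n ^ 2) = 2 * (D n * A) := by
    rw [derivative_sq, ← hA]
    have hC2 : (C (2 : ℤ) : ℤ[X]) = 2 := rfl
    rw [hC2]
    ring
  have hd2 : derivative (2 : ℤ[X]) = 0 := by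
    have : (2 : ℤ[X]) = C 2 := rfl
    rw [this, derivative_C]
  unfold L
  rw [h1]
  have h2 : derivative (2 * (D n * A)) = 2 * (derivative (D n) * A + D n * (C N * D n)) := by
    rw [derivative_mul, hd2, derivative_mul, h]
    ring
  rw [h2]
  have h3 : t * (2 * (derivative (D n) * A + D n * (C N * D n)) - C (2 * N) * D n ^ 2) =
      2 * (A * A) := by
    rw [← hA, C_mul]
    have hC2 : (C (2 : ℤ) : ℤ[X]) = 2 := rfl
    rw [hC2]
    ring
  rw [h3, derivative_mul, hd2, derivative_mul, h, C_mul]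
  have hC2 : (C (2 : ℤ) : ℤ[X]) = 2 := rfl
  rw [hC2]
  ring

theorem L_unique (N : ℤ) (w : ℤ[X]) (h : L N w = 0) (h0 : X ∣ w) : w = 0 := by
  have key : ∀ m : ℕ, (X : ℤ[X]) ^ (m + 1) ∣ w := by
    intro m
    induction m with
    | zero => simpa using h0
    | succ m ih =>
      obtain ⟨u, hu⟩ := ih
      have hX1 : derivative ((X : ℤ[X]) ^ (m + 1)) = C ((m : ℤ) + 1) * X ^ m := by
        rw [derivative_X_pow]
        simp
      have hd1 : ∀ a : ℤ[X], derivative (X ^ (m + 1) * a) =
          X ^ m * (C ((m : ℤ) + 1) * a + X * derivative a) := by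
        intro a
        rw [derivative_mul, hX1]
        ring
      have h1 : t * derivative w = X ^ (m + 1) * ((X + 1) *
          (C ((m : ℤ) + 1) * u + X * derivative u)) := by
        rw [hu, hd1]
        unfold t
        ring
      set a : ℤ[X] := (X + 1) * (C ((m : ℤ) + 1) * u + X * derivative u) with ha
      have h2 : t * (derivative (t * derivative w) - C (2 * N) * w) =
          X ^ (m + 1) * ((X + 1) * (C ((m : ℤ) + 1) * a + X * derivative a -
            C (2 * N) * (X * u))) := by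
        rw [h1, hd1, hu]
        unfold t
        ring
      set c : ℤ[X] := (X + 1) * (C ((m : ℤ) + 1) * a + X * derivative a -
            C (2 * N) * (X * u)) with hc
      have h3 : X ^ m * (C ((m : ℤ) + 1) * c + X * derivative c - C (2 * N) * (X * a)) = 0 := by
        rw [← h]
        unfold L
        rw [h2, hd1, h1]
        ring
      have h4 : C ((m : ℤ) + 1) * c + X * derivative c - C (2 * N) * (X * a) = 0 := by
        rcases mul_eq_zero.mp h3 with h5 | h5
        · exact absurd h5 (pow_ne_zero _ X_ne_zero)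
        · exact h5
      have h5 := congrArg (eval 0) h4
      simp only [eval_add, eval_sub, eval_mul, eval_C, eval_X, eval_zero, hc, ha, eval_one,
        zero_mul, mul_zero, zero_add, add_zero, sub_zero, one_mul] at h5
      have h6 : eval 0 u = 0 := by
        have hne : ((m : ℤ) + 1) ≠ 0 := by positivity
        rcases mul_eq_zero.mp h5 with h7 | h7
        · exact absurd h7 hne
        · rcases mul_eq_zero.mp h7 with h8 | h8
          · exact absurd h8 hne
          · rcases mul_eq_zero.mp h8 with h9 | h9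
            · exact absurd h9 hne
            · exact h9
      have h7 : X ∣ u := by
        rw [X_dvd_iff, coeff_zero_eq_eval_zero]
        exact h6
      rw [hu, pow_succ]
      exact mul_dvd_mul_left _ h7
  by_contra hne
  have h1 := key w.natDegree
  have h2 := natDegree_le_of_dvd h1 hne
  rw [natDegree_X_pow] at h2
  omega

theorem clausen_poly (n : ℕ) : D n ^ 2 = W n := by
  have h : D n ^ 2 + C (-1) * W n = 0 := by
    apply L_unique ((n : ℤ) * ((n : ℤ) + 1))
    · rw [L_add, L_C_mul, L_D_sq, L_W]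
      simp
    · rw [X_dvd_iff, coeff_zero_eq_eval_zero]
      unfold D W t
      rw [Finset.sum_range_succ', Finset.sum_range_succ']
      simp [eval_finsetSum, e, b]
  have h2 : D n ^ 2 = -(C (-1) * W n) := by
    linear_combination h
  rw [h2]
  simp

/-- Clausen's identity in a commutative ring. -/
theorem clausen {R : Type*} [CommRing R] (n : ℕ) (x : R) :
    (∑ k ∈ range (n + 1), ((e n k * b k : ℤ) : R) * x ^ k) ^ 2 =
      ∑ k ∈ range (n + 1), ((e n k * b k ^ 2 : ℤ) : R) * (x ^ 2 + x) ^ k := by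
  have h := congrArg (aeval x) (clausen_poly n)
  unfold D W t at h
  simp only [map_pow, map_sum, map_mul, aeval_X, map_add, eq_intCast, map_intCast] at h
  push_cast
  exact h

end Pool.Agent.R443.CL
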