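import Pool.Agent.R443.CL1

/-!
The value at `-1/2`, a quadratic transformation modulo `p`, and the vanishing modulo `p^2` of
`sum C(2k,k)^3` for primes with `(-7/p) = -1`.
-/

set_option autoImplicit false

namespace Pool.Agent.R443.CL

open Finset

/-- Three-term recurrence, coefficientwise. -/
theorem e_three (n k : ℕ) : ((n : ℤ) + 2) * (e (n + 2) (k + 1) * b (k + 1)) -
    (2 * (n : ℤ) + 3) * (e (n + 1) (k + 1) * b (k + 1)) + ((n : ℤ) + 1) * (e n (k + 1) * b (k + 1))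
    = 2 * (2 * (n : ℤ) + 3) * (e (n + 1) k * b k) := by
  have hb := b_succ k
  have p1 : e (n + 2) (k + 1) = ((Nat.choose (n + k + 1) (2 * k) : ℕ) : ℤ) +
      2 * ((Nat.choose (n + k + 1) (2 * k + 1) : ℕ) : ℤ) +
      ((Nat.choose (n + k + 1) (2 * k + 2) : ℕ) : ℤ) := by
    unfold e
    rw [show n + 2 + (k + 1) = n + k + 1 + 1 + 1 by ring, show 2 * (k + 1) = 2 * k + 1 + 1 by ring,
      Nat.choose_succ_succ (n + k + 1 + 1), Nat.choose_succ_succ (n + k + 1) (2 * k),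
      Nat.choose_succ_succ (n + k + 1) (2 * k + 1)]
    push_cast
    ring
  have p2 : e (n + 1) (k + 1) = ((Nat.choose (n + k + 1) (2 * k + 1) : ℕ) : ℤ) +
      ((Nat.choose (n + k + 1) (2 * k + 2) : ℕ) : ℤ) := by
    unfold e
    rw [show n + 1 + (k + 1) = n + k + 1 + 1 by ring, show 2 * (k + 1) = 2 * k + 1 + 1 by ring,
      Nat.choose_succ_succ (n + k + 1) (2 * k + 1)]
    push_cast
    ring
  have p3 : e n (k + 1) = ((Nat.choose (n + k + 1) (2 * k + 2) : ℕ) : ℤ) := by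
    unfold e
    rw [show n + (k + 1) = n + k + 1 by ring, show 2 * (k + 1) = 2 * k + 2 by ring]
  have p4 : e (n + 1) k = ((Nat.choose (n + k + 1) (2 * k) : ℕ) : ℤ) := by
    unfold e
    rw [show n + 1 + k = n + k + 1 by ring]
  have h2 : (2 * (k : ℤ) + 1) * ((Nat.choose (n + k + 1) (2 * k + 1) : ℕ) : ℤ) =
      ((n : ℤ) + 1 - k) * ((Nat.choose (n + k + 1) (2 * k) : ℕ) : ℤ) := by
    rcases Nat.lt_or_ge (n + k + 1) (2 * k) with h | h
    · rw [Nat.choose_eq_zero_of_lt h, Nat.choose_eq_zero_of_lt (by omega : n + k + 1 < 2 * k + 1)]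
      simp
    · have h1 := Nat.choose_succ_right_eq (n + k + 1) (2 * k)
      have h4 : ((Nat.choose (n + k + 1) (2 * k + 1) * (2 * k + 1) : ℕ) : ℤ) =
        ((Nat.choose (n + k + 1) (2 * k) * (n + k + 1 - 2 * k) : ℕ) : ℤ) := by exact_mod_cast h1
      push_cast [Nat.cast_sub h] at h4
      linear_combination h4
  rw [p1, p2, p3, p4]
  have hne : (2 * (k : ℤ) + 1) ≠ 0 := by positivity
  apply mul_left_cancel₀ hne
  generalize ((Nat.choose (n + k + 1) (2 * k) : ℕ) : ℤ) = x at *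
  generalize ((Nat.choose (n + k + 1) (2 * k + 1) : ℕ) : ℤ) = y at *
  generalize ((Nat.choose (n + k + 1) (2 * k + 2) : ℕ) : ℤ) = z at *
  linear_combination b (k + 1) * h2 + (2 * (n : ℤ) + 3) * x * hb

/-- `D_m(-1/2)` over the rationals. -/
def H (m : ℕ) : ℚ := ∑ k ∈ range (m + 1), ((e m k * b k : ℤ) : ℚ) * (-1 / 2) ^ k

theorem H_ext (m K : ℕ) (h : m < K) :
    H m = ∑ k ∈ range K, ((e m k * b k : ℤ) : ℚ) * (-1 / 2) ^ k := by
  unfold H
  refine Finset.sum_subset (Finset.range_mono (by omega)) ?_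
  intro k _ hk
  rw [Finset.mem_range, not_lt] at hk
  rw [e_zero_of_lt (by omega : m < k)]
  simp

theorem e_at_zero (n : ℕ) : e n 0 = 1 := by
  unfold e
  simp

theorem H_rec (n : ℕ) : ((n : ℚ) + 2) * H (n + 2) = -(((n : ℚ) + 1) * H n) := by
  have h1 := H_ext (n + 2) (n + 4) (by omega)
  have h2 := H_ext (n + 1) (n + 4) (by omega)
  have h2' := H_ext (n + 1) (n + 3) (by omega)
  have h3 := H_ext n (n + 4) (by omega)
  rw [Finset.sum_range_succ'] at h1 h2 h3
  simp only [e_at_zero, pow_zero, mul_one] at h1 h2 h3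
  have key : ((n : ℚ) + 2) * (∑ k ∈ range (n + 3), ((e (n + 2) (k + 1) * b (k + 1) : ℤ) : ℚ) *
      (-1 / 2) ^ (k + 1)) - (2 * (n : ℚ) + 3) * (∑ k ∈ range (n + 3),
      ((e (n + 1) (k + 1) * b (k + 1) : ℤ) : ℚ) * (-1 / 2) ^ (k + 1)) +
      ((n : ℚ) + 1) * (∑ k ∈ range (n + 3), ((e n (k + 1) * b (k + 1) : ℤ) : ℚ) *
      (-1 / 2) ^ (k + 1)) = -((2 * (n : ℚ) + 3) * ∑ k ∈ range (n + 3),
        ((e (n + 1) k * b k : ℤ) : ℚ) * (-1 / 2) ^ k) := by
    rw [Finset.mul_sum, Finset.mul_sum, Finset.mul_sum, Finset.mul_sum, ← Finset.sum_sub_distrib,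
      ← Finset.sum_add_distrib, ← Finset.sum_neg_distrib]
    refine Finset.sum_congr rfl ?_
    intro k _
    have h := e_three n k
    have h' : (((n : ℚ) + 2) * ((e (n + 2) (k + 1) * b (k + 1) : ℤ) : ℚ) -
      (2 * (n : ℚ) + 3) * ((e (n + 1) (k + 1) * b (k + 1) : ℤ) : ℚ) +
      ((n : ℚ) + 1) * ((e n (k + 1) * b (k + 1) : ℤ) : ℚ))
      = 2 * (2 * (n : ℚ) + 3) * ((e (n + 1) k * b k : ℤ) : ℚ) := by exact_mod_cast h
    rw [pow_succ]
    linear_combination (-1 / 2 : ℚ) ^ k * (-1 / 2) * h'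
  rw [← h2'] at key
  linear_combination ((n : ℚ) + 2) * h1 - (2 * (n : ℚ) + 3) * h2 + ((n : ℚ) + 1) * h3 + key

theorem H_even (l : ℕ) : H (2 * l) = (-1) ^ l * (b l : ℚ) / 4 ^ l := by
  induction l with
  | zero => simp [H, e, b]
  | succ l ih =>
    have h := H_rec (2 * l)
    rw [show 2 * l + 2 = 2 * (l + 1) by ring, ih] at h
    have hb := b_succ l
    have hb' : ((l : ℚ) + 1) * (b (l + 1) : ℚ) = 2 * (2 * (l : ℚ) + 1) * (b l : ℚ) := by
      exact_mod_cast hb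
    have hne : ((l : ℚ) + 1) ≠ 0 := by positivity
    push_cast at h
    apply mul_left_cancel₀ hne
    rw [pow_succ, pow_succ]
    linear_combination (1 / 2) * h + (1 / 4) * ((-1 : ℚ) ^ l / 4 ^ l) * hb'

theorem H_odd (l : ℕ) : H (2 * l + 1) = 0 := by
  induction l with
  | zero =>
    simp [H, e, b, Finset.sum_range_succ, Nat.centralBinom_eq_two_mul_choose]
    norm_num
  | succ l ih =>
    have h := H_rec (2 * l + 1)
    rw [show 2 * l + 1 + 2 = 2 * (l + 1) + 1 by ring, ih, mul_zero, neg_zero] at h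
    rcases mul_eq_zero.mp h with h1 | h1
    · exfalso
      have : (0 : ℚ) < ((2 * l + 1 : ℕ) : ℚ) + 2 := by positivity
      linarith
    · exact h1

/-- Integer form. -/
theorem Z_eq (m : ℕ) : ((∑ k ∈ range (m + 1), e m k * b k ^ 2 * (-1) ^ k * 4 ^ (m - k) : ℤ) : ℚ) =
    4 ^ m * H m ^ 2 := by
  have h := clausen m (-1 / 2 : ℚ)
  have h0 : H m = ∑ k ∈ range (m + 1), ((e m k * b k : ℤ) : ℚ) * (-1 / 2) ^ k := rfl
  rw [← h0] at h
  rw [h, Finset.mul_sum]
  push_cast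
  refine Finset.sum_congr rfl ?_
  intro k hk
  rw [Finset.mem_range] at hk
  have h4 : (4 : ℚ) ^ m = 4 ^ (m - k) * 4 ^ k := by
    rw [← pow_add]
    congr 1
    omega
  rw [h4, show ((-1 / 2 : ℚ) ^ 2 + -1 / 2) = (-1) / 4 by norm_num, div_pow]
  have h5 : (4 : ℚ) ^ k ≠ 0 := by positivity
  field_simp

theorem Z_even (l : ℕ) : ∑ k ∈ range (2 * l + 1), e (2 * l) k * b k ^ 2 * (-1) ^ k *
    4 ^ (2 * l - k) = b l ^ 2 := by
  have h := Z_eq (2 * l)
  rw [H_even] at h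
  have h2 : (4 : ℚ) ^ (2 * l) * ((-1) ^ l * (b l : ℚ) / 4 ^ l) ^ 2 = (b l : ℚ) ^ 2 := by
    have h4 : ((4 : ℚ) ^ l) ^ 2 ≠ 0 := by positivity
    have hs : ((-1 : ℚ) ^ l) ^ 2 = 1 := by
      rw [← pow_mul, mul_comm, pow_mul]
      norm_num
    rw [show (4 : ℚ) ^ (2 * l) = (4 ^ l) ^ 2 by rw [← pow_mul, mul_comm], div_pow, mul_pow, hs,
      one_mul, mul_div_cancel₀ _ h4]
  rw [h2] at h
  exact_mod_cast h

theorem Z_odd (l : ℕ) : ∑ k ∈ range (2 * l + 1 + 1), e (2 * l + 1) k * b k ^ 2 * (-1) ^ k *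
    4 ^ (2 * l + 1 - k) = 0 := by
  have h := Z_eq (2 * l + 1)
  rw [H_odd] at h
  have : (4 : ℚ) ^ (2 * l + 1) * 0 ^ 2 = 0 := by norm_num
  rw [this] at h
  exact_mod_cast h

section Landen

variable {K : Type*} [CommRing K]

theorem cast_zero_of_dvd {p : ℕ} (hp0 : (p : K) = 0) {z : ℤ} (h : (p : ℤ) ∣ z) : (z : K) = 0 := by
  obtain ⟨c, hc⟩ := h
  rw [hc]
  push_cast
  rw [hp0, zero_mul]

theorem b_zero {p i : ℕ} (hp : p.Prime) (hp0 : (p : K) = 0) (h1 : p ≤ 2 * i) (h2 : i < p) :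
    (b i : K) = 0 := by
  apply cast_zero_of_dvd hp0
  unfold b
  rw [Nat.centralBinom_eq_two_mul_choose]
  exact_mod_cast hp.dvd_choose (by omega) (by omega) (by omega)

/-- `C(p-1-2i, r) = (-1)^r C(2i+r, r)` modulo `p`. -/
theorem choose_neg {h : ℕ} (hp : (2 * h + 1).Prime) (hp0 : ((2 * h + 1 : ℕ) : K) = 0) (i : ℕ)
    (hi : i ≤ h) (r : ℕ) (hr : r ≤ 2 * h) :
    ((Nat.choose (2 * h - 2 * i) r : ℕ) : K) = (-1) ^ r * ((Nat.choose (2 * i + r) r : ℕ) : K) := by
  have key : ((2 * h + 1 : ℕ) : ℤ) ∣ ((Nat.choose (2 * h - 2 * i) r : ℕ) : ℤ) -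
      (-1) ^ r * ((Nat.choose (2 * i + r) r : ℕ) : ℤ) := by
    have hpp : Prime ((2 * h + 1 : ℕ) : ℤ) := Nat.prime_iff_prime_int.mp hp
    induction r with
    | zero => simp
    | succ r ih =>
      have ih := ih (by omega)
      have h1 := Nat.choose_succ_right_eq (2 * h - 2 * i) r
      have h1' : ((Nat.choose (2 * h - 2 * i) (r + 1) : ℕ) : ℤ) * ((r : ℤ) + 1) =
          ((Nat.choose (2 * h - 2 * i) r : ℕ) : ℤ) * (2 * (h : ℤ) - 2 * i - r) := by
        rcases Nat.lt_or_ge (2 * h - 2 * i) r with h3 | h3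
        · rw [Nat.choose_eq_zero_of_lt h3, Nat.choose_eq_zero_of_lt (by omega)]
          simp
        · have h4 : ((Nat.choose (2 * h - 2 * i) (r + 1) * (r + 1) : ℕ) : ℤ) =
            ((Nat.choose (2 * h - 2 * i) r * (2 * h - 2 * i - r) : ℕ) : ℤ) := by exact_mod_cast h1
          have h5 : ((2 * h - 2 * i - r : ℕ) : ℤ) = 2 * (h : ℤ) - 2 * i - r := by omega
          rw [Nat.cast_mul, Nat.cast_mul, h5] at h4
          push_cast at h4
          exact h4
      have h2 := Nat.add_one_mul_choose_eq (2 * i + r) r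
      have h2' : ((2 * (i : ℤ) + r + 1) * ((Nat.choose (2 * i + r) r : ℕ) : ℤ)) =
          ((Nat.choose (2 * i + (r + 1)) (r + 1) : ℕ) : ℤ) * ((r : ℤ) + 1) := by
        have h4 : (((2 * i + r + 1) * Nat.choose (2 * i + r) r : ℕ) : ℤ) =
          ((Nat.choose (2 * i + r + 1) (r + 1) * (r + 1) : ℕ) : ℤ) := by exact_mod_cast h2
        push_cast at h4
        exact h4
      have hn : ¬ ((2 * h + 1 : ℕ) : ℤ) ∣ ((r : ℤ) + 1) := by
        intro hd
        have h6 : (2 * h + 1) ∣ (r + 1) := by exact_mod_cast hd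
        exact absurd (Nat.le_of_dvd (by omega) h6) (by omega)
      refine (hpp.dvd_or_dvd ?_).resolve_left hn
      obtain ⟨c, hc⟩ := ih
      refine ⟨c * (2 * (h : ℤ) - 2 * i - r) + (-1) ^ r *
        ((Nat.choose (2 * i + r) r : ℕ) : ℤ), ?_⟩
      rw [pow_succ]
      push_cast at hc ⊢
      linear_combination h1' + (2 * (h : ℤ) - 2 * i - r) * hc - (-1) ^ r * h2'
  have h2 := cast_zero_of_dvd hp0 key
  push_cast at h2
  linear_combination h2

theorem sum_even_odd (g : ℕ → K) (h : ℕ) (hodd : ∀ l, g (2 * l + 1) = 0) :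
    ∑ m ∈ range (2 * h + 1), g m = ∑ l ∈ range (h + 1), g (2 * l) := by
  induction h with
  | zero => simp
  | succ h ih =>
    rw [show 2 * (h + 1) + 1 = 2 * h + 1 + 1 + 1 by ring, Finset.sum_range_succ,
      Finset.sum_range_succ, ih, hodd, Finset.sum_range_succ _ (h + 1), add_zero]
    rfl

/-- The quadratic transformation in characteristic `p = 2h+1`. -/
theorem landen {h : ℕ} (hp : (2 * h + 1).Prime) (hp0 : ((2 * h + 1 : ℕ) : K) = 0) (q s : K)
    (hq : 4 * q = 1) :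
    ∑ i ∈ range (h + 1), (b i : K) ^ 2 * (q * s) ^ i * (1 + s) ^ (2 * h - 2 * i) =
      ∑ l ∈ range (h + 1), (b l : K) ^ 2 * (q ^ 2 * s ^ 2) ^ l := by
  set f : ℕ → ℕ → K := fun i r => (b i : K) ^ 2 * q ^ i * ((-1) ^ r *
    ((Nat.choose (2 * i + r) r : ℕ) : K)) * s ^ (i + r) with hf
  -- left side
  have h1 : ∀ i ∈ range (h + 1), (b i : K) ^ 2 * (q * s) ^ i * (1 + s) ^ (2 * h - 2 * i) =
      ∑ r ∈ range (2 * h + 1 - i), f i r := by
    intro i hi
    rw [Finset.mem_range] at hi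
    have h2 : (1 + s) ^ (2 * h - 2 * i) = ∑ r ∈ range (2 * h + 1 - i),
        s ^ r * ((Nat.choose (2 * h - 2 * i) r : ℕ) : K) := by
      rw [add_comm, add_pow]
      simp only [one_pow, mul_one]
      refine Finset.sum_subset (Finset.range_mono (by omega)) ?_
      intro r _ hr
      rw [Finset.mem_range, not_lt] at hr
      rw [Nat.choose_eq_zero_of_lt (by omega)]
      simp
    rw [h2, Finset.mul_sum]
    refine Finset.sum_congr rfl ?_
    intro r hr
    rw [Finset.mem_range] at hr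
    rw [choose_neg hp hp0 i (by omega) r (by omega)]
    simp only [hf]
    rw [mul_pow, pow_add]
    ring
  rw [Finset.sum_congr rfl h1]
  have h3 : ∑ i ∈ range (h + 1), ∑ r ∈ range (2 * h + 1 - i), f i r =
      ∑ i ∈ range (2 * h + 1), ∑ r ∈ range (2 * h + 1 - i), f i r := by
    refine Finset.sum_subset (Finset.range_mono (by omega)) ?_
    intro i hi hi2
    rw [Finset.mem_range] at hi
    rw [Finset.mem_range, not_lt] at hi2
    refine Finset.sum_eq_zero ?_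
    intro r _
    simp only [hf]
    rw [b_zero hp hp0 (by omega) (by omega)]
    ring
  rw [h3, ← Finset.sum_range_diag_flip (2 * h + 1) f]
  have h4 : ∀ m ∈ range (2 * h + 1), ∑ k ∈ range (m + 1), f k (m - k) = (-1) ^ m * s ^ m *
      q ^ m * ((∑ k ∈ range (m + 1), e m k * b k ^ 2 * (-1) ^ k * 4 ^ (m - k) : ℤ) : K) := by
    intro m _
    push_cast
    rw [Finset.mul_sum]
    refine Finset.sum_congr rfl ?_
    intro k hk
    rw [Finset.mem_range] at hk
    simp only [hf]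
    obtain ⟨d, rfl⟩ : ∃ d, m = k + d := ⟨m - k, by omega⟩
    rw [show k + d - k = d by omega]
    have he : (e (k + d) k : K) = ((Nat.choose (2 * k + d) d : ℕ) : K) := by
      unfold e
      rw [show k + d + k = 2 * k + d by ring, Nat.choose_symm_add]
      push_cast
      rfl
    rw [he]
    have h5 : q ^ (k + d) * 4 ^ d = q ^ k := by
      rw [pow_add, mul_assoc, ← mul_pow, mul_comm q 4, hq, one_pow, mul_one]
    have h6 : ((-1 : K)) ^ (k + d) * (-1) ^ k = (-1) ^ d := by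
      rw [pow_add, mul_comm ((-1 : K) ^ k) _, mul_assoc, ← mul_pow]
      norm_num
    calc (b k : K) ^ 2 * q ^ k * ((-1) ^ d * ((Nat.choose (2 * k + d) d : ℕ) : K)) *
          s ^ (k + d) = (b k : K) ^ 2 * (q ^ (k + d) * 4 ^ d) * ((((-1 : K)) ^ (k + d) *
          (-1) ^ k) * ((Nat.choose (2 * k + d) d : ℕ) : K)) * s ^ (k + d) := by rw [h5, h6]
      _ = _ := by ring
  rw [Finset.sum_congr rfl h4, sum_even_odd]
  · refine Finset.sum_congr rfl ?_
    intro l _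
    rw [Z_even]
    push_cast
    rw [pow_mul (-1 : K) 2 l]
    norm_num
    rw [pow_mul s 2 l, pow_mul q 2 l, mul_pow]
    ring
  · intro l
    rw [Z_odd]
    simp

/-- The key vanishing in characteristic `p`. -/
theorem vanish {h : ℕ} (hp : (2 * h + 1).Prime) (hp0 : ((2 * h + 1 : ℕ) : K) = 0) (q s : K)
    (hq : 4 * q = 1) (hs : s ^ 2 + 3 * s + 4 = 0) (hfr : s ^ (2 * h + 1) = -3 - s)
    (c7 : K) (h7 : 7 * c7 = 1) :
    ∑ l ∈ range (h + 1), (b l : K) ^ 2 * (q ^ 2 * s ^ 2) ^ l = 0 := by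
  have h1 := landen hp hp0 q s hq
  set f : K := ∑ l ∈ range (h + 1), (b l : K) ^ 2 * (q ^ 2 * s ^ 2) ^ l with hf
  have h2 : ∑ i ∈ range (h + 1), (b i : K) ^ 2 * (q * s) ^ i * (1 + s) ^ (2 * h - 2 * i) =
      (1 + s) ^ (2 * h) * f := by
    rw [hf, Finset.mul_sum]
    refine Finset.sum_congr rfl ?_
    intro i hi
    rw [Finset.mem_range] at hi
    have h3 : q * s = q ^ 2 * s ^ 2 * (1 + s) ^ 2 := by
      have h4 : s * (1 + s) ^ 2 = 4 := by linear_combination (s - 1) * hs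
      linear_combination (-(q * s)) * hq - q ^ 2 * s * h4
    have h5 : (1 + s) ^ (2 * h) = ((1 + s) ^ 2) ^ i * (1 + s) ^ (2 * h - 2 * i) := by
      rw [← pow_mul, ← pow_add]
      congr 1
      omega
    rw [h5]
    nth_rewrite 1 [h3]
    rw [mul_pow (q ^ 2 * s ^ 2)]
    ring
  rw [h2] at h1
  have h6 : (1 + s) ^ (2 * h + 1) = -2 - s := by
    obtain ⟨r, hr⟩ := exists_add_pow_prime_eq hp (1 : K) s
    rw [hr, hp0, hfr]
    ring
  have h8 : (1 + s) * f = (-2 - s) * f := by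
    rw [← h6, pow_succ]
    linear_combination (-(1 + s)) * h1
  have h9 : 7 * f = 0 := by
    linear_combination (-(2 * s + 3)) * h8 + 4 * f * hs
  calc f = (7 * c7) * f := by rw [h7, one_mul]
    _ = c7 * (7 * f) := by ring
    _ = 0 := by rw [h9, mul_zero]

end Landen

end Pool.Agent.R443.CL
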