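import Pool.Agent.R443.FT2

/-!
The sum modulo `p` and the final congruence.
-/

set_option autoImplicit false

namespace Pool.Agent.R443.FT

open Finset

theorem cb_mod {p : ℕ} [hp : Fact p.Prime] (hp2 : p ≠ 2) (j : ℕ) (hj : 2 * j < p) :
    ((Nat.centralBinom j : ℕ) : ZMod p) = (-4) ^ j * ((Nat.choose (p / 2) j : ℕ) : ZMod p) := by
  have hpo : p % 2 = 1 := (Nat.Prime.eq_two_or_odd hp.out).resolve_left hp2
  induction j with
  | zero => simp
  | succ j ih =>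
    have ih := ih (by omega)
    have h1 := Nat.succ_mul_centralBinom_succ j
    have h1' : (((j + 1) * Nat.centralBinom (j + 1) : ℕ) : ZMod p) =
      ((2 * (2 * j + 1) * Nat.centralBinom j : ℕ) : ZMod p) := by rw [h1]
    have h2 := Nat.choose_succ_right_eq (p / 2) j
    have h2' : ((Nat.choose (p / 2) (j + 1) * (j + 1) : ℕ) : ZMod p) =
      ((Nat.choose (p / 2) j * (p / 2 - j) : ℕ) : ZMod p) := by rw [h2]
    have h3 : 2 * (p / 2) + 1 = p := by omega
    have h4 : 2 * (((p / 2 : ℕ)) : ZMod p) + 1 = 0 := by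
      have : ((2 * (p / 2) + 1 : ℕ) : ZMod p) = ((p : ℕ) : ZMod p) := by rw [h3]
      push_cast at this
      rw [this, ZMod.natCast_self]
    have hle : j ≤ p / 2 := by omega
    push_cast [Nat.cast_sub hle] at h1' h2'
    have hne : ((j : ZMod p) + 1) ≠ 0 := by
      intro h0
      have h5 : ((j + 1 : ℕ) : ZMod p) = 0 := by
        push_cast
        exact h0
      rw [ZMod.natCast_eq_zero_iff] at h5
      exact absurd (Nat.le_of_dvd (by omega) h5) (by omega)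
    apply mul_left_cancel₀ hne
    rw [h1', ih, pow_succ]
    linear_combination 4 * (-4) ^ j * h2' + 2 * (-4 : ZMod p) ^ j *
      ((Nat.choose (p / 2) j : ℕ) : ZMod p) * h4

theorem sum_cb {p : ℕ} [hp : Fact p.Prime] (hp2 : p ≠ 2) (x : ZMod p) :
    ∑ j ∈ range (p / 2 + 1), ((Nat.centralBinom j : ℕ) : ZMod p) * x ^ j =
      (1 - 4 * x) ^ (p / 2) := by
  have hpo : p % 2 = 1 := (Nat.Prime.eq_two_or_odd hp.out).resolve_left hp2
  rw [show (1 - 4 * x) = (-4 * x) + 1 by ring, add_pow]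
  refine Finset.sum_congr rfl ?_
  intro j hj
  rw [Finset.mem_range] at hj
  rw [cb_mod hp2 j (by omega), one_pow, mul_pow]
  ring

theorem neg_seven {p : ℕ} [hp : Fact p.Prime] (hp2 : p ≠ 2) :
    legendreSym p (-7) = jacobiSym (p : ℤ) 7 := by
  have h7 : Fact (Nat.Prime 7) := ⟨by norm_num⟩
  have hpo : p % 2 = 1 := (Nat.Prime.eq_two_or_odd hp.out).resolve_left hp2
  have h1 : legendreSym p (-7) = legendreSym p (-1) * legendreSym p 7 := by
    rw [← legendreSym.mul]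
    norm_num
  have h2 : legendreSym p 7 = (-1) ^ (7 / 2 * (p / 2)) * legendreSym 7 p := by
    have := legendreSym.quadratic_reciprocity' (p := 7) (q := p) (by norm_num) hp2
    exact_mod_cast this
  rw [h1, h2, legendreSym.at_neg_one hp2, ZMod.χ₄_eq_neg_one_pow hpo,
    ← jacobiSym.legendreSym.to_jacobiSym]
  have h3 : (-1 : ℤ) ^ (p / 2) * (-1) ^ (7 / 2 * (p / 2)) = 1 := by
    rw [← pow_add, show p / 2 + 7 / 2 * (p / 2) = 2 * (2 * (p / 2)) by omega, pow_mul]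
    norm_num
  rw [← mul_assoc, h3, one_mul]

theorem sum16 {p : ℕ} (hp : p.Prime) (hp2 : p ≠ 2) (hp3 : p ≠ 3) :
    (p : ℤ) ∣ ∑ j ∈ range (p / 2 + 1), ((Nat.centralBinom j : ℕ) : ℤ) * 16 ^ j -
      jacobiSym (p : ℤ) 7 := by
  have : Fact p.Prime := ⟨hp⟩
  rw [← ZMod.intCast_zmod_eq_zero_iff_dvd]
  push_cast
  rw [sum_cb hp2]
  have h1 : ((legendreSym p (-63) : ℤ) : ZMod p) = ((-63 : ℤ) : ZMod p) ^ (p / 2) :=
    legendreSym.eq_pow p (-63)
  have h2 : legendreSym p (-63) = legendreSym p (-7) := by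
    rw [show (-63 : ℤ) = (-7) * (3 ^ 2) by norm_num, legendreSym.mul, legendreSym.sq_one',
      mul_one]
    intro h
    have h' : ((3 : ℕ) : ZMod p) = 0 := by exact_mod_cast h
    rw [ZMod.natCast_eq_zero_iff] at h'
    rcases (Nat.dvd_prime Nat.prime_three).mp h' with h3 | h3
    · exact hp.one_lt.ne' h3
    · exact hp3 h3
  rw [h2, neg_seven hp2] at h1
  rw [h1]
  push_cast
  norm_num

theorem main {p : ℕ} (hp : p.Prime) :
    (p : ℤ) ^ 2 ∣ S p - (p : ℤ) * (21 * jacobiSym (p : ℤ) 7 + 16) := by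
  rcases eq_or_ne p 2 with rfl | hp2
  · have h1 : S 2 = -42 := by decide
    have h2 : jacobiSym ((2 : ℕ) : ℤ) 7 = 1 := by
      rw [Nat.cast_ofNat]
      norm_num
    rw [h1, h2]
    norm_num
  have hpo : p % 2 = 1 := (Nat.Prime.eq_two_or_odd hp).resolve_left hp2
  have hp3 : 3 ≤ p := by
    have := hp.two_le
    omega
  -- the decomposition
  have hS := S_eq p (p / 2 + 1) (by omega)
  have hmod : (p : ℤ) ^ 2 ∣ S p - (21 * (p : ℤ) * ∑ j ∈ range (p / 2 + 1),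
      ((Nat.centralBinom j : ℕ) : ℤ) * 16 ^ j + 2 * T (p / 2 + 1)) := by
    rw [hS]
    unfold T
    rw [Finset.mul_sum, Finset.mul_sum, ← Finset.sum_add_distrib, ← Finset.sum_sub_distrib]
    refine Finset.dvd_sum ?_
    intro j hj
    rw [Finset.mem_range] at hj
    obtain ⟨u, hu⟩ := F_mod hp hp2 j (by omega)
    obtain ⟨v, hv⟩ := P_mod hp hp2 j (by omega)
    have hs : ((-16 : ℤ)) ^ j = (-1) ^ j * 16 ^ j := by
      rw [← mul_pow]
      norm_num
    have hs2 : ((-1 : ℤ)) ^ j * (-1) ^ j = 1 := by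
      rw [← mul_pow]
      norm_num
    refine ⟨21 * ((Nat.centralBinom j : ℕ) : ℤ) * ((-1) ^ j * 16 ^ j) * v +
      2 * (21 * (j : ℤ) + 8) * ((Nat.centralBinom j : ℕ) : ℤ) ^ 2 * (-1) ^ j * u, ?_⟩
    rw [hs]
    linear_combination 21 * ((Nat.centralBinom j : ℕ) : ℤ) * ((-1) ^ j * 16 ^ j) * hv +
      2 * (21 * (j : ℤ) + 8) * ((Nat.centralBinom j : ℕ) : ℤ) ^ 2 * (-1) ^ j * hu +
      (21 * ((Nat.centralBinom j : ℕ) : ℤ) * 16 ^ j * (p : ℤ) +
        2 * (21 * (j : ℤ) + 8) * ((Nat.centralBinom j : ℕ) : ℤ) ^ 3) * hs2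
  have hT1 := T_mod hp
  have hT2 := T_half (p := p) (J := p / 2 + 1) hp (by omega) (by omega)
  have h16 : (p : ℤ) ^ 2 ∣ 21 * (p : ℤ) * ∑ j ∈ range (p / 2 + 1),
      ((Nat.centralBinom j : ℕ) : ℤ) * 16 ^ j - 21 * (p : ℤ) * jacobiSym (p : ℤ) 7 := by
    rcases eq_or_ne p 3 with h3 | h3
    · rw [← mul_sub]
      refine Dvd.dvd.mul_right ?_ _
      rw [h3]
      norm_num
    · obtain ⟨c, hc⟩ := sum16 hp hp2 h3
      refine ⟨21 * c, ?_⟩
      linear_combination 21 * (p : ℤ) * hc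
  obtain ⟨c1, h1⟩ := hmod
  obtain ⟨c2, h2⟩ := hT1
  obtain ⟨c3, h3⟩ := hT2
  obtain ⟨c4, h4⟩ := h16
  refine ⟨c1 + 2 * c2 - 2 * c3 + c4, ?_⟩
  linear_combination h1 + 2 * h2 - 2 * h3 + h4

end Pool.Agent.R443.FT
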