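import Pool.Agent.R443.CL2
import Pool.Agent.R443.FT3

/-!
The vanishing modulo `p^2` of `sum C(2k,k)^3` for `(p/7) = -1`, and the consequence for the
alternating sums of `a(n)`.
-/

set_option autoImplicit false

namespace Pool.Agent.R443.CL

open Finset

/-- `(-16)^k C(h+k,2k) = C(2k,k)` modulo `p^2`. -/
theorem e_mod {h : ℕ} (hp : (2 * h + 1).Prime) (k : ℕ) (hk : k ≤ h) :
    ((2 * h + 1 : ℕ) : ℤ) ^ 2 ∣ (-16) ^ k * e h k - b k := by
  have hpp : Prime ((2 * h + 1 : ℕ) : ℤ) := Nat.prime_iff_prime_int.mp hp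
  induction k with
  | zero => simp [e, b]
  | succ k ih =>
    have ih := ih (by omega)
    have he := e_succ h k
    have hb := b_succ k
    have hn1 : ¬ ((2 * h + 1 : ℕ) : ℤ) ∣ (2 * (k : ℤ) + 1) := by
      intro hd
      have h6 : (2 * h + 1) ∣ (2 * k + 1) := by exact_mod_cast hd
      exact absurd (Nat.le_of_dvd (by omega) h6) (by omega)
    have hn2 : ¬ ((2 * h + 1 : ℕ) : ℤ) ∣ ((k : ℤ) + 1) := by
      intro hd
      have h6 : (2 * h + 1) ∣ (k + 1) := by exact_mod_cast hd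
      exact absurd (Nat.le_of_dvd (by omega) h6) (by omega)
    have hn : ¬ ((2 * h + 1 : ℕ) : ℤ) ∣ (2 * (k : ℤ) + 1) * ((k : ℤ) + 1) := by
      intro hd
      rcases hpp.dvd_or_dvd hd with h7 | h7
      · exact hn1 h7
      · exact hn2 h7
    refine hpp.pow_dvd_of_dvd_mul_left 2 hn ?_
    obtain ⟨c, hc⟩ := ih
    refine ⟨2 * (2 * (k : ℤ) + 1) ^ 2 * c - 2 * (-16) ^ k * e h k, ?_⟩
    rw [pow_succ]
    push_cast at hc ⊢
    linear_combination (-8) * (-16) ^ k * he - (2 * (k : ℤ) + 1) * hb +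
      2 * (2 * (k : ℤ) + 1) ^ 2 * hc

/-- The ring `ℤ[s]`, `s^2 + 3 s + 4 = 0`. -/
abbrev B : Type := QuadraticAlgebra ℤ (-4) (-3)

/-- The element `s`. -/
def om : B := ⟨0, 1⟩

theorem om_sq : om ^ 2 = -3 * om - 4 := by
  rw [sq]
  ext <;> simp [om, QuadraticAlgebra.re_ofNat, QuadraticAlgebra.im_ofNat]

theorem cast_dvd_B {n : ℕ} {z : ℤ} {w : B} (h : (z : B) = ((n : ℕ) : B) ^ 2 * w) :
    (n : ℤ) ^ 2 ∣ z := by
  have h1 : ((n : ℕ) : B) ^ 2 = (((n : ℤ) ^ 2 : ℤ) : B) := by push_cast; rfl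
  rw [h1] at h
  generalize (n : ℤ) ^ 2 = N at *
  have h2 := congrArg QuadraticAlgebra.re h
  refine ⟨w.re, ?_⟩
  simpa using h2

/-- The image of `D_h(-s^2)` vanishes in characteristic `p`. -/
theorem phiD {K : Type*} [CommRing K] {h : ℕ} (hp : (2 * h + 1).Prime) (h7 : 2 * h + 1 ≠ 7)
    (hleg : ((2 * h + 1 : ℕ) : ℤ) ∣ (-7) ^ h + 1) (hp0 : ((2 * h + 1 : ℕ) : K) = 0) (s : K)
    (hs2 : s ^ 2 + 3 * s + 4 = 0) :
    ∑ k ∈ range (h + 1), (e h k : K) * (b k : K) * (-(s ^ 2)) ^ k = 0 := by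
  have hp0' : (2 : K) * (h : K) + 1 = 0 := by
    have := hp0
    push_cast at this
    exact this
  set q : K := ((h : K) + 1) ^ 2 with hqdef
  have hq : 4 * q = 1 := by
    rw [hqdef]
    linear_combination ((2 : K) * (h : K) + 3) * hp0'
  -- inverse of 7
  obtain ⟨c7, hc7⟩ : ∃ c7 : K, 7 * c7 = 1 := by
    have hcop : IsCoprime (7 : ℤ) ((2 * h + 1 : ℕ) : ℤ) := by
      have h1 : Nat.Coprime 7 (2 * h + 1) :=
        (Nat.coprime_primes (by norm_num) hp).mpr (Ne.symm h7)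
      exact_mod_cast Nat.isCoprime_iff_coprime.mpr h1
    obtain ⟨u, v, huv⟩ := hcop
    refine ⟨(u : K), ?_⟩
    have h2 : ((u * 7 + v * ((2 * h + 1 : ℕ) : ℤ) : ℤ) : K) = 1 := by rw [huv]; simp
    push_cast at h2
    linear_combination h2 - (v : K) * hp0'
  -- Frobenius
  have hfer : ∀ n : ℕ, ((n : ℕ) : K) ^ (2 * h + 1) = ((n : ℕ) : K) := by
    intro n
    have : Fact (2 * h + 1).Prime := ⟨hp⟩
    have h2 : ((2 * h + 1 : ℕ) : ℤ) ∣ (n : ℤ) ^ (2 * h + 1) - (n : ℤ) := by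
      rw [← ZMod.intCast_zmod_eq_zero_iff_dvd]
      rw [Int.cast_sub, Int.cast_pow, ZMod.pow_card, sub_self]
    have h3 := cast_zero_of_dvd hp0 h2
    push_cast at h3
    linear_combination h3
  have hfr : s ^ (2 * h + 1) = -3 - s := by
    have h1 : (2 * s + 3) ^ 2 = -7 := by linear_combination 4 * hs2
    have h2 : ((-7 : K)) ^ h = -1 := by
      have h3 := cast_zero_of_dvd hp0 hleg
      push_cast at h3
      linear_combination h3
    have h4 : (2 * s + 3) ^ (2 * h + 1) = -(2 * s + 3) := by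
      rw [pow_succ, pow_mul, h1, h2]
      ring
    obtain ⟨r, hr⟩ := exists_add_pow_prime_eq hp (2 * s) (3 : K)
    rw [hr, hp0, mul_pow] at h4
    have h5 := hfer 2
    have h6 := hfer 3
    push_cast at h5 h6
    rw [h5, h6] at h4
    linear_combination (2 * q) * h4 - (s ^ (2 * h + 1) + 3 + s) * hq
  rw [← vanish (K := K) hp hp0 q s hq hs2 hfr c7 hc7]
  refine Finset.sum_congr rfl ?_
  intro k hk
  rw [Finset.mem_range] at hk
  have h1 : ((2 * h + 1 : ℕ) : ℤ) ∣ (-16) ^ k * e h k - b k :=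
    (dvd_pow_self _ (by norm_num)).trans (e_mod hp k (by omega))
  have h2 := cast_zero_of_dvd hp0 h1
  push_cast at h2
  have h3 : (q ^ 2) ^ k * 16 ^ k = 1 := by
    rw [← mul_pow]
    have : q ^ 2 * 16 = 1 := by linear_combination (4 * q + 1) * hq
    rw [this, one_pow]
  have h4 : ((-16 : K)) ^ k = (-1) ^ k * 16 ^ k := by
    rw [← mul_pow]
    norm_num
  have h5 : ((-1 : K)) ^ k * (-1) ^ k = 1 := by
    rw [← mul_pow]
    norm_num
  have h6 : (-(s ^ 2)) ^ k = (-1) ^ k * (s ^ 2) ^ k := by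
    rw [← mul_pow]
    congr 1
    ring
  rw [h4] at h2
  rw [h6, mul_pow (q ^ 2) (s ^ 2)]
  have h7 : (e h k : K) = (-1) ^ k * ((q ^ 2) ^ k * (b k : K)) := by
    calc (e h k : K) = ((-1) ^ k * (-1) ^ k) * ((q ^ 2) ^ k * 16 ^ k) * (e h k : K) := by
          rw [h5, h3]
          ring
      _ = (-1) ^ k * (q ^ 2) ^ k * ((-1) ^ k * 16 ^ k * (e h k : K)) := by ring
      _ = (-1) ^ k * (q ^ 2) ^ k * (b k : K) := by
          rw [show (-1 : K) ^ k * 16 ^ k * (e h k : K) = (b k : K) by linear_combination h2]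
      _ = _ := by ring
  rw [h7]
  calc (-1 : K) ^ k * ((q ^ 2) ^ k * (b k : K)) * (b k : K) * ((-1) ^ k * (s ^ 2) ^ k) =
        ((-1) ^ k * (-1) ^ k) * ((q ^ 2) ^ k * (b k : K) * (b k : K) * (s ^ 2) ^ k) := by ring
    _ = _ := by
      rw [h5]
      ring

theorem cubes {h : ℕ} (hp : (2 * h + 1).Prime) (h7 : 2 * h + 1 ≠ 7)
    (hleg : ((2 * h + 1 : ℕ) : ℤ) ∣ (-7) ^ h + 1) :
    ((2 * h + 1 : ℕ) : ℤ) ^ 2 ∣ ∑ k ∈ range (h + 1), b k ^ 3 := by
  let I : Ideal B := Ideal.span {((2 * h + 1 : ℕ) : B)}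
  let φ : B →+* B ⧸ I := Ideal.Quotient.mk I
  have hp0 : ((2 * h + 1 : ℕ) : B ⧸ I) = 0 := by
    have : φ ((2 * h + 1 : ℕ) : B) = 0 := Ideal.Quotient.eq_zero_iff_mem.mpr
      (Ideal.subset_span (Set.mem_singleton _))
    rw [map_natCast] at this
    exact this
  have hs2 : (φ om) ^ 2 + 3 * (φ om) + 4 = 0 := by
    have h1 : om ^ 2 + 3 * om + 4 = 0 := by rw [om_sq]; ring
    have h2 := congrArg φ h1
    rw [map_add, map_add, map_mul, map_pow, map_zero] at h2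
    have e3 : φ 3 = 3 := map_ofNat φ 3
    have e4 : φ 4 = 4 := map_ofNat φ 4
    rw [e3, e4] at h2
    exact h2
  have hv := phiD hp h7 hleg hp0 (φ om) hs2
  have hD : φ (∑ k ∈ range (h + 1), (e h k : B) * (b k : B) * (-(om ^ 2)) ^ k) = 0 := by
    rw [← hv, map_sum]
    refine Finset.sum_congr rfl ?_
    intro k _
    rw [map_mul, map_mul, map_intCast, map_intCast, map_pow, map_neg, map_pow]
  have hx2 : (-(om ^ 2)) ^ 2 + (-(om ^ 2)) = -16 := by
    rw [om_sq]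
    linear_combination 9 * om_sq
  have hmem : (∑ k ∈ range (h + 1), (e h k : B) * (b k : B) * (-(om ^ 2)) ^ k) ∈ I :=
    Ideal.Quotient.eq_zero_iff_mem.mp hD
  obtain ⟨r, hr⟩ := Ideal.mem_span_singleton'.mp hmem
  have hcl := clausen (R := B) h (-(om ^ 2))
  rw [hx2] at hcl
  have hcl2 : (∑ k ∈ range (h + 1), (e h k : B) * (b k : B) * (-(om ^ 2)) ^ k) ^ 2 =
      (((∑ k ∈ range (h + 1), e h k * b k ^ 2 * (-16) ^ k : ℤ)) : B) := by
    push_cast
    push_cast at hcl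
    exact hcl
  rw [← hr] at hcl2
  have hZ : (((∑ k ∈ range (h + 1), e h k * b k ^ 2 * (-16) ^ k : ℤ)) : B) =
      ((2 * h + 1 : ℕ) : B) ^ 2 * r ^ 2 := by
    rw [← hcl2]
    ring
  have hZd := cast_dvd_B hZ
  have hdiff : ((2 * h + 1 : ℕ) : ℤ) ^ 2 ∣ ∑ k ∈ range (h + 1), b k ^ 3 -
      ∑ k ∈ range (h + 1), e h k * b k ^ 2 * (-16) ^ k := by
    rw [← Finset.sum_sub_distrib]
    refine Finset.dvd_sum ?_
    intro k hk
    rw [Finset.mem_range] at hk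
    obtain ⟨c, hc⟩ := e_mod hp k (by omega)
    refine ⟨-(c * b k ^ 2), ?_⟩
    linear_combination (-(b k ^ 2)) * hc
  exact (dvd_iff_dvd_of_dvd_sub hdiff).mpr hZd

open Pool.Agent.R443.FT in
theorem alt_main {p : ℕ} (hp : p.Prime) (hj : jacobiSym (p : ℤ) 7 = -1) :
    (p : ℤ) ^ 2 ∣ ∑ k ∈ range p, (-1) ^ k * a k := by
  have hp2 : p ≠ 2 := by
    rintro rfl
    have h2 : jacobiSym ((2 : ℕ) : ℤ) 7 = 1 := by
      rw [Nat.cast_ofNat]
      norm_num
    rw [h2] at hj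
    norm_num at hj
  have hp7 : p ≠ 7 := by
    rintro rfl
    have h2 : jacobiSym ((7 : ℕ) : ℤ) 7 = 0 := by
      rw [Nat.cast_ofNat]
      norm_num
    rw [h2] at hj
    norm_num at hj
  have hpo : p % 2 = 1 := (Nat.Prime.eq_two_or_odd hp).resolve_left hp2
  obtain ⟨h, rfl⟩ : ∃ h, p = 2 * h + 1 := ⟨p / 2, by omega⟩
  have : Fact (2 * h + 1).Prime := ⟨hp⟩
  have hleg : ((2 * h + 1 : ℕ) : ℤ) ∣ (-7) ^ h + 1 := by
    have h1 := neg_seven (p := 2 * h + 1) hp2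
    rw [hj] at h1
    have h2 := legendreSym.eq_pow (2 * h + 1) (-7)
    rw [h1, show (2 * h + 1) / 2 = h by omega] at h2
    rw [← ZMod.intCast_zmod_eq_zero_iff_dvd]
    push_cast at h2 ⊢
    rw [← h2]
    ring
  have hc := cubes hp hp7 hleg
  have hS : ∑ k ∈ range (2 * h + 1), (-1) ^ k * a k = ∑ j ∈ range (h + 1),
      ((Nat.centralBinom j : ℕ) : ℤ) ^ 2 * (-16) ^ j * F j (2 * h + 1) := by
    have h1 : ∑ k ∈ range (2 * h + 1), (-1) ^ k * a k = ∑ k ∈ range (2 * h + 1),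
        ∑ j ∈ range (h + 1), (-1) ^ k * (((Nat.centralBinom j : ℕ) : ℤ) ^ 2 * (-16) ^ j *
        ((Nat.choose k (2 * j) : ℕ) : ℤ) ^ 2) := by
      refine Finset.sum_congr rfl ?_
      intro k hk
      rw [Finset.mem_range] at hk
      rw [a_eq k (h + 1) (by omega), Finset.mul_sum]
    rw [h1, Finset.sum_comm]
    refine Finset.sum_congr rfl ?_
    intro j _
    unfold F
    rw [Finset.mul_sum]
    refine Finset.sum_congr rfl ?_
    intro k _
    ring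
  rw [hS]
  have hdiff : ((2 * h + 1 : ℕ) : ℤ) ^ 2 ∣ ∑ j ∈ range (h + 1),
      ((Nat.centralBinom j : ℕ) : ℤ) ^ 2 * (-16) ^ j * F j (2 * h + 1) -
      ∑ k ∈ range (h + 1), b k ^ 3 := by
    rw [← Finset.sum_sub_distrib]
    refine Finset.dvd_sum ?_
    intro j hj
    rw [Finset.mem_range] at hj
    obtain ⟨u, hu⟩ := F_mod hp hp2 j (by omega)
    have hs : ((-16 : ℤ)) ^ j = (-1) ^ j * 16 ^ j := by
      rw [← mul_pow]
      norm_num
    have hs2 : ((-1 : ℤ)) ^ j * (-1) ^ j = 1 := by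
      rw [← mul_pow]
      norm_num
    refine ⟨((Nat.centralBinom j : ℕ) : ℤ) ^ 2 * (-1) ^ j * u, ?_⟩
    unfold b
    rw [hs]
    linear_combination ((Nat.centralBinom j : ℕ) : ℤ) ^ 2 * (-1) ^ j * hu +
      ((Nat.centralBinom j : ℕ) : ℤ) ^ 3 * hs2
  exact (dvd_iff_dvd_of_dvd_sub hdiff).mpr hc

end Pool.Agent.R443.CL
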