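import Mathlib

/-!
A first order recurrence, in a field where small naturals are nonzero, for
`E m = ∑_{k ≤ m} t m k`, where `t m k = (-1)^k (∑_{c ≤ k} (-1)^c C(m+1,c)^3) / C(m,k)^3`.
-/

namespace Pool.Agent.R443.EE

open Finset

variable {K : Type*} [Field K]

/-- alternating partial sums of cubes of binomial coefficients -/
def V (K : Type*) [Field K] (n s : ℕ) : K := ∑ c ∈ range s, (-1) ^ c * (n.choose c : K) ^ 3

/-- the normalised partial sums -/
def t (K : Type*) [Field K] (m k : ℕ) : K :=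
  (-1) ^ k * V K (m + 1) (k + 1) / (m.choose k : K) ^ 3

/-- the sum of the normalised partial sums -/
def E (K : Type*) [Field K] (m : ℕ) : K := ∑ k ∈ range (m + 1), t K m k

theorem choose_ne {m k : ℕ} (hN : ∀ j : ℕ, 0 < j → j ≤ m → (j : K) ≠ 0) (hk : k ≤ m) :
    (m.choose k : K) ≠ 0 := by
  have hf : ((m.factorial : ℕ) : K) ≠ 0 := by
    clear hk
    induction m with
    | zero => simp
    | succ m ih =>
      rw [Nat.factorial_succ, Nat.cast_mul]
      exact mul_ne_zero (hN _ (Nat.succ_pos _) le_rfl)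
        (ih fun j h1 h2 => hN j h1 (h2.trans (Nat.le_succ _)))
  intro h
  apply hf
  rw [← Nat.choose_mul_factorial_mul_factorial hk]
  push_cast
  rw [h]; ring

theorem star {m k : ℕ} (hN : ∀ j : ℕ, 0 < j → j ≤ m → (j : K) ≠ 0) (hk : k < m) :
    ((m : K) - k) ^ 3 * t K m (k + 1) + ((k : K) + 1) ^ 3 * t K m k = ((m : K) + 1) ^ 3 := by
  have hA : (m.choose k : K) ≠ 0 := choose_ne hN hk.le
  have hB : (m.choose (k + 1) : K) ≠ 0 := choose_ne hN hk
  have h1 : (m.choose (k + 1) : K) * (k + 1) = m.choose k * ((m : K) - k) := by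
    have := Nat.choose_succ_right_eq m k
    have h := congrArg (Nat.cast : ℕ → K) this
    push_cast [Nat.cast_sub hk.le] at h
    exact h
  have h2 : ((m : K) + 1) * m.choose k = ((m + 1).choose (k + 1) : K) * (k + 1) := by
    have := Nat.add_one_mul_choose_eq m k
    have h := congrArg (Nat.cast : ℕ → K) this
    push_cast at h
    exact h
  have hV : V K (m + 1) (k + 2) = V K (m + 1) (k + 1) +
      (-1) ^ (k + 1) * ((m + 1).choose (k + 1) : K) ^ 3 := by
    unfold V; rw [sum_range_succ _ (k + 1)]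
  have h3 : (m : K) - k = (m.choose (k + 1) : K) * ((k + 1) / m.choose k) := by
    field_simp; linear_combination -h1
  have h4 : (m : K) + 1 = ((m + 1).choose (k + 1) : K) * ((k + 1) / m.choose k) := by
    field_simp; linear_combination h2
  unfold t
  rw [show k + 1 + 1 = k + 2 from rfl, hV, h3, h4]
  have he : ((-1 : K) ^ k) * (-1) ^ k = 1 := by
    rw [← mul_pow]; norm_num
  rw [pow_succ (-1 : K) k]
  generalize (-1 : K) ^ k = e at he
  generalize V K (m + 1) (k + 1) = v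
  generalize ((m + 1).choose (k + 1) : K) = C
  have hdiv : (((k : K) + 1) / m.choose k) ^ 3 = ((k : K) + 1) ^ 3 / (m.choose k : K) ^ 3 :=
    div_pow _ _ _
  have e1 : ((m.choose (k + 1) : K) * (((k : K) + 1) / m.choose k)) ^ 3 *
      (e * -1 * (v + e * -1 * C ^ 3) / (m.choose (k + 1) : K) ^ 3) =
      (((k : K) + 1) / m.choose k) ^ 3 * (e * -1 * (v + e * -1 * C ^ 3)) := by
    field_simp
  rw [e1]
  have e2 : ((k : K) + 1) ^ 3 * (e * v / (m.choose k : K) ^ 3) =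
      (((k : K) + 1) / m.choose k) ^ 3 * (e * v) := by
    field_simp
  rw [e2, mul_pow]
  linear_combination ((((k : K) + 1) / m.choose k) ^ 3 * C ^ 3) * he

theorem V_full {n : ℕ} (hn : Odd n) (h2 : (2 : K) ≠ 0) : V K n (n + 1) = 0 := by
  have h : V K n (n + 1) = -V K n (n + 1) := by
    conv_lhs => unfold V
    rw [← sum_flip]
    unfold V
    rw [← sum_neg_distrib]
    apply sum_congr rfl
    intro c hc
    have hc' : c ≤ n := by simpa [Nat.lt_succ_iff] using hc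
    rw [Nat.choose_symm hc']
    have : (-1 : K) ^ (n - c) = -(-1) ^ c := by
      have h1 : (-1 : K) ^ (n - c) * (-1) ^ c = -1 := by
        rw [← pow_add, Nat.sub_add_cancel hc', hn.neg_one_pow]
      have h2 : ((-1 : K) ^ c) * (-1) ^ c = 1 := by
        rw [← mul_pow]; norm_num
      linear_combination (-1 : K) ^ c * h1 - (-1 : K) ^ (n - c) * h2
    rw [this]; ring
  have : (2 : K) * V K n (n + 1) = 0 := by linear_combination h
  rcases mul_eq_zero.mp this with h | h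
  · exact absurd h h2
  · exact h

theorem t_zero (m : ℕ) : t K m 0 = 1 := by
  simp [t, V]

theorem t_last {m : ℕ} (hm : Even m) (h2 : (2 : K) ≠ 0) : t K m m = 1 := by
  have h := V_full (K := K) (n := m + 1) hm.add_one h2
  have h1 : V K (m + 1) (m + 1 + 1) = V K (m + 1) (m + 1) +
      (-1) ^ (m + 1) * ((m + 1).choose (m + 1) : K) ^ 3 := by
    unfold V; rw [sum_range_succ _ (m + 1)]
  rw [h1, Nat.choose_self, hm.add_one.neg_one_pow] at h
  unfold t
  rw [Nat.choose_self, hm.neg_one_pow]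
  push_cast at h ⊢
  linear_combination h

/-- certificate -/
def Qc (n k : K) : K :=
  (4 + 22 * n + 52 * n ^ 2 + 40 * n ^ 3 + 10 * n ^ 4 + n ^ 5)
  + (-6 - 33 * n + 9 * n ^ 2 + 27 * n ^ 3 + 3 * n ^ 4) * k
  + (6 - 54 * n - 36 * n ^ 2 + 6 * n ^ 3) * k ^ 2
  + (24 - 6 * n - 18 * n ^ 2) * k ^ 3 + (12 + 9 * n) * k ^ 4

/-- certificate -/
def Lc (n k : K) : K :=
  (-64 - 560 * n - 2176 * n ^ 2 - 3824 * n ^ 3 - 3064 * n ^ 4 - 1079 * n ^ 5 - 144 * n ^ 6
    - 9 * n ^ 7)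
  + (192 + 1680 * n + 3168 * n ^ 2 + 1368 * n ^ 3 - 672 * n ^ 4 - 459 * n ^ 5 - 27 * n ^ 6) * k
  + (-384 + 2088 * n ^ 2 + 2220 * n ^ 3 + 540 * n ^ 4 - 54 * n ^ 5) * k ^ 2
  + (-480 - 1128 * n - 504 * n ^ 2 + 270 * n ^ 3 + 162 * n ^ 4) * k ^ 3
  + (-120 - 342 * n - 297 * n ^ 2 - 81 * n ^ 3) * k ^ 4

/-- certificate -/
def Wc (n j : K) : K :=
  (46 - 93 * n - 830 * n ^ 2 - 1416 * n ^ 3 - 977 * n ^ 4 - 270 * n ^ 5 - 18 * n ^ 6) * j
  + (168 + 873 * n + 1368 * n ^ 2 + 738 * n ^ 3 + 27 * n ^ 4 - 54 * n ^ 5) * j ^ 2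
  + (-138 - 186 * n + 258 * n ^ 2 + 432 * n ^ 3 + 144 * n ^ 4) * j ^ 3
  + (-60 - 321 * n - 351 * n ^ 2 - 108 * n ^ 3) * j ^ 4
  + (60 + 81 * n + 27 * n ^ 2) * j ^ 5

theorem shift {m : ℕ} (hN : ∀ j : ℕ, 0 < j → j ≤ m + 2 → (j : K) ≠ 0) (k : ℕ) (hk : k ≤ m) :
    (((m : K) + 2) ^ 3 * ((m : K) + 3) ^ 2) * ((m : K) + 1) ^ 3 * t K (m + 2) (k + 1)
      = 3 * (3 * ((m : K) + 1) + 2) * (3 * ((m : K) + 1) + 4) *
          (((k : K) + 1) * ((m : K) + 1 - k)) ^ 3 * t K m k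
        + ((m : K) + 1) ^ 3 * Qc ((m : K) + 1) k := by
  have hN' : ∀ j : ℕ, 0 < j → j ≤ m → (j : K) ≠ 0 := fun j h1 h2 => hN j h1 (by omega)
  induction k with
  | zero =>
    have hs := star (K := K) (m := m + 2) (k := 0) hN (by omega)
    rw [t_zero] at hs
    rw [t_zero]
    push_cast at hs ⊢
    unfold Qc
    linear_combination (((m : K) + 3) ^ 2 * ((m : K) + 1) ^ 3) * hs
  | succ k ih =>
    have ih := ih (by omega)
    have hs2 := star (K := K) (m := m + 2) (k := k + 1) hN (by omega)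
    have hs1 := star (K := K) (m := m) (k := k) hN' (by omega)
    have hnk : ((m : K) + 1 - k) ≠ 0 := by
      have := hN (m + 1 - k) (by omega) (by omega)
      rw [Nat.cast_sub (by omega)] at this
      push_cast at this
      exact this
    apply mul_left_cancel₀ (pow_ne_zero 3 hnk)
    rw [show ((m + 2 : ℕ) : K) = (m : K) + 2 by norm_cast,
      show ((k + 1 : ℕ) : K) = (k : K) + 1 by norm_cast] at hs2
    rw [show ((k + 1 : ℕ) : K) = (k : K) + 1 by norm_cast]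
    unfold Qc at ih ⊢
    generalize t K (m + 2) (k + 1 + 1) = T2 at *
    generalize t K (m + 2) (k + 1) = T1 at *
    generalize t K m (k + 1) = t1 at *
    generalize t K m k = t0 at *
    generalize (m : K) = n at *
    generalize (k : K) = x at *
    clear hnk hN hN'
    linear_combination ((n + 2) ^ 3 * (n + 3) ^ 2 * (n + 1) ^ 3) * hs2 - (x + 2) ^ 3 * ih
      - (3 * (3 * (n + 1) + 2) * (3 * (n + 1) + 4)) * ((x + 2) * (n + 1 - x)) ^ 3 * hs1

theorem sum_L {m : ℕ} (hN : ∀ j : ℕ, 0 < j → j ≤ m → (j : K) ≠ 0) (f : K → K)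
    (j : ℕ) (hj : j ≤ m) :
    ∑ k ∈ range (j + 1), (((m : K) + 1 - k) ^ 3 * f ((k : K) - 1) + ((k : K) + 1) ^ 3 * f k)
        * t K m k
      = ((m : K) + 1) ^ 3 * f (-1) + ((m : K) + 1) ^ 3 * ∑ k ∈ range j, f k
        + ((j : K) + 1) ^ 3 * f j * t K m j := by
  induction j with
  | zero =>
    simp [t_zero]
  | succ j ih =>
    have hs := star (K := K) (m := m) (k := j) hN (by omega)
    rw [sum_range_succ, ih (by omega), sum_range_succ]
    rw [show ((j + 1 : ℕ) : K) = (j : K) + 1 by norm_cast]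
    rw [show (j : K) + 1 - 1 = j by ring]
    linear_combination (f (j : K)) * hs

theorem sum_W (n : K) (j : ℕ) :
    ∑ k ∈ range j, (Lc n k + (3 * n + 5) * (3 * n + 7) * Qc n k) = Wc n j := by
  induction j with
  | zero => simp [Wc]
  | succ j ih =>
    rw [sum_range_succ, ih, show ((j + 1 : ℕ) : K) = (j : K) + 1 by norm_cast]
    unfold Lc Qc Wc
    ring

theorem E_rec {m : ℕ} (hN : ∀ j : ℕ, 0 < j → j ≤ m + 2 → (j : K) ≠ 0) (hm : Even m)
    (h2 : (2 : K) ≠ 0) :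
    (3 * ((m : K) + 1) + 5) * (3 * ((m : K) + 1) + 7) *
      ((((m : K) + 2) ^ 3 * ((m : K) + 3) ^ 2) * ((m : K) + 1) ^ 3) * E K (m + 2)
      = ((m : K) + 3) ^ 3 * ((m : K) + 2) ^ 5 * (3 * ((m : K) + 1) + 2) *
          (3 * ((m : K) + 1) + 4) * E K m := by
  have hN' : ∀ j : ℕ, 0 < j → j ≤ m → (j : K) ≠ 0 := fun j h1 h2 => hN j h1 (by omega)
  have hE : E K (m + 2) = 2 + ∑ k ∈ range (m + 1), t K (m + 2) (k + 1) := by
    unfold E
    rw [sum_range_succ, sum_range_succ', t_zero, t_last (by simpa [Nat.even_add] using hm) h2]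
    ring
  have hS : ∑ k ∈ range (m + 1),
      (((m : K) + 2) ^ 3 * ((m : K) + 3) ^ 2) * ((m : K) + 1) ^ 3 * t K (m + 2) (k + 1)
      = ∑ k ∈ range (m + 1), (3 * (3 * ((m : K) + 1) + 2) * (3 * ((m : K) + 1) + 4) *
          (((k : K) + 1) * ((m : K) + 1 - k)) ^ 3 * t K m k
        + ((m : K) + 1) ^ 3 * Qc ((m : K) + 1) k) :=
    sum_congr rfl fun k hk => shift hN k (by simpa [Nat.lt_succ_iff] using hk)
  rw [← mul_sum] at hS
  have hL := sum_L hN' (Lc ((m : K) + 1)) m le_rfl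
  rw [t_last hm h2] at hL
  have hW := sum_W ((m : K) + 1) (m + 1)
  have hkey : (3 * ((m : K) + 1) + 5) * (3 * ((m : K) + 1) + 7) *
      ∑ k ∈ range (m + 1), (3 * (3 * ((m : K) + 1) + 2) * (3 * ((m : K) + 1) + 4) *
          (((k : K) + 1) * ((m : K) + 1 - k)) ^ 3 * t K m k
        + ((m : K) + 1) ^ 3 * Qc ((m : K) + 1) k)
      = ((m : K) + 3) ^ 3 * ((m : K) + 2) ^ 5 * (3 * ((m : K) + 1) + 2) *
          (3 * ((m : K) + 1) + 4) * E K m
        + ∑ k ∈ range (m + 1), (((m : K) + 1 - k) ^ 3 * Lc ((m : K) + 1) ((k : K) - 1)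
            + ((k : K) + 1) ^ 3 * Lc ((m : K) + 1) k) * t K m k
        + ((m : K) + 1) ^ 3 * ∑ k ∈ range (m + 1), ((3 * ((m : K) + 1) + 5) *
            (3 * ((m : K) + 1) + 7) * Qc ((m : K) + 1) k) := by
    unfold E
    rw [mul_sum, mul_sum, mul_sum, ← sum_add_distrib, ← sum_add_distrib]
    apply sum_congr rfl
    intro k _
    generalize t K m k = T
    generalize (m : K) = n
    generalize (k : K) = x
    unfold Lc Qc
    ring
  have hsum : ∑ k ∈ range (m + 1), ((3 * ((m : K) + 1) + 5) *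
            (3 * ((m : K) + 1) + 7) * Qc ((m : K) + 1) k)
      = Wc ((m : K) + 1) ((m + 1 : ℕ) : K) - ∑ k ∈ range (m + 1), Lc ((m : K) + 1) k := by
    rw [← hW, sum_add_distrib]; ring
  have hl1 : ∑ k ∈ range (m + 1), Lc ((m : K) + 1) (k : K)
      = ∑ k ∈ range m, Lc ((m : K) + 1) (k : K) + Lc ((m : K) + 1) m := sum_range_succ _ _
  rw [hE, mul_add]
  have h3 : (3 * ((m : K) + 1) + 5) * (3 * ((m : K) + 1) + 7) *
      ((((m : K) + 2) ^ 3 * ((m : K) + 3) ^ 2) * ((m : K) + 1) ^ 3) *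
        ∑ k ∈ range (m + 1), t K (m + 2) (k + 1)
      = ((m : K) + 3) ^ 3 * ((m : K) + 2) ^ 5 * (3 * ((m : K) + 1) + 2) *
          (3 * ((m : K) + 1) + 4) * E K m
        + (((m : K) + 1) ^ 3 * Lc ((m : K) + 1) (-1)
          + ((m : K) + 1) ^ 3 * ∑ k ∈ range m, Lc ((m : K) + 1) k
        + ((m : K) + 1) ^ 3 * Lc ((m : K) + 1) m * 1)
        + ((m : K) + 1) ^ 3 * (Wc ((m : K) + 1) ((m + 1 : ℕ) : K)
          - (∑ k ∈ range m, Lc ((m : K) + 1) (k : K) + Lc ((m : K) + 1) m)) := by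
    rw [← hl1, ← hsum, ← hL, ← hkey, ← hS]; ring
  rw [h3, show ((m + 1 : ℕ) : K) = (m : K) + 1 by norm_cast]
  generalize ∑ k ∈ range m, Lc ((m : K) + 1) (k : K) = SS
  generalize E K m = EE
  generalize (m : K) = n
  unfold Lc Wc
  ring

end Pool.Agent.R443.EE
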