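import Mathlib
import Pool.Agent.R443.EE1

/-!
The sum `E m` vanishes modulo `p = 2 m + 3` for `p % 4 = 3`, `p > 3`.
-/

namespace Pool.Agent.R443.EE

open Finset

theorem natCast_ne {p : ℕ} {j : ℕ} (h0 : 0 < j) (h1 : j < p) : (j : ZMod p) ≠ 0 := by
  intro h
  rw [ZMod.natCast_eq_zero_iff] at h
  exact absurd (Nat.le_of_dvd h0 h) (by omega)

theorem E_zero_step {p : ℕ} [hp : Fact p.Prime] {m q : ℕ} (hm : m = 2 * q)
    (hb : 2 * (m + 3) + 1 ≤ p) (hE : E (ZMod p) m = 0 ∨ 3 * (m + 1) + 4 = p ∨ 3 * (m + 1) + 2 = p) :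
    E (ZMod p) (m + 2) = 0 := by
  have h2 : (2 : ZMod p) ≠ 0 := by exact_mod_cast natCast_ne (p := p) (j := 2) (by omega) (by omega)
  have hN : ∀ j : ℕ, 0 < j → j ≤ m + 2 → (j : ZMod p) ≠ 0 :=
    fun j h1 h2 => natCast_ne h1 (by omega)
  have hrec := E_rec hN (by rw [hm]; exact even_two_mul q) h2
  have hR : ((m : ZMod p) + 3) ^ 3 * ((m : ZMod p) + 2) ^ 5 * (3 * ((m : ZMod p) + 1) + 2) *
          (3 * ((m : ZMod p) + 1) + 4) * E (ZMod p) m = 0 := by
    rcases hE with h | h | h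
    · rw [h, mul_zero]
    · have : (3 * ((m : ZMod p) + 1) + 4) = 0 := by
        have h' := congrArg (Nat.cast : ℕ → ZMod p) h
        push_cast at h'
        rw [h', ZMod.natCast_self]
      rw [this]; ring
    · have : (3 * ((m : ZMod p) + 1) + 2) = 0 := by
        have h' := congrArg (Nat.cast : ℕ → ZMod p) h
        push_cast at h'
        rw [h', ZMod.natCast_self]
      rw [this]; ring
  rw [hR] at hrec
  have f1 : (3 * ((m : ZMod p) + 1) + 5) ≠ 0 := by
    have : (3 * ((m : ZMod p) + 1) + 5) = 2 * ((3 * q + 4 : ℕ) : ZMod p) := by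
      rw [hm]; push_cast; ring
    rw [this]
    exact mul_ne_zero h2 (natCast_ne (by omega) (by omega))
  have f2 : (3 * ((m : ZMod p) + 1) + 7) ≠ 0 := by
    have : (3 * ((m : ZMod p) + 1) + 7) = 2 * ((3 * q + 5 : ℕ) : ZMod p) := by
      rw [hm]; push_cast; ring
    rw [this]
    exact mul_ne_zero h2 (natCast_ne (by omega) (by omega))
  have f3 : ((m : ZMod p) + 2) ≠ 0 := by
    exact_mod_cast natCast_ne (p := p) (j := m + 2) (by omega) (by omega)
  have f4 : ((m : ZMod p) + 3) ≠ 0 := by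
    exact_mod_cast natCast_ne (p := p) (j := m + 3) (by omega) (by omega)
  have f5 : ((m : ZMod p) + 1) ≠ 0 := by
    exact_mod_cast natCast_ne (p := p) (j := m + 1) (by omega) (by omega)
  rcases mul_eq_zero.mp hrec with h | h
  · exfalso
    exact (mul_ne_zero (mul_ne_zero f1 f2) (mul_ne_zero (mul_ne_zero (pow_ne_zero 3 f3)
      (pow_ne_zero 2 f4)) (pow_ne_zero 3 f5))) h
  · exact h

theorem E_zero {p : ℕ} [hp : Fact p.Prime] (h4 : p % 4 = 3) (h3 : 3 < p) :
    E (ZMod p) ((p - 3) / 2) = 0 := by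
  have hp3 : p % 3 ≠ 0 := by
    intro h
    have h3p : 3 ∣ p := Nat.dvd_of_mod_eq_zero h
    have := (Nat.prime_dvd_prime_iff_eq Nat.prime_three hp.out).mp h3p
    omega
  obtain ⟨m0, q0, hm0, hstart, hle⟩ : ∃ m0 q0 : ℕ, m0 = 2 * q0 ∧
      (3 * (m0 + 1) + 4 = p ∨ 3 * (m0 + 1) + 2 = p) ∧ m0 + 2 ≤ (p - 3) / 2 := by
    have h12 : p % 12 = 7 ∨ p % 12 = 11 := by omega
    rcases h12 with h | h
    · refine ⟨2 * (2 * (p / 12)), 2 * (p / 12), rfl, Or.inl (by omega), by omega⟩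
    · refine ⟨2 * (2 * (p / 12) + 1), 2 * (p / 12) + 1, rfl, Or.inr (by omega), by omega⟩
  have hind : ∀ j : ℕ, m0 + 2 + 2 * j ≤ (p - 3) / 2 → E (ZMod p) (m0 + 2 + 2 * j) = 0 := by
    intro j
    induction j with
    | zero =>
      intro _
      exact E_zero_step hm0 (by omega) (Or.inr hstart)
    | succ j ih =>
      intro hj
      have := E_zero_step (m := m0 + 2 + 2 * j) (q := q0 + 1 + j) (by omega) (by omega)
        (Or.inl (ih (by omega)))
      rw [show m0 + 2 + 2 * (j + 1) = m0 + 2 + 2 * j + 2 by ring]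
      exact this
  have := hind (((p - 3) / 2 - (m0 + 2)) / 2) (by omega)
  rwa [show m0 + 2 + 2 * (((p - 3) / 2 - (m0 + 2)) / 2) = (p - 3) / 2 by omega] at this

end Pool.Agent.R443.EE
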