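import Mathlib
import Pool.Agent.R443.CL3

/-!
The block sums `∑_{a ≤ h} u (a + p d)` of `u i = C(2i,i)^3 z^i` (`64 z = 1` modulo `p^4`) vanish
modulo `p^2` when `p = 2 h + 1` is a prime with `h` odd.
-/

namespace Pool.Agent.R443.EE

open Finset Pool.Agent.R443.CL

theorem dvd_eq' {a b c : ℤ} (h : a ∣ b) (e : b = c) : a ∣ c := e ▸ h

/-- functions of two variables which are affine modulo `p^2` on multiples of `p` -/
def Aff (p : ℤ) (f : ℤ → ℤ → ℤ) : Prop :=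
  ∃ α β γ : ℤ, ∀ x y : ℤ, p ∣ x → p ∣ y → p ^ 2 ∣ f x y - (α + β * x + γ * y)

theorem Aff.const (p c : ℤ) : Aff p fun _ _ => c := ⟨c, 0, 0, fun x y _ _ => by simp⟩

theorem Aff.fst (p : ℤ) : Aff p fun x _ => x := ⟨0, 1, 0, fun x y _ _ => by simp⟩

theorem Aff.snd (p : ℤ) : Aff p fun _ y => y := ⟨0, 0, 1, fun x y _ _ => by simp⟩

theorem Aff.add {p : ℤ} {f g : ℤ → ℤ → ℤ} (hf : Aff p f) (hg : Aff p g) :
    Aff p fun x y => f x y + g x y := by
  obtain ⟨a, b, c, h⟩ := hf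
  obtain ⟨a', b', c', h'⟩ := hg
  refine ⟨a + a', b + b', c + c', fun x y hx hy => ?_⟩
  exact dvd_eq' (dvd_add (h x y hx hy) (h' x y hx hy)) (by ring)

theorem Aff.mul {p : ℤ} {f g : ℤ → ℤ → ℤ} (hf : Aff p f) (hg : Aff p g) :
    Aff p fun x y => f x y * g x y := by
  obtain ⟨a, b, c, h⟩ := hf
  obtain ⟨a', b', c', h'⟩ := hg
  refine ⟨a * a', a * b' + b * a', a * c' + c * a', fun x y hx hy => ?_⟩
  obtain ⟨r, hr⟩ := h x y hx hy
  obtain ⟨s, hs⟩ := h' x y hx hy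
  obtain ⟨u, hu⟩ := hx
  obtain ⟨v, hv⟩ := hy
  refine ⟨r * g x y + (a + b * x + c * y) * s + (b * u + c * v) * (b' * u + c' * v), ?_⟩
  have e1 : f x y = (a + b * x + c * y) + p ^ 2 * r := by linear_combination hr
  have e2 : g x y = (a' + b' * x + c' * y) + p ^ 2 * s := by linear_combination hs
  show f x y * g x y - _ = _
  rw [e1, e2, hu, hv]
  ring

theorem Aff.pow {p : ℤ} {f : ℤ → ℤ → ℤ} (hf : Aff p f) (n : ℕ) :
    Aff p fun x y => f x y ^ n := by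
  induction n with
  | zero => simpa using Aff.const p 1
  | succ n ih =>
    have := ih.mul hf
    simpa [pow_succ] using this

theorem Aff.prod {p : ℤ} {f : ℕ → ℤ → ℤ → ℤ} (n : ℕ) (hf : ∀ i, Aff p (f i)) :
    Aff p fun x y => ∏ i ∈ range n, f i x y := by
  induction n with
  | zero => simpa using Aff.const p 1
  | succ n ih =>
    have := ih.mul (hf n)
    simpa [prod_range_succ] using this

theorem Aff.sum {p : ℤ} {f : ℕ → ℤ → ℤ → ℤ} (n : ℕ) (hf : ∀ i, Aff p (f i)) :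
    Aff p fun x y => ∑ i ∈ range n, f i x y := by
  induction n with
  | zero => simpa using Aff.const p 0
  | succ n ih =>
    have := ih.add (hf n)
    simpa [sum_range_succ] using this

/-- the numerators -/
def G (h a : ℕ) (x y : ℤ) : ℤ :=
  (∏ i ∈ range a, (x + y - h + i)) * ∏ i ∈ range (h - a), (x + h - i)

/-- the sum of the cubes of the numerators -/
def Rh (h : ℕ) (x y : ℤ) : ℤ := ∑ a ∈ range (h + 1), G h a x y ^ 3

theorem Aff.Rh (p : ℤ) (h : ℕ) : Aff p (Rh h) := by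
  apply Aff.sum (f := fun a x y => G h a x y ^ 3)
  intro a
  apply Aff.pow
  apply Aff.mul (f := fun x y => ∏ i ∈ range a, (x + y - h + i))
    (g := fun x y => ∏ i ∈ range (h - a), (x + h - i))
  · apply Aff.prod (f := fun i x y => x + y - (h : ℤ) + (i : ℤ))
    intro i
    have := ((Aff.fst p).add (Aff.snd p)).add ((Aff.const p (-(h : ℤ))).add (Aff.const p i))
    convert this using 3
    ring
  · apply Aff.prod (f := fun i x y => x + (h : ℤ) - (i : ℤ))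
    intro i
    have := (Aff.fst p).add ((Aff.const p (h : ℤ)).add (Aff.const p (-(i : ℤ))))
    convert this using 3
    ring

theorem prod_neg' (f : ℕ → ℤ) (n : ℕ) :
    ∏ i ∈ range n, (-(f i)) = (-1) ^ n * ∏ i ∈ range n, f i := by
  induction n with
  | zero => simp
  | succ n ih => rw [prod_range_succ, ih, prod_range_succ, pow_succ]; ring

theorem G_symm {h a : ℕ} (ha : a ≤ h) (x y : ℤ) :
    G h a (-x - y) y = (-1) ^ h * G h (h - a) x y := by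
  unfold G
  have e1 : ∏ i ∈ range a, (-x - y + y - (h : ℤ) + i) = (-1) ^ a * ∏ i ∈ range a, (x + h - i) := by
    rw [← prod_neg']
    apply prod_congr rfl
    intro i _
    ring
  have e2 : ∏ i ∈ range (h - a), (-x - y + (h : ℤ) - i) =
      (-1) ^ (h - a) * ∏ i ∈ range (h - a), (x + y - h + i) := by
    rw [← prod_neg']
    apply prod_congr rfl
    intro i _
    ring
  rw [e1, e2, Nat.sub_sub_self ha]
  have e3 : (-1 : ℤ) ^ h = (-1) ^ a * (-1) ^ (h - a) := by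
    rw [← pow_add]; congr 1; omega
  rw [e3]; ring

theorem Rh_symm {h : ℕ} (hh : Odd h) (x y : ℤ) : Rh h (-x - y) y = -Rh h x y := by
  unfold Rh
  rw [← sum_neg_distrib, ← sum_flip]
  apply sum_congr rfl
  intro a ha
  have ha' : a ≤ h := by simpa [Nat.lt_succ_iff] using ha
  rw [G_symm (Nat.sub_le _ _), Nat.sub_sub_self ha', hh.neg_one_pow]
  ring

theorem G_succ {h a : ℕ} (ha : a < h) (x y : ℤ) :
    G h (a + 1) x y * (x + a + 1) = G h a x y * (x + y - h + a) := by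
  unfold G
  obtain ⟨c, hc⟩ : ∃ c, h - a = c + 1 := ⟨h - a - 1, by omega⟩
  rw [prod_range_succ, hc, show h - (a + 1) = c by omega, prod_range_succ]
  have : (c : ℤ) = h - a - 1 := by omega
  rw [this]; ring

/-- if `p^2` divides the value at `(0, y0)` then it divides the value at `(x, y0)` -/
theorem Rh_zero {p h : ℕ} (hp : p.Prime) (hh : Odd h) {y0 c : ℤ}
    (hy : y0 = p * c) (hc : ¬ (p : ℤ) ∣ c) (h0 : (p : ℤ) ^ 2 ∣ Rh h 0 y0) {x : ℤ}
    (hx : (p : ℤ) ∣ x) : (p : ℤ) ^ 2 ∣ Rh h x y0 := by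
  have hpp : Prime (p : ℤ) := Nat.prime_iff_prime_int.mp hp
  obtain ⟨α, β, γ, H⟩ := Aff.Rh (p : ℤ) h
  have hpy : (p : ℤ) ∣ y0 := ⟨c, hy⟩
  have z0 : Rh h 0 0 = 0 := by
    have := Rh_symm hh 0 0
    simp only [neg_zero, sub_zero] at this
    omega
  have a0 : (p : ℤ) ^ 2 ∣ α := by
    have := H 0 0 (dvd_zero _) (dvd_zero _)
    rw [z0] at this
    exact dvd_eq' ((dvd_neg (a := (p : ℤ) ^ 2)).mpr this) (by ring)
  have a1 : (p : ℤ) ^ 2 ∣ γ * y0 := by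
    have h1 := H 0 y0 (dvd_zero _) hpy
    exact dvd_eq' (dvd_sub (dvd_sub h0 h1) a0) (by ring)
  have a2 : (p : ℤ) ^ 2 ∣ β * y0 := by
    have h1 := H (-0 - y0) y0 (by simpa using hpy) hpy
    rw [Rh_symm hh] at h1
    have h2 := dvd_add (dvd_add h1 h0) (dvd_add a0 a1)
    have h3 : -Rh h 0 y0 - (α + β * (-0 - y0) + γ * y0) + Rh h 0 y0 + (α + γ * y0) = β * y0 := by
      ring
    rwa [h3] at h2
  have div : ∀ w : ℤ, (p : ℤ) ^ 2 ∣ w * y0 → (p : ℤ) ∣ w := by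
    intro w hw
    rw [hy] at hw
    obtain ⟨r, hr⟩ := hw
    have : (p : ℤ) ∣ w * c := by
      refine ⟨r, ?_⟩
      apply mul_left_cancel₀ hpp.ne_zero
      linear_combination hr
    rcases hpp.dvd_or_dvd this with h | h
    · exact h
    · exact absurd h hc
  have b1 := div _ a2
  have b2 : (p : ℤ) ^ 2 ∣ β * x := by
    rw [sq]; exact mul_dvd_mul b1 hx
  have h1 := dvd_add (H x y0 hx hpy) (dvd_add a0 (dvd_add b2 a1))
  have h3 : Rh h x y0 - (α + β * x + γ * y0) + (α + (β * x + γ * y0)) = Rh h x y0 := by ring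
  rwa [h3] at h1

/-- the sequence `C(2i,i)^3 z^i` -/
def u (z : ℤ) (i : ℕ) : ℤ := b i ^ 3 * z ^ i

theorem u_zero (z : ℤ) : u z 0 = 1 := by simp [u, b]

theorem u_succ (z : ℤ) (i : ℕ) : ((i : ℤ) + 1) ^ 3 * u z (i + 1) =
    8 * z * (2 * (i : ℤ) + 1) ^ 3 * u z i := by
  have hb := b_succ i
  unfold u
  have : (((i : ℤ) + 1) * b (i + 1)) ^ 3 = (2 * (2 * (i : ℤ) + 1) * b i) ^ 3 := by rw [hb]
  rw [pow_succ z i]
  linear_combination z ^ i * z * this

/-- the block relation -/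
theorem block {p h : ℕ} (hp : p.Prime) (hph : p = 2 * h + 1) {z : ℤ}
    (hz : (p : ℤ) ^ 2 ∣ 64 * z - 1) (d a : ℕ) (ha : a ≤ h) :
    (p : ℤ) ^ 2 ∣ G h 0 (p * d) (p * (h + 1)) ^ 3 * u z (a + p * d) -
      u z (p * d) * G h a (p * d) (p * (h + 1)) ^ 3 := by
  have hpp : Prime (p : ℤ) := Nat.prime_iff_prime_int.mp hp
  induction a with
  | zero => simp [mul_comm]
  | succ a ih =>
    have ih := ih (by omega)
    have hcop : ¬ (p : ℤ) ∣ ((p : ℤ) * d + a + 1) := by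
      intro hd
      have h1 : (p : ℤ) ∣ ((a + 1 : ℕ) : ℤ) := by
        exact dvd_eq' (dvd_sub hd (Dvd.intro (d : ℤ) rfl : (p : ℤ) ∣ (p : ℤ) * d))
          (by push_cast; ring)
      have h2 := Nat.le_of_dvd (by omega) (Int.natCast_dvd_natCast.mp h1)
      omega
    have hcop3 : IsCoprime ((p : ℤ) ^ 2) (((p : ℤ) * d + a + 1) ^ 3) :=
      IsCoprime.pow ((Prime.coprime_iff_not_dvd hpp).mpr hcop)
    apply hcop3.dvd_of_dvd_mul_left
    have hu := u_succ z (a + p * d)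
    have hG := G_succ (h := h) (a := a) (by omega) ((p : ℤ) * d) ((p : ℤ) * (h + 1))
    obtain ⟨r, hr⟩ := ih
    obtain ⟨s, hs⟩ := hz
    have hpz : (p : ℤ) = 2 * h + 1 := by rw [hph]; push_cast; ring
    rw [show a + 1 + p * d = a + p * d + 1 by ring]
    push_cast at hu
    have hG3 : (G h (a + 1) ((p : ℤ) * d) ((p : ℤ) * (h + 1)) * ((p : ℤ) * d + a + 1)) ^ 3 =
      (G h a ((p : ℤ) * d) ((p : ℤ) * (h + 1)) * ((p : ℤ) * d + (p : ℤ) * (h + 1) - h + a)) ^ 3 := by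
      rw [hG]
    -- 2 (x + y - h + a) = 2 x + 2 a + 1 + p^2
    have h2y : 2 * ((p : ℤ) * d + (p : ℤ) * (h + 1) - h + a) =
      (2 * ((a : ℤ) + p * d) + 1) + (p : ℤ) ^ 2 := by
      have : (h : ℤ) = ((p : ℤ) - 1) / 2 := by omega
      have h' : 2 * (h : ℤ) = p - 1 := by omega
      linear_combination ((p : ℤ) - 1) * h'
    set A := G h a ((p : ℤ) * d) ((p : ℤ) * (h + 1)) with hA
    set A1 := G h (a + 1) ((p : ℤ) * d) ((p : ℤ) * (h + 1)) with hA1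
    set A0 := G h 0 ((p : ℤ) * d) ((p : ℤ) * (h + 1)) with hA0
    set U := u z (a + p * d) with hU
    set U1 := u z (a + p * d + 1) with hU1
    set U0 := u z (p * d) with hU0
    set q : ℤ := 2 * ((a : ℤ) + p * d) + 1 with hq
    set w : ℤ := (p : ℤ) * d + (p : ℤ) * (h + 1) - h + a with hw
    have h8 : 8 * w ^ 3 = (q + (p : ℤ) ^ 2) ^ 3 := by
      rw [← h2y]; ring
    -- 8 (x+a+1)^3 (A0^3 U1 - U0 A1^3) = 64 z q^3 A0^3 U - (q + p^2)^3 U0 A^3
    have key : 8 * (((p : ℤ) * d + a + 1) ^ 3 * (A0 ^ 3 * U1 - U0 * A1 ^ 3)) =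
        64 * z * q ^ 3 * (A0 ^ 3 * U) - (q + (p : ℤ) ^ 2) ^ 3 * (U0 * A ^ 3) := by
      rw [← h8]
      linear_combination 8 * A0 ^ 3 * hu - 8 * U0 * hG3
    have hcop8 : IsCoprime ((p : ℤ) ^ 2) 8 := by
      have h2 : ¬ (p : ℤ) ∣ 2 := by
        intro hd
        have := Nat.le_of_dvd (by norm_num) (Int.natCast_dvd_natCast.mp (by exact_mod_cast hd : ((p : ℕ) : ℤ) ∣ ((2 : ℕ) : ℤ)))
        omega
      have := IsCoprime.pow (m := 2) (n := 3) ((Prime.coprime_iff_not_dvd hpp).mpr h2)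
      norm_num at this
      exact this
    apply hcop8.dvd_of_dvd_mul_left
    rw [key]
    refine ⟨s * q ^ 3 * (A0 ^ 3 * U) + q ^ 3 * r -
      (3 * q ^ 2 + 3 * q * (p : ℤ) ^ 2 + (p : ℤ) ^ 4) * (U0 * A ^ 3), ?_⟩
    linear_combination q ^ 3 * (A0 ^ 3 * U) * hs + q ^ 3 * hr

theorem Th {p h : ℕ} (hp : p.Prime) (hph : p = 2 * h + 1) (hh : Odd h) {z : ℤ}
    (hz : (p : ℤ) ^ 2 ∣ 64 * z - 1) : (p : ℤ) ^ 2 ∣ ∑ a ∈ range (h + 1), u z a := by
  have hpp : Prime (p : ℤ) := Nat.prime_iff_prime_int.mp hp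
  obtain ⟨l, hl⟩ := hh
  have hZ := Z_odd l
  rw [← hl] at hZ
  have h2 : ¬ (p : ℤ) ∣ 2 := by
    intro hd
    have := Nat.le_of_dvd (by norm_num) (Int.natCast_dvd_natCast.mp
      (by exact_mod_cast hd : ((p : ℕ) : ℤ) ∣ ((2 : ℕ) : ℤ)))
    omega
  have hcop : IsCoprime ((p : ℤ) ^ 2) (64 ^ h) := by
    have := IsCoprime.pow (m := 2) (n := 6 * h) ((Prime.coprime_iff_not_dvd hpp).mpr h2)
    rw [pow_mul] at this
    norm_num at this
    exact this
  apply hcop.dvd_of_dvd_mul_left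
  have hterm : ∀ a ∈ range (h + 1), (p : ℤ) ^ 2 ∣ 64 ^ h * u z a -
      16 ^ h * (e h a * b a ^ 2 * (-1) ^ a * 4 ^ (h - a)) := by
    intro a ha
    have ha' : a ≤ h := by simpa [Nat.lt_succ_iff] using ha
    have hp' : (2 * h + 1).Prime := hph ▸ hp
    have he := e_mod hp' a ha'
    rw [← hph] at he
    have h1 : (p : ℤ) ^ 2 ∣ (64 * z) ^ a - 1 := by
      have := sub_dvd_pow_sub_pow (64 * z) 1 a
      rw [one_pow] at this
      exact hz.trans this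
    obtain ⟨r, hr⟩ := he
    obtain ⟨s, hs⟩ := h1
    have e64 : (64 : ℤ) ^ h = 64 ^ (h - a) * 64 ^ a := by rw [← pow_add, Nat.sub_add_cancel ha']
    have e16 : (16 : ℤ) ^ h = 16 ^ (h - a) * 16 ^ a := by rw [← pow_add, Nat.sub_add_cancel ha']
    have e6 : (64 : ℤ) ^ (h - a) = 16 ^ (h - a) * 4 ^ (h - a) := by rw [← mul_pow]; norm_num
    have em : (-16 : ℤ) ^ a = (-1) ^ a * 16 ^ a := by rw [← mul_pow]; norm_num
    rw [mul_pow] at hs
    rw [em] at hr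
    refine ⟨16 ^ (h - a) * 4 ^ (h - a) * b a ^ 3 * s - 16 ^ (h - a) * 4 ^ (h - a) * b a ^ 2 * r, ?_⟩
    unfold u
    rw [e64, e16, e6]
    linear_combination 16 ^ (h - a) * 4 ^ (h - a) * b a ^ 3 * hs -
      16 ^ (h - a) * 4 ^ (h - a) * b a ^ 2 * hr
  have hsum := dvd_sum hterm
  rw [sum_sub_distrib, ← mul_sum, ← mul_sum, hZ, mul_zero, sub_zero] at hsum
  exact hsum

theorem G0_not_dvd {p h : ℕ} (hp : p.Prime) (hph : p = 2 * h + 1) (d : ℕ) (y : ℤ) :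
    ¬ (p : ℤ) ∣ G h 0 (p * d) y := by
  have hpp : Prime (p : ℤ) := Nat.prime_iff_prime_int.mp hp
  unfold G
  rw [range_zero, prod_empty, one_mul, Nat.sub_zero]
  intro hd
  rw [hpp.dvd_finsetProd_iff] at hd
  obtain ⟨i, hi, hd⟩ := hd
  rw [mem_range] at hi
  have h1 : (p : ℤ) ∣ ((h - i : ℕ) : ℤ) :=
    dvd_eq' (dvd_sub hd (Dvd.intro (d : ℤ) rfl : (p : ℤ) ∣ (p : ℤ) * d))
      (by rw [Nat.cast_sub hi.le]; ring)
  have h2 := Nat.le_of_dvd (by omega) (Int.natCast_dvd_natCast.mp h1)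
  omega

theorem block_sum {p h : ℕ} (hp : p.Prime) (hph : p = 2 * h + 1) {z : ℤ}
    (hz : (p : ℤ) ^ 2 ∣ 64 * z - 1) (d : ℕ) :
    (p : ℤ) ^ 2 ∣ G h 0 (p * d) (p * (h + 1)) ^ 3 * ∑ a ∈ range (h + 1), u z (a + p * d) -
      u z (p * d) * Rh h (p * d) (p * (h + 1)) := by
  unfold Rh
  rw [mul_sum, mul_sum, ← sum_sub_distrib]
  exact dvd_sum fun a ha => block hp hph hz d a (by simpa [Nat.lt_succ_iff] using ha)

/-- the block sums vanish modulo `p^2` -/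
theorem P_zero {p h : ℕ} (hp : p.Prime) (hph : p = 2 * h + 1) (hh : Odd h) {z : ℤ}
    (hz : (p : ℤ) ^ 2 ∣ 64 * z - 1) (d : ℕ) :
    (p : ℤ) ^ 2 ∣ ∑ a ∈ range (h + 1), u z (a + p * d) := by
  have hpp : Prime (p : ℤ) := Nat.prime_iff_prime_int.mp hp
  have hT := Th hp hph hh hz
  have hb0 := block_sum hp hph hz 0
  simp only [Nat.cast_zero, mul_zero, add_zero] at hb0
  rw [u_zero, one_mul] at hb0
  have hR0 : (p : ℤ) ^ 2 ∣ Rh h 0 (p * (h + 1)) := by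
    exact dvd_eq' (dvd_sub (hT.mul_left (G h 0 0 (p * (h + 1)) ^ 3)) hb0) (by ring)
  have hc : ¬ (p : ℤ) ∣ ((h : ℤ) + 1) := by
    intro hd
    have h1 : (p : ℤ) ∣ ((h + 1 : ℕ) : ℤ) := by push_cast; exact hd
    have h2 := Nat.le_of_dvd (by omega) (Int.natCast_dvd_natCast.mp h1)
    have : 0 < h := hh.pos
    omega
  have hR := Rh_zero hp hh (y0 := p * (h + 1)) rfl hc hR0
    (x := p * d) (Dvd.intro (d : ℤ) rfl)
  have hbd := block_sum hp hph hz d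
  have h1 : (p : ℤ) ^ 2 ∣ G h 0 (p * d) (p * (h + 1)) ^ 3 *
      ∑ a ∈ range (h + 1), u z (a + p * d) :=
    dvd_eq' (dvd_add hbd (hR.mul_left (u z (p * d)))) (by ring)
  have hcop : IsCoprime ((p : ℤ) ^ 2) (G h 0 (p * d) (p * (h + 1)) ^ 3) :=
    IsCoprime.pow ((Prime.coprime_iff_not_dvd hpp).mpr (G0_not_dvd hp hph d _))
  exact hcop.dvd_of_dvd_mul_left h1

end Pool.Agent.R443.EE
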