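import Mathlib
import Pool.Agent.R443.EE2
import Pool.Agent.R443.EE3

/-!
The mixed sums `∑_{s} u (p e + (p - 1 - s)) ∑_{c ≤ s} u (c + p d)` vanish modulo `p^4`.
-/

namespace Pool.Agent.R443.EE

open Finset Pool.Agent.R443.CL

theorem b_dvd {p h : ℕ} (hp : p.Prime) (hph : p = 2 * h + 1) (d a : ℕ) (h1 : h < a) (h2 : a < p) :
    (p : ℤ) ∣ b (a + p * d) := by
  have hpp : Prime (p : ℤ) := Nat.prime_iff_prime_int.mp hp
  obtain ⟨c, rfl⟩ : ∃ c, a = h + 1 + c := ⟨a - (h + 1), by omega⟩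
  have hcop : ∀ j : ℕ, 0 < j → j < p → ¬ (p : ℤ) ∣ ((j + p * d : ℕ) : ℤ) := by
    intro j hj1 hj2 hd
    have h3 : (p : ℤ) ∣ (j : ℤ) :=
      dvd_eq' (dvd_sub hd (Dvd.intro (d : ℤ) rfl : (p : ℤ) ∣ (p : ℤ) * d)) (by push_cast; ring)
    have h4 := Nat.le_of_dvd hj1 (Int.natCast_dvd_natCast.mp h3)
    omega
  induction c with
  | zero =>
    have hb := b_succ (h + p * d)
    have hd : (p : ℤ) ∣ (((h + p * d : ℕ) : ℤ) + 1) * b (h + p * d + 1) := by
      rw [hb]
      refine ⟨2 * (1 + 2 * d) * b (h + p * d), ?_⟩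
      have hpz : (p : ℤ) = 2 * h + 1 := by rw [hph]; push_cast; ring
      push_cast
      linear_combination (-2 * b (h + p * d)) * hpz
    rcases hpp.dvd_or_dvd hd with hh | hh
    · exfalso
      apply hcop (h + 1) (by omega) (by omega)
      exact dvd_eq' hh (by push_cast; ring)
    · rw [show h + 1 + 0 + p * d = h + p * d + 1 by ring]
      exact hh
  | succ c ih =>
    have ih := ih (by omega) (by omega)
    have hb := b_succ (h + 1 + c + p * d)
    have hd : (p : ℤ) ∣ (((h + 1 + c + p * d : ℕ) : ℤ) + 1) * b (h + 1 + c + p * d + 1) := by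
      rw [hb]
      exact ih.mul_left _
    rcases hpp.dvd_or_dvd hd with hh | hh
    · exfalso
      apply hcop (h + 1 + c + 1) (by omega) (by omega)
      exact dvd_eq' hh (by push_cast; ring)
    · rw [show h + 1 + (c + 1) + p * d = h + 1 + c + p * d + 1 by ring]
      exact hh

/-- `u i / p^3` -/
def g (p : ℕ) (z : ℤ) (i : ℕ) : ℤ := (b i / p) ^ 3 * z ^ i

theorem u_eq_g {p : ℕ} {z : ℤ} {i : ℕ} (hi : (p : ℤ) ∣ b i) : u z i = (p : ℤ) ^ 3 * g p z i := by
  unfold u g
  obtain ⟨c, hc⟩ := hi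
  rcases eq_or_ne (p : ℤ) 0 with h0 | h0
  · rw [hc, h0]; simp
  · rw [hc, Int.mul_ediv_cancel_left _ h0]; ring

theorem g_succ {p : ℕ} (hp : p.Prime) {z : ℤ} {i : ℕ} (hi : (p : ℤ) ∣ b i)
    (hi1 : (p : ℤ) ∣ b (i + 1)) :
    ((i : ℤ) + 1) ^ 3 * g p z (i + 1) = 8 * z * (2 * (i : ℤ) + 1) ^ 3 * g p z i := by
  have hu := u_succ z i
  rw [u_eq_g hi, u_eq_g hi1] at hu
  have h0 : (p : ℤ) ^ 3 ≠ 0 := pow_ne_zero _ (by exact_mod_cast hp.ne_zero)
  apply mul_left_cancel₀ h0
  linear_combination hu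

section main
variable {p : ℕ} [hp : Fact p.Prime]

theorem x_succ {z : ℤ} (hz : (p : ℤ) ∣ 64 * z - 1) (d c : ℕ) :
    8 * ((c : ZMod p) + 1) ^ 3 * (u z (c + 1 + p * d) : ZMod p) =
      (2 * (c : ZMod p) + 1) ^ 3 * (u z (c + p * d) : ZMod p) := by
  have hu := congrArg (Int.cast : ℤ → ZMod p) (u_succ z (c + p * d))
  rw [show c + 1 + p * d = c + p * d + 1 by ring]
  have hz' : (64 : ZMod p) * z = 1 := by
    have := (ZMod.intCast_zmod_eq_zero_iff_dvd (64 * z - 1) p).mpr hz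
    push_cast at this
    linear_combination this
  push_cast at hu
  rw [ZMod.natCast_self] at hu
  simp only [zero_mul, add_zero] at hu
  linear_combination 8 * hu + (2 * (c : ZMod p) + 1) ^ 3 * (u z (c + p * d) : ZMod p) * hz'

theorem y_succ {h : ℕ} (hph : p = 2 * h + 1) {c : ℕ} (hc : c ≤ h) :
    8 * ((c : ZMod p) + 1) ^ 3 * ((-1) ^ (c + 1) * (h.choose (c + 1) : ZMod p) ^ 3) =
      (2 * (c : ZMod p) + 1) ^ 3 * ((-1) ^ c * (h.choose c : ZMod p) ^ 3) := by
  have h1 : (h.choose (c + 1) : ZMod p) * (c + 1) = h.choose c * ((h : ZMod p) - c) := by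
    have := Nat.choose_succ_right_eq h c
    have h := congrArg (Nat.cast : ℕ → ZMod p) this
    push_cast [Nat.cast_sub hc] at h
    exact h
  have h0 : 2 * (h : ZMod p) + 1 = 0 := by
    have : ((2 * h + 1 : ℕ) : ZMod p) = 0 := by rw [← hph]; exact ZMod.natCast_self p
    exact_mod_cast this
  have h2 : 2 * (c : ZMod p) + 1 = -2 * ((h : ZMod p) - c) := by linear_combination h0
  have h3 : ((h.choose (c + 1) : ZMod p) * (c + 1)) ^ 3 =
    (h.choose c * ((h : ZMod p) - c)) ^ 3 := by rw [h1]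
  rw [h2, pow_succ]
  linear_combination (-8) * (-1 : ZMod p) ^ c * h3

theorem eight_ne {h : ℕ} (hph : p = 2 * h + 1) (h0 : 0 < h) {c : ℕ} (hc : c + 1 ≤ h) :
    8 * ((c : ZMod p) + 1) ^ 3 ≠ 0 := by
  have h2 : (2 : ZMod p) ≠ 0 := by exact_mod_cast natCast_ne (p := p) (j := 2) (by omega) (by omega)
  have h8 : (8 : ZMod p) ≠ 0 := by
    have := pow_ne_zero 3 h2
    norm_num at this
    exact this
  have hc' : (c : ZMod p) + 1 ≠ 0 := by
    exact_mod_cast natCast_ne (p := p) (j := c + 1) (by omega) (by omega)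
  exact mul_ne_zero h8 (pow_ne_zero 3 hc')

theorem x_eq {h : ℕ} (hph : p = 2 * h + 1) (h0 : 0 < h) {z : ℤ} (hz : (p : ℤ) ∣ 64 * z - 1)
    (d c : ℕ) (hc : c ≤ h) :
    (u z (c + p * d) : ZMod p) =
      (u z (p * d) : ZMod p) * ((-1) ^ c * (h.choose c : ZMod p) ^ 3) := by
  induction c with
  | zero => simp
  | succ c ih =>
    have ih := ih (by omega)
    have h1 := x_succ hz d c
    have h2 := y_succ (p := p) hph (c := c) (by omega)
    apply mul_left_cancel₀ (eight_ne hph h0 hc)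
    rw [h1, ih]
    linear_combination (-(u z (p * d) : ZMod p)) * h2

/-- the reversed values, divided by `p^3` -/
def gb (p : ℕ) (z : ℤ) (e s : ℕ) : ZMod p := (g p z (p * e + (p - 1 - s)) : ZMod p)

theorem gb_succ {h : ℕ} (hph : p = 2 * h + 1) {z : ℤ} (hz : (p : ℤ) ∣ 64 * z - 1)
    (e s : ℕ) (hs : s + 1 < h) :
    8 * ((s : ZMod p) + 1) ^ 3 * gb p z e s = (2 * ((s : ZMod p) + 1) + 1) ^ 3 * gb p z e (s + 1) := by
  have hb1 : (p : ℤ) ∣ b (p * e + (p - 1 - (s + 1))) := by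
    have := b_dvd hp.out hph e (p - 1 - (s + 1)) (by omega) (by omega)
    rwa [add_comm] at this
  have hb2 : (p : ℤ) ∣ b (p * e + (p - 1 - (s + 1)) + 1) := by
    have := b_dvd hp.out hph e (p - 1 - (s + 1) + 1) (by omega) (by omega)
    rw [add_comm] at this
    exact this
  have hg := congrArg (Int.cast : ℤ → ZMod p) (g_succ (z := z) hp.out hb1 hb2)
  have hz' : (64 : ZMod p) * z = 1 := by
    have := (ZMod.intCast_zmod_eq_zero_iff_dvd (64 * z - 1) p).mpr hz
    push_cast at this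
    linear_combination this
  have hi : ((p * e + (p - 1 - (s + 1)) : ℕ) : ZMod p) = -((s : ZMod p) + 1) - 1 := by
    have h1 : p * e + (p - 1 - (s + 1)) + (s + 1) + 1 = p * e + p := by omega
    have h2 := congrArg (Nat.cast : ℕ → ZMod p) h1
    rw [Nat.cast_add, Nat.cast_add] at h2
    push_cast at h2 ⊢
    rw [ZMod.natCast_self] at h2 ⊢
    linear_combination h2
  have hidx : p * e + (p - 1 - (s + 1)) + 1 = p * e + (p - 1 - s) := by omega
  rw [hidx] at hg
  unfold gb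
  push_cast at hg
  have hi' : (p : ZMod p) * e + ((p - 1 - (s + 1) : ℕ) : ZMod p) = -((s : ZMod p) + 1) - 1 := by
    rw [← hi]; push_cast; ring
  rw [hi'] at hg
  generalize (g p z (p * e + (p - 1 - s)) : ZMod p) = A at *
  generalize (g p z (p * e + (p - 1 - (s + 1))) : ZMod p) = B at *
  linear_combination (-8) * hg + (2 * ((s : ZMod p) + 1) + 1) ^ 3 * B * hz'

theorem kappa {h : ℕ} (hph : p = 2 * h + 1) (h0 : 0 < h) {z : ℤ} (hz : (p : ℤ) ∣ 64 * z - 1)
    (e s : ℕ) (hs : s < h) :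
    ((s : ZMod p) + 1) ^ 3 * ((-1) ^ (s + 1) * (h.choose (s + 1) : ZMod p) ^ 3) * gb p z e s =
      -((h : ZMod p) ^ 3 * gb p z e 0) := by
  induction s with
  | zero => simp
  | succ s ih =>
    have ih := ih (by omega)
    rw [← ih]
    have h1 := gb_succ hph hz e s hs
    have h2 := y_succ (p := p) hph (c := s + 1) (by omega)
    have h8 : (8 : ZMod p) ≠ 0 := by
      have h2 : (2 : ZMod p) ≠ 0 := by
        exact_mod_cast natCast_ne (p := p) (j := 2) (by omega) (by omega)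
      have := pow_ne_zero 3 h2
      norm_num at this
      exact this
    apply mul_left_cancel₀ h8
    push_cast at h2 ⊢
    generalize gb p z e (s + 1) = B at *
    generalize gb p z e s = A at *
    generalize (-1 : ZMod p) ^ (s + 1 + 1) * ((h.choose (s + 1 + 1) : ℕ) : ZMod p) ^ 3 = Y1 at *
    generalize (-1 : ZMod p) ^ (s + 1) * ((h.choose (s + 1) : ℕ) : ZMod p) ^ 3 = Y at *
    linear_combination B * h2 - Y * h1

theorem mixed {h : ℕ} (hph : p = 2 * h + 1) (h4 : p % 4 = 3) (h3 : 3 < p) {z : ℤ}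
    (hz : (p : ℤ) ∣ 64 * z - 1) (e d : ℕ) :
    (p : ℤ) ^ 4 ∣ ∑ s ∈ range h, u z (p * e + (p - 1 - s)) * ∑ c ∈ range (s + 1), u z (c + p * d) := by
  have h0 : 0 < h := by omega
  obtain ⟨m, hm⟩ : ∃ m, h = m + 1 := ⟨h - 1, by omega⟩
  have hE := E_zero (p := p) h4 h3
  rw [show (p - 3) / 2 = m by omega] at hE
  have hu : ∀ s ∈ range h, u z (p * e + (p - 1 - s)) * ∑ c ∈ range (s + 1), u z (c + p * d) =
      (p : ℤ) ^ 3 * (g p z (p * e + (p - 1 - s)) * ∑ c ∈ range (s + 1), u z (c + p * d)) := by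
    intro s hs
    rw [mem_range] at hs
    have hb : (p : ℤ) ∣ b (p * e + (p - 1 - s)) := by
      have := b_dvd hp.out hph e (p - 1 - s) (by omega) (by omega)
      rwa [add_comm] at this
    rw [u_eq_g hb]; ring
  rw [sum_congr rfl hu, ← mul_sum, show (p : ℤ) ^ 4 = (p : ℤ) ^ 3 * p by ring]
  apply mul_dvd_mul_left
  rw [← ZMod.intCast_zmod_eq_zero_iff_dvd]
  push_cast
  have hne : ∀ j : ℕ, 0 < j → j ≤ m → (j : ZMod p) ≠ 0 := fun j h1 h2 => natCast_ne h1 (by omega)
  have hhne : (h : ZMod p) ≠ 0 := natCast_ne h0 (by omega)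
  have hterm : ∀ s ∈ range h, (g p z (p * e + (p - 1 - s)) : ZMod p) *
      ∑ c ∈ range (s + 1), (u z (c + p * d) : ZMod p) =
      (gb p z e 0 * (u z (p * d) : ZMod p)) * t (ZMod p) m s := by
    intro s hs
    rw [mem_range] at hs
    have hk := kappa hph h0 hz e s hs
    have hx : ∑ c ∈ range (s + 1), (u z (c + p * d) : ZMod p) =
        (u z (p * d) : ZMod p) * V (ZMod p) h (s + 1) := by
      unfold V
      rw [mul_sum]
      apply sum_congr rfl
      intro c hc
      rw [mem_range] at hc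
      exact x_eq hph h0 hz d c (by omega)
    rw [hx]
    have hC : (m.choose s : ZMod p) ≠ 0 := choose_ne hne (by omega)
    have hsymm : (h : ZMod p) * m.choose s = (h.choose (s + 1) : ZMod p) * (s + 1) := by
      have := Nat.add_one_mul_choose_eq m s
      rw [← hm] at this
      exact_mod_cast congrArg (Nat.cast : ℕ → ZMod p) this
    have hsymm3 : ((h : ZMod p) * m.choose s) ^ 3 = ((h.choose (s + 1) : ZMod p) * (s + 1)) ^ 3 := by
      rw [hsymm]
    have he : ((-1 : ZMod p) ^ s) * (-1) ^ s = 1 := by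
      rw [← mul_pow]; norm_num
    -- gb s = gb 0 * (-1)^s / C(m,s)^3
    have hgb : gb p z e s * (m.choose s : ZMod p) ^ 3 = gb p z e 0 * (-1) ^ s := by
      apply mul_left_cancel₀ (pow_ne_zero 3 hhne)
      rw [pow_succ (-1 : ZMod p) s] at hk
      generalize gb p z e s = A at *
      generalize gb p z e 0 = B at *
      generalize (-1 : ZMod p) ^ s = ε at *
      linear_combination A * hsymm3 - ε * hk -
        A * ((s : ZMod p) + 1) ^ 3 * (h.choose (s + 1) : ZMod p) ^ 3 * he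
    unfold t
    rw [← hm]
    change gb p z e s * _ = _
    have hC3 := pow_ne_zero 3 hC
    field_simp
    linear_combination (u z (p * d) : ZMod p) * V (ZMod p) h (s + 1) * hgb
  rw [sum_congr rfl hterm, ← mul_sum]
  have : ∑ s ∈ range h, t (ZMod p) m s = E (ZMod p) m := by unfold E; rw [hm]
  rw [this, hE, mul_zero]

end main

end Pool.Agent.R443.EE
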