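import Mathlib
import Pool.Agent.R443.EE4

/-!
The convolution sum `∑_{k < p M} ∑_{j ≤ k} u j u (k - j)` vanishes modulo `p^4`.
-/

namespace Pool.Agent.R443.EE

open Finset Pool.Agent.R443.CL

/-- triangular sums -/
def T (f g : ℕ → ℤ) (N : ℕ) : ℤ := ∑ i ∈ range N, f i * ∑ j ∈ range (N - i), g j

theorem conv_eq (f g : ℕ → ℤ) (N : ℕ) :
    ∑ k ∈ range N, ∑ j ∈ range (k + 1), f j * g (k - j) = T f g N := by
  induction N with
  | zero => simp [T]
  | succ N ih =>
    rw [sum_range_succ, ih]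
    unfold T
    have h1 : ∀ i ∈ range (N + 1), f i * ∑ j ∈ range (N + 1 - i), g j =
        f i * ∑ j ∈ range (N - i), g j + f i * g (N - i) := by
      intro i hi
      have hi' : i ≤ N := by simpa [Nat.lt_succ_iff] using hi
      rw [show N + 1 - i = N - i + 1 by omega, sum_range_succ, mul_add]
    rw [sum_congr rfl h1, sum_add_distrib, sum_range_succ (fun i => f i * ∑ j ∈ range (N - i), g j)]
    simp

theorem T_comm (f g : ℕ → ℤ) (N : ℕ) : T f g N = T g f N := by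
  rw [← conv_eq, ← conv_eq]
  apply sum_congr rfl
  intro k _
  rw [← sum_flip]
  apply sum_congr rfl
  intro j hj
  have hj' : j ≤ k := by simpa [Nat.lt_succ_iff] using hj
  rw [Nat.sub_sub_self hj', mul_comm]

theorem T_add (f g f' g' : ℕ → ℤ) (N : ℕ) :
    T (fun i => f i + f' i) (fun i => g i + g' i) N =
      T f g N + T f g' N + T f' g N + T f' g' N := by
  unfold T
  rw [← sum_add_distrib, ← sum_add_distrib, ← sum_add_distrib]
  apply sum_congr rfl
  intro i _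
  rw [sum_add_distrib]
  ring

/-- the part of `u` on small residues -/
def v (h : ℕ) (z : ℤ) (i : ℕ) : ℤ := if i % (2 * h + 1) ≤ h then u z i else 0

/-- the part of `u` on large residues -/
def w (h : ℕ) (z : ℤ) (i : ℕ) : ℤ := if i % (2 * h + 1) ≤ h then 0 else u z i

theorem u_eq (h : ℕ) (z : ℤ) : u z = fun i => v h z i + w h z i := by
  funext i
  unfold v w
  split_ifs <;> simp

theorem v_small {h : ℕ} (z : ℤ) (d c : ℕ) (hc : c ≤ h) :
    v h z ((2 * h + 1) * d + c) = u z (c + (2 * h + 1) * d) := by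
  unfold v
  rw [Nat.mul_add_mod, Nat.mod_eq_of_lt (by omega), if_pos hc, add_comm]

theorem v_large {h : ℕ} (z : ℤ) (d c : ℕ) (hc : h < c) (hc' : c < 2 * h + 1) :
    v h z ((2 * h + 1) * d + c) = 0 := by
  unfold v
  rw [Nat.mul_add_mod, Nat.mod_eq_of_lt hc', if_neg (by omega)]

theorem w_small {h : ℕ} (z : ℤ) (d c : ℕ) (hc : c ≤ h) :
    w h z ((2 * h + 1) * d + c) = 0 := by
  unfold w
  rw [Nat.mul_add_mod, Nat.mod_eq_of_lt (by omega), if_pos hc]

theorem w_large {h : ℕ} (z : ℤ) (d c : ℕ) (hc : h < c) (hc' : c < 2 * h + 1) :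
    w h z ((2 * h + 1) * d + c) = u z ((2 * h + 1) * d + c) := by
  unfold w
  rw [Nat.mul_add_mod, Nat.mod_eq_of_lt hc', if_neg (by omega)]

theorem sum_blocks (F : ℕ → ℤ) (p M : ℕ) :
    ∑ i ∈ range (p * M), F i = ∑ b ∈ range M, ∑ a ∈ range p, F (p * b + a) := by
  induction M with
  | zero => simp
  | succ M ih => rw [Nat.mul_succ, sum_range_add, ih, sum_range_succ]

theorem split_block (F : ℕ → ℤ) (h : ℕ) :
    ∑ a ∈ range (2 * h + 1), F a = ∑ a ∈ range (h + 1), F a + ∑ s ∈ range h, F (2 * h - s) := by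
  rw [show 2 * h + 1 = (h + 1) + h by ring, sum_range_add]
  congr 1
  rw [← sum_range_reflect]
  apply sum_congr rfl
  intro s hs
  rw [mem_range] at hs
  congr 1
  omega

/-- `∑_{j < p D + r} v j` for `h < r ≤ p` -/
theorem VV_large {h : ℕ} (z : ℤ) (D r : ℕ) (h1 : h < r) (h2 : r ≤ 2 * h + 1) :
    ∑ j ∈ range ((2 * h + 1) * D + r), v h z j =
      ∑ b ∈ range (D + 1), ∑ a ∈ range (h + 1), u z (a + (2 * h + 1) * b) := by
  have hfull : ∀ b : ℕ, ∀ r : ℕ, h < r → r ≤ 2 * h + 1 →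
      ∑ a ∈ range r, v h z ((2 * h + 1) * b + a) = ∑ a ∈ range (h + 1), u z (a + (2 * h + 1) * b) := by
    intro b r h1 h2
    obtain ⟨c, rfl⟩ : ∃ c, r = h + 1 + c := ⟨r - (h + 1), by omega⟩
    rw [sum_range_add]
    have e1 : ∑ a ∈ range (h + 1), v h z ((2 * h + 1) * b + a) =
        ∑ a ∈ range (h + 1), u z (a + (2 * h + 1) * b) := by
      apply sum_congr rfl
      intro a ha
      exact v_small z b a (by simpa [Nat.lt_succ_iff] using ha)
    have e2 : ∑ a ∈ range c, v h z ((2 * h + 1) * b + (h + 1 + a)) = 0 := by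
      apply sum_eq_zero
      intro a ha
      rw [mem_range] at ha
      exact v_large z b _ (by omega) (by omega)
    rw [e1, e2, add_zero]
  rw [sum_range_add, sum_blocks, hfull D r h1 h2,
    sum_range_succ (fun b => ∑ a ∈ range (h + 1), u z (a + (2 * h + 1) * b)) D]
  congr 1
  apply sum_congr rfl
  intro b _
  exact hfull b _ (by omega) le_rfl

/-- `∑_{j < p D + r} v j` for `r ≤ h + 1` -/
theorem VV_small {h : ℕ} (z : ℤ) (D r : ℕ) (h1 : r ≤ h + 1) :
    ∑ j ∈ range ((2 * h + 1) * D + r), v h z j =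
      ∑ b ∈ range D, ∑ a ∈ range (h + 1), u z (a + (2 * h + 1) * b) +
        ∑ c ∈ range r, u z (c + (2 * h + 1) * D) := by
  rw [sum_range_add]
  congr 1
  · rcases Nat.eq_zero_or_pos D with h0 | h0
    · subst h0; simp
    · obtain ⟨D', rfl⟩ : ∃ D', D = D' + 1 := ⟨D - 1, by omega⟩
      rcases Nat.eq_zero_or_pos h with hh | hh
      · have := VV_large (h := h) z D' (2 * h + 1) (by omega) le_rfl
        rw [← this]; congr 1
      · have := VV_large (h := h) z D' (2 * h + 1) (by omega) le_rfl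
        rw [← this]; congr 1
  · apply sum_congr rfl
    intro c hc
    rw [mem_range] at hc
    exact v_small z D c (by omega)

theorem P_sum {p h : ℕ} (hp : p.Prime) (hph : p = 2 * h + 1) (hh : Odd h) {z : ℤ}
    (hz : (p : ℤ) ^ 2 ∣ 64 * z - 1) (D : ℕ) :
    (p : ℤ) ^ 2 ∣ ∑ b ∈ range D, ∑ a ∈ range (h + 1), u z (a + (2 * h + 1) * b) := by
  apply dvd_sum
  intro b _
  rw [← hph]
  exact P_zero hp hph hh hz b

theorem T_vv {p h : ℕ} (hp : p.Prime) (hph : p = 2 * h + 1) (hh : Odd h) {z : ℤ}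
    (hz : (p : ℤ) ^ 2 ∣ 64 * z - 1) (M : ℕ) : (p : ℤ) ^ 4 ∣ T (v h z) (v h z) (p * M) := by
  unfold T
  rw [sum_blocks]
  apply dvd_sum
  intro b hb
  rw [mem_range] at hb
  rw [hph, split_block]
  have e2 : ∑ s ∈ range h, v h z ((2 * h + 1) * b + (2 * h - s)) *
      ∑ j ∈ range ((2 * h + 1) * M - ((2 * h + 1) * b + (2 * h - s))), v h z j = 0 := by
    apply sum_eq_zero
    intro s hs
    rw [mem_range] at hs
    rw [v_large z b _ (by omega) (by omega), zero_mul]
  have e1 : ∑ a ∈ range (h + 1), v h z ((2 * h + 1) * b + a) *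
      ∑ j ∈ range ((2 * h + 1) * M - ((2 * h + 1) * b + a)), v h z j =
      (∑ a ∈ range (h + 1), u z (a + (2 * h + 1) * b)) *
        ∑ b ∈ range (M - 1 - b + 1), ∑ a ∈ range (h + 1), u z (a + (2 * h + 1) * b) := by
    rw [sum_mul]
    apply sum_congr rfl
    intro a ha
    have ha' : a ≤ h := by simpa [Nat.lt_succ_iff] using ha
    rw [v_small z b a ha']
    congr 1
    have hidx : (2 * h + 1) * M - ((2 * h + 1) * b + a) =
        (2 * h + 1) * (M - 1 - b) + (2 * h + 1 - a) := by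
      obtain ⟨c, rfl⟩ : ∃ c, M = b + 1 + c := ⟨M - (b + 1), by omega⟩
      rw [show b + 1 + c - 1 - b = c by omega]
      have : (2 * h + 1) * (b + 1 + c) = (2 * h + 1) * b + ((2 * h + 1) * c + (2 * h + 1)) := by ring
      omega
    rw [hidx]
    exact VV_large z _ _ (by omega) (by omega)
  rw [e1, e2, add_zero, ← hph, show (p : ℤ) ^ 4 = (p : ℤ) ^ 2 * (p : ℤ) ^ 2 by ring]
  apply mul_dvd_mul
  · exact P_zero hp hph hh hz b
  · have := P_sum hp hph hh hz (M - 1 - b + 1)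
    rwa [← hph] at this

theorem T_wv {p h : ℕ} [hp : Fact p.Prime] (hph : p = 2 * h + 1) (h4 : p % 4 = 3) (h3 : 3 < p)
    {z : ℤ} (hz : (p : ℤ) ^ 2 ∣ 64 * z - 1) (M : ℕ) :
    (p : ℤ) ^ 4 ∣ T (w h z) (v h z) (p * M) := by
  have hh : Odd h := by rw [Nat.odd_iff]; omega
  unfold T
  rw [sum_blocks]
  apply dvd_sum
  intro b hb
  rw [mem_range] at hb
  rw [hph, split_block]
  have e2 : ∑ a ∈ range (h + 1), w h z ((2 * h + 1) * b + a) *
      ∑ j ∈ range ((2 * h + 1) * M - ((2 * h + 1) * b + a)), v h z j = 0 := by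
    apply sum_eq_zero
    intro a ha
    have ha' : a ≤ h := by simpa [Nat.lt_succ_iff] using ha
    rw [w_small z b a ha', zero_mul]
  have e1 : ∑ s ∈ range h, w h z ((2 * h + 1) * b + (2 * h - s)) *
      ∑ j ∈ range ((2 * h + 1) * M - ((2 * h + 1) * b + (2 * h - s))), v h z j =
      (∑ s ∈ range h, u z ((2 * h + 1) * b + (2 * h - s)) *
        ∑ b ∈ range (M - 1 - b), ∑ a ∈ range (h + 1), u z (a + (2 * h + 1) * b)) +
      ∑ s ∈ range h, u z ((2 * h + 1) * b + (2 * h - s)) *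
        ∑ c ∈ range (s + 1), u z (c + (2 * h + 1) * (M - 1 - b)) := by
    rw [← sum_add_distrib]
    apply sum_congr rfl
    intro s hs
    rw [mem_range] at hs
    rw [w_large z b _ (by omega) (by omega), ← mul_add]
    congr 1
    have hidx : (2 * h + 1) * M - ((2 * h + 1) * b + (2 * h - s)) =
        (2 * h + 1) * (M - 1 - b) + (s + 1) := by
      obtain ⟨c, rfl⟩ : ∃ c, M = b + 1 + c := ⟨M - (b + 1), by omega⟩
      rw [show b + 1 + c - 1 - b = c by omega]
      have : (2 * h + 1) * (b + 1 + c) = (2 * h + 1) * b + ((2 * h + 1) * c + (2 * h + 1)) := by ring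
      omega
    rw [hidx]
    exact VV_small z _ _ (by omega)
  rw [e1, e2, zero_add]
  apply dvd_add
  · apply dvd_sum
    intro s hs
    rw [mem_range] at hs
    have hb1 : (p : ℤ) ∣ CL.b ((2 * h + 1) * b + (2 * h - s)) := by
      have := b_dvd hp.out hph b (2 * h - s) (by omega) (by omega)
      rw [add_comm] at this
      rw [← hph]
      exact this
    rw [← hph] at hb1 ⊢
    have hP := P_sum hp.out hph hh hz (M - 1 - b)
    rw [← hph] at hP
    rw [u_eq_g hb1]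
    obtain ⟨r, hr⟩ := hP
    rw [hr]
    exact ⟨p * g p z (p * b + (2 * h - s)) * r, by ring⟩
  · have hz1 : (p : ℤ) ∣ 64 * z - 1 := (Dvd.intro_left ((p : ℤ)) (by ring)).trans hz
    have := mixed hph h4 h3 hz1 b (M - 1 - b)
    rw [← hph]
    have h2h : p - 1 = 2 * h := by omega
    rw [h2h] at this
    exact this

theorem T_ww {p h : ℕ} [hp : Fact p.Prime] (hph : p = 2 * h + 1)
    {z : ℤ} (N : ℕ) : (p : ℤ) ^ 4 ∣ T (w h z) (w h z) N := by
  have hw : ∀ i, (p : ℤ) ^ 3 ∣ w h z i := by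
    intro i
    unfold w
    split_ifs with hi
    · exact dvd_zero _
    · have hb1 := b_dvd hp.out hph (i / p) (i % p) (by rw [hph]; omega)
        (Nat.mod_lt _ hp.out.pos)
      rw [Nat.mod_add_div] at hb1
      rw [u_eq_g hb1]
      exact Dvd.intro _ rfl
  unfold T
  apply dvd_sum
  intro i _
  have h6 : (p : ℤ) ^ 6 ∣ w h z i * ∑ j ∈ range (N - i), w h z j := by
    rw [show (p : ℤ) ^ 6 = (p : ℤ) ^ 3 * (p : ℤ) ^ 3 by ring]
    exact mul_dvd_mul (hw i) (dvd_sum fun j _ => hw j)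
  exact (pow_dvd_pow _ (by norm_num)).trans h6

theorem main_int {p : ℕ} [hp : Fact p.Prime] (h4 : p % 4 = 3) (h3 : 3 < p)
    {z : ℤ} (hz : (p : ℤ) ^ 2 ∣ 64 * z - 1) (M : ℕ) :
    (p : ℤ) ^ 4 ∣ ∑ k ∈ range (p * M), ∑ j ∈ range (k + 1), u z j * u z (k - j) := by
  obtain ⟨h, hph⟩ : ∃ h, p = 2 * h + 1 := ⟨(p - 1) / 2, by omega⟩
  have hh : Odd h := by rw [Nat.odd_iff]; omega
  have h1 := T_vv hp.out hph hh hz M
  have h2 := T_wv hph h4 h3 hz M
  have h5 := T_ww (p := p) hph (z := z) (p * M)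
  have e : T (u z) (u z) (p * M) = T (v h z) (v h z) (p * M) + T (v h z) (w h z) (p * M) +
      T (w h z) (v h z) (p * M) + T (w h z) (w h z) (p * M) := by
    rw [← T_add]
    rw [← u_eq h z]
  rw [conv_eq, e, T_comm (v h z) (w h z)]
  exact dvd_add (dvd_add (dvd_add h1 h2) h2) h5

/-- `a k = ∑_j C(2j,j)^3 C(2k-2j,k-j)^3` -/
def a (k : ℕ) : ℕ :=
  ∑ j ∈ range (k + 1), Nat.choose (2 * j) j ^ 3 * Nat.choose (2 * k - 2 * j) (k - j) ^ 3

theorem main_nat {p : ℕ} [hp : Fact p.Prime] (h4 : p % 4 = 3) (h3 : 3 < p) (M : ℕ) :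
    (p : ℤ) ^ 4 ∣ ∑ k ∈ range (p * M), (a k : ℤ) * 64 ^ (p * M - k) := by
  have hpp : Prime (p : ℤ) := Nat.prime_iff_prime_int.mp hp.out
  have h2 : ¬ (p : ℤ) ∣ 2 := by
    intro hd
    have := Nat.le_of_dvd (by norm_num) (Int.natCast_dvd_natCast.mp
      (by exact_mod_cast hd : ((p : ℕ) : ℤ) ∣ ((2 : ℕ) : ℤ)))
    omega
  have hcop : IsCoprime ((p : ℤ) ^ 4) 64 := by
    have := IsCoprime.pow (m := 4) (n := 6) ((Prime.coprime_iff_not_dvd hpp).mpr h2)
    norm_num at this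
    exact this
  obtain ⟨y, z, hyz⟩ := hcop
  have hz4 : (p : ℤ) ^ 4 ∣ 64 * z - 1 := ⟨-y, by linear_combination hyz⟩
  have hz2 : (p : ℤ) ^ 2 ∣ 64 * z - 1 := (pow_dvd_pow _ (by norm_num)).trans hz4
  have hmain := main_int h4 h3 hz2 M
  have ha : ∀ k, ∑ j ∈ range (k + 1), u z j * u z (k - j) = (a k : ℤ) * z ^ k := by
    intro k
    unfold a
    push_cast
    rw [sum_mul]
    apply sum_congr rfl
    intro j hj
    have hj' : j ≤ k := by simpa [Nat.lt_succ_iff] using hj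
    unfold u b
    rw [Nat.centralBinom_eq_two_mul_choose, Nat.centralBinom_eq_two_mul_choose,
      Nat.mul_sub]
    have : z ^ k = z ^ j * z ^ (k - j) := by rw [← pow_add]; congr 1; omega
    rw [this]
    ring
  rw [sum_congr rfl fun k _ => ha k] at hmain
  have hterm : ∀ k ∈ range (p * M), (p : ℤ) ^ 4 ∣
      (a k : ℤ) * 64 ^ (p * M - k) - 64 ^ (p * M) * ((a k : ℤ) * z ^ k) := by
    intro k hk
    rw [mem_range] at hk
    have h1 : (p : ℤ) ^ 4 ∣ (64 * z) ^ k - 1 := by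
      have := sub_dvd_pow_sub_pow (64 * z) 1 k
      rw [one_pow] at this
      exact hz4.trans this
    obtain ⟨r, hr⟩ := h1
    have e64 : (64 : ℤ) ^ (p * M) = 64 ^ (p * M - k) * 64 ^ k := by
      rw [← pow_add, Nat.sub_add_cancel hk.le]
    rw [mul_pow] at hr
    refine ⟨-((a k : ℤ) * 64 ^ (p * M - k) * r), ?_⟩
    rw [e64]
    linear_combination (-(a k : ℤ) * 64 ^ (p * M - k)) * hr
  have hs := dvd_sum hterm
  rw [sum_sub_distrib, ← mul_sum] at hs
  have := dvd_add hs (hmain.mul_left (64 ^ (p * M)))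
  exact dvd_eq' this (by ring)

/-- the rational sum -/
def S (N : ℕ) : ℚ := ∑ k ∈ range N, (a k : ℚ) / 64 ^ k

theorem main_rat {p : ℕ} (hp : p.Prime) (h4 : p % 4 = 3) (h3 : 3 < p) (M : ℕ) :
    (p : ℤ) ^ 4 ∣ (S (p * M)).num := by
  have : Fact p.Prime := ⟨hp⟩
  have hpp : Prime (p : ℤ) := Nat.prime_iff_prime_int.mp hp
  have h := main_nat h4 h3 M
  have h2 : ¬ (p : ℤ) ∣ 2 := by
    intro hd
    have := Nat.le_of_dvd (by norm_num) (Int.natCast_dvd_natCast.mp
      (by exact_mod_cast hd : ((p : ℕ) : ℤ) ∣ ((2 : ℕ) : ℤ)))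
    omega
  have hcop : IsCoprime ((p : ℤ) ^ 4) (64 ^ (p * M)) := by
    have := IsCoprime.pow (m := 4) (n := 6 * (p * M)) ((Prime.coprime_iff_not_dvd hpp).mpr h2)
    rw [pow_mul (2 : ℤ) 6 (p * M)] at this
    norm_num at this
    exact this
  apply hcop.dvd_of_dvd_mul_left
  have hS : S (p * M) * 64 ^ (p * M) =
      ((∑ k ∈ range (p * M), (a k : ℤ) * 64 ^ (p * M - k) : ℤ) : ℚ) := by
    unfold S
    push_cast
    rw [sum_mul]
    apply sum_congr rfl
    intro k hk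
    rw [mem_range] at hk
    have e64 : (64 : ℚ) ^ (p * M) = 64 ^ (p * M - k) * 64 ^ k := by
      rw [← pow_add, Nat.sub_add_cancel hk.le]
    rw [e64]
    field_simp
  have hnum : ((64 ^ (p * M) * (S (p * M)).num : ℤ) : ℚ) =
      (((∑ k ∈ range (p * M), (a k : ℤ) * 64 ^ (p * M - k)) * (S (p * M)).den : ℤ) : ℚ) := by
    rw [Int.cast_mul, Int.cast_mul, ← hS]
    have hd := Rat.num_div_den (S (p * M))
    have hd0 : ((S (p * M)).den : ℚ) ≠ 0 := by exact_mod_cast (S (p * M)).den_nz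
    have : ((S (p * M)).num : ℚ) = S (p * M) * ((S (p * M)).den : ℚ) := by
      rw [← Rat.mul_den_eq_num]
    push_cast
    rw [this]
    ring
  have hnum' : 64 ^ (p * M) * (S (p * M)).num =
      (∑ k ∈ range (p * M), (a k : ℤ) * 64 ^ (p * M - k)) * (S (p * M)).den := by
    exact_mod_cast hnum
  rw [hnum']
  exact h.mul_right _

end Pool.Agent.R443.EE
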