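import Mathlib

/-!
Certificates for the alternating sums of squares of binomial coefficients.
-/

set_option autoImplicit false

namespace Pool.Agent.R443.FT

open Finset

/-- `F j n = sum_(k<n) (-1)^k C(k,2j)^2`. -/
def F (j n : ℕ) : ℤ := ∑ k ∈ range n, (-1) ^ k * ((Nat.choose k (2 * j) : ℕ) : ℤ) ^ 2

/-- `P j n = sum_(k<n) (-1)^k (2k-(2j-1)) C(k,2j)^2`. -/
def P (j n : ℕ) : ℤ :=
  ∑ k ∈ range n, (-1) ^ k * ((2 * (k : ℤ) - (2 * (j : ℤ) - 1)) *
    ((Nat.choose k (2 * j) : ℕ) : ℤ) ^ 2)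

theorem rel1 (n m : ℕ) :
    ((m : ℤ) + 1) * (m + 2) * ((Nat.choose (n + 1) (m + 2) : ℕ) : ℤ) =
      ((n : ℤ) + 1) * ((n : ℤ) - m) * ((Nat.choose n m : ℕ) : ℤ) := by
  have h1 := Nat.add_one_mul_choose_eq n (m + 1)
  have h1' : ((n : ℤ) + 1) * ((Nat.choose n (m + 1) : ℕ) : ℤ) =
      ((Nat.choose (n + 1) (m + 2) : ℕ) : ℤ) * ((m : ℤ) + 2) := by
    have : ((((n + 1) * Nat.choose n (m + 1) : ℕ)) : ℤ) =
      ((Nat.choose (n + 1) (m + 1 + 1) * (m + 1 + 1) : ℕ) : ℤ) := by exact_mod_cast h1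
    push_cast at this
    linear_combination this
  have h2 : ((m : ℤ) + 1) * ((Nat.choose n (m + 1) : ℕ) : ℤ) =
      ((n : ℤ) - m) * ((Nat.choose n m : ℕ) : ℤ) := by
    rcases Nat.lt_or_ge n m with h | h
    · rw [Nat.choose_eq_zero_of_lt (by omega : n < m + 1), Nat.choose_eq_zero_of_lt h]
      simp
    · have h3 := Nat.choose_succ_right_eq n m
      have h4 : ((Nat.choose n (m + 1) * (m + 1) : ℕ) : ℤ) =
        ((Nat.choose n m * (n - m) : ℕ) : ℤ) := by exact_mod_cast h3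
      push_cast [Nat.cast_sub h] at h4
      linear_combination h4
  linear_combination (-((m : ℤ) + 1)) * h1' + ((n : ℤ) + 1) * h2

theorem rel2 (n m : ℕ) :
    ((n : ℤ) + 1 - m) * ((Nat.choose (n + 1) m : ℕ) : ℤ) =
      ((n : ℤ) + 1) * ((Nat.choose n m : ℕ) : ℤ) := by
  rcases Nat.lt_or_ge (n + 1) m with h | h
  · rw [Nat.choose_eq_zero_of_lt h, Nat.choose_eq_zero_of_lt (by omega : n < m)]
    simp
  · rcases Nat.eq_or_lt_of_le h with h' | h'
    · subst h'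
      rw [Nat.choose_eq_zero_of_lt (by omega : n < n + 1)]
      push_cast
      ring
    · have h1 := Nat.add_one_mul_choose_eq n m
      have h2 := Nat.choose_succ_right_eq (n + 1) m
      have h3 : (((n + 1) * Nat.choose n m : ℕ) : ℤ) =
        ((Nat.choose (n + 1) (m + 1) * (m + 1) : ℕ) : ℤ) := by exact_mod_cast h1
      have h4 : ((Nat.choose (n + 1) (m + 1) * (m + 1) : ℕ) : ℤ) =
        ((Nat.choose (n + 1) m * (n + 1 - m) : ℕ) : ℤ) := by exact_mod_cast h2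
      push_cast [Nat.cast_sub h] at h3 h4
      linear_combination -h3 - h4

/-- First certificate. -/
theorem certF (j n : ℕ) :
    (2 * (j : ℤ) + 1) ^ 2 * ((j : ℤ) + 1) * (8 * ((j : ℤ) + 1) *
      (F (j + 1) n + (-1) ^ n * ((Nat.choose n (2 * (j + 1)) : ℕ) : ℤ) ^ 2)
        + (2 * (j : ℤ) + 1) * F j n) =
    (-1) ^ n * (((n : ℤ) - 2 * j) ^ 2 * (((n : ℤ) - j) ^ 2 - (3 * (j : ℤ) + 2) * ((j : ℤ) + 1)) *
      ((Nat.choose n (2 * j) : ℕ) : ℤ) ^ 2) := by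
  induction n with
  | zero =>
    rcases Nat.eq_zero_or_pos j with h | h
    · subst h
      simp [F]
    · rw [Nat.choose_eq_zero_of_lt (by omega : 0 < 2 * j),
        Nat.choose_eq_zero_of_lt (by omega : 0 < 2 * (j + 1))]
      simp [F]
  | succ n ih =>
    have e1 := rel1 n (2 * j)
    have e2 := rel2 n (2 * j)
    rw [show 2 * j + 2 = 2 * (j + 1) by ring] at e1
    have hF1 : F (j + 1) (n + 1) = F (j + 1) n +
        (-1) ^ n * ((Nat.choose n (2 * (j + 1)) : ℕ) : ℤ) ^ 2 := by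
      unfold F
      rw [Finset.sum_range_succ]
    have hF2 : F j (n + 1) = F j n + (-1) ^ n * ((Nat.choose n (2 * j) : ℕ) : ℤ) ^ 2 := by
      unfold F
      rw [Finset.sum_range_succ]
    rw [hF1, hF2]
    push_cast at e1 e2 ih ⊢
    generalize ((Nat.choose n (2 * (j + 1)) : ℕ) : ℤ) = x1 at *
    generalize ((Nat.choose (n + 1) (2 * (j + 1)) : ℕ) : ℤ) = x2 at *
    generalize ((Nat.choose n (2 * j) : ℕ) : ℤ) = x3 at *
    generalize ((Nat.choose (n + 1) (2 * j) : ℕ) : ℤ) = x4 at *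
    have q1 : ((2 * (j : ℤ) + 1) * (2 * (j : ℤ) + 2) * x2) ^ 2 =
      (((n : ℤ) + 1) * ((n : ℤ) - 2 * j) * x3) ^ 2 := by rw [e1]
    have q2 : (((n : ℤ) + 1 - 2 * j) * x4) ^ 2 = (((n : ℤ) + 1) * x3) ^ 2 := by rw [e2]
    linear_combination ih - 2 * (-1) ^ n * q1 + (-1) ^ n * (((n : ℤ) + 1 - j) ^ 2 -
      (3 * (j : ℤ) + 2) * ((j : ℤ) + 1)) * q2

/-- Second certificate. -/
theorem certP (j n : ℕ) :
    2 * (2 * (j : ℤ) + 1) * ((j : ℤ) + 1) ^ 2 * (2 * (2 * (j : ℤ) + 1) *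
      (P (j + 1) n + (-1) ^ n * ((2 * (n : ℤ) - (2 * (j : ℤ) + 1)) *
        ((Nat.choose n (2 * (j + 1)) : ℕ) : ℤ) ^ 2))
        + ((j : ℤ) + 1) * P j n) =
    (-1) ^ n * (((n : ℤ) - 2 * j) ^ 2 * (((n : ℤ) - j) * (((n : ℤ) - j) ^ 2 -
      3 * ((j : ℤ) + 1) ^ 2)) * ((Nat.choose n (2 * j) : ℕ) : ℤ) ^ 2) := by
  induction n with
  | zero =>
    rcases Nat.eq_zero_or_pos j with h | h
    · subst h
      simp [P]
    · rw [Nat.choose_eq_zero_of_lt (by omega : 0 < 2 * j),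
        Nat.choose_eq_zero_of_lt (by omega : 0 < 2 * (j + 1))]
      simp [P]
  | succ n ih =>
    have e1 := rel1 n (2 * j)
    have e2 := rel2 n (2 * j)
    rw [show 2 * j + 2 = 2 * (j + 1) by ring] at e1
    have hF1 : P (j + 1) (n + 1) = P (j + 1) n +
        (-1) ^ n * ((2 * (n : ℤ) - (2 * (j : ℤ) + 1)) *
          ((Nat.choose n (2 * (j + 1)) : ℕ) : ℤ) ^ 2) := by
      unfold P
      rw [Finset.sum_range_succ]
      push_cast
      ring
    have hF2 : P j (n + 1) = P j n + (-1) ^ n * ((2 * (n : ℤ) - (2 * (j : ℤ) - 1)) *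
        ((Nat.choose n (2 * j) : ℕ) : ℤ) ^ 2) := by
      unfold P
      rw [Finset.sum_range_succ]
    rw [hF1, hF2]
    push_cast at e1 e2 ih ⊢
    generalize ((Nat.choose n (2 * (j + 1)) : ℕ) : ℤ) = x1 at *
    generalize ((Nat.choose (n + 1) (2 * (j + 1)) : ℕ) : ℤ) = x2 at *
    generalize ((Nat.choose n (2 * j) : ℕ) : ℤ) = x3 at *
    generalize ((Nat.choose (n + 1) (2 * j) : ℕ) : ℤ) = x4 at *
    have q1 : ((2 * (j : ℤ) + 1) * (2 * (j : ℤ) + 2) * x2) ^ 2 =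
      (((n : ℤ) + 1) * ((n : ℤ) - 2 * j) * x3) ^ 2 := by rw [e1]
    have q2 : (((n : ℤ) + 1 - 2 * j) * x4) ^ 2 = (((n : ℤ) + 1) * x3) ^ 2 := by rw [e2]
    linear_combination ih - (2 * (n : ℤ) - 2 * j + 1) * (-1) ^ n * q1 +
      (-1) ^ n * (((n : ℤ) + 1 - j) * (((n : ℤ) + 1 - j) ^ 2 - 3 * ((j : ℤ) + 1) ^ 2)) * q2

/-- `U n = sum_(k<n) C(n-1+k,k)^2` for `n = m+1`. -/
def U (m : ℕ) : ℤ := ∑ k ∈ range (m + 1), ((Nat.choose (m + k) k : ℕ) : ℤ) ^ 2

theorem wzU (m K : ℕ) :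
    ∑ k ∈ range (K + 1), (8 * (2 * (m : ℤ) + 3) * ((Nat.choose (m + 1 + k) k : ℕ) : ℤ) ^ 2 -
      4 * ((m : ℤ) + 1) * ((Nat.choose (m + k) k : ℕ) : ℤ) ^ 2) =
    (12 * ((m : ℤ) + 1) + 8 * K + 8) * ((Nat.choose (m + 1 + K) K : ℕ) : ℤ) ^ 2 := by
  induction K with
  | zero => simp; ring
  | succ K ih =>
    rw [Finset.sum_range_succ, ih]
    have e1 : ((Nat.choose (m + 1 + (K + 1)) (K + 1) : ℕ) : ℤ) =
        ((Nat.choose (m + (K + 1)) (K + 1) : ℕ) : ℤ) + ((Nat.choose (m + 1 + K) K : ℕ) : ℤ) := by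
      have h := Nat.choose_succ_succ (m + (K + 1)) K
      rw [show m + 1 + (K + 1) = (m + (K + 1)).succ by
        show m + 1 + (K + 1) = m + (K + 1) + 1
        ring, h, show m + 1 + K = m + (K + 1) by ring]
      push_cast
      ring
    have e2 : ((K : ℤ) + 1) * ((Nat.choose (m + (K + 1)) (K + 1) : ℕ) : ℤ) =
        ((m : ℤ) + 1) * ((Nat.choose (m + 1 + K) K : ℕ) : ℤ) := by
      have h := Nat.choose_succ_right_eq (m + (K + 1)) K
      rw [show m + (K + 1) - K = m + 1 by omega] at h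
      have h' : ((Nat.choose (m + (K + 1)) (K + 1) * (K + 1) : ℕ) : ℤ) =
        ((Nat.choose (m + (K + 1)) K * (m + 1) : ℕ) : ℤ) := by exact_mod_cast h
      rw [show m + 1 + K = m + (K + 1) by ring]
      push_cast at h'
      linear_combination h'
    rw [e1]
    push_cast
    generalize ((Nat.choose (m + (K + 1)) (K + 1) : ℕ) : ℤ) = A at *
    generalize ((Nat.choose (m + 1 + K) K : ℕ) : ℤ) = B at *
    linear_combination (-8 * A - 16 * B) * e2

/-- `T n = sum_(k<n) (21k+8) C(2k,k)^3`. -/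
def T (n : ℕ) : ℤ := ∑ k ∈ range n, (21 * (k : ℤ) + 8) * ((Nat.centralBinom k : ℕ) : ℤ) ^ 3

theorem T_eq (m : ℕ) :
    T (m + 1) = 4 * ((m : ℤ) + 1) * ((Nat.centralBinom (m + 1) : ℕ) : ℤ) * U m := by
  induction m with
  | zero => simp [T, U, Nat.centralBinom_eq_two_mul_choose]
  | succ m ih =>
    have h1 : T (m + 1 + 1) = T (m + 1) + (21 * ((m : ℤ) + 1) + 8) *
        ((Nat.centralBinom (m + 1) : ℕ) : ℤ) ^ 3 := by
      unfold T
      rw [Finset.sum_range_succ]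
      push_cast
      ring
    have h2 := wzU m (m + 1)
    rw [Finset.sum_sub_distrib, ← Finset.mul_sum, ← Finset.mul_sum] at h2
    have h3 : ∑ k ∈ range (m + 1 + 1), ((Nat.choose (m + k) k : ℕ) : ℤ) ^ 2 = U m +
        ((Nat.choose (m + (m + 1)) (m + 1) : ℕ) : ℤ) ^ 2 := by
      unfold U
      rw [Finset.sum_range_succ]
    have h4 : ∑ k ∈ range (m + 1 + 1), ((Nat.choose (m + 1 + k) k : ℕ) : ℤ) ^ 2 = U (m + 1) := rfl
    rw [h3, h4] at h2
    have h5 : ((Nat.choose (m + 1 + (m + 1)) (m + 1) : ℕ) : ℤ) =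
        ((Nat.centralBinom (m + 1) : ℕ) : ℤ) := by
      rw [Nat.centralBinom_eq_two_mul_choose, two_mul]
    have h6 : 2 * ((Nat.choose (m + (m + 1)) (m + 1) : ℕ) : ℤ) =
        ((Nat.centralBinom (m + 1) : ℕ) : ℤ) := by
      have := Nat.two_dvd_centralBinom_succ m
      have h7 : Nat.centralBinom (m + 1) = Nat.choose (m + (m + 1)) m +
          Nat.choose (m + (m + 1)) (m + 1) := by
        rw [Nat.centralBinom_eq_two_mul_choose, show 2 * (m + 1) = (m + (m + 1)) + 1 by ring,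
          Nat.choose_succ_succ]
      have h8 : Nat.choose (m + (m + 1)) m = Nat.choose (m + (m + 1)) (m + 1) := by
        rw [Nat.choose_symm_add]
      rw [h7, h8]
      push_cast
      ring
    have h9 : ((m : ℤ) + 2) * ((Nat.centralBinom (m + 1 + 1) : ℕ) : ℤ) =
        2 * (2 * (m : ℤ) + 3) * ((Nat.centralBinom (m + 1) : ℕ) : ℤ) := by
      have := Nat.succ_mul_centralBinom_succ (m + 1)
      have h' : (((m + 1 + 1) * Nat.centralBinom (m + 1 + 1) : ℕ) : ℤ) =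
        ((2 * (2 * (m + 1) + 1) * Nat.centralBinom (m + 1) : ℕ) : ℤ) := by exact_mod_cast this
      push_cast at h'
      linear_combination h'
    rw [h5] at h2
    rw [h1, ih]
    push_cast at h2 ⊢
    generalize ((Nat.centralBinom (m + 1 + 1) : ℕ) : ℤ) = C2 at *
    generalize ((Nat.centralBinom (m + 1) : ℕ) : ℤ) = C1 at *
    generalize ((Nat.choose (m + (m + 1)) (m + 1) : ℕ) : ℤ) = D at *
    generalize U (m + 1) = U2 at *
    generalize U m = U1 at *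
    have h10 : 4 * D ^ 2 = C1 ^ 2 := by rw [← h6]; ring
    linear_combination (-C1) * h2 - 4 * U2 * h9 - ((m : ℤ) + 1) * C1 * h10

end Pool.Agent.R443.FT
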