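import Pool.Agent.R443.FT1

/-!
The congruence modulo `p^2`.
-/

set_option autoImplicit false

namespace Pool.Agent.R443.FT

open Finset

theorem F_zero (n : ℕ) : 2 * F 0 n = 1 - (-1) ^ n := by
  induction n with
  | zero => simp [F]
  | succ n ih =>
    have : F 0 (n + 1) = F 0 n + (-1) ^ n := by
      unfold F
      rw [Finset.sum_range_succ]
      simp
    rw [this, mul_add, ih, pow_succ]
    ring

theorem P_zero (n : ℕ) : P 0 n = -((-1) ^ n * (n : ℤ)) := by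
  induction n with
  | zero => simp [P]
  | succ n ih =>
    have : P 0 (n + 1) = P 0 n + (-1) ^ n * (2 * (n : ℤ) + 1) := by
      unfold P
      rw [Finset.sum_range_succ]
      simp
    rw [this, ih, pow_succ]
    push_cast
    ring

theorem cb_succ (j : ℕ) : ((j : ℤ) + 1) * ((Nat.centralBinom (j + 1) : ℕ) : ℤ) =
    2 * (2 * (j : ℤ) + 1) * ((Nat.centralBinom j : ℕ) : ℤ) := by
  have := Nat.succ_mul_centralBinom_succ j
  have h' : (((j + 1) * Nat.centralBinom (j + 1) : ℕ) : ℤ) =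
    ((2 * (2 * j + 1) * Nat.centralBinom j : ℕ) : ℤ) := by exact_mod_cast this
  push_cast at h'
  linear_combination h'

theorem dvd_choose_p {p m : ℕ} (hp : p.Prime) (h0 : m ≠ 0) (h : m < p) :
    (p : ℤ) ∣ ((Nat.choose p m : ℕ) : ℤ) := by
  exact_mod_cast hp.dvd_choose_self h0 h

theorem not_dvd_nat {p m : ℕ} (h0 : m ≠ 0) (h : m < p) : ¬ (p : ℤ) ∣ (m : ℤ) := by
  intro h1
  have h2 : p ∣ m := by exact_mod_cast h1
  exact absurd (Nat.le_of_dvd (Nat.pos_of_ne_zero h0) h2) (by omega)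

theorem F_mod {p : ℕ} (hp : p.Prime) (hp2 : p ≠ 2) (j : ℕ) (hj : 2 * j < p) :
    (p : ℤ) ^ 2 ∣ 16 ^ j * F j p - (-1) ^ j * ((Nat.centralBinom j : ℕ) : ℤ) := by
  have hpp : Prime (p : ℤ) := Nat.prime_iff_prime_int.mp hp
  have hodd : (-1 : ℤ) ^ p = -1 := (hp.odd_of_ne_two hp2).neg_one_pow
  induction j with
  | zero =>
    have := F_zero p
    rw [hodd] at this
    have h1 : F 0 p = 1 := by linarith
    rw [h1]
    simp
  | succ j ih =>
    have ih := ih (by omega)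
    have hc := certF j p
    rw [hodd] at hc
    -- step modulo p^2
    have hE : (p : ℤ) ^ 2 ∣ ((Nat.choose p (2 * (j + 1)) : ℕ) : ℤ) ^ 2 :=
      pow_dvd_pow_of_dvd (dvd_choose_p hp (by omega) (by omega)) 2
    have hK : (p : ℤ) ^ 2 ∣ ((p : ℤ) - 2 * j) ^ 2 * ((Nat.choose p (2 * j) : ℕ) : ℤ) ^ 2 := by
      rcases Nat.eq_zero_or_pos j with h | h
      · subst h
        simp
      · exact Dvd.dvd.mul_left (pow_dvd_pow_of_dvd (dvd_choose_p hp (by omega) (by omega)) 2) _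
    obtain ⟨e, he⟩ := hE
    obtain ⟨k, hk⟩ := hK
    have h1 : (p : ℤ) ^ 2 ∣ (2 * (j : ℤ) + 1) ^ 2 * ((j : ℤ) + 1) *
        (8 * ((j : ℤ) + 1) * F (j + 1) p + (2 * (j : ℤ) + 1) * F j p) := by
      refine ⟨-(k * (((p : ℤ) - j) ^ 2 - (3 * (j : ℤ) + 2) * ((j : ℤ) + 1))) +
        (2 * (j : ℤ) + 1) ^ 2 * ((j : ℤ) + 1) * (8 * ((j : ℤ) + 1)) * e, ?_⟩
      linear_combination hc + (2 * (j : ℤ) + 1) ^ 2 * ((j : ℤ) + 1) * (8 * ((j : ℤ) + 1)) * he -
        (((p : ℤ) - j) ^ 2 - (3 * (j : ℤ) + 2) * ((j : ℤ) + 1)) * hk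
    have hn1 : ¬ (p : ℤ) ∣ (2 * (j : ℤ) + 1) := by
      have := not_dvd_nat (p := p) (m := 2 * j + 1) (by omega) (by omega)
      push_cast at this
      exact this
    have hn2 : ¬ (p : ℤ) ∣ ((j : ℤ) + 1) := by
      have := not_dvd_nat (p := p) (m := j + 1) (by omega) (by omega)
      push_cast at this
      exact this
    have hn3 : ¬ (p : ℤ) ∣ (2 * (j : ℤ) + 1) ^ 2 * ((j : ℤ) + 1) := by
      intro h
      rcases hpp.dvd_or_dvd h with h | h
      · exact hn1 (hpp.dvd_of_dvd_pow h)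
      · exact hn2 h
    have h2 := hpp.pow_dvd_of_dvd_mul_left 2 hn3 h1
    refine hpp.pow_dvd_of_dvd_mul_left 2 hn2 ?_
    obtain ⟨u, hu⟩ := h2
    obtain ⟨v, hv⟩ := ih
    have hcb := cb_succ j
    refine ⟨2 * 16 ^ j * u - 2 * (2 * (j : ℤ) + 1) * v, ?_⟩
    rw [pow_succ, pow_succ]
    linear_combination 2 * 16 ^ j * hu - 2 * (2 * (j : ℤ) + 1) * hv + (-1) ^ j * hcb

theorem P_mod {p : ℕ} (hp : p.Prime) (hp2 : p ≠ 2) (j : ℕ) (hj : 2 * j < p) :
    (p : ℤ) ^ 2 ∣ ((Nat.centralBinom j : ℕ) : ℤ) * P j p - (-1) ^ j * (p : ℤ) := by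
  have hpp : Prime (p : ℤ) := Nat.prime_iff_prime_int.mp hp
  have hodd : (-1 : ℤ) ^ p = -1 := (hp.odd_of_ne_two hp2).neg_one_pow
  induction j with
  | zero =>
    rw [P_zero, hodd]
    simp
  | succ j ih =>
    have ih := ih (by omega)
    have hc := certP j p
    rw [hodd] at hc
    have hE : (p : ℤ) ^ 2 ∣ ((Nat.choose p (2 * (j + 1)) : ℕ) : ℤ) ^ 2 :=
      pow_dvd_pow_of_dvd (dvd_choose_p hp (by omega) (by omega)) 2
    have hK : (p : ℤ) ^ 2 ∣ ((p : ℤ) - 2 * j) ^ 2 * ((Nat.choose p (2 * j) : ℕ) : ℤ) ^ 2 := by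
      rcases Nat.eq_zero_or_pos j with h | h
      · subst h
        simp
      · exact Dvd.dvd.mul_left (pow_dvd_pow_of_dvd (dvd_choose_p hp (by omega) (by omega)) 2) _
    obtain ⟨e, he⟩ := hE
    obtain ⟨k, hk⟩ := hK
    have h1 : (p : ℤ) ^ 2 ∣ 2 * (2 * (j : ℤ) + 1) * ((j : ℤ) + 1) ^ 2 *
        (2 * (2 * (j : ℤ) + 1) * P (j + 1) p + ((j : ℤ) + 1) * P j p) := by
      refine ⟨-(k * (((p : ℤ) - j) * (((p : ℤ) - j) ^ 2 - 3 * ((j : ℤ) + 1) ^ 2))) +
        2 * (2 * (j : ℤ) + 1) * ((j : ℤ) + 1) ^ 2 * (2 * (2 * (j : ℤ) + 1)) *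
          (2 * (p : ℤ) - (2 * (j : ℤ) + 1)) * e, ?_⟩
      linear_combination hc + 2 * (2 * (j : ℤ) + 1) * ((j : ℤ) + 1) ^ 2 *
        (2 * (2 * (j : ℤ) + 1)) * (2 * (p : ℤ) - (2 * (j : ℤ) + 1)) * he -
        (((p : ℤ) - j) * (((p : ℤ) - j) ^ 2 - 3 * ((j : ℤ) + 1) ^ 2)) * hk
    have hn1 : ¬ (p : ℤ) ∣ (2 * (j : ℤ) + 1) := by
      have := not_dvd_nat (p := p) (m := 2 * j + 1) (by omega) (by omega)
      push_cast at this
      exact this
    have hn2 : ¬ (p : ℤ) ∣ ((j : ℤ) + 1) := by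
      have := not_dvd_nat (p := p) (m := j + 1) (by omega) (by omega)
      push_cast at this
      exact this
    have hn0 : ¬ (p : ℤ) ∣ 2 := by
      have := not_dvd_nat (p := p) (m := 2) (by omega)
        (lt_of_le_of_ne hp.two_le (Ne.symm hp2))
      push_cast at this
      exact this
    have hn3 : ¬ (p : ℤ) ∣ 2 * (2 * (j : ℤ) + 1) * ((j : ℤ) + 1) ^ 2 := by
      intro h
      rcases hpp.dvd_or_dvd h with h | h
      · rcases hpp.dvd_or_dvd h with h | h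
        · exact hn0 h
        · exact hn1 h
      · exact hn2 (hpp.dvd_of_dvd_pow h)
    have h2 := hpp.pow_dvd_of_dvd_mul_left 2 hn3 h1
    refine hpp.pow_dvd_of_dvd_mul_left 2 hn2 ?_
    obtain ⟨u, hu⟩ := h2
    obtain ⟨v, hv⟩ := ih
    have hcb := cb_succ j
    refine ⟨((Nat.centralBinom j : ℕ) : ℤ) * u - ((j : ℤ) + 1) * v, ?_⟩
    rw [pow_succ]
    linear_combination ((Nat.centralBinom j : ℕ) : ℤ) * hu - ((j : ℤ) + 1) * hv +
      P (j + 1) p * hcb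

/-- The sequence `a(n)`. -/
def a (n : ℕ) : ℤ :=
  ∑ k ∈ range (n + 1), (-16) ^ k * ((Nat.choose n k : ℕ) : ℤ) ^ 2 *
    ((Nat.choose (n - k) k : ℕ) : ℤ) ^ 2

theorem choose_aux (n j : ℕ) : Nat.choose n j * Nat.choose (n - j) j =
    Nat.choose n (2 * j) * Nat.centralBinom j := by
  rcases Nat.lt_or_ge n (2 * j) with h | h
  · rw [Nat.choose_eq_zero_of_lt h]
    rcases Nat.lt_or_ge n j with h' | h'
    · rw [Nat.choose_eq_zero_of_lt h']
      simp
    · rw [Nat.choose_eq_zero_of_lt (by omega : n - j < j)]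
      simp
  · rw [Nat.centralBinom_eq_two_mul_choose, Nat.choose_mul (by omega : j ≤ 2 * j)]
    rw [show 2 * j - j = j by omega]

theorem a_eq (n J : ℕ) (h : n < 2 * J) :
    a n = ∑ j ∈ range J, ((Nat.centralBinom j : ℕ) : ℤ) ^ 2 * (-16) ^ j *
      ((Nat.choose n (2 * j) : ℕ) : ℤ) ^ 2 := by
  have key : ∀ M : ℕ, n < 2 * M → ∑ k ∈ range M, (-16) ^ k * ((Nat.choose n k : ℕ) : ℤ) ^ 2 *
      ((Nat.choose (n - k) k : ℕ) : ℤ) ^ 2 = ∑ k ∈ range (n + 1 + J), (-16) ^ k *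
      ((Nat.choose n k : ℕ) : ℤ) ^ 2 * ((Nat.choose (n - k) k : ℕ) : ℤ) ^ 2 := by
    intro M hM
    have hz : ∀ k, n < 2 * k → (-16) ^ k * ((Nat.choose n k : ℕ) : ℤ) ^ 2 *
      ((Nat.choose (n - k) k : ℕ) : ℤ) ^ 2 = 0 := by
      intro k hk
      have := choose_aux n k
      rw [Nat.choose_eq_zero_of_lt hk, zero_mul] at this
      have h' : ((Nat.choose n k : ℕ) : ℤ) * ((Nat.choose (n - k) k : ℕ) : ℤ) = 0 := by
        exact_mod_cast this
      calc (-16 : ℤ) ^ k * ((Nat.choose n k : ℕ) : ℤ) ^ 2 *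
          ((Nat.choose (n - k) k : ℕ) : ℤ) ^ 2 =
          (-16 : ℤ) ^ k * (((Nat.choose n k : ℕ) : ℤ) * ((Nat.choose (n - k) k : ℕ) : ℤ)) ^ 2 := by
            ring
        _ = 0 := by rw [h']; ring
    rcases Nat.le_total M (n + 1 + J) with h1 | h1
    · refine Finset.sum_subset (Finset.range_mono h1) ?_
      intro k _ hk
      rw [Finset.mem_range, not_lt] at hk
      exact hz k (by omega)
    · symm
      refine Finset.sum_subset (Finset.range_mono h1) ?_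
      intro k _ hk
      rw [Finset.mem_range, not_lt] at hk
      exact hz k (by omega)
  have h1 : a n = ∑ k ∈ range J, (-16) ^ k * ((Nat.choose n k : ℕ) : ℤ) ^ 2 *
      ((Nat.choose (n - k) k : ℕ) : ℤ) ^ 2 := by
    rw [key J h, ← key (n + 1) (by omega)]
    rfl
  rw [h1]
  refine Finset.sum_congr rfl ?_
  intro j _
  have := choose_aux n j
  have h' : ((Nat.choose n j : ℕ) : ℤ) * ((Nat.choose (n - j) j : ℕ) : ℤ) =
    ((Nat.choose n (2 * j) : ℕ) : ℤ) * ((Nat.centralBinom j : ℕ) : ℤ) := by exact_mod_cast this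
  calc (-16 : ℤ) ^ j * ((Nat.choose n j : ℕ) : ℤ) ^ 2 *
      ((Nat.choose (n - j) j : ℕ) : ℤ) ^ 2 =
      (-16 : ℤ) ^ j * (((Nat.choose n j : ℕ) : ℤ) * ((Nat.choose (n - j) j : ℕ) : ℤ)) ^ 2 := by
        ring
    _ = _ := by rw [h']; ring

/-- The weighted alternating sum. -/
def S (n : ℕ) : ℤ := ∑ k ∈ range n, (-1) ^ k * (42 * (k : ℤ) + 37) * a k

theorem S_eq (n J : ℕ) (h : n ≤ 2 * J) :
    S n = ∑ j ∈ range J, ((Nat.centralBinom j : ℕ) : ℤ) ^ 2 * (-16) ^ j *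
      (21 * P j n + 2 * (21 * (j : ℤ) + 8) * F j n) := by
  have h1 : S n = ∑ k ∈ range n, ∑ j ∈ range J, (-1) ^ k * (42 * (k : ℤ) + 37) *
      (((Nat.centralBinom j : ℕ) : ℤ) ^ 2 * (-16) ^ j *
      ((Nat.choose k (2 * j) : ℕ) : ℤ) ^ 2) := by
    unfold S
    refine Finset.sum_congr rfl ?_
    intro k hk
    rw [Finset.mem_range] at hk
    rw [a_eq k J (by omega), Finset.mul_sum]
  rw [h1, Finset.sum_comm]
  refine Finset.sum_congr rfl ?_
  intro j _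
  unfold P F
  rw [Finset.mul_sum, Finset.mul_sum, ← Finset.sum_add_distrib, Finset.mul_sum]
  refine Finset.sum_congr rfl ?_
  intro k _
  ring

theorem T_mod {p : ℕ} (hp : p.Prime) : (p : ℤ) ^ 2 ∣ T p - 8 * (p : ℤ) := by
  have : Fact p.Prime := ⟨hp⟩
  obtain ⟨m, rfl⟩ : ∃ m, p = m + 1 := ⟨p - 1, by have := hp.pos; omega⟩
  rw [T_eq]
  have h1 : (((m + 1 : ℕ)) : ℤ) ∣ ((Nat.centralBinom (m + 1) : ℕ) : ℤ) - 2 := by
    have h := Choose.choose_modEq_choose_mod_mul_choose_div_nat (n := 2 * (m + 1)) (k := m + 1)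
      (p := m + 1)
    rw [Nat.mul_mod_left, Nat.mod_self, Nat.mul_div_cancel _ hp.pos, Nat.div_self hp.pos,
      ← Nat.centralBinom_eq_two_mul_choose] at h
    have h2 : Nat.centralBinom (m + 1) ≡ 2 [MOD (m + 1)] := by simpa using h
    exact (Int.natCast_modEq_iff.mpr h2).symm.dvd
  have h2 : (((m + 1 : ℕ)) : ℤ) ∣ U m - 1 := by
    unfold U
    rw [Finset.sum_range_succ']
    simp only [Nat.add_zero, Nat.choose_zero_right, Nat.cast_one, one_pow, add_sub_cancel_right]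
    refine Finset.dvd_sum ?_
    intro k hk
    rw [Finset.mem_range] at hk
    refine Dvd.dvd.mul_left ?_ _ |>.trans (dvd_of_eq (sq _).symm)
    have : m + 1 ∣ Nat.choose (m + (k + 1)) (k + 1) :=
      hp.dvd_choose (by omega) (by omega) (by omega)
    exact_mod_cast this
  obtain ⟨c, hc⟩ := h1
  obtain ⟨u, hu⟩ := h2
  refine ⟨4 * c * U m + 8 * u, ?_⟩
  push_cast at hc hu ⊢
  linear_combination 4 * ((m : ℤ) + 1) * U m * hc + 8 * ((m : ℤ) + 1) * hu

theorem T_half {p J : ℕ} (hp : p.Prime) (hJ : p < 2 * J) (hJp : J ≤ p) :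
    (p : ℤ) ^ 2 ∣ T p - T J := by
  obtain ⟨d, rfl⟩ := Nat.exists_eq_add_of_le hJp
  unfold T
  rw [Finset.sum_range_add, add_sub_cancel_left]
  refine Finset.dvd_sum ?_
  intro k hk
  rw [Finset.mem_range] at hk
  refine Dvd.dvd.mul_left ?_ _
  have h1 : (J + d) ∣ Nat.centralBinom (J + k) := by
    rw [Nat.centralBinom_eq_two_mul_choose]
    exact hp.dvd_choose (by omega) (by omega) (by omega)
  have h2 : (((J + d : ℕ)) : ℤ) ∣ ((Nat.centralBinom (J + k) : ℕ) : ℤ) := by exact_mod_cast h1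
  exact (pow_dvd_pow_of_dvd h2 2).trans (pow_dvd_pow _ (by norm_num))

end Pool.Agent.R443.FT
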