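import Pool.Agent.R443.FT2

/-!
Divisibility of the weighted sum by `n`.
-/

set_option autoImplicit false

namespace Pool.Agent.R443.FT

open Finset

theorem r1 (n j : ℕ) : (2 * (j : ℤ) + 1) * ((Nat.choose n (2 * j + 1) : ℕ) : ℤ) =
    ((n : ℤ) - 2 * j) * ((Nat.choose n (2 * j) : ℕ) : ℤ) := by
  rcases Nat.lt_or_ge n (2 * j) with h | h
  · rw [Nat.choose_eq_zero_of_lt (by omega : n < 2 * j + 1), Nat.choose_eq_zero_of_lt h]
    simp
  · have h3 := Nat.choose_succ_right_eq n (2 * j)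
    have h4 : ((Nat.choose n (2 * j + 1) * (2 * j + 1) : ℕ) : ℤ) =
      ((Nat.choose n (2 * j) * (n - 2 * j) : ℕ) : ℤ) := by exact_mod_cast h3
    push_cast [Nat.cast_sub h] at h4
    linear_combination h4

theorem r2 (n j : ℕ) : (2 * (j : ℤ) + 2) * ((Nat.choose n (2 * (j + 1)) : ℕ) : ℤ) =
    ((n : ℤ) - 2 * j - 1) * ((Nat.choose n (2 * j + 1) : ℕ) : ℤ) := by
  rw [show 2 * (j + 1) = (2 * j + 1) + 1 by ring]
  rcases Nat.lt_or_ge n (2 * j + 1) with h | h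
  · rw [Nat.choose_eq_zero_of_lt (by omega : n < 2 * j + 1 + 1), Nat.choose_eq_zero_of_lt h]
    simp
  · have h3 := Nat.choose_succ_right_eq n (2 * j + 1)
    have h4 : ((Nat.choose n (2 * j + 1 + 1) * (2 * j + 1 + 1) : ℕ) : ℤ) =
      ((Nat.choose n (2 * j + 1) * (n - (2 * j + 1)) : ℕ) : ℤ) := by exact_mod_cast h3
    push_cast [Nat.cast_sub h] at h4
    linear_combination h4

/-- The inhomogeneous term. -/
def X (j n : ℕ) : ℤ := (6 * (n : ℤ) - 10 * j - 3) * ((Nat.choose n (2 * j + 1) : ℕ) : ℤ) ^ 2 -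
  4 * ((j : ℤ) + 1) * (((Nat.choose n (2 * j + 1) : ℕ) : ℤ) +
    ((Nat.choose n (2 * (j + 1)) : ℕ) : ℤ)) ^ 2

theorem recF (j n : ℕ) :
    (2 * (j : ℤ) + 1) * F j n + 8 * ((j : ℤ) + 1) * F (j + 1) n = (-1) ^ n * X j n := by
  induction n with
  | zero =>
    unfold X
    rw [Nat.choose_eq_zero_of_lt (by omega : 0 < 2 * j + 1),
      Nat.choose_eq_zero_of_lt (by omega : 0 < 2 * (j + 1))]
    simp [F]
  | succ n ih =>
    have e1 := r1 n j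
    have e2 := r2 n j
    have hF1 : F (j + 1) (n + 1) = F (j + 1) n +
        (-1) ^ n * ((Nat.choose n (2 * (j + 1)) : ℕ) : ℤ) ^ 2 := by
      unfold F
      rw [Finset.sum_range_succ]
    have hF2 : F j (n + 1) = F j n + (-1) ^ n * ((Nat.choose n (2 * j) : ℕ) : ℤ) ^ 2 := by
      unfold F
      rw [Finset.sum_range_succ]
    have c1 : ((Nat.choose (n + 1) (2 * j + 1) : ℕ) : ℤ) =
        ((Nat.choose n (2 * j) : ℕ) : ℤ) + ((Nat.choose n (2 * j + 1) : ℕ) : ℤ) := by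
      rw [Nat.choose_succ_succ]
      push_cast
      ring
    have c2 : ((Nat.choose (n + 1) (2 * (j + 1)) : ℕ) : ℤ) =
        ((Nat.choose n (2 * j + 1) : ℕ) : ℤ) + ((Nat.choose n (2 * (j + 1)) : ℕ) : ℤ) := by
      rw [show 2 * (j + 1) = (2 * j + 1) + 1 by ring, Nat.choose_succ_succ]
      push_cast
      ring
    unfold X at ih ⊢
    rw [hF1, hF2, c1, c2]
    push_cast at e1 e2 ih ⊢
    generalize ((Nat.choose n (2 * (j + 1)) : ℕ) : ℤ) = t at *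
    generalize ((Nat.choose n (2 * j) : ℕ) : ℤ) = u at *
    generalize ((Nat.choose n (2 * j + 1) : ℕ) : ℤ) = v at *
    linear_combination ih - (-1) ^ n * ((6 * u + 8 * v) * e1 + (4 * u + 12 * v) * e2)

/-- The quotient `T J / C(2J,J)`. -/
def g : ℕ → ℤ
  | 0 => 0
  | (m + 1) => 4 * ((m : ℤ) + 1) * U m

theorem T_g (J : ℕ) : T J = ((Nat.centralBinom J : ℕ) : ℤ) * g J := by
  cases J with
  | zero => simp [T, g]
  | succ m =>
    rw [T_eq]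
    unfold g
    ring

theorem cb_ne (j : ℕ) : ((Nat.centralBinom j : ℕ) : ℤ) ≠ 0 := by
  exact_mod_cast Nat.centralBinom_ne_zero j

theorem U_rec (j : ℕ) : 8 * (2 * (j : ℤ) + 1) * U j =
    g j + (21 * (j : ℤ) + 8) * ((Nat.centralBinom j : ℕ) : ℤ) ^ 2 := by
  apply mul_left_cancel₀ (cb_ne j)
  have h1 : T (j + 1) = T j + (21 * (j : ℤ) + 8) * ((Nat.centralBinom j : ℕ) : ℤ) ^ 3 := by
    unfold T
    rw [Finset.sum_range_succ]
  have h2 := T_g j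
  have h3 := T_eq j
  have h4 := cb_succ j
  linear_combination h1 + h2 - h3 + 4 * U j * (-1) * h4

theorem sumB (n J : ℕ) :
    ∑ j ∈ range J, ((Nat.centralBinom j : ℕ) : ℤ) ^ 2 * (-16) ^ j *
      ((21 * (j : ℤ) + 8) * F j n) = (-16) ^ J * g J * F J n +
      ∑ j ∈ range J, (-1) ^ n * (8 * (-16) ^ j * U j * X j n) := by
  induction J with
  | zero => simp [g]
  | succ J ih =>
    rw [Finset.sum_range_succ, Finset.sum_range_succ, ih]
    have h1 := U_rec J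
    have h2 := recF J n
    have h3 : g (J + 1) = 4 * ((J : ℤ) + 1) * U J := rfl
    rw [h3, pow_succ]
    linear_combination (-((-16) ^ J * F J n)) * h1 + 8 * (-16) ^ J * U J * h2

theorem F_eq_zero {j n : ℕ} (h : n ≤ 2 * j) : F j n = 0 := by
  unfold F
  refine Finset.sum_eq_zero ?_
  intro k hk
  rw [Finset.mem_range] at hk
  rw [Nat.choose_eq_zero_of_lt (by omega : k < 2 * j)]
  simp

theorem dvd_v (n j : ℕ) : ((n : ℤ) + 1) ∣
    (2 * (j : ℤ) + 1) * ((Nat.choose (n + 1) (2 * j + 1) : ℕ) : ℤ) := by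
  have h := Nat.add_one_mul_choose_eq n (2 * j)
  have h' : (((n + 1) * Nat.choose n (2 * j) : ℕ) : ℤ) =
    ((Nat.choose (n + 1) (2 * j + 1) * (2 * j + 1) : ℕ) : ℤ) := by exact_mod_cast h
  push_cast at h'
  exact ⟨((Nat.choose n (2 * j) : ℕ) : ℤ), by linear_combination -h'⟩

theorem dvd_t (n j : ℕ) : ((n : ℤ) + 1) ∣
    (2 * (j : ℤ) + 2) * ((Nat.choose (n + 1) (2 * (j + 1)) : ℕ) : ℤ) := by
  have h := Nat.add_one_mul_choose_eq n (2 * j + 1)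
  have h' : (((n + 1) * Nat.choose n (2 * j + 1) : ℕ) : ℤ) =
    ((Nat.choose (n + 1) (2 * j + 1 + 1) * (2 * j + 1 + 1) : ℕ) : ℤ) := by exact_mod_cast h
  rw [show 2 * j + 1 + 1 = 2 * (j + 1) by ring] at h'
  push_cast at h'
  exact ⟨((Nat.choose n (2 * j + 1) : ℕ) : ℤ), by linear_combination -h'⟩

theorem dvd_X (n j : ℕ) : ((n : ℤ) + 1) ∣ X j (n + 1) := by
  obtain ⟨c, hc⟩ := dvd_v n j
  obtain ⟨d, hd⟩ := dvd_t n j
  have e2 := r2 (n + 1) j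
  unfold X
  push_cast at e2 ⊢
  generalize ((Nat.choose (n + 1) (2 * (j + 1)) : ℕ) : ℤ) = t at *
  generalize ((Nat.choose (n + 1) (2 * j + 1) : ℕ) : ℤ) = v at *
  refine ⟨6 * v ^ 2 - 5 * c * v - 2 * v * (v + t) - 2 * (d * v - c * t), ?_⟩
  linear_combination (-5 * v + 2 * t) * hc - 2 * v * hd - 2 * (v + t) * e2

theorem dvd_B (n J : ℕ) (h : n + 1 ≤ 2 * J) : ((n : ℤ) + 1) ∣
    ∑ j ∈ range J, ((Nat.centralBinom j : ℕ) : ℤ) ^ 2 * (-16) ^ j *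
      ((21 * (j : ℤ) + 8) * F j (n + 1)) := by
  rw [sumB, F_eq_zero h, mul_zero, zero_add]
  refine Finset.dvd_sum ?_
  intro j _
  exact Dvd.dvd.mul_left (Dvd.dvd.mul_left (dvd_X n j) _) _

/-- The key step for `P`. -/
theorem dvd_Y (n j : ℕ) : ((n : ℤ) + 1) ∣
    ((Nat.centralBinom (j + 1) : ℕ) : ℤ) * P (j + 1) (n + 1) +
      ((Nat.centralBinom j : ℕ) : ℤ) * P j (n + 1) := by
  obtain ⟨cat, hcat⟩ : ∃ cat : ℤ, ((Nat.centralBinom j : ℕ) : ℤ) = ((j : ℤ) + 1) * cat := by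
    obtain ⟨c, hc⟩ := Nat.succ_dvd_centralBinom j
    refine ⟨(c : ℤ), ?_⟩
    rw [hc]
    push_cast
    ring
  have hJ : ((j : ℤ) + 1) ≠ 0 := by positivity
  have hJ2 : (2 * (j : ℤ) + 1) ≠ 0 := by positivity
  have hcb1 : ((Nat.centralBinom (j + 1) : ℕ) : ℤ) = 2 * (2 * (j : ℤ) + 1) * cat := by
    apply mul_left_cancel₀ hJ
    rw [cb_succ j, hcat]
    ring
  obtain ⟨c, hc⟩ := dvd_v n j
  have e1 := r1 (n + 1) j
  have e2 := r2 (n + 1) j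
  have hP := certP j (n + 1)
  rw [hcb1, hcat]
  push_cast at e1 e2 hP hc ⊢
  generalize ((Nat.choose (n + 1) (2 * (j + 1)) : ℕ) : ℤ) = t at *
  generalize ((Nat.choose (n + 1) (2 * j + 1) : ℕ) : ℤ) = v at *
  generalize ((Nat.choose (n + 1) (2 * j) : ℕ) : ℤ) = u at *
  generalize P (j + 1) (n + 1) = P1 at *
  generalize P j (n + 1) = P0 at *
  generalize ((-1 : ℤ) ^ (n + 1)) = s at *
  -- `Z`
  have hZ : 2 * (2 * (j : ℤ) + 1) * cat * P1 + ((j : ℤ) + 1) * cat * P0 =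
      s * ((2 * (j : ℤ) + 1) * cat) * (-2 * ((n : ℤ) + 1) * (v + t) ^ 2 +
        14 * ((j : ℤ) + 1) * (v + t) ^ 2 - 4 * v * (v + t) + 2 * v ^ 2 -
        16 * ((j : ℤ) + 1) * v * (v + t) + 5 * ((j : ℤ) + 1) * v ^ 2) := by
    have hne : (2 * (2 * (j : ℤ) + 1) * ((j : ℤ) + 1) ^ 2) ≠ 0 := by positivity
    apply mul_left_cancel₀ hne
    have q1 : ((n : ℤ) + 1 - 2 * j) ^ 2 * u ^ 2 = (2 * (j : ℤ) + 1) ^ 2 * v ^ 2 := by
      rw [← mul_pow, ← e1]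
      ring
    have q2 : (2 * ((j : ℤ) + 1)) ^ 2 * t ^ 2 = ((n : ℤ) + 1 - 2 * j - 1) ^ 2 * v ^ 2 := by
      rw [← mul_pow, ← mul_pow, ← e2]
      ring
    have q3 : 2 * ((j : ℤ) + 1) * (v + t) = ((n : ℤ) + 2) * v := by
      linear_combination e2
    have q4 : (2 * ((j : ℤ) + 1)) ^ 2 * (v + t) ^ 2 = ((n : ℤ) + 2) ^ 2 * v ^ 2 := by
      rw [← mul_pow, q3]
      ring
    have q5 : 2 * ((j : ℤ) + 1) * v * (v + t) = ((n : ℤ) + 2) * v ^ 2 := by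
      linear_combination v * q3
    linear_combination cat * hP + cat * s * (((n : ℤ) + 1 - j) * (((n : ℤ) + 1 - j) ^ 2 -
      3 * ((j : ℤ) + 1) ^ 2)) * q1 - cat * s * (2 * (j : ℤ) + 1) ^ 2 *
      (2 * (n : ℤ) + 1 - 2 * j) * q2 - s * (2 * (j : ℤ) + 1) ^ 2 * cat *
      ((-((n : ℤ) + 1) + 7 * ((j : ℤ) + 1)) * q4 +
        (-4 * ((j : ℤ) + 1) - 16 * ((j : ℤ) + 1) ^ 2) * q5)
  rw [hZ]
  refine ⟨s * cat * c * (-4 * (v + t) + 2 * v - 16 * ((j : ℤ) + 1) * (v + t) +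
    5 * ((j : ℤ) + 1) * v + 7 * ((n : ℤ) + 2) * (v + t)) +
    s * ((2 * (j : ℤ) + 1) * cat) * (-2 * (v + t) ^ 2), ?_⟩
  have q3 : 2 * ((j : ℤ) + 1) * (v + t) = ((n : ℤ) + 2) * v := by
    linear_combination e2
  linear_combination s * cat * (-4 * (v + t) + 2 * v - 16 * ((j : ℤ) + 1) * (v + t) +
    5 * ((j : ℤ) + 1) * v + 7 * ((n : ℤ) + 2) * (v + t)) * hc +
    s * ((2 * (j : ℤ) + 1) * cat) * 7 * (v + t) * q3

theorem dvd_P (n j : ℕ) : ((n : ℤ) + 1) ∣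
    ((Nat.centralBinom j : ℕ) : ℤ) * P j (n + 1) := by
  induction j with
  | zero =>
    rw [P_zero]
    push_cast
    exact ⟨-(((Nat.centralBinom 0 : ℕ) : ℤ) * (-1) ^ (n + 1)), by ring⟩
  | succ j ih => exact (dvd_add_left ih).mp (dvd_Y n j)

theorem dvd_S (n : ℕ) : ((n : ℤ) + 1) ∣ S (n + 1) := by
  rw [S_eq (n + 1) (n + 1) (by omega)]
  have h1 : ∀ j ∈ range (n + 1), ((Nat.centralBinom j : ℕ) : ℤ) ^ 2 * (-16) ^ j *
      (21 * P j (n + 1) + 2 * (21 * (j : ℤ) + 8) * F j (n + 1)) =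
      21 * ((Nat.centralBinom j : ℕ) : ℤ) * (-16) ^ j *
        (((Nat.centralBinom j : ℕ) : ℤ) * P j (n + 1)) +
      2 * (((Nat.centralBinom j : ℕ) : ℤ) ^ 2 * (-16) ^ j *
        ((21 * (j : ℤ) + 8) * F j (n + 1))) := by
    intro j _
    ring
  rw [Finset.sum_congr rfl h1, Finset.sum_add_distrib, ← Finset.mul_sum]
  refine dvd_add (Finset.dvd_sum ?_) (Dvd.dvd.mul_left (dvd_B n (n + 1) (by omega)) _)
  intro j _
  exact Dvd.dvd.mul_left (dvd_P n j) _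

end Pool.Agent.R443.FT
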