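import Pool.Agent.R443.SKfun

/-!
# Sections and lattices of power series for `k = 4`
-/

set_option autoImplicit false

namespace Pool.Agent.R443.Iso

open PowerSeries Finset
open Pool.Agent.R443.PS Pool.Agent.R443.SK

/-- the section operator: coefficients with index `≡ r (mod 4)` -/
noncomputable def U (r : ℕ) : ℤ⟦X⟧ →ₗ[ℤ] ℤ⟦X⟧ where
  toFun f := mk fun n => coeff (4 * n + r) f
  map_add' f g := by
    ext n
    simp
  map_smul' c f := by
    ext n
    rw [coeff_mk, RingHom.id_apply, map_smul, map_smul, coeff_mk]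

theorem coeff_U (r n : ℕ) (f : ℤ⟦X⟧) : coeff n (U r f) = coeff (4 * n + r) f := by
  simp [U]

theorem U_expand (r : ℕ) (hr : r < 4) (f g : ℤ⟦X⟧) :
    U r (expand 4 (by norm_num) g * f) = g * U r f := by
  ext n
  rw [coeff_U, coeff_expand_mul', coeff_mul, Finset.Nat.sum_antidiagonal_eq_sum_range_succ_mk]
  have h1 : (4 * n + r) / 4 = n := by omega
  rw [h1]
  apply sum_congr rfl
  intro b hb
  rw [mem_range] at hb
  simp only
  rw [coeff_U]
  have h2 : 4 * n + r - 4 * b = 4 * (n - b) + r := by omega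
  rw [h2]

/-- `b_d = x^d / (1-x)^(d+1)` -/
noncomputable def b (d : ℕ) : ℤ⟦X⟧ := X ^ d * iv 1 ^ (d + 1)

/-- `s = x/(1-x)` -/
noncomputable def s : ℤ⟦X⟧ := X * iv 1

theorem one_sub_mul : (1 - X : ℤ⟦X⟧) * iv 1 = 1 := by
  have := mul_iv one_ne_zero
  rwa [pow_one] at this

theorem iv_eq : iv 1 = 1 + s := by
  have := one_sub_mul
  unfold s
  linear_combination this

theorem s_mul_b (d : ℕ) : s * b d = b (d + 1) := by
  unfold s b
  ring

theorem coeff_b (d n : ℕ) : coeff n (b d) = ((Nat.choose n d : ℕ) : ℤ) := by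
  unfold b
  rw [coeff_X_pow_mul']
  split_ifs with h
  · rw [coeff_iv_pow_succ one_ne_zero, if_pos (one_dvd _)]
    congr 2
    simp
    omega
  · rw [Nat.choose_eq_zero_of_lt (by omega)]
    simp

theorem ka_eq : ka = b 1 := by
  unfold ka b
  ring

theorem ka_eq' : ka = s * (1 + s) := by
  rw [← iv_eq]
  unfold ka s
  ring

/-- the relation over `x^4` -/
theorem s_four : s ^ 4 = expand 4 (by norm_num) s * (1 + 4 * s + 6 * s ^ 2 + 4 * s ^ 3) := by
  have h1 : expand 4 (by norm_num) s = X ^ 4 * iv 4 := by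
    unfold s
    rw [map_mul, expand_X, expand_iv one_ne_zero, mul_one]
  have h2 : (1 - X ^ 4 : ℤ⟦X⟧) * iv 4 = 1 := mul_iv (by norm_num)
  have h3 : s = X * (1 + s) := by
    rw [← iv_eq]
    rfl
  have h4 : s ^ 4 = X ^ 4 * (1 + s) ^ 4 := by
    nth_rewrite 1 [h3]
    ring
  have h5 : s ^ 4 * (1 - X ^ 4) = X ^ 4 * (1 + 4 * s + 6 * s ^ 2 + 4 * s ^ 3) := by
    linear_combination h4
  rw [h1]
  linear_combination (iv 4) * h5 - s ^ 4 * h2

theorem U_b_rec (r d : ℕ) (hr : r < 4) : U r (b (d + 4)) =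
    s * (U r (b d) + 4 * U r (b (d + 1)) + 6 * U r (b (d + 2)) + 4 * U r (b (d + 3))) := by
  have h1 : b (d + 4) = expand 4 (by norm_num) s *
      (b d + 4 * b (d + 1) + 6 * b (d + 2) + 4 * b (d + 3)) := by
    rw [← s_mul_b (d + 3), ← s_mul_b (d + 2), ← s_mul_b (d + 1), ← s_mul_b d]
    linear_combination b d * s_four
  rw [h1, U_expand r hr]
  have h2 : (4 : ℤ⟦X⟧) * b (d + 1) = (4 : ℤ) • b (d + 1) := by
    rw [zsmul_eq_mul]
    norm_num
  have h3 : (6 : ℤ⟦X⟧) * b (d + 2) = (6 : ℤ) • b (d + 2) := by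
    rw [zsmul_eq_mul]
    norm_num
  have h4 : (4 : ℤ⟦X⟧) * b (d + 3) = (4 : ℤ) • b (d + 3) := by
    rw [zsmul_eq_mul]
    norm_num
  rw [h2, h3, h4, map_add, map_add, map_add, map_smul, map_smul, map_smul]
  simp only [zsmul_eq_mul]
  push_cast
  ring

theorem two_choose (n : ℕ) : 2 * ((Nat.choose n 2 : ℕ) : ℤ) = (n : ℤ) ^ 2 - n := by
  induction n with
  | zero => simp
  | succ n ih =>
    rw [Nat.choose_succ_succ, Nat.choose_one_right]
    push_cast
    linear_combination ih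

theorem six_choose' (n : ℕ) :
    6 * ((Nat.choose n 3 : ℕ) : ℤ) = (n : ℤ) ^ 3 - 3 * n ^ 2 + 2 * n := by
  induction n with
  | zero => simp
  | succ n ih =>
    rw [Nat.choose_succ_succ]
    have := two_choose n
    push_cast
    linear_combination ih + 3 * this

theorem U_b0 (r : ℕ) : U r (b 0) = b 0 := by
  ext n
  rw [coeff_U, coeff_b, coeff_b]
  simp

theorem U_b1 (r : ℕ) : U r (b 1) = (4 : ℤ) • b 1 + (r : ℤ) • b 0 := by
  ext n
  rw [coeff_U, coeff_b, map_add, map_smul, map_smul, coeff_b, coeff_b]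
  simp

theorem U_b2 (r : ℕ) : U r (b 2) = (16 : ℤ) • b 2 + (6 + 4 * (r : ℤ)) • b 1 +
    ((Nat.choose r 2 : ℕ) : ℤ) • b 0 := by
  ext n
  rw [coeff_U, coeff_b, map_add, map_add, map_smul, map_smul, map_smul, coeff_b, coeff_b, coeff_b]
  have h1 := two_choose (4 * n + r)
  have h2 := two_choose n
  have h3 := two_choose r
  simp only [smul_eq_mul, Nat.choose_one_right, Nat.choose_zero_right]
  push_cast at h1 ⊢
  have h4 : (2 : ℤ) ≠ 0 := by norm_num
  apply mul_left_cancel₀ h4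
  linear_combination h1 - 16 * h2 - h3

theorem U_b3 (r : ℕ) : U r (b 3) = (64 : ℤ) • b 3 + (48 + 16 * (r : ℤ)) • b 2 +
    (4 + 6 * (r : ℤ) + 4 * ((Nat.choose r 2 : ℕ) : ℤ)) • b 1 +
    ((Nat.choose r 3 : ℕ) : ℤ) • b 0 := by
  ext n
  rw [coeff_U, coeff_b, map_add, map_add, map_add, map_smul, map_smul, map_smul, map_smul,
    coeff_b, coeff_b, coeff_b, coeff_b]
  have h1 := six_choose' (4 * n + r)
  have h2 := two_choose n
  have h2' := six_choose' n
  have h3 := two_choose r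
  have h3' := six_choose' r
  simp only [smul_eq_mul, Nat.choose_one_right, Nat.choose_zero_right]
  push_cast at h1 ⊢
  have h4 : (6 : ℤ) ≠ 0 := by norm_num
  apply mul_left_cancel₀ h4
  linear_combination h1 - 64 * h2' - 3 * (48 + 16 * (r : ℤ)) * h2 - h3' - 12 * (n : ℤ) * h3

/-- the lattice `M`, spanned by `2^⌊d/2⌋ b_d` -/
noncomputable def M : Submodule ℤ ℤ⟦X⟧ :=
  Submodule.span ℤ (Set.range fun i : ℕ × Bool =>
    (2 : ℤ) ^ i.1 • b (2 * i.1 + if i.2 then 1 else 0))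

/-- the lattice `L'`, spanned by `4^d b_d` -/
noncomputable def L : Submodule ℤ ℤ⟦X⟧ :=
  Submodule.span ℤ (Set.range fun d : ℕ => (4 : ℤ) ^ d • b d)

theorem e_even_mem (i : ℕ) : (2 : ℤ) ^ i • b (2 * i) ∈ M :=
  Submodule.subset_span ⟨(i, false), rfl⟩

theorem e_odd_mem (i : ℕ) : (2 : ℤ) ^ i • b (2 * i + 1) ∈ M :=
  Submodule.subset_span ⟨(i, true), rfl⟩

theorem b0_mem : b 0 ∈ M := by
  have := e_even_mem 0
  simpa using this

theorem b1_mem : b 1 ∈ M := by
  have := e_odd_mem 0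
  simpa using this

theorem L_mem (d : ℕ) : (4 : ℤ) ^ d • b d ∈ L := Submodule.subset_span ⟨d, rfl⟩

/-- induction principle for `M` -/
theorem M_le {N : Submodule ℤ ℤ⟦X⟧} (h0 : ∀ i, (2 : ℤ) ^ i • b (2 * i) ∈ N)
    (h1 : ∀ i, (2 : ℤ) ^ i • b (2 * i + 1) ∈ N) : M ≤ N := by
  unfold M
  rw [Submodule.span_le]
  rintro _ ⟨⟨i, c⟩, rfl⟩
  cases c
  · simpa using h0 i
  · simpa using h1 i

theorem two_s_mul {f : ℤ⟦X⟧} (hf : f ∈ M) : 2 * s * f ∈ M := by
  have h : M ≤ M.comap (LinearMap.mulLeft ℤ (2 * s)) := by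
    apply M_le
    · intro i
      rw [Submodule.mem_comap, LinearMap.mulLeft_apply]
      have : 2 * s * ((2 : ℤ) ^ i • b (2 * i)) = (2 : ℤ) • ((2 : ℤ) ^ i • b (2 * i + 1)) := by
        rw [← s_mul_b]
        simp only [zsmul_eq_mul]
        push_cast
        ring
      rw [this]
      exact Submodule.smul_mem _ _ (e_odd_mem i)
    · intro i
      rw [Submodule.mem_comap, LinearMap.mulLeft_apply]
      have : 2 * s * ((2 : ℤ) ^ i • b (2 * i + 1)) = (2 : ℤ) ^ (i + 1) • b (2 * (i + 1)) := by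
        rw [show 2 * (i + 1) = 2 * i + 1 + 1 by ring, ← s_mul_b (2 * i + 1)]
        simp only [zsmul_eq_mul]
        push_cast
        ring
      rw [this]
      exact e_even_mem (i + 1)
  exact h hf

theorem two_s_sq_mul {f : ℤ⟦X⟧} (hf : f ∈ M) : 2 * s ^ 2 * f ∈ M := by
  have h : M ≤ M.comap (LinearMap.mulLeft ℤ (2 * s ^ 2)) := by
    apply M_le
    · intro i
      rw [Submodule.mem_comap, LinearMap.mulLeft_apply]
      have : 2 * s ^ 2 * ((2 : ℤ) ^ i • b (2 * i)) = (2 : ℤ) ^ (i + 1) • b (2 * (i + 1)) := by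
        rw [show 2 * (i + 1) = 2 * i + 1 + 1 by ring, ← s_mul_b (2 * i + 1), ← s_mul_b (2 * i)]
        simp only [zsmul_eq_mul]
        push_cast
        ring
      rw [this]
      exact e_even_mem (i + 1)
    · intro i
      rw [Submodule.mem_comap, LinearMap.mulLeft_apply]
      have : 2 * s ^ 2 * ((2 : ℤ) ^ i • b (2 * i + 1)) =
          (2 : ℤ) ^ (i + 1) • b (2 * (i + 1) + 1) := by
        rw [show 2 * (i + 1) + 1 = 2 * i + 1 + 1 + 1 by ring, ← s_mul_b (2 * i + 1 + 1),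
          ← s_mul_b (2 * i + 1)]
        simp only [zsmul_eq_mul]
        push_cast
        ring
      rw [this]
      exact e_odd_mem (i + 1)
  exact h hf

theorem two_ka_mul {f : ℤ⟦X⟧} (hf : f ∈ M) : 2 * ka * f ∈ M := by
  have : 2 * ka * f = 2 * s * f + 2 * s ^ 2 * f := by
    rw [ka_eq']
    ring
  rw [this]
  exact add_mem (two_s_mul hf) (two_s_sq_mul hf)

theorem Cs_eq : Cs = (1 + 2 * s) * (1 + 2 * ka) := by
  unfold Cs
  rw [ka_eq', iv_eq]
  have h := one_sub_mul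
  rw [iv_eq] at h
  -- (1 - X) (1 + s) = 1
  have h4 : X * (1 + s) = s := by linear_combination -h
  have h5 : (X : ℤ⟦X⟧) ^ 4 * (1 + s) ^ 4 = s ^ 4 := by
    rw [← mul_pow, h4]
  linear_combination -h5

theorem Cs_mul {f : ℤ⟦X⟧} (hf : f ∈ M) : Cs * f ∈ M := by
  have h1 : (1 + 2 * ka) * f ∈ M := by
    rw [add_mul, one_mul]
    exact add_mem hf (two_ka_mul hf)
  have h2 : Cs * f = (1 + 2 * ka) * f + 2 * s * ((1 + 2 * ka) * f) := by
    rw [Cs_eq]
    ring
  rw [h2]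
  exact add_mem h1 (two_s_mul h1)

theorem Cs_pow_mul {f : ℤ⟦X⟧} (hf : f ∈ M) (m : ℕ) : Cs ^ m * f ∈ M := by
  induction m with
  | zero => simpa using hf
  | succ m ih =>
    rw [pow_succ', mul_assoc]
    exact Cs_mul ih

theorem four_s_mul {f : ℤ⟦X⟧} (hf : f ∈ L) : 4 * s * f ∈ L := by
  have h : L ≤ L.comap (LinearMap.mulLeft ℤ (4 * s)) := by
    unfold L
    rw [Submodule.span_le]
    rintro _ ⟨d, rfl⟩
    simp only [Submodule.comap_coe, Set.mem_preimage, SetLike.mem_coe, LinearMap.mulLeft_apply]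
    have : 4 * s * ((4 : ℤ) ^ d • b d) = (4 : ℤ) ^ (d + 1) • b (d + 1) := by
      rw [← s_mul_b]
      simp only [zsmul_eq_mul]
      push_cast
      ring
    rw [this]
    exact L_mem (d + 1)
  exact h hf

theorem U_mem_aux (r : ℕ) (hr : r < 4) (i : ℕ) :
    U r ((2 : ℤ) ^ i • b (2 * i)) ∈ L ∧ U r ((2 : ℤ) ^ i • b (2 * i + 1)) ∈ L ∧
    U r ((2 : ℤ) ^ (i + 1) • b (2 * (i + 1))) ∈ L ∧
    U r ((2 : ℤ) ^ (i + 1) • b (2 * (i + 1) + 1)) ∈ L := by
  have g0 : b 0 ∈ L := by simpa using L_mem 0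
  have g1 : (4 : ℤ) • b 1 ∈ L := by simpa using L_mem 1
  have g2 : (16 : ℤ) • b 2 ∈ L := by
    have := L_mem 2
    rw [show (4 : ℤ) ^ 2 = 16 by norm_num] at this
    exact this
  have g3 : (64 : ℤ) • b 3 ∈ L := by
    have := L_mem 3
    rw [show (4 : ℤ) ^ 3 = 64 by norm_num] at this
    exact this
  induction i with
  | zero =>
    refine ⟨?_, ?_, ?_, ?_⟩
    · rw [pow_zero, one_smul, mul_zero, U_b0]
      exact g0
    · rw [pow_zero, one_smul, mul_zero, zero_add, U_b1]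
      exact add_mem g1 (Submodule.smul_mem _ _ g0)
    · rw [zero_add, pow_one, mul_one, map_smul, U_b2]
      have : (2 : ℤ) • ((16 : ℤ) • b 2 + (6 + 4 * (r : ℤ)) • b 1 +
          ((Nat.choose r 2 : ℕ) : ℤ) • b 0) = (2 : ℤ) • ((16 : ℤ) • b 2) +
          (3 + 2 * (r : ℤ)) • ((4 : ℤ) • b 1) + (2 * ((Nat.choose r 2 : ℕ) : ℤ)) • b 0 := by
        simp only [zsmul_eq_mul]
        push_cast
        ring
      rw [this]
      exact add_mem (add_mem (Submodule.smul_mem _ _ g2) (Submodule.smul_mem _ _ g1))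
        (Submodule.smul_mem _ _ g0)
    · rw [zero_add, pow_one, mul_one, map_smul, U_b3]
      have : (2 : ℤ) • ((64 : ℤ) • b 3 + (48 + 16 * (r : ℤ)) • b 2 +
          (4 + 6 * (r : ℤ) + 4 * ((Nat.choose r 2 : ℕ) : ℤ)) • b 1 +
          ((Nat.choose r 3 : ℕ) : ℤ) • b 0) = (2 : ℤ) • ((64 : ℤ) • b 3) +
          (6 + 2 * (r : ℤ)) • ((16 : ℤ) • b 2) +
          (2 + 3 * (r : ℤ) + 2 * ((Nat.choose r 2 : ℕ) : ℤ)) • ((4 : ℤ) • b 1) +
          (2 * ((Nat.choose r 3 : ℕ) : ℤ)) • b 0 := by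
        simp only [zsmul_eq_mul]
        push_cast
        ring
      rw [this]
      exact add_mem (add_mem (add_mem (Submodule.smul_mem _ _ g3) (Submodule.smul_mem _ _ g2))
        (Submodule.smul_mem _ _ g1)) (Submodule.smul_mem _ _ g0)
  | succ i ih =>
    obtain ⟨hA, hB, hA1, hB1⟩ := ih
    have hA2 : U r ((2 : ℤ) ^ (i + 1 + 1) • b (2 * (i + 1 + 1))) ∈ L := by
      have : U r ((2 : ℤ) ^ (i + 1 + 1) • b (2 * (i + 1 + 1))) =
          4 * s * (U r ((2 : ℤ) ^ i • b (2 * i)) + (4 : ℤ) • U r ((2 : ℤ) ^ i • b (2 * i + 1)) +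
          (3 : ℤ) • U r ((2 : ℤ) ^ (i + 1) • b (2 * (i + 1))) +
          (2 : ℤ) • U r ((2 : ℤ) ^ (i + 1) • b (2 * (i + 1) + 1))) := by
        have h1 := U_b_rec r (2 * i) hr
        rw [show 2 * (i + 1 + 1) = 2 * i + 4 by ring, show 2 * (i + 1) + 1 = 2 * i + 3 by ring,
          show 2 * (i + 1) = 2 * i + 2 by ring]
        simp only [map_smul]
        rw [h1]
        simp only [zsmul_eq_mul]
        push_cast
        ring
      rw [this]
      exact four_s_mul (add_mem (add_mem (add_mem hA (Submodule.smul_mem _ _ hB))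
        (Submodule.smul_mem _ _ hA1)) (Submodule.smul_mem _ _ hB1))
    refine ⟨hA1, hB1, hA2, ?_⟩
    have : U r ((2 : ℤ) ^ (i + 1 + 1) • b (2 * (i + 1 + 1) + 1)) =
        4 * s * (U r ((2 : ℤ) ^ i • b (2 * i + 1)) +
        (2 : ℤ) • U r ((2 : ℤ) ^ (i + 1) • b (2 * (i + 1))) +
        (3 : ℤ) • U r ((2 : ℤ) ^ (i + 1) • b (2 * (i + 1) + 1)) +
        U r ((2 : ℤ) ^ (i + 1 + 1) • b (2 * (i + 1 + 1)))) := by
      have h1 := U_b_rec r (2 * i + 1) hr
      rw [show 2 * (i + 1 + 1) + 1 = 2 * i + 1 + 4 by ring,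
        show 2 * (i + 1 + 1) = 2 * i + 1 + 3 by ring,
        show 2 * (i + 1) + 1 = 2 * i + 1 + 2 by ring,
        show 2 * (i + 1) = 2 * i + 1 + 1 by ring]
      simp only [map_smul]
      rw [h1]
      simp only [zsmul_eq_mul]
      push_cast
      ring
    rw [this]
    exact four_s_mul (add_mem (add_mem (add_mem hB (Submodule.smul_mem _ _ hA1))
      (Submodule.smul_mem _ _ hB1)) hA2)

/-- the sections map `M` into `L` -/
theorem U_mem {r : ℕ} (hr : r < 4) {f : ℤ⟦X⟧} (hf : f ∈ M) : U r f ∈ L := by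
  have h : M ≤ L.comap (U r) := by
    apply M_le
    · intro i
      exact (U_mem_aux r hr i).1
    · intro i
      exact (U_mem_aux r hr i).2.1
  exact h hf

end Pool.Agent.R443.Iso
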