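import Pool.Agent.R443.SKval

/-!
# The case `k = 4`, `m` even: first order information
-/

set_option autoImplicit false

namespace Pool.Agent.R443.SK

open PowerSeries Finset
open Pool.Agent.R443.PS

variable {p : ℕ} [hp : Fact p.Prime]

/-- closeness of `S` to the logarithm coefficient -/
theorem norm_diff {a m n e : ℕ} (ha : 1 ≤ a) (hm : m ≠ 0) (hn : n ≠ 0)
    (hfac : ∀ r, 2 ≤ r → padicValNat p r.factorial + e ≤ r * (padicValNat p m + 1)) :
    ‖(S (p ^ a) m n : ℚ_[p]) - coeff n (GK p a m)‖ ≤ (p : ℝ) ^ (-(e : ℤ)) := by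
  have hp1 : (1 : ℝ) < (p : ℝ) := by
    exact_mod_cast hp.out.one_lt
  have hp0 : (0 : ℝ) < (p : ℝ) := by linarith
  set v := padicValNat p m with hv
  have hG : ∀ j, ‖coeff j (GK p a m)‖ ≤ (p : ℝ) ^ (-((v + 1 : ℕ) : ℤ)) := by
    intro j
    rcases Nat.eq_zero_or_pos j with h0 | h0
    · rw [h0, coeff_GK_zero, norm_zero]
      exact (zpow_pos hp0 _).le
    · rw [norm_gz hm (by omega)]
      apply zpow_le_zpow_right₀ hp1.le
      have : padicValNat p j % a < a := Nat.mod_lt _ (by omega)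
      rw [← hv]
      generalize padicValNat p j % a = w at this ⊢
      omega
  rw [S_eq_EC ha n]
  have h1 : EC (GK p a m) (n + 1) n = EC (GK p a m) (n + 2) n :=
    (EC_eq (coeff_GK_zero a m) (by omega)).symm
  rw [h1]
  unfold EC
  rw [sum_range_succ', sum_range_succ']
  have h2 : coeff n ((GK p a m) ^ 0) = 0 := by
    rw [pow_zero, coeff_one, if_neg hn]
  rw [h2, mul_zero, add_zero]
  simp only [zero_add, Nat.factorial_one, Nat.cast_one, inv_one, one_mul, pow_one]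
  rw [add_sub_cancel_right]
  apply IsUltrametricDist.norm_sum_le_of_forall_le_of_nonneg (by positivity)
  intro r _
  have h3 := norm_coeff_pow (by positivity) hG (r + 1) n
  have h4 := hfac (r + 1 + 1) (by omega)
  rw [norm_mul, norm_inv, norm_nat (Nat.factorial_ne_zero _)]
  calc ((p : ℝ) ^ (-(padicValNat p (r + 1 + 1).factorial : ℤ)))⁻¹ *
        ‖coeff n (GK p a m ^ (r + 1 + 1))‖
      ≤ ((p : ℝ) ^ (-(padicValNat p (r + 1 + 1).factorial : ℤ)))⁻¹ *
        ((p : ℝ) ^ (-((v + 1 : ℕ) : ℤ))) ^ (r + 1 + 1) :=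
        mul_le_mul_of_nonneg_left h3 (by positivity)
    _ = (p : ℝ) ^ ((padicValNat p (r + 1 + 1).factorial : ℤ) -
          ((r + 1 + 1) * (v + 1) : ℕ)) := by
        rw [← zpow_neg, neg_neg, ← zpow_natCast, ← zpow_mul, ← zpow_add₀ hp0.ne']
        congr 1
        push_cast
        ring
    _ ≤ (p : ℝ) ^ (-(e : ℤ)) := by
        apply zpow_le_zpow_right₀ hp1.le
        have : ((padicValNat p (r + 1 + 1).factorial + e : ℕ) : ℤ) ≤
          (((r + 1 + 1) * (v + 1) : ℕ) : ℤ) := by exact_mod_cast h4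
        push_cast at this ⊢
        linarith

/-- `k = 4` and `m` even: divisibility, and exact valuation when `ν₂(n)` is odd. -/
theorem even_val {m n : ℕ} (hm : m ≠ 0) (hm2 : 2 ∣ m) (hn : n ≠ 0) :
    (padicValNat 2 n % 2 = 1 →
      (2 : ℤ) ^ (padicValNat 2 m + 1) ∣ S 4 m n ∧ ¬ (2 : ℤ) ^ (padicValNat 2 m + 2) ∣ S 4 m n) ∧
    (padicValNat 2 n % 2 = 0 → (2 : ℤ) ^ (padicValNat 2 m + 2) ∣ S 4 m n) := by
  haveI : Fact (Nat.Prime 2) := ⟨Nat.prime_two⟩
  have hp1 : (1 : ℝ) < ((2 : ℕ) : ℝ) := by norm_num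
  set v := padicValNat 2 m with hv
  have hv1 : 1 ≤ v := by
    have : 2 ^ 1 ∣ m := by simpa using hm2
    exact (padicValNat_dvd_iff_le hm).mp this
  have hd := norm_diff (p := 2) (a := 2) (m := m) (n := n) (e := v + 2) (by norm_num) hm hn (by
    intro r hr
    have h1 := sub_one_mul_padicValNat_factorial_lt_of_ne_zero 2 (n := r) (by omega)
    obtain ⟨s, rfl⟩ : ∃ s, r = s + 2 := ⟨r - 2, by omega⟩
    have h4 : padicValNat 2 (s + 2).factorial ≤ s + 1 := by
      simp only [Nat.add_one_sub_one, one_mul] at h1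
      omega
    rw [← hv]
    have h9 : 1 ≤ (s + 1) * v := by nlinarith [Nat.zero_le (s * v)]
    have h10 : (s + 2) * (v + 1) = (s + 1) * v + (s + 1) + (v + 1) := by ring
    omega)
  have h4 : (2 : ℕ) ^ 2 = 4 := by norm_num
  rw [h4] at hd
  have hg := norm_gz (p := 2) (a := 2) (m := m) (n := n) hm hn
  rw [← hv] at hg
  constructor
  · intro h1
    rw [h1] at hg
    have hgt : -((v + 2 : ℕ) : ℤ) + ((1 : ℕ) : ℤ) = -((v + 1 : ℕ) : ℤ) := by
      push_cast
      ring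
    rw [hgt] at hg
    have hlt : ((2 : ℕ) : ℝ) ^ (-((v + 2 : ℕ) : ℤ)) < ((2 : ℕ) : ℝ) ^ (-((v + 1 : ℕ) : ℤ)) := by
      apply zpow_lt_zpow_right₀ hp1
      omega
    have hS : ‖(S 4 m n : ℚ_[2])‖ = ((2 : ℕ) : ℝ) ^ (-((v + 1 : ℕ) : ℤ)) := by
      rw [← hg]
      apply Padic.norm_eq_of_norm_sub_lt_right
      rw [hg]
      exact lt_of_le_of_lt hd hlt
    constructor
    · have := (Padic.norm_int_le_pow_iff_dvd (p := 2) (S 4 m n) (v + 1)).mp (by rw [hS])
      exact_mod_cast this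
    · intro h2
      have h3 : (((2 : ℕ) : ℤ) ^ (v + 2)) ∣ S 4 m n := by exact_mod_cast h2
      rw [← Padic.norm_int_le_pow_iff_dvd, hS] at h3
      linarith
  · intro h1
    rw [h1] at hg
    have hS : ‖(S 4 m n : ℚ_[2])‖ ≤ ((2 : ℕ) : ℝ) ^ (-((v + 2 : ℕ) : ℤ)) := by
      have h2 : (S 4 m n : ℚ_[2]) =
        ((S 4 m n : ℚ_[2]) - coeff n (GK 2 2 m)) + coeff n (GK 2 2 m) := by ring
      rw [h2]
      refine le_trans (Padic.nonarchimedean _ _) ?_
      apply max_le hd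
      rw [hg]
      apply zpow_le_zpow_right₀ hp1.le
      omega
    have := (Padic.norm_int_le_pow_iff_dvd (p := 2) (S 4 m n) (v + 2)).mp hS
    exact_mod_cast this

end Pool.Agent.R443.SK
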