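import Pool.Agent.R443.IsoA
import Pool.Agent.R443.SKval2

/-!
# The isometry theorem for `k = 4`, `m ≡ 2 (mod 4)`
-/

set_option autoImplicit false

namespace Pool.Agent.R443.Iso

open PowerSeries Finset
open Pool.Agent.R443.PS Pool.Agent.R443.SK

/-- the functional `f ↦ [x^n] (f H)` -/
noncomputable def psi (m n : ℕ) : ℤ⟦X⟧ →ₗ[ℤ] ℤ :=
  (coeff n).comp (LinearMap.mulRight ℤ (Hs m))

theorem psi_apply (m n : ℕ) (f : ℤ⟦X⟧) : psi m n f = coeff n (f * Hs m) := rfl

theorem psi_step (m N r : ℕ) (hr : r < 4) (f : ℤ⟦X⟧) :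
    psi m (4 * N + r) f = psi m N (U r (Cs ^ m * f)) := by
  rw [psi_apply, psi_apply]
  have h1 : f * Hs m = expand 4 (by norm_num) (Hs m) * (Cs ^ m * f) := by
    nth_rewrite 1 [Hs_fun m]
    ring
  rw [h1, ← coeff_U, U_expand r hr, mul_comm]

theorem psi_one (m n : ℕ) : psi m n 1 = S 4 m n := by
  rw [psi_apply, one_mul, Hs, coeff_mk]

theorem pow_smul_mem {d e : ℕ} (h : d / 2 ≤ e) : (2 : ℤ) ^ e • b d ∈ M := by
  rcases Nat.even_or_odd' d with ⟨i, hi | hi⟩
  · subst hi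
    obtain ⟨j, rfl⟩ : ∃ j, e = j + i := ⟨e - i, by omega⟩
    rw [pow_add, mul_smul]
    exact Submodule.smul_mem _ _ (e_even_mem i)
  · subst hi
    obtain ⟨j, rfl⟩ : ∃ j, e = j + i := ⟨e - i, by omega⟩
    rw [pow_add, mul_smul]
    exact Submodule.smul_mem _ _ (e_odd_mem i)

/-- coarse shape of elements of `L` -/
theorem L_decomp {f : ℤ⟦X⟧} (hf : f ∈ L) :
    ∃ a c : ℤ, ∃ g ∈ M, f = a • b 0 + (4 * c) • b 1 + (8 : ℤ) • g := by
  unfold L at hf
  induction hf using Submodule.span_induction with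
  | mem x hx =>
    obtain ⟨d, rfl⟩ := hx
    rcases d with _ | _ | d
    · exact ⟨1, 0, 0, zero_mem _, by simp⟩
    · exact ⟨0, 1, 0, zero_mem _, by simp⟩
    · refine ⟨0, 0, (2 : ℤ) ^ (2 * d + 1) • b (d + 2), pow_smul_mem (by omega), ?_⟩
      simp only [zero_smul, mul_zero, zero_add, smul_smul]
      congr 1
      have : (4 : ℤ) ^ d = 2 ^ (2 * d) := by
        rw [pow_mul]
        norm_num
      rw [pow_succ, pow_succ, this, pow_succ]
      ring
  | zero => exact ⟨0, 0, 0, zero_mem _, by simp⟩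
  | add x y _ _ hx hy =>
    obtain ⟨a, c, g, hg, rfl⟩ := hx
    obtain ⟨a', c', g', hg', rfl⟩ := hy
    refine ⟨a + a', c + c', g + g', add_mem hg hg', ?_⟩
    simp only [zsmul_eq_mul]
    push_cast
    ring
  | smul z x _ hx =>
    obtain ⟨a, c, g, hg, rfl⟩ := hx
    refine ⟨z * a, z * c, z • g, Submodule.smul_mem _ _ hg, ?_⟩
    simp only [zsmul_eq_mul]
    push_cast
    ring

/-- elements of `M` modulo `2` -/
theorem M_mod_two {f : ℤ⟦X⟧} (hf : f ∈ M) :
    ∃ a c : ℤ, ∃ g : ℤ⟦X⟧, f = a • b 0 + c • b 1 + (2 : ℤ) • g := by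
  unfold M at hf
  induction hf using Submodule.span_induction with
  | mem x hx =>
    obtain ⟨⟨i, e⟩, rfl⟩ := hx
    rcases i with _ | i
    · cases e
      · exact ⟨1, 0, 0, by simp⟩
      · exact ⟨0, 1, 0, by simp⟩
    · refine ⟨0, 0, (2 : ℤ) ^ i • b (2 * (i + 1) + if e then 1 else 0), ?_⟩
      simp only [zero_smul, zero_add, smul_smul]
      rw [pow_succ']
  | zero => exact ⟨0, 0, 0, by simp⟩
  | add x y _ _ hx hy =>
    obtain ⟨a, c, g, rfl⟩ := hx
    obtain ⟨a', c', g', rfl⟩ := hy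
    refine ⟨a + a', c + c', g + g', ?_⟩
    simp only [zsmul_eq_mul]
    push_cast
    ring
  | smul z x _ hx =>
    obtain ⟨a, c, g, rfl⟩ := hx
    refine ⟨z * a, z * c, z • g, ?_⟩
    simp only [zsmul_eq_mul]
    push_cast
    ring

/-- the numbers `S_m(n)` modulo `8` for `m = 2 (2 t + 1)` -/
theorem S_mod (t n : ℕ) (hn : n ≠ 0) :
    S 4 (2 * (2 * t + 1)) n % 8 = if padicValNat 2 n % 2 = 1 then 4 else 0 := by
  have : Fact (Nat.Prime 2) := ⟨Nat.prime_two⟩
  have hm1 : padicValNat 2 (2 * (2 * t + 1)) = 1 := by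
    rw [padicValNat.mul (by norm_num) (by omega), padicValNat.self (by norm_num),
      padicValNat.eq_zero_of_not_dvd (by omega)]
  have hev := even_val (m := 2 * (2 * t + 1)) (n := n) (by omega) (by omega) hn
  rw [hm1] at hev
  norm_num at hev
  split_ifs with h
  · have := hev.1 h
    omega
  · have := hev.2 (by omega)
    omega

theorem Hs_eq (t : ℕ) : ∃ g : ℤ⟦X⟧, Hs (2 * (2 * t + 1)) = 1 + (4 : ℤ) • g := by
  refine ⟨mk fun n => if n = 0 then 0 else S 4 (2 * (2 * t + 1)) n / 4, ?_⟩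
  ext n
  rw [map_add, map_smul, coeff_mk, Hs, coeff_mk, coeff_one]
  split_ifs with h
  · subst h
    rw [S_zero (by norm_num)]
    simp
  · have := S_mod t n h
    rw [smul_eq_mul, zero_add]
    split_ifs at this <;> omega

theorem psi_mod_four (t n : ℕ) (f : ℤ⟦X⟧) :
    ∃ z : ℤ, psi (2 * (2 * t + 1)) n f = coeff n f + 4 * z := by
  obtain ⟨g, hg⟩ := Hs_eq t
  refine ⟨coeff n (f * g), ?_⟩
  rw [psi_apply, hg, mul_add, mul_one, map_add, mul_smul_comm, map_smul, smul_eq_mul]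

/-- the alternating form -/
noncomputable def D (m n n' : ℕ) (f g : ℤ⟦X⟧) : ℤ :=
  psi m n f * psi m n' g - psi m n g * psi m n' f

theorem D_step (m N N' r : ℕ) (hr : r < 4) (f g : ℤ⟦X⟧) :
    D m (4 * N + r) (4 * N' + r) f g = D m N N' (U r (Cs ^ m * f)) (U r (Cs ^ m * g)) := by
  unfold D
  rw [psi_step m N r hr, psi_step m N r hr, psi_step m N' r hr, psi_step m N' r hr]

theorem D_expand (m n n' : ℕ) (a c a' c' : ℤ) (g g' : ℤ⟦X⟧) :
    D m n n' (a • b 0 + (4 * c) • b 1 + (8 : ℤ) • g) (a' • b 0 + (4 * c') • b 1 + (8 : ℤ) • g') =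
      4 * (a * c' - a' * c) * D m n n' (b 0) (b 1) +
      8 * (a * D m n n' (b 0) g' + 4 * c * D m n n' (b 1) g' + a' * D m n n' g (b 0) +
        4 * c' * D m n n' g (b 1) + 8 * D m n n' g g') := by
  unfold D
  simp only [map_add, map_smul, smul_eq_mul]
  ring

theorem psi_b (m n d : ℕ) :
    psi m n (b d) = ∑ j ∈ range (n + 1), ((Nat.choose j d : ℕ) : ℤ) * S 4 m (n - j) := by
  rw [psi_apply, coeff_mul, Finset.Nat.sum_antidiagonal_eq_sum_range_succ_mk]
  apply sum_congr rfl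
  intro j _
  simp only
  rw [coeff_b, Hs, coeff_mk]

theorem small_S (t : ℕ) : S 4 (2 * (2 * t + 1)) 0 = 1 ∧ S 4 (2 * (2 * t + 1)) 1 % 8 = 0 ∧
    S 4 (2 * (2 * t + 1)) 2 % 8 = 4 ∧ S 4 (2 * (2 * t + 1)) 3 % 8 = 0 ∧
    S 4 (2 * (2 * t + 1)) 4 % 8 = 0 ∧ S 4 (2 * (2 * t + 1)) 5 % 8 = 0 ∧
    S 4 (2 * (2 * t + 1)) 6 % 8 = 4 ∧ S 4 (2 * (2 * t + 1)) 7 % 8 = 0 := by
  have : Fact (Nat.Prime 2) := ⟨Nat.prime_two⟩
  have v1 : padicValNat 2 1 = 0 := padicValNat.eq_zero_of_not_dvd (by omega)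
  have v3 : padicValNat 2 3 = 0 := padicValNat.eq_zero_of_not_dvd (by omega)
  have v5 : padicValNat 2 5 = 0 := padicValNat.eq_zero_of_not_dvd (by omega)
  have v7 : padicValNat 2 7 = 0 := padicValNat.eq_zero_of_not_dvd (by omega)
  have v2 : padicValNat 2 2 = 1 := padicValNat.self (by norm_num)
  have v4 : padicValNat 2 4 = 2 := by
    rw [show (4 : ℕ) = 2 ^ 2 by norm_num, padicValNat.prime_pow]
  have v6 : padicValNat 2 6 = 1 := by
    rw [show (6 : ℕ) = 2 * 3 by norm_num, padicValNat.mul (by norm_num) (by norm_num), v2, v3]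
  refine ⟨S_zero (by norm_num), ?_, ?_, ?_, ?_, ?_, ?_, ?_⟩
  · rw [S_mod t 1 (by norm_num), v1]; norm_num
  · rw [S_mod t 2 (by norm_num), v2]; norm_num
  · rw [S_mod t 3 (by norm_num), v3]; norm_num
  · rw [S_mod t 4 (by norm_num), v4]; norm_num
  · rw [S_mod t 5 (by norm_num), v5]; norm_num
  · rw [S_mod t 6 (by norm_num), v6]; norm_num
  · rw [S_mod t 7 (by norm_num), v7]; norm_num

theorem D_small (t r : ℕ) (hr : r < 4) :
    D (2 * (2 * t + 1)) r (4 + r) (b 0) (b 1) % 8 = 4 := by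
  obtain ⟨h0, h1, h2, h3, h4, h5, h6, h7⟩ := small_S t
  have key : ∀ x y z w x' y' z' w' : ℤ, x % 8 = x' % 8 → y % 8 = y' % 8 → z % 8 = z' % 8 →
      w % 8 = w' % 8 → (x * y - z * w) % 8 = (x' * y' - z' * w') % 8 := by
    intro x y z w x' y' z' w' hx hy hz hw
    have e1 : x ≡ x' [ZMOD 8] := hx
    have e2 : y ≡ y' [ZMOD 8] := hy
    have e3 : z ≡ z' [ZMOD 8] := hz
    have e4 : w ≡ w' [ZMOD 8] := hw
    exact (e1.mul e2).sub (e3.mul e4)
  have c21 : Nat.choose 2 1 = 2 := rfl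
  have c31 : Nat.choose 3 1 = 3 := rfl
  have c41 : Nat.choose 4 1 = 4 := rfl
  have c51 : Nat.choose 5 1 = 5 := rfl
  have c61 : Nat.choose 6 1 = 6 := rfl
  have c71 : Nat.choose 7 1 = 7 := rfl
  unfold D
  interval_cases r
  · rw [key _ _ _ _ 1 4 0 5]
    · norm_num
    · rw [psi_b]; simp only [sum_range_succ, sum_range_zero]; norm_num; omega
    · rw [psi_b]; simp only [sum_range_succ, sum_range_zero]; norm_num; omega
    · rw [psi_b]; simp only [sum_range_succ, sum_range_zero]; norm_num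
    · rw [psi_b]; simp only [sum_range_succ, sum_range_zero]; norm_num; omega
  · rw [key _ _ _ _ 1 1 1 5]
    · norm_num
    · rw [psi_b]; simp only [sum_range_succ, sum_range_zero]; norm_num; omega
    · rw [psi_b]; simp only [sum_range_succ, sum_range_zero]; norm_num; omega
    · rw [psi_b]; simp only [sum_range_succ, sum_range_zero]; norm_num; omega
    · rw [psi_b]; simp only [sum_range_succ, sum_range_zero]; norm_num; omega
  · rw [key _ _ _ _ 5 6 2 1]
    · norm_num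
    · rw [psi_b]; simp only [sum_range_succ, sum_range_zero]; norm_num; omega
    · rw [psi_b]; simp only [sum_range_succ, sum_range_zero]; norm_num; omega
    · rw [psi_b]; simp only [sum_range_succ, sum_range_zero]; norm_num; omega
    · rw [psi_b]; simp only [sum_range_succ, sum_range_zero]; norm_num; omega
  · rw [key _ _ _ _ 5 7 7 1]
    · norm_num
    · rw [psi_b]; simp only [sum_range_succ, sum_range_zero]; norm_num; omega
    · rw [psi_b]; simp only [sum_range_succ, sum_range_zero]; norm_num; omega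
    · rw [psi_b]; simp only [sum_range_succ, sum_range_zero]; norm_num; omega
    · rw [psi_b]; simp only [sum_range_succ, sum_range_zero]; norm_num; omega

/-- the `2 × 2` minor is odd -/
theorem minor_odd (t r : ℕ) (hr : r < 4) (a c a' c' : ℤ) (g g' : ℤ⟦X⟧)
    (h1 : U r (Cs ^ (2 * (2 * t + 1)) * b 0) = a • b 0 + (4 * c) • b 1 + (8 : ℤ) • g)
    (h2 : U r (Cs ^ (2 * (2 * t + 1)) * b 1) = a' • b 0 + (4 * c') • b 1 + (8 : ℤ) • g') :
    (a * c' - a' * c) % 2 = 1 := by
  have h3 := D_step (2 * (2 * t + 1)) 0 1 r hr (b 0) (b 1)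
  rw [h1, h2, D_expand] at h3
  have h4 := D_small t r hr
  rw [mul_zero, zero_add, mul_one] at h3
  rw [h3] at h4
  have h5 : D (2 * (2 * t + 1)) 0 1 (b 0) (b 1) = 1 := by
    unfold D
    rw [psi_b, psi_b, psi_b, psi_b]
    simp only [sum_range_succ, sum_range_zero]
    rw [S_zero (by norm_num)]
    norm_num
  rw [h5, mul_one] at h4
  generalize a * c' - a' * c = w at *
  omega

theorem iso (t : ℕ) (k : ℕ) : ∀ n n' : ℕ, (2 : ℤ) ^ k ∣ (n : ℤ) - n' →
    (∀ f ∈ M, ∀ g ∈ M, (2 : ℤ) ^ k ∣ D (2 * (2 * t + 1)) n n' f g) ∧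
    (¬ (2 : ℤ) ^ (k + 1) ∣ (n : ℤ) - n' →
      ¬ (2 : ℤ) ^ (k + 1) ∣ D (2 * (2 * t + 1)) n n' (b 0) (b 1)) := by
  have hbase : ∀ n n' : ℕ, ∃ z : ℤ,
      D (2 * (2 * t + 1)) n n' (b 0) (b 1) = (n' : ℤ) - n + 4 * z := by
    intro n n'
    obtain ⟨z1, h1⟩ := psi_mod_four t n (b 0)
    obtain ⟨z2, h2⟩ := psi_mod_four t n' (b 1)
    obtain ⟨z3, h3⟩ := psi_mod_four t n (b 1)
    obtain ⟨z4, h4⟩ := psi_mod_four t n' (b 0)
    unfold D
    rw [h1, h2, h3, h4, coeff_b, coeff_b, coeff_b, coeff_b, Nat.choose_zero_right,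
      Nat.choose_zero_right, Nat.choose_one_right, Nat.choose_one_right]
    refine ⟨z1 * n' + z2 + 4 * z1 * z2 - (z3 + n * z4 + 4 * z3 * z4), ?_⟩
    push_cast
    ring
  induction k using Nat.strong_induction_on with
  | _ k ih =>
    intro n n' hnn
    rcases k with _ | _ | k
    · refine ⟨fun f _ g _ => by simp, fun h => ?_⟩
      obtain ⟨z, hz⟩ := hbase n n'
      rw [hz]
      norm_num at h ⊢
      omega
    · constructor
      · intro f hf g hg
        obtain ⟨a, c, f', rfl⟩ := M_mod_two hf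
        obtain ⟨a', c', g', rfl⟩ := M_mod_two hg
        obtain ⟨z, hz⟩ := hbase n n'
        have h1 : D (2 * (2 * t + 1)) n n' (a • b 0 + c • b 1 + (2 : ℤ) • f')
            (a' • b 0 + c' • b 1 + (2 : ℤ) • g') =
            (a * c' - a' * c) * D (2 * (2 * t + 1)) n n' (b 0) (b 1) +
            2 * (a * D (2 * (2 * t + 1)) n n' (b 0) g' + c * D (2 * (2 * t + 1)) n n' (b 1) g' +
            a' * D (2 * (2 * t + 1)) n n' f' (b 0) + c' * D (2 * (2 * t + 1)) n n' f' (b 1) +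
            2 * D (2 * (2 * t + 1)) n n' f' g') := by
          unfold D
          simp only [map_add, map_smul, smul_eq_mul]
          ring
        rw [h1, hz]
        norm_num at hnn ⊢
        apply Dvd.dvd.mul_left
        omega
      · intro h
        obtain ⟨z, hz⟩ := hbase n n'
        rw [hz]
        norm_num at h hnn ⊢
        omega
    · have h4 : (4 : ℤ) ∣ (n : ℤ) - n' := by
        refine dvd_trans ?_ hnn
        exact ⟨2 ^ k, by ring⟩
      obtain ⟨N, N', r, hr, rfl, rfl⟩ : ∃ N N' r, r < 4 ∧ n = 4 * N + r ∧ n' = 4 * N' + r := by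
        refine ⟨n / 4, n' / 4, n % 4, Nat.mod_lt _ (by norm_num), by omega, by omega⟩
      have e1 : ((4 * N + r : ℕ) : ℤ) - ((4 * N' + r : ℕ) : ℤ) = 4 * ((N : ℤ) - N') := by
        push_cast
        ring
      have e2 : (2 : ℤ) ^ (k + 1 + 1) = 4 * 2 ^ k := by ring
      have e3 : (2 : ℤ) ^ (k + 1 + 1 + 1) = 4 * 2 ^ (k + 1) := by ring
      rw [e1, e2] at hnn
      have hNN : (2 : ℤ) ^ k ∣ (N : ℤ) - N' := (mul_dvd_mul_iff_left (by norm_num)).mp hnn
      obtain ⟨ih1, ih2⟩ := ih k (by omega) N N' hNN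
      constructor
      · intro f hf g hg
        rw [D_step _ _ _ _ hr]
        obtain ⟨a, c, f', hf', h1⟩ := L_decomp (U_mem hr (Cs_pow_mul hf (2 * (2 * t + 1))))
        obtain ⟨a', c', g', hg', h2⟩ := L_decomp (U_mem hr (Cs_pow_mul hg (2 * (2 * t + 1))))
        rw [h1, h2, D_expand, e2]
        have k1 := ih1 _ b0_mem _ b1_mem
        have k2 := ih1 _ b0_mem _ hg'
        have k3 := ih1 _ b1_mem _ hg'
        have k4 := ih1 _ hf' _ b0_mem
        have k5 := ih1 _ hf' _ b1_mem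
        have k6 := ih1 _ hf' _ hg'
        apply dvd_add
        · rw [mul_assoc 4]
          exact mul_dvd_mul_left 4 (k1.mul_left _)
        · have : (8 : ℤ) = 4 * 2 := by norm_num
          rw [this, mul_assoc]
          apply mul_dvd_mul_left 4
          apply Dvd.dvd.mul_left
          exact dvd_add (dvd_add (dvd_add (dvd_add (k2.mul_left _) (k3.mul_left _))
            (k4.mul_left _)) (k5.mul_left _)) (k6.mul_left _)
      · intro hn
        rw [e1, e3] at hn
        have hn' : ¬ (2 : ℤ) ^ (k + 1) ∣ (N : ℤ) - N' := by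
          intro h
          exact hn (mul_dvd_mul_left 4 h)
        have hD := ih2 hn'
        rw [D_step _ _ _ _ hr, e3]
        obtain ⟨a, c, f', hf', h1⟩ := L_decomp (U_mem hr (Cs_pow_mul b0_mem (2 * (2 * t + 1))))
        obtain ⟨a', c', g', hg', h2⟩ := L_decomp (U_mem hr (Cs_pow_mul b1_mem (2 * (2 * t + 1))))
        have hodd := minor_odd t r hr a c a' c' f' g' h1 h2
        rw [h1, h2, D_expand]
        have k1 := ih1 _ b0_mem _ b1_mem
        have k2 := ih1 _ b0_mem _ hg'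
        have k3 := ih1 _ b1_mem _ hg'
        have k4 := ih1 _ hf' _ b0_mem
        have k5 := ih1 _ hf' _ b1_mem
        have k6 := ih1 _ hf' _ hg'
        have k7 : (2 : ℤ) ^ k ∣ a * D (2 * (2 * t + 1)) N N' (b 0) g' +
            4 * c * D (2 * (2 * t + 1)) N N' (b 1) g' + a' * D (2 * (2 * t + 1)) N N' f' (b 0) +
            4 * c' * D (2 * (2 * t + 1)) N N' f' (b 1) + 8 * D (2 * (2 * t + 1)) N N' f' g' :=
          dvd_add (dvd_add (dvd_add (dvd_add (k2.mul_left _) (k3.mul_left _))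
            (k4.mul_left _)) (k5.mul_left _)) (k6.mul_left _)
        intro hdvd
        have hdvd2 : (4 * 2 ^ (k + 1) : ℤ) ∣
            4 * (a * c' - a' * c) * D (2 * (2 * t + 1)) N N' (b 0) (b 1) := by
          have h8 : (4 * 2 ^ (k + 1) : ℤ) ∣ 8 * (a * D (2 * (2 * t + 1)) N N' (b 0) g' +
            4 * c * D (2 * (2 * t + 1)) N N' (b 1) g' + a' * D (2 * (2 * t + 1)) N N' f' (b 0) +
            4 * c' * D (2 * (2 * t + 1)) N N' f' (b 1) +
            8 * D (2 * (2 * t + 1)) N N' f' g') := by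
            have : (4 * 2 ^ (k + 1) : ℤ) = 8 * 2 ^ k := by ring
            rw [this]
            exact mul_dvd_mul_left 8 k7
          exact (dvd_add_left h8).mp hdvd
        rw [mul_assoc] at hdvd2
        have hdvd3 := (mul_dvd_mul_iff_left (by norm_num : (4 : ℤ) ≠ 0)).mp hdvd2
        have hcop : IsCoprime ((2 : ℤ) ^ (k + 1)) (a * c' - a' * c) := by
          apply IsCoprime.pow_left
          rw [Int.isCoprime_iff_gcd_eq_one]
          have : ¬ (2 : ℤ) ∣ (a * c' - a' * c) := by omega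
          exact (Int.isCoprime_iff_gcd_eq_one.mp
            ((Int.prime_two.coprime_iff_not_dvd).mpr this))
        exact hD (hcop.dvd_of_dvd_mul_left hdvd3)

end Pool.Agent.R443.Iso
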