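import Pool.Agent.R443.IsoB

/-!
# Symmetric sections and the pigeonhole argument
-/

set_option autoImplicit false

namespace Pool.Agent.R443.Iso

open PowerSeries Finset
open Pool.Agent.R443.PS Pool.Agent.R443.SK

/-- pigeonhole: the values `ψ_N(G)/ψ_N(b_0)` fill all residues -/
theorem hits_zero (t : ℕ) (al be : ℤ) (hbe : be % 2 = 1) {g : ℤ⟦X⟧} (hg : g ∈ M) (K : ℕ) :
    ∃ N : ℕ, (2 : ℤ) ^ K ∣ psi (2 * (2 * t + 1)) N (al • b 0 + be • b 1 + (2 : ℤ) • g) := by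
  set m := 2 * (2 * t + 1) with hm
  set G : ℤ⟦X⟧ := al • b 0 + be • b 1 + (2 : ℤ) • g with hG
  have hunit : ∀ N, IsUnit ((psi m N (b 0) : ℤ) : ZMod (2 ^ K)) := by
    intro N
    obtain ⟨z, hz⟩ := psi_mod_four t N (b 0)
    rw [← hm, coeff_b, Nat.choose_zero_right] at hz
    rw [hz]
    have h1 : IsUnit (((2 * (2 * z) + 1 : ℤ)) : ZMod (2 ^ K)) := by
      have hc : IsCoprime (2 * (2 * z) + 1) (((2 ^ K : ℕ) : ℤ)) := by
        push_cast
        apply IsCoprime.pow_right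
        exact ⟨1, -(2 * z), by ring⟩
      obtain ⟨x, y, hxy⟩ := hc
      have h2 := congrArg (fun w : ℤ => (w : ZMod (2 ^ K))) hxy
      simp only [Int.cast_add, Int.cast_mul, Int.cast_natCast, ZMod.natCast_self, mul_zero,
        add_zero, Int.cast_one] at h2
      refine IsUnit.of_mul_eq_one (x : ZMod (2 ^ K)) ?_
      rw [mul_comm]
      push_cast at h2 ⊢
      exact h2
    have h3 : ((1 : ℕ) : ℤ) + 4 * z = 2 * (2 * z) + 1 := by
      push_cast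
      ring
    rw [h3]
    exact h1
  have : NeZero (2 ^ K) := ⟨by positivity⟩
  let h : Fin (2 ^ K) → ZMod (2 ^ K) := fun N =>
    ((psi m N G : ℤ) : ZMod (2 ^ K)) * (((hunit N).unit⁻¹ : (ZMod (2 ^ K))ˣ) : ZMod (2 ^ K))
  have hinj : Function.Injective h := by
    intro N N' hNN
    by_contra hne
    have hne' : ((N : ℕ) : ℤ) - ((N' : ℕ) : ℤ) ≠ 0 := by
      intro h0
      apply hne
      apply Fin.ext
      omega
    have hfact : Fact (Nat.Prime 2) := ⟨Nat.prime_two⟩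
    set k := padicValInt 2 (((N : ℕ) : ℤ) - ((N' : ℕ) : ℤ)) with hk
    have hk1 : (2 : ℤ) ^ k ∣ ((N : ℕ) : ℤ) - ((N' : ℕ) : ℤ) := by
      have := (padicValInt_dvd_iff (p := 2) k (((N : ℕ) : ℤ) - ((N' : ℕ) : ℤ))).mpr
        (Or.inr le_rfl)
      exact_mod_cast this
    have hk2 : ¬ (2 : ℤ) ^ (k + 1) ∣ ((N : ℕ) : ℤ) - ((N' : ℕ) : ℤ) := by
      intro h1
      have h2 : ((2 : ℕ) : ℤ) ^ (k + 1) ∣ ((N : ℕ) : ℤ) - ((N' : ℕ) : ℤ) := by exact_mod_cast h1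
      rcases (padicValInt_dvd_iff _ _).mp h2 with h3 | h3
      · exact hne' h3
      · omega
    have hkK : k + 1 ≤ K := by
      by_contra hcon
      have h1 : (2 : ℤ) ^ K ∣ ((N : ℕ) : ℤ) - ((N' : ℕ) : ℤ) :=
        dvd_trans (pow_dvd_pow 2 (by omega)) hk1
      have h2 := Int.le_of_dvd (abs_pos.mpr hne') ((dvd_abs _ _).mpr h1)
      have h3 : ((N : ℕ) : ℤ) < 2 ^ K := by exact_mod_cast N.2
      have h4 : ((N' : ℕ) : ℤ) < 2 ^ K := by exact_mod_cast N'.2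
      rcases abs_cases (((N : ℕ) : ℤ) - ((N' : ℕ) : ℤ)) with h5 | h5 <;> omega
    have hD : (2 : ℤ) ^ K ∣ D m N N' G (b 0) := by
      have e1 : ((psi m N G : ℤ) : ZMod (2 ^ K)) * ((psi m N' (b 0) : ℤ) : ZMod (2 ^ K)) =
          ((psi m N' G : ℤ) : ZMod (2 ^ K)) * ((psi m N (b 0) : ℤ) : ZMod (2 ^ K)) := by
        have u1 := (hunit N).unit.mul_inv
        have u2 := (hunit N').unit.mul_inv
        rw [IsUnit.unit_spec] at u1 u2
        have hNN' : ((psi m N G : ℤ) : ZMod (2 ^ K)) *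
            (((hunit N).unit⁻¹ : (ZMod (2 ^ K))ˣ) : ZMod (2 ^ K)) =
            ((psi m N' G : ℤ) : ZMod (2 ^ K)) *
            (((hunit N').unit⁻¹ : (ZMod (2 ^ K))ˣ) : ZMod (2 ^ K)) := hNN
        linear_combination ((psi m N (b 0) : ℤ) : ZMod (2 ^ K)) *
          ((psi m N' (b 0) : ℤ) : ZMod (2 ^ K)) * hNN' -
          ((psi m N G : ℤ) : ZMod (2 ^ K)) * ((psi m N' (b 0) : ℤ) : ZMod (2 ^ K)) * u1 +
          ((psi m N' G : ℤ) : ZMod (2 ^ K)) * ((psi m N (b 0) : ℤ) : ZMod (2 ^ K)) * u2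
      have e2 : ((D m N N' G (b 0) : ℤ) : ZMod (2 ^ K)) = 0 := by
        unfold D
        push_cast
        rw [e1]
        ring
      have e3 := (ZMod.intCast_zmod_eq_zero_iff_dvd (D m N N' G (b 0)) (2 ^ K)).mp e2
      push_cast at e3
      exact e3
    obtain ⟨i1, i2⟩ := iso t k N N' hk1
    have e4 : D m N N' G (b 0) = - be * D m N N' (b 0) (b 1) + 2 * D m N N' g (b 0) := by
      rw [hG]
      unfold D
      simp only [map_add, map_smul, smul_eq_mul]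
      ring
    have e5 : (2 : ℤ) ^ (k + 1) ∣ 2 * D m N N' g (b 0) := by
      rw [pow_succ']
      exact mul_dvd_mul_left 2 (i1 g hg _ b0_mem)
    have e6 : (2 : ℤ) ^ (k + 1) ∣ D m N N' G (b 0) := dvd_trans (pow_dvd_pow 2 hkK) hD
    rw [e4] at e6
    have e7 := (dvd_add_left e5).mp e6
    have hcop : IsCoprime ((2 : ℤ) ^ (k + 1)) (-be) := by
      apply IsCoprime.pow_left
      rw [Int.isCoprime_iff_gcd_eq_one]
      have : ¬ (2 : ℤ) ∣ (-be) := by omega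
      exact (Int.isCoprime_iff_gcd_eq_one.mp ((Int.prime_two.coprime_iff_not_dvd).mpr this))
    exact i2 hk2 (hcop.dvd_of_dvd_mul_left e7)
  have hbij : Function.Bijective h := by
    rw [Fintype.bijective_iff_injective_and_card]
    refine ⟨hinj, ?_⟩
    rw [Fintype.card_fin, ZMod.card]
  obtain ⟨N, hN⟩ := hbij.2 0
  refine ⟨N, ?_⟩
  have u1 := (hunit N).unit.inv_mul
  rw [IsUnit.unit_spec] at u1
  have hN' : ((psi m N G : ℤ) : ZMod (2 ^ K)) *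
      (((hunit N).unit⁻¹ : (ZMod (2 ^ K))ˣ) : ZMod (2 ^ K)) = 0 := hN
  have e1 : ((psi m N G : ℤ) : ZMod (2 ^ K)) = 0 := by
    linear_combination ((psi m N (b 0) : ℤ) : ZMod (2 ^ K)) * hN' -
      ((psi m N G : ℤ) : ZMod (2 ^ K)) * u1
  have e3 := (ZMod.intCast_zmod_eq_zero_iff_dvd _ (2 ^ K)).mp e1
  push_cast at e3
  exact e3

/-- `κ ℤ[2κ]` -/
noncomputable def Kk : Submodule ℤ ℤ⟦X⟧ :=
  Submodule.span ℤ (Set.range fun j : ℕ => ka * (2 * ka) ^ j)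

/-- `4κ ℤ[16κ]` -/
noncomputable def V4 : Submodule ℤ ℤ⟦X⟧ :=
  Submodule.span ℤ (Set.range fun j : ℕ => 4 * ka * (16 * ka) ^ j)

theorem Kk_gen (j : ℕ) : ka * (2 * ka) ^ j ∈ Kk := Submodule.subset_span ⟨j, rfl⟩

theorem V4_gen (j : ℕ) : 4 * ka * (16 * ka) ^ j ∈ V4 := Submodule.subset_span ⟨j, rfl⟩

theorem Kk_two_ka {f : ℤ⟦X⟧} (hf : f ∈ Kk) : 2 * ka * f ∈ Kk := by
  have h : Kk ≤ Kk.comap (LinearMap.mulLeft ℤ (2 * ka)) := by
    unfold Kk
    rw [Submodule.span_le]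
    rintro _ ⟨j, rfl⟩
    simp only [Submodule.comap_coe, Set.mem_preimage, SetLike.mem_coe, LinearMap.mulLeft_apply]
    have : 2 * ka * (ka * (2 * ka) ^ j) = ka * (2 * ka) ^ (j + 1) := by ring
    rw [this]
    exact Kk_gen (j + 1)
  exact h hf

theorem Kk_le_M : Kk ≤ M := by
  unfold Kk
  rw [Submodule.span_le]
  rintro _ ⟨j, rfl⟩
  simp only [SetLike.mem_coe]
  induction j with
  | zero =>
    rw [pow_zero, mul_one, ka_eq]
    exact b1_mem
  | succ j ih =>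
    have : ka * (2 * ka) ^ (j + 1) = 2 * ka * (ka * (2 * ka) ^ j) := by ring
    rw [this]
    exact two_ka_mul ih

theorem V4_le_Kk : V4 ≤ Kk := by
  unfold V4
  rw [Submodule.span_le]
  rintro _ ⟨j, rfl⟩
  simp only [SetLike.mem_coe]
  have : 4 * ka * (16 * ka) ^ j = (4 * 8 ^ j : ℤ) • (ka * (2 * ka) ^ j) := by
    rw [zsmul_eq_mul]
    push_cast
    have : (16 * ka : ℤ⟦X⟧) ^ j = 8 ^ j * (2 * ka) ^ j := by
      rw [← mul_pow]
      congr 1
      ring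
    rw [this]
    ring
  rw [this]
  exact Submodule.smul_mem _ _ (Kk_gen j)

theorem V4_mul {f : ℤ⟦X⟧} (hf : f ∈ V4) : 16 * ka * f ∈ V4 := by
  have h : V4 ≤ V4.comap (LinearMap.mulLeft ℤ (16 * ka)) := by
    unfold V4
    rw [Submodule.span_le]
    rintro _ ⟨j, rfl⟩
    simp only [Submodule.comap_coe, Set.mem_preimage, SetLike.mem_coe, LinearMap.mulLeft_apply]
    have : 16 * ka * (4 * ka * (16 * ka) ^ j) = 4 * ka * (16 * ka) ^ (j + 1) := by ring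
    rw [this]
    exact V4_gen (j + 1)
  exact h hf

theorem Cs_two : Cs ^ 2 = 1 + 8 * ka + 20 * ka ^ 2 + 16 * ka ^ 3 := by
  rw [Cs_eq]
  have : (1 + 2 * s : ℤ⟦X⟧) ^ 2 = 1 + 4 * ka := by
    rw [ka_eq']
    ring
  rw [mul_pow, this]
  ring

theorem Cs_eq2 : Cs = 1 + 4 * s + 6 * s ^ 2 + 4 * s ^ 3 := by
  rw [Cs_eq, ka_eq']
  ring

theorem ka_four : ka ^ 4 = expand 4 (by norm_num) ka * Cs ^ 2 := by
  have h1 := s_four
  rw [← Cs_eq2] at h1
  have h2 : expand 4 (by norm_num) ka =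
      expand 4 (by norm_num) s * (1 + expand 4 (by norm_num) s) := by
    rw [ka_eq', map_mul, map_add, map_one]
  rw [h2, ka_eq']
  have h3 : (1 + s) ^ 4 = Cs + s ^ 4 := by
    rw [Cs_eq2]
    ring
  rw [mul_pow, h3, h1]
  ring

theorem U_ka_rec (j : ℕ) : U 0 (ka ^ (j + 4)) = ka * (U 0 (ka ^ j) + (8 : ℤ) • U 0 (ka ^ (j + 1)) +
    (20 : ℤ) • U 0 (ka ^ (j + 2)) + (16 : ℤ) • U 0 (ka ^ (j + 3))) := by
  have h1 : ka ^ (j + 4) = expand 4 (by norm_num) ka * (ka ^ j + (8 : ℤ) • ka ^ (j + 1) +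
      (20 : ℤ) • ka ^ (j + 2) + (16 : ℤ) • ka ^ (j + 3)) := by
    rw [pow_add, ka_four, Cs_two]
    simp only [zsmul_eq_mul]
    push_cast
    ring
  rw [h1, U_expand 0 (by norm_num)]
  simp only [map_add, map_smul]

theorem U0_ka1 : U 0 (ka ^ 1) = 4 * ka := by
  rw [pow_one, ka_eq, U_b1]
  simp

theorem b0_eq : b 0 = 1 + s := by
  unfold b
  rw [pow_zero, one_mul, zero_add, pow_one, iv_eq]

theorem b_eq (d : ℕ) : b d = s ^ d * (1 + s) := by
  induction d with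
  | zero => rw [b0_eq, pow_zero, one_mul]
  | succ d ih =>
    rw [← s_mul_b, ih]
    ring

theorem U0_ka2 : U 0 (ka ^ 2) = 10 * ka + 64 * ka ^ 2 := by
  have h1 : ka ^ 2 = b 2 + b 3 := by
    rw [ka_eq', b_eq, b_eq]
    ring
  rw [h1, map_add, U_b2, U_b3]
  have h2 : ka = b 1 := ka_eq
  simp only [zsmul_eq_mul]
  rw [h2]
  norm_num
  ring

theorem U0_ka3 : U 0 (ka ^ 3) = 6 * ka + 240 * ka ^ 2 + 1024 * ka ^ 3 := by
  have h1 : ka ^ 3 = b 3 + (2 : ℤ) • b 4 + b 5 := by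
    rw [ka_eq', b_eq, b_eq, b_eq]
    simp only [zsmul_eq_mul]
    push_cast
    ring
  have h4 := U_b_rec 0 0 (by norm_num)
  have h5 := U_b_rec 0 1 (by norm_num)
  norm_num at h4 h5
  rw [h4, U_b0, U_b1, U_b2, U_b3] at h5
  rw [U_b0, U_b1, U_b2, U_b3] at h4
  rw [h1, map_add, map_add, map_smul, U_b3, h4, h5, ka_eq']
  simp only [b_eq]
  simp only [zsmul_eq_mul]
  norm_num
  ring

theorem U0_aux (j : ℕ) : U 0 (ka * (2 * ka) ^ j) ∈ V4 ∧ U 0 (ka * (2 * ka) ^ (j + 1)) ∈ V4 ∧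
    U 0 (ka * (2 * ka) ^ (j + 2)) ∈ V4 ∧ U 0 (ka * (2 * ka) ^ (j + 3)) ∈ V4 := by
  have e : ∀ j, ka * (2 * ka) ^ j = (2 ^ j : ℤ) • ka ^ (j + 1) := by
    intro j
    rw [zsmul_eq_mul]
    push_cast
    ring
  have v0 := V4_gen 0
  have v1 := V4_gen 1
  have v2 := V4_gen 2
  have v3 := V4_gen 3
  induction j with
  | zero =>
    refine ⟨?_, ?_, ?_, ?_⟩
    · rw [e 0, map_smul, U0_ka1, pow_zero, one_smul]
      simpa using v0
    · rw [e (0 + 1), map_smul, U0_ka2]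
      have : ((2 : ℤ) ^ (0 + 1)) • (10 * ka + 64 * ka ^ 2) =
        (5 : ℤ) • (4 * ka * (16 * ka) ^ 0) + (2 : ℤ) • (4 * ka * (16 * ka) ^ 1) := by
        simp only [zsmul_eq_mul]
        push_cast
        ring
      rw [this]
      exact add_mem (Submodule.smul_mem _ _ v0) (Submodule.smul_mem _ _ v1)
    · rw [e (0 + 2), map_smul, U0_ka3]
      have : ((2 : ℤ) ^ (0 + 2)) • (6 * ka + 240 * ka ^ 2 + 1024 * ka ^ 3) =
        (6 : ℤ) • (4 * ka * (16 * ka) ^ 0) + (15 : ℤ) • (4 * ka * (16 * ka) ^ 1) +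
        (4 : ℤ) • (4 * ka * (16 * ka) ^ 2) := by
        simp only [zsmul_eq_mul]
        push_cast
        ring
      rw [this]
      exact add_mem (add_mem (Submodule.smul_mem _ _ v0) (Submodule.smul_mem _ _ v1))
        (Submodule.smul_mem _ _ v2)
    · rw [e (0 + 3), map_smul, show 0 + 3 + 1 = 0 + 4 from rfl, U_ka_rec]
      have h1 : U 0 (ka ^ 0) = 1 := by
        rw [pow_zero]
        ext n
        rw [coeff_U, coeff_one, coeff_one]
        rcases Nat.eq_zero_or_pos n with h | h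
        · rw [h]
        · rw [if_neg (by omega), if_neg (by omega)]
      rw [h1, show 0 + 1 = 1 from rfl, show 0 + 2 = 2 from rfl, show 0 + 3 = 3 from rfl,
        U0_ka1, U0_ka2, U0_ka3]
      have : ((2 : ℤ) ^ 3) • (ka * (1 + (8 : ℤ) • (4 * ka) +
          (20 : ℤ) • (10 * ka + 64 * ka ^ 2) +
          (16 : ℤ) • (6 * ka + 240 * ka ^ 2 + 1024 * ka ^ 3))) =
        (2 : ℤ) • (4 * ka * (16 * ka) ^ 0) + (41 : ℤ) • (4 * ka * (16 * ka) ^ 1) +
        (40 : ℤ) • (4 * ka * (16 * ka) ^ 2) + (8 : ℤ) • (4 * ka * (16 * ka) ^ 3) := by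
        simp only [zsmul_eq_mul]
        push_cast
        ring
      rw [this]
      exact add_mem (add_mem (add_mem (Submodule.smul_mem _ _ v0) (Submodule.smul_mem _ _ v1))
        (Submodule.smul_mem _ _ v2)) (Submodule.smul_mem _ _ v3)
  | succ j ih =>
    obtain ⟨h0, h1, h2, h3⟩ := ih
    refine ⟨h1, h2, h3, ?_⟩
    have : U 0 (ka * (2 * ka) ^ (j + 1 + 3)) = 16 * ka * (U 0 (ka * (2 * ka) ^ j) +
        (4 : ℤ) • U 0 (ka * (2 * ka) ^ (j + 1)) + (5 : ℤ) • U 0 (ka * (2 * ka) ^ (j + 2)) +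
        (2 : ℤ) • U 0 (ka * (2 * ka) ^ (j + 3))) := by
      rw [e j, e (j + 1), e (j + 2), e (j + 3), e (j + 1 + 3)]
      simp only [map_smul]
      rw [show j + 1 + 3 + 1 = (j + 1) + 4 by ring, U_ka_rec (j + 1)]
      simp only [zsmul_eq_mul]
      push_cast
      ring
    rw [this]
    exact V4_mul (add_mem (add_mem (add_mem h0 (Submodule.smul_mem _ _ h1))
      (Submodule.smul_mem _ _ h2)) (Submodule.smul_mem _ _ h3))

theorem U0_Kk {f : ℤ⟦X⟧} (hf : f ∈ Kk) : U 0 f ∈ V4 := by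
  have h : Kk ≤ V4.comap (U 0) := by
    unfold Kk
    rw [Submodule.span_le]
    rintro _ ⟨j, rfl⟩
    exact (U0_aux j).1
  exact h hf

theorem Cs_sq_mul_Kk {f : ℤ⟦X⟧} (hf : f ∈ Kk) : Cs ^ 2 * f ∈ Kk := by
  have h1 := Kk_two_ka hf
  have h2 := Kk_two_ka h1
  have h3 := Kk_two_ka h2
  have : Cs ^ 2 * f = f + (4 : ℤ) • (2 * ka * f) + (5 : ℤ) • (2 * ka * (2 * ka * f)) +
      (2 : ℤ) • (2 * ka * (2 * ka * (2 * ka * f))) := by
    rw [Cs_two]
    simp only [zsmul_eq_mul]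
    push_cast
    ring
  rw [this]
  exact add_mem (add_mem (add_mem hf (Submodule.smul_mem _ _ h1)) (Submodule.smul_mem _ _ h2))
    (Submodule.smul_mem _ _ h3)

theorem Cs_pow_mul_Kk {f : ℤ⟦X⟧} (hf : f ∈ Kk) (q : ℕ) : Cs ^ (2 * q) * f ∈ Kk := by
  induction q with
  | zero => simpa using hf
  | succ q ih =>
    have : Cs ^ (2 * (q + 1)) * f = Cs ^ 2 * (Cs ^ (2 * q) * f) := by ring
    rw [this]
    exact Cs_sq_mul_Kk ih

/-- `C^(2q) = 1 + 2 W'` with `W' ∈ κ ℤ[2κ]` -/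
theorem Cs_pow_eq (q : ℕ) : ∃ w ∈ Kk, Cs ^ (2 * q) = 1 + (2 : ℤ) • w := by
  induction q with
  | zero => exact ⟨0, zero_mem _, by simp⟩
  | succ q ih =>
    obtain ⟨w, hw, h⟩ := ih
    have g0 := Kk_gen 0
    have g1 := Kk_gen 1
    have g2 := Kk_gen 2
    refine ⟨Cs ^ 2 * w + ((4 : ℤ) • (ka * (2 * ka) ^ 0) + (5 : ℤ) • (ka * (2 * ka) ^ 1) +
      (2 : ℤ) • (ka * (2 * ka) ^ 2)), add_mem (Cs_sq_mul_Kk hw)
      (add_mem (add_mem (Submodule.smul_mem _ _ g0) (Submodule.smul_mem _ _ g1))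
        (Submodule.smul_mem _ _ g2)), ?_⟩
    have h1 : Cs ^ (2 * (q + 1)) = Cs ^ 2 * Cs ^ (2 * q) := by ring
    rw [h1, h]
    have h2 := Cs_two
    simp only [zsmul_eq_mul]
    push_cast
    linear_combination h2

theorem U_one (r : ℕ) (hr : r < 4) : U r (1 : ℤ⟦X⟧) = if r = 0 then 1 else 0 := by
  ext n
  rw [coeff_U, coeff_one]
  split_ifs with h1 h2 h2
  · rw [coeff_one, if_pos (by omega)]
  · omega
  · rw [coeff_one, if_neg (by omega)]
  · simp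

/-- the iterated sections -/
noncomputable def RR (m : ℕ) : ℕ → ℤ⟦X⟧
  | 0 => 1
  | e + 1 => U 0 (Cs ^ m * RR m e)

theorem psi_RR (m e n : ℕ) : psi m n (RR m e) = S 4 m (4 ^ e * n) := by
  induction e generalizing n with
  | zero => rw [RR, psi_one, pow_zero, one_mul]
  | succ e ih =>
    rw [RR, ← psi_step m n 0 (by norm_num), add_zero, ih, pow_succ, mul_assoc]

theorem RR_shape (q e : ℕ) : ∃ v ∈ V4, RR (2 * q) e = 1 + (2 : ℤ) • v := by
  induction e with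
  | zero => exact ⟨0, zero_mem _, by simp [RR]⟩
  | succ e ih =>
    obtain ⟨v, hv, h⟩ := ih
    obtain ⟨w, hw, h'⟩ := Cs_pow_eq q
    refine ⟨U 0 w + U 0 (Cs ^ (2 * q) * v), add_mem (U0_Kk hw)
      (U0_Kk (Cs_pow_mul_Kk (V4_le_Kk hv) q)), ?_⟩
    have h1 : Cs ^ (2 * q) * RR (2 * q) e = 1 + (2 : ℤ) • w + (2 : ℤ) • (Cs ^ (2 * q) * v) := by
      rw [h]
      simp only [zsmul_eq_mul]
      linear_combination h'
    rw [RR, h1, map_add, map_add, map_smul, map_smul, U_one 0 (by norm_num), if_pos rfl]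
    simp only [zsmul_eq_mul]
    ring

theorem V4_decomp {v : ℤ⟦X⟧} (hv : v ∈ V4) :
    ∃ a : ℤ, ∃ h ∈ Kk, v = a • (4 * ka) + (32 : ℤ) • (2 * ka * h) := by
  unfold V4 at hv
  induction hv using Submodule.span_induction with
  | mem x hx =>
    obtain ⟨j, rfl⟩ := hx
    rcases j with _ | j
    · exact ⟨1, 0, zero_mem _, by simp⟩
    · refine ⟨0, (8 ^ j : ℤ) • (ka * (2 * ka) ^ j), Submodule.smul_mem _ _ (Kk_gen j), ?_⟩
      simp only [zsmul_eq_mul]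
      push_cast
      have : (16 * ka : ℤ⟦X⟧) ^ j = 8 ^ j * (2 * ka) ^ j := by
        rw [← mul_pow]
        congr 1
        ring
      rw [pow_succ, this]
      ring
  | zero => exact ⟨0, 0, zero_mem _, by simp⟩
  | add x y _ _ hx hy =>
    obtain ⟨a, h, hh, rfl⟩ := hx
    obtain ⟨a', h', hh', rfl⟩ := hy
    refine ⟨a + a', h + h', add_mem hh hh', ?_⟩
    simp only [zsmul_eq_mul]
    push_cast
    ring
  | smul z x _ hx =>
    obtain ⟨a, h, hh, rfl⟩ := hx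
    refine ⟨z * a, z • h, Submodule.smul_mem _ _ hh, ?_⟩
    simp only [zsmul_eq_mul]
    push_cast
    ring

theorem RR_shape2 (q e : ℕ) : ∃ a : ℤ, ∃ h ∈ Kk,
    RR (2 * q) e = 1 + (8 * a) • ka + (64 : ℤ) • (2 * ka * h) := by
  obtain ⟨v, hv, h⟩ := RR_shape q e
  obtain ⟨a, k, hk, rfl⟩ := V4_decomp hv
  refine ⟨a, k, hk, ?_⟩
  rw [h]
  simp only [zsmul_eq_mul]
  push_cast
  ring

end Pool.Agent.R443.Iso
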