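import Pool.Agent.R443.IsoD

/-!
# Unboundedness for `m ≡ 6 (mod 8)`
-/

set_option autoImplicit false

namespace Pool.Agent.R443.Iso

open PowerSeries Finset
open Pool.Agent.R443.PS Pool.Agent.R443.SK

theorem coeff_one_ka : coeff 1 ka = 1 := by
  rw [coeff_ka]
  norm_num

theorem coeff4_W (q : ℕ) (h : q % 8 = 7 ∨ q % 8 = 3) :
    coeff 4 (Cs ^ (2 * q)) % 64 = 8 := by
  obtain ⟨z, hz⟩ := coeff_W q 4 (by norm_num)
  rw [show cc [8, 20, 16] 4 = 328 by decide +kernel,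
    show cc [0, 64, 320, 656, 640, 256] 4 = 3216 by decide +kernel,
    show cc [0, 0, 512, 3840, 12672, 23360, 25344, 15360, 4096] 4 = 6912 by decide +kernel,
    show cc [0, 0, 0, 4096, 40960, 186368, 501760, 872704, 1003520, 745472, 327680, 65536] 4 =
      4096 by decide +kernel] at hz
  obtain ⟨_, _, p7, p3⟩ := choose_facts q (by omega)
  rw [hz]
  generalize ((Nat.choose q 2 : ℕ) : ℤ) = b2 at *
  generalize ((Nat.choose q 3 : ℕ) : ℤ) = b3 at *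
  generalize ((Nat.choose q 4 : ℕ) : ℤ) = b4 at *
  rcases h with h | h
  · have := p7 h
    omega
  · have := p3 h
    omega

theorem coeff4_kW (q : ℕ) : coeff 4 (Cs ^ (2 * q) * ka) % 8 = 4 := by
  obtain ⟨z, hz⟩ := coeff_kW q 4
  rw [show cc [0, 8, 20, 16] 4 = 216 by decide +kernel,
    show cc [0, 0, 64, 320, 656, 640, 256] 4 = 704 by decide +kernel] at hz
  rw [hz]
  push_cast
  omega

/-- the first coefficient of the iterated sections modulo `8` -/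
theorem RR_one (q : ℕ) (h : q % 8 = 7 ∨ q % 8 = 3) (a : ℤ) (k : ℤ⟦X⟧)
    (h1 : RR (2 * q) 1 = 1 + (8 * a) • ka + (64 : ℤ) • (2 * ka * k)) : a % 8 = 1 := by
  have h2 := congrArg (coeff 1) h1
  have h3 := coeff4_W q h
  rw [RR, RR, mul_one, coeff_U] at h2
  simp only [map_add, coeff_zsmul, coeff_one_ka, coeff_one] at h2
  norm_num at h2
  omega

theorem RR_two (q : ℕ) (h : q % 8 = 7 ∨ q % 8 = 3) (a : ℤ) (k : ℤ⟦X⟧)
    (h1 : RR (2 * q) 2 = 1 + (8 * a) • ka + (64 : ℤ) • (2 * ka * k)) : a % 8 = 5 := by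
  obtain ⟨a1, k1, hk1, e1⟩ := RR_shape2 q 1
  have ha1 := RR_one q h a1 k1 e1
  have h2 := congrArg (coeff 1) h1
  have h3 := coeff4_W q h
  have h4 := coeff4_kW q
  rw [show RR (2 * q) 2 = U 0 (Cs ^ (2 * q) * RR (2 * q) 1) from rfl, coeff_U, e1] at h2
  have h5 : Cs ^ (2 * q) * (1 + (8 * a1) • ka + (64 : ℤ) • (2 * ka * k1)) =
      Cs ^ (2 * q) + (8 * a1) • (Cs ^ (2 * q) * ka) +
      (64 : ℤ) • (Cs ^ (2 * q) * (2 * ka * k1)) := by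
    simp only [zsmul_eq_mul]
    ring
  rw [h5] at h2
  simp only [map_add, coeff_zsmul, coeff_one_ka, coeff_one] at h2
  norm_num at h2
  obtain ⟨x, hx⟩ : ∃ x, a1 = 8 * x + 1 := ⟨a1 / 8, by omega⟩
  obtain ⟨y, hy⟩ : ∃ y, coeff 4 (Cs ^ (2 * q) * ka) = 8 * y + 4 :=
    ⟨coeff 4 (Cs ^ (2 * q) * ka) / 8, by omega⟩
  rw [hx, hy] at h2
  have h6 : 8 * (8 * x + 1) * (8 * y + 4) = 64 * (8 * x * y + 4 * x + y) + 32 := by ring
  rw [h6] at h2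
  generalize 8 * x * y + 4 * x + y = w at *
  omega

/-- the shape of the section series giving `S_m(4^e (4N+1))` -/
theorem section_shape (q e : ℕ) (hq : q % 4 = 3) (he : (e = 1 ∧ q % 8 = 7) ∨ (e = 2 ∧ q % 8 = 3)) :
    ∃ al be : ℤ, be % 2 = 1 ∧ ∃ g ∈ M,
      U 1 (Cs ^ (2 * q) * RR (2 * q) e) = (64 : ℤ) • (al • b 0 + be • b 1 + (2 : ℤ) • g) := by
  obtain ⟨a, k, hk, e1⟩ := RR_shape2 q e
  have hc : ∃ c : ℤ, ((c = 1 ∧ q % 8 = 7) ∨ (c = 5 ∧ q % 8 = 3)) ∧ ∃ z, a = c + 8 * z := by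
    rcases he with ⟨rfl, h⟩ | ⟨rfl, h⟩
    · have := RR_one q (Or.inl h) a k e1
      exact ⟨1, Or.inl ⟨rfl, h⟩, a / 8, by omega⟩
    · have := RR_two q (Or.inr h) a k e1
      exact ⟨5, Or.inr ⟨rfl, h⟩, a / 8, by omega⟩
  obtain ⟨c, hc, z, rfl⟩ := hc
  obtain ⟨al, be, hbe, g, hg, hF⟩ := F1_shape q c hq hc
  obtain ⟨x, y, g', hg', hd⟩ := L_decomp (U_mem (r := 1) (by norm_num)
    (add_mem (Submodule.smul_mem _ z (Cs_pow_mul ka_mem_M (2 * q)))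
      (Cs_pow_mul (two_ka_mul (Kk_le_M hk)) (2 * q))))
  refine ⟨al + x, be + 4 * y, by omega, g + (4 : ℤ) • g', add_mem hg (Submodule.smul_mem _ _ hg'),
    ?_⟩
  have h5 : Cs ^ (2 * q) * RR (2 * q) e =
      Cs ^ (2 * q) + (8 * c) • (Cs ^ (2 * q) * ka) +
      (64 : ℤ) • (z • (Cs ^ (2 * q) * ka) + Cs ^ (2 * q) * (2 * ka * k)) := by
    rw [e1]
    simp only [zsmul_eq_mul]
    push_cast
    ring
  rw [h5, map_add, map_add, map_smul, map_smul, hd]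
  have hF' : U 1 (Cs ^ (2 * q)) + (8 * c) • U 1 (Cs ^ (2 * q) * ka) = F1 q c := rfl
  rw [hF', hF]
  simp only [zsmul_eq_mul]
  push_cast
  ring

/-- **Unboundedness** for `m ≡ 6 (mod 8)`. -/
theorem unbounded (m : ℕ) (hm : m % 8 = 6) (K : ℕ) : ∃ n : ℕ, (2 : ℤ) ^ K ∣ S 4 m n := by
  obtain ⟨t, rfl⟩ : ∃ t, m = 2 * (2 * t + 1) := ⟨(m / 2 - 1) / 2, by omega⟩
  have key : ∃ e, (e = 1 ∧ (2 * t + 1) % 8 = 7) ∨ (e = 2 ∧ (2 * t + 1) % 8 = 3) := by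
    rcases (by omega : (2 * t + 1) % 8 = 7 ∨ (2 * t + 1) % 8 = 3) with h | h
    · exact ⟨1, Or.inl ⟨rfl, h⟩⟩
    · exact ⟨2, Or.inr ⟨rfl, h⟩⟩
  obtain ⟨e, he⟩ := key
  obtain ⟨al, be, hbe, g, hg, hF⟩ := section_shape (2 * t + 1) e (by omega) he
  obtain ⟨N, hN⟩ := hits_zero t al be hbe hg K
  refine ⟨4 ^ e * (4 * N + 1), ?_⟩
  rw [← psi_RR, psi_step _ N 1 (by norm_num), hF, map_smul, smul_eq_mul]
  exact Dvd.dvd.mul_left hN _

end Pool.Agent.R443.Iso
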