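import Mathlib

/-!
# Partitions into two part sizes modulo 4
-/

set_option autoImplicit false

namespace Pool.Agent.R443.Nu2

open Finset

/-! ### Parity and involutions -/

theorem parity_invol {α : Type*} [DecidableEq α] (s : Finset α) (f : α → α)
    (hf : ∀ x ∈ s, f x ∈ s) (hff : ∀ x ∈ s, f (f x) = x) :
    ((s.card : ℕ) : ZMod 2) = (((s.filter (fun x => f x = x)).card : ℕ) : ZMod 2) := by
  rw [← Finset.card_filter_add_card_filter_not (s := s) (fun x => f x = x)]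
  have h : (((s.filter (fun x => ¬ f x = x)).card : ℕ) : ZMod 2) = 0 := by
    rw [Finset.card_eq_sum_ones, Nat.cast_sum]
    apply Finset.sum_involution (fun a _ => f a)
    · intro a _; decide
    · intro a ha _
      rw [mem_filter] at ha
      exact ha.2
    · intro a ha
      rw [mem_filter] at ha ⊢
      refine ⟨hf a ha.1, ?_⟩
      rw [hff a ha.1]
      exact fun h => ha.2 h.symm
    · intro a ha
      rw [mem_filter] at ha
      exact hff a ha.1
  push_cast
  rw [h, add_zero]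

/-! ### Divisor pairs -/

/-- pairs `x < y` with `x y = k` -/
def e (k : ℕ) : ℕ := (k.divisorsAntidiagonal.filter (fun z => z.1 < z.2)).card

/-- pairs `x = y` with `x y = k`, for `k ≥ 1` -/
def s (k : ℕ) : ℕ := (k.divisorsAntidiagonal.filter (fun z => z.1 = z.2)).card

theorem card_div (k : ℕ) : k.divisors.card = k.divisorsAntidiagonal.card := by
  rw [← Nat.map_div_right_divisors, card_map]

theorem card_eq (k : ℕ) : k.divisors.card = 2 * e k + s k := by
  rw [card_div]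
  rw [← Finset.card_filter_add_card_filter_not (s := k.divisorsAntidiagonal) (fun z => z.1 = z.2)]
  rw [← Finset.card_filter_add_card_filter_not
    (s := k.divisorsAntidiagonal.filter (fun z => ¬ z.1 = z.2)) (fun z => z.1 < z.2)]
  have h1 : ((k.divisorsAntidiagonal.filter (fun z => ¬ z.1 = z.2)).filter
      (fun z => z.1 < z.2)) = k.divisorsAntidiagonal.filter (fun z => z.1 < z.2) := by
    rw [filter_filter]
    apply filter_congr
    intro z _
    constructor
    · exact fun h => h.2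
    · exact fun h => ⟨h.ne, h⟩
  have h2 : ((k.divisorsAntidiagonal.filter (fun z => ¬ z.1 = z.2)).filter
      (fun z => ¬ z.1 < z.2)).card = (k.divisorsAntidiagonal.filter (fun z => z.1 < z.2)).card := by
    rw [filter_filter]
    apply card_nbij' Prod.swap Prod.swap
    · intro z hz
      simp only [coe_filter, Set.mem_ofPred, Nat.swap_mem_divisorsAntidiagonal, Prod.fst_swap,
        Prod.snd_swap] at hz ⊢
      exact ⟨hz.1, by omega⟩
    · intro z hz
      simp only [coe_filter, Set.mem_ofPred, Nat.swap_mem_divisorsAntidiagonal, Prod.fst_swap,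
        Prod.snd_swap] at hz ⊢
      exact ⟨hz.1, by omega⟩
    · intro z _; exact Prod.swap_swap z
    · intro z _; exact Prod.swap_swap z
  rw [h1, h2]
  unfold e s
  ring

theorem s_zero : s 0 = 0 := by simp [s]

theorem e_zero : e 0 = 0 := by simp [e]

theorem s_pos_iff {k : ℕ} : s k ≠ 0 ↔ ∃ x : ℕ, 1 ≤ x ∧ x * x = k := by
  unfold s
  rw [Finset.card_ne_zero, Finset.Nonempty]
  constructor
  · rintro ⟨⟨x, y⟩, hz⟩
    simp only [mem_filter, Nat.mem_divisorsAntidiagonal] at hz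
    obtain ⟨⟨h1, h2⟩, rfl⟩ := hz
    refine ⟨x, ?_, h1⟩
    rcases Nat.eq_zero_or_pos x with rfl | h
    · simp at h1; omega
    · exact h
  · rintro ⟨x, hx, rfl⟩
    refine ⟨(x, x), ?_⟩
    simp only [mem_filter, Nat.mem_divisorsAntidiagonal]
    refine ⟨⟨trivial, ?_⟩, trivial⟩
    positivity

theorem s_eq_one {x : ℕ} (hx : 1 ≤ x) : s (x * x) = 1 := by
  unfold s
  rw [Finset.card_eq_one]
  refine ⟨(x, x), ?_⟩
  ext ⟨a, b⟩
  simp only [mem_filter, Nat.mem_divisorsAntidiagonal, mem_singleton, Prod.mk.injEq]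
  constructor
  · rintro ⟨⟨h1, _⟩, rfl⟩
    have : a = x := Nat.mul_self_inj.mp h1
    exact ⟨this, this⟩
  · rintro ⟨rfl, rfl⟩
    refine ⟨⟨rfl, ?_⟩, rfl⟩
    positivity

theorem s_eq_zero {k : ℕ} (h : ∀ x : ℕ, 1 ≤ x → x * x ≠ k) : s k = 0 := by
  by_contra hne
  obtain ⟨x, hx, hk⟩ := s_pos_iff.mp hne
  exact h x hx hk

/-! ### Zagier's involution -/

/-- Zagier's set -/
def Z (k : ℕ) : Finset (ℕ × ℕ × ℕ) :=
  (Icc 1 k ×ˢ (Icc 1 k ×ˢ Icc 1 k)).filter (fun t => t.1 * t.1 + 4 * t.2.1 * t.2.2 = k)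

theorem mem_Z {k : ℕ} {x y z : ℕ} : (x, y, z) ∈ Z k ↔
    1 ≤ x ∧ 1 ≤ y ∧ 1 ≤ z ∧ x * x + 4 * y * z = k := by
  unfold Z
  simp only [mem_filter, mem_product, mem_Icc]
  constructor
  · rintro ⟨⟨⟨h1, _⟩, ⟨h2, _⟩, ⟨h3, _⟩⟩, h⟩
    exact ⟨h1, h2, h3, h⟩
  · rintro ⟨h1, h2, h3, h⟩
    refine ⟨⟨⟨h1, ?_⟩, ⟨h2, ?_⟩, ⟨h3, ?_⟩⟩, h⟩
    · nlinarith
    · nlinarith
    · nlinarith

/-- Zagier's map -/
def zmap (t : ℕ × ℕ × ℕ) : ℕ × ℕ × ℕ :=
  if t.1 + t.2.2 < t.2.1 then (t.1 + 2 * t.2.2, t.2.2, t.2.1 - t.1 - t.2.2)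
  else if t.1 < 2 * t.2.1 then (2 * t.2.1 - t.1, t.2.1, t.1 + t.2.2 - t.2.1)
  else (t.1 - 2 * t.2.1, t.1 + t.2.2 - t.2.1, t.2.1)

theorem zmap1 {x y z : ℕ} (h : x + z < y) : zmap (x, y, z) = (x + 2 * z, z, y - x - z) := by
  unfold zmap
  rw [if_pos h]

theorem zmap2 {x y z : ℕ} (h : ¬ x + z < y) (h2 : x < 2 * y) :
    zmap (x, y, z) = (2 * y - x, y, x + z - y) := by
  unfold zmap
  rw [if_neg h, if_pos h2]

theorem zmap3 {x y z : ℕ} (h : ¬ x + z < y) (h2 : ¬ x < 2 * y) :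
    zmap (x, y, z) = (x - 2 * y, x + z - y, y) := by
  unfold zmap
  rw [if_neg h, if_neg h2]

theorem zagier {k : ℕ} (hk : k % 4 = 1) (hs : s k = 0) :
    ((e k : ℕ) : ZMod 2) = (((Z k).card : ℕ) : ZMod 2) := by
  classical
  have hns : ∀ w : ℕ, w * w ≠ k := by
    intro w hw
    have hw1 : 1 ≤ w := by
      rcases Nat.eq_zero_or_pos w with rfl | h
      · omega
      · exact h
    have := s_eq_one hw1
    rw [hw] at this
    omega
  have hcase : ∀ x y z : ℕ, (x, y, z) ∈ Z k → x + z ≠ y ∧ x ≠ 2 * y := by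
    intro x y z h
    rw [mem_Z] at h
    obtain ⟨h1, h2, h3, h⟩ := h
    constructor
    · rintro rfl
      apply hns (x + 2 * z)
      rw [← h]; ring
    · rintro rfl
      have : k = 4 * (y * y + y * z) := by rw [← h]; ring
      omega
  have hf : ∀ t ∈ Z k, zmap t ∈ Z k := by
    rintro ⟨x, y, z⟩ ht
    have hc := hcase x y z ht
    rw [mem_Z] at ht
    obtain ⟨h1, h2, h3, h⟩ := ht
    unfold zmap
    simp only
    split_ifs with c1 c2
    · obtain ⟨w, rfl⟩ : ∃ w, y = x + z + w := ⟨y - x - z, by omega⟩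
      rw [show x + z + w - x - z = w by omega, mem_Z]
      refine ⟨by omega, by omega, by omega, ?_⟩
      rw [← h]; ring
    · obtain ⟨w, hw⟩ : ∃ w, x + z = y + w := ⟨x + z - y, by omega⟩
      rw [show x + z - y = w by omega, mem_Z]
      obtain ⟨v, hv⟩ : ∃ v, 2 * y = x + v := ⟨2 * y - x, by omega⟩
      rw [show 2 * y - x = v by omega]
      refine ⟨by omega, by omega, by omega, ?_⟩
      rw [← h]
      zify at hw hv ⊢
      have e1 : (v : ℤ) = 2 * y - x := by linarith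
      have e2 : (w : ℤ) = x + z - y := by linarith
      rw [e1, e2]; ring
    · obtain ⟨w, hw⟩ : ∃ w, x = 2 * y + w := ⟨x - 2 * y, by omega⟩
      subst hw
      rw [show 2 * y + w - 2 * y = w by omega, show 2 * y + w + z - y = y + w + z by omega, mem_Z]
      refine ⟨by omega, by omega, by omega, ?_⟩
      rw [← h]; ring
  have hff : ∀ t ∈ Z k, zmap (zmap t) = t := by
    rintro ⟨x, y, z⟩ ht
    have hc := hcase x y z ht
    rw [mem_Z] at ht
    obtain ⟨h1, h2, h3, h⟩ := ht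
    by_cases c1 : x + z < y
    · rw [zmap1 c1, zmap3 (by omega) (by omega)]
      refine Prod.ext ?_ (Prod.ext ?_ ?_) <;> simp only <;> omega
    · by_cases c2 : x < 2 * y
      · rw [zmap2 c1 c2, zmap2 (by omega) (by omega)]
        refine Prod.ext ?_ (Prod.ext ?_ ?_) <;> simp only <;> omega
      · rw [zmap3 c1 c2, zmap1 (by omega)]
        refine Prod.ext ?_ (Prod.ext ?_ ?_) <;> simp only <;> omega
  rw [parity_invol (Z k) zmap hf hff]
  refine congrArg (fun n : ℕ => (n : ZMod 2)) ?_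
  unfold e
  apply card_nbij (fun (w : ℕ × ℕ) => (w.1, w.1, (w.2 - w.1) / 4))
  · rintro ⟨x, y⟩ hz
    simp only [coe_filter, Set.mem_ofPred, Nat.mem_divisorsAntidiagonal] at hz
    obtain ⟨⟨h1, h2⟩, h3⟩ := hz
    have hx : 1 ≤ x := by
      rcases Nat.eq_zero_or_pos x with rfl | h
      · simp at h1; omega
      · exact h
    have hmod : x % 4 = y % 4 := by
      have hm : (x % 4) * (y % 4) % 4 = 1 := by rw [← Nat.mul_mod, h1, hk]
      have hx4 : x % 4 < 4 := Nat.mod_lt _ (by norm_num)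
      have hy4 : y % 4 < 4 := Nat.mod_lt _ (by norm_num)
      interval_cases (x % 4) <;> interval_cases (y % 4) <;> omega
    obtain ⟨w, hw⟩ : ∃ w, y = x + 4 * w := ⟨(y - x) / 4, by omega⟩
    subst hw
    simp only [coe_filter, Set.mem_ofPred]
    rw [show (x + 4 * w - x) / 4 = w by omega, mem_Z]
    refine ⟨⟨hx, hx, by omega, ?_⟩, ?_⟩
    · rw [← h1]; ring
    · rw [zmap2 (by omega) (by omega)]
      refine Prod.ext ?_ (Prod.ext ?_ ?_) <;> simp only <;> omega
  · rintro ⟨x, y⟩ hz ⟨x', y'⟩ hz' h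
    simp only [Prod.mk.injEq] at h
    simp only [coe_filter, Set.mem_ofPred, Nat.mem_divisorsAntidiagonal] at hz hz'
    obtain ⟨rfl, _⟩ := h
    have hx : 0 < x := by
      rcases Nat.eq_zero_or_pos x with rfl | h
      · simp at hz; omega
      · exact h
    have : y = y' := Nat.eq_of_mul_eq_mul_left hx (hz.1.1.trans hz'.1.1.symm)
    rw [this]
  · rintro ⟨x, y, z⟩ hz
    simp only [coe_filter, Set.mem_ofPred] at hz
    obtain ⟨hz1, hz2⟩ := hz
    rw [mem_Z] at hz1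
    obtain ⟨h1, h2, h3, h⟩ := hz1
    unfold zmap at hz2
    simp only at hz2
    split_ifs at hz2 with c1 c2
    · simp only [Prod.mk.injEq] at hz2
      omega
    · simp only [Prod.mk.injEq] at hz2
      have hxy : x = y := by omega
      subst hxy
      refine ⟨(x, x + 4 * z), ?_, ?_⟩
      · simp only [coe_filter, Set.mem_ofPred, Nat.mem_divisorsAntidiagonal]
        refine ⟨⟨?_, by omega⟩, by omega⟩
        rw [← h]; ring
      · simp only [Prod.mk.injEq, true_and]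
        omega
    · simp only [Prod.mk.injEq] at hz2
      omega

/-- the solutions of `u^2 + 4 v^2 = k` -/
def N4 (k : ℕ) : Finset (ℕ × ℕ) :=
  (Icc 1 k ×ˢ Icc 1 k).filter (fun t => t.1 * t.1 + 4 * t.2 * t.2 = k)

theorem mem_N4 {k u v : ℕ} : (u, v) ∈ N4 k ↔ 1 ≤ u ∧ 1 ≤ v ∧ u * u + 4 * v * v = k := by
  unfold N4
  simp only [mem_filter, mem_product, mem_Icc]
  constructor
  · rintro ⟨⟨⟨h1, _⟩, ⟨h2, _⟩⟩, h⟩
    exact ⟨h1, h2, h⟩
  · rintro ⟨h1, h2, h⟩
    refine ⟨⟨⟨h1, ?_⟩, ⟨h2, ?_⟩⟩, h⟩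
    · nlinarith
    · nlinarith

theorem Z_card (k : ℕ) : (((Z k).card : ℕ) : ZMod 2) = (((N4 k).card : ℕ) : ZMod 2) := by
  classical
  rw [parity_invol (Z k) (fun t => (t.1, t.2.2, t.2.1))]
  · refine congrArg (fun n : ℕ => (n : ZMod 2)) ?_
    apply card_nbij (fun t => (t.1, t.2.1))
    · rintro ⟨x, y, z⟩ ht
      simp only [coe_filter, Set.mem_ofPred, Prod.mk.injEq] at ht
      obtain ⟨h1, _, h2, _⟩ := ht
      subst h2
      rw [mem_Z] at h1
      rw [mem_coe, mem_N4]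
      exact ⟨h1.1, h1.2.1, h1.2.2.2⟩
    · rintro ⟨x, y, z⟩ ht ⟨x', y', z'⟩ ht' h
      simp only [coe_filter, Set.mem_ofPred, Prod.mk.injEq] at ht ht' h ⊢
      omega
    · rintro ⟨u, v⟩ ht
      rw [mem_coe, mem_N4] at ht
      refine ⟨(u, v, v), ?_, rfl⟩
      simp only [coe_filter, Set.mem_ofPred, and_true]
      rw [mem_Z]
      exact ⟨ht.1, ht.2.1, ht.2.1, ht.2.2⟩
  · rintro ⟨x, y, z⟩ ht
    rw [mem_Z] at ht
    simp only
    rw [mem_Z]
    refine ⟨ht.1, ht.2.2.1, ht.2.1, ?_⟩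
    rw [← ht.2.2.2]; ring
  · rintro ⟨x, y, z⟩ _
    rfl

theorem e_odd {k : ℕ} (hk : k % 4 = 1) (hs : s k = 0) :
    ((e k : ℕ) : ZMod 2) = (((N4 k).card : ℕ) : ZMod 2) := by
  rw [zagier hk hs, Z_card]

theorem e_two {k : ℕ} (hk : k % 2 = 1) : ((e (2 * k) : ℕ) : ZMod 2) = ((s k : ℕ) : ZMod 2) := by
  have h1 := card_eq (2 * k)
  have h2 := card_eq k
  have hs : s (2 * k) = 0 := by
    apply s_eq_zero
    intro x _ h
    rcases Nat.even_or_odd x with hx | hx
    · obtain ⟨y, rfl⟩ := hx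
      have : (y + y) * (y + y) = 2 * (2 * (y * y)) := by ring
      omega
    · obtain ⟨y, rfl⟩ := hx
      have : (2 * y + 1) * (2 * y + 1) = 2 * (2 * (y * y) + 2 * y) + 1 := by ring
      omega
  have hcop : Nat.Coprime 2 k := (Nat.coprime_two_left).mpr (Nat.odd_iff.mpr hk)
  rw [Nat.Coprime.card_divisors_mul hcop, hs] at h1
  have h3 : (Nat.divisors 2).card = 2 := by decide
  rw [h3] at h1
  have h4 : e (2 * k) = 2 * e k + s k := by omega
  rw [h4]
  push_cast
  have : (2 : ZMod 2) = 0 := by decide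
  rw [this, zero_mul, zero_add]

end Pool.Agent.R443.Nu2
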