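import Pool.Agent.R443.Nu2

/-!
# Partitions into two part sizes modulo 4: the counting
-/

set_option autoImplicit false

namespace Pool.Agent.R443.Nu2

open Finset

theorem s_eq_card {m n : ℕ} (h : m ≤ n) :
    s m = ((Icc 1 n).filter (fun u => u * u = m)).card := by
  by_cases hm : ∃ x : ℕ, 1 ≤ x ∧ x * x = m
  · obtain ⟨x, hx, rfl⟩ := hm
    rw [s_eq_one hx]
    symm
    rw [Finset.card_eq_one]
    refine ⟨x, ?_⟩
    ext y
    simp only [mem_filter, mem_Icc, mem_singleton]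
    constructor
    · rintro ⟨_, h⟩
      exact Nat.mul_self_inj.mp h
    · rintro rfl
      refine ⟨⟨hx, ?_⟩, rfl⟩
      nlinarith
  · rw [s_eq_zero (fun x hx he => hm ⟨x, hx, he⟩)]
    symm
    rw [Finset.card_eq_zero, Finset.filter_eq_empty_iff]
    intro y hy he
    rw [mem_Icc] at hy
    exact hm ⟨y, hy.1, he⟩

theorem card_filter_prod {α β : Type*} (A : Finset α) (B : Finset β) (P : α × β → Prop)
    [DecidablePred P] : ((A ×ˢ B).filter P).card = ∑ a ∈ A, (B.filter (fun b => P (a, b))).card := by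
  rw [card_filter, sum_product]
  apply sum_congr rfl
  intro a _
  rw [card_filter]

/-- the sum `∑_{a ≥ 1, a^2 < n} e(n - a^2)` -/
def E (n : ℕ) : ℕ := ∑ a ∈ Icc 1 n, e (n - a * a)

theorem E_even {N : ℕ} (hN : N % 2 = 1)
    (hns : ∀ x y : ℕ, 1 ≤ x → 1 ≤ y → x * x + y * y ≠ 2 * N) :
    ((E (2 * N) : ℕ) : ZMod 2) = 0 := by
  classical
  set n := 2 * N with hn
  have hR1 : ((∑ a ∈ (Icc 1 n).filter (fun a => a % 2 = 0), e (n - a * a) : ℕ) : ZMod 2) =
      ((((Icc 1 n ×ˢ Icc 1 n).filter (fun t => 2 * (t.1 * t.1) + 4 * (t.2 * t.2) = n)).card : ℕ) :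
        ZMod 2) := by
    have h1 : ∀ a ∈ (Icc 1 n).filter (fun a => a % 2 = 0),
        ((e (n - a * a) : ℕ) : ZMod 2) =
        ((((Icc 1 n).filter (fun u => a * a + 2 * (u * u) = n)).card : ℕ) : ZMod 2) := by
      intro a ha
      rw [mem_filter, mem_Icc] at ha
      obtain ⟨⟨ha1, ha2⟩, ha3⟩ := ha
      obtain ⟨b, rfl⟩ : ∃ b, a = 2 * b := ⟨a / 2, by omega⟩
      have e4 : 2 * b * (2 * b) = 4 * (b * b) := by ring
      rw [e4]
      by_cases hlt : 4 * (b * b) < n
      · have e1 : n - 4 * (b * b) = 2 * (N - 2 * (b * b)) := by omega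
        rw [e1, e_two (by omega), s_eq_card (n := n) (by omega)]
        refine congrArg (fun m : ℕ => (m : ZMod 2)) (congrArg Finset.card ?_)
        apply filter_congr
        intro u _
        constructor <;> intro h <;> omega
      · have e1 : n - 4 * (b * b) = 0 := by omega
        rw [e1, e_zero]
        refine congrArg (fun m : ℕ => (m : ZMod 2)) ?_
        symm
        rw [Finset.card_eq_zero, Finset.filter_eq_empty_iff]
        intro y hy he
        rw [mem_Icc] at hy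
        have : 1 ≤ y * y := Nat.mul_pos hy.1 hy.1
        omega
    rw [Nat.cast_sum, Finset.sum_congr rfl h1, ← Nat.cast_sum,
      ← card_filter_prod (P := fun t : ℕ × ℕ => t.1 * t.1 + 2 * (t.2 * t.2) = n)]
    refine congrArg (fun m : ℕ => (m : ZMod 2)) ?_
    apply card_nbij' (fun t => (t.2, t.1 / 2)) (fun t => (2 * t.2, t.1))
    · rintro ⟨a, u⟩ h
      simp only [coe_filter, Set.mem_ofPred, mem_product, mem_filter, mem_Icc] at h ⊢
      obtain ⟨⟨⟨⟨h1, h2⟩, h3⟩, h4, h5⟩, h6⟩ := h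
      obtain ⟨b, rfl⟩ : ∃ b, a = 2 * b := ⟨a / 2, by omega⟩
      rw [show 2 * b / 2 = b by omega]
      have e4 : 2 * b * (2 * b) = 4 * (b * b) := by ring
      omega
    · rintro ⟨u, b⟩ h
      simp only [coe_filter, Set.mem_ofPred, mem_product, mem_filter, mem_Icc] at h ⊢
      obtain ⟨⟨⟨h1, h2⟩, h3, h4⟩, h5⟩ := h
      have e4 : 2 * b * (2 * b) = 4 * (b * b) := by ring
      have e5 : b ≤ b * b := by nlinarith
      omega
    · rintro ⟨a, u⟩ h
      simp only [coe_filter, Set.mem_ofPred, mem_product, mem_filter, mem_Icc] at h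
      simp only [Prod.mk.injEq, and_true]
      omega
    · rintro ⟨u, b⟩ h
      simp only [Prod.mk.injEq, true_and]
      omega
  have hR2 : ((∑ a ∈ (Icc 1 n).filter (fun a => ¬ a % 2 = 0), e (n - a * a) : ℕ) : ZMod 2) =
      ((((Icc 1 n ×ˢ Icc 1 n).filter (fun t => 2 * (t.1 * t.1) + 4 * (t.2 * t.2) = n)).card : ℕ) :
        ZMod 2) := by
    have h1 : ∀ a ∈ (Icc 1 n).filter (fun a => ¬ a % 2 = 0),
        ((e (n - a * a) : ℕ) : ZMod 2) =
        ((((Icc 1 n ×ˢ Icc 1 n).filter (fun u => a * a + (u.1 * u.1 + 4 * (u.2 * u.2)) = n)).card : ℕ)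
          : ZMod 2) := by
      intro a ha
      rw [mem_filter, mem_Icc] at ha
      obtain ⟨⟨ha1, ha2⟩, ha3⟩ := ha
      obtain ⟨b, rfl⟩ : ∃ b, a = 2 * b + 1 := ⟨a / 2, by omega⟩
      have e4 : (2 * b + 1) * (2 * b + 1) = 4 * (b * b + b) + 1 := by ring
      by_cases hlt : (2 * b + 1) * (2 * b + 1) < n
      · rw [e_odd (by omega) (s_eq_zero (fun x hx he => hns (2 * b + 1) x (by omega) hx (by omega)))]
        refine congrArg (fun m : ℕ => (m : ZMod 2)) (congrArg Finset.card ?_)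
        ext ⟨u, v⟩
        rw [mem_N4]
        simp only [mem_filter, mem_product, mem_Icc]
        rw [mul_assoc 4 v v]
        constructor
        · rintro ⟨h1, h2, h3⟩
          have e5 : u ≤ u * u := by nlinarith
          have e6 : v ≤ v * v := by nlinarith
          omega
        · rintro ⟨⟨⟨h1, h2⟩, h3, h4⟩, h5⟩
          omega
      · have e1 : n - (2 * b + 1) * (2 * b + 1) = 0 := by omega
        rw [e1, e_zero]
        refine congrArg (fun m : ℕ => (m : ZMod 2)) ?_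
        symm
        rw [Finset.card_eq_zero, Finset.filter_eq_empty_iff]
        rintro ⟨u, v⟩ hy he
        rw [mem_product, mem_Icc, mem_Icc] at hy
        simp only at hy he
        have : 1 ≤ u * u := Nat.mul_pos hy.1.1 hy.1.1
        omega
    rw [Nat.cast_sum, Finset.sum_congr rfl h1, ← Nat.cast_sum,
      ← card_filter_prod (P := fun t : ℕ × (ℕ × ℕ) =>
        t.1 * t.1 + (t.2.1 * t.2.1 + 4 * (t.2.2 * t.2.2)) = n)]
    rw [parity_invol _ (fun t => (t.2.1, t.1, t.2.2))]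
    · refine congrArg (fun m : ℕ => (m : ZMod 2)) ?_
      apply card_nbij' (fun t => (t.1, t.2.2)) (fun t => (t.1, t.1, t.2))
      · rintro ⟨a, u, v⟩ h
        simp only [coe_filter, Set.mem_ofPred, mem_product, mem_filter, mem_Icc,
          Prod.mk.injEq] at h ⊢
        obtain ⟨⟨⟨⟨⟨h1, h2⟩, h3⟩, h4, h5⟩, h6⟩, h7, h8, _⟩ := h
        subst h7
        omega
      · rintro ⟨a, v⟩ h
        simp only [coe_filter, Set.mem_ofPred, mem_product, mem_filter, mem_Icc,
          Prod.mk.injEq] at h ⊢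
        obtain ⟨⟨⟨h1, h2⟩, h3, h4⟩, h5⟩ := h
        refine ⟨⟨⟨⟨⟨h1, h2⟩, ?_⟩, ⟨h1, h2⟩, h3, h4⟩, by omega⟩, trivial⟩
        intro h6
        obtain ⟨b, rfl⟩ : ∃ b, a = 2 * b := ⟨a / 2, by omega⟩
        have e4 : 2 * b * (2 * b) = 4 * (b * b) := by ring
        omega
      · rintro ⟨a, u, v⟩ h
        simp only [coe_filter, Set.mem_ofPred, Prod.mk.injEq] at h
        simp only [Prod.mk.injEq, true_and, and_true]
        omega
      · rintro ⟨a, v⟩ _
        rfl
    · rintro ⟨a, u, v⟩ h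
      simp only [mem_filter, mem_product, mem_Icc] at h ⊢
      obtain ⟨⟨⟨⟨h1, h2⟩, h3⟩, ⟨h4, h5⟩, h6⟩, h7⟩ := h
      refine ⟨⟨⟨⟨h4, h5⟩, ?_⟩, ⟨h1, h2⟩, h6⟩, by omega⟩
      intro h8
      obtain ⟨b, rfl⟩ : ∃ b, a = 2 * b + 1 := ⟨a / 2, by omega⟩
      obtain ⟨c, rfl⟩ : ∃ c, u = 2 * c := ⟨u / 2, by omega⟩
      have e4 : (2 * b + 1) * (2 * b + 1) = 4 * (b * b + b) + 1 := by ring
      have e5 : 2 * c * (2 * c) = 4 * (c * c) := by ring
      omega
    · rintro ⟨a, u, v⟩ _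
      rfl
  unfold E
  rw [← Finset.sum_filter_add_sum_filter_not (Icc 1 n) (fun a => a % 2 = 0), Nat.cast_add, hR1, hR2]
  exact CharTwo.add_self_eq_zero _

end Pool.Agent.R443.Nu2
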