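import Pool.Agent.R443.Nu2b

/-!
# Partitions into two part sizes modulo 4: the main congruence
-/

set_option autoImplicit false

namespace Pool.Agent.R443.Nu2

open Finset

/-- `nu k n` is the number of partitions of `n` in which exactly `k` distinct part sizes occur. -/
def nu (k n : ℕ) : ℕ :=
  (univ.filter (fun p : n.Partition => p.parts.toFinset.card = k)).card

/-- the solutions of `a b + c d = n` -/
def Q (n : ℕ) : Finset ((ℕ × ℕ) × (ℕ × ℕ)) :=
  (((Icc 1 n) ×ˢ (Icc 1 n)) ×ˢ ((Icc 1 n) ×ˢ (Icc 1 n))).filter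
    (fun q => q.1.1 * q.1.2 + q.2.1 * q.2.2 = n)

theorem mem_Q {n a b c d : ℕ} : ((a, b), (c, d)) ∈ Q n ↔
    1 ≤ a ∧ 1 ≤ b ∧ 1 ≤ c ∧ 1 ≤ d ∧ a * b + c * d = n := by
  unfold Q
  simp only [mem_filter, mem_product, mem_Icc]
  constructor
  · rintro ⟨⟨⟨⟨h1, _⟩, h2, _⟩, ⟨h3, _⟩, h4, _⟩, h⟩
    exact ⟨h1, h2, h3, h4, h⟩
  · rintro ⟨h1, h2, h3, h4, h⟩
    refine ⟨⟨⟨⟨h1, ?_⟩, h2, ?_⟩, ⟨h3, ?_⟩, h4, ?_⟩, h⟩ <;> nlinarith

theorem Q_card (n : ℕ) : (Q n).card =
    ∑ p ∈ antidiagonal n, p.1.divisors.card * p.2.divisors.card := by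
  classical
  rw [card_eq_sum_card_fiberwise (f := fun q : (ℕ × ℕ) × (ℕ × ℕ) => (q.1.1 * q.1.2, q.2.1 * q.2.2))
    (t := antidiagonal n)]
  · apply sum_congr rfl
    rintro ⟨i, j⟩ hij
    rw [HasAntidiagonal.mem_antidiagonal] at hij
    simp only at hij
    rw [card_div, card_div, ← card_product]
    congr 1
    ext ⟨⟨a, b⟩, ⟨c, d⟩⟩
    rw [mem_filter, mem_Q, mem_product, Nat.mem_divisorsAntidiagonal, Nat.mem_divisorsAntidiagonal]
    simp only [Prod.mk.injEq]
    constructor
    · rintro ⟨⟨h1, h2, h3, h4, h5⟩, h6, h7⟩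
      refine ⟨⟨h6, ?_⟩, h7, ?_⟩
      · rw [← h6]; positivity
      · rw [← h7]; positivity
    · rintro ⟨⟨h6, h8⟩, h7, h9⟩
      rw [← h6] at h8
      rw [← h7] at h9
      refine ⟨⟨?_, ?_, ?_, ?_, ?_⟩, h6, h7⟩
      · exact Nat.pos_of_ne_zero (left_ne_zero_of_mul h8)
      · exact Nat.pos_of_ne_zero (right_ne_zero_of_mul h8)
      · exact Nat.pos_of_ne_zero (left_ne_zero_of_mul h9)
      · exact Nat.pos_of_ne_zero (right_ne_zero_of_mul h9)
      · rw [h6, h7]; exact hij
  · rintro ⟨⟨a, b⟩, ⟨c, d⟩⟩ h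
    rw [mem_coe, mem_Q] at h
    rw [mem_coe, HasAntidiagonal.mem_antidiagonal]
    exact h.2.2.2.2

/-- half of the solutions with different `a`, `c` -/
def F (n : ℕ) : Finset ((ℕ × ℕ) × (ℕ × ℕ)) := (Q n).filter (fun q => q.2.1 < q.1.1)

theorem Q_split (n : ℕ) : (Q n).card + n.divisors.card = 2 * (F n).card + ∑ a ∈ n.divisors, a := by
  classical
  have h1 : (Q n).card = (F n).card + ((Q n).filter (fun q => ¬ q.2.1 < q.1.1)).card := by
    rw [F, Finset.card_filter_add_card_filter_not]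
  have h2 : ((Q n).filter (fun q => ¬ q.2.1 < q.1.1)).card =
      (((Q n).filter (fun q => ¬ q.2.1 < q.1.1)).filter (fun q => q.1.1 = q.2.1)).card +
      (((Q n).filter (fun q => ¬ q.2.1 < q.1.1)).filter (fun q => ¬ q.1.1 = q.2.1)).card := by
    rw [Finset.card_filter_add_card_filter_not]
  have h3 : (((Q n).filter (fun q => ¬ q.2.1 < q.1.1)).filter (fun q => ¬ q.1.1 = q.2.1)).card =
      (F n).card := by
    apply card_nbij' Prod.swap Prod.swap
    · rintro ⟨⟨a, b⟩, ⟨c, d⟩⟩ h
      simp only [coe_filter, Set.mem_ofPred, mem_filter, F, Prod.swap_prod_mk] at h ⊢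
      rw [mem_Q] at h ⊢
      obtain ⟨⟨⟨h1, h2, h3, h4, h5⟩, h6⟩, h7⟩ := h
      refine ⟨⟨h3, h4, h1, h2, ?_⟩, by omega⟩
      omega
    · rintro ⟨⟨a, b⟩, ⟨c, d⟩⟩ h
      simp only [coe_filter, Set.mem_ofPred, mem_filter, F, Prod.swap_prod_mk] at h ⊢
      rw [mem_Q] at h ⊢
      obtain ⟨⟨h1, h2, h3, h4, h5⟩, h6⟩ := h
      refine ⟨⟨⟨h3, h4, h1, h2, ?_⟩, by omega⟩, by omega⟩
      omega
    · intro q _; exact Prod.swap_swap q
    · intro q _; exact Prod.swap_swap q
  have h4 : (((Q n).filter (fun q => ¬ q.2.1 < q.1.1)).filter (fun q => q.1.1 = q.2.1)).card =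
      ∑ a ∈ n.divisors, (n / a - 1) := by
    rw [card_eq_sum_card_fiberwise (f := fun q : (ℕ × ℕ) × (ℕ × ℕ) => q.1.1) (t := n.divisors)]
    · apply sum_congr rfl
      intro a ha
      rw [Nat.mem_divisors] at ha
      obtain ⟨⟨m, hm⟩, hn⟩ := ha
      have ha0 : 0 < a := by
        rcases Nat.eq_zero_or_pos a with rfl | h
        · simp at hm; omega
        · exact h
      have hdiv : n / a = m := by rw [hm, Nat.mul_div_cancel_left _ ha0]
      rw [hdiv]
      have : (Icc 1 (m - 1)).card = m - 1 := by rw [Nat.card_Icc]; omega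
      rw [← this]
      apply card_nbij' (fun q => q.1.2) (fun b => ((a, b), (a, m - b)))
      · rintro ⟨⟨a', b⟩, ⟨c, d⟩⟩ h
        simp only [coe_filter, Set.mem_ofPred, mem_filter, coe_Icc, Set.mem_Icc] at h ⊢
        rw [mem_Q] at h
        obtain ⟨⟨⟨⟨h1, h2, h3, h4, h5⟩, h6⟩, h7⟩, h8⟩ := h
        subst h8
        subst h7
        have h9 : a' * (b + d) = a' * m := by rw [← hm, ← h5]; ring
        have h10 := Nat.eq_of_mul_eq_mul_left ha0 h9
        omega
      · intro b hb
        simp only [coe_filter, Set.mem_ofPred, mem_filter, coe_Icc, Set.mem_Icc] at hb ⊢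
        rw [mem_Q]
        refine ⟨⟨⟨⟨ha0, hb.1, ha0, by omega, ?_⟩, by omega⟩, trivial⟩, trivial⟩
        rw [← mul_add, show b + (m - b) = m by omega, hm]
      · rintro ⟨⟨a', b⟩, ⟨c, d⟩⟩ h
        simp only [coe_filter, Set.mem_ofPred, mem_filter] at h
        rw [mem_Q] at h
        obtain ⟨⟨⟨⟨h1, h2, h3, h4, h5⟩, h6⟩, h7⟩, h8⟩ := h
        subst h8
        subst h7
        have h9 : a' * (b + d) = a' * m := by rw [← hm, ← h5]; ring
        have h10 := Nat.eq_of_mul_eq_mul_left ha0 h9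
        simp only [Prod.mk.injEq, true_and]
        omega
      · intro b _
        rfl
    · rintro ⟨⟨a', b⟩, ⟨c, d⟩⟩ h
      simp only [coe_filter, Set.mem_ofPred, mem_filter] at h
      rw [mem_Q] at h
      obtain ⟨⟨⟨h1, h2, h3, h4, h5⟩, h6⟩, h7⟩ := h
      subst h7
      rw [mem_coe, Nat.mem_divisors]
      refine ⟨⟨b + d, by rw [← h5]; ring⟩, ?_⟩
      rw [← h5]; positivity
  have h5 : ∑ a ∈ n.divisors, (n / a - 1) + n.divisors.card = ∑ a ∈ n.divisors, a := by
    rw [card_eq_sum_ones, ← sum_add_distrib]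
    have : ∑ a ∈ n.divisors, (n / a - 1 + 1) = ∑ a ∈ n.divisors, n / a := by
      apply sum_congr rfl
      intro a ha
      rw [Nat.mem_divisors] at ha
      have hpos : 0 < n / a := Nat.div_pos (Nat.le_of_dvd (Nat.pos_of_ne_zero ha.2) ha.1)
        (Nat.pos_of_dvd_of_pos ha.1 (Nat.pos_of_ne_zero ha.2))
      omega
    rw [this]
    exact Nat.sum_div_divisors n (fun a => a)
  omega

/-- the bijection with the partitions into two part sizes -/
def mkP {n : ℕ} (a b c d : ℕ) (h : 1 ≤ a ∧ 1 ≤ b ∧ 1 ≤ c ∧ 1 ≤ d ∧ a * b + c * d = n) :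
    n.Partition where
  parts := Multiset.replicate b a + Multiset.replicate d c
  parts_pos := by
    intro i hi
    simp only [Multiset.mem_add, Multiset.mem_replicate] at hi
    omega
  parts_sum := by
    simp only [Multiset.sum_add, Multiset.sum_replicate, smul_eq_mul]
    rw [← h.2.2.2.2]; ring

theorem nu_two (n : ℕ) : nu 2 n = (F n).card := by
  classical
  symm
  unfold nu
  have hF : ∀ q ∈ F n, 1 ≤ q.1.1 ∧ 1 ≤ q.1.2 ∧ 1 ≤ q.2.1 ∧ 1 ≤ q.2.2 ∧
      q.1.1 * q.1.2 + q.2.1 * q.2.2 = n := by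
    rintro ⟨⟨a, b⟩, ⟨c, d⟩⟩ h
    simp only [F, mem_filter] at h
    rw [mem_Q] at h
    exact h.1
  apply Finset.card_bij (fun (q : (ℕ × ℕ) × (ℕ × ℕ)) hq => mkP q.1.1 q.1.2 q.2.1 q.2.2 (hF q hq))
  · rintro ⟨⟨a, b⟩, ⟨c, d⟩⟩ hq
    have h := hF _ hq
    simp only [F, mem_filter] at hq
    simp only at h
    rw [mem_filter]
    refine ⟨mem_univ _, ?_⟩
    simp only [mkP, Multiset.toFinset_add, Multiset.toFinset_replicate]
    rw [if_neg (by omega), if_neg (by omega)]
    rw [Finset.card_union_of_disjoint, card_singleton, card_singleton]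
    rw [disjoint_singleton]
    omega
  · rintro ⟨⟨a, b⟩, ⟨c, d⟩⟩ hq ⟨⟨a', b'⟩, ⟨c', d'⟩⟩ hq' h
    have h1 := hF _ hq
    have h1' := hF _ hq'
    simp only [F, mem_filter] at hq hq'
    simp only at h1 h1'
    have hp : Multiset.replicate b a + Multiset.replicate d c =
        Multiset.replicate b' a' + Multiset.replicate d' c' := congrArg (fun p : n.Partition => p.parts) h
    have cnt : ∀ x, (if a = x then b else 0) + (if c = x then d else 0) =
        (if a' = x then b' else 0) + (if c' = x then d' else 0) := by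
      intro x
      have := congrArg (Multiset.count x) hp
      simpa only [Multiset.count_add, Multiset.count_replicate] using this
    have ca := cnt a
    have cc := cnt c
    have ca' := cnt a'
    have cc' := cnt c'
    rw [if_pos rfl] at ca
    rw [if_pos rfl, if_neg (show ¬ a = c by omega)] at cc
    rw [if_pos rfl, if_neg (show ¬ c' = a' by omega)] at ca'
    rw [if_pos rfl, if_neg (show ¬ a' = c' by omega)] at cc'
    rw [if_neg (show ¬ c = a by omega)] at ca
    simp only [Prod.mk.injEq]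
    split_ifs at ca cc ca' cc' <;> omega
  · intro p hp
    rw [mem_filter, card_eq_two] at hp
    obtain ⟨x, y, hxy, hset⟩ := hp.2
    have main : ∀ x y : ℕ, y < x → p.parts.toFinset = {x, y} →
        ∃ (q : (ℕ × ℕ) × (ℕ × ℕ)) (hq : q ∈ F n), mkP q.1.1 q.1.2 q.2.1 q.2.2 (hF q hq) = p := by
      intro x y hlt hset
      have hx : x ∈ p.parts := by rw [← Multiset.mem_toFinset, hset]; simp
      have hy : y ∈ p.parts := by rw [← Multiset.mem_toFinset, hset]; simp
      have hsub : p.parts = Multiset.replicate (p.parts.count x) x +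
          Multiset.replicate (p.parts.count y) y := by
        ext a
        rw [Multiset.count_add, Multiset.count_replicate, Multiset.count_replicate]
        by_cases ha : a ∈ p.parts
        · rw [← Multiset.mem_toFinset, hset, mem_insert, mem_singleton] at ha
          rcases ha with rfl | rfl
          · rw [if_pos rfl, if_neg hlt.ne, add_zero]
          · rw [if_pos rfl, if_neg hlt.ne', zero_add]
        · have h0 := Multiset.count_eq_zero_of_notMem ha
          rw [h0, if_neg (fun h : x = a => ha (h ▸ hx)), if_neg (fun h : y = a => ha (h ▸ hy))]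
      have hsum : x * p.parts.count x + y * p.parts.count y = n := by
        have h3 := p.parts_sum
        have h4 := congrArg Multiset.sum hsub
        simp only [Multiset.sum_add, Multiset.sum_replicate, smul_eq_mul] at h4
        rw [mul_comm x, mul_comm y]
        omega
      refine ⟨((x, p.parts.count x), (y, p.parts.count y)), ?_, ?_⟩
      · simp only [F, mem_filter]
        rw [mem_Q]
        refine ⟨⟨p.parts_pos hx, ?_, p.parts_pos hy, ?_, hsum⟩, hlt⟩
        · exact Multiset.one_le_count_iff_mem.mpr hx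
        · exact Multiset.one_le_count_iff_mem.mpr hy
      · apply Nat.Partition.ext
        simp only [mkP]
        exact hsub.symm
    rcases lt_or_gt_of_ne hxy with h | h
    · exact main y x h (by rw [hset, Finset.pair_comm])
    · exact main x y h hset

theorem nu_formula (n : ℕ) : 2 * nu 2 n + ∑ a ∈ n.divisors, a =
    ∑ p ∈ antidiagonal n, p.1.divisors.card * p.2.divisors.card + n.divisors.card := by
  rw [nu_two, ← Q_card, Q_split]

theorem sum_s_e (n : ℕ) : ∑ p ∈ antidiagonal n, s p.1 * e p.2 = E n := by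
  rw [Finset.Nat.sum_antidiagonal_eq_sum_range_succ_mk]
  have h1 : ∀ i ∈ range n.succ, s i * e (n - i) =
      ∑ a ∈ Icc 1 n, if a * a = i then e (n - i) else 0 := by
    intro i hi
    rw [mem_range] at hi
    rw [s_eq_card (n := n) (by omega), card_eq_sum_ones, sum_filter, sum_mul]
    apply sum_congr rfl
    intro a _
    split_ifs <;> simp
  rw [sum_congr rfl h1, sum_comm]
  unfold E
  apply sum_congr rfl
  intro a _
  rw [Finset.sum_ite_eq]
  split_ifs with h
  · rfl
  · rw [mem_range] at h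
    rw [show n - a * a = 0 by omega, e_zero]

theorem sum_e_s (n : ℕ) : ∑ p ∈ antidiagonal n, e p.1 * s p.2 = E n := by
  rw [← sum_s_e, ← Finset.Nat.sum_antidiagonal_swap]
  apply sum_congr rfl
  intro p _
  simp only [Prod.fst_swap, Prod.snd_swap]
  ring

theorem sum_e_e (N : ℕ) : ((∑ p ∈ antidiagonal (2 * N), e p.1 * e p.2 : ℕ) : ZMod 2) = e N := by
  rw [← Finset.sum_filter_add_sum_filter_not (antidiagonal (2 * N)) (fun p => p.1 = p.2)]
  have h1 : (antidiagonal (2 * N)).filter (fun p => p.1 = p.2) = {(N, N)} := by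
    ext ⟨a, b⟩
    rw [mem_filter, HasAntidiagonal.mem_antidiagonal, mem_singleton, Prod.mk.injEq]
    simp only
    omega
  have h2 : ((∑ p ∈ (antidiagonal (2 * N)).filter (fun p => ¬ p.1 = p.2), e p.1 * e p.2 : ℕ) :
      ZMod 2) = 0 := by
    rw [Nat.cast_sum]
    apply Finset.sum_involution (fun p _ => p.swap)
    · intro p _
      simp only [Prod.fst_swap, Prod.snd_swap]
      rw [mul_comm (e p.2)]
      exact CharTwo.add_self_eq_zero _
    · intro p hp _
      rw [mem_filter] at hp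
      intro h
      apply hp.2
      have := congrArg Prod.fst h
      simpa using this.symm
    · intro p _
      exact Prod.swap_swap p
    · intro p hp
      rw [mem_filter, HasAntidiagonal.mem_antidiagonal] at hp ⊢
      simp only [Prod.fst_swap, Prod.snd_swap]
      exact ⟨by omega, fun h => hp.2 h.symm⟩
  rw [Nat.cast_add, h2, add_zero, h1, sum_singleton]
  push_cast
  have : ∀ x : ZMod 2, x * x = x := by decide
  exact this _

theorem cast_eq_zero_iff_even (n : ℕ) : (n : ZMod 2) = 0 ↔ 2 ∣ n := by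
  exact ZMod.natCast_eq_zero_iff n 2

/-- The main congruence. -/
theorem four_dvd_nu {N : ℕ} (hN : N % 2 = 1)
    (hns : ∀ x y : ℕ, 1 ≤ x → 1 ≤ y → x * x + y * y ≠ 2 * N)
    (hσ : 8 ∣ ∑ a ∈ (2 * N).divisors, a) : 4 ∣ nu 2 (2 * N) := by
  have hsN : s N = 0 := s_eq_zero (fun x hx he => hns x x hx hx (by omega))
  have h0 := nu_formula (2 * N)
  have h1 : ∑ p ∈ antidiagonal (2 * N), p.1.divisors.card * p.2.divisors.card =
      4 * (∑ p ∈ antidiagonal (2 * N), e p.1 * e p.2) + 4 * E (2 * N) := by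
    have h2 : ∀ p ∈ antidiagonal (2 * N), p.1.divisors.card * p.2.divisors.card =
        4 * (e p.1 * e p.2) + 2 * (e p.1 * s p.2) + 2 * (s p.1 * e p.2) := by
      rintro ⟨i, j⟩ hij
      rw [HasAntidiagonal.mem_antidiagonal] at hij
      simp only at hij ⊢
      have h3 : s i * s j = 0 := by
        by_contra hne
        obtain ⟨x, hx, hxi⟩ := s_pos_iff.mp (left_ne_zero_of_mul hne)
        obtain ⟨y, hy, hyj⟩ := s_pos_iff.mp (right_ne_zero_of_mul hne)
        exact hns x y hx hy (by rw [hxi, hyj]; exact hij)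
      rw [card_eq, card_eq]
      linear_combination h3
    rw [sum_congr rfl h2, sum_add_distrib, sum_add_distrib, ← mul_sum, ← mul_sum, ← mul_sum,
      sum_s_e, sum_e_s]
    ring
  have h2 := sum_e_e N
  set X := ∑ p ∈ antidiagonal (2 * N), e p.1 * e p.2 with hX
  have h3 : 2 ∣ X + e N := by
    rw [← cast_eq_zero_iff_even, Nat.cast_add, h2]
    exact CharTwo.add_self_eq_zero _
  have h4 : 2 ∣ E (2 * N) := (cast_eq_zero_iff_even _).mp (E_even hN hns)
  have h5 : (2 * N).divisors.card = 4 * e N := by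
    have hcop : Nat.Coprime 2 N := (Nat.coprime_two_left).mpr (Nat.odd_iff.mpr hN)
    have h6 : (Nat.divisors 2).card = 2 := by decide
    rw [Nat.Coprime.card_divisors_mul hcop, h6, card_eq, hsN]
    ring
  rw [h1, h5] at h0
  omega

end Pool.Agent.R443.Nu2
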