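import Pool.Agent.R684.PN.Stm

set_option autoImplicit false
set_option linter.unusedSectionVars false

open scoped InnerProductSpace InnerProduct ENNReal

/-! Comparison of von Neumann dimensions for a subgroup (piece CMP). -/

namespace Pool.Agent.R443.PNCMP

open Pool.Agent.W649.ZL Pool.Agent.R684.PN

section
variable {X Y : Type}

theorem nsq (f : lp (fun _ : X => ℂ) 2) : ‖f‖ ^ 2 = ∑' x, ‖f x‖ ^ 2 := by
  have h := lp.norm_rpow_eq_tsum (p := 2) (by norm_num) f
  simpa only [ENNReal.toReal_ofNat, Real.rpow_ofNat] using h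

theorem memR (e : Y → X) (he : Function.Injective e) (f : lp (fun _ : X => ℂ) 2) :
    Memℓp (fun y => f (e y)) 2 := by
  rw [memlp_two_iff]
  exact ((memlp_two_iff _).1 f.2).comp_injective he

/-- restriction along an injective map -/
noncomputable def RR (e : Y → X) (he : Function.Injective e) :
    lp (fun _ : X => ℂ) 2 →L[ℂ] lp (fun _ : Y => ℂ) 2 :=
  LinearMap.mkContinuous
    { toFun := fun f => ⟨fun y => f (e y), memR e he f⟩
      map_add' := fun f g => by ext y; rfl
      map_smul' := fun a f => by ext y; rfl } 1 (by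
    intro f
    rw [one_mul]
    have h1 := nsq (⟨fun y => f (e y), memR e he f⟩ : lp (fun _ : Y => ℂ) 2)
    have h2 := nsq f
    have h3 : ∑' y, ‖f (e y)‖ ^ 2 ≤ ∑' x, ‖f x‖ ^ 2 :=
      tsum_comp_le_tsum_of_inj ((memlp_two_iff _).1 f.2) (fun _ => by positivity) he
    have h4 : ‖(⟨fun y => f (e y), memR e he f⟩ : lp (fun _ : Y => ℂ) 2)‖ ^ 2 ≤ ‖f‖ ^ 2 := by
      rw [h1, h2]; exact h3
    exact (sq_le_sq₀ (norm_nonneg _) (norm_nonneg _)).1 h4)

theorem RR_apply (e : Y → X) (he : Function.Injective e) (f : lp (fun _ : X => ℂ) 2) (y : Y) :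
    RR e he f y = f (e y) := rfl

theorem RR_norm (e : Y → X) (he : Function.Injective e) : ‖RR e he‖ ≤ 1 :=
  LinearMap.mkContinuous_norm_le _ zero_le_one _

end

theorem t_CMP : S_CMP := by
  intro Γ H S J _ _ _ _ ι hι U hUc hUi B hB hinj m g hg
  classical
  set e : H × (Fin m × S) → Γ × S := fun x => (g x.2.1 * ι x.1, x.2.2) with he_def
  have he : Function.Injective e := by
    rintro ⟨h, t, s⟩ ⟨h', t', s'⟩ hh
    simp only [he_def, Prod.mk.injEq] at hh
    obtain ⟨h1, h2⟩ := hh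
    have h3 : g t * ι (h * h'⁻¹) = g t' := by
      rw [map_mul, map_inv, ← mul_assoc, h1]; group
    have h4 := hg t t' _ h3
    subst h4
    have h5 : ι h = ι h' := mul_left_cancel h1
    rw [hι h5, h2]
  set R := RR e he with hR
  set Q : EE H (Fin m × S) →L[ℂ] EE Γ S := ContinuousLinearMap.adjoint R with hQ
  have hQn : ∀ x, ‖Q x‖ ≤ ‖x‖ := by
    intro x
    refine (Q.le_opNorm x).trans ?_
    have : ‖Q‖ ≤ 1 := by
      rw [hQ, LinearIsometryEquiv.norm_map]; exact RR_norm e he
    nlinarith [norm_nonneg x]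
  have hRtr : ∀ (k : H) (f : EE Γ S), R (tr (ι k) f) = tr k (R f) := by
    intro k f
    ext ⟨h, t, s⟩
    change (tr (ι k) f) (g t * ι h, s) = (R f) (h * k, (t, s))
    rw [tr_apply]
    change f (g t * ι h * ι k, s) = f (g t * ι (h * k), s)
    rw [map_mul, mul_assoc]
  have hQtr : ∀ (k : H) (x : EE H (Fin m × S)), Q (tr k x) = tr (ι k) (Q x) := by
    intro k x
    apply ext_inner_right ℂ
    intro v
    rw [hQ, ContinuousLinearMap.adjoint_inner_left, inner_tr_left, ← hRtr, inner_tr_left,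
      ContinuousLinearMap.adjoint_inner_left, map_inv]
  have hRdl : ∀ y, R (dl (e y)) = dl y := by
    intro y
    ext z
    change (dl (e y) : EE Γ S) (e z) = dl y z
    by_cases hz : z = y
    · rw [hz, dl_apply_self, dl_apply_self]
    · rw [dl_apply_ne _ _ hz, dl_apply_ne _ _ (fun h => hz (he h))]
  haveI : CompleteSpace U := hUc.completeSpace_coe
  set T : EE H (Fin m × S) →L[ℂ] EE H J := B.comp (U.starProjection.comp Q) with hT
  have hTe : Eqv T := by
    intro k x
    simp only [hT, ContinuousLinearMap.comp_apply]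
    rw [hQtr, proj_tr hUi, hB]
  have htop : Pool.Agent.W649.ZL.Inv (⊤ : Submodule ℂ (EE H (Fin m × S))) := fun _ _ _ => trivial
  have hrn := rank_nullity T hTe htop (by simp)
  rw [vd_top] at hrn
  have hle : vd ((⊤ : Submodule ℂ (EE H (Fin m × S))).map
      (T : EE H (Fin m × S) →ₗ[ℂ] EE H J)) ≤ Fintype.card J := by
    rw [← vd_top (G := H) (J := J)]
    exact vd_mono le_top
  set K0 := (⊤ : Submodule ℂ (EE H (Fin m × S))) ⊓
    LinearMap.ker (T : EE H (Fin m × S) →ₗ[ℂ] EE H J) with hK0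
  have hK0c : IsClosed (K0 : Set (EE H (Fin m × S))) := by
    rw [hK0, top_inf_eq]
    exact ContinuousLinearMap.isClosed_ker T
  haveI : CompleteSpace K0 := hK0c.completeSpace_coe
  have hvU : vd U = ∑ s : S, ‖U.starProjection (dl ((1 : Γ), s))‖ ^ 2 :=
    vd_eq U U (topcl_eq hUc)
  have hvK : vd K0 = ∑ y : Fin m × S, ‖K0.starProjection (dl ((1 : H), y))‖ ^ 2 :=
    vd_eq K0 K0 (topcl_eq hK0c)
  have key : ∀ y : Fin m × S, ‖K0.starProjection (dl ((1 : H), y))‖ ^ 2
      ≤ 1 - ‖U.starProjection (dl ((1 : Γ), y.2))‖ ^ 2 := by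
    rintro ⟨t, s⟩
    set v := K0.starProjection (dl ((1 : H), (t, s))) with hv
    have hvK0 : v ∈ K0 := Submodule.starProjection_apply_mem _ _
    have hTv : T v = 0 := hvK0.2
    have hPQ : U.starProjection (Q v) = 0 := by
      apply hinj _ (Submodule.starProjection_apply_mem _ _)
      exact hTv
    have hperp : Q v ∈ Uᗮ := (Submodule.starProjection_apply_eq_zero_iff U).1 hPQ
    set δ : EE Γ S := dl (e (1, (t, s))) with hδ
    have h1 : ⟪δ, Q v⟫_ℂ = ⟪(dl ((1 : H), (t, s)) : EE H (Fin m × S)), v⟫_ℂ := by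
      rw [hQ, ContinuousLinearMap.adjoint_inner_right, hδ, hRdl]
    have h2 : ⟪δ, Q v⟫_ℂ = ⟪δ - U.starProjection δ, Q v⟫_ℂ := by
      rw [inner_sub_left, Submodule.inner_right_of_mem_orthogonal
        (Submodule.starProjection_apply_mem U δ) hperp, sub_zero]
    have h3 : ‖v‖ ^ 2 = (⟪(dl ((1 : H), (t, s)) : EE H (Fin m × S)), v⟫_ℂ).re := norm_sq_star K0 _
    have h4 : ‖v‖ ^ 2 ≤ ‖δ - U.starProjection δ‖ * ‖v‖ := by
      rw [h3, ← h1, h2]
      refine (Complex.re_le_norm _).trans ?_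
      refine (norm_inner_le_norm _ _).trans ?_
      exact mul_le_mul_of_nonneg_left (hQn v) (norm_nonneg _)
    have h5 : ‖v‖ ≤ ‖δ - U.starProjection δ‖ := by
      by_cases hv0 : ‖v‖ = 0
      · rw [hv0]; exact norm_nonneg _
      · have hpos : 0 < ‖v‖ := lt_of_le_of_ne (norm_nonneg _) (Ne.symm hv0)
        nlinarith
    have h6 : ‖δ - U.starProjection δ‖ ^ 2 = 1 - ‖U.starProjection δ‖ ^ 2 := by
      have h7 : ⟪U.starProjection δ, δ - U.starProjection δ⟫_ℂ = 0 :=
        Submodule.inner_right_of_mem_orthogonal (Submodule.starProjection_apply_mem U δ)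
          (Submodule.sub_starProjection_mem_orthogonal δ)
      have h8 := norm_add_sq_eq_norm_sq_add_norm_sq_of_inner_eq_zero _ _ h7
      rw [add_sub_cancel] at h8
      have h9 : ‖δ‖ = 1 := norm_dl _
      rw [h9] at h8
      nlinarith
    have h10 : ‖U.starProjection δ‖ = ‖U.starProjection (dl ((1 : Γ), s))‖ := by
      have : δ = tr (g t)⁻¹ (dl ((1 : Γ), s)) := by
        rw [tr_dl, hδ, he_def]
        simp
      rw [this, proj_tr hUi, norm_tr]
    calc ‖v‖ ^ 2 ≤ ‖δ - U.starProjection δ‖ ^ 2 := by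
          gcongr
      _ = _ := by rw [h6, h10]
  have hsum : vd K0 ≤ Fintype.card (Fin m × S) - m * vd U := by
    rw [hvK, hvU]
    calc _ ≤ ∑ y : Fin m × S, (1 - ‖U.starProjection (dl ((1 : Γ), y.2))‖ ^ 2) :=
          Finset.sum_le_sum fun y _ => key y
      _ = _ := by
          rw [Finset.sum_sub_distrib]
          congr 1
          · simp
          · rw [Fintype.sum_prod_type]
            simp
  linarith

end Pool.Agent.R443.PNCMP
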