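import Mathlib

/-!
# Basic facts on integral power series with cyclotomic-type factors
-/

set_option autoImplicit false

namespace Pool.Agent.R443.PS

open PowerSeries Finset

/-- The inverse of `1 - X^d`. -/
noncomputable def iv (d : ℕ) : ℤ⟦X⟧ := invOfUnit (1 - X ^ d) 1

theorem mul_iv {d : ℕ} (hd : d ≠ 0) : (1 - X ^ d) * iv d = 1 := by
  unfold iv
  rw [mul_invOfUnit]
  simp [hd]

theorem iv_mul {d : ℕ} (hd : d ≠ 0) : iv d * (1 - X ^ d) = 1 := by
  rw [mul_comm, mul_iv hd]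

theorem eq_iv_pow {d k : ℕ} (hd : d ≠ 0) {f : ℤ⟦X⟧} (h : f * (1 - X ^ d) ^ k = 1) :
    f = iv d ^ k := by
  have h1 : (1 - X ^ d : ℤ⟦X⟧) ^ k * iv d ^ k = 1 := by
    rw [← mul_pow, mul_iv hd, one_pow]
  calc f = f * ((1 - X ^ d : ℤ⟦X⟧) ^ k * iv d ^ k) := by rw [h1, mul_one]
    _ = iv d ^ k := by rw [← mul_assoc, h, one_mul]

/-- explicit powers of the inverse of `1 - X^d` -/
theorem iv_pow_succ {d : ℕ} (hd : d ≠ 0) (k : ℕ) :
    iv d ^ (k + 1) = expand d hd (mk fun n => ((Nat.choose (k + n) k : ℕ) : ℤ)) := by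
  symm
  apply eq_iv_pow hd
  have h := congrArg (expand d hd) (mk_add_choose_mul_one_sub_pow_eq_one (S := ℤ) k)
  rw [map_mul, map_pow, map_sub, map_one, expand_X] at h
  exact h

theorem coeff_iv_pow_succ {d : ℕ} (hd : d ≠ 0) (k n : ℕ) :
    coeff n (iv d ^ (k + 1)) = if d ∣ n then ((Nat.choose (k + n / d) k : ℕ) : ℤ) else 0 := by
  rw [iv_pow_succ hd]
  split_ifs with h
  · obtain ⟨m, rfl⟩ := h
    rw [mul_comm d m, Nat.mul_div_cancel _ (Nat.pos_of_ne_zero hd), mul_comm m d,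
      coeff_expand_mul, coeff_mk]
  · rw [coeff_expand_of_not_dvd d hd _ h]

/-- coefficients of a product with an expanded series -/
theorem coeff_expand_mul' {R : Type*} [CommRing R] {d : ℕ} (hd : d ≠ 0) (f g : R⟦X⟧) (n : ℕ) :
    coeff n (expand d hd g * f) = ∑ b ∈ range (n / d + 1), coeff b g * coeff (n - d * b) f := by
  rw [coeff_mul, Finset.Nat.sum_antidiagonal_eq_sum_range_succ_mk]
  have hdp : 0 < d := Nat.pos_of_ne_zero hd
  have h1 : ∑ j ∈ range (n + 1), coeff j ((expand d hd) g) * coeff (n - j) f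
      = ∑ j ∈ (range (n + 1)).filter (fun j => d ∣ j), coeff (j / d) g * coeff (n - j) f := by
    rw [Finset.sum_filter]
    apply Finset.sum_congr rfl
    intro j hj
    split_ifs with h
    · obtain ⟨m, rfl⟩ := h
      rw [coeff_expand_mul, Nat.mul_div_cancel_left _ hdp]
    · rw [coeff_expand_of_not_dvd d hd _ h, zero_mul]
  refine h1.trans ?_
  symm
  apply Finset.sum_bij (fun b _ => d * b)
  · intro b hb
    rw [mem_range] at hb
    rw [mem_filter, mem_range]
    refine ⟨?_, dvd_mul_right d b⟩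
    have : d * b ≤ n := by
      have : b ≤ n / d := by omega
      calc d * b ≤ d * (n / d) := Nat.mul_le_mul_left d this
        _ ≤ n := Nat.mul_div_le n d
    omega
  · intro a _ b _ h
    exact Nat.eq_of_mul_eq_mul_left hdp h
  · intro j hj
    rw [mem_filter, mem_range] at hj
    obtain ⟨hj1, m, rfl⟩ := hj
    refine ⟨m, ?_, rfl⟩
    rw [mem_range]
    have : m ≤ n / d := (Nat.le_div_iff_mul_le hdp).mpr (by rw [mul_comm]; omega)
    omega
  · intro b _
    rw [Nat.mul_div_cancel_left _ hdp]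

theorem coeff_iv_pow_mul {d : ℕ} (hd : d ≠ 0) (k : ℕ) (f : ℤ⟦X⟧) (n : ℕ) :
    coeff n (iv d ^ (k + 1) * f) =
      ∑ b ∈ range (n / d + 1), ((Nat.choose (k + b) k : ℕ) : ℤ) * coeff (n - d * b) f := by
  rw [iv_pow_succ hd, coeff_expand_mul' hd]
  simp only [coeff_mk]

/-- factors with large exponents do not matter -/
theorem coeff_iv_pow_mul_of_lt {d : ℕ} (k : ℕ) (f : ℤ⟦X⟧) {n : ℕ} (h : n < d) :
    coeff n (iv d ^ k * f) = coeff n f := by
  have hd : d ≠ 0 := by omega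
  rcases k with _ | k
  · simp
  · rw [coeff_iv_pow_mul hd, Nat.div_eq_of_lt h]
    simp

end Pool.Agent.R443.PS
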