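import Mathlib

/-!
q-Delannoy numbers over a commutative ring: Gaussian binomials, generating functions,
recurrences and the telescoping identity.
-/

namespace Pool.Agent.R443.QDel

open Finset PowerSeries

variable {R : Type*} [CommRing R]

/-- Gaussian binomial coefficients, by the q-Pascal recursion. -/
def gauss (q : R) : ℕ → ℕ → R
  | _, 0 => 1
  | 0, _ + 1 => 0
  | n + 1, k + 1 => gauss q n k + q ^ (k + 1) * gauss q n (k + 1)

/-- The q-Delannoy numbers. -/
def D (q : R) (m n : ℕ) : R :=
  ∑ j ∈ range (n + 1), q ^ (j * (j - 1) / 2) * gauss q n j * gauss q (m + n - j) n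

lemma gauss_zero_right (q : R) (n : ℕ) : gauss q n 0 = 1 := by cases n <;> simp [gauss]

lemma gauss_succ_succ (q : R) (n k : ℕ) :
    gauss q (n + 1) (k + 1) = gauss q n k + q ^ (k + 1) * gauss q n (k + 1) := by
  simp [gauss]

lemma gauss_eq_zero (q : R) : ∀ (n k : ℕ), n < k → gauss q n k = 0
  | _, 0, h => by omega
  | 0, k + 1, _ => by simp [gauss]
  | n + 1, k + 1, h => by
    rw [gauss_succ_succ, gauss_eq_zero q n k (by omega), gauss_eq_zero q n (k + 1) (by omega)]
    ring

lemma gauss_self (q : R) : ∀ (n : ℕ), gauss q n n = 1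
  | 0 => by simp [gauss]
  | n + 1 => by
    rw [gauss_succ_succ, gauss_self q n, gauss_eq_zero q n (n + 1) (by omega)]
    ring

lemma gauss_aux (q : R) : ∀ (n k : ℕ),
    (q ^ k - q ^ n) * gauss q n k = q ^ k * (1 - q ^ (k + 1)) * gauss q n (k + 1)
  | 0, 0 => by simp [gauss]
  | 0, k + 1 => by simp [gauss]
  | n + 1, 0 => by
    have h := gauss_aux q n 0
    rw [gauss_zero_right] at h ⊢
    rw [gauss_succ_succ, gauss_zero_right]
    linear_combination q * h
  | n + 1, k + 1 => by
    have h := gauss_aux q n (k + 1)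
    have h0 := gauss_aux q n k
    rw [gauss_succ_succ q n k, gauss_succ_succ q n (k + 1)]
    linear_combination q * h0 + q ^ (k + 2) * h

lemma gauss_absorb (q : R) (n k : ℕ) :
    (1 - q ^ (k + 1)) * gauss q (n + 1) (k + 1) = (1 - q ^ (n + 1)) * gauss q n k := by
  have h := gauss_aux q n k
  rw [gauss_succ_succ]
  linear_combination (-q) * h

/-- The product formula for Gaussian binomials. -/
theorem gauss_prod (q : R) : ∀ (k n : ℕ), k ≤ n →
    gauss q n k * ∏ i ∈ range k, (1 - q ^ (i + 1)) = ∏ i ∈ range k, (1 - q ^ (n - i))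
  | 0, n, _ => by simp [gauss_zero_right]
  | k + 1, 0, h => by omega
  | k + 1, n + 1, h => by
    have ih := gauss_prod q k n (by omega)
    have ha := gauss_absorb q n k
    rw [prod_range_succ, prod_range_succ']
    have e : ∏ i ∈ range k, (1 - q ^ (n + 1 - (i + 1))) = ∏ i ∈ range k, (1 - q ^ (n - i)) := by
      apply prod_congr rfl
      intro i _
      congr 2
      omega
    rw [e, ← ih]
    simp only [Nat.sub_zero]
    linear_combination (∏ i ∈ range k, (1 - q ^ (i + 1))) * ha

lemma gauss_map {S : Type*} [CommRing S] (f : R →+* S) (q : R) :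
    ∀ (n k : ℕ), f (gauss q n k) = gauss (f q) n k
  | _, 0 => by simp [gauss_zero_right]
  | 0, k + 1 => by simp [gauss]
  | n + 1, k + 1 => by
    rw [gauss_succ_succ, gauss_succ_succ, map_add, map_mul, map_pow, gauss_map f q n k,
      gauss_map f q n (k + 1)]

lemma D_map {S : Type*} [CommRing S] (f : R →+* S) (q : R) (m n : ℕ) :
    f (D q m n) = D (f q) m n := by
  simp only [D, map_sum, map_mul, map_pow, gauss_map]

/-- The numerator product. -/
noncomputable def P (q : R) (n : ℕ) : R⟦X⟧ := ∏ i ∈ range n, (1 + C (q ^ i) * X)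

/-- The series of Gaussian binomials. -/
noncomputable def H (q : R) (n : ℕ) : R⟦X⟧ := PowerSeries.mk fun m => gauss q (m + n) n

lemma P_succ (q : R) (n : ℕ) : P q (n + 1) = (1 + X) * rescale q (P q n) := by
  unfold P
  rw [prod_range_succ', map_prod, mul_comm]
  congr 1
  · simp
  · apply prod_congr rfl
    intro i _
    simp only [map_add, map_one, map_mul, rescale_X]
    have : rescale q (C (q ^ i)) = C (q ^ i) := by
      ext k
      rw [coeff_rescale, coeff_C]
      by_cases hk : k = 0
      · simp [hk]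
      · simp [hk]
    rw [this, pow_succ, map_mul]
    ring

lemma tri_succ (j : ℕ) : (j + 1) * (j + 1 - 1) / 2 = j + j * (j - 1) / 2 := by
  cases j with
  | zero => rfl
  | succ j =>
    have e1 : (j + 1 + 1) * (j + 1 + 1 - 1) = 2 * (j + 1) + (j + 1) * (j + 1 - 1) := by
      simp only [Nat.add_sub_cancel]
      ring
    rw [e1]
    omega

lemma coeff_P (q : R) : ∀ (n j : ℕ), coeff j (P q n) = q ^ (j * (j - 1) / 2) * gauss q n j
  | 0, 0 => by simp [P, gauss]
  | 0, j + 1 => by simp [P, gauss, coeff_one]
  | n + 1, 0 => by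
    rw [P_succ, gauss_zero_right]
    have h := coeff_P q n 0
    rw [gauss_zero_right] at h
    rw [add_mul, one_mul, map_add, coeff_rescale, h, coeff_zero_X_mul]
    simp
  | n + 1, j + 1 => by
    rw [P_succ, gauss_succ_succ, add_mul, one_mul, map_add, coeff_rescale, coeff_P q n (j + 1),
      coeff_succ_X_mul, coeff_rescale, coeff_P q n j, tri_succ j]
    ring

lemma H_zero (q : R) : H q 0 * (1 - X) = 1 := by
  ext k
  cases k with
  | zero => simp [H, gauss, mul_sub]
  | succ k =>
    rw [mul_sub, mul_one, map_sub, coeff_succ_mul_X]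
    simp [H, gauss_zero_right, coeff_one]

lemma H_succ (q : R) (n : ℕ) : H q (n + 1) * (1 - C (q ^ (n + 1)) * X) = H q n := by
  have e : H q (n + 1) * (1 - C (q ^ (n + 1)) * X)
      = H q (n + 1) - C (q ^ (n + 1)) * (H q (n + 1) * X) := by ring
  rw [e]
  ext k
  rw [map_sub, coeff_C_mul]
  cases k with
  | zero =>
    rw [coeff_zero_mul_X]
    simp only [H, coeff_mk, zero_add, gauss_self]
    ring
  | succ k =>
    rw [coeff_succ_mul_X]
    simp only [H, coeff_mk]
    have h := gauss_succ_succ q (k + 1 + n) n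
    have e1 : k + 1 + (n + 1) = k + 1 + n + 1 := by ring
    have e2 : k + (n + 1) = k + 1 + n := by ring
    rw [e1, e2, h]
    ring

lemma H_prod (q : R) (n : ℕ) : H q n * ∏ i ∈ range (n + 1), (1 - C (q ^ i) * X) = 1 := by
  induction n with
  | zero =>
    have h := H_zero q
    simpa using h
  | succ n ih =>
    rw [prod_range_succ]
    calc H q (n + 1) * ((∏ i ∈ range (n + 1), (1 - C (q ^ i) * X)) * (1 - C (q ^ (n + 1)) * X))
        = (H q (n + 1) * (1 - C (q ^ (n + 1)) * X)) * ∏ i ∈ range (n + 1), (1 - C (q ^ i) * X) := by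
          ring
      _ = 1 := by rw [H_succ, ih]

lemma H_succ' (q : R) (n : ℕ) : H q (n + 1) * (1 - X) = rescale q (H q n) := by
  have h1 := H_prod q (n + 1)
  have h2 := congrArg (rescale q) (H_prod q n)
  rw [map_mul, map_prod, map_one] at h2
  rw [prod_range_succ'] at h1
  have e : ∏ i ∈ range (n + 1), (rescale q) (1 - C (q ^ i) * X)
      = ∏ i ∈ range (n + 1), (1 - C (q ^ (i + 1)) * X) := by
    apply prod_congr rfl
    intro i _
    simp only [map_sub, map_one, map_mul, rescale_X]
    have : rescale q (C (q ^ i)) = C (q ^ i) := by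
      ext k
      rw [coeff_rescale, coeff_C]
      by_cases hk : k = 0
      · simp [hk]
      · simp [hk]
    rw [this, pow_succ, map_mul]
    ring
  rw [e] at h2
  set Q : R⟦X⟧ := ∏ i ∈ range (n + 1), (1 - C (q ^ (i + 1)) * X) with hQ
  have h3 : H q (n + 1) * (1 - X) * Q = 1 := by
    rw [pow_zero, map_one, one_mul] at h1
    linear_combination h1
  calc H q (n + 1) * (1 - X) = H q (n + 1) * (1 - X) * (rescale q (H q n) * Q) := by rw [h2]; ring
    _ = (H q (n + 1) * (1 - X) * Q) * rescale q (H q n) := by ring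
    _ = rescale q (H q n) := by rw [h3]; ring

/-- Generating function of the q-Delannoy numbers. -/
noncomputable def G (q : R) (n : ℕ) : R⟦X⟧ := P q n * H q n

lemma coeff_G (q : R) (m n : ℕ) : coeff m (G q n) = D q m n := by
  unfold G D
  rw [coeff_mul, Finset.Nat.sum_antidiagonal_eq_sum_range_succ_mk]
  have h1 : ∑ k ∈ range m.succ, (coeff k) (P q n) * (coeff (m - k)) (H q n)
      = ∑ j ∈ range (m + n + 1), q ^ (j * (j - 1) / 2) * gauss q n j * gauss q (m + n - j) n := by
    have : ∑ k ∈ range m.succ, (coeff k) (P q n) * (coeff (m - k)) (H q n)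
      = ∑ j ∈ range m.succ, q ^ (j * (j - 1) / 2) * gauss q n j * gauss q (m + n - j) n := by
      apply sum_congr rfl
      intro k hk
      rw [mem_range] at hk
      rw [coeff_P]
      simp only [H, coeff_mk]
      congr 2
      omega
    rw [this]
    apply sum_subset
    · intro k hk
      rw [mem_range] at hk ⊢
      omega
    · intro k hk hk2
      rw [mem_range] at hk hk2
      rw [gauss_eq_zero q (m + n - k) n (by omega), mul_zero]
  have h2 : ∑ j ∈ range (n + 1), q ^ (j * (j - 1) / 2) * gauss q n j * gauss q (m + n - j) n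
      = ∑ j ∈ range (m + n + 1), q ^ (j * (j - 1) / 2) * gauss q n j * gauss q (m + n - j) n := by
    apply sum_subset
    · intro k hk
      rw [mem_range] at hk ⊢
      omega
    · intro k hk hk2
      rw [mem_range] at hk hk2
      rw [gauss_eq_zero q n k (by omega), mul_zero, zero_mul]
  rw [h2]
  exact h1

lemma P_succ_right (q : R) (n : ℕ) : P q (n + 1) = (1 + C (q ^ n) * X) * P q n := by
  unfold P
  rw [prod_range_succ, mul_comm]

lemma D_zero_left (q : R) (n : ℕ) : D q 0 n = 1 := by
  unfold D
  rw [sum_eq_single 0]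
  · simp [gauss_zero_right, gauss_self]
  · intro j hj hj0
    rw [mem_range] at hj
    rw [gauss_eq_zero q (0 + n - j) n (by omega), mul_zero]
  · simp

lemma D_zero_right (q : R) (m : ℕ) : D q m 0 = 1 := by
  unfold D
  simp [gauss_zero_right]

lemma D_A (q : R) (m n : ℕ) :
    D q (m + 1) (n + 1) - D q m (n + 1) = q ^ (m + 1) * D q (m + 1) n + q ^ m * D q m n := by
  have h : G q (n + 1) * (1 - X) = (1 + X) * rescale q (G q n) := by
    unfold G
    rw [map_mul, ← H_succ', P_succ]
    ring
  have h2 := congrArg (coeff (m + 1)) h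
  rw [mul_sub, mul_one, map_sub, coeff_succ_mul_X, add_mul, one_mul, map_add, coeff_succ_X_mul,
    coeff_rescale, coeff_rescale, coeff_G, coeff_G, coeff_G, coeff_G] at h2
  exact h2

lemma D_B (q : R) (m n : ℕ) :
    D q (m + 1) (n + 1) - q ^ (n + 1) * D q m (n + 1) = D q (m + 1) n + q ^ n * D q m n := by
  have h : G q (n + 1) - C (q ^ (n + 1)) * (G q (n + 1) * X) = G q n + C (q ^ n) * (G q n * X) := by
    have : G q (n + 1) * (1 - C (q ^ (n + 1)) * X) = (1 + C (q ^ n) * X) * G q n := by
      unfold G
      rw [← H_succ q n, P_succ_right]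
      ring
    linear_combination this
  have h2 := congrArg (coeff (m + 1)) h
  rw [map_sub, map_add, coeff_C_mul, coeff_C_mul, coeff_succ_mul_X, coeff_succ_mul_X,
    coeff_G, coeff_G, coeff_G, coeff_G] at h2
  exact h2

lemma D_C (q : R) (m n : ℕ) :
    (1 - q ^ (n + 1)) * D q m (n + 1)
      = (1 - q ^ (m + 1)) * D q (m + 1) n + (q ^ n - q ^ m) * D q m n := by
  have h1 := D_A q m n
  have h2 := D_B q m n
  linear_combination h2 - h1

/-- Three-term recurrence in the second index. -/
lemma D_rec (q : R) (m : ℕ) (N : ℕ) :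
    (1 - q ^ (N + 1)) * D q m (N + 1)
      = (1 + q ^ N - q ^ m - q ^ (m + N + 1)) * D q m N
        + q ^ m * (1 - q ^ N) * D q m (N - 1) := by
  cases N with
  | zero =>
    have h := D_C q m 0
    rw [D_zero_right, D_zero_right] at h
    rw [D_zero_right, h]
    simp
    ring
  | succ N =>
    have h := D_C q m (N + 1)
    have h1 := D_C q m N
    have h2 := D_B q m N
    simp only [Nat.add_sub_cancel]
    linear_combination h - h1 + (1 - q ^ (m + 1)) * h2

/-- The recurrence for the inverse parameter. -/
lemma D_rec' (q q' : R) (hq : q * q' = 1) (m : ℕ) (N : ℕ) :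
    q ^ m * (1 - q ^ (N + 1)) * D q' m (N + 1)
      = (1 + q ^ (N + 1) - q ^ (m + 1) * (1 + q ^ N)) * D q' m N
        + q * (1 - q ^ N) * D q' m (N - 1) := by
  have h := D_rec q' m N
  have hx : q ^ N * q' ^ N = 1 := by rw [← mul_pow, hq, one_pow]
  have hy : q ^ m * q' ^ m = 1 := by rw [← mul_pow, hq, one_pow]
  rw [pow_succ q' N, pow_succ q' (m + N), pow_add q' m N] at h
  rw [pow_succ q N, pow_succ q m]
  generalize q ^ N = x at *
  generalize q ^ m = y at *
  generalize q' ^ N = x' at *
  generalize q' ^ m = y' at *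
  generalize D q' m (N + 1) = a at *
  generalize D q' m N = b at *
  generalize D q' m (N - 1) = c at *
  have e1 : y * (1 - x * q) * a = -(q * x * y) * ((1 - x' * q') * a) := by
    have : q * x * y * (x' * q') = y := by
      linear_combination y * hq * (x * x') + y * hx
    linear_combination (-a) * this
  rw [e1, h]
  have t1 : q * x * y * x' = q * y := by linear_combination q * y * hx
  have t2 : q * x * y * y' = q * x := by linear_combination q * x * hy
  have t3 : q * x * y * (x' * y' * q') = 1 := by
    linear_combination (y * y' * x * x') * hq + y * y' * hx + hy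
  have t4 : q * x * y * (y' * x') = q := by
    linear_combination (q * y * y') * hx + q * hy
  linear_combination (-b) * t1 + b * t2 + b * t3 - c * t2 + c * t4

end Pool.Agent.R443.QDel
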