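import Mathlib
import Pool.Agent.R443.QDel

/-!
Evaluations of q-Delannoy numbers at primitive p-th roots of unity, and the telescoping identity.
-/

namespace Pool.Agent.R443.QDel

open Finset PowerSeries

section tel

variable {R : Type*} [CommRing R]

/-- The boundary term. -/
def B (q y : R) (a a1 b b1 : R) : R :=
  (1 + q - 2 * q * y) * a * b1 + (2 - (1 + q) * y) * y * a1 * b - (1 - q) * y * (a * b + a1 * b1)

lemma tel_alg (q x x' y a2 a1 a0 b2 b1 b0 Sg : R) (hx : x * x' = 1)
    (h1 : (1 - q * x) * a2 = (1 + x - y - x * y * q) * a1 + y * (1 - x) * a0)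
    (h2 : y * (1 - q * x) * b2 = (1 + q * x - q * y * (1 + x)) * b1 + q * (1 - x) * b0)
    (ih : 2 * (1 + q) * (1 - y) * (1 - q * y) * x * Sg = q * (1 - x) ^ 2 * B q y a1 a0 b1 b0) :
    2 * (1 + q) * (1 - y) * (1 - q * y) * (q * x) * (Sg + x' * (1 - q * x ^ 2) * a1 * b1)
      = q * (1 - q * x) ^ 2 * B q y a2 a1 b2 b1 := by
  unfold B at *
  have e1 : 2 * (1 + q) * (1 - y) * (1 - q * y) * (q * x) * (Sg + x' * (1 - q * x ^ 2) * a1 * b1)
      = q * (2 * (1 + q) * (1 - y) * (1 - q * y) * x * Sg)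
        + 2 * (1 + q) * (1 - y) * (1 - q * y) * q * (1 - q * x ^ 2) * a1 * b1 := by
    linear_combination (2 * (1 + q) * (1 - y) * (1 - q * y) * q * (1 - q * x ^ 2) * a1 * b1) * hx
  rw [e1, ih]
  linear_combination (-q * ((1 - q * x) * (1 + q - 2 * q * y) * b1 - (1 - q) * (y * (1 - q * x) * b2))) * h1
    - (q * ((1 - q * x) * (2 - (1 + q) * y) * a1
      - (1 - q) * ((1 + x - y - x * y * q) * a1 + y * (1 - x) * a0))) * h2

/-- The telescoping identity. -/
theorem tel (q q' : R) (hq : q * q' = 1) (m : ℕ) (N : ℕ) :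
    2 * (1 + q) * (1 - q ^ m) * (1 - q ^ (m + 1)) * q ^ N
        * ∑ n ∈ range N, q' ^ n * (1 - q ^ (2 * n + 1)) * D q m n * D q' m n
      = q * (1 - q ^ N) ^ 2 * B q (q ^ m) (D q m N) (D q m (N - 1)) (D q' m N) (D q' m (N - 1)) := by
  induction N with
  | zero => simp
  | succ N ih =>
    have h1 := D_rec q m N
    have h2 := D_rec' q q' hq m N
    have hx : q ^ N * q' ^ N = 1 := by rw [← mul_pow, hq, one_pow]
    rw [sum_range_succ]
    simp only [Nat.add_sub_cancel]
    have key := tel_alg q (q ^ N) (q' ^ N) (q ^ m) (D q m (N + 1)) (D q m N) (D q m (N - 1))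
      (D q' m (N + 1)) (D q' m N) (D q' m (N - 1))
      (∑ n ∈ range N, q' ^ n * (1 - q ^ (2 * n + 1)) * D q m n * D q' m n) hx
      (by linear_combination h1) (by linear_combination h2) (by linear_combination ih)
    have e1 : q ^ (2 * N + 1) = q * (q ^ N) ^ 2 := by ring
    have e2 : q ^ (m + 1) = q * q ^ m := by ring
    have e3 : q ^ (N + 1) = q * q ^ N := by ring
    rw [e1, e2, e3]
    exact key

end tel

section eval

variable {K : Type*} [Field K]

lemma gauss_prim {p : ℕ} {z : K} (hz : IsPrimitiveRoot z p) (j : ℕ) (h0 : 0 < j) (hj : j < p) :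
    gauss z p j = 0 := by
  obtain ⟨k, rfl⟩ : ∃ k, j = k + 1 := ⟨j - 1, by omega⟩
  obtain ⟨n, rfl⟩ : ∃ n, p = n + 1 := ⟨p - 1, by omega⟩
  have h := gauss_absorb z n k
  rw [hz.pow_eq_one, sub_self, zero_mul] at h
  rcases mul_eq_zero.mp h with h | h
  · exfalso
    have h1 : z ^ (k + 1) = 1 := by linear_combination -h
    exact hz.pow_ne_one_of_pos_of_lt (by omega) hj h1
  · exact h

lemma P_prim {p : ℕ} {z : K} (hz : IsPrimitiveRoot z p) (hp : Odd p) :
    P z p = 1 + X ^ p := by
  have hp0 : 0 < p := hp.pos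
  ext j
  rw [coeff_P, map_add, coeff_one, coeff_X_pow]
  rcases Nat.lt_trichotomy j p with h | h | h
  · rcases Nat.eq_zero_or_pos j with h0 | h0
    · subst h0
      simp [gauss_zero_right, hp0.ne]
    · rw [gauss_prim hz j h0 h, if_neg h0.ne', if_neg h.ne]
      simp
  · subst h
    rw [gauss_self, if_neg hp0.ne', if_pos rfl]
    obtain ⟨k, hk⟩ := hp
    have : j * (j - 1) / 2 = j * k := by
      have : j * (j - 1) = 2 * (j * k) := by
        have : j - 1 = 2 * k := by omega
        rw [this]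
        ring
      rw [this]
      omega
    rw [this, pow_mul, hz.pow_eq_one, one_pow]
    ring
  · rw [gauss_eq_zero z p j h, if_neg (by omega), if_neg (by omega)]
    simp

lemma rescale_C' (a b : K) : rescale a (C b : K⟦X⟧) = C b := by
  ext k
  rw [coeff_rescale, coeff_C]
  by_cases hk : k = 0
  · simp [hk]
  · simp [hk]

lemma Q_prim {p : ℕ} {z : K} (hz : IsPrimitiveRoot z p) (hp : Odd p) :
    ∏ i ∈ range p, (1 - C (z ^ i) * X) = (1 - X ^ p : K⟦X⟧) := by
  have h := congrArg (rescale (-1 : K)) (P_prim hz hp)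
  unfold P at h
  rw [map_prod] at h
  have e : ∏ i ∈ range p, (rescale (-1 : K)) (1 + C (z ^ i) * X)
      = ∏ i ∈ range p, (1 - C (z ^ i) * X : K⟦X⟧) := by
    apply prod_congr rfl
    intro i _
    simp only [map_add, map_one, map_mul, rescale_X, rescale_C']
    simp only [map_neg, map_one]
    ring
  rw [e] at h
  rw [h, map_add, map_one, map_pow, rescale_X, map_neg, map_one, mul_pow, hp.neg_one_pow]
  ring

lemma G_prim {p : ℕ} {z : K} (hz : IsPrimitiveRoot z p) (hp : Odd p) :
    G z p * (1 - X ^ p) * (1 - X) = 1 + X ^ p := by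
  have h := H_prod z p
  rw [prod_range_succ, Q_prim hz hp, hz.pow_eq_one, map_one, one_mul] at h
  unfold G
  rw [P_prim hz hp]
  linear_combination (1 + X ^ p) * h

lemma G_prim' {n : ℕ} {z : K} (hz : IsPrimitiveRoot z (n + 1)) (hp : Odd (n + 1)) :
    G z n * (1 - X ^ (n + 1)) * (1 + C (z ^ n) * X) = 1 + X ^ (n + 1) := by
  have h := H_prod z n
  rw [Q_prim hz hp] at h
  have h2 := P_succ_right z n
  rw [P_prim hz hp] at h2
  unfold G
  rw [h2]
  linear_combination ((1 + C (z ^ n) * X) * P z n) * h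

lemma D_add_p {p : ℕ} {z : K} (F : K⟦X⟧) (n : ℕ) (hF : F = G z n * (1 - X ^ p)) (m : ℕ) :
    D z (m + p) n = D z m n + coeff (m + p) F := by
  rw [hF, mul_sub, mul_one, map_sub, coeff_mul_X_pow', if_pos (by omega), coeff_G, coeff_G]
  have : m + p - p = m := by omega
  rw [this]
  ring

lemma D_lt_p {p : ℕ} {z : K} (F : K⟦X⟧) (n : ℕ) (hF : F = G z n * (1 - X ^ p)) (m : ℕ) (hm : m < p) :
    D z m n = coeff m F := by
  rw [hF, mul_sub, mul_one, map_sub, coeff_mul_X_pow', if_neg (by omega), coeff_G]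
  ring

lemma F_p {p : ℕ} (F : K⟦X⟧) (hF : F * (1 - X) = 1 + X ^ p) (hp : 0 < p) (m : ℕ) :
    coeff m F = if m < p then 1 else 2 := by
  induction m with
  | zero =>
    have h := congrArg (coeff 0) hF
    rw [mul_sub, mul_one, map_sub, coeff_zero_mul_X, map_add, coeff_one, coeff_X_pow] at h
    rw [if_pos rfl, if_neg (by omega)] at h
    rw [if_pos hp]
    linear_combination h
  | succ m ih =>
    have h := congrArg (coeff (m + 1)) hF
    rw [mul_sub, mul_one, map_sub, coeff_succ_mul_X, map_add, coeff_one, coeff_X_pow, ih] at h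
    rw [if_neg (show ¬ (m + 1 = 0) by omega)] at h
    rcases Nat.lt_trichotomy (m + 1) p with h1 | h1 | h1
    · rw [if_pos (by omega), if_neg (by omega)] at h
      rw [if_pos h1]
      linear_combination h
    · rw [if_pos (by omega), if_pos h1] at h
      rw [if_neg (by omega)]
      linear_combination h
    · rw [if_neg (by omega), if_neg (by omega)] at h
      rw [if_neg (by omega)]
      linear_combination h

lemma F_w {p : ℕ} (w : K) (F : K⟦X⟧) (hF : F * (1 - C w * X) = 1 + X ^ p) (hp : 0 < p)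
    (hw : w ^ p = -1) (m : ℕ) :
    coeff m F = if m < p then w ^ m else 0 := by
  have hF2 : F - C w * (F * X) = 1 + X ^ p := by
    rw [← hF]
    ring
  induction m with
  | zero =>
    have h := congrArg (coeff 0) hF2
    rw [map_sub, coeff_C_mul, coeff_zero_mul_X, map_add, coeff_one, coeff_X_pow] at h
    rw [if_pos rfl, if_neg (by omega)] at h
    rw [if_pos hp, pow_zero]
    linear_combination h
  | succ m ih =>
    have h := congrArg (coeff (m + 1)) hF2
    rw [map_sub, coeff_C_mul, coeff_succ_mul_X, map_add, coeff_one, coeff_X_pow, ih] at h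
    rw [if_neg (show ¬ (m + 1 = 0) by omega)] at h
    rcases Nat.lt_trichotomy (m + 1) p with h1 | h1 | h1
    · rw [if_pos (by omega), if_neg (by omega)] at h
      rw [if_pos h1, pow_succ]
      linear_combination h
    · rw [if_pos (by omega), if_pos h1] at h
      rw [if_neg (by omega)]
      have : w * w ^ m = -1 := by rw [← pow_succ', h1, hw]
      linear_combination h + this
    · rw [if_neg (by omega), if_neg (by omega)] at h
      rw [if_neg (by omega)]
      linear_combination h

lemma D_val1 {p : ℕ} {z : K} (hz : IsPrimitiveRoot z p) (hp : Odd p) (a : ℕ) :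
    D z (a * p) p = 1 + 2 * (a : K) := by
  have hp0 : 0 < p := hp.pos
  induction a with
  | zero => simp [D_zero_left]
  | succ a ih =>
    have e : (a + 1) * p = a * p + p := by ring
    rw [e, D_add_p _ p rfl (a * p), ih, F_p _ (G_prim hz hp) hp0, if_neg (by omega)]
    push_cast
    ring

lemma D_val2 {p : ℕ} {z : K} (hz : IsPrimitiveRoot z p) (hp : Odd p) (a : ℕ) :
    D z (a * p + (p - 1)) p = 1 + 2 * (a : K) := by
  have hp0 : 0 < p := hp.pos
  induction a with
  | zero =>
    rw [zero_mul, zero_add, D_lt_p _ p rfl (p - 1) (show p - 1 < p by omega), F_p _ (G_prim hz hp) hp0,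
      if_pos (by omega)]
    simp
  | succ a ih =>
    have e : (a + 1) * p + (p - 1) = a * p + (p - 1) + p := by ring
    rw [e, D_add_p _ p rfl (a * p + (p - 1)), ih, F_p _ (G_prim hz hp) hp0, if_neg (by omega)]
    push_cast
    ring

lemma w_pow {n : ℕ} {z : K} (hz : IsPrimitiveRoot z (n + 1)) (hp : Odd (n + 1)) :
    (-z ^ n) ^ (n + 1) = -1 := by
  rw [hp.neg_pow, ← pow_mul, mul_comm, pow_mul, hz.pow_eq_one, one_pow]

lemma w_pow' {n : ℕ} {z : K} (hz : IsPrimitiveRoot z (n + 1)) (hp : Odd (n + 1)) :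
    (-z ^ n) ^ n = z := by
  have h := w_pow hz hp
  rw [pow_succ] at h
  have hz0 : z ≠ 0 := hz.ne_zero (by omega)
  have h2 : z ^ n * z = 1 := by rw [← pow_succ, hz.pow_eq_one]
  have h3 : (-z ^ n) ^ n * z ^ n = z * z ^ n := by linear_combination -h - h2
  exact mul_right_cancel₀ (pow_ne_zero n hz0) h3

lemma D_val3 {n : ℕ} {z : K} (hz : IsPrimitiveRoot z (n + 1)) (hp : Odd (n + 1)) (a : ℕ) :
    D z (a * (n + 1)) n = 1 := by
  induction a with
  | zero => simp [D_zero_left]
  | succ a ih =>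
    have e : (a + 1) * (n + 1) = a * (n + 1) + (n + 1) := by ring
    have hF := G_prim' hz hp
    have hF2 : G z n * (1 - X ^ (n + 1)) * (1 - C (-z ^ n) * X) = 1 + X ^ (n + 1) := by
      rw [← hF, map_neg]
      ring
    rw [e, D_add_p _ n rfl (a * (n + 1)), ih, F_w _ _ hF2 (by omega) (w_pow hz hp),
      if_neg (by omega)]
    ring

lemma D_val4 {n : ℕ} {z : K} (hz : IsPrimitiveRoot z (n + 1)) (hp : Odd (n + 1)) (a : ℕ) :
    D z (a * (n + 1) + n) n = z := by
  have hF := G_prim' hz hp
  have hF2 : G z n * (1 - X ^ (n + 1)) * (1 - C (-z ^ n) * X) = 1 + X ^ (n + 1) := by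
    rw [← hF, map_neg]
    ring
  induction a with
  | zero =>
    rw [zero_mul, zero_add, D_lt_p _ n rfl n (show n < n + 1 by omega),
      F_w _ _ hF2 (by omega) (w_pow hz hp), if_pos (by omega), w_pow' hz hp]
  | succ a ih =>
    have e : (a + 1) * (n + 1) + n = a * (n + 1) + n + (n + 1) := by ring
    rw [e, D_add_p _ n rfl (a * (n + 1) + n), ih, F_w _ _ hF2 (by omega) (w_pow hz hp),
      if_neg (by omega)]
    ring

end eval

end Pool.Agent.R443.QDel
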