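import Mathlib
import Pool.Agent.R443.QDel2

/-!
q-Lucas theorem at roots of unity and a telescoping evaluation at roots of unity.
-/

namespace Pool.Agent.R443.QCg

open Finset Pool.Agent.R443.QDel

section lucas

variable {K : Type*} [Field K]

theorem q_lucas {m : ℕ} {z : K} (hz : IsPrimitiveRoot z m) (hm : 0 < m) :
    ∀ (n a b c d : ℕ), b < m → d < m → n = a * m + b →
      gauss z n (c * m + d) = (a.choose c : K) * gauss z b d := by
  have hzm : ∀ c : ℕ, z ^ (c * m) = 1 := by
    intro c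
    rw [mul_comm, pow_mul, hz.pow_eq_one, one_pow]
  intro n
  induction n with
  | zero =>
    intro a b c d hb hd hn
    have hb0 : b = 0 := by omega
    have ha0 : a = 0 := by
      have : a * m = 0 := by omega
      rcases Nat.mul_eq_zero.mp this with h | h
      · exact h
      · omega
    subst hb0
    subst ha0
    rcases Nat.eq_zero_or_pos c with hc | hc
    · subst hc
      simp
    · have h1 : 0 < c * m + d := by positivity
      rw [gauss_eq_zero z 0 _ h1]
      have : Nat.choose 0 c = 0 := Nat.choose_eq_zero_of_lt hc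
      rw [this]
      simp
  | succ n ih =>
    intro a b c d hb hd hn
    rcases Nat.eq_zero_or_pos (c * m + d) with hk | hk
    · have hd0 : d = 0 := by omega
      have hc0 : c = 0 := by
        have : c * m = 0 := by omega
        rcases Nat.mul_eq_zero.mp this with h | h
        · exact h
        · omega
      subst hd0
      subst hc0
      rw [gauss_zero_right]
      simp [gauss_zero_right]
    · rcases Nat.eq_zero_or_pos b with hb0 | hb0
      · subst hb0
        have ha0 : a ≠ 0 := by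
          rintro rfl
          omega
        obtain ⟨a', rfl⟩ : ∃ a', a = a' + 1 := ⟨a - 1, by omega⟩
        have hn' : n = a' * m + (m - 1) := by
          have : (a' + 1) * m = a' * m + m := by ring
          omega
        rcases Nat.eq_zero_or_pos d with hd0 | hd0
        · subst hd0
          have hc0 : c ≠ 0 := by
            rintro rfl
            omega
          obtain ⟨c', rfl⟩ : ∃ c', c = c' + 1 := ⟨c - 1, by omega⟩
          have e1 : (c' + 1) * m + 0 = (c' * m + (m - 1)) + 1 := by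
            have : (c' + 1) * m = c' * m + m := by ring
            omega
          have h1 := ih a' (m - 1) c' (m - 1) (by omega) (by omega) hn'
          have h2 := ih a' (m - 1) (c' + 1) 0 (by omega) (by omega) hn'
          rw [e1] at h2 ⊢
          rw [gauss_succ_succ, h1, h2, gauss_self, gauss_zero_right, gauss_zero_right, ← e1, add_zero,
            hzm, Nat.choose_succ_succ]
          push_cast
          ring
        · obtain ⟨d', rfl⟩ : ∃ d', d = d' + 1 := ⟨d - 1, by omega⟩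
          have h1 := ih a' (m - 1) c d' (by omega) (by omega) hn'
          have h2 := ih a' (m - 1) c (d' + 1) (by omega) (by omega) hn'
          have e1 : c * m + (d' + 1) = (c * m + d') + 1 := by ring
          rw [e1] at h2 ⊢
          have h3 := gauss_succ_succ z (m - 1) d'
          have e2 : m - 1 + 1 = m := by omega
          rw [e2, gauss_prim hz (d' + 1) (by omega) hd] at h3
          have e3 : z ^ (c * m + d' + 1) = z ^ (d' + 1) := by
            rw [add_assoc, pow_add, hzm, one_mul]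
          rw [gauss_succ_succ, h1, h2, gauss_eq_zero z 0 (d' + 1) (by omega), e3]
          linear_combination (-(a'.choose c : K)) * h3
      · obtain ⟨b', rfl⟩ : ∃ b', b = b' + 1 := ⟨b - 1, by omega⟩
        have hn' : n = a * m + b' := by omega
        rcases Nat.eq_zero_or_pos d with hd0 | hd0
        · subst hd0
          have hc0 : c ≠ 0 := by
            rintro rfl
            omega
          obtain ⟨c', rfl⟩ : ∃ c', c = c' + 1 := ⟨c - 1, by omega⟩
          have e1 : (c' + 1) * m + 0 = (c' * m + (m - 1)) + 1 := by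
            have : (c' + 1) * m = c' * m + m := by ring
            omega
          have h1 := ih a b' c' (m - 1) (by omega) (by omega) hn'
          have h2 := ih a b' (c' + 1) 0 (by omega) (by omega) hn'
          rw [e1] at h2 ⊢
          rw [gauss_succ_succ, h1, h2, gauss_eq_zero z b' (m - 1) (by omega), gauss_zero_right,
            gauss_zero_right, ← e1, add_zero, hzm]
          ring
        · obtain ⟨d', rfl⟩ : ∃ d', d = d' + 1 := ⟨d - 1, by omega⟩
          have h1 := ih a b' c d' (by omega) (by omega) hn'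
          have h2 := ih a b' c (d' + 1) (by omega) (by omega) hn'
          have e1 : c * m + (d' + 1) = (c * m + d') + 1 := by ring
          rw [e1] at h2 ⊢
          have e3 : z ^ (c * m + d' + 1) = z ^ (d' + 1) := by
            rw [add_assoc, pow_add, hzm, one_mul]
          rw [gauss_succ_succ, h1, h2, gauss_succ_succ, e3]
          ring

lemma gauss_two_zero {m : ℕ} {z : K} (hz : IsPrimitiveRoot z m) (hm : 0 < m) (k : ℕ)
    (hk : m ≤ 2 * (k % m)) : gauss z (2 * k) k = 0 := by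
  have hlt := Nat.mod_lt k hm
  have hdm := Nat.div_add_mod k m
  have h := q_lucas hz hm (2 * k) (2 * (k / m) + 1) (2 * (k % m) - m) (k / m) (k % m)
    (by omega) hlt (by
      have : (2 * (k / m) + 1) * m = 2 * (m * (k / m)) + m := by ring
      omega)
  have e : k / m * m + k % m = k := by rw [mul_comm]; exact hdm
  rw [e] at h
  rw [h, gauss_eq_zero z _ _ (by omega : 2 * (k % m) - m < k % m), mul_zero]

lemma gauss_term_zero {m : ℕ} {z : K} (hz : IsPrimitiveRoot z m) (hm : 0 < m) (k : ℕ)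
    (hk : m ≤ 4 * (k % m)) : gauss z (4 * k) (2 * k) * gauss z (2 * k) k ^ 2 = 0 := by
  by_cases h : m ≤ 2 * (k % m)
  · rw [gauss_two_zero hz hm k h]
    ring
  · have e4 : 4 * k = 2 * (2 * k) := by ring
    have h2 : (2 * k) % m = 2 * (k % m) := by
      have hdm := Nat.div_add_mod k m
      have e5 : 2 * k = 2 * (k % m) + m * (2 * (k / m)) := by
        have : m * (2 * (k / m)) = 2 * (m * (k / m)) := by ring
        omega
      rw [e5, Nat.add_mul_mod_self_left]
      exact Nat.mod_eq_of_lt (by omega)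
    rw [e4, gauss_two_zero hz hm (2 * k) (by rw [h2]; omega)]
    ring

end lucas

section tele

variable {K : Type*} [Field K]

/-- Square of the odd product. -/
def Aq (x : K) (k : ℕ) : K := (∏ s ∈ range k, (1 - x ^ (2 * s + 1))) ^ 2

/-- Shifted odd product. -/
def Lq (x : K) (i k : ℕ) : K := ∏ s ∈ range (2 * k), (1 - x ^ (2 * s + 1 + 6 * i))

/-- Square of the shifted sextic product. -/
def Vq (x : K) (i k : ℕ) : K := (∏ s ∈ range k, (1 - x ^ (6 * (s + 1 + i)))) ^ 2

/-- Even product. -/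
def Eq (x : K) (k : ℕ) : K := ∏ s ∈ range (2 * k), (1 - x ^ (2 * (s + 1)))

/-- Auxiliary product. -/
def Mq (x : K) (i k : ℕ) : K :=
  (1 - x ^ (6 * i + 1)) * ∏ s ∈ range (2 * k), (1 - x ^ (6 * i + 5 + 2 * s))

/-- The summand. -/
def tt (x : K) (i k : ℕ) : K :=
  (1 - x ^ (8 * k + 1 + 6 * i)) * Aq x k * Lq x i k * x ^ (2 * k ^ 2) / (Vq x i k * Eq x k)

/-- The telescoping companion. -/
def gg (x : K) (i k : ℕ) : K :=
  -(x ^ (6 * i + 3 + 2 * (k + 1) ^ 2)) * Aq x (k + 1) * Mq x i k / (Eq x k * Vq x (i + 1) k)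

lemma Aq_succ (x : K) (k : ℕ) : Aq x (k + 1) = Aq x k * (1 - x ^ (2 * k + 1)) ^ 2 := by
  unfold Aq
  rw [prod_range_succ]
  ring

lemma Eq_succ (x : K) (k : ℕ) :
    Eq x (k + 1) = Eq x k * (1 - x ^ (4 * k + 2)) * (1 - x ^ (4 * k + 4)) := by
  unfold Eq
  have e : 2 * (k + 1) = 2 * k + 1 + 1 := by ring
  rw [e, prod_range_succ, prod_range_succ]
  have e1 : 2 * (2 * k + 1) = 4 * k + 2 := by ring
  have e2 : 2 * (2 * k + 1 + 1) = 4 * k + 4 := by ring
  rw [e1, e2]

lemma Vq_succ (x : K) (i k : ℕ) :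
    Vq x i (k + 1) = Vq x i k * (1 - x ^ (6 * (k + 1 + i))) ^ 2 := by
  unfold Vq
  rw [prod_range_succ]
  ring

lemma Vq_succ' (x : K) (i k : ℕ) :
    Vq x i (k + 1) = (1 - x ^ (6 * (i + 1))) ^ 2 * Vq x (i + 1) k := by
  unfold Vq
  rw [prod_range_succ']
  have e : ∏ s ∈ range k, (1 - x ^ (6 * (s + 1 + 1 + i))) = ∏ s ∈ range k, (1 - x ^ (6 * (s + 1 + (i + 1)))) := by
    apply prod_congr rfl
    intro s _
    congr 2
    ring
  rw [e]
  have e2 : 6 * (0 + 1 + i) = 6 * (i + 1) := by ring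
  rw [e2]
  ring

lemma Mq_succ (x : K) (i k : ℕ) :
    Mq x i (k + 1) = Mq x i k * (1 - x ^ (6 * i + 5 + 4 * k)) * (1 - x ^ (6 * i + 7 + 4 * k)) := by
  unfold Mq
  have e : 2 * (k + 1) = 2 * k + 1 + 1 := by ring
  rw [e, prod_range_succ, prod_range_succ]
  have e1 : 6 * i + 5 + 2 * (2 * k) = 6 * i + 5 + 4 * k := by ring
  have e2 : 6 * i + 5 + 2 * (2 * k + 1) = 6 * i + 7 + 4 * k := by ring
  rw [e1, e2]
  ring

lemma Lq_M (x : K) (i k : ℕ) :
    (1 - x ^ (6 * i + 5)) * (1 - x ^ (6 * i + 1)) * Lq x (i + 1) k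
      = Mq x i k * (1 - x ^ (6 * i + 5 + 4 * k)) := by
  unfold Lq Mq
  have h : (∏ s ∈ range (2 * k + 1), (1 - x ^ (6 * i + 5 + 2 * s)))
      = (∏ s ∈ range (2 * k), (1 - x ^ (2 * s + 1 + 6 * (i + 1)))) * (1 - x ^ (6 * i + 5)) := by
    rw [prod_range_succ']
    congr 1
    apply prod_congr rfl
    intro s _
    congr 2
    ring
  rw [prod_range_succ] at h
  have e1 : 6 * i + 5 + 2 * (2 * k) = 6 * i + 5 + 4 * k := by ring
  rw [e1] at h
  linear_combination (-(1 - x ^ (6 * i + 1))) * h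

lemma Lq_succ (x : K) (i k : ℕ) :
    Lq x i (k + 1) = (1 - x ^ (6 * i + 3)) * Mq x i k := by
  unfold Lq Mq
  have e : 2 * (k + 1) = 2 * k + 1 + 1 := by ring
  rw [e, prod_range_succ', prod_range_succ']
  have h : ∏ s ∈ range (2 * k), (1 - x ^ (2 * (s + 1 + 1) + 1 + 6 * i))
      = ∏ s ∈ range (2 * k), (1 - x ^ (6 * i + 5 + 2 * s)) := by
    apply prod_congr rfl
    intro s _
    congr 2
    ring
  rw [h]
  have e1 : 2 * (0 + 1) + 1 + 6 * i = 6 * i + 3 := by ring
  have e2 : 2 * 0 + 1 + 6 * i = 6 * i + 1 := by ring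
  rw [e1, e2]
  ring

lemma tele_step (x : K) (i k : ℕ) (hE : Eq x (k + 1) ≠ 0) (hV : Vq x i (k + 2) ≠ 0) :
    gg x i k + ((1 - x ^ (6 * i + 5)) * (1 - x ^ (6 * i + 1)) * tt x (i + 1) (k + 1)
      - (1 - x ^ (6 * (i + 1))) ^ 2 * tt x i (k + 1)) = gg x i (k + 1) := by
  have hV2 : Vq x (i + 1) (k + 1) ≠ 0 := by
    intro h
    rw [Vq_succ', h, mul_zero] at hV
    exact hV rfl
  have h6 : (1 - x ^ (6 * (i + 1))) ^ 2 ≠ 0 := by
    intro h
    rw [Vq_succ', h, zero_mul] at hV
    exact hV rfl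
  have hV1 : Vq x (i + 1) k ≠ 0 := by
    intro h
    rw [Vq_succ, h, zero_mul] at hV2
    exact hV2 rfl
  have hE1 : Eq x k ≠ 0 := by
    intro h
    rw [Eq_succ, h] at hE
    simp at hE
  have hVi : Vq x i (k + 1) ≠ 0 := by
    rw [Vq_succ']
    exact mul_ne_zero h6 hV1
  have hV2' := hV2
  have hE' := hE
  rw [Vq_succ] at hV2'
  rw [Eq_succ] at hE'
  have e1 : (1 - x ^ (6 * i + 5)) * (1 - x ^ (6 * i + 1)) * tt x (i + 1) (k + 1)
      = (1 - x ^ (8 * (k + 1) + 1 + 6 * (i + 1))) * Aq x (k + 1)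
        * (Mq x i (k + 1) * (1 - x ^ (6 * i + 5 + 4 * (k + 1)))) * x ^ (2 * (k + 1) ^ 2)
        / (Vq x (i + 1) (k + 1) * Eq x (k + 1)) := by
    rw [← Lq_M]
    unfold tt
    ring
  have e2 : (1 - x ^ (6 * (i + 1))) ^ 2 * tt x i (k + 1)
      = (1 - x ^ (8 * (k + 1) + 1 + 6 * i)) * Aq x (k + 1) * ((1 - x ^ (6 * i + 3)) * Mq x i k)
        * x ^ (2 * (k + 1) ^ 2) / (Vq x (i + 1) k * Eq x (k + 1)) := by
    have h6' : (1 - x ^ (6 * (i + 1))) ≠ 0 := by
      intro h
      rw [h] at h6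
      simp at h6
    unfold tt
    rw [Lq_succ, Vq_succ']
    generalize (1 - x ^ (6 * (i + 1))) = b0 at *
    field_simp
  rw [e1, e2]
  unfold gg
  rw [Mq_succ, Aq_succ x (k + 1), Vq_succ, Eq_succ]
  have h1 : (1 - x ^ (6 * (k + 1 + (i + 1)))) ≠ 0 := by
    intro h
    rw [h] at hV2'
    simp at hV2'
  have h2 : (1 - x ^ (4 * k + 2)) ≠ 0 := by
    intro h
    rw [h] at hE'
    simp at hE'
  have h3 : (1 - x ^ (4 * k + 4)) ≠ 0 := by
    intro h
    rw [h] at hE'
    simp at hE'
  generalize Aq x (k + 1) = A at *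
  generalize Mq x i k = M at *
  generalize Eq x k = E at *
  generalize Vq x (i + 1) k = V at *
  have key : -(x ^ (6 * i + 3)) * (1 - x ^ (4 * k + 2)) * (1 - x ^ (4 * k + 4))
        * (1 - x ^ (6 * (k + 1 + (i + 1)))) ^ 2
      + (1 - x ^ (8 * (k + 1) + 1 + 6 * (i + 1))) * (1 - x ^ (6 * i + 5 + 4 * k))
        * (1 - x ^ (6 * i + 7 + 4 * k)) * (1 - x ^ (6 * i + 5 + 4 * (k + 1)))
      - (1 - x ^ (8 * (k + 1) + 1 + 6 * i)) * (1 - x ^ (6 * i + 3))
        * (1 - x ^ (6 * (k + 1 + (i + 1)))) ^ 2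
      = -(x ^ (6 * i + 3 + 4 * k + 6)) * (1 - x ^ (2 * (k + 1) + 1)) ^ 2
        * (1 - x ^ (6 * i + 5 + 4 * k)) * (1 - x ^ (6 * i + 7 + 4 * k)) := by
    ring
  have c1 : x ^ (6 * i + 3 + 2 * (k + 1) ^ 2) = x ^ (6 * i + 3) * x ^ (2 * (k + 1) ^ 2) := by
    rw [← pow_add]
  have c2 : x ^ (6 * i + 3 + 2 * (k + 1 + 1) ^ 2)
      = x ^ (6 * i + 3 + 4 * k + 6) * x ^ (2 * (k + 1) ^ 2) := by
    rw [← pow_add]
    congr 1
    ring
  rw [c1, c2]
  generalize x ^ (2 * (k + 1) ^ 2) = W at *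
  generalize (1 - x ^ (6 * (k + 1 + (i + 1)))) = b1 at *
  generalize (1 - x ^ (4 * k + 2)) = b2 at *
  generalize (1 - x ^ (4 * k + 4)) = b3 at *
  generalize (1 - x ^ (8 * (k + 1) + 1 + 6 * (i + 1))) = b4 at *
  generalize (1 - x ^ (6 * i + 5 + 4 * k)) = b5 at *
  generalize (1 - x ^ (6 * i + 7 + 4 * k)) = b6 at *
  generalize (1 - x ^ (6 * i + 5 + 4 * (k + 1))) = b7 at *
  generalize (1 - x ^ (8 * (k + 1) + 1 + 6 * i)) = b8 at *
  generalize (1 - x ^ (6 * i + 3)) = b9 at *
  generalize (1 - x ^ (2 * (k + 1) + 1)) = b10 at *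
  generalize x ^ (6 * i + 3) = b11 at *
  generalize x ^ (6 * i + 3 + 4 * k + 6) = b12 at *
  field_simp
  linear_combination (W * A * M) * key

lemma Vq_ne_of_le (x : K) (i k l : ℕ) (hkl : k ≤ l) (h : Vq x i l ≠ 0) : Vq x i k ≠ 0 := by
  unfold Vq at *
  intro h0
  apply h
  have h1 : ∏ s ∈ range k, (1 - x ^ (6 * (s + 1 + i))) = 0 := by
    simpa using h0
  rw [prod_eq_zero_iff] at h1
  obtain ⟨a, ha, h2⟩ := h1
  have : ∏ s ∈ range l, (1 - x ^ (6 * (s + 1 + i))) = 0 := by
    apply prod_eq_zero (i := a) _ h2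
    rw [mem_range] at ha ⊢
    omega
  rw [this]
  ring

lemma Eq_ne_of_le (x : K) (k l : ℕ) (hkl : k ≤ l) (h : Eq x l ≠ 0) : Eq x k ≠ 0 := by
  unfold Eq at *
  intro h0
  apply h
  rw [prod_eq_zero_iff] at h0
  obtain ⟨a, ha, h2⟩ := h0
  apply prod_eq_zero (i := a) _ h2
  rw [mem_range] at ha ⊢
  omega

lemma tele_sum (x : K) (i : ℕ) : ∀ (n : ℕ), Eq x n ≠ 0 → Vq x i (n + 1) ≠ 0 →
    ∑ k ∈ range (n + 1), ((1 - x ^ (6 * i + 5)) * (1 - x ^ (6 * i + 1)) * tt x (i + 1) k
      - (1 - x ^ (6 * (i + 1))) ^ 2 * tt x i k) = gg x i n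
  | 0, _, _ => by
    rw [sum_range_one]
    unfold tt gg Aq Lq Vq Eq Mq
    simp only [mul_zero, range_zero, prod_empty, zero_add, pow_zero, one_pow, mul_one, div_one,
      range_one, prod_singleton, zero_pow two_ne_zero, pow_one]
    ring
  | n + 1, hE, hV => by
    have ih := tele_sum x i n (Eq_ne_of_le x n (n + 1) (by omega) hE)
      (Vq_ne_of_le x i (n + 1) (n + 2) (by omega) hV)
    rw [sum_range_succ, ih]
    exact tele_step x i n hE hV

/-- The sums. -/
def Sq (x : K) (n i : ℕ) : K := ∑ k ∈ range (n + 1), tt x i k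

lemma Sq_rec (x : K) (n i : ℕ) (hx : x ^ (2 * n + 1) = 1) (hE : Eq x n ≠ 0)
    (hV : Vq x i (n + 1) ≠ 0) :
    (1 - x ^ (6 * i + 5)) * (1 - x ^ (6 * i + 1)) * Sq x n (i + 1)
      = (1 - x ^ (6 * (i + 1))) ^ 2 * Sq x n i := by
  have h := tele_sum x i n hE hV
  have hg : gg x i n = 0 := by
    unfold gg
    rw [Aq_succ, hx]
    simp
  rw [hg, sum_sub_distrib, ← mul_sum, ← mul_sum] at h
  unfold Sq
  linear_combination h

/-- The key vanishing. -/
theorem Sq_zero {n : ℕ} {x : K} (hz : IsPrimitiveRoot x (2 * n + 1)) (hn : 2 ≤ n)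
    (h3 : ¬ 3 ∣ 2 * n + 1) : Sq x n 0 = 0 := by
  set m := 2 * n + 1 with hm
  have hne : ∀ t : ℕ, ¬ m ∣ t → (1 - x ^ t) ≠ 0 := by
    intro t ht h
    exact ht ((hz.pow_eq_one_iff_dvd t).mp (sub_eq_zero.mp h).symm)
  have h2c : Nat.Coprime m 2 := by
    rw [hm]
    simp
  have h3c : Nat.Coprime m 3 := by
    rw [Nat.coprime_comm]
    exact (Nat.Prime.coprime_iff_not_dvd Nat.prime_three).mpr h3
  have hE : Eq x n ≠ 0 := by
    unfold Eq
    rw [prod_ne_zero_iff]
    intro s hs
    rw [mem_range] at hs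
    apply hne
    intro hd
    have h4 := Nat.Coprime.dvd_of_dvd_mul_left h2c hd
    have := Nat.le_of_dvd (by omega) h4
    omega
  have hV : ∀ i, n + 1 + i < m → Vq x i (n + 1) ≠ 0 := by
    intro i hi
    unfold Vq
    apply pow_ne_zero
    rw [prod_ne_zero_iff]
    intro s hs
    rw [mem_range] at hs
    apply hne
    intro hd
    have h6 : 6 * (s + 1 + i) = 2 * (3 * (s + 1 + i)) := by ring
    rw [h6] at hd
    have h4 := Nat.Coprime.dvd_of_dvd_mul_left h3c (Nat.Coprime.dvd_of_dvd_mul_left h2c hd)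
    have := Nat.le_of_dvd (by omega) h4
    omega
  have hx : x ^ (2 * n + 1) = 1 := hz.pow_eq_one
  have down : ∀ j, 6 * j < m → Sq x n j = 0 → Sq x n 0 = 0 := by
    intro j
    induction j with
    | zero => intro _ h; exact h
    | succ j ih =>
      intro hj h
      apply ih (by omega)
      have hr := Sq_rec x n j hx hE (hV j (by omega))
      rw [h, mul_zero] at hr
      rcases mul_eq_zero.mp hr.symm with h5 | h5
      · exfalso
        have h6 : (1 - x ^ (6 * (j + 1))) ≠ 0 := by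
          apply hne
          intro hd
          have := Nat.le_of_dvd (by omega) hd
          omega
        exact h6 (by simpa using h5)
      · exact h5
  have hmod : m % 6 = 1 ∨ m % 6 = 5 := by omega
  rcases hmod with h | h
  · obtain ⟨j, hj⟩ : ∃ j, m = 6 * j + 1 := ⟨m / 6, by omega⟩
    apply down j (by omega)
    unfold Sq
    apply sum_eq_zero
    intro k _
    unfold tt
    have hx1 : x ^ (1 + 6 * j) = 1 := by
      rw [add_comm, ← hj]
      exact hx
    rcases Nat.eq_zero_or_pos k with hk | hk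
    · subst hk
      have : 8 * 0 + 1 + 6 * j = 1 + 6 * j := by ring
      rw [this, hx1]
      simp
    · have : Lq x j k = 0 := by
        unfold Lq
        apply prod_eq_zero (i := 0)
        · rw [mem_range]
          omega
        · have : 2 * 0 + 1 + 6 * j = 1 + 6 * j := by ring
          rw [this, hx1]
          ring
      rw [this]
      simp
  · obtain ⟨j, hj⟩ : ∃ j, m = 6 * j + 5 := ⟨m / 6, by omega⟩
    apply down j (by omega)
    have hr := Sq_rec x n j hx hE (hV j (by omega))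
    have hx1 : x ^ (6 * j + 5) = 1 := by
      rw [← hj]
      exact hx
    rw [hx1] at hr
    have h0 : (1 - x ^ (6 * (j + 1))) ^ 2 * Sq x n j = 0 := by
      rw [← hr]
      ring
    rcases mul_eq_zero.mp h0 with h5 | h5
    · exfalso
      have h6 : (1 - x ^ (6 * (j + 1))) ≠ 0 := by
        apply hne
        intro hd
        have e : 6 * (j + 1) = m + 1 := by omega
        rw [e] at hd
        have h7 : m ∣ 1 := (Nat.dvd_add_right (dvd_refl m)).mp hd
        have := Nat.le_of_dvd (by omega) h7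
        omega
      exact h6 (by simpa using h5)
    · exact h5

end tele

end Pool.Agent.R443.QCg
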