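import Mathlib
import Pool.Agent.R443.QCg1

/-!
The sum F_n at roots of unity.
-/

namespace Pool.Agent.R443.QCg

open Finset Pool.Agent.R443.QDel

section defs

variable {R : Type*} [CommRing R]

/-- The polynomial factor `R_{n,k}(q)`. -/
def Rk (q : R) (n k : ℕ) : R :=
  (∏ i ∈ Ico k n, (1 + q ^ (i + 1))) ^ 4 * (∏ i ∈ Ico (2 * k) (2 * n), (1 + q ^ (i + 1))) ^ 2 *
    (∏ i ∈ Ico k n, (1 + q ^ (2 * (i + 1)) + q ^ (4 * (i + 1)))) ^ 2

/-- The sum `F_n(q)`. -/
def F (q : R) (n : ℕ) : R :=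
  ∑ k ∈ range (n + 1), (∑ i ∈ range (8 * k + 1), q ^ i) * q ^ (2 * k ^ 2) *
    gauss q (4 * k) (2 * k) * gauss q (2 * k) k ^ 2 * Rk q n k

/-- The product `(a;q)_n`. -/
def poch (a q : R) (n : ℕ) : R := ∏ j ∈ range n, (1 - a * q ^ j)

/-- The factor `Rk` is the quotient of q-shifted factorials of the problem. -/
theorem Rk_spec (q : R) (n k : ℕ) (hk : k ≤ n) :
    Rk q n k * (poch (-q) q k ^ 4 * poch (-q) q (2 * k) ^ 2 *
      (poch (q ^ 2) (q ^ 2) n * poch (q ^ 6) (q ^ 6) k) ^ 2)
      = poch (-q) q n ^ 4 * poch (-q) q (2 * n) ^ 2 *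
        (poch (q ^ 2) (q ^ 2) k * poch (q ^ 6) (q ^ 6) n) ^ 2 := by
  have e1 : ∀ n : ℕ, poch (-q) q n = ∏ i ∈ range n, (1 + q ^ (i + 1)) := by
    intro n
    unfold poch
    apply prod_congr rfl
    intro i _
    ring
  have e2 : ∀ n : ℕ, poch (q ^ 6) (q ^ 6) n
      = poch (q ^ 2) (q ^ 2) n * ∏ i ∈ range n, (1 + q ^ (2 * (i + 1)) + q ^ (4 * (i + 1))) := by
    intro n
    unfold poch
    rw [← prod_mul_distrib]
    apply prod_congr rfl
    intro i _
    ring
  have h1 := prod_range_mul_prod_Ico (fun i => (1 + q ^ (i + 1))) hk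
  have h2 := prod_range_mul_prod_Ico (fun i => (1 + q ^ (i + 1))) (Nat.mul_le_mul_left 2 hk)
  have h3 := prod_range_mul_prod_Ico (fun i => (1 + q ^ (2 * (i + 1)) + q ^ (4 * (i + 1)))) hk
  rw [e1, e1, e1, e1, e2, e2, ← h1, ← h2, ← h3]
  unfold Rk
  ring

lemma F_map {S : Type*} [CommRing S] (f : R →+* S) (q : R) (n : ℕ) : f (F q n) = F (f q) n := by
  unfold F Rk
  simp only [map_sum, map_mul, map_pow, map_prod, map_add, map_one, gauss_map]

end defs

section ev

variable {K : Type*} [Field K]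

lemma F_even {m h : ℕ} {z : K} (hz : IsPrimitiveRoot z m) (hm : m = 2 * h) (hh : 0 < h) (n : ℕ)
    (hr : m ≤ 3 * (n % m)) : F z n = 0 := by
  unfold F
  apply sum_eq_zero
  intro k hk
  rw [mem_range] at hk
  have hm0 : 0 < m := by omega
  by_cases h4 : m ≤ 4 * (k % m)
  · have := gauss_term_zero hz hm0 k h4
    calc _ = (∑ i ∈ range (8 * k + 1), z ^ i) * z ^ (2 * k ^ 2) *
          (gauss z (4 * k) (2 * k) * gauss z (2 * k) k ^ 2) * Rk z n k := by ring
      _ = 0 := by rw [this]; ring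
  · have hR : Rk z n k = 0 := by
      unfold Rk
      have hzh : z ^ h = -1 := by
        have h2 : (z ^ h) ^ 2 = 1 := by
          rw [← pow_mul, mul_comm, ← hm, hz.pow_eq_one]
        have h3 : (z ^ h - 1) * (z ^ h + 1) = 0 := by linear_combination h2
        have h4 : z ^ h ≠ 1 := hz.pow_ne_one_of_pos_of_lt hh.ne' (by omega)
        have h5 := (mul_eq_zero.mp h3).resolve_left (sub_ne_zero.mpr h4)
        linear_combination h5
      have : ∏ i ∈ Ico (2 * k) (2 * n), (1 + z ^ (i + 1)) = 0 := by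
        have hkd := Nat.div_add_mod k m
        have hnd := Nat.div_add_mod n m
        have hle : k / m ≤ n / m := Nat.div_le_div_right (by omega)
        have hle2 : m * (k / m) ≤ m * (n / m) := Nat.mul_le_mul_left m hle
        apply prod_eq_zero (i := 2 * (m * (n / m)) + h - 1)
        · rw [mem_Ico]
          constructor <;> omega
        · have e : 2 * (m * (n / m)) + h - 1 + 1 = m * (2 * (n / m)) + h := by
            have : 2 * (m * (n / m)) = m * (2 * (n / m)) := by ring
            omega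
          rw [e, pow_add, pow_mul, hz.pow_eq_one, one_pow, one_mul, hzh]
          ring
      rw [this]
      ring
    rw [hR, mul_zero]

lemma F_three {m h : ℕ} {z : K} (hz : IsPrimitiveRoot z m) (hm : m = 3 * h) (hh : 0 < h) (n : ℕ)
    (hr : m ≤ 3 * (n % m)) : F z n = 0 := by
  unfold F
  apply sum_eq_zero
  intro k hk
  rw [mem_range] at hk
  have hm0 : 0 < m := by omega
  by_cases h4 : m ≤ 4 * (k % m)
  · have := gauss_term_zero hz hm0 k h4
    calc _ = (∑ i ∈ range (8 * k + 1), z ^ i) * z ^ (2 * k ^ 2) *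
          (gauss z (4 * k) (2 * k) * gauss z (2 * k) k ^ 2) * Rk z n k := by ring
      _ = 0 := by rw [this]; ring
  · have hR : Rk z n k = 0 := by
      unfold Rk
      have hw1 : (z ^ h) ^ 3 = 1 := by
        rw [← pow_mul, mul_comm, ← hm, hz.pow_eq_one]
      have hw2 : z ^ h ≠ 1 := hz.pow_ne_one_of_pos_of_lt hh.ne' (by omega)
      have hw : 1 + z ^ h + (z ^ h) ^ 2 = 0 := by
        have : (z ^ h - 1) * (1 + z ^ h + (z ^ h) ^ 2) = 0 := by linear_combination hw1
        exact (mul_eq_zero.mp this).resolve_left (sub_ne_zero.mpr hw2)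
      have : ∏ i ∈ Ico k n, (1 + z ^ (2 * (i + 1)) + z ^ (4 * (i + 1))) = 0 := by
        have hkd := Nat.div_add_mod k m
        have hnd := Nat.div_add_mod n m
        have hle : k / m ≤ n / m := Nat.div_le_div_right (by omega)
        have hle2 : m * (k / m) ≤ m * (n / m) := Nat.mul_le_mul_left m hle
        apply prod_eq_zero (i := m * (n / m) + h - 1)
        · rw [mem_Ico]
          constructor <;> omega
        · have e : m * (n / m) + h - 1 + 1 = m * (n / m) + h := by omega
          have e2 : z ^ (m * (n / m) + h) = z ^ h := by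
            rw [pow_add, pow_mul, hz.pow_eq_one, one_pow, one_mul]
          rw [e, mul_comm 2, mul_comm 4, pow_mul, pow_mul, e2]
          linear_combination hw + z ^ h * hw1
      rw [this]
      ring
    rw [hR, mul_zero]

/-- `(-z;z)_n`. -/
def Pz (z : K) (n : ℕ) : K := ∏ i ∈ range n, (1 + z ^ (i + 1))

/-- `(z;z)_n`. -/
def Qz (z : K) (n : ℕ) : K := ∏ i ∈ range n, (1 - z ^ (i + 1))

/-- `(z;z^2)_n`. -/
def Oz (z : K) (n : ℕ) : K := ∏ i ∈ range n, (1 - z ^ (2 * i + 1))

/-- the cubic quotient product. -/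
def Wz (z : K) (n : ℕ) : K := ∏ i ∈ range n, (1 + z ^ (2 * (i + 1)) + z ^ (4 * (i + 1)))

lemma Q_split (z : K) : ∀ n : ℕ, Qz z (2 * n) = Oz z n * (Qz z n * Pz z n)
  | 0 => by simp [Qz, Oz, Pz]
  | n + 1 => by
    have ih := Q_split z n
    unfold Qz Oz Pz at *
    have e : 2 * (n + 1) = 2 * n + 1 + 1 := by ring
    rw [e, prod_range_succ, prod_range_succ, ih, prod_range_succ, prod_range_succ,
      prod_range_succ]
    ring

lemma gauss_central (z : K) (n : ℕ) : gauss z (2 * n) n * Qz z n * Qz z n = Qz z (2 * n) := by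
  have h := gauss_prod z n (2 * n) (by omega)
  have h2 : Qz z (2 * n) = Qz z n * ∏ i ∈ range n, (1 - z ^ (2 * n - i)) := by
    unfold Qz
    rw [two_mul, prod_range_add, ← prod_range_reflect (fun i => 1 - z ^ (n + n - i))]
    congr 1
    apply prod_congr rfl
    intro i hi
    rw [mem_range] at hi
    congr 2
    omega
  rw [h2, ← h]
  unfold Qz
  ring

lemma gauss_central' (z : K) (n : ℕ) (hQ : Qz z n ≠ 0) :
    gauss z (2 * n) n * Qz z n = Oz z n * Pz z n := by
  have h := gauss_central z n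
  rw [Q_split] at h
  apply mul_right_cancel₀ hQ
  linear_combination h

lemma Pz_add {m : ℕ} {z : K} (hz : z ^ m = 1) (l : ℕ) (s : ℕ) :
    Pz z (l * m + s) = Pz z m ^ l * Pz z s := by
  induction l with
  | zero => simp
  | succ l ih =>
    have e : (l + 1) * m + s = m + (l * m + s) := by ring
    have e2 : Pz z (m + (l * m + s)) = Pz z m * Pz z (l * m + s) := by
      unfold Pz
      rw [prod_range_add]
      congr 1
      apply prod_congr rfl
      intro i _
      rw [add_assoc, pow_add, hz, one_mul]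
    rw [e, e2, ih]
    ring

lemma Wz_add {m : ℕ} {z : K} (hz : z ^ m = 1) (l : ℕ) (s : ℕ) :
    Wz z (l * m + s) = Wz z m ^ l * Wz z s := by
  induction l with
  | zero => simp
  | succ l ih =>
    have e : (l + 1) * m + s = m + (l * m + s) := by ring
    have e2 : Wz z (m + (l * m + s)) = Wz z m * Wz z (l * m + s) := by
      unfold Wz
      rw [prod_range_add]
      congr 1
      apply prod_congr rfl
      intro i _
      have e3 : z ^ (2 * (m + i + 1)) = z ^ (2 * (i + 1)) := by
        have : 2 * (m + i + 1) = m * 2 + 2 * (i + 1) := by ring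
        rw [this, pow_add, pow_mul, hz, one_pow, one_mul]
      have e4 : z ^ (4 * (m + i + 1)) = z ^ (4 * (i + 1)) := by
        have : 4 * (m + i + 1) = m * 4 + 4 * (i + 1) := by ring
        rw [this, pow_add, pow_mul, hz, one_pow, one_mul]
      rw [e3, e4]
    rw [e, e2, ih]
    ring

/-- The summand divided by the common factor. -/
def vv (z : K) (k : ℕ) : K :=
  (1 - z ^ (8 * k + 1)) * z ^ (2 * k ^ 2) * gauss z (4 * k) (2 * k) * gauss z (2 * k) k ^ 2 /
    (Pz z k ^ 4 * Pz z (2 * k) ^ 2 * Wz z k ^ 2)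

lemma vv_zero {m : ℕ} {z : K} (hz : IsPrimitiveRoot z m) (hm : 0 < m) (k : ℕ)
    (hk : m ≤ 4 * (k % m)) : vv z k = 0 := by
  have h := gauss_term_zero hz hm k hk
  unfold vv
  have e : (1 - z ^ (8 * k + 1)) * z ^ (2 * k ^ 2) * gauss z (4 * k) (2 * k) * gauss z (2 * k) k ^ 2
      = (1 - z ^ (8 * k + 1)) * z ^ (2 * k ^ 2) *
        (gauss z (4 * k) (2 * k) * gauss z (2 * k) k ^ 2) := by ring
  rw [e, h]
  simp

/-- Block constants. -/
def cc (z : K) (m l : ℕ) : K :=
  ((4 * l).choose (2 * l) : K) * ((2 * l).choose l : K) ^ 2 /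
    (Pz z m ^ (4 * l) * Pz z m ^ (4 * l) * Wz z m ^ (2 * l))

lemma vv_block {m : ℕ} {z : K} (hz : IsPrimitiveRoot z m) (hm : 0 < m) (l s : ℕ)
    (hs : s < m) : vv z (l * m + s) = cc z m l * vv z s := by
  by_cases h4 : m ≤ 4 * s
  · have e1 : (l * m + s) % m = s := by
      rw [Nat.mul_comm, Nat.mul_add_mod, Nat.mod_eq_of_lt hs]
    rw [vv_zero hz hm _ (by rw [e1]; exact h4), vv_zero hz hm s (by rw [Nat.mod_eq_of_lt hs]; exact h4)]
    ring
  · have hzm := hz.pow_eq_one
    have hpow : ∀ t u : ℕ, z ^ (m * t + u) = z ^ u := by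
      intro t u
      rw [pow_add, pow_mul, hzm, one_pow, one_mul]
    have g4 := q_lucas hz hm (4 * (l * m + s)) (4 * l) (4 * s) (2 * l) (2 * s) (by omega)
      (by omega) (by ring)
    have g2 := q_lucas hz hm (2 * (l * m + s)) (2 * l) (2 * s) l s (by omega)
      (by omega) (by ring)
    have e2 : 2 * l * m + 2 * s = 2 * (l * m + s) := by ring
    rw [e2] at g4
    have p1 := Pz_add hzm l s
    have p2 := Pz_add hzm (2 * l) (2 * s)
    rw [e2] at p2
    have w1 := Wz_add hzm l s
    have x1 : z ^ (8 * (l * m + s) + 1) = z ^ (8 * s + 1) := by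
      have : 8 * (l * m + s) + 1 = m * (8 * l) + (8 * s + 1) := by ring
      rw [this, hpow]
    have x2 : z ^ (2 * (l * m + s) ^ 2) = z ^ (2 * s ^ 2) := by
      have : 2 * (l * m + s) ^ 2 = m * (2 * (l * l * m + 2 * l * s)) + 2 * s ^ 2 := by ring
      rw [this, hpow]
    unfold vv cc
    rw [g4, g2, p1, p2, w1, x1, x2, div_mul_div_comm]
    congr 1
    · ring
    · ring

lemma sum_blocks (f : ℕ → K) (m : ℕ) : ∀ a : ℕ,
    ∑ k ∈ range (a * m), f k = ∑ l ∈ range a, ∑ s ∈ range m, f (l * m + s)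
  | 0 => by simp
  | a + 1 => by
    rw [sum_range_succ, ← sum_blocks f m a, add_mul, one_mul, sum_range_add]

lemma vv_tt {n : ℕ} {z : K} (hz : IsPrimitiveRoot z (2 * n + 1))
    (hP : ∀ j, Pz z j ≠ 0) (hW : ∀ j, Wz z j ≠ 0) (s : ℕ) (hs : s < n + 1) :
    vv z s = tt z 0 s := by
  by_cases h4 : 2 * n + 1 ≤ 4 * s
  · rw [vv_zero hz (by omega) s (by rw [Nat.mod_eq_of_lt (by omega)]; exact h4)]
    have : Lq z 0 s = 0 := by
      unfold Lq
      apply prod_eq_zero (i := n)
      · rw [mem_range]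
        omega
      · have : 2 * n + 1 + 6 * 0 = 2 * n + 1 := by ring
        rw [this, hz.pow_eq_one]
        ring
    unfold tt
    rw [this]
    simp
  · have hQ : ∀ j, j < 2 * n + 1 → Qz z j ≠ 0 := by
      intro j hj
      unfold Qz
      rw [prod_ne_zero_iff]
      intro i hi
      rw [mem_range] at hi
      intro h
      exact hz.pow_ne_one_of_pos_of_lt (Nat.succ_ne_zero i) (by omega : i + 1 < 2 * n + 1)
        (sub_eq_zero.mp h).symm
    have g4 := gauss_central' z (2 * s) (hQ _ (by omega))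
    have g2 := gauss_central' z s (hQ _ (by omega))
    have e4 : 2 * (2 * s) = 4 * s := by ring
    rw [e4] at g4
    have t1 : Aq z s = Oz z s ^ 2 := rfl
    have t2 : Lq z 0 s = Oz z (2 * s) := by
      unfold Lq Oz
      apply prod_congr rfl
      intro t _
      congr 2
    have t3 : Vq z 0 s = (Qz z s * Pz z s * Wz z s) ^ 2 := by
      unfold Vq Qz Pz Wz
      rw [← prod_mul_distrib, ← prod_mul_distrib]
      congr 1
      apply prod_congr rfl
      intro t _
      rw [add_zero]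
      ring
    have t4 : Eq z s = Qz z (2 * s) * Pz z (2 * s) := by
      unfold Eq Qz Pz
      rw [← prod_mul_distrib]
      apply prod_congr rfl
      intro t _
      ring
    unfold vv tt
    rw [t1, t2, t3, t4]
    have q1 := hQ s (by omega)
    have q2 := hQ (2 * s) (by omega)
    have p1 := hP s
    have p2 := hP (2 * s)
    have w1 := hW s
    have e5 : 8 * s + 1 + 6 * 0 = 8 * s + 1 := by ring
    rw [e5]
    have g4' : gauss z (4 * s) (2 * s) = Oz z (2 * s) * Pz z (2 * s) / Qz z (2 * s) := by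
      rw [eq_div_iff q2]
      exact g4
    have g2' : gauss z (2 * s) s = Oz z s * Pz z s / Qz z s := by
      rw [eq_div_iff q1]
      exact g2
    rw [g4', g2']
    field_simp

lemma F_coprime {n' : ℕ} {z : ℂ} (hz : IsPrimitiveRoot z (2 * n' + 1)) (hn : 2 ≤ n')
    (h3 : ¬ 3 ∣ 2 * n' + 1) (n : ℕ) (hr : 2 * n' + 1 ≤ 3 * (n % (2 * n' + 1))) : F z n = 0 := by
  set m := 2 * n' + 1 with hm
  have hm0 : 0 < m := by omega
  have h2c : Nat.Coprime m 2 := by
    rw [hm]
    simp
  have h3c : Nat.Coprime m 3 := by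
    rw [Nat.coprime_comm]
    exact (Nat.Prime.coprime_iff_not_dvd Nat.prime_three).mpr h3
  have hP : ∀ j, Pz z j ≠ 0 := by
    intro j
    unfold Pz
    rw [prod_ne_zero_iff]
    intro i _ h
    have h1 : z ^ (i + 1) = -1 := by linear_combination h
    have h2 : z ^ (2 * (i + 1)) = 1 := by
      rw [mul_comm, pow_mul, h1]
      ring
    have h3' := (hz.pow_eq_one_iff_dvd _).mp h2
    have h4 := Nat.Coprime.dvd_of_dvd_mul_left h2c h3'
    have h5 := (hz.pow_eq_one_iff_dvd _).mpr h4
    rw [h5] at h1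
    norm_num at h1
  have hW : ∀ j, Wz z j ≠ 0 := by
    intro j
    unfold Wz
    rw [prod_ne_zero_iff]
    intro i _ h
    have h1 : z ^ (6 * (i + 1)) = 1 := by
      have e2 : z ^ (2 * (i + 1)) = (z ^ (i + 1)) ^ 2 := by rw [mul_comm, pow_mul]
      have e4 : z ^ (4 * (i + 1)) = (z ^ (i + 1)) ^ 4 := by rw [mul_comm, pow_mul]
      have e6 : z ^ (6 * (i + 1)) = (z ^ (i + 1)) ^ 6 := by rw [mul_comm, pow_mul]
      rw [e2, e4] at h
      rw [e6]
      linear_combination ((z ^ (i + 1)) ^ 2 - 1) * h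
    have h2 := (hz.pow_eq_one_iff_dvd _).mp h1
    have h6 : 6 * (i + 1) = 2 * (3 * (i + 1)) := by ring
    rw [h6] at h2
    have h4 := Nat.Coprime.dvd_of_dvd_mul_left h3c (Nat.Coprime.dvd_of_dvd_mul_left h2c h2)
    have h5 := (hz.pow_eq_one_iff_dvd _).mpr h4
    rw [mul_comm 2, mul_comm 4, pow_mul, pow_mul, h5] at h
    norm_num at h
  have hsum0 : ∑ s ∈ range m, vv z s = 0 := by
    have h1 : ∑ s ∈ range m, vv z s = ∑ s ∈ range (n' + 1), vv z s := by
      symm
      apply sum_subset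
      · intro k hk
        rw [mem_range] at hk ⊢
        omega
      · intro k hk hk2
        rw [mem_range] at hk hk2
        exact vv_zero hz hm0 k (by rw [Nat.mod_eq_of_lt hk]; omega)
    rw [h1]
    have h2 : ∑ s ∈ range (n' + 1), vv z s = ∑ s ∈ range (n' + 1), tt z 0 s := by
      apply sum_congr rfl
      intro s hs
      rw [mem_range] at hs
      exact vv_tt hz hP hW s hs
    rw [h2]
    exact Sq_zero hz hn h3
  have hbl : ∀ a : ℕ, ∑ k ∈ range (a * m), vv z k = 0 := by
    intro a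
    rw [sum_blocks]
    apply sum_eq_zero
    intro l _
    have : ∑ s ∈ range m, vv z (l * m + s) = cc z m l * ∑ s ∈ range m, vv z s := by
      rw [mul_sum]
      apply sum_congr rfl
      intro s hs
      rw [mem_range] at hs
      exact vv_block hz hm0 l s hs
    rw [this, hsum0, mul_zero]
  have hall : ∑ k ∈ range (n + 1), vv z k = 0 := by
    rw [← hbl (n / m + 1)]
    have hnd := Nat.div_add_mod n m
    have hnm := Nat.mod_lt n hm0
    have e : (n / m + 1) * m = m * (n / m) + m := by ring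
    apply sum_subset
    · intro k hk
      rw [mem_range] at hk ⊢
      rw [e]
      omega
    · intro k hk hk2
      rw [mem_range] at hk hk2
      rw [e] at hk
      have hk3 : k % m = k - m * (n / m) := by
        have hkd : k = m * (n / m) + (k - m * (n / m)) := by omega
        conv_lhs => rw [hkd]
        rw [Nat.mul_add_mod]
        exact Nat.mod_eq_of_lt (by omega)
      exact vv_zero hz hm0 k (by rw [hk3]; omega)
  have hF : (1 - z) * F z n
      = (Pz z n ^ 4 * Pz z (2 * n) ^ 2 * Wz z n ^ 2) * ∑ k ∈ range (n + 1), vv z k := by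
    unfold F
    rw [mul_sum, mul_sum]
    apply sum_congr rfl
    intro k hk
    rw [mem_range] at hk
    have hkn : k ≤ n := by omega
    have h1 := prod_range_mul_prod_Ico (fun i => (1 + z ^ (i + 1))) hkn
    have h2 := prod_range_mul_prod_Ico (fun i => (1 + z ^ (i + 1))) (Nat.mul_le_mul_left 2 hkn)
    have h3 := prod_range_mul_prod_Ico (fun i => (1 + z ^ (2 * (i + 1)) + z ^ (4 * (i + 1)))) hkn
    have hg : (1 - z) * ∑ i ∈ range (8 * k + 1), z ^ i = 1 - z ^ (8 * k + 1) := mul_neg_geom_sum z _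
    have p1 := hP k
    have p2 := hP (2 * k)
    have w1 := hW k
    unfold vv Rk
    rw [← hg]
    have a1 : Pz z n = Pz z k * ∏ i ∈ Ico k n, (1 + z ^ (i + 1)) := h1.symm
    have a2 : Pz z (2 * n) = Pz z (2 * k) * ∏ i ∈ Ico (2 * k) (2 * n), (1 + z ^ (i + 1)) := h2.symm
    have a3 : Wz z n = Wz z k * ∏ i ∈ Ico k n, (1 + z ^ (2 * (i + 1)) + z ^ (4 * (i + 1))) :=
      h3.symm
    rw [a1, a2, a3]
    field_simp
  rw [hall, mul_zero] at hF
  rcases mul_eq_zero.mp hF with h | h
  · exfalso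
    exact hz.ne_one (by omega) (sub_eq_zero.mp h).symm
  · exact h

/-- `F_n` vanishes at every primitive `m`-th root of unity with `m ≤ 3 (n mod m)`. -/
theorem F_root {m : ℕ} {z : ℂ} (hz : IsPrimitiveRoot z m) (hm : 0 < m) (n : ℕ)
    (hr : m ≤ 3 * (n % m)) : F z n = 0 := by
  by_cases h2 : 2 ∣ m
  · obtain ⟨h, rfl⟩ := h2
    exact F_even hz rfl (by omega) n hr
  by_cases h3 : 3 ∣ m
  · obtain ⟨h, rfl⟩ := h3
    exact F_three hz rfl (by omega) n hr
  obtain ⟨n', rfl⟩ : ∃ n', m = 2 * n' + 1 := ⟨m / 2, by omega⟩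
  have hn' : n' ≠ 0 := by
    rintro rfl
    have := Nat.mod_lt n (show 0 < 2 * 0 + 1 by omega)
    omega
  exact F_coprime hz (by omega) h3 n hr

end ev

end Pool.Agent.R443.QCg
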