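import Mathlib
import Pool.Agent.R443.QCg2

/-!
Divisibility by Gaussian binomials in integer polynomials from vanishing at roots of unity.
-/

namespace Pool.Agent.R443.QCg

open Finset Pool.Agent.R443.QDel Polynomial

/-- The product of `X^(i+1)-1`. -/
noncomputable def qf (R : Type*) [CommRing R] (n : ℕ) : R[X] := ∏ i ∈ range n, (X ^ (i + 1) - 1)

lemma qf_monic (R : Type*) [CommRing R] (n : ℕ) : (qf R n).Monic := by
  unfold qf
  apply monic_prod_of_monic
  intro i _
  have h := monic_X_pow_sub_C (1 : R) (Nat.succ_ne_zero i)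
  simpa using h

lemma gauss_qf {R : Type*} [CommRing R] (N K : ℕ) (h : K ≤ N) :
    gauss (X : R[X]) N K * qf R K * qf R (N - K) = qf R N := by
  have h1 := gauss_prod (X : R[X]) K N h
  have e1 : qf R N = qf R (N - K) * ∏ i ∈ range K, (X ^ (N - i) - 1) := by
    unfold qf
    have hN : N = (N - K) + K := by omega
    conv_lhs => rw [hN]
    rw [prod_range_add, ← prod_range_reflect (fun i => (X : R[X]) ^ (N - i) - 1)]
    congr 1
    apply prod_congr rfl
    intro i hi
    rw [mem_range] at hi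
    congr 2
    omega
  have s1 : ∏ i ∈ range K, (1 - (X : R[X]) ^ (i + 1)) = (-1) ^ K * qf R K := by
    have : ((-1 : R[X])) ^ K = ∏ _i ∈ range K, (-1 : R[X]) := by
      rw [prod_const, card_range]
    unfold qf
    rw [this, ← prod_mul_distrib]
    apply prod_congr rfl
    intro i _
    ring
  have s2 : ∏ i ∈ range K, (1 - (X : R[X]) ^ (N - i))
      = (-1) ^ K * ∏ i ∈ range K, ((X : R[X]) ^ (N - i) - 1) := by
    have : ((-1 : R[X])) ^ K = ∏ _i ∈ range K, (-1 : R[X]) := by
      rw [prod_const, card_range]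
    rw [this, ← prod_mul_distrib]
    apply prod_congr rfl
    intro i _
    ring
  rw [s1, s2] at h1
  have hsq : ((-1 : R[X]) ^ K) * (-1) ^ K = 1 := by
    rw [← mul_pow]
    norm_num
  rw [e1]
  linear_combination ((-1) ^ K * qf R (N - K)) * h1
    - (gauss (X : R[X]) N K * qf R K * qf R (N - K)
      - (∏ i ∈ range K, ((X : R[X]) ^ (N - i) - 1)) * qf R (N - K)) * hsq

lemma gauss_monic {R : Type*} [CommRing R] (N K : ℕ) (h : K ≤ N) :
    (gauss (X : R[X]) N K).Monic := by
  have h1 := gauss_qf (R := R) N K h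
  have h2 := qf_monic R N
  rw [← h1] at h2
  exact Monic.of_mul_monic_right (qf_monic R K) (Monic.of_mul_monic_right (qf_monic R (N - K)) h2)

lemma mult_X_pow {m : ℕ} {z : ℂ} (hz : IsPrimitiveRoot z m) (n : ℕ) :
    rootMultiplicity z (X ^ (n + 1) - 1 : ℂ[X]) = if m ∣ n + 1 then 1 else 0 := by
  have hne : (X ^ (n + 1) - 1 : ℂ[X]) ≠ 0 := by
    have h := (monic_X_pow_sub_C (1 : ℂ) (Nat.succ_ne_zero n)).ne_zero
    simpa using h
  split_ifs with h
  · have h1 : rootMultiplicity z (X ^ (n + 1) - 1 : ℂ[X]) ≤ 1 := by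
      apply rootMultiplicity_le_one_of_separable
      rw [X_pow_sub_one_separable_iff]
      exact_mod_cast Nat.succ_ne_zero n
    have h2 : 0 < rootMultiplicity z (X ^ (n + 1) - 1 : ℂ[X]) := by
      rw [rootMultiplicity_pos hne]
      simp only [IsRoot.def, eval_sub, eval_pow, eval_X, eval_one]
      rw [(hz.pow_eq_one_iff_dvd _).mpr h]
      ring
    omega
  · apply rootMultiplicity_eq_zero
    intro h1
    simp only [IsRoot.def, eval_sub, eval_pow, eval_X, eval_one] at h1
    exact h ((hz.pow_eq_one_iff_dvd _).mp (sub_eq_zero.mp h1))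

lemma mult_qf {m : ℕ} {z : ℂ} (hz : IsPrimitiveRoot z m) : ∀ n : ℕ,
    rootMultiplicity z (qf ℂ n) = n / m
  | 0 => by
    unfold qf
    simp
  | n + 1 => by
    have ih := mult_qf hz n
    have e : qf ℂ (n + 1) = qf ℂ n * (X ^ (n + 1) - 1) := by
      unfold qf
      rw [prod_range_succ]
    have hne : qf ℂ n * (X ^ (n + 1) - 1) ≠ 0 := by
      rw [← e]
      exact (qf_monic ℂ (n + 1)).ne_zero
    rw [e, rootMultiplicity_mul hne, ih, mult_X_pow hz, Nat.succ_div]

lemma mult_gauss {m : ℕ} {z : ℂ} (hz : IsPrimitiveRoot z m) (N K : ℕ) (h : K ≤ N) :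
    rootMultiplicity z (gauss (X : ℂ[X]) N K) + K / m + (N - K) / m = N / m := by
  have h1 := gauss_qf (R := ℂ) N K h
  have h2 := (qf_monic ℂ N).ne_zero
  have h3 := mult_qf hz N
  rw [← h1] at h2 h3
  rw [rootMultiplicity_mul h2, rootMultiplicity_mul (left_ne_zero_of_mul h2), mult_qf hz,
    mult_qf hz] at h3
  exact h3

/-- Divisibility criterion. -/
theorem gauss_dvd (N K : ℕ) (h : K ≤ N) (f : ℤ[X])
    (hf : ∀ (m : ℕ) (z : ℂ), 0 < m → IsPrimitiveRoot z m → K / m + (N - K) / m < N / m →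
      eval z (f.map (Int.castRingHom ℂ)) = 0) :
    gauss (X : ℤ[X]) N K ∣ f := by
  rw [← map_dvd_map (Int.castRingHom ℂ) Int.cast_injective (gauss_monic N K h)]
  have hg : (gauss (X : ℤ[X]) N K).map (Int.castRingHom ℂ) = gauss (X : ℂ[X]) N K := by
    have := gauss_map (mapRingHom (Int.castRingHom ℂ)) (X : ℤ[X]) N K
    simpa using this
  rw [hg]
  by_cases hf0 : f.map (Int.castRingHom ℂ) = 0
  · rw [hf0]
    exact dvd_zero _
  have hgm := gauss_monic (R := ℂ) N K h
  rw [IsAlgClosed.dvd_iff_roots_le_roots hgm.ne_zero hf0]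
  have hord : ∀ z : ℂ, z ∈ (gauss (X : ℂ[X]) N K).roots →
      ∃ m, 0 < m ∧ IsPrimitiveRoot z m := by
    intro z hz
    rw [mem_roots hgm.ne_zero] at hz
    have h1 : eval z (qf ℂ N) = 0 := by
      rw [← gauss_qf (R := ℂ) N K h, eval_mul, eval_mul, hz.eq_zero]
      ring
    unfold qf at h1
    rw [eval_prod, prod_eq_zero_iff] at h1
    obtain ⟨i, _, hi⟩ := h1
    simp only [eval_sub, eval_pow, eval_X, eval_one] at hi
    have h2 : z ^ (i + 1) = 1 := sub_eq_zero.mp hi
    refine ⟨orderOf z, ?_, IsPrimitiveRoot.orderOf z⟩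
    rw [orderOf_pos_iff, isOfFinOrder_iff_pow_eq_one]
    exact ⟨i + 1, Nat.succ_pos i, h2⟩
  have hnd : (gauss (X : ℂ[X]) N K).roots.Nodup := by
    rw [Multiset.nodup_iff_count_le_one]
    intro z
    by_cases hz : z ∈ (gauss (X : ℂ[X]) N K).roots
    · obtain ⟨m, hm, hzm⟩ := hord z hz
      rw [count_roots]
      have h1 := mult_gauss hzm N K h
      have h2 : N / m ≤ K / m + (N - K) / m + 1 := by
        have hN : N = K + (N - K) := by omega
        have h3 := Nat.add_div (a := K) (b := N - K) hm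
        rw [← hN] at h3
        rw [h3]
        split_ifs <;> omega
      omega
    · rw [Multiset.count_eq_zero_of_notMem hz]
      omega
  rw [Multiset.le_iff_subset hnd]
  intro z hz
  rw [mem_roots hf0, IsRoot.def]
  obtain ⟨m, hm, hzm⟩ := hord z hz
  apply hf m z hm hzm
  have h1 := mult_gauss hzm N K h
  have h2 : 0 < rootMultiplicity z (gauss (X : ℂ[X]) N K) := by
    rw [rootMultiplicity_pos hgm.ne_zero]
    exact (mem_roots hgm.ne_zero).mp hz
  omega

lemma F_eval (n : ℕ) (z : ℂ) : eval z ((F (X : ℤ[X]) n).map (Int.castRingHom ℂ)) = F z n := by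
  have h1 := F_map (mapRingHom (Int.castRingHom ℂ)) (X : ℤ[X]) n
  have h2 := F_map (evalRingHom z) (X : ℂ[X]) n
  simp only [coe_mapRingHom, map_X] at h1
  simp only [coe_evalRingHom, eval_X] at h2
  rw [h1, h2]

theorem dvd2 (n : ℕ) : gauss (X : ℤ[X]) (2 * n) n ∣ F (X : ℤ[X]) n := by
  apply gauss_dvd (2 * n) n (by omega)
  intro m z hm hz h
  rw [F_eval]
  apply F_root hz hm
  have e : 2 * n - n = n := by omega
  rw [e] at h
  have h1 := Nat.div_add_mod n m
  by_contra hc
  have h2 : 2 * n / m ≤ 2 * (n / m) := by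
    have : 2 * n / m < 2 * (n / m) + 1 := by
      rw [Nat.div_lt_iff_lt_mul hm]
      have : (2 * (n / m) + 1) * m = 2 * (m * (n / m)) + m := by ring
      omega
    omega
  omega

theorem dvd3 (n : ℕ) : gauss (X : ℤ[X]) (3 * n) n ∣ F (X : ℤ[X]) n := by
  apply gauss_dvd (3 * n) n (by omega)
  intro m z hm hz h
  rw [F_eval]
  apply F_root hz hm
  have e : 3 * n - n = 2 * n := by omega
  rw [e] at h
  have h1 := Nat.div_add_mod n m
  by_contra hc
  have h2 : 3 * n / m < 3 * (n / m) + 1 := by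
    rw [Nat.div_lt_iff_lt_mul hm]
    have : (3 * (n / m) + 1) * m = 3 * (m * (n / m)) + m := by ring
    omega
  have h3 : 2 * (n / m) ≤ 2 * n / m := by
    rw [Nat.le_div_iff_mul_le hm]
    have : 2 * (n / m) * m = 2 * (m * (n / m)) := by ring
    omega
  omega

end Pool.Agent.R443.QCg
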