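import Mathlib
import Pool.Agent.R443.QDel2

/-!
Congruences modulo the square of the bracket of p in integer Laurent polynomials.
-/

namespace Pool.Agent.R443.QDel

open Finset LaurentPolynomial

/-- The q-integer. -/
noncomputable def br (n : ℕ) : ℤ[T;T⁻¹] := ∑ i ∈ range n, T (i : ℤ)

/-- The sum of products of q-Delannoy numbers. -/
noncomputable def S (p m : ℕ) : ℤ[T;T⁻¹] :=
  ∑ j ∈ range p, br (2 * j + 1) * T (-(j : ℤ)) * D (T 1) m j * D (T (-1)) m j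

lemma T_nat (n : ℕ) : (T (n : ℤ) : ℤ[T;T⁻¹]) = (T 1) ^ n := by
  rw [T_pow, mul_one]

lemma T_neg_nat (n : ℕ) : (T (-(n : ℤ)) : ℤ[T;T⁻¹]) = (T (-1)) ^ n := by
  rw [T_pow]
  congr 1
  ring

lemma br_eq (n : ℕ) : br n = ∑ i ∈ range n, (T 1 : ℤ[T;T⁻¹]) ^ i := by
  unfold br
  apply sum_congr rfl
  intro i _
  rw [T_nat]

lemma br_mul (n : ℕ) : (1 - T 1) * br n = 1 - (T 1) ^ n := by
  rw [br_eq, mul_neg_geom_sum]

lemma geom_mul {R : Type*} [CommRing R] (x : R) (n : ℕ) :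
    (1 - x) * ∑ i ∈ range n, x ^ i = 1 - x ^ n := mul_neg_geom_sum x n

lemma T_inj_ne (n : ℤ) (hn : n ≠ 0) : (T n : ℤ[T;T⁻¹]) ≠ 1 := by
  intro h
  have h2 := congrArg (fun f : ℤ[T;T⁻¹] => f.coeff 0) h
  rw [← T_zero] at h2
  simp only [T_apply] at h2
  rw [if_neg hn] at h2
  simp at h2

lemma one_sub_ne : (1 - T 1 : ℤ[T;T⁻¹]) ≠ 0 := by
  intro h
  exact T_inj_ne 1 (by norm_num) (sub_eq_zero.mp h).symm

lemma br_ne (n : ℕ) (hn : 0 < n) : br n ≠ 0 := by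
  intro h
  have h2 := br_mul n
  rw [h, mul_zero, ← T_nat] at h2
  exact T_inj_ne n (by exact_mod_cast hn.ne') (sub_eq_zero.mp h2.symm).symm

/-- Evaluation of an integer Laurent polynomial at a unit of the complex numbers. -/
noncomputable def ev (u : ℂˣ) : ℤ[T;T⁻¹] →+* ℂ := eval₂ (Int.castRingHom ℂ) u

lemma ev_T1 (u : ℂˣ) : ev u (T 1) = (u : ℂ) := by
  unfold ev
  rw [eval₂_T]
  simp

lemma ev_Tm1 (u : ℂˣ) : ev u (T (-1)) = ((u⁻¹ : ℂˣ) : ℂ) := by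
  unfold ev
  rw [eval₂_T]
  simp

lemma br_dvd {p : ℕ} (hp : p.Prime) (u : ℂˣ) (hu : IsPrimitiveRoot (u : ℂ) p) (f : ℤ[T;T⁻¹])
    (hf : ev u f = 0) : br p ∣ f := by
  obtain ⟨n, g, hg⟩ := exists_T_pow f
  have h1 : Polynomial.aeval (u : ℂ) g = 0 := by
    have h2 : ev u (Polynomial.toLaurent g) = 0 := by
      rw [hg, map_mul, hf, zero_mul]
    unfold ev at h2
    rw [eval₂_toLaurent] at h2
    rw [Polynomial.aeval_def]
    exact h2
  have h3 := minpoly.isIntegrallyClosed_dvd (hu.isIntegral hp.pos) h1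
  rw [← Polynomial.cyclotomic_eq_minpoly hu hp.pos] at h3
  have : Fact p.Prime := ⟨hp⟩
  rw [Polynomial.cyclotomic_prime] at h3
  obtain ⟨c, hc⟩ := h3
  have h4 : br p ∣ f * T n := by
    refine ⟨Polynomial.toLaurent c, ?_⟩
    rw [← hg, hc, map_mul, map_sum]
    congr 1
    unfold br
    apply sum_congr rfl
    intro i _
    rw [Polynomial.toLaurent_X_pow]
  exact ((isUnit_T (n : ℤ)).dvd_mul_right).mp h4

lemma br_sq_dvd {p : ℕ} (hp : p.Prime) (u : ℂˣ) (hu : IsPrimitiveRoot (u : ℂ) p)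
    (U Z : ℤ[T;T⁻¹]) (hU : ev u U ≠ 0) (h : br p ^ 2 ∣ U * Z) : br p ^ 2 ∣ Z := by
  have hbr : ev u (br p) = 0 := by
    rw [br_eq, map_sum]
    simp only [map_pow, ev_T1]
    exact hu.geom_sum_eq_zero hp.one_lt
  obtain ⟨c, hc⟩ := h
  have h1 : ev u Z = 0 := by
    have h2 := congrArg (ev u) hc
    rw [map_mul, map_mul, map_pow, hbr] at h2
    have h3 : ev u U * ev u Z = 0 := by rw [h2]; ring
    exact (mul_eq_zero.mp h3).resolve_left hU
  obtain ⟨Z1, hZ1⟩ := br_dvd hp u hu Z h1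
  rw [hZ1] at hc
  have h4 : U * Z1 = br p * c := by
    apply mul_left_cancel₀ (br_ne p hp.pos)
    linear_combination hc
  have h5 : ev u Z1 = 0 := by
    have h2 := congrArg (ev u) h4
    rw [map_mul, map_mul, hbr, zero_mul] at h2
    exact (mul_eq_zero.mp h2).resolve_left hU
  obtain ⟨Z2, hZ2⟩ := br_dvd hp u hu Z1 h5
  exact ⟨Z2, by rw [hZ1, hZ2]; ring⟩

lemma TT : (T 1 : ℤ[T;T⁻¹]) * T (-1) = 1 := by
  rw [← T_add]
  norm_num

/-- The telescoped formula for the sum. -/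
lemma S_tel (p m : ℕ) :
    2 * (1 + T 1) * (1 - (T 1) ^ m) * (1 - (T 1) ^ (m + 1)) * (T 1) ^ p * S p m
      = T 1 * (1 - T 1) * br p ^ 2
        * B (T 1) ((T 1) ^ m) (D (T 1) m p) (D (T 1) m (p - 1)) (D (T (-1)) m p)
          (D (T (-1)) m (p - 1)) := by
  have h := tel (T 1 : ℤ[T;T⁻¹]) (T (-1)) TT m p
  have hS : ∑ n ∈ range p, (T (-1) : ℤ[T;T⁻¹]) ^ n * (1 - (T 1) ^ (2 * n + 1)) * D (T 1) m n
      * D (T (-1)) m n = (1 - T 1) * S p m := by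
    unfold S
    rw [mul_sum]
    apply sum_congr rfl
    intro j _
    rw [← br_mul, T_neg_nat]
    ring
  have hb := br_mul p
  rw [hS, ← hb] at h
  apply mul_left_cancel₀ one_sub_ne
  linear_combination h

end Pool.Agent.R443.QDel
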