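import Mathlib
import Pool.Agent.R443.QDel3

/-!
Schur's q-Fibonacci polynomials: bilateral sums of Gaussian binomials in integer Laurent
polynomials, and a telescoping identity.
-/

namespace Pool.Agent.R443.QFib

open Finset LaurentPolynomial Pool.Agent.R443.QDel

/-- Schur's q-Fibonacci polynomials. -/
def Fb {R : Type*} [CommRing R] (q : R) : ℕ → R
  | 0 => 0
  | 1 => 1
  | n + 2 => Fb q (n + 1) + q ^ (n + 1) * Fb q n

/-- Integer-indexed Gaussian binomials. -/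
noncomputable def gz (n : ℕ) (i : ℤ) : ℤ[T;T⁻¹] :=
  if 0 ≤ i then gauss (T 1) n i.toNat else 0

lemma gz_neg (n : ℕ) (i : ℤ) (h : i < 0) : gz n i = 0 := by
  unfold gz
  rw [if_neg (by omega)]

lemma gz_nat (n k : ℕ) : gz n (k : ℤ) = gauss (T 1) n k := by
  unfold gz
  rw [if_pos (by omega)]
  simp

lemma gz_gt (n : ℕ) (i : ℤ) (h : (n : ℤ) < i) : gz n i = 0 := by
  unfold gz
  rw [if_pos (by omega)]
  exact gauss_eq_zero _ _ _ (by omega)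

lemma gz_zero (n : ℕ) : gz n 0 = 1 := by
  have := gz_nat n 0
  rw [gauss_zero_right] at this
  exact_mod_cast this

lemma gz_P1 (n : ℕ) (i : ℤ) : gz (n + 1) i = gz n (i - 1) + T i * gz n i := by
  rcases lt_trichotomy i 0 with h | h | h
  · rw [gz_neg _ _ h, gz_neg _ _ (by omega), gz_neg _ _ h]
    ring
  · subst h
    rw [gz_zero, gz_neg n (0 - 1) (by omega), gz_zero, T_zero]
    ring
  · obtain ⟨k, rfl⟩ : ∃ k : ℕ, i = ((k + 1 : ℕ) : ℤ) := ⟨(i - 1).toNat, by omega⟩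
    have e : ((k + 1 : ℕ) : ℤ) - 1 = (k : ℤ) := by push_cast; ring
    rw [e, gz_nat, gz_nat, gz_nat, gauss_succ_succ, T_nat]

lemma T_mul_T (a b c : ℤ) (h : a + b = c) : (T a * T b : ℤ[T;T⁻¹]) = T c := by
  rw [← T_add, h]

lemma gz_P2 (n : ℕ) (i : ℤ) : gz (n + 1) i = T ((n : ℤ) + 1 - i) * gz n (i - 1) + gz n i := by
  rcases lt_trichotomy i 0 with h | h | h
  · rw [gz_neg _ _ h, gz_neg _ _ (by omega), gz_neg _ _ h]
    ring
  · subst h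
    rw [gz_zero, gz_neg n (0 - 1) (by omega), gz_zero]
    ring
  · obtain ⟨k, rfl⟩ : ∃ k : ℕ, i = ((k + 1 : ℕ) : ℤ) := ⟨(i - 1).toNat, by omega⟩
    have e : ((k + 1 : ℕ) : ℤ) - 1 = (k : ℤ) := by push_cast; ring
    have h1 := gauss_aux (T 1 : ℤ[T;T⁻¹]) n k
    rw [← T_nat, ← T_nat, ← T_nat] at h1
    have e1 : (T (-(k : ℤ)) * T (k : ℤ) : ℤ[T;T⁻¹]) = 1 := by
      rw [T_mul_T _ _ 0 (by ring), T_zero]
    have e2 : (T (-(k : ℤ)) * T (n : ℤ) : ℤ[T;T⁻¹]) = T ((n : ℤ) + 1 - ((k + 1 : ℕ) : ℤ)) :=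
      T_mul_T _ _ _ (by push_cast; ring)
    rw [e, gz_nat, gz_nat, gz_nat, gauss_succ_succ, ← T_nat, ← e2]
    linear_combination (T (-(k : ℤ))) * h1
      + ((1 - T ((k + 1 : ℕ) : ℤ)) * gauss (T 1) n (k + 1) - gauss (T 1) n k) * e1

lemma gz_symm : ∀ (n : ℕ) (i : ℤ), gz n i = gz n ((n : ℤ) - i)
  | 0, i => by
    rcases lt_trichotomy i 0 with h | h | h
    · rw [gz_neg _ _ h, gz_gt _ _ (by push_cast; omega)]
    · subst h
      simp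
    · rw [gz_gt _ _ (by push_cast; omega), gz_neg _ _ (by push_cast; omega)]
  | n + 1, i => by
    rw [gz_P1 n i, gz_P2 n, gz_symm n i, gz_symm n (i - 1)]
    have e1 : (n : ℤ) + 1 - (((n + 1 : ℕ) : ℤ) - i) = i := by push_cast; ring
    have e2 : (((n + 1 : ℕ) : ℤ) - i) - 1 = (n : ℤ) - i := by push_cast; ring
    have e3 : (n : ℤ) - (i - 1) = ((n + 1 : ℕ) : ℤ) - i := by push_cast; ring
    rw [e1, e2, e3]
    ring

lemma gz_symm' (n : ℕ) (i j : ℤ) (h : i + j = n) : gz n i = gz n j := by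
  rw [gz_symm n i]
  congr 1
  omega

/-- Sum with sign over `k` from `-K` to `K-1`. -/
noncomputable def AS (K : ℕ) (f : ℤ → ℤ[T;T⁻¹]) : ℤ[T;T⁻¹] :=
  ∑ k ∈ range K, (f (k : ℤ) - f (-1 - (k : ℤ)))

/-- Bilateral sum over `k` from `-K` to `K-1`. -/
noncomputable def BS (K : ℕ) (f : ℤ → ℤ[T;T⁻¹]) : ℤ[T;T⁻¹] :=
  ∑ k ∈ range K, (f (k : ℤ) + f (-1 - (k : ℤ)))

lemma AS_add (K : ℕ) (f g : ℤ → ℤ[T;T⁻¹]) : AS K (fun k => f k + g k) = AS K f + AS K g := by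
  unfold AS
  rw [← sum_add_distrib]
  apply sum_congr rfl
  intro k _
  ring

lemma AS_mul (K : ℕ) (c : ℤ[T;T⁻¹]) (f : ℤ → ℤ[T;T⁻¹]) : AS K (fun k => c * f k) = c * AS K f := by
  unfold AS
  rw [mul_sum]
  apply sum_congr rfl
  intro k _
  ring

lemma AS_symm (K : ℕ) (f : ℤ → ℤ[T;T⁻¹]) (h : ∀ k, f (-1 - k) = f k) : AS K f = 0 := by
  unfold AS
  apply sum_eq_zero
  intro k _
  rw [h]
  ring

lemma AS_symm0 (K : ℕ) (f : ℤ → ℤ[T;T⁻¹]) (h : ∀ k, f (-k) = f k) : AS K f = f 0 - f K := by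
  unfold AS
  have e : ∀ k ∈ range K, f (k : ℤ) - f (-1 - (k : ℤ)) = f ((k : ℕ) : ℤ) - f ((k + 1 : ℕ) : ℤ) := by
    intro k _
    have : (-1 - (k : ℤ)) = -((k + 1 : ℕ) : ℤ) := by push_cast; ring
    rw [this, h]
  rw [sum_congr rfl e, sum_range_sub' (fun k : ℕ => f (k : ℤ))]
  simp

lemma BS_add (K : ℕ) (f g : ℤ → ℤ[T;T⁻¹]) : BS K (fun k => f k + g k) = BS K f + BS K g := by
  unfold BS
  rw [← sum_add_distrib]
  apply sum_congr rfl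
  intro k _
  ring

lemma BS_mul (K : ℕ) (c : ℤ[T;T⁻¹]) (f : ℤ → ℤ[T;T⁻¹]) : BS K (fun k => c * f k) = c * BS K f := by
  unfold BS
  rw [mul_sum]
  apply sum_congr rfl
  intro k _
  ring

lemma BS_refl (K : ℕ) (r : ℤ → ℤ[T;T⁻¹]) : BS K (fun k => r k - r (-1 - k)) = 0 := by
  unfold BS
  apply sum_eq_zero
  intro k _
  have : -1 - (-1 - (k : ℤ)) = (k : ℤ) := by ring
  beta_reduce
  rw [this]
  ring

lemma BS_refl0 (K : ℕ) (p : ℤ → ℤ[T;T⁻¹]) : BS K (fun k => p k - p (-k)) = p (-K) - p K := by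
  unfold BS
  have e : ∀ k ∈ range K, (p (k : ℤ) - p (-(k : ℤ))) + (p (-1 - (k : ℤ)) - p (-(-1 - (k : ℤ))))
      = (p ((k : ℕ) : ℤ) - p (-((k : ℕ) : ℤ))) - (p ((k + 1 : ℕ) : ℤ) - p (-((k + 1 : ℕ) : ℤ))) := by
    intro k _
    have e1 : (-1 - (k : ℤ)) = -((k + 1 : ℕ) : ℤ) := by push_cast; ring
    rw [e1, neg_neg]
    ring
  rw [sum_congr rfl e, sum_range_sub' (fun k : ℕ => p (k : ℤ) - p (-(k : ℤ)))]
  simp

/-- The first sequence. -/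
noncomputable def xs (K n : ℕ) : ℤ[T;T⁻¹] :=
  AS K (fun k => T (10 * k ^ 2 + 5 * k + 1) * gz (2 * n) (n + 1 + 5 * k))

/-- The second sequence. -/
noncomputable def ws (K n : ℕ) : ℤ[T;T⁻¹] :=
  AS K (fun k => T (10 * k ^ 2 + 5 * k + 1) * gz (2 * n + 1) (n + 2 + 5 * k))

lemma ws_succ (K n : ℕ) : ws K (n + 1) = T (2 * n + 2) * ws K n + xs K (n + 1) := by
  have h0 : AS K (fun k => T (10 * k ^ 2 + 10 * k + n + 4) * gz (2 * n + 1) (n + 3 + 5 * k)) = 0 := by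
    apply AS_symm
    intro k
    congr 1
    · congr 1
      ring
    · apply gz_symm'
      push_cast
      ring
  unfold ws xs
  rw [← AS_mul, ← AS_add]
  have h1 : ∀ k : ℤ, T (10 * k ^ 2 + 5 * k + 1) * gz (2 * (n + 1) + 1) (((n + 1 : ℕ) : ℤ) + 2 + 5 * k)
      = (T (2 * n + 2) * (T (10 * k ^ 2 + 5 * k + 1) * gz (2 * n + 1) (n + 2 + 5 * k))
        + T (10 * k ^ 2 + 5 * k + 1) * gz (2 * (n + 1)) (((n + 1 : ℕ) : ℤ) + 1 + 5 * k))
        + T (10 * k ^ 2 + 10 * k + n + 4) * gz (2 * n + 1) (n + 3 + 5 * k) := by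
    intro k
    have a1 := gz_P1 (2 * (n + 1)) (((n + 1 : ℕ) : ℤ) + 2 + 5 * k)
    have a2 := gz_P2 (2 * n + 1) (((n + 1 : ℕ) : ℤ) + 2 + 5 * k)
    have e1 : ((n + 1 : ℕ) : ℤ) + 2 + 5 * k - 1 = ((n + 1 : ℕ) : ℤ) + 1 + 5 * k := by ring
    have e2 : ((n + 1 : ℕ) : ℤ) + 1 + 5 * k = (n : ℤ) + 2 + 5 * k := by push_cast; ring
    have e3 : ((n + 1 : ℕ) : ℤ) + 2 + 5 * k = (n : ℤ) + 3 + 5 * k := by push_cast; ring
    have e4 : 2 * (n + 1) = 2 * n + 1 + 1 := by ring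
    rw [e1] at a1 a2
    rw [a1, e4, a2, e2, e3]
    have t1 : (T (10 * k ^ 2 + 5 * k + 1) * (T ((n : ℤ) + 3 + 5 * k)
        * T (((2 * n + 1 : ℕ) : ℤ) + 1 - ((n : ℤ) + 3 + 5 * k))) : ℤ[T;T⁻¹])
        = T (2 * n + 2) * T (10 * k ^ 2 + 5 * k + 1) := by
      rw [← T_add, ← T_add, ← T_add]
      congr 1
      push_cast
      ring
    have t2 : (T (10 * k ^ 2 + 5 * k + 1) * T ((n : ℤ) + 3 + 5 * k) : ℤ[T;T⁻¹])
        = T (10 * k ^ 2 + 10 * k + n + 4) := T_mul_T _ _ _ (by ring)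
    linear_combination gz (2 * n + 1) ((n : ℤ) + 2 + 5 * k) * t1
      + gz (2 * n + 1) ((n : ℤ) + 3 + 5 * k) * t2
  rw [show (fun k : ℤ => T (10 * k ^ 2 + 5 * k + 1) * gz (2 * (n + 1) + 1) (((n + 1 : ℕ) : ℤ) + 2 + 5 * k))
      = _ from funext h1, AS_add, h0, add_zero]

lemma xs_succ (K n : ℕ) (hK : n < 5 * K) :
    xs K (n + 1) = T (2 * n + 1) * xs K n + ws K n + T (n + 1) * gauss (T 1) (2 * n) n := by
  have h0 : AS K (fun k => T (10 * k ^ 2 + n + 1) * gz (2 * n) (n + 5 * k))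
      = T (n + 1) * gauss (T 1) (2 * n) n := by
    rw [AS_symm0]
    · have e1 : (n : ℤ) + 5 * 0 = (n : ℤ) := by ring
      rw [e1, gz_nat, gz_gt (2 * n) ((n : ℤ) + 5 * (K : ℤ)) (by push_cast; omega)]
      have e2 : 10 * (0 : ℤ) ^ 2 + n + 1 = n + 1 := by ring
      rw [e2]
      ring
    · intro k
      congr 1
      · congr 1
        ring
      · apply gz_symm'
        push_cast
        ring
  unfold ws xs
  rw [← h0, ← AS_mul, ← AS_add, ← AS_add]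
  congr 1
  funext k
  have a1 := gz_P2 (2 * n + 1) (((n + 1 : ℕ) : ℤ) + 1 + 5 * k)
  have a2 := gz_P1 (2 * n) ((n : ℤ) + 1 + 5 * k)
  have e1 : ((n + 1 : ℕ) : ℤ) + 1 + 5 * k - 1 = (n : ℤ) + 1 + 5 * k := by push_cast; ring
  have e2 : ((n + 1 : ℕ) : ℤ) + 1 + 5 * k = (n : ℤ) + 2 + 5 * k := by push_cast; ring
  have e3 : (n : ℤ) + 1 + 5 * k - 1 = (n : ℤ) + 5 * k := by ring
  have e4 : 2 * (n + 1) = 2 * n + 1 + 1 := by ring
  rw [e1, e2] at a1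
  rw [e3] at a2
  rw [e4, e2, a1, a2]
  have t1 : (T (10 * k ^ 2 + 5 * k + 1) * (T (((2 * n + 1 : ℕ) : ℤ) + 1 - ((n : ℤ) + 2 + 5 * k))
      * T ((n : ℤ) + 1 + 5 * k)) : ℤ[T;T⁻¹]) = T (2 * n + 1) * T (10 * k ^ 2 + 5 * k + 1) := by
    rw [← T_add, ← T_add, ← T_add]
    congr 1
    push_cast
    ring
  have t2 : (T (10 * k ^ 2 + 5 * k + 1) * T (((2 * n + 1 : ℕ) : ℤ) + 1 - ((n : ℤ) + 2 + 5 * k))
      : ℤ[T;T⁻¹]) = T (10 * k ^ 2 + n + 1) := T_mul_T _ _ _ (by push_cast; ring)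
  linear_combination gz (2 * n) ((n : ℤ) + 1 + 5 * k) * t1 + gz (2 * n) ((n : ℤ) + 5 * k) * t2

lemma gz_zero_ne (i : ℤ) (h : i ≠ 0) : gz 0 i = 0 := by
  rcases lt_or_gt_of_ne h with h | h
  · exact gz_neg _ _ h
  · exact gz_gt _ _ (by push_cast; omega)

lemma gz_one_ne (i : ℤ) (h : i < 0 ∨ 1 < i) : gz 1 i = 0 := by
  rcases h with h | h
  · exact gz_neg _ _ h
  · exact gz_gt _ _ (by push_cast; omega)

lemma xs_zero (K : ℕ) : xs K 0 = 0 := by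
  unfold xs AS
  apply sum_eq_zero
  intro k _
  beta_reduce
  rw [mul_zero, gz_zero_ne _ (by push_cast; omega), gz_zero_ne _ (by push_cast; omega)]
  ring

lemma ws_zero (K : ℕ) : ws K 0 = 0 := by
  unfold ws AS
  apply sum_eq_zero
  intro k _
  beta_reduce
  rw [mul_zero, zero_add, gz_one_ne _ (by push_cast; omega), gz_one_ne _ (by push_cast; omega)]
  ring

/-- The telescoping identity. -/
theorem tele_fib (K : ℕ) : ∀ n : ℕ, n ≤ 5 * K →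
    ∑ k ∈ range n, T (-(2 * (k : ℤ) * (k + 1))) * gauss (T 1 : ℤ[T;T⁻¹]) (2 * k) k * Fb (T 1) (2 * k + 1)
      = T (-(2 * (n : ℤ) ^ 2 + n)) * (xs K n * Fb (T 1) (2 * n + 1) - ws K n * Fb (T 1) (2 * n))
  | 0, _ => by
    rw [xs_zero, ws_zero]
    simp
  | n + 1, hn => by
    rw [sum_range_succ, tele_fib K n (by omega)]
    have h1 := xs_succ K n (by omega)
    have h2 := ws_succ K n
    have f2 : Fb (T 1 : ℤ[T;T⁻¹]) (2 * (n + 1)) = Fb (T 1) (2 * n + 1) + T (2 * n + 1) * Fb (T 1) (2 * n) := by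
      have e : 2 * (n + 1) = 2 * n + 2 := by ring
      rw [e, Fb, ← T_nat]
      congr 2
    have f3 : Fb (T 1 : ℤ[T;T⁻¹]) (2 * (n + 1) + 1)
        = Fb (T 1) (2 * (n + 1)) + T (2 * n + 2) * Fb (T 1) (2 * n + 1) := by
      have e : 2 * (n + 1) + 1 = (2 * n + 1) + 2 := by ring
      have e' : 2 * (n + 1) = (2 * n + 1) + 1 := by ring
      rw [e, Fb, ← T_nat, e']
      congr 2
    have t1 : (T (-(2 * (n : ℤ) ^ 2 + n)) : ℤ[T;T⁻¹])
        = T (-(2 * ((n + 1 : ℕ) : ℤ) ^ 2 + ((n + 1 : ℕ) : ℤ))) * (T (2 * n + 1) * T (2 * n + 2)) := by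
      rw [← T_add, ← T_add]
      congr 1
      push_cast
      ring
    have t2 : (T (-(2 * (n : ℤ) * (n + 1))) : ℤ[T;T⁻¹])
        = T (-(2 * ((n + 1 : ℕ) : ℤ) ^ 2 + ((n + 1 : ℕ) : ℤ))) * (T (n + 1) * T (2 * n + 2)) := by
      rw [← T_add, ← T_add]
      congr 1
      push_cast
      ring
    rw [t1, t2, f3, f2, h2, h1]
    ring

end Pool.Agent.R443.QFib
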