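import Mathlib
import Pool.Agent.R443.QFib1
import Pool.Agent.R443.QCg1

/-!
Schur-type formula for the q-Fibonacci polynomials and evaluation at roots of unity.
-/

namespace Pool.Agent.R443.QFib

open Finset LaurentPolynomial Pool.Agent.R443.QDel Pool.Agent.R443.QCg

/-- Even-index term. -/
noncomputable def Et (n : ℕ) (k : ℤ) : ℤ[T;T⁻¹] :=
  T (10 * k ^ 2 + 3 * k) * gz (2 * n) (n + 1 + 5 * k)
    - T (10 * k ^ 2 + 7 * k + 1) * gz (2 * n) (n + 2 + 5 * k)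

/-- Odd-index term. -/
noncomputable def Ot (n : ℕ) (k : ℤ) : ℤ[T;T⁻¹] :=
  T (10 * k ^ 2 + 3 * k) * gz (2 * n + 1) (n + 1 + 5 * k)
    - T (10 * k ^ 2 + 7 * k + 1) * gz (2 * n + 1) (n + 2 + 5 * k)

lemma Os_succ (K n : ℕ) (hK : n + 1 < 5 * K) :
    BS K (Ot (n + 1)) = BS K (Et (n + 1)) + T (2 * n + 2) * BS K (Ot n) := by
  obtain ⟨p, hp⟩ : ∃ p : ℤ → ℤ[T;T⁻¹], p = fun k : ℤ => T (10 * k ^ 2 - 2 * k + n + 1) * gz (2 * n + 1) (n + 5 * k) :=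
    ⟨_, rfl⟩
  have h0 : BS K (fun k => p k - p (-k)) = 0 := by
    rw [BS_refl0, hp]
    beta_reduce
    rw [gz_neg _ _ (by omega), gz_gt _ _ (by push_cast; omega)]
    ring
  have key : Ot (n + 1) = fun k => (Et (n + 1) k + T (2 * n + 2) * Ot n k) + (p k - p (-k)) := by
    funext k
    have a1 := gz_P2 (2 * n + 1 + 1) ((n : ℤ) + 2 + 5 * k)
    have a2 := gz_P2 (2 * n + 1 + 1) ((n : ℤ) + 3 + 5 * k)
    have a3 := gz_P1 (2 * n + 1) ((n : ℤ) + 1 + 5 * k)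
    have a4 := gz_P1 (2 * n + 1) ((n : ℤ) + 2 + 5 * k)
    have e1 : (n : ℤ) + 2 + 5 * k - 1 = (n : ℤ) + 1 + 5 * k := by ring
    have e2 : (n : ℤ) + 3 + 5 * k - 1 = (n : ℤ) + 2 + 5 * k := by ring
    have e3 : (n : ℤ) + 1 + 5 * k - 1 = (n : ℤ) + 5 * k := by ring
    rw [e1] at a1 a4
    rw [e2] at a2
    rw [e3] at a3
    have e5 : ((n + 1 : ℕ) : ℤ) + 1 + 5 * k = (n : ℤ) + 2 + 5 * k := by push_cast; ring
    have e6 : ((n + 1 : ℕ) : ℤ) + 2 + 5 * k = (n : ℤ) + 3 + 5 * k := by push_cast; ring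
    have e7 : 2 * (n + 1) = 2 * n + 1 + 1 := by ring
    have hs : gz (2 * n + 1) ((n : ℤ) + 5 * -k) = gz (2 * n + 1) ((n : ℤ) + 1 + 5 * k) :=
      gz_symm' _ _ _ (by push_cast; ring)
    rw [hp]
    unfold Ot Et
    beta_reduce
    rw [e5, e6, e7, a1, a2, hs]
    have t1 : (T (10 * k ^ 2 + 3 * k) * T (((2 * n + 1 + 1 : ℕ) : ℤ) + 1 - ((n : ℤ) + 2 + 5 * k))
        : ℤ[T;T⁻¹]) = T (10 * k ^ 2 - 2 * k + n + 1) := T_mul_T _ _ _ (by push_cast; ring)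
    have t2 : (T (10 * k ^ 2 + 7 * k + 1) * T (((2 * n + 1 + 1 : ℕ) : ℤ) + 1 - ((n : ℤ) + 3 + 5 * k))
        : ℤ[T;T⁻¹]) = T (10 * (-k) ^ 2 - 2 * (-k) + n + 1) := T_mul_T _ _ _ (by push_cast; ring)
    have t3 : (T (10 * k ^ 2 - 2 * k + n + 1) * T ((n : ℤ) + 1 + 5 * k) : ℤ[T;T⁻¹])
        = T (2 * n + 2) * T (10 * k ^ 2 + 3 * k) := by
      rw [← T_add, ← T_add]
      congr 1
      ring
    have t4 : (T (10 * (-k) ^ 2 - 2 * (-k) + n + 1) * T ((n : ℤ) + 2 + 5 * k) : ℤ[T;T⁻¹])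
        = T (2 * n + 2) * T (10 * k ^ 2 + 7 * k + 1) := by
      rw [← T_add, ← T_add]
      congr 1
      ring
    linear_combination gz (2 * n + 1 + 1) ((n : ℤ) + 1 + 5 * k) * t1
      - gz (2 * n + 1 + 1) ((n : ℤ) + 2 + 5 * k) * t2
      + T (10 * k ^ 2 - 2 * k + n + 1) * a3 - T (10 * (-k) ^ 2 - 2 * (-k) + n + 1) * a4
      + gz (2 * n + 1) ((n : ℤ) + 1 + 5 * k) * t3 - gz (2 * n + 1) ((n : ℤ) + 2 + 5 * k) * t4
  rw [key, BS_add K (fun k => Et (n + 1) k + T (2 * n + 2) * Ot n k), h0, add_zero,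
    BS_add K (Et (n + 1)), BS_mul]

lemma Es_succ (K n : ℕ) :
    BS K (Et (n + 1)) = BS K (Ot n) + T (2 * n + 1) * BS K (Et n) := by
  obtain ⟨p, hp⟩ : ∃ p : ℤ → ℤ[T;T⁻¹], p = fun k : ℤ => T (10 * k ^ 2 + 8 * k + n + 2) * gz (2 * n) (n + 2 + 5 * k) :=
    ⟨_, rfl⟩
  have h0 : BS K (fun k => p k - p (-1 - k)) = 0 := BS_refl K p
  have key : Et (n + 1) = fun k => (Ot n k + T (2 * n + 1) * Et n k) + (p k - p (-1 - k)) := by
    funext k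
    have a1 := gz_P1 (2 * n + 1) ((n : ℤ) + 2 + 5 * k)
    have a2 := gz_P1 (2 * n + 1) ((n : ℤ) + 3 + 5 * k)
    have a3 := gz_P2 (2 * n) ((n : ℤ) + 2 + 5 * k)
    have a4 := gz_P2 (2 * n) ((n : ℤ) + 3 + 5 * k)
    have e1 : (n : ℤ) + 2 + 5 * k - 1 = (n : ℤ) + 1 + 5 * k := by ring
    have e2 : (n : ℤ) + 3 + 5 * k - 1 = (n : ℤ) + 2 + 5 * k := by ring
    rw [e1] at a1 a3
    rw [e2] at a2 a4
    have e5 : ((n + 1 : ℕ) : ℤ) + 1 + 5 * k = (n : ℤ) + 2 + 5 * k := by push_cast; ring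
    have e6 : ((n + 1 : ℕ) : ℤ) + 2 + 5 * k = (n : ℤ) + 3 + 5 * k := by push_cast; ring
    have e7 : 2 * (n + 1) = 2 * n + 1 + 1 := by ring
    have hs : gz (2 * n) ((n : ℤ) + 2 + 5 * (-1 - k)) = gz (2 * n) ((n : ℤ) + 3 + 5 * k) :=
      gz_symm' _ _ _ (by push_cast; ring)
    rw [hp]
    unfold Ot Et
    beta_reduce
    rw [e5, e6, e7, a1, a2, hs]
    have t1 : (T (10 * k ^ 2 + 3 * k) * (T ((n : ℤ) + 2 + 5 * k)
        * T (((2 * n : ℕ) : ℤ) + 1 - ((n : ℤ) + 2 + 5 * k))) : ℤ[T;T⁻¹])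
        = T (2 * n + 1) * T (10 * k ^ 2 + 3 * k) := by
      rw [← T_add, ← T_add, ← T_add]
      congr 1
      push_cast
      ring
    have t2 : (T (10 * k ^ 2 + 7 * k + 1) * (T ((n : ℤ) + 3 + 5 * k)
        * T (((2 * n : ℕ) : ℤ) + 1 - ((n : ℤ) + 3 + 5 * k))) : ℤ[T;T⁻¹])
        = T (2 * n + 1) * T (10 * k ^ 2 + 7 * k + 1) := by
      rw [← T_add, ← T_add, ← T_add]
      congr 1
      push_cast
      ring
    have t3 : (T (10 * k ^ 2 + 3 * k) * T ((n : ℤ) + 2 + 5 * k) : ℤ[T;T⁻¹])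
        = T (10 * k ^ 2 + 8 * k + n + 2) := T_mul_T _ _ _ (by ring)
    have t4 : (T (10 * k ^ 2 + 7 * k + 1) * T ((n : ℤ) + 3 + 5 * k) : ℤ[T;T⁻¹])
        = T (10 * (-1 - k) ^ 2 + 8 * (-1 - k) + n + 2) := T_mul_T _ _ _ (by ring)
    linear_combination (T (10 * k ^ 2 + 3 * k) * T ((n : ℤ) + 2 + 5 * k)) * a3
      - (T (10 * k ^ 2 + 7 * k + 1) * T ((n : ℤ) + 3 + 5 * k)) * a4
      + gz (2 * n) ((n : ℤ) + 1 + 5 * k) * t1 - gz (2 * n) ((n : ℤ) + 2 + 5 * k) * t2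
      + gz (2 * n) ((n : ℤ) + 2 + 5 * k) * t3 - gz (2 * n) ((n : ℤ) + 3 + 5 * k) * t4
  rw [key, BS_add K (fun k => Ot n k + T (2 * n + 1) * Et n k), h0, add_zero,
    BS_add K (Ot n), BS_mul]

lemma Es_zero (K : ℕ) : BS K (Et 0) = 0 := by
  unfold BS Et
  apply sum_eq_zero
  intro k _
  rw [mul_zero, gz_zero_ne _ (by push_cast; omega), gz_zero_ne _ (by push_cast; omega),
    gz_zero_ne _ (by push_cast; omega), gz_zero_ne _ (by push_cast; omega)]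
  ring

lemma Os_zero (K : ℕ) (hK : 0 < K) : BS K (Ot 0) = 1 := by
  unfold BS Ot
  rw [sum_eq_single 0]
  · have e1 : ((0 : ℕ) : ℤ) + 1 + 5 * ((0 : ℕ) : ℤ) = ((1 : ℕ) : ℤ) := by norm_num
    have e2 : 10 * ((0 : ℕ) : ℤ) ^ 2 + 3 * ((0 : ℕ) : ℤ) = 0 := by norm_num
    rw [e1, e2, T_zero, gz_one_ne (((0 : ℕ) : ℤ) + 2 + 5 * ((0 : ℕ) : ℤ)) (by norm_num),
      gz_one_ne (((0 : ℕ) : ℤ) + 1 + 5 * (-1 - ((0 : ℕ) : ℤ))) (by norm_num),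
      gz_one_ne (((0 : ℕ) : ℤ) + 2 + 5 * (-1 - ((0 : ℕ) : ℤ))) (by norm_num)]
    have e3 : gz (2 * 0 + 1) ((1 : ℕ) : ℤ) = 1 := by
      rw [gz_nat]
      simp [gauss_self]
    rw [e3]
    ring
  · intro k _ hk
    rw [mul_zero, zero_add, gz_one_ne _ (by push_cast; omega), gz_one_ne _ (by push_cast; omega),
      gz_one_ne _ (by push_cast; omega), gz_one_ne _ (by push_cast; omega)]
    ring
  · intro h
    exact absurd (mem_range.mpr hK) h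

/-- Schur-type formula. -/
theorem Fb_formula (K : ℕ) (hK0 : 0 < K) : ∀ n : ℕ, n < 5 * K →
    Fb (T 1 : ℤ[T;T⁻¹]) (2 * n) = BS K (Et n) ∧ Fb (T 1 : ℤ[T;T⁻¹]) (2 * n + 1) = BS K (Ot n)
  | 0, _ => by
    rw [Es_zero, Os_zero K hK0]
    exact ⟨rfl, rfl⟩
  | n + 1, hn => by
    obtain ⟨h1, h2⟩ := Fb_formula K hK0 n (by omega)
    have f2 : Fb (T 1 : ℤ[T;T⁻¹]) (2 * (n + 1)) = Fb (T 1) (2 * n + 1) + T (2 * n + 1) * Fb (T 1) (2 * n) := by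
      have e : 2 * (n + 1) = 2 * n + 2 := by ring
      rw [e, Fb, ← T_nat]
      congr 2
    have f3 : Fb (T 1 : ℤ[T;T⁻¹]) (2 * (n + 1) + 1)
        = Fb (T 1) (2 * (n + 1)) + T (2 * n + 2) * Fb (T 1) (2 * n + 1) := by
      have e : 2 * (n + 1) + 1 = (2 * n + 1) + 2 := by ring
      have e' : 2 * (n + 1) = (2 * n + 1) + 1 := by ring
      rw [e, Fb, ← T_nat, e']
      congr 2
    have h3 : Fb (T 1 : ℤ[T;T⁻¹]) (2 * (n + 1)) = BS K (Et (n + 1)) := by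
      rw [f2, h1, h2, Es_succ]
    refine ⟨h3, ?_⟩
    rw [f3, h3, h2, Os_succ K n hn]

lemma ev_gz (u : ℂˣ) (n k : ℕ) : ev u (gz n (k : ℤ)) = gauss (u : ℂ) n k := by
  rw [gz_nat, gauss_map, ev_T1]

lemma ev_gz_zero (u : ℂˣ) {d : ℕ} (hd : 0 < d) (hu : IsPrimitiveRoot (u : ℂ) d) (M r : ℕ) (hr : r < d)
    (i : ℤ) (hi : (r : ℤ) < i % d) : ev u (gz (d * M + r) i) = 0 := by
  by_cases h : i < 0
  · rw [gz_neg _ _ h, map_zero]
  · obtain ⟨k, rfl⟩ : ∃ k : ℕ, i = (k : ℤ) := ⟨i.toNat, by omega⟩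
    have hk : r < k % d := by exact_mod_cast hi
    have hkd := Nat.div_add_mod k d
    have hq := q_lucas hu hd (d * M + r) M r (k / d) (k % d) hr (Nat.mod_lt k hd) (by ring)
    have e : k / d * d + k % d = k := by rw [mul_comm]; exact hkd
    rw [e] at hq
    rw [ev_gz, hq, gauss_eq_zero _ _ _ hk, mul_zero]

end Pool.Agent.R443.QFib
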