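import Mathlib
import Pool.Agent.R443.QFib2

/-!
Divisibility by squares of cyclotomic polynomials.
-/

namespace Pool.Agent.R443.QFib

open Finset LaurentPolynomial Pool.Agent.R443.QDel Pool.Agent.R443.QCg

/-- The cyclotomic polynomial as a Laurent polynomial. -/
noncomputable def Ph (d : ℕ) : ℤ[T;T⁻¹] := Polynomial.toLaurent (Polynomial.cyclotomic d ℤ)

lemma Ph_dvd {d : ℕ} (hd : 0 < d) (u : ℂˣ) (hu : IsPrimitiveRoot (u : ℂ) d) (f : ℤ[T;T⁻¹])
    (hf : ev u f = 0) : Ph d ∣ f := by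
  obtain ⟨n, g, hg⟩ := exists_T_pow f
  have h1 : Polynomial.aeval (u : ℂ) g = 0 := by
    have h2 : ev u (Polynomial.toLaurent g) = 0 := by
      rw [hg, map_mul, hf, zero_mul]
    unfold ev at h2
    rw [eval₂_toLaurent] at h2
    rw [Polynomial.aeval_def]
    exact h2
  have h3 := minpoly.isIntegrallyClosed_dvd (hu.isIntegral hd) h1
  rw [← Polynomial.cyclotomic_eq_minpoly hu hd] at h3
  obtain ⟨c, hc⟩ := h3
  have h4 : Ph d ∣ f * T n := by
    refine ⟨Polynomial.toLaurent c, ?_⟩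
    rw [← hg, hc, map_mul]
    rfl
  exact ((isUnit_T (n : ℤ)).dvd_mul_right).mp h4

lemma Ph_ne (d : ℕ) : Ph d ≠ 0 := by
  unfold Ph
  rw [Polynomial.toLaurent_ne_zero]
  exact Polynomial.cyclotomic_ne_zero d ℤ

lemma ev_T (u : ℂˣ) (n : ℤ) : ev u (T n) = ((u ^ n : ℂˣ) : ℂ) := by
  unfold ev
  rw [eval₂_T]

lemma ev_T_mul (u : ℂˣ) {d : ℕ} (hu : IsPrimitiveRoot (u : ℂ) d) (t : ℤ) :
    ev u (T (d * t)) = 1 := by
  rw [ev_T]
  have h : u ^ d = 1 := by
    apply Units.ext
    push_cast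
    exact hu.pow_eq_one
  rw [zpow_mul, zpow_natCast, h, one_zpow]
  rfl

/-- The congruence between symmetric Gaussian binomials. -/
lemma pair {d : ℕ} (u : ℂˣ) (hu : IsPrimitiveRoot (u : ℂ) d) (M a b : ℕ) (hM : 0 < M)
    (hb : 0 < b) (hbd : b < d) :
    Ph d ^ 2 ∣ gauss (T 1) (2 * (d * M)) (d * M + (a * d + b))
      - gauss (T 1) (2 * (d * M)) (d * M + (a * d + (d - b))) := by
  have hd : 0 < d := by omega
  obtain ⟨N, hN⟩ : ∃ N, d * M = N := ⟨_, rfl⟩
  have hN0 : 0 < N := by rw [← hN]; positivity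
  have hz := hu.pow_eq_one
  set z : ℂ := (u : ℂ) with hzd
  -- divisibility of each term
  have hdiv : ∀ b' : ℕ, 0 < b' → b' < d → ∃ β : ℤ[T;T⁻¹],
      gauss (T 1) (2 * N) (N + (a * d + b')) = Ph d * β := by
    intro b' h1 h2
    apply Ph_dvd hd u hu
    rw [gauss_map, ev_T1]
    have h := q_lucas hu hd (2 * N) (2 * M) 0 (M + a) b' hd h2 (by rw [← hN]; ring)
    have e : (M + a) * d + b' = N + (a * d + b') := by rw [← hN]; ring
    rw [e] at h
    rw [h, gauss_eq_zero _ _ _ h1, mul_zero]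
  obtain ⟨c, hc⟩ : Ph d ∣ (1 - (T 1 : ℤ[T;T⁻¹]) ^ (2 * N)) := by
    apply Ph_dvd hd u hu
    rw [map_sub, map_one, map_pow, ev_T1, ← hN]
    have e : 2 * (d * M) = d * (2 * M) := by ring
    rw [e, pow_mul, hz]
    simp
  have hval : ∀ b' : ℕ, 0 < b' → b' < d → ∀ β : ℤ[T;T⁻¹],
      gauss (T 1) (2 * N) (N + (a * d + b')) = Ph d * β →
      (1 - z ^ b') * ev u β = ev u c * (((2 * M - 1).choose (M + a) : ℂ) * gauss z (d - 1) (b' - 1)) := by
    intro b' h1 h2 β hβ
    have h3 := gauss_absorb (T 1 : ℤ[T;T⁻¹]) (2 * N - 1) (N + (a * d + b') - 1)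
    have e1 : 2 * N - 1 + 1 = 2 * N := by omega
    have e2 : N + (a * d + b') - 1 + 1 = N + (a * d + b') := by omega
    rw [e1, e2, hβ, hc] at h3
    have h4 : (1 - (T 1 : ℤ[T;T⁻¹]) ^ (N + (a * d + b'))) * β
        = c * gauss (T 1) (2 * N - 1) (N + (a * d + b') - 1) := by
      apply mul_left_cancel₀ (Ph_ne d)
      linear_combination h3
    have h5 := congrArg (ev u) h4
    rw [map_mul, map_mul, map_sub, map_one, map_pow, ev_T1, gauss_map, ev_T1] at h5
    have e3 : (u : ℂ) ^ (N + (a * d + b')) = z ^ b' := by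
      have : N + (a * d + b') = d * (M + a) + b' := by rw [← hN]; ring
      rw [this, pow_add, pow_mul, hz, one_pow, one_mul]
    have h6 := q_lucas hu hd (2 * N - 1) (2 * M - 1) (d - 1) (M + a) (b' - 1) (by omega)
      (by omega) (by
        have h7 : (2 * M - 1) * d + d = 2 * N := by
          have : 2 * M - 1 + 1 = 2 * M := by omega
          calc (2 * M - 1) * d + d = (2 * M - 1 + 1) * d := by ring
            _ = 2 * N := by rw [this, ← hN]; ring
        omega)
    have e4 : (M + a) * d + (b' - 1) = N + (a * d + b') - 1 := by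
      have : (M + a) * d = N + a * d := by rw [← hN]; ring
      omega
    rw [e4] at h6
    rw [e3, h6] at h5
    exact h5
  rw [hN]
  obtain ⟨β, hβ⟩ := hdiv b hb hbd
  obtain ⟨β', hβ'⟩ := hdiv (d - b) (by omega) (by omega)
  have v1 := hval b hb hbd β hβ
  have v2 := hval (d - b) (by omega) (by omega) β' hβ'
  have haux := gauss_aux z (d - 1) (b - 1)
  have eb : b - 1 + 1 = b := by omega
  rw [eb] at haux
  have hsym : gauss z (d - 1) (d - b - 1) = gauss z (d - 1) b := by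
    have h1 := gz_symm' (d - 1) (((d - b - 1 : ℕ) : ℤ)) ((b : ℕ) : ℤ) (by omega)
    have h2 := congrArg (ev u) h1
    rw [ev_gz, ev_gz] at h2
    exact h2
  rw [hsym] at v2
  have hz0 : z ≠ 0 := u.ne_zero
  have hzb : z ^ (d - b) * z ^ b = 1 := by
    rw [← pow_add]
    have : d - b + b = d := by omega
    rw [this, hz]
  have haux2 : (1 - z ^ (d - b)) * gauss z (d - 1) (b - 1) = (1 - z ^ b) * gauss z (d - 1) b := by
    apply mul_left_cancel₀ (pow_ne_zero (b - 1) hz0)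
    have e : z ^ (b - 1) * z ^ (d - b) = z ^ (d - 1) := by
      rw [← pow_add]
      congr 1
      omega
    linear_combination haux - gauss z (d - 1) (b - 1) * e
  have n1 : (1 - z ^ b) ≠ 0 := by
    intro h
    exact hu.pow_ne_one_of_pos_of_lt hb.ne' hbd (sub_eq_zero.mp h).symm
  have n2 : (1 - z ^ (d - b)) ≠ 0 := by
    intro h
    exact hu.pow_ne_one_of_pos_of_lt (by omega : d - b ≠ 0) (by omega) (sub_eq_zero.mp h).symm
  have heq : ev u (β - β') = 0 := by
    rw [map_sub]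
    have : (1 - z ^ b) * (1 - z ^ (d - b)) * (ev u β - ev u β') = 0 := by
      linear_combination (1 - z ^ (d - b)) * v1 - (1 - z ^ b) * v2
        + (ev u c * ((2 * M - 1).choose (M + a) : ℂ)) * haux2
    exact (mul_eq_zero.mp this).resolve_left (mul_ne_zero n1 n2)
  obtain ⟨g, hg⟩ := Ph_dvd hd u hu _ heq
  refine ⟨g, ?_⟩
  rw [hβ, hβ', ← mul_sub, hg]
  ring

end Pool.Agent.R443.QFib
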