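import Mathlib
import Pool.Agent.R443.QFib3

/-!
The sum is divisible by the square of each cyclotomic polynomial of index divisible by five.
-/

namespace Pool.Agent.R443.QFib

open Finset LaurentPolynomial Pool.Agent.R443.QDel Pool.Agent.R443.QCg

lemma sum_blk (f : ℕ → ℤ[T;T⁻¹]) (m : ℕ) : ∀ a : ℕ,
    ∑ k ∈ range (a * m), f k = ∑ l ∈ range a, ∑ s ∈ range m, f (l * m + s)
  | 0 => by simp
  | a + 1 => by
    rw [sum_range_succ, ← sum_blk f m a, add_mul, one_mul, sum_range_add]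

lemma xs_dvd {e : ℕ} (he : 0 < e) (u : ℂˣ) (hu : IsPrimitiveRoot (u : ℂ) (5 * e)) (M A : ℕ)
    (hM : 0 < M) : Ph (5 * e) ^ 2 ∣ xs (A * e) (5 * e * M) := by
  unfold xs AS
  rw [sum_blk]
  apply dvd_sum
  intro a _
  rw [sum_sub_distrib, ← sum_range_reflect (fun s => T (10 * (-1 - ((a * e + s : ℕ) : ℤ)) ^ 2
    + 5 * (-1 - ((a * e + s : ℕ) : ℤ)) + 1) * gz (2 * (5 * e * M))
      (((5 * e * M : ℕ) : ℤ) + 1 + 5 * (-1 - ((a * e + s : ℕ) : ℤ)))), ← sum_sub_distrib]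
  apply dvd_sum
  intro s hs
  rw [mem_range] at hs
  obtain ⟨k, hk⟩ : ∃ k : ℤ, ((a * e + s : ℕ) : ℤ) = k := ⟨_, rfl⟩
  obtain ⟨k', hk'⟩ : ∃ k' : ℤ, (-1 - ((a * e + (e - 1 - s) : ℕ) : ℤ)) = k' := ⟨_, rfl⟩
  have hkk : k' = k - (2 * a + 1) * e := by
    rw [← hk, ← hk']
    have : ((e - 1 - s : ℕ) : ℤ) = (e : ℤ) - 1 - s := by omega
    push_cast
    rw [this]
    ring
  rw [hk, hk']
  have g1 : gz (2 * (5 * e * M)) (((5 * e * M : ℕ) : ℤ) + 1 + 5 * k)
      = gauss (T 1) (2 * (5 * e * M)) (5 * e * M + (a * (5 * e) + (5 * s + 1))) := by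
    rw [← gz_nat]
    congr 1
    rw [← hk]
    push_cast
    ring
  have g2 : gz (2 * (5 * e * M)) (((5 * e * M : ℕ) : ℤ) + 1 + 5 * k')
      = gauss (T 1) (2 * (5 * e * M)) (5 * e * M + (a * (5 * e) + (5 * e - (5 * s + 1)))) := by
    rw [← gz_nat]
    apply gz_symm'
    rw [hkk, ← hk]
    have : ((5 * e - (5 * s + 1) : ℕ) : ℤ) = 5 * (e : ℤ) - (5 * s + 1) := by omega
    push_cast
    rw [this]
    ring
  beta_reduce
  rw [g1, g2]
  have hp := pair u hu M a (5 * s + 1) hM (by omega) (by omega)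
  have hgz : Ph (5 * e) ∣ gauss (T 1) (2 * (5 * e * M))
      (5 * e * M + (a * (5 * e) + (5 * e - (5 * s + 1)))) := by
    apply Ph_dvd (by omega) u hu
    have h := ev_gz_zero u (d := 5 * e) (by omega) hu (2 * M) 0 (by omega)
      (((5 * e * M + (a * (5 * e) + (5 * e - (5 * s + 1))) : ℕ)) : ℤ) (by
        have e1 : 5 * e * M + (a * (5 * e) + (5 * e - (5 * s + 1)))
            = (5 * e - (5 * s + 1)) + 5 * e * (M + a) := by ring
        have e2 : (5 * e * M + (a * (5 * e) + (5 * e - (5 * s + 1)))) % (5 * e)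
            = 5 * e - (5 * s + 1) := by
          rw [e1, Nat.add_mul_mod_self_left]
          exact Nat.mod_eq_of_lt (by omega)
        have e3 : (((5 * e * M + (a * (5 * e) + (5 * e - (5 * s + 1))) : ℕ)) : ℤ) % ((5 * e : ℕ) : ℤ)
            = ((5 * e - (5 * s + 1) : ℕ) : ℤ) := by
          rw [← Int.natCast_mod, e2]
        rw [e3]
        omega)
    rw [ev_gz] at h
    rw [gauss_map, ev_T1]
    have e4 : 2 * (5 * e * M) = 5 * e * (2 * M) + 0 := by ring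
    rw [e4]
    exact h
  have hTT : Ph (5 * e) ∣ (T (10 * k ^ 2 + 5 * k + 1) - T (10 * k' ^ 2 + 5 * k' + 1) : ℤ[T;T⁻¹]) := by
    apply Ph_dvd (by omega) u hu
    have e1 : (T (10 * k ^ 2 + 5 * k + 1) : ℤ[T;T⁻¹])
        = T (10 * k' ^ 2 + 5 * k' + 1) * T (((5 * e : ℕ) : ℤ) * ((2 * a + 1) * (2 * (k + k') + 1))) := by
      rw [← T_add]
      congr 1
      rw [hkk]
      push_cast
      ring
    rw [map_sub, e1, map_mul, ev_T_mul u hu]
    ring
  have e5 : ∀ x y g h : ℤ[T;T⁻¹], x * g - y * h = x * (g - h) + (x - y) * h := by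
    intro x y g h
    ring
  rw [e5]
  apply dvd_add
  · exact Dvd.dvd.mul_left hp _
  · rw [pow_two]
    exact mul_dvd_mul hTT hgz

lemma mod5_pos (e : ℕ) (he : 0 < e) (i : ℤ) (r : ℤ) (h : i % 5 = r) (r0 : ℕ) (hr : (r0 : ℤ) < r)
    (_hr5 : r < 5) : (r0 : ℤ) < i % ((5 * e : ℕ) : ℤ) := by
  have h1 : 0 ≤ i % ((5 * e : ℕ) : ℤ) := Int.emod_nonneg _ (by push_cast; omega)
  have h2 : (i % ((5 * e : ℕ) : ℤ)) % 5 = r := by
    rw [Int.emod_emod_of_dvd i (by push_cast; exact Dvd.intro _ rfl)]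
    exact h
  omega

lemma ws_dvd {e : ℕ} (he : 0 < e) (u : ℂˣ) (hu : IsPrimitiveRoot (u : ℂ) (5 * e)) (M K : ℕ) :
    Ph (5 * e) ∣ ws K (5 * e * M) := by
  apply Ph_dvd (by omega) u hu
  unfold ws AS
  rw [map_sum]
  apply sum_eq_zero
  intro k _
  have e4 : 2 * (5 * e * M) + 1 = 5 * e * (2 * M) + 1 := by ring
  rw [map_sub, map_mul, map_mul, e4]
  have hN : (((5 * e * M : ℕ)) : ℤ) % 5 = 0 := by
    push_cast
    rw [mul_assoc]
    omega
  rw [ev_gz_zero u (d := 5 * e) (by omega) hu (2 * M) 1 (by omega) _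
      (mod5_pos e he _ 2 (by omega) 1 (by norm_num) (by norm_num)),
    ev_gz_zero u (d := 5 * e) (by omega) hu (2 * M) 1 (by omega) _
      (mod5_pos e he _ 2 (by omega) 1 (by norm_num) (by norm_num))]
  ring

lemma Fb_dvd {e : ℕ} (he : 0 < e) (u : ℂˣ) (hu : IsPrimitiveRoot (u : ℂ) (5 * e)) (M K : ℕ)
    (hK : 5 * e * M < 5 * K) :
    Ph (5 * e) ∣ Fb (T 1 : ℤ[T;T⁻¹]) (2 * (5 * e * M)) := by
  apply Ph_dvd (by omega) u hu
  rw [(Fb_formula K (by omega) (5 * e * M) hK).1]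
  unfold BS Et
  rw [map_sum]
  apply sum_eq_zero
  intro k _
  have e4 : 2 * (5 * e * M) = 5 * e * (2 * M) + 0 := by ring
  rw [map_add, map_sub, map_sub, map_mul, map_mul, map_mul, map_mul, e4]
  have hN : (((5 * e * M : ℕ)) : ℤ) % 5 = 0 := by
    push_cast
    rw [mul_assoc]
    omega
  rw [ev_gz_zero u (d := 5 * e) (by omega) hu (2 * M) 0 (by omega) _
      (mod5_pos e he _ 1 (by omega) 0 (by norm_num) (by norm_num)),
    ev_gz_zero u (d := 5 * e) (by omega) hu (2 * M) 0 (by omega) _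
      (mod5_pos e he _ 2 (by omega) 0 (by norm_num) (by norm_num)),
    ev_gz_zero u (d := 5 * e) (by omega) hu (2 * M) 0 (by omega) _
      (mod5_pos e he _ 1 (by omega) 0 (by norm_num) (by norm_num)),
    ev_gz_zero u (d := 5 * e) (by omega) hu (2 * M) 0 (by omega) _
      (mod5_pos e he _ 2 (by omega) 0 (by norm_num) (by norm_num))]
  ring

/-- The partial sums. -/
noncomputable def SF (n : ℕ) : ℤ[T;T⁻¹] :=
  ∑ k ∈ range n, T (-(2 * (k : ℤ) * (k + 1))) * gauss (T 1) (2 * k) k * Fb (T 1) (2 * k + 1)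

theorem SF_dvd {e : ℕ} (he : 0 < e) (M : ℕ) (hM : 0 < M) :
    Ph (5 * e) ^ 2 ∣ SF (5 * e * M) := by
  have hprim := Complex.isPrimitiveRoot_exp (5 * e) (by omega)
  obtain ⟨u, hu0⟩ : ∃ u : ℂˣ, (u : ℂ) = Complex.exp (2 * Real.pi * Complex.I / ((5 * e : ℕ) : ℂ)) :=
    ⟨Units.mk0 _ (Complex.exp_ne_zero _), rfl⟩
  have hu : IsPrimitiveRoot (u : ℂ) (5 * e) := by rw [hu0]; exact hprim
  have hK : 5 * e * M < 5 * ((M + 1) * e) := by nlinarith
  unfold SF
  rw [tele_fib ((M + 1) * e) (5 * e * M) hK.le]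
  apply Dvd.dvd.mul_left
  apply dvd_sub
  · exact Dvd.dvd.mul_right (xs_dvd he u hu M (M + 1) hM) _
  · rw [pow_two]
    exact mul_dvd_mul (ws_dvd he u hu M _) (Fb_dvd he u hu M ((M + 1) * e) hK)

open Polynomial in
lemma coprime_X_cyc (d : ℕ) (hd : 1 < d) : IsCoprime (X : ℤ[X]) (cyclotomic d ℤ) := by
  have h := cyclotomic_coeff_zero ℤ hd
  have h2 := divX_mul_X_add (cyclotomic d ℤ)
  rw [h] at h2
  refine ⟨-divX (cyclotomic d ℤ), 1, ?_⟩
  have h3 : (Polynomial.C (1 : ℤ)) = 1 := by simp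
  rw [h3] at h2
  linear_combination -h2

open Polynomial in
lemma cyc_sq_dvd {e : ℕ} (he : 0 < e) (M : ℕ) (hM : 0 < M) (E : ℤ) (P : ℤ[X])
    (hP : toLaurent P = LaurentPolynomial.T E * SF (5 * e * M)) : cyclotomic (5 * e) ℤ ^ 2 ∣ P := by
  obtain ⟨c, hc⟩ := SF_dvd he M hM
  obtain ⟨n, c', hc'⟩ := exists_T_pow (LaurentPolynomial.T E * c)
  have h1 : toLaurent (P * X ^ n) = toLaurent (cyclotomic (5 * e) ℤ ^ 2 * c') := by
    rw [map_mul, map_mul, hP, hc, toLaurent_X_pow, hc', map_pow]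
    unfold Ph
    ring
  have h2 : P * X ^ n = cyclotomic (5 * e) ℤ ^ 2 * c' := toLaurent_injective h1
  have hcop : IsCoprime (cyclotomic (5 * e) ℤ ^ 2) ((X : ℤ[X]) ^ n) :=
    (IsCoprime.pow (coprime_X_cyc (5 * e) (by omega))).symm
  exact hcop.dvd_of_dvd_mul_right ⟨c', h2⟩

open Polynomial in
/-- Divisibility by the square of the q-bracket of a power of five. -/
theorem geom_sq_dvd (a m : ℕ) (hm : 0 < m) (E : ℤ) (P : ℤ[X])
    (hP : toLaurent P = LaurentPolynomial.T E * SF (5 ^ a * m)) :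
    (∑ i ∈ Finset.range (5 ^ a), (X : ℤ[X]) ^ i) ^ 2 ∣ P := by
  have hpos : 0 < 5 ^ a := by positivity
  have hgeom := prod_cyclotomic_eq_geom_sum hpos ℤ
  have hmonic : ((∑ i ∈ Finset.range (5 ^ a), (X : ℤ[X]) ^ i) ^ 2).Monic := by
    rw [← hgeom]
    apply Monic.pow
    apply monic_prod_of_monic
    intro i _
    exact cyclotomic.monic i ℤ
  rw [← Polynomial.map_dvd_map (Int.castRingHom ℚ) Int.cast_injective hmonic, ← hgeom,
    Polynomial.map_pow, Polynomial.map_prod, ← Finset.prod_pow]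
  apply Finset.prod_dvd_of_coprime
  · intro i _ j _ hij
    simp only [Function.onFun, map_cyclotomic_int]
    exact IsCoprime.pow (cyclotomic.isCoprime_rat hij)
  · intro i hi
    rw [Finset.mem_erase, Nat.mem_divisors] at hi
    obtain ⟨hi1, hi2, _⟩ := hi
    rw [(Nat.dvd_prime_pow Nat.prime_five)] at hi2
    obtain ⟨t, ht, rfl⟩ := hi2
    have ht0 : t ≠ 0 := by
      rintro rfl
      simp at hi1
    obtain ⟨t', rfl⟩ : ∃ t', t = t' + 1 := ⟨t - 1, by omega⟩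
    have he : 0 < 5 ^ t' := by positivity
    have e1 : 5 ^ (t' + 1) = 5 * 5 ^ t' := by ring
    have e2 : 5 ^ a * m = 5 * 5 ^ t' * (5 ^ (a - (t' + 1)) * m) := by
      rw [← e1, ← mul_assoc, ← pow_add]
      congr 2
      omega
    rw [← Polynomial.map_pow, e1]
    apply Polynomial.map_dvd
    apply cyc_sq_dvd he (5 ^ (a - (t' + 1)) * m) (by positivity) E P
    rw [hP, e2]

end Pool.Agent.R443.QFib
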