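import Pool.Agent.R443.Nu2

/-!
# A parity relation between binary quadratic forms

For `L ≡ 2 (mod 3)` the numbers of representations of `L` in positive integers by the forms
`2 x² + 6 x y + 3 y²`, `3 x² + 2 y²`, `x² + 2 y²` and two divisor counts have an even sum.  The
proof counts the crossings of the geodesics given by the vectors of norm `L` of the ternary form
`3 b² + 2 y z` with the edges of the fundamental quadrilateral of its reflection group.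
-/

set_option autoImplicit false

namespace Pool.Agent.R443.Quad

open Finset Pool.Agent.R443.Nu2

/-- the vectors of norm `L` in a box, normalised by `0 < y` -/
noncomputable def Bx (L K : ℤ) : Finset (ℤ × ℤ × ℤ) :=
  (Icc (-K) K ×ˢ Icc (-K) K ×ˢ Icc (-K) K).filter
    (fun v => 3 * v.1 * v.1 + 2 * v.2.1 * v.2.2 = L ∧ 0 < v.2.1)

theorem mem_Bx {L K b y z : ℤ} : (b, y, z) ∈ Bx L K ↔
    (-K ≤ b ∧ b ≤ K) ∧ (-K ≤ y ∧ y ≤ K) ∧ (-K ≤ z ∧ z ≤ K) ∧
      3 * b * b + 2 * y * z = L ∧ 0 < y := by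
  unfold Bx
  simp only [mem_filter, mem_product, mem_Icc]
  tauto

/-- crossing the mirror `b = 0` -/
noncomputable def Ha (L K : ℤ) := (Bx L K).filter (fun v => v.2.1 < v.2.2)

/-- crossing the mirror `y + z = 0` -/
noncomputable def Hd (L K : ℤ) := (Bx L K).filter (fun v =>
  (v.2.1 - v.2.2 < 0 ∧ 0 < v.2.1 - v.2.2 - 2 * v.1) ∨
  (0 < v.2.1 - v.2.2 ∧ v.2.1 - v.2.2 - 2 * v.1 < 0))

/-- crossing the mirror `y = z + 3 b` -/
noncomputable def Hb (L K : ℤ) := (Bx L K).filter (fun v =>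
  (v.2.1 - v.2.2 - 2 * v.1 < 0 ∧ 0 < 2 * v.2.1 - v.2.2 - 3 * v.1) ∨
  (0 < v.2.1 - v.2.2 - 2 * v.1 ∧ 2 * v.2.1 - v.2.2 - 3 * v.1 < 0))

/-- crossing the mirror `b = y` -/
noncomputable def Hc (L K : ℤ) := (Bx L K).filter (fun v => 2 * v.2.1 - v.2.2 - 3 * v.1 < 0)

/-- through the vertex of `3 b² + 2 y²` -/
noncomputable def G1 (L K : ℤ) := (Bx L K).filter (fun v =>
  v.2.1 - v.2.2 = 0 ∧ v.2.1 - v.2.2 - 2 * v.1 < 0)

/-- through the vertex of `b² + 2 w²` -/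
noncomputable def G3 (L K : ℤ) := (Bx L K).filter (fun v =>
  v.2.1 - v.2.2 - 2 * v.1 = 0 ∧
  ((0 < v.2.1 - v.2.2 ∧ 2 * v.2.1 - v.2.2 - 3 * v.1 < 0) ∨
   (v.2.1 - v.2.2 < 0 ∧ 0 < 2 * v.2.1 - v.2.2 - 3 * v.1)))

/-- every geodesic crosses the boundary of the quadrilateral an even number of times -/
theorem total_even {L K : ℤ} (hL : L % 3 = 2) :
    ((((Ha L K).card + (Hd L K).card + (Hb L K).card + (Hc L K).card + (G1 L K).card +
      (G3 L K).card : ℕ)) : ZMod 2) = 0 := by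
  unfold Ha Hd Hb Hc G1 G3
  simp only [card_filter]
  rw [← sum_add_distrib, ← sum_add_distrib, ← sum_add_distrib, ← sum_add_distrib,
    ← sum_add_distrib, Nat.cast_sum]
  apply sum_eq_zero
  rintro ⟨b, y, z⟩ hv
  rw [mem_Bx] at hv
  obtain ⟨_, _, _, hQ, hy⟩ := hv
  have hs2 : 2 * y - z - 3 * b ≠ 0 := by
    intro h
    have hz : z = 2 * y - 3 * b := by linarith
    subst hz
    have e : L = 3 * ((b - y) * (b - y)) + y * y := by rw [← hQ]; ring
    have h3 : y % 3 = 0 ∨ y % 3 = 1 ∨ y % 3 = 2 := by omega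
    have h4 : (y * y) % 3 = 0 ∨ (y * y) % 3 = 1 := by
      rcases h3 with h | h | h <;> simp [Int.mul_emod, h]
    omega
  simp only
  rcases lt_trichotomy (y - z) 0 with h1 | h1 | h1 <;>
  rcases lt_trichotomy (y - z - 2 * b) 0 with h2 | h2 | h2 <;>
  rcases lt_or_gt_of_ne hs2 with h3 | h3
  all_goals
    split_ifs <;> first | (exfalso; omega) | decide

theorem self_le (t : ℤ) : t ≤ t * t ∧ -t ≤ t * t := by
  rcases le_or_gt t 0 with h | h
  · constructor <;> nlinarith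
  · constructor <;> nlinarith

theorem mod3 (t : ℤ) : t * t % 3 = 0 ∨ t * t % 3 = 1 := by
  have h3 : t % 3 = 0 ∨ t % 3 = 1 ∨ t % 3 = 2 := by omega
  rcases h3 with h | h | h <;> simp [Int.mul_emod, h]

theorem Ha_parity (L K : ℤ) : (((Ha L K).card : ℕ) : ZMod 2) =
    ((((Ha L K).filter (fun v => v.1 = 0)).card : ℕ) : ZMod 2) := by
  rw [parity_invol (Ha L K) (fun v => (-v.1, v.2.1, v.2.2))]
  · congr 2
    apply filter_congr
    rintro ⟨b, y, z⟩ _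
    simp only [Prod.mk.injEq, and_true]
    omega
  · rintro ⟨b, y, z⟩ h
    unfold Ha at h ⊢
    rw [mem_filter, mem_Bx] at h ⊢
    simp only at h ⊢
    obtain ⟨⟨h1, h2, h3, h4, h5⟩, h6⟩ := h
    refine ⟨⟨by omega, h2, h3, ?_, h5⟩, h6⟩
    rw [← h4]
    ring
  · rintro ⟨b, y, z⟩ _
    simp only [neg_neg]

theorem Hd_parity {L K : ℤ} (hL : L % 3 = 2) : (((Hd L K).card : ℕ) : ZMod 2) = 0 := by
  have hz : ∀ b y z : ℤ, 3 * b * b + 2 * y * z = L → z ≠ 0 := by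
    rintro b y z h rfl
    have e : 3 * b * b + 2 * y * 0 = 3 * (b * b) := by ring
    omega
  rw [parity_invol (Hd L K) (fun v => if 0 < v.2.2 then (-v.1, v.2.2, v.2.1) else
    (v.1, -v.2.2, -v.2.1))]
  · have : (Hd L K).filter (fun v => (if 0 < v.2.2 then (-v.1, v.2.2, v.2.1) else
        (v.1, -v.2.2, -v.2.1)) = v) = ∅ := by
      rw [filter_eq_empty_iff]
      rintro ⟨b, y, z⟩ h
      unfold Hd at h
      rw [mem_filter, mem_Bx] at h
      simp only at h ⊢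
      obtain ⟨⟨h1, h2, h3, h4, h5⟩, h6⟩ := h
      split_ifs with h7
      · rw [Prod.mk.injEq, Prod.mk.injEq]
        omega
      · rw [Prod.mk.injEq, Prod.mk.injEq]
        rintro ⟨_, h8, _⟩
        have h9 : z = -y := by omega
        subst h9
        have e : 3 * b * b + 2 * y * -y = 3 * (b * b) - 2 * (y * y) := by ring
        have := mod3 y
        omega
    rw [this]
    simp
  · rintro ⟨b, y, z⟩ h
    unfold Hd at h ⊢
    rw [mem_filter, mem_Bx] at h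
    simp only at h ⊢
    obtain ⟨⟨h1, h2, h3, h4, h5⟩, h6⟩ := h
    have h8 := hz b y z h4
    split_ifs with h7
    · rw [mem_filter, mem_Bx]
      simp only
      refine ⟨⟨by omega, h3, h2, ?_, h7⟩, by omega⟩
      rw [← h4]
      ring
    · rw [mem_filter, mem_Bx]
      simp only
      refine ⟨⟨h1, by omega, by omega, ?_, by omega⟩, by omega⟩
      rw [← h4]
      ring
  · rintro ⟨b, y, z⟩ h
    unfold Hd at h
    rw [mem_filter, mem_Bx] at h
    simp only at h ⊢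
    obtain ⟨⟨h1, h2, h3, h4, h5⟩, h6⟩ := h
    have h8 := hz b y z h4
    by_cases h7 : 0 < z
    · simp only [h7, h5, if_true, neg_neg]
    · have h9 : ¬ 0 < -y := by omega
      simp only [h7, h9, if_false, neg_neg]

theorem Hc_bound {L b y z : ℤ} (hQ : 3 * b * b + 2 * y * z = L) (hy : 0 < y)
    (hs : 2 * y - z - 3 * b < 0) :
    (-(10 * L) ≤ b ∧ b ≤ 10 * L) ∧ (-(10 * L) ≤ y ∧ y ≤ 10 * L) ∧
      (-(10 * L) ≤ z ∧ z ≤ 10 * L) := by
  have h1 : 3 * ((b - y) * (b - y)) + y * y < L := by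
    have := mul_pos hy (show 0 < z - 2 * y + 3 * b by linarith)
    nlinarith
  have h2 := self_le (b - y)
  have h3 := self_le y
  have h4 : 0 ≤ (b - y) * (b - y) := mul_self_nonneg _
  have h5 : z ≤ L := by
    rcases le_or_gt z 0 with h | h
    · nlinarith [mul_self_nonneg y]
    · nlinarith [mul_self_nonneg b, mul_pos hy h]
  refine ⟨⟨?_, ?_⟩, ⟨?_, ?_⟩, ?_, ?_⟩ <;> nlinarith [mul_self_nonneg y]

theorem Hc_parity {L K : ℤ} (hK : K = 10 * L) : (((Hc L K).card : ℕ) : ZMod 2) =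
    ((((Hc L K).filter (fun v => v.1 = v.2.1)).card : ℕ) : ZMod 2) := by
  rw [parity_invol (Hc L K) (fun v => (2 * v.2.1 - v.1, v.2.1, v.2.2 + 6 * v.1 - 6 * v.2.1))]
  · congr 2
    apply filter_congr
    rintro ⟨b, y, z⟩ _
    simp only [Prod.mk.injEq, true_and]
    omega
  · rintro ⟨b, y, z⟩ h
    unfold Hc at h ⊢
    rw [mem_filter, mem_Bx] at h ⊢
    simp only at h ⊢
    obtain ⟨⟨h1, h2, h3, h4, h5⟩, h6⟩ := h
    have h7 : 3 * (2 * y - b) * (2 * y - b) + 2 * y * (z + 6 * b - 6 * y) = L := by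
      rw [← h4]; ring
    have h8 : 2 * y - (z + 6 * b - 6 * y) - 3 * (2 * y - b) < 0 := by linarith
    obtain ⟨a1, a2, a3⟩ := Hc_bound h7 h5 h8
    rw [hK]
    exact ⟨⟨a1, a2, a3, h7, h5⟩, h8⟩
  · rintro ⟨b, y, z⟩ _
    simp only [Prod.mk.injEq, true_and]
    constructor <;> ring

theorem Hb_bound {L b y z : ℤ} (hQ : 3 * b * b + 2 * y * z = L)
    (hs : (y - z - 2 * b < 0 ∧ 0 < 2 * y - z - 3 * b) ∨
      (0 < y - z - 2 * b ∧ 2 * y - z - 3 * b < 0)) :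
    (-(10 * L) ≤ b ∧ b ≤ 10 * L) ∧ (-(10 * L) ≤ y ∧ y ≤ 10 * L) ∧
      (-(10 * L) ≤ z ∧ z ≤ 10 * L) := by
  obtain ⟨t, ht⟩ : ∃ t, t = y - z - 3 * b := ⟨_, rfl⟩
  obtain ⟨s2, hs2⟩ : ∃ s, s = 2 * y - z - 3 * b := ⟨_, rfl⟩
  obtain ⟨s3, hs3⟩ : ∃ s, s = y - z - 2 * b := ⟨_, rfl⟩
  rw [← hs2, ← hs3] at hs
  have hb : b = s3 - t := by linarith
  have hy : y = s2 - t := by linarith
  have hz : z = s2 - 3 * s3 + t := by linarith
  have hQ2 : t * t + 2 * (s2 * s2) + 3 * (s3 * s3) - 6 * (s2 * s3) = L := by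
    rw [← hQ, hb, hy, hz]; ring
  have h1 : s2 * s3 < 0 := by
    rcases hs with h | h
    · exact mul_neg_of_pos_of_neg h.2 h.1
    · exact mul_neg_of_neg_of_pos h.2 h.1
  have a1 := self_le t
  have a2 := self_le s2
  have a3 := self_le s3
  have b1 := mul_self_nonneg t
  have b2 := mul_self_nonneg s2
  have b3 := mul_self_nonneg s3
  refine ⟨⟨?_, ?_⟩, ⟨?_, ?_⟩, ?_, ?_⟩ <;> linarith

/-- the reflection in `y = z + 3 b` -/
def rb (v : ℤ × ℤ × ℤ) : ℤ × ℤ × ℤ :=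
  if 0 < 3 * v.2.1 - 2 * v.2.2 - 6 * v.1 then
    (2 * v.2.1 - 2 * v.2.2 - 5 * v.1, 3 * v.2.1 - 2 * v.2.2 - 6 * v.1,
      3 * v.2.2 - 2 * v.2.1 + 6 * v.1)
  else
    (5 * v.1 + 2 * v.2.2 - 2 * v.2.1, 6 * v.1 + 2 * v.2.2 - 3 * v.2.1,
      2 * v.2.1 - 3 * v.2.2 - 6 * v.1)

theorem rb1 {b y z : ℤ} (h : 0 < 3 * y - 2 * z - 6 * b) : rb (b, y, z) =
    (2 * y - 2 * z - 5 * b, 3 * y - 2 * z - 6 * b, 3 * z - 2 * y + 6 * b) := if_pos h

theorem rb2 {b y z : ℤ} (h : ¬ 0 < 3 * y - 2 * z - 6 * b) : rb (b, y, z) =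
    (5 * b + 2 * z - 2 * y, 6 * b + 2 * z - 3 * y, 2 * y - 3 * z - 6 * b) := if_neg h

theorem Hb_parity {L K : ℤ} (hK : K = 10 * L) (hL : L % 3 = 2) :
    (((Hb L K).card : ℕ) : ZMod 2) =
    ((((Hb L K).filter (fun v => v.2.1 = v.2.2 + 3 * v.1)).card : ℕ) : ZMod 2) := by
  have hne : ∀ b y z : ℤ, 3 * b * b + 2 * y * z = L → 3 * y - 2 * z - 6 * b ≠ 0 := by
    intro b y z h h0
    have e : L = 3 * ((2 * y - 2 * z - 5 * b) * (2 * y - 2 * z - 5 * b)) +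
        2 * ((3 * y - 2 * z - 6 * b) * (3 * z - 2 * y + 6 * b)) := by rw [← h]; ring
    rw [h0] at e
    omega
  rw [parity_invol (Hb L K) rb]
  · congr 2
    apply filter_congr
    rintro ⟨b, y, z⟩ h
    unfold Hb at h
    rw [mem_filter, mem_Bx] at h
    simp only at h ⊢
    obtain ⟨⟨h1, h2, h3, h4, h5⟩, h6⟩ := h
    by_cases h7 : 0 < 3 * y - 2 * z - 6 * b
    · rw [rb1 h7, Prod.mk.injEq, Prod.mk.injEq]
      omega
    · rw [rb2 h7, Prod.mk.injEq, Prod.mk.injEq]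
      omega
  · rintro ⟨b, y, z⟩ h
    unfold Hb at h ⊢
    rw [mem_filter, mem_Bx] at h
    simp only at h
    obtain ⟨⟨h1, h2, h3, h4, h5⟩, h6⟩ := h
    have h8 := hne b y z h4
    by_cases h7 : 0 < 3 * y - 2 * z - 6 * b
    · rw [rb1 h7, mem_filter, mem_Bx]
      simp only
      have hQ : 3 * (2 * y - 2 * z - 5 * b) * (2 * y - 2 * z - 5 * b) +
          2 * (3 * y - 2 * z - 6 * b) * (3 * z - 2 * y + 6 * b) = L := by rw [← h4]; ring
      have hs : ((3 * y - 2 * z - 6 * b) - (3 * z - 2 * y + 6 * b) -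
          2 * (2 * y - 2 * z - 5 * b) < 0 ∧ 0 < 2 * (3 * y - 2 * z - 6 * b) -
          (3 * z - 2 * y + 6 * b) - 3 * (2 * y - 2 * z - 5 * b)) ∨
          (0 < (3 * y - 2 * z - 6 * b) - (3 * z - 2 * y + 6 * b) -
          2 * (2 * y - 2 * z - 5 * b) ∧ 2 * (3 * y - 2 * z - 6 * b) -
          (3 * z - 2 * y + 6 * b) - 3 * (2 * y - 2 * z - 5 * b) < 0) := by omega
      obtain ⟨a1, a2, a3⟩ := Hb_bound hQ hs
      rw [hK]
      exact ⟨⟨a1, a2, a3, hQ, h7⟩, hs⟩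
    · rw [rb2 h7, mem_filter, mem_Bx]
      simp only
      have hQ : 3 * (5 * b + 2 * z - 2 * y) * (5 * b + 2 * z - 2 * y) +
          2 * (6 * b + 2 * z - 3 * y) * (2 * y - 3 * z - 6 * b) = L := by rw [← h4]; ring
      have hs : ((6 * b + 2 * z - 3 * y) - (2 * y - 3 * z - 6 * b) -
          2 * (5 * b + 2 * z - 2 * y) < 0 ∧ 0 < 2 * (6 * b + 2 * z - 3 * y) -
          (2 * y - 3 * z - 6 * b) - 3 * (5 * b + 2 * z - 2 * y)) ∨
          (0 < (6 * b + 2 * z - 3 * y) - (2 * y - 3 * z - 6 * b) -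
          2 * (5 * b + 2 * z - 2 * y) ∧ 2 * (6 * b + 2 * z - 3 * y) -
          (2 * y - 3 * z - 6 * b) - 3 * (5 * b + 2 * z - 2 * y) < 0) := by omega
      obtain ⟨a1, a2, a3⟩ := Hb_bound hQ hs
      rw [hK]
      exact ⟨⟨a1, a2, a3, hQ, by omega⟩, hs⟩
  · rintro ⟨b, y, z⟩ h
    unfold Hb at h
    rw [mem_filter, mem_Bx] at h
    simp only at h
    obtain ⟨⟨h1, h2, h3, h4, h5⟩, h6⟩ := h
    by_cases h7 : 0 < 3 * y - 2 * z - 6 * b
    · rw [rb1 h7, rb1 (by linarith), Prod.mk.injEq, Prod.mk.injEq]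
      refine ⟨by ring, by ring, by ring⟩
    · rw [rb2 h7, rb2 (by linarith), Prod.mk.injEq, Prod.mk.injEq]
      refine ⟨by ring, by ring, by ring⟩

end Pool.Agent.R443.Quad
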