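import Pool.Agent.R443.Quad

/-!
# A parity relation between binary quadratic forms: the counts
-/

set_option autoImplicit false

namespace Pool.Agent.R443.Quad

open Finset Pool.Agent.R443.Nu2

/-- representations by `2 x² + 6 x k + 3 k²` in positive integers -/
def r1 (L : ℕ) : ℕ := ((Icc 1 L ×ˢ Icc 1 L).filter
  (fun t => 2 * (t.1 * t.1) + 6 * (t.1 * t.2) + 3 * (t.2 * t.2) = L)).card

/-- representations by `3 b² + 2 x²` in positive integers -/
def r2 (L : ℕ) : ℕ := ((Icc 1 L ×ˢ Icc 1 L).filter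
  (fun t => 3 * (t.1 * t.1) + 2 * (t.2 * t.2) = L)).card

/-- representations by `b² + 2 x²` in positive integers -/
def r3 (L : ℕ) : ℕ := ((Icc 1 L ×ˢ Icc 1 L).filter
  (fun t => t.1 * t.1 + 2 * (t.2 * t.2) = L)).card

theorem le_self {a : ℕ} (h : 1 ≤ a) : a ≤ a * a := Nat.le_mul_of_pos_left a h

theorem Hb_count {L : ℕ} : ((Hb L (10 * L)).filter (fun v => v.2.1 = v.2.2 + 3 * v.1)).card =
    r1 L := by
  unfold r1
  apply card_nbij' (fun v : ℤ × ℤ × ℤ => ((v.2.1.toNat, (-v.1).toNat) : ℕ × ℕ))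
    (fun t : ℕ × ℕ => ((-(t.2 : ℤ), (t.1 : ℤ), (t.1 : ℤ) + 3 * t.2) : ℤ × ℤ × ℤ))
  · rintro ⟨b, y, z⟩ h
    unfold Hb at h
    simp only [coe_filter, Set.mem_ofPred, mem_filter, mem_product, mem_Icc] at h ⊢
    rw [mem_Bx] at h
    obtain ⟨⟨⟨h1, h2, h3, h4, h5⟩, h6⟩, h7⟩ := h
    obtain ⟨x, rfl⟩ := Int.eq_ofNat_of_zero_le h5.le
    obtain ⟨k, hk⟩ := Int.eq_ofNat_of_zero_le (show 0 ≤ -b by omega)
    have hb : b = -(k : ℤ) := by omega
    subst hb
    have hz : z = (x : ℤ) + 3 * k := by omega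
    subst hz
    have e : 2 * (x * x) + 6 * (x * k) + 3 * (k * k) = L := by
      have : (2 * ((x : ℤ) * x) + 6 * (x * k) + 3 * (k * k)) = L := by
        rw [← h4]; ring
      exact_mod_cast this
    simp only [neg_neg, Int.toNat_natCast]
    have hx : 1 ≤ x := by omega
    have hk1 : 1 ≤ k := by omega
    have := le_self hx
    have := le_self hk1
    refine ⟨⟨⟨hx, ?_⟩, hk1, ?_⟩, e⟩ <;> nlinarith
  · rintro ⟨x, k⟩ h
    unfold Hb
    simp only [coe_filter, Set.mem_ofPred, mem_filter, mem_product, mem_Icc] at h ⊢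
    rw [mem_Bx]
    obtain ⟨⟨⟨h1, h2⟩, h3, h4⟩, h5⟩ := h
    refine ⟨⟨⟨by omega, by omega, by omega, ?_, by omega⟩, by omega⟩, by omega⟩
    rw [← h5]
    push_cast
    ring
  · rintro ⟨b, y, z⟩ h
    unfold Hb at h
    simp only [coe_filter, Set.mem_ofPred, mem_filter] at h
    rw [mem_Bx] at h
    simp only [Prod.mk.injEq]
    omega
  · rintro ⟨x, k⟩ _
    simp only [neg_neg, Int.toNat_natCast]

theorem G1_count {L : ℕ} : (G1 L (10 * L)).card = r2 L := by
  unfold r2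
  apply card_nbij' (fun v : ℤ × ℤ × ℤ => ((v.1.toNat, v.2.1.toNat) : ℕ × ℕ))
    (fun t : ℕ × ℕ => (((t.1 : ℤ), (t.2 : ℤ), (t.2 : ℤ)) : ℤ × ℤ × ℤ))
  · rintro ⟨b, y, z⟩ h
    unfold G1 at h
    simp only [coe_filter, Set.mem_ofPred, mem_product, mem_Icc] at h ⊢
    rw [mem_Bx] at h
    obtain ⟨⟨h1, h2, h3, h4, h5⟩, h6⟩ := h
    obtain ⟨x, rfl⟩ := Int.eq_ofNat_of_zero_le h5.le
    obtain ⟨k, hk⟩ := Int.eq_ofNat_of_zero_le (show 0 ≤ b by omega)
    subst hk
    have hz : z = (x : ℤ) := by omega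
    subst hz
    have e : 3 * (k * k) + 2 * (x * x) = L := by
      have : (3 * ((k : ℤ) * k) + 2 * (x * x)) = L := by
        rw [← h4]; ring
      exact_mod_cast this
    simp only [Int.toNat_natCast]
    have hx : 1 ≤ x := by omega
    have hk1 : 1 ≤ k := by omega
    have := le_self hx
    have := le_self hk1
    refine ⟨⟨⟨hk1, ?_⟩, hx, ?_⟩, e⟩ <;> nlinarith
  · rintro ⟨x, k⟩ h
    unfold G1
    simp only [coe_filter, Set.mem_ofPred, mem_product, mem_Icc] at h ⊢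
    rw [mem_Bx]
    obtain ⟨⟨⟨h1, h2⟩, h3, h4⟩, h5⟩ := h
    refine ⟨⟨by omega, by omega, by omega, ?_, by omega⟩, by omega⟩
    rw [← h5]
    push_cast
    ring
  · rintro ⟨b, y, z⟩ h
    unfold G1 at h
    simp only [coe_filter, Set.mem_ofPred] at h
    rw [mem_Bx] at h
    simp only [Prod.mk.injEq]
    omega
  · rintro ⟨x, k⟩ _
    simp only [Int.toNat_natCast]

theorem G3_count {L : ℕ} (hL : L % 3 = 2) : (G3 L (10 * L)).card = r3 L := by
  unfold r3
  apply card_nbij' (fun v : ℤ × ℤ × ℤ => ((v.1.natAbs, (v.2.2 + v.1).natAbs) : ℕ × ℕ))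
    (fun t : ℕ × ℕ => if t.2 < t.1 then
      (((t.1 : ℤ), (t.1 : ℤ) - t.2, -(t.1 : ℤ) - t.2) : ℤ × ℤ × ℤ) else
      (-(t.1 : ℤ), (t.2 : ℤ) - t.1, (t.1 : ℤ) + t.2))
  · rintro ⟨b, y, z⟩ h
    unfold G3 at h
    simp only [coe_filter, Set.mem_ofPred, mem_product, mem_Icc] at h ⊢
    rw [mem_Bx] at h
    obtain ⟨⟨h1, h2, h3, h4, h5⟩, h6, h7⟩ := h
    have e0 : b * b + 2 * ((z + b) * (z + b)) = L := by
      rw [← h4, show y = z + 2 * b by omega]; ring
    have e : b.natAbs * b.natAbs + 2 * ((z + b).natAbs * (z + b).natAbs) = L := by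
      zify
      rw [abs_mul_abs_self, abs_mul_abs_self]
      exact e0
    have hx : 1 ≤ b.natAbs := by omega
    have hk1 : 1 ≤ (z + b).natAbs := by omega
    have := le_self hx
    have := le_self hk1
    refine ⟨⟨⟨hx, ?_⟩, hk1, ?_⟩, e⟩ <;> nlinarith
  · rintro ⟨x, k⟩ h
    unfold G3
    simp only [coe_filter, Set.mem_ofPred, mem_product, mem_Icc] at h ⊢
    obtain ⟨⟨⟨h1, h2⟩, h3, h4⟩, h5⟩ := h
    have hne : x ≠ k := by
      rintro rfl
      omega
    split_ifs with h6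
    · rw [mem_Bx]
      simp only
      refine ⟨⟨by omega, by omega, by omega, ?_, by omega⟩, by omega⟩
      rw [← h5]
      push_cast
      ring
    · rw [mem_Bx]
      simp only
      refine ⟨⟨by omega, by omega, by omega, ?_, by omega⟩, by omega⟩
      rw [← h5]
      push_cast
      ring
  · rintro ⟨b, y, z⟩ h
    unfold G3 at h
    simp only [coe_filter, Set.mem_ofPred] at h
    rw [mem_Bx] at h
    obtain ⟨⟨h1, h2, h3, h4, h5⟩, h6, h7⟩ := h
    simp only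
    split_ifs with h8 <;> simp only [Prod.mk.injEq] <;> omega
  · rintro ⟨x, k⟩ h
    simp only [coe_filter, Set.mem_ofPred, mem_product, mem_Icc] at h
    obtain ⟨⟨⟨h1, h2⟩, h3, h4⟩, h5⟩ := h
    have hne : x ≠ k := by
      rintro rfl
      omega
    simp only
    split_ifs with h8 <;> simp only [Prod.mk.injEq] <;> omega

theorem Hc_count_odd {L : ℕ} (hL : L % 2 = 1) :
    ((Hc L (10 * L)).filter (fun v => v.1 = v.2.1)).card = e L := by
  unfold e
  apply card_nbij' (fun v : ℤ × ℤ × ℤ => ((v.2.1.toNat, (3 * v.2.1 + 2 * v.2.2).toNat) : ℕ × ℕ))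
    (fun t : ℕ × ℕ => (((t.1 : ℤ), (t.1 : ℤ), ((t.2 : ℤ) - 3 * t.1) / 2) : ℤ × ℤ × ℤ))
  · rintro ⟨b, y, z⟩ h
    unfold Hc at h
    simp only [coe_filter, Set.mem_ofPred, mem_filter] at h ⊢
    rw [mem_Bx] at h
    obtain ⟨⟨⟨h1, h2, h3, h4, h5⟩, h6⟩, h7⟩ := h
    subst h7
    obtain ⟨x, rfl⟩ := Int.eq_ofNat_of_zero_le h5.le
    obtain ⟨k, hk⟩ := Int.eq_ofNat_of_zero_le (show 0 ≤ 3 * (x : ℤ) + 2 * z by omega)
    rw [Nat.mem_divisorsAntidiagonal, hk]
    simp only [Int.toNat_natCast]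
    refine ⟨⟨?_, by omega⟩, by omega⟩
    have : ((x : ℤ) * k) = L := by
      rw [← h4, ← hk]; ring
    exact_mod_cast this
  · rintro ⟨x, k⟩ h
    unfold Hc
    simp only [coe_filter, Set.mem_ofPred, mem_filter] at h ⊢
    rw [Nat.mem_divisorsAntidiagonal] at h
    obtain ⟨⟨h1, h2⟩, h3⟩ := h
    have hodd : x % 2 = 1 ∧ k % 2 = 1 := by
      rw [← h1, Nat.mul_mod] at hL
      have := Nat.mod_two_eq_zero_or_one x
      have := Nat.mod_two_eq_zero_or_one k
      rcases this with h | h <;> rcases Nat.mod_two_eq_zero_or_one x with h' | h' <;>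
        simp [h, h'] at hL ⊢
    have hx : 1 ≤ x := by omega
    have hxL : x ≤ L := by rw [← h1]; exact Nat.le_mul_of_pos_right x (by omega)
    have hkL : k ≤ L := by rw [← h1]; exact Nat.le_mul_of_pos_left k (by omega)
    obtain ⟨z, hz⟩ : ∃ z : ℤ, (k : ℤ) - 3 * x = 2 * z := ⟨((k : ℤ) - 3 * x) / 2, by omega⟩
    rw [hz, show 2 * z / 2 = z by omega, mem_Bx]
    refine ⟨⟨⟨by omega, by omega, by omega, ?_, by omega⟩, by omega⟩, trivial⟩
    have : (x : ℤ) * k = L := by exact_mod_cast h1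
    rw [← this, show (k : ℤ) = 3 * x + 2 * z by omega]
    ring
  · rintro ⟨b, y, z⟩ h
    unfold Hc at h
    simp only [coe_filter, Set.mem_ofPred, mem_filter] at h
    rw [mem_Bx] at h
    simp only [Prod.mk.injEq]
    omega
  · rintro ⟨x, k⟩ h
    simp only [coe_filter, Set.mem_ofPred] at h
    rw [Nat.mem_divisorsAntidiagonal] at h
    obtain ⟨⟨h1, h2⟩, h3⟩ := h
    have hodd : x % 2 = 1 ∧ k % 2 = 1 := by
      rw [← h1, Nat.mul_mod] at hL
      have := Nat.mod_two_eq_zero_or_one x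
      have := Nat.mod_two_eq_zero_or_one k
      rcases this with h | h <;> rcases Nat.mod_two_eq_zero_or_one x with h' | h' <;>
        simp [h, h'] at hL ⊢
    simp only [Prod.mk.injEq, Int.toNat_natCast, true_and]
    omega

theorem Ha_count_odd {L : ℕ} (hL : L % 2 = 1) :
    ((Ha L (10 * L)).filter (fun v => v.1 = 0)).card = 0 := by
  rw [card_eq_zero, filter_eq_empty_iff]
  rintro ⟨b, y, z⟩ h h2
  unfold Ha at h
  rw [mem_filter, mem_Bx] at h
  simp only at h h2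
  obtain ⟨⟨_, _, _, h4, _⟩, _⟩ := h
  subst h2
  have e : 3 * 0 * 0 + 2 * y * z = 2 * (y * z) := by ring
  omega

theorem Hc_count_even {M : ℕ} (hM : M % 2 = 1) :
    ((Hc (2 * M : ℕ) (10 * (2 * M : ℕ))).filter (fun v => v.1 = v.2.1)).card = 0 := by
  rw [card_eq_zero, filter_eq_empty_iff]
  rintro ⟨b, y, z⟩ h h2
  unfold Hc at h
  rw [mem_filter, mem_Bx] at h
  simp only at h h2
  obtain ⟨⟨_, _, _, h4, _⟩, _⟩ := h
  subst h2
  push_cast at h4
  have e : 3 * b * b + 2 * b * z = b * (3 * b + 2 * z) := by ring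
  rw [e] at h4
  rcases Int.even_or_odd' b with ⟨c, hc | hc⟩
  · rw [hc] at h4
    have e2 : 2 * c * (3 * (2 * c) + 2 * z) = 4 * (c * (3 * c + z)) := by ring
    omega
  · rw [hc] at h4
    have e2 : (2 * c + 1) * (3 * (2 * c + 1) + 2 * z) =
        2 * (c * (3 * (2 * c + 1) + 2 * z) + 3 * c + 1 + z) + 1 := by ring
    omega

theorem Ha_count_even {M : ℕ} :
    ((Ha (2 * M : ℕ) (10 * (2 * M : ℕ))).filter (fun v => v.1 = 0)).card = e M := by
  unfold e
  apply card_nbij' (fun v : ℤ × ℤ × ℤ => ((v.2.1.toNat, v.2.2.toNat) : ℕ × ℕ))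
    (fun t : ℕ × ℕ => (((0 : ℤ), (t.1 : ℤ), (t.2 : ℤ)) : ℤ × ℤ × ℤ))
  · rintro ⟨b, y, z⟩ h
    unfold Ha at h
    simp only [coe_filter, Set.mem_ofPred, mem_filter] at h ⊢
    rw [mem_Bx] at h
    obtain ⟨⟨⟨h1, h2, h3, h4, h5⟩, h6⟩, h7⟩ := h
    subst h7
    obtain ⟨x, rfl⟩ := Int.eq_ofNat_of_zero_le h5.le
    obtain ⟨k, rfl⟩ := Int.eq_ofNat_of_zero_le (show 0 ≤ z by omega)
    rw [Nat.mem_divisorsAntidiagonal]
    simp only [Int.toNat_natCast]
    have h8 : x * k = M := by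
      push_cast at h4
      have : ((x : ℤ) * k) = M := by linarith
      exact_mod_cast this
    have hx : 1 ≤ x := by omega
    have hk : 1 ≤ k := by omega
    refine ⟨⟨h8, ?_⟩, by omega⟩
    rw [← h8]; positivity
  · rintro ⟨x, k⟩ h
    unfold Ha
    simp only [coe_filter, Set.mem_ofPred, mem_filter] at h ⊢
    rw [Nat.mem_divisorsAntidiagonal] at h
    obtain ⟨⟨h1, h2⟩, h3⟩ := h
    have hx : 1 ≤ x := by
      rcases Nat.eq_zero_or_pos x with h | h
      · rw [h, zero_mul] at h1; omega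
      · exact h
    have hxL : x ≤ M := by rw [← h1]; exact Nat.le_mul_of_pos_right x (by omega)
    have hkL : k ≤ M := by rw [← h1]; exact Nat.le_mul_of_pos_left k (by omega)
    rw [mem_Bx]
    refine ⟨⟨⟨by omega, by omega, by omega, ?_, by omega⟩, by omega⟩, trivial⟩
    rw [← h1]
    push_cast
    ring
  · rintro ⟨b, y, z⟩ h
    unfold Ha at h
    simp only [coe_filter, Set.mem_ofPred, mem_filter] at h
    rw [mem_Bx] at h
    simp only [Prod.mk.injEq]
    omega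
  · rintro ⟨x, k⟩ _
    simp only [Int.toNat_natCast]

theorem quad_odd {L : ℕ} (h3 : L % 3 = 2) (hL : L % 2 = 1) :
    ((r1 L + r2 L + r3 L + e L : ℕ) : ZMod 2) = 0 := by
  have h := total_even (L := L) (K := 10 * L) (by omega)
  push_cast at h ⊢
  rw [Ha_parity, Hd_parity (by omega), Hb_parity rfl (by omega), Hc_parity rfl, Hb_count,
    G1_count, G3_count h3, Hc_count_odd hL, Ha_count_odd hL] at h
  rw [← h]
  push_cast
  ring

theorem quad_even {M : ℕ} (h3 : 2 * M % 3 = 2) (hM : M % 2 = 1) :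
    ((r1 (2 * M) + r2 (2 * M) + r3 (2 * M) + e M : ℕ) : ZMod 2) = 0 := by
  have h := total_even (L := ((2 * M : ℕ) : ℤ)) (K := 10 * ((2 * M : ℕ) : ℤ)) (by omega)
  rw [Nat.cast_add, Nat.cast_add, Nat.cast_add, Nat.cast_add, Nat.cast_add] at h
  rw [Nat.cast_add, Nat.cast_add, Nat.cast_add]
  rw [Ha_parity, Hd_parity (by omega), Hb_parity rfl (by omega), Hc_parity rfl, Hb_count,
    G1_count, G3_count h3, Hc_count_even hM, Ha_count_even] at h
  rw [← h]
  push_cast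
  ring

end Pool.Agent.R443.Quad
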