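import Pool.Agent.R443.Nu2c

/-!
# Parity classes of partitions into two part sizes
-/

set_option autoImplicit false

namespace Pool.Agent.R443.Nu2

open Finset

/-- the parities of the four entries -/
def pv (q : (ℕ × ℕ) × (ℕ × ℕ)) : ℕ × ℕ × ℕ × ℕ :=
  (q.1.1 % 2, q.1.2 % 2, q.2.1 % 2, q.2.2 % 2)

/-- parity classes in `F n` -/
def T (n : ℕ) (v : ℕ × ℕ × ℕ × ℕ) : ℕ := ((F n).filter (fun q => pv q = v)).card

/-- parity classes in `Q n` -/
def R (n : ℕ) (v : ℕ × ℕ × ℕ × ℕ) : ℕ := ((Q n).filter (fun q => pv q = v)).card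

/-- parity classes in the part of `Q n` with equal first entries -/
def D (n : ℕ) (v : ℕ × ℕ × ℕ × ℕ) : ℕ :=
  ((Q n).filter (fun q => q.1.1 = q.2.1 ∧ pv q = v)).card

theorem mem_F {n a b c d : ℕ} : ((a, b), (c, d)) ∈ F n ↔
    (1 ≤ a ∧ 1 ≤ b ∧ 1 ≤ c ∧ 1 ≤ d ∧ a * b + c * d = n) ∧ c < a := by
  unfold F
  rw [mem_filter, mem_Q]

theorem T_conj {n α μ β η : ℕ} (h1 : α < 2) (h2 : μ < 2) (h3 : β < 2) (h4 : η < 2) :
    T n (α, μ, β, η) = T n ((μ + η) % 2, β, μ, (α + β) % 2) := by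
  unfold T
  apply card_nbij' (fun q => ((q.1.2 + q.2.2, q.2.1), (q.1.2, q.1.1 - q.2.1)))
    (fun q => ((q.1.2 + q.2.2, q.2.1), (q.1.2, q.1.1 - q.2.1)))
  · rintro ⟨⟨a, b⟩, ⟨c, d⟩⟩ h
    simp only [coe_filter, Set.mem_ofPred, pv, Prod.mk.injEq] at h ⊢
    rw [mem_F] at h ⊢
    obtain ⟨⟨⟨h5, h6, h7, h8, h9⟩, h10⟩, h11, h12, h13, h14⟩ := h
    refine ⟨⟨⟨by omega, h7, h6, by omega, ?_⟩, by omega⟩, by omega, by omega, by omega, by omega⟩
    obtain ⟨k, rfl⟩ : ∃ k, a = c + k := ⟨a - c, by omega⟩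
    rw [← h9, show c + k - c = k by omega]
    ring
  · rintro ⟨⟨a, b⟩, ⟨c, d⟩⟩ h
    simp only [coe_filter, Set.mem_ofPred, pv, Prod.mk.injEq] at h ⊢
    rw [mem_F] at h ⊢
    obtain ⟨⟨⟨h5, h6, h7, h8, h9⟩, h10⟩, h11, h12, h13, h14⟩ := h
    refine ⟨⟨⟨by omega, h7, h6, by omega, ?_⟩, by omega⟩, by omega, by omega, by omega, by omega⟩
    obtain ⟨k, rfl⟩ : ∃ k, a = c + k := ⟨a - c, by omega⟩
    rw [← h9, show c + k - c = k by omega]
    ring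
  · rintro ⟨⟨a, b⟩, ⟨c, d⟩⟩ h
    simp only [coe_filter, Set.mem_ofPred] at h
    rw [mem_F] at h
    simp only [Prod.mk.injEq, and_true, true_and]
    omega
  · rintro ⟨⟨a, b⟩, ⟨c, d⟩⟩ h
    simp only [coe_filter, Set.mem_ofPred] at h
    rw [mem_F] at h
    simp only [Prod.mk.injEq, and_true, true_and]
    omega

theorem R_split (n α μ β η : ℕ) :
    R n (α, μ, β, η) = T n (α, μ, β, η) + T n (β, η, α, μ) + D n (α, μ, β, η) := by
  classical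
  unfold R T D
  have h1 : (Q n).filter (fun q => pv q = (α, μ, β, η)) =
      ((F n).filter (fun q => pv q = (α, μ, β, η)) ∪
        ((F n).filter (fun q => pv q = (β, η, α, μ))).image Prod.swap) ∪
      (Q n).filter (fun q => q.1.1 = q.2.1 ∧ pv q = (α, μ, β, η)) := by
    ext ⟨⟨a, b⟩, ⟨c, d⟩⟩
    simp only [mem_union, mem_filter, mem_image, Prod.exists, pv, Prod.mk.injEq]
    rw [mem_Q, mem_F]
    constructor
    · rintro ⟨h, h'⟩
      rcases lt_trichotomy c a with h2 | h2 | h2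
      · left; left; exact ⟨⟨h, h2⟩, h'⟩
      · right; exact ⟨h, h2.symm, h'⟩
      · left; right
        refine ⟨c, d, a, b, ⟨?_, ?_⟩, rfl⟩
        · rw [mem_F]
          exact ⟨⟨h.2.2.1, h.2.2.2.1, h.1, h.2.1, by rw [add_comm]; exact h.2.2.2.2⟩, h2⟩
        · exact ⟨h'.2.2.1, h'.2.2.2, h'.1, h'.2.1⟩
    · rintro ((h | h) | h)
      · exact ⟨h.1.1, h.2⟩
      · obtain ⟨a', b', c', d', ⟨h2, h3⟩, h4⟩ := h
        rw [mem_F] at h2
        simp only [Prod.swap_prod_mk, Prod.mk.injEq] at h4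
        obtain ⟨⟨rfl, rfl⟩, rfl, rfl⟩ := h4
        exact ⟨⟨h2.1.2.2.1, h2.1.2.2.2.1, h2.1.1, h2.1.2.1,
          by rw [add_comm]; exact h2.1.2.2.2.2⟩, h3.2.2.1, h3.2.2.2, h3.1, h3.2.1⟩
      · exact ⟨h.1, h.2.2⟩
  rw [h1, card_union_of_disjoint, card_union_of_disjoint, card_image_of_injective]
  · exact Prod.swap_injective
  · rw [Finset.disjoint_left]
    rintro ⟨⟨a, b⟩, ⟨c, d⟩⟩ h2 h3
    simp only [mem_filter, mem_image, Prod.exists] at h2 h3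
    obtain ⟨a', b', c', d', ⟨h4, h5⟩, h6⟩ := h3
    rw [mem_F] at h2 h4
    simp only [Prod.swap_prod_mk, Prod.mk.injEq] at h6
    omega
  · rw [Finset.disjoint_left]
    rintro ⟨⟨a, b⟩, ⟨c, d⟩⟩ h2 h3
    simp only [mem_union, mem_filter, mem_image, Prod.exists] at h2 h3
    rcases h2 with h2 | h2
    · rw [mem_F] at h2
      omega
    · obtain ⟨a', b', c', d', ⟨h4, h5⟩, h6⟩ := h2
      rw [mem_F] at h4
      simp only [Prod.swap_prod_mk, Prod.mk.injEq] at h6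
      omega

/-- summation over the parity classes -/
theorem total (n : ℕ) (g : ℕ × ℕ × ℕ × ℕ → Prop) [DecidablePred g] :
    ((F n).filter (fun q => g (pv q))).card =
      ∑ v ∈ range 2 ×ˢ range 2 ×ˢ range 2 ×ˢ range 2, if g v then T n v else 0 := by
  classical
  rw [card_eq_sum_card_fiberwise (f := pv) (t := range 2 ×ˢ range 2 ×ˢ range 2 ×ˢ range 2)]
  · apply sum_congr rfl
    intro v _
    rw [filter_filter]
    split_ifs with hg
    · unfold T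
      congr 1
      apply filter_congr
      intro q _
      constructor
      · exact fun h => h.2
      · exact fun h => ⟨by rw [h]; exact hg, h⟩
    · rw [card_eq_zero, filter_eq_empty_iff]
      rintro q _ ⟨h1, h2⟩
      rw [h2] at h1
      exact hg h1
  · intro q _
    simp only [pv, coe_product, Set.mem_prod, coe_range, Set.mem_Iio]
    omega

/-- the classes which are empty for parity reasons -/
theorem T_zero {n α μ β η : ℕ} (h : (α * μ + β * η) % 2 = 1) (hn : n % 2 = 0) :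
    T n (α, μ, β, η) = 0 := by
  unfold T
  rw [card_eq_zero, filter_eq_empty_iff]
  rintro ⟨⟨a, b⟩, ⟨c, d⟩⟩ h1 h2
  rw [mem_F] at h1
  simp only [pv, Prod.mk.injEq] at h2
  obtain ⟨rfl, rfl, rfl, rfl⟩ := h2
  obtain ⟨⟨_, _, _, _, h3⟩, _⟩ := h1
  rw [← h3] at hn
  have e : (a % 2 * (b % 2) + c % 2 * (d % 2)) % 2 = (a * b + c * d) % 2 := by
    rw [Nat.add_mod (a * b), Nat.mul_mod a b, Nat.mul_mod c d]
    omega
  omega

theorem T_zero' {n : ℕ} (hn : n % 4 = 2) : T n (0, 0, 0, 0) = 0 := by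
  unfold T
  rw [card_eq_zero, filter_eq_empty_iff]
  rintro ⟨⟨a, b⟩, ⟨c, d⟩⟩ h1 h2
  rw [mem_F] at h1
  simp only [pv, Prod.mk.injEq] at h2
  obtain ⟨a', rfl⟩ : ∃ a', a = 2 * a' := ⟨a / 2, by omega⟩
  obtain ⟨b', rfl⟩ : ∃ b', b = 2 * b' := ⟨b / 2, by omega⟩
  obtain ⟨c', rfl⟩ : ∃ c', c = 2 * c' := ⟨c / 2, by omega⟩
  obtain ⟨d', rfl⟩ : ∃ d', d = 2 * d' := ⟨d / 2, by omega⟩
  have e : 2 * a' * (2 * b') + 2 * c' * (2 * d') = 4 * (a' * b' + c' * d') := by ring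
  rw [e] at h1
  omega

theorem D_zero {n α μ β η : ℕ} (h : α ≠ β) : D n (α, μ, β, η) = 0 := by
  unfold D
  rw [card_eq_zero, filter_eq_empty_iff]
  rintro ⟨⟨a, b⟩, ⟨c, d⟩⟩ _ h2
  simp only [pv, Prod.mk.injEq] at h2
  omega

theorem D_zero' {n : ℕ} (hn : n % 4 = 2) : D n (0, 1, 0, 1) = 0 := by
  unfold D
  rw [card_eq_zero, filter_eq_empty_iff]
  rintro ⟨⟨a, b⟩, ⟨c, d⟩⟩ h1 h2
  rw [mem_Q] at h1
  simp only [pv, Prod.mk.injEq] at h2
  obtain ⟨rfl, h3, h4, h5, h6⟩ := h2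
  obtain ⟨a', rfl⟩ : ∃ a', a = 2 * a' := ⟨a / 2, by omega⟩
  obtain ⟨b', rfl⟩ : ∃ b', b = 2 * b' + 1 := ⟨b / 2, by omega⟩
  obtain ⟨d', rfl⟩ : ∃ d', d = 2 * d' + 1 := ⟨d / 2, by omega⟩
  have e : 2 * a' * (2 * b' + 1) + 2 * a' * (2 * d' + 1) = 4 * (a' * (b' + d' + 1)) := by ring
  rw [e] at h1
  omega

theorem R_swap1 (n : ℕ) (α μ β η : ℕ) : R n (α, μ, β, η) = R n (μ, α, β, η) := by
  unfold R
  apply card_nbij' (fun q => ((q.1.2, q.1.1), q.2)) (fun q => ((q.1.2, q.1.1), q.2))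
  · rintro ⟨⟨a, b⟩, ⟨c, d⟩⟩ h
    simp only [coe_filter, Set.mem_ofPred, pv, Prod.mk.injEq] at h ⊢
    rw [mem_Q] at h ⊢
    rw [mul_comm b a]
    omega
  · rintro ⟨⟨a, b⟩, ⟨c, d⟩⟩ h
    simp only [coe_filter, Set.mem_ofPred, pv, Prod.mk.injEq] at h ⊢
    rw [mem_Q] at h ⊢
    rw [mul_comm b a]
    omega
  · rintro ⟨⟨a, b⟩, ⟨c, d⟩⟩ _
    rfl
  · rintro ⟨⟨a, b⟩, ⟨c, d⟩⟩ _
    rfl

theorem R_swap2 (n : ℕ) (α μ β η : ℕ) : R n (α, μ, β, η) = R n (α, μ, η, β) := by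
  unfold R
  apply card_nbij' (fun q => (q.1, (q.2.2, q.2.1))) (fun q => (q.1, (q.2.2, q.2.1)))
  · rintro ⟨⟨a, b⟩, ⟨c, d⟩⟩ h
    simp only [coe_filter, Set.mem_ofPred, pv, Prod.mk.injEq] at h ⊢
    rw [mem_Q] at h ⊢
    rw [mul_comm d c]
    omega
  · rintro ⟨⟨a, b⟩, ⟨c, d⟩⟩ h
    simp only [coe_filter, Set.mem_ofPred, pv, Prod.mk.injEq] at h ⊢
    rw [mem_Q] at h ⊢
    rw [mul_comm d c]
    omega
  · rintro ⟨⟨a, b⟩, ⟨c, d⟩⟩ _
    rfl
  · rintro ⟨⟨a, b⟩, ⟨c, d⟩⟩ _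
    rfl

/-- the solutions with equal first entries -/
theorem D_count {M : ℕ} (hM : M % 2 = 1) :
    D (2 * M) (1, 0, 1, 0) + M.divisors.card = ∑ a ∈ M.divisors, a := by
  classical
  have h0 := Q_split M
  have h1 : (Q M).card = (F M).card + ((Q M).filter (fun q => ¬ q.2.1 < q.1.1)).card := by
    rw [F, Finset.card_filter_add_card_filter_not]
  have h2 : ((Q M).filter (fun q => ¬ q.2.1 < q.1.1)).card =
      (((Q M).filter (fun q => ¬ q.2.1 < q.1.1)).filter (fun q => q.1.1 = q.2.1)).card +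
      (((Q M).filter (fun q => ¬ q.2.1 < q.1.1)).filter (fun q => ¬ q.1.1 = q.2.1)).card := by
    rw [Finset.card_filter_add_card_filter_not]
  have h3 : (((Q M).filter (fun q => ¬ q.2.1 < q.1.1)).filter (fun q => ¬ q.1.1 = q.2.1)).card =
      (F M).card := by
    apply card_nbij' Prod.swap Prod.swap
    · rintro ⟨⟨a, b⟩, ⟨c, d⟩⟩ h
      simp only [coe_filter, Set.mem_ofPred, mem_filter, F, Prod.swap_prod_mk] at h ⊢
      rw [mem_Q] at h ⊢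
      obtain ⟨⟨⟨h1, h2, h3, h4, h5⟩, h6⟩, h7⟩ := h
      refine ⟨⟨h3, h4, h1, h2, ?_⟩, by omega⟩
      omega
    · rintro ⟨⟨a, b⟩, ⟨c, d⟩⟩ h
      simp only [coe_filter, Set.mem_ofPred, mem_filter, F, Prod.swap_prod_mk] at h ⊢
      rw [mem_Q] at h ⊢
      obtain ⟨⟨h1, h2, h3, h4, h5⟩, h6⟩ := h
      refine ⟨⟨⟨h3, h4, h1, h2, ?_⟩, by omega⟩, by omega⟩
      omega
    · intro q _; exact Prod.swap_swap q
    · intro q _; exact Prod.swap_swap q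
  have h4 : D (2 * M) (1, 0, 1, 0) =
      (((Q M).filter (fun q => ¬ q.2.1 < q.1.1)).filter (fun q => q.1.1 = q.2.1)).card := by
    unfold D
    apply card_nbij' (fun q => ((q.1.1, q.1.2 / 2), (q.2.1, q.2.2 / 2)))
      (fun q => ((q.1.1, 2 * q.1.2), (q.2.1, 2 * q.2.2)))
    · rintro ⟨⟨a, b⟩, ⟨c, d⟩⟩ h
      simp only [coe_filter, Set.mem_ofPred, mem_filter, pv, Prod.mk.injEq] at h ⊢
      rw [mem_Q] at h ⊢
      obtain ⟨⟨h1, h2, h3, h4, h5⟩, h6, h7, h8, h9, h10⟩ := h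
      obtain ⟨b', rfl⟩ : ∃ b', b = 2 * b' := ⟨b / 2, by omega⟩
      obtain ⟨d', rfl⟩ : ∃ d', d = 2 * d' := ⟨d / 2, by omega⟩
      rw [show 2 * b' / 2 = b' by omega, show 2 * d' / 2 = d' by omega]
      have e : a * (2 * b') + c * (2 * d') = 2 * (a * b' + c * d') := by ring
      omega
    · rintro ⟨⟨a, b⟩, ⟨c, d⟩⟩ h
      simp only [coe_filter, Set.mem_ofPred, mem_filter, pv, Prod.mk.injEq] at h ⊢
      rw [mem_Q] at h ⊢
      obtain ⟨⟨⟨h1, h2, h3, h4, h5⟩, h6⟩, h7⟩ := h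
      subst h7
      have e : a * (2 * b) + a * (2 * d) = 2 * (a * b + a * d) := by ring
      have h8 : a % 2 = 1 := by
        by_contra hcon
        obtain ⟨a', rfl⟩ : ∃ a', a = 2 * a' := ⟨a / 2, by omega⟩
        have e2 : 2 * a' * b + 2 * a' * d = 2 * (a' * b + a' * d) := by ring
        omega
      omega
    · rintro ⟨⟨a, b⟩, ⟨c, d⟩⟩ h
      simp only [coe_filter, Set.mem_ofPred, pv, Prod.mk.injEq] at h
      simp only [Prod.mk.injEq, true_and]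
      omega
    · rintro ⟨⟨a, b⟩, ⟨c, d⟩⟩ _
      simp only [Prod.mk.injEq, true_and]
      omega
  omega

/-- representations `2 x ^ 2 + y ^ 2 = M` in positive integers -/
def W (M : ℕ) : Finset (ℕ × ℕ) :=
  (Icc 1 M ×ˢ Icc 1 M).filter (fun t => 2 * (t.1 * t.1) + t.2 * t.2 = M)

theorem mem_W {M x y : ℕ} : (x, y) ∈ W M ↔ 1 ≤ x ∧ 1 ≤ y ∧ 2 * (x * x) + y * y = M := by
  unfold W
  simp only [mem_filter, mem_product, mem_Icc]
  constructor
  · rintro ⟨⟨⟨h1, _⟩, h3, _⟩, h5⟩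
    exact ⟨h1, h3, h5⟩
  · rintro ⟨h1, h2, h3⟩
    have e1 : x ≤ x * x := by nlinarith
    have e2 : y ≤ y * y := by nlinarith
    omega

theorem R_parity {M : ℕ} (hM : M % 2 = 1) :
    ((R (2 * M) (0, 0, 1, 0) : ℕ) : ZMod 2) = (((W M).card : ℕ) : ZMod 2) := by
  classical
  unfold R
  rw [parity_invol _ (fun q => ((q.1.2, q.1.1), (q.2.2 / 2, 2 * q.2.1)))]
  · congr 1
    apply card_nbij' (fun q => (q.1.1 / 2, q.2.1)) (fun t => ((2 * t.1, 2 * t.1), (t.2, 2 * t.2)))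
    · rintro ⟨⟨a, b⟩, ⟨c, d⟩⟩ h
      simp only [coe_filter, Set.mem_ofPred, mem_filter, pv, Prod.mk.injEq] at h
      rw [mem_Q] at h
      rw [mem_coe]
      show (a / 2, c) ∈ W M
      rw [mem_W]
      obtain ⟨⟨⟨h1, h2, h3, h4, h5⟩, h6, h7, h8, h9⟩, ⟨h10, h11⟩, h12, h13⟩ := h
      subst h10
      subst h13
      obtain ⟨x, rfl⟩ : ∃ x, b = 2 * x := ⟨b / 2, by omega⟩
      rw [show 2 * x / 2 = x by omega]
      have e : 2 * x * (2 * x) + c * (2 * c) = 2 * (2 * (x * x) + c * c) := by ring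
      omega
    · rintro ⟨x, y⟩ h
      rw [mem_coe, mem_W] at h
      simp only [coe_filter, Set.mem_ofPred, mem_filter, pv, Prod.mk.injEq, and_true, true_and]
      rw [mem_Q]
      have e : 2 * x * (2 * x) + y * (2 * y) = 2 * (2 * (x * x) + y * y) := by ring
      have hy : y % 2 = 1 := by
        by_contra hcon
        obtain ⟨z, rfl⟩ : ∃ z, y = 2 * z := ⟨y / 2, by omega⟩
        have e2 : 2 * z * (2 * z) = 4 * (z * z) := by ring
        omega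
      omega
    · rintro ⟨⟨a, b⟩, ⟨c, d⟩⟩ h
      simp only [coe_filter, Set.mem_ofPred, mem_filter, pv, Prod.mk.injEq] at h
      simp only [Prod.mk.injEq, and_true, true_and]
      omega
    · rintro ⟨x, y⟩ _
      simp only [Prod.mk.injEq, and_true]
      omega
  · rintro ⟨⟨a, b⟩, ⟨c, d⟩⟩ h
    simp only [mem_filter, pv, Prod.mk.injEq] at h ⊢
    rw [mem_Q] at h ⊢
    obtain ⟨⟨h1, h2, h3, h4, h5⟩, h6, h7, h8, h9⟩ := h
    obtain ⟨a', rfl⟩ : ∃ a', a = 2 * a' := ⟨a / 2, by omega⟩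
    obtain ⟨b', rfl⟩ : ∃ b', b = 2 * b' := ⟨b / 2, by omega⟩
    obtain ⟨d', rfl⟩ : ∃ d', d = 2 * d' := ⟨d / 2, by omega⟩
    rw [show 2 * d' / 2 = d' by omega]
    have e1 : 2 * a' * (2 * b') + c * (2 * d') = 2 * (2 * (a' * b') + c * d') := by ring
    have e2 : 2 * b' * (2 * a') + d' * (2 * c) = 2 * (2 * (a' * b') + c * d') := by ring
    have h10 : d' % 2 = 1 := by
      by_contra hcon
      obtain ⟨z, rfl⟩ : ∃ z, d' = 2 * z := ⟨d' / 2, by omega⟩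
      have e3 : c * (2 * z) = 2 * (c * z) := by ring
      omega
    omega
  · rintro ⟨⟨a, b⟩, ⟨c, d⟩⟩ h
    simp only [mem_filter, pv, Prod.mk.injEq] at h
    simp only [Prod.mk.injEq, true_and]
    omega

end Pool.Agent.R443.Nu2
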