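import Pool.Agent.R443.Rank

/-!
# Rank parities of partitions into two part sizes
-/

set_option autoImplicit false

namespace Pool.Agent.R443.Nu2

open Finset

theorem sum16 (f : ℕ × ℕ × ℕ × ℕ → ℕ) :
    ∑ v ∈ range 2 ×ˢ range 2 ×ˢ range 2 ×ˢ range 2, f v =
      f (0, 0, 0, 0) + f (0, 0, 0, 1) + f (0, 0, 1, 0) + f (0, 0, 1, 1) +
      f (0, 1, 0, 0) + f (0, 1, 0, 1) + f (0, 1, 1, 0) + f (0, 1, 1, 1) +
      f (1, 0, 0, 0) + f (1, 0, 0, 1) + f (1, 0, 1, 0) + f (1, 0, 1, 1) +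
      f (1, 1, 0, 0) + f (1, 1, 0, 1) + f (1, 1, 1, 0) + f (1, 1, 1, 1) := by
  simp only [sum_product, sum_range_succ, sum_range_zero, zero_add]
  ring

/-- the identities between the parity classes -/
theorem classes {n : ℕ} (hn : n % 4 = 2) :
    T n (0, 0, 0, 0) = 0 ∧ T n (0, 0, 1, 1) = 0 ∧ T n (0, 1, 1, 1) = 0 ∧ T n (1, 0, 1, 1) = 0 ∧
    T n (1, 1, 0, 0) = 0 ∧ T n (1, 1, 0, 1) = 0 ∧ T n (1, 1, 1, 0) = 0 ∧
    T n (0, 0, 1, 0) = T n (0, 1, 0, 1) ∧ T n (0, 1, 1, 0) = T n (1, 1, 1, 1) ∧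
    T n (0, 1, 0, 0) = T n (1, 0, 1, 0) ∧ T n (0, 0, 0, 1) = T n (1, 0, 0, 0) ∧
    T n (1, 0, 0, 1) + T n (1, 1, 1, 1) = 2 * T n (0, 1, 0, 1) ∧
    2 * T n (1, 0, 1, 0) + D n (1, 0, 1, 0) = 2 * T n (0, 1, 0, 1) ∧
    R n (0, 0, 1, 0) = T n (0, 1, 0, 1) + T n (1, 0, 0, 0) := by
  have c1 : T n (0, 0, 1, 0) = T n (0, 1, 0, 1) :=
    T_conj (n := n) (α := 0) (μ := 0) (β := 1) (η := 0) (by decide) (by decide) (by decide)
      (by decide)
  have c2 : T n (0, 1, 1, 0) = T n (1, 1, 1, 1) :=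
    T_conj (n := n) (α := 0) (μ := 1) (β := 1) (η := 0) (by decide) (by decide) (by decide)
      (by decide)
  have c3 : T n (0, 1, 0, 0) = T n (1, 0, 1, 0) :=
    T_conj (n := n) (α := 0) (μ := 1) (β := 0) (η := 0) (by decide) (by decide) (by decide)
      (by decide)
  have c4 : T n (0, 0, 0, 1) = T n (1, 0, 0, 0) :=
    T_conj (n := n) (α := 0) (μ := 0) (β := 0) (η := 1) (by decide) (by decide) (by decide)
      (by decide)
  have s1 := R_split n 0 1 0 1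
  have s2 := R_split n 1 0 0 1
  have s3 := R_split n 1 0 1 0
  have s4 := R_split n 0 0 1 0
  have z1 : D n (0, 1, 0, 1) = 0 := D_zero' hn
  have z2 : D n (1, 0, 0, 1) = 0 := D_zero (by decide)
  have z3 : D n (0, 0, 1, 0) = 0 := D_zero (by decide)
  have r1 : R n (1, 0, 0, 1) = R n (0, 1, 0, 1) := R_swap1 n 1 0 0 1
  have r2 : R n (1, 0, 1, 0) = R n (0, 1, 1, 0) := R_swap1 n 1 0 1 0
  have r3 : R n (0, 1, 1, 0) = R n (0, 1, 0, 1) := R_swap2 n 0 1 1 0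
  refine ⟨T_zero' hn, T_zero (by decide) (by omega), T_zero (by decide) (by omega),
    T_zero (by decide) (by omega), T_zero (by decide) (by omega), T_zero (by decide) (by omega),
    T_zero (by decide) (by omega), c1, c2, c3, c4, ?_, ?_, ?_⟩ <;> omega

/-- partitions with an even rank -/
def K1 (n : ℕ) : ℕ := ((F n).filter (fun q => (q.1.1 + q.1.2 + q.2.2) % 2 = 0)).card

/-- partitions with an even second statistic -/
def K2 (n : ℕ) : ℕ := ((F n).filter (fun q => (q.1.1 + q.2.1 + q.2.2) % 2 = 0)).card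

theorem K1_eq {n : ℕ} (hn : n % 4 = 2) : K1 n + T n (1, 1, 1, 1) = 4 * T n (0, 1, 0, 1) := by
  have h1 : K1 n = ((F n).filter (fun q => ((pv q).1 + (pv q).2.1 + (pv q).2.2.2) % 2 = 0)).card := by
    unfold K1
    congr 1
    apply filter_congr
    intro q _
    simp only [pv]
    omega
  rw [h1, total n (fun v => (v.1 + v.2.1 + v.2.2.2) % 2 = 0), sum16]
  obtain ⟨h⟩ := (⟨classes hn⟩ : Nonempty _)
  norm_num
  omega

theorem K2_eq {n : ℕ} (hn : n % 4 = 2) :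
    K2 n + T n (1, 1, 1, 1) + D n (1, 0, 1, 0) = 4 * T n (0, 1, 0, 1) := by
  have h1 : K2 n = ((F n).filter (fun q => ((pv q).1 + (pv q).2.2.1 + (pv q).2.2.2) % 2 = 0)).card := by
    unfold K2
    congr 1
    apply filter_congr
    intro q _
    simp only [pv]
    omega
  rw [h1, total n (fun v => (v.1 + v.2.2.1 + v.2.2.2) % 2 = 0), sum16]
  obtain ⟨h⟩ := (⟨classes hn⟩ : Nonempty _)
  norm_num
  omega

theorem F_eq {n : ℕ} (hn : n % 4 = 2) :
    (F n).card + D n (1, 0, 1, 0) =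
      T n (1, 1, 1, 1) + 2 * R n (0, 0, 1, 0) + 4 * T n (0, 1, 0, 1) := by
  have h1 : (F n).card = ((F n).filter (fun q => (fun _ => True) (pv q))).card := by
    simp
  rw [h1, total n (fun _ => True), sum16]
  obtain ⟨h⟩ := (⟨classes hn⟩ : Nonempty _)
  simp only [if_true]
  omega

/-- the main congruences, given the three arithmetical conditions -/
theorem main_dvd {M : ℕ} (hM : M % 2 = 1)
    (hns : ∀ x y : ℕ, 1 ≤ x → 1 ≤ y → x * x + y * y ≠ 2 * M)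
    (hσ : 8 ∣ ∑ a ∈ (2 * M).divisors, a) (hW : (((W M).card : ℕ) : ZMod 2) = 0)
    (hD : D (2 * M) (1, 0, 1, 0) % 2 = 0) :
    4 ∣ K2 (2 * M) ∧ 4 ∣ (F (2 * M)).card ∧
      (4 ∣ D (2 * M) (1, 0, 1, 0) → 4 ∣ K1 (2 * M)) := by
  have hn : 2 * M % 4 = 2 := by omega
  have h1 := four_dvd_nu hM hns hσ
  rw [nu_two] at h1
  have h2 : 2 ∣ R (2 * M) (0, 0, 1, 0) := by
    rw [← cast_eq_zero_iff_even, R_parity hM, hW]
  have h3 := K1_eq hn
  have h4 := K2_eq hn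
  have h5 := F_eq hn
  refine ⟨?_, h1, ?_⟩
  · omega
  · intro h6
    omega

/-! ### Arithmetic -/

theorem sum_divisors_zmod {m M : ℕ} (hM : 0 < M) (hs : ∀ x : ℕ, x * x ≠ M)
    (h : ∀ a b : ℕ, a * b = M → (a : ZMod m) + (b : ZMod m) = 0) : m ∣ ∑ a ∈ M.divisors, a := by
  rw [← ZMod.natCast_eq_zero_iff, Nat.cast_sum]
  apply Finset.sum_involution (fun a _ => M / a)
  · intro a ha
    apply h
    exact Nat.mul_div_cancel' (Nat.mem_divisors.mp ha).1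
  · intro a ha _ h1
    have h2 := Nat.mul_div_cancel' (Nat.mem_divisors.mp ha).1
    rw [h1] at h2
    exact hs a h2
  · intro a ha
    rw [Nat.mem_divisors] at ha ⊢
    exact ⟨Nat.div_dvd_of_dvd ha.1, ha.2⟩
  · intro a ha
    exact Nat.div_div_self (Nat.mem_divisors.mp ha).1 hM.ne'

theorem two_dvd_sigma {b : ℕ} (hb : b % 2 = 1) (hs : ∀ x : ℕ, x * x ≠ b) :
    2 ∣ ∑ a ∈ b.divisors, a := by
  apply sum_divisors_zmod (by omega) hs
  intro x y hxy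
  have h1 : ((x * y : ℕ) : ZMod 2) = 1 := by
    rw [hxy]
    have h2 : ((b : ℕ) : ZMod 2) = ((1 : ℕ) : ZMod 2) := by
      rw [ZMod.natCast_eq_natCast_iff]
      exact hb
    rw [h2]
    rfl
  push_cast at h1
  revert h1
  generalize (x : ZMod 2) = u
  generalize (y : ZMod 2) = v
  revert u v
  decide

theorem sigma_prime_mul {p b : ℕ} (hp : p.Prime) (hpb : ¬ p ∣ b) :
    ∑ a ∈ (p * b).divisors, a = (p + 1) * ∑ a ∈ b.divisors, a := by
  have hcop1 : Nat.Coprime p b := (Nat.Prime.coprime_iff_not_dvd hp).mpr hpb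
  rw [Nat.Coprime.sum_divisors_mul hcop1, Nat.Prime.sum_divisors hp]

theorem card_prime_mul {p b : ℕ} (hp : p.Prime) (hpb : ¬ p ∣ b) :
    (p * b).divisors.card = 2 * b.divisors.card := by
  have hcop1 : Nat.Coprime p b := (Nat.Prime.coprime_iff_not_dvd hp).mpr hpb
  rw [Nat.Coprime.card_divisors_mul hcop1, Nat.Prime.divisors hp, card_pair hp.one_lt.ne]

theorem prime_case {p b : ℕ} (hp : p.Prime) (hp4 : p % 4 = 3) (hb : b % 2 = 1) (hpb : ¬ p ∣ b)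
    (hs : ∀ x : ℕ, x * x ≠ b)
    (h0 : ∀ x y : ZMod p, x * x + y * y = 0 → x = 0 ∧ y = 0)
    (hW : (((W (p * b)).card : ℕ) : ZMod 2) = 0) :
    4 ∣ K2 (2 * (p * b)) ∧ 4 ∣ (F (2 * (p * b))).card ∧ 4 ∣ K1 (2 * (p * b)) := by
  have hM : (p * b) % 2 = 1 := by
    rw [Nat.mul_mod, hb, show p % 2 = 1 by omega]
  have h2 : ¬ 2 ∣ p * b := by omega
  obtain ⟨k, hk⟩ := two_dvd_sigma hb hs
  have hsig := sigma_prime_mul hp hpb
  obtain ⟨j, hj⟩ : ∃ j, p + 1 = 4 * j := ⟨(p + 1) / 4, by omega⟩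
  have hcard := card_prime_mul hp hpb
  have hsb : s b = 0 := s_eq_zero (fun x _ => hs x)
  have hce := card_eq b
  rw [hsb] at hce
  have hD := D_count hM
  have hD4 : 4 ∣ D (2 * (p * b)) (1, 0, 1, 0) := by
    rw [hsig, hj, hk, hcard, hce] at hD
    have e : 4 * j * (2 * k) = 4 * (2 * (j * k)) := by ring
    omega
  have hns : ∀ x y : ℕ, 1 ≤ x → 1 ≤ y → x * x + y * y ≠ 2 * (p * b) := by
    intro x y _ _ h
    have h3 : ((x * x + y * y : ℕ) : ZMod p) = 0 := by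
      rw [h, ZMod.natCast_eq_zero_iff]
      exact Dvd.dvd.mul_left (dvd_mul_right p b) 2
    push_cast at h3
    obtain ⟨h4, h5⟩ := h0 _ _ h3
    rw [ZMod.natCast_eq_zero_iff] at h4 h5
    obtain ⟨u, rfl⟩ := h4
    obtain ⟨v, rfl⟩ := h5
    have h6 : p * (p * (u * u + v * v)) = p * (2 * b) := by linear_combination h
    have h7 := Nat.eq_of_mul_eq_mul_left hp.pos h6
    have h8 : p ∣ 2 * b := ⟨_, h7.symm⟩
    rcases (Nat.Prime.dvd_mul hp).mp h8 with h9 | h9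
    · have := Nat.le_of_dvd (by norm_num) h9
      have := hp.two_le
      omega
    · exact hpb h9
  have hσ : 8 ∣ ∑ a ∈ (2 * (p * b)).divisors, a := by
    rw [sigma_prime_mul Nat.prime_two h2, hsig, hj, hk]
    exact ⟨3 * (j * k), by ring⟩
  obtain ⟨h7, h8, h9⟩ := main_dvd hM hns hσ hW (by omega)
  exact ⟨h7, h8, h9 hD4⟩

theorem W_empty {M : ℕ} (h : ∀ x y : ℕ, 1 ≤ x → 1 ≤ y → 2 * (x * x) + y * y ≠ M) :
    (((W M).card : ℕ) : ZMod 2) = 0 := by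
  have : W M = ∅ := by
    rw [eq_empty_iff_forall_notMem]
    rintro ⟨x, y⟩ hxy
    rw [mem_W] at hxy
    exact h x y hxy.1 hxy.2.1 hxy.2.2
  rw [this]
  simp

/-- multiplication by the quotient of the two prime divisors of 3 -/
def psi (t : ℕ × ℕ) : ℕ × ℕ :=
  if t.1 % 3 = t.2 % 3 then ((t.1 + 2 * t.2) / 3, ((4 * t.1 - t.2) + (t.2 - 4 * t.1)) / 3)
  else (((t.1 - 2 * t.2) + (2 * t.2 - t.1)) / 3, (4 * t.1 + t.2) / 3)

theorem psi_eq1 {x y : ℕ} (h : x % 3 = y % 3) :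
    psi (x, y) = ((x + 2 * y) / 3, ((4 * x - y) + (y - 4 * x)) / 3) := if_pos h

theorem psi_eq2 {x y : ℕ} (h : ¬ x % 3 = y % 3) :
    psi (x, y) = (((x - 2 * y) + (2 * y - x)) / 3, (4 * x + y) / 3) := if_neg h

theorem sq_mod_three (x : ℕ) : (x % 3 = 0 ∧ x * x % 3 = 0) ∨ (x % 3 ≠ 0 ∧ x * x % 3 = 1) := by
  have h : x % 3 = 0 ∨ x % 3 = 1 ∨ x % 3 = 2 := by omega
  rcases h with h | h | h <;> simp [Nat.mul_mod, h]

/-- the four cases of the involution -/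
theorem psi_cases {x y : ℕ} (hx : x % 3 ≠ 0) (hy : y % 3 ≠ 0) :
    ∃ u v : ℕ, psi (x, y) = (u, v) ∧
      ((x % 3 = y % 3 ∧ x + 2 * y = 3 * u ∧ 4 * x = y + 3 * v) ∨
       (x % 3 = y % 3 ∧ x + 2 * y = 3 * u ∧ y = 4 * x + 3 * v) ∨
       (¬ x % 3 = y % 3 ∧ x = 2 * y + 3 * u ∧ 4 * x + y = 3 * v) ∨
       (¬ x % 3 = y % 3 ∧ 2 * y = x + 3 * u ∧ 4 * x + y = 3 * v)) := by
  by_cases h : x % 3 = y % 3
  · have hd : ∃ i j r, x = 3 * i + r ∧ y = 3 * j + r :=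
      ⟨x / 3, y / 3, x % 3, by omega, by omega⟩
    obtain ⟨i, j, r, rfl, rfl⟩ := hd
    rw [psi_eq1 h]
    refine ⟨_, _, rfl, ?_⟩
    rcases le_or_gt (3 * j + r) (4 * (3 * i + r)) with h2 | h2
    · left
      refine ⟨h, by omega, by omega⟩
    · right; left
      refine ⟨h, by omega, by omega⟩
  · have hd : ∃ i j, (x = 3 * i + 1 ∧ y = 3 * j + 2) ∨ (x = 3 * i + 2 ∧ y = 3 * j + 1) :=
      ⟨x / 3, y / 3, by omega⟩
    rw [psi_eq2 h]
    refine ⟨_, _, rfl, ?_⟩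
    obtain ⟨i, j, hd | hd⟩ := hd
    · obtain ⟨rfl, rfl⟩ := hd
      rcases le_or_gt (2 * (3 * j + 2)) (3 * i + 1) with h2 | h2
      · right; right; left
        refine ⟨h, by omega, by omega⟩
      · right; right; right
        refine ⟨h, by omega, by omega⟩
    · obtain ⟨rfl, rfl⟩ := hd
      rcases le_or_gt (2 * (3 * j + 1)) (3 * i + 2) with h2 | h2
      · right; right; left
        refine ⟨h, by omega, by omega⟩
      · right; right; right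
        refine ⟨h, by omega, by omega⟩

theorem psi_norm {x y u v : ℕ}
    (h : ((x % 3 = y % 3 ∧ x + 2 * y = 3 * u ∧ 4 * x = y + 3 * v) ∨
       (x % 3 = y % 3 ∧ x + 2 * y = 3 * u ∧ y = 4 * x + 3 * v) ∨
       (¬ x % 3 = y % 3 ∧ x = 2 * y + 3 * u ∧ 4 * x + y = 3 * v) ∨
       (¬ x % 3 = y % 3 ∧ 2 * y = x + 3 * u ∧ 4 * x + y = 3 * v))) :
    2 * (u * u) + v * v = 2 * (x * x) + y * y := by
  have e1 : 9 * (2 * (u * u) + v * v) = 9 * (2 * (x * x) + y * y) := by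
    rcases h with ⟨_, h1, h2⟩ | ⟨_, h1, h2⟩ | ⟨_, h1, h2⟩ | ⟨_, h1, h2⟩
    all_goals
      zify at h1 h2 ⊢
      nlinarith [h1, h2, congrArg (fun t => t * t) h1, congrArg (fun t => t * t) h2]
  omega

theorem W_three {b : ℕ} (hb2 : b % 2 = 1) (hb : b % 3 ≠ 0) (hs : ∀ x : ℕ, x * x ≠ b) :
    (((W (3 * b)).card : ℕ) : ZMod 2) = 0 := by
  have key : ∀ x y : ℕ, 2 * (x * x) + y * y = 3 * b → x % 3 ≠ 0 ∧ y % 3 ≠ 0 := by
    intro x y h
    have hx := sq_mod_three x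
    have hy := sq_mod_three y
    by_contra hcon
    have h3 : x % 3 = 0 ∧ y % 3 = 0 := by omega
    obtain ⟨u, rfl⟩ : ∃ u, x = 3 * u := ⟨x / 3, by omega⟩
    obtain ⟨v, rfl⟩ : ∃ v, y = 3 * v := ⟨y / 3, by omega⟩
    have e : 2 * (3 * u * (3 * u)) + 3 * v * (3 * v) = 3 * (3 * (2 * (u * u) + v * v)) := by ring
    omega
  rw [parity_invol (W (3 * b)) psi]
  · have : (W (3 * b)).filter (fun t => psi t = t) = ∅ := by
      rw [filter_eq_empty_iff]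
      rintro ⟨x, y⟩ hxy h
      rw [mem_W] at hxy
      obtain ⟨hk1, hk2⟩ := key x y hxy.2.2
      obtain ⟨u, v, huv, hc⟩ := psi_cases hk1 hk2
      rw [huv, Prod.mk.injEq] at h
      obtain ⟨rfl, rfl⟩ := h
      rcases hc with ⟨_, h1, h2⟩ | ⟨_, h1, h2⟩ | ⟨_, h1, h2⟩ | ⟨_, h1, h2⟩
      · have : u = v := by omega
        subst this
        apply hs u
        omega
      · omega
      · have e : v = 2 * u := by omega
        subst e
        have e : 2 * u * (2 * u) = 4 * (u * u) := by ring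
        omega
      · have e : v = 2 * u := by omega
        subst e
        have e : 2 * u * (2 * u) = 4 * (u * u) := by ring
        omega
    rw [this]
    simp
  · rintro ⟨x, y⟩ h
    rw [mem_W] at h
    obtain ⟨hk1, hk2⟩ := key x y h.2.2
    obtain ⟨u, v, huv, hc⟩ := psi_cases hk1 hk2
    have h2 := psi_norm hc
    rw [huv, mem_W]
    rw [h.2.2] at h2
    obtain ⟨h3, h4⟩ := key u v h2
    exact ⟨by omega, by omega, h2⟩
  · rintro ⟨x, y⟩ h
    rw [mem_W] at h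
    obtain ⟨hk1, hk2⟩ := key x y h.2.2
    obtain ⟨u, v, huv, hc⟩ := psi_cases hk1 hk2
    have h2 := psi_norm hc
    rw [huv]
    rw [h.2.2] at h2
    obtain ⟨h3, h4⟩ := key u v h2
    obtain ⟨u', v', huv', hc'⟩ := psi_cases h3 h4
    rw [huv', Prod.mk.injEq]
    rcases hc with ⟨a1, a2, a3⟩ | ⟨a1, a2, a3⟩ | ⟨a1, a2, a3⟩ | ⟨a1, a2, a3⟩ <;>
    rcases hc' with ⟨b1, b2, b3⟩ | ⟨b1, b2, b3⟩ | ⟨b1, b2, b3⟩ | ⟨b1, b2, b3⟩
    all_goals omega

end Pool.Agent.R443.Nu2
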