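import Pool.Agent.R443.PS

/-!
# The coloured k-ary partition series and its recurrence
-/

set_option autoImplicit false

namespace Pool.Agent.R443.SK

open PowerSeries Finset
open Pool.Agent.R443.PS

/-- the operator `x d/dx` -/
noncomputable def th {R : Type*} [CommRing R] (f : R⟦X⟧) : R⟦X⟧ :=
  mk fun n => (n : R) * coeff n f

theorem coeff_th {R : Type*} [CommRing R] (f : R⟦X⟧) (n : ℕ) :
    coeff n (th f) = (n : R) * coeff n f := by
  rw [th, coeff_mk]

theorem th_mul {R : Type*} [CommRing R] (f g : R⟦X⟧) :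
    th (f * g) = th f * g + f * th g := by
  ext n
  rw [coeff_th, map_add, coeff_mul, coeff_mul, coeff_mul, mul_sum, ← sum_add_distrib]
  apply sum_congr rfl
  intro x hx
  rw [HasAntidiagonal.mem_antidiagonal] at hx
  rw [coeff_th, coeff_th, ← hx]
  push_cast
  ring

theorem th_one {R : Type*} [CommRing R] : th (1 : R⟦X⟧) = 0 := by
  ext n
  rw [coeff_th, coeff_one]
  split_ifs with h
  · subst h
    simp
  · simp

theorem th_sub {R : Type*} [CommRing R] (f g : R⟦X⟧) : th (f - g) = th f - th g := by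
  ext n
  rw [coeff_th, map_sub, map_sub, coeff_th, coeff_th]
  ring

theorem th_X_pow {R : Type*} [CommRing R] (d : ℕ) : th (X ^ d : R⟦X⟧) = (d : R⟦X⟧) * X ^ d := by
  ext n
  have h1 : (d : R⟦X⟧) * X ^ d = d • (X ^ d : R⟦X⟧) := (nsmul_eq_mul _ _).symm
  rw [coeff_th, h1, map_nsmul, coeff_X_pow]
  split_ifs with h
  · subst h
    simp
  · simp

theorem th_pow {R : Type*} [CommRing R] (f : R⟦X⟧) (r : ℕ) :
    th (f ^ (r + 1)) = ((r : R⟦X⟧) + 1) * (f ^ r * th f) := by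
  induction r with
  | zero => simp
  | succ r ih =>
    rw [pow_succ, th_mul, ih]
    push_cast
    ring

/-- logarithmic derivative relation -/
def LD (f L : ℤ⟦X⟧) : Prop := th f = f * L

theorem LD_one : LD 1 0 := by
  unfold LD
  rw [th_one, mul_zero]

theorem LD_mul {f g L M : ℤ⟦X⟧} (hf : LD f L) (hg : LD g M) : LD (f * g) (L + M) := by
  unfold LD at *
  rw [th_mul, hf, hg]
  ring

theorem LD_pow {f L : ℤ⟦X⟧} (hf : LD f L) (r : ℕ) : LD (f ^ r) ((r : ℤ⟦X⟧) * L) := by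
  induction r with
  | zero =>
    have := LD_one
    simpa using this
  | succ r ih =>
    rw [pow_succ]
    have := LD_mul ih hf
    have h2 : ((r + 1 : ℕ) : ℤ⟦X⟧) * L = (r : ℤ⟦X⟧) * L + L := by
      push_cast
      ring
    rw [h2]
    exact this

theorem LD_prod {ι : Type*} (s : Finset ι) (f L : ι → ℤ⟦X⟧) (h : ∀ i ∈ s, LD (f i) (L i)) :
    LD (∏ i ∈ s, f i) (∑ i ∈ s, L i) := by
  classical
  induction s using Finset.induction_on with
  | empty => simpa using LD_one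
  | insert a s ha ih =>
    rw [prod_insert ha, sum_insert ha]
    exact LD_mul (h a (mem_insert_self a s)) (ih fun i hi => h i (mem_insert_of_mem hi))

theorem LD_iv {d : ℕ} (hd : d ≠ 0) : LD (iv d) ((d : ℤ⟦X⟧) * (iv d - 1)) := by
  unfold LD
  have h1 : th ((1 - X ^ d : ℤ⟦X⟧) * iv d) = 0 := by
    rw [mul_iv hd, th_one]
  rw [th_mul, th_sub, th_one, th_X_pow, zero_sub] at h1
  have h2 : (1 - X ^ d : ℤ⟦X⟧) * th (iv d) = (d : ℤ⟦X⟧) * X ^ d * iv d := by
    linear_combination h1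
  have h3 : iv d * ((1 - X ^ d : ℤ⟦X⟧) * th (iv d)) = th (iv d) := by
    rw [← mul_assoc, iv_mul hd, one_mul]
  have h4 : (X ^ d : ℤ⟦X⟧) * iv d = iv d - 1 := by
    have := mul_iv hd
    linear_combination -this
  rw [← h3, h2, mul_assoc (d : ℤ⟦X⟧), h4]

/-- truncated product for the coloured `k`-ary partition series -/
noncomputable def PK (k m N : ℕ) : ℤ⟦X⟧ :=
  iv 1 ^ m * ∏ i ∈ range N, iv (k ^ i) ^ (m * (k - 1))

/-- `S k m n` is the coefficient of `x^n` in
`(1-x)^(-m) ∏_{i ≥ 0} (1 - x^(k^i))^(-m(k-1))`; the factors with `i > n` do not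
matter for it, and are omitted. -/
noncomputable def S (k m n : ℕ) : ℤ := coeff n (PK k m (n + 1))

theorem coeff_PK_succ {k m n N : ℕ} (hk : 2 ≤ k) (h : n < N) :
    coeff n (PK k m (N + 1)) = coeff n (PK k m N) := by
  unfold PK
  rw [prod_range_succ, ← mul_assoc, mul_comm]
  apply coeff_iv_pow_mul_of_lt
  calc n < N := h
    _ < k ^ N := Nat.lt_pow_self (by omega)

theorem coeff_PK {k m n N : ℕ} (hk : 2 ≤ k) (h : n < N) :
    coeff n (PK k m N) = S k m n := by
  induction N with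
  | zero => omega
  | succ N ih =>
    rcases Nat.lt_or_ge n N with h1 | h1
    · rw [coeff_PK_succ hk h1, ih h1]
    · have : n = N := by omega
      subst this
      rfl

/-- the logarithmic derivative series -/
noncomputable def LK (k m N : ℕ) : ℤ⟦X⟧ :=
  (m : ℤ⟦X⟧) * (((1 : ℕ) : ℤ⟦X⟧) * (iv 1 - 1)) +
    ∑ i ∈ range N, ((m * (k - 1) : ℕ) : ℤ⟦X⟧) * (((k ^ i : ℕ) : ℤ⟦X⟧) * (iv (k ^ i) - 1))

theorem LD_PK {k m N : ℕ} (hk : 2 ≤ k) : LD (PK k m N) (LK k m N) := by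
  unfold PK LK
  apply LD_mul
  · exact LD_pow (LD_iv one_ne_zero) m
  · apply LD_prod
    intro i _
    exact LD_pow (LD_iv (by positivity)) _

theorem coeff_iv_sub_one {d : ℕ} (hd : d ≠ 0) {n : ℕ} (hn : n ≠ 0) :
    coeff n (iv d - 1) = if d ∣ n then 1 else 0 := by
  rw [map_sub, coeff_one, if_neg hn, sub_zero]
  have := coeff_iv_pow_succ hd 0 n
  rw [zero_add, pow_one] at this
  rw [this]
  simp

theorem coeff_iv_sub_one_zero {d : ℕ} (hd : d ≠ 0) : coeff 0 (iv d - 1) = 0 := by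
  have := coeff_iv_pow_succ hd 0 0
  rw [zero_add, pow_one] at this
  rw [map_sub, this]
  simp

theorem coeff_LK_zero {k m N : ℕ} (hk : 2 ≤ k) : coeff 0 (LK k m N) = 0 := by
  unfold LK
  rw [map_add, map_sum, ← nsmul_eq_mul, map_nsmul, ← nsmul_eq_mul, map_nsmul,
    coeff_iv_sub_one_zero one_ne_zero]
  rw [sum_eq_zero]
  · simp
  · intro i _
    rw [← nsmul_eq_mul, map_nsmul, ← nsmul_eq_mul, map_nsmul,
      coeff_iv_sub_one_zero (by positivity)]
    simp

/-- geometric sum -/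
theorem geom (k f : ℕ) (hk : 2 ≤ k) :
    1 + ∑ i ∈ range (f + 1), ((k - 1 : ℕ) : ℤ) * (k : ℤ) ^ i = (k : ℤ) ^ (f + 1) := by
  rw [← mul_sum]
  have := mul_geom_sum (k : ℤ) (f + 1)
  rw [Nat.cast_sub (by omega : 1 ≤ k), Nat.cast_one, this]
  ring

theorem coeff_LK {k m n N f : ℕ} (hk : 2 ≤ k) (hn : n ≠ 0) (hf : ∀ i, k ^ i ∣ n ↔ i ≤ f)
    (hN : n < N) :
    coeff n (LK k m N) = (m : ℤ) * (k : ℤ) ^ (f + 1) := by
  have hfN : f + 1 ≤ N := by
    have h1 : k ^ f ∣ n := (hf f).mpr le_rfl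
    have h2 : k ^ f ≤ n := Nat.le_of_dvd (Nat.pos_of_ne_zero hn) h1
    have h3 : f < k ^ f := Nat.lt_pow_self (by omega)
    omega
  unfold LK
  rw [map_add, map_sum, ← nsmul_eq_mul, map_nsmul, ← nsmul_eq_mul, map_nsmul,
    coeff_iv_sub_one one_ne_zero hn, if_pos (one_dvd n)]
  have h1 : ∑ i ∈ range N, coeff n (((m * (k - 1) : ℕ) : ℤ⟦X⟧) *
      (((k ^ i : ℕ) : ℤ⟦X⟧) * (iv (k ^ i) - 1))) =
      (m : ℤ) * ∑ i ∈ range (f + 1), ((k - 1 : ℕ) : ℤ) * (k : ℤ) ^ i := by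
    rw [mul_sum, ← sum_subset (range_mono hfN)]
    · apply sum_congr rfl
      intro i hi
      rw [mem_range] at hi
      rw [← nsmul_eq_mul, map_nsmul, ← nsmul_eq_mul, map_nsmul,
        coeff_iv_sub_one (by positivity) hn, if_pos ((hf i).mpr (by omega))]
      simp only [nsmul_eq_mul]
      push_cast
      ring
    · intro i _ hi
      rw [mem_range] at hi
      rw [← nsmul_eq_mul, map_nsmul, ← nsmul_eq_mul, map_nsmul,
        coeff_iv_sub_one (by positivity) hn, if_neg (fun h => hi (by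
          have := (hf i).mp h
          omega))]
      simp
  rw [h1, ← geom k f hk]
  simp only [nsmul_eq_mul]
  push_cast
  ring

/-- the basic recurrence -/
theorem rec {k m : ℕ} (hk : 2 ≤ k) (g : ℕ → ℤ) (hg0 : g 0 = 0)
    (hg : ∀ n, n ≠ 0 → ∃ f, (∀ i, k ^ i ∣ n ↔ i ≤ f) ∧ g n = (m : ℤ) * (k : ℤ) ^ (f + 1))
    (n : ℕ) :
    (n : ℤ) * S k m n = ∑ x ∈ antidiagonal n, S k m x.1 * g x.2 := by
  have h := LD_PK (k := k) (m := m) (N := n + 1) hk
  unfold LD at h
  have h1 := congrArg (coeff n) h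
  rw [coeff_th, coeff_mul] at h1
  rw [coeff_PK hk (Nat.lt_succ_self n)] at h1
  rw [h1]
  apply sum_congr rfl
  intro x hx
  rw [HasAntidiagonal.mem_antidiagonal] at hx
  rw [coeff_PK hk (by omega : x.1 < n + 1)]
  congr 1
  rcases Nat.eq_zero_or_pos x.2 with h0 | h0
  · rw [h0, coeff_LK_zero hk, hg0]
  · obtain ⟨f, hf, hgf⟩ := hg x.2 (by omega)
    rw [coeff_LK hk (by omega) hf (by omega), hgf]

theorem S_zero {k m : ℕ} (hk : 2 ≤ k) : S k m 0 = 1 := by
  unfold S PK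
  have h : ∀ d : ℕ, d ≠ 0 → ∀ r, coeff 0 (iv d ^ r) = 1 := by
    intro d hd r
    rw [coeff_zero_eq_constantCoeff_apply, map_pow, ← coeff_zero_eq_constantCoeff_apply]
    have := coeff_iv_pow_succ hd 0 0
    rw [zero_add, pow_one] at this
    rw [this]
    simp
  rw [zero_add, prod_range_one, coeff_zero_eq_constantCoeff_apply, map_mul,
    ← coeff_zero_eq_constantCoeff_apply, ← coeff_zero_eq_constantCoeff_apply,
    h 1 one_ne_zero, h (k ^ 0) (by positivity)]
  simp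

end Pool.Agent.R443.SK
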