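import Pool.Agent.R443.SKfun
import Pool.Agent.R443.SKval2

/-!
# The case `k = 4`, `m ≡ 2 (mod 8)`
-/

set_option autoImplicit false

namespace Pool.Agent.R443.SK

open PowerSeries Finset
open Pool.Agent.R443.PS

theorem CsB (s : ℕ) : ∃ R : ℤ⟦X⟧, Cs ^ (2 * (4 * s + 1)) =
    1 + 8 * ((4 * s + 1 : ℕ) : ℤ⟦X⟧) * ka + 16 * ((4 * s + 1 : ℕ) : ℤ⟦X⟧) * ka ^ 2 +
      4 * ((4 * s + 1 : ℕ) : ℤ⟦X⟧) * ka2 + 32 * R := by
  have hA : ∃ A : ℤ⟦X⟧, ((1 + 4 * ka) ^ 2) ^ (4 * s + 1) =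
      1 + 8 * ((4 * s + 1 : ℕ) : ℤ⟦X⟧) * ka + 16 * ((4 * s + 1 : ℕ) : ℤ⟦X⟧) * ka ^ 2
        + 32 * A := by
    obtain ⟨r, hr⟩ := one_add_pow (8 * ka + 16 * ka ^ 2) (4 * s + 1)
    refine ⟨2 * (ka + 2 * ka ^ 2) ^ 2 * r, ?_⟩
    have : (1 + 4 * ka) ^ 2 = 1 + (8 * ka + 16 * ka ^ 2) := by ring
    rw [this, hr]
    ring
  have hB : ∃ B : ℤ⟦X⟧, (1 + 4 * ka2) ^ (4 * s + 1) =
      1 + 4 * ((4 * s + 1 : ℕ) : ℤ⟦X⟧) * ka2 + 32 * B := by
    obtain ⟨r, hr⟩ := one_add_pow (16 * ka2 + 32 * (3 * ka2 ^ 2 + 8 * ka2 ^ 3 + 8 * ka2 ^ 4)) s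
    refine ⟨2 * s * ka2 ^ 2 + s * (3 * ka2 ^ 2 + 8 * ka2 ^ 3 + 8 * ka2 ^ 4) * (1 + 4 * ka2) +
      (1 + 4 * ka2) * (8 * (ka2 + 2 * (3 * ka2 ^ 2 + 8 * ka2 ^ 3 + 8 * ka2 ^ 4)) ^ 2 * r), ?_⟩
    have : (1 + 4 * ka2) ^ 4 =
      1 + (16 * ka2 + 32 * (3 * ka2 ^ 2 + 8 * ka2 ^ 3 + 8 * ka2 ^ 4)) := by ring
    rw [pow_succ, pow_mul, this, hr]
    push_cast
    ring
  obtain ⟨A, hA⟩ := hA
  obtain ⟨B, hB⟩ := hB
  refine ⟨A * (1 + 4 * ((4 * s + 1 : ℕ) : ℤ⟦X⟧) * ka2 + 32 * B) +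
    B * (1 + 8 * ((4 * s + 1 : ℕ) : ℤ⟦X⟧) * ka + 16 * ((4 * s + 1 : ℕ) : ℤ⟦X⟧) * ka ^ 2) +
    ((4 * s + 1 : ℕ) : ℤ⟦X⟧) ^ 2 * ka * ka2 +
    2 * ((4 * s + 1 : ℕ) : ℤ⟦X⟧) ^ 2 * ka ^ 2 * ka2, ?_⟩
  rw [pow_mul, Cs_sq, mul_pow, hA, hB]
  ring

theorem six_choose (n : ℕ) : 6 * ((Nat.choose (n + 1) 3 : ℕ) : ℤ) = (n : ℤ) ^ 3 - n := by
  induction n with
  | zero => simp [Nat.choose]
  | succ n ih =>
    have h2 : 2 * ((Nat.choose (n + 1) 2 : ℕ) : ℤ) = ((n : ℤ) + 1) * n := by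
      have := Nat.triangle_succ n
      rw [Nat.choose_two_right, Nat.add_sub_cancel]
      have h3 : 2 ∣ (n + 1) * n := by
        rw [mul_comm]
        exact (Nat.even_mul_succ_self n).two_dvd
      have h4 := Nat.div_mul_cancel h3
      have h5 : (((n + 1) * n / 2 : ℕ) : ℤ) * 2 = (((n + 1) * n : ℕ) : ℤ) := by exact_mod_cast h4
      push_cast at h5 ⊢
      linarith
    rw [Nat.choose_succ_succ]
    push_cast
    linear_combination ih + 3 * h2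

theorem choose_even_odd {n : ℕ} (h : n % 2 = 1) : (2 : ℤ) ∣ ((Nat.choose (n + 1) 3 : ℕ) : ℤ) := by
  have h1 := six_choose n
  obtain ⟨j, rfl⟩ : ∃ j, n = 2 * j + 1 := ⟨n / 2, by omega⟩
  obtain ⟨e, he⟩ := (Nat.even_mul_succ_self j)
  have he2 : (j : ℤ) * (j + 1) = 2 * e := by
    have : ((j * (j + 1) : ℕ) : ℤ) = ((e + e : ℕ) : ℤ) := by exact_mod_cast he
    push_cast at this
    linarith
  push_cast at h1
  have h2 : 6 * ((Nat.choose (2 * j + 1 + 1) 3 : ℕ) : ℤ) = 8 * (e * (2 * j + 1)) := by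
    linear_combination h1 + 4 * (2 * (j : ℤ) + 1) * he2
  omega

theorem choose_even_four (l : ℕ) : (2 : ℤ) ∣ ((Nat.choose (4 * l + 1) 3 : ℕ) : ℤ) := by
  have h1 := six_choose (4 * l)
  push_cast at h1
  have h2 : 6 * ((Nat.choose (4 * l + 1) 3 : ℕ) : ℤ) = 4 * (16 * (l : ℤ) ^ 3 - l) := by
    linear_combination h1
  omega

theorem coeff_CsB (s : ℕ) : ∃ R : ℤ⟦X⟧, ∀ n, n ≠ 0 → coeff n (Cs ^ (2 * (4 * s + 1))) =
    8 * (4 * (s : ℤ) + 1) * n + 16 * (4 * (s : ℤ) + 1) * ((Nat.choose (n + 1) 3 : ℕ) : ℤ) +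
      4 * (4 * (s : ℤ) + 1) * (if 2 ∣ n then ((n / 2 : ℕ) : ℤ) else 0) + 32 * coeff n R := by
  obtain ⟨R, hR⟩ := CsB s
  refine ⟨R, fun n hn => ?_⟩
  have e1 : (8 * ((4 * s + 1 : ℕ) : ℤ⟦X⟧) * ka) = (8 * (4 * s + 1) : ℕ) • ka := by
    rw [nsmul_eq_mul]
    push_cast
    ring
  have e2 : (16 * ((4 * s + 1 : ℕ) : ℤ⟦X⟧) * ka ^ 2) = (16 * (4 * s + 1) : ℕ) • ka ^ 2 := by
    rw [nsmul_eq_mul]
    push_cast
    ring
  have e3 : (4 * ((4 * s + 1 : ℕ) : ℤ⟦X⟧) * ka2) = (4 * (4 * s + 1) : ℕ) • ka2 := by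
    rw [nsmul_eq_mul]
    push_cast
    ring
  have e4 : (32 * R) = (32 : ℕ) • R := by
    rw [nsmul_eq_mul]
    norm_num
  rw [hR, e1, e2, e3, e4, map_add, map_add, map_add, map_add, map_nsmul, map_nsmul, map_nsmul,
    map_nsmul, coeff_ka, coeff_ka_sq, coeff_ka2, coeff_one, if_neg hn]
  simp only [nsmul_eq_mul]
  generalize (if 2 ∣ n then ((n / 2 : ℕ) : ℤ) else 0) = w
  push_cast
  ring

theorem coeff_zero_Cs_pow (m : ℕ) : coeff 0 (Cs ^ m) = 1 := by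
  have h := S_fun m 0
  have h0 : S 4 m 0 = 1 := S_zero (by norm_num)
  rw [show 0 / 4 + 1 = 1 from rfl, sum_range_one, h0] at h
  simpa using h.symm

/-- structure of the coefficients for `m = 2 (4 s + 1)` -/
theorem caseB_odd (s n : ℕ) (hn : n % 2 = 1) :
    (32 : ℤ) ∣ S 4 (2 * (4 * s + 1)) n - 8 * (4 * (s : ℤ) + 1) * n := by
  obtain ⟨R, hR⟩ := coeff_CsB s
  rw [S_fun, sum_range_succ']
  have h0 : S 4 (2 * (4 * s + 1)) 0 = 1 := S_zero (by norm_num)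
  rw [h0, one_mul, mul_zero, Nat.sub_zero, hR n (by omega), if_neg (by omega)]
  obtain ⟨c, hc⟩ := choose_even_odd hn
  rw [hc]
  have h1 : (32 : ℤ) ∣ ∑ k ∈ range (n / 4), S 4 (2 * (4 * s + 1)) (k + 1) *
      coeff (n - 4 * (k + 1)) (Cs ^ (2 * (4 * s + 1))) := by
    apply dvd_sum
    intro k hk
    rw [mem_range] at hk
    rw [hR _ (by omega), if_neg (by omega)]
    have h2 : (4 : ℤ) ∣ S 4 (2 * (4 * s + 1)) (k + 1) := by
      have h3 := even_val (m := 2 * (4 * s + 1)) (n := k + 1) (by omega) (by omega) (by omega)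
      have h4 : 1 ≤ padicValNat 2 (2 * (4 * s + 1)) :=
        one_le_padicValNat_of_dvd (by omega) (by omega)
      have h5 : (4 : ℤ) ∣ (2 : ℤ) ^ (padicValNat 2 (2 * (4 * s + 1)) + 1) := by
        have : (4 : ℤ) = 2 ^ 2 := by norm_num
        rw [this]
        exact pow_dvd_pow 2 (by omega)
      rcases Nat.mod_two_eq_zero_or_one (padicValNat 2 (k + 1)) with h | h
      · exact dvd_trans h5 (dvd_trans (pow_dvd_pow 2 (by omega)) (h3.2 h))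
      · exact dvd_trans h5 (h3.1 h).1
    obtain ⟨d, hd⟩ := h2
    rw [hd]
    obtain ⟨c', hc'⟩ := choose_even_odd (n := n - 4 * (k + 1)) (by omega)
    rw [hc']
    refine ⟨d * ((4 * (s : ℤ) + 1) * ((n - 4 * (k + 1) : ℕ) : ℤ) + 4 * (4 * (s : ℤ) + 1) * c' +
      4 * coeff (n - 4 * (k + 1)) R), ?_⟩
    ring
  obtain ⟨e, he⟩ := h1
  rw [he]
  refine ⟨e + (4 * (s : ℤ) + 1) * c + coeff n R, ?_⟩
  ring

theorem caseB_four (s l : ℕ) (hl : l ≠ 0) :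
    (32 : ℤ) ∣ S 4 (2 * (4 * s + 1)) (4 * l) -
      (8 * (4 * (s : ℤ) + 1) * l + S 4 (2 * (4 * s + 1)) l) := by
  obtain ⟨R, hR⟩ := coeff_CsB s
  rw [S_fun (2 * (4 * s + 1)) (4 * l), Nat.mul_div_cancel_left l (by norm_num), sum_range_succ]
  obtain ⟨l, rfl⟩ : ∃ j, l = j + 1 := ⟨l - 1, by omega⟩
  rw [sum_range_succ']
  have h0 : S 4 (2 * (4 * s + 1)) 0 = 1 := S_zero (by norm_num)
  rw [h0, one_mul, mul_zero, Nat.sub_zero, hR (4 * (l + 1)) (by omega), if_pos (by omega),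
    Nat.sub_self, coeff_zero_Cs_pow, mul_one]
  obtain ⟨c, hc⟩ := choose_even_four (l + 1)
  rw [hc]
  have h6 : 4 * (l + 1) / 2 = 2 * (l + 1) := by omega
  rw [h6]
  have h1 : (32 : ℤ) ∣ ∑ k ∈ range l, S 4 (2 * (4 * s + 1)) (k + 1) *
      coeff (4 * (l + 1) - 4 * (k + 1)) (Cs ^ (2 * (4 * s + 1))) := by
    apply dvd_sum
    intro k hk
    rw [mem_range] at hk
    rw [hR _ (by omega), if_pos (by omega)]
    have h2 : (4 : ℤ) ∣ S 4 (2 * (4 * s + 1)) (k + 1) := by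
      have h3 := even_val (m := 2 * (4 * s + 1)) (n := k + 1) (by omega) (by omega) (by omega)
      have h4 : 1 ≤ padicValNat 2 (2 * (4 * s + 1)) :=
        one_le_padicValNat_of_dvd (by omega) (by omega)
      have h5 : (4 : ℤ) ∣ (2 : ℤ) ^ (padicValNat 2 (2 * (4 * s + 1)) + 1) := by
        have : (4 : ℤ) = 2 ^ 2 := by norm_num
        rw [this]
        exact pow_dvd_pow 2 (by omega)
      rcases Nat.mod_two_eq_zero_or_one (padicValNat 2 (k + 1)) with h | h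
      · exact dvd_trans h5 (dvd_trans (pow_dvd_pow 2 (by omega)) (h3.2 h))
      · exact dvd_trans h5 (h3.1 h).1
    obtain ⟨d, hd⟩ := h2
    rw [hd]
    have h7 : 4 * (l + 1) - 4 * (k + 1) = 4 * (l - k) := by omega
    rw [h7]
    obtain ⟨c', hc'⟩ := choose_even_four (l - k)
    rw [hc']
    have h8 : 4 * (l - k) / 2 = 2 * (l - k) := by omega
    rw [h8]
    generalize l - k = w
    refine ⟨d * ((4 * (s : ℤ) + 1) * (4 * w) + 4 * (4 * (s : ℤ) + 1) * c' +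
      (4 * (s : ℤ) + 1) * w + 4 * coeff (4 * w) R), ?_⟩
    push_cast
    ring
  obtain ⟨e, he⟩ := h1
  rw [he]
  refine ⟨e + (4 * (s : ℤ) + 1) * (l + 1) + (4 * (s : ℤ) + 1) * c + coeff (4 * (l + 1)) R, ?_⟩
  push_cast
  ring

theorem caseB_pow (s n a : ℕ) (hn : n % 2 = 1) :
    (32 : ℤ) ∣ S 4 (2 * (4 * s + 1)) (4 ^ (a + 1) * n) - 16 := by
  induction a with
  | zero =>
    rw [zero_add, pow_one]
    have h1 := caseB_odd s n hn
    have h2 := caseB_four s n (by omega)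
    obtain ⟨a, ha⟩ := h1
    obtain ⟨b, hb⟩ := h2
    obtain ⟨j, rfl⟩ : ∃ j, n = 2 * j + 1 := ⟨n / 2, by omega⟩
    refine ⟨b + a + (4 * (s : ℤ) * j + 2 * s + j), ?_⟩
    push_cast at ha hb ⊢
    linear_combination hb + ha
  | succ a ih =>
    have h2 := caseB_four s (4 ^ (a + 1) * n) (by
      have : 0 < 4 ^ (a + 1) * n := by
        have : 0 < n := by omega
        positivity
      omega)
    rw [← mul_assoc, ← pow_succ'] at h2
    obtain ⟨a', ha⟩ := ih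
    obtain ⟨b, hb⟩ := h2
    refine ⟨b + a' + (4 * (s : ℤ) + 1) * 4 ^ a * n, ?_⟩
    push_cast at ha hb ⊢
    linear_combination hb + ha

theorem caseB_val (s n : ℕ) (hn : n ≠ 0) :
    padicValInt 2 (S 4 (2 * (4 * s + 1)) n) =
      if padicValNat 2 n % 2 = 1 then 2 else if padicValNat 2 n = 0 then 3 else 4 := by
  have hkey : ∀ (z : ℤ) (t : ℕ), (2 : ℤ) ^ t ∣ z → ¬ (2 : ℤ) ^ (t + 1) ∣ z →
      padicValInt 2 z = t := by
    intro z t h1 h2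
    have : Fact (Nat.Prime 2) := ⟨Nat.prime_two⟩
    have hz : z ≠ 0 := fun h => h2 (h ▸ dvd_zero _)
    have h3 : t ≤ padicValInt 2 z := by
      rcases (padicValInt_dvd_iff (p := 2) t z).mp (by exact_mod_cast h1) with h | h
      · exact absurd h hz
      · exact h
    have h4 : ¬ t + 1 ≤ padicValInt 2 z := by
      intro h
      exact h2 (by exact_mod_cast (padicValInt_dvd_iff (p := 2) (t + 1) z).mpr (Or.inr h))
    omega
  have hm1 : padicValNat 2 (2 * (4 * s + 1)) = 1 := by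
    have : Fact (Nat.Prime 2) := ⟨Nat.prime_two⟩
    rw [padicValNat.mul (by norm_num) (by omega), padicValNat.self (by norm_num),
      padicValNat.eq_zero_of_not_dvd (by omega)]
  have hev := even_val (m := 2 * (4 * s + 1)) (n := n) (by omega) (by omega) hn
  rw [hm1] at hev
  split_ifs with h1 h2
  · exact hkey _ 2 (hev.1 h1).1 (hev.1 h1).2
  · have hodd : n % 2 = 1 := by
      by_contra h
      have h3 : 2 ∣ n := by omega
      have : Fact (Nat.Prime 2) := ⟨Nat.prime_two⟩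
      have := one_le_padicValNat_of_dvd hn h3
      omega
    obtain ⟨c, hc⟩ := caseB_odd s n hodd
    obtain ⟨j, rfl⟩ : ∃ j, n = 2 * j + 1 := ⟨n / 2, by omega⟩
    have h4 : S 4 (2 * (4 * s + 1)) (2 * j + 1) =
        8 + 16 * (2 * c + (4 * s * j + 2 * s + j)) := by
      push_cast at hc
      linear_combination hc
    apply hkey _ 3
    · rw [h4]
      refine ⟨1 + 2 * (2 * c + (4 * s * j + 2 * s + j)), ?_⟩
      ring
    · rw [h4]
      intro h5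
      have h6 : (16 : ℤ) ∣ 8 := by
        have h7 : (2 : ℤ) ^ (3 + 1) = 16 := by norm_num
        rw [h7] at h5
        exact (dvd_add_left (dvd_mul_right 16 _)).mp h5
      norm_num at h6
  · have h3 : padicValNat 2 n % 2 = 0 := by omega
    obtain ⟨a, ha⟩ : ∃ a, padicValNat 2 n = 2 * (a + 1) := ⟨padicValNat 2 n / 2 - 1, by omega⟩
    obtain ⟨n', hn'⟩ : 2 ^ padicValNat 2 n ∣ n := pow_padicValNat_dvd
    have hodd : n' % 2 = 1 := by
      by_contra h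
      obtain ⟨w, rfl⟩ : 2 ∣ n' := by omega
      have : Fact (Nat.Prime 2) := ⟨Nat.prime_two⟩
      have h4 : 2 ^ (padicValNat 2 n + 1) ∣ n := ⟨w, by
        rw [pow_succ]
        nth_rewrite 1 [hn']
        ring⟩
      have := (padicValNat_dvd_iff_le hn).mp h4
      omega
    have h4 : n = 4 ^ (a + 1) * n' := by
      have : (4 : ℕ) ^ (a + 1) = 2 ^ padicValNat 2 n := by
        rw [ha, pow_mul]
        norm_num
      rw [this]
      exact hn'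
    obtain ⟨c, hc⟩ := caseB_pow s n' a hodd
    rw [← h4] at hc
    have h5 : S 4 (2 * (4 * s + 1)) n = 16 + 32 * c := by linear_combination hc
    apply hkey _ 4
    · rw [h5]
      exact ⟨1 + 2 * c, by ring⟩
    · rw [h5]
      intro h6
      have h7 : (32 : ℤ) ∣ 16 := by
        have h8 : (2 : ℤ) ^ (4 + 1) = 32 := by norm_num
        rw [h8] at h6
        exact (dvd_add_left (dvd_mul_right 32 _)).mp h6
      norm_num at h7

end Pool.Agent.R443.SK
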