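import Pool.Agent.R443.SKb

/-!
# The case `k = 4`, `m` odd
-/

set_option autoImplicit false

namespace Pool.Agent.R443.SK

open PowerSeries Finset
open Pool.Agent.R443.PS

noncomputable def P3 (N : ℕ) : ℤ⟦X⟧ := ∏ i ∈ range N, (1 - X ^ (4 ^ i)) ^ 3

noncomputable def TT (N : ℕ) : ℤ⟦X⟧ := (1 - X) * P3 N

theorem P3_succ (N : ℕ) : P3 (N + 1) = expand 4 (by norm_num) (P3 N) * (1 - X) ^ 3 := by
  unfold P3
  rw [prod_range_succ', map_prod]
  have h1 : ∀ i ∈ range N, expand 4 (by norm_num) ((1 - X ^ (4 ^ i) : ℤ⟦X⟧) ^ 3) =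
      (1 - X ^ (4 ^ (i + 1))) ^ 3 := by
    intro i _
    rw [map_pow, map_sub, map_one, map_pow, expand_X, ← pow_mul, pow_succ 4 i,
      mul_comm (4 ^ i) 4]
  rw [prod_congr rfl h1, pow_zero, pow_one]

theorem TT_PK (m N : ℕ) : PK 4 m N = TT N * PK 4 (m + 1) N := by
  unfold TT P3 PK
  have h1 : ∀ i ∈ range N, iv (4 ^ i) ^ (m * (4 - 1)) =
      (1 - X ^ (4 ^ i)) ^ 3 * iv (4 ^ i) ^ ((m + 1) * (4 - 1)) := by
    intro i _
    have h2 : ((1 : ℤ⟦X⟧) - X ^ (4 ^ i)) * iv (4 ^ i) = 1 := mul_iv (by positivity)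
    calc iv (4 ^ i) ^ (m * (4 - 1))
        = (((1 : ℤ⟦X⟧) - X ^ (4 ^ i)) * iv (4 ^ i)) ^ 3 * iv (4 ^ i) ^ (m * (4 - 1)) := by
          rw [h2, one_pow, one_mul]
      _ = _ := by
          norm_num
          ring
  rw [prod_congr rfl h1, prod_mul_distrib]
  have h3 : (1 - X : ℤ⟦X⟧) * iv 1 = 1 := by
    have := mul_iv one_ne_zero
    rwa [pow_one] at this
  rw [pow_succ (iv 1) m]
  linear_combination (-(iv 1 ^ m * (∏ x ∈ range N, (1 - X ^ 4 ^ x) ^ 3) *
    (∏ i ∈ range N, iv (4 ^ i) ^ ((m + 1) * (4 - 1))))) * h3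

theorem coeff_cube (r : ℕ) : coeff r ((1 - X : ℤ⟦X⟧) ^ 3) =
    if r = 0 then 1 else if r = 1 then -3 else if r = 2 then 3 else if r = 3 then -1 else 0 := by
  have h1 : (1 - X : ℤ⟦X⟧) ^ 3 = 1 - (3 : ℕ) • X ^ 1 + (3 : ℕ) • X ^ 2 - X ^ 3 := by
    simp only [nsmul_eq_mul]
    push_cast
    ring
  rw [h1, map_sub, map_add, map_sub, map_nsmul, map_nsmul, coeff_one, coeff_X_pow, coeff_X_pow,
    coeff_X_pow]
  rcases r with _ | _ | _ | _ | r
  · simp
  · simp
  · simp
  · simp
  · simp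

theorem coeff_P3_succ (N j r : ℕ) (hr : r < 4) :
    coeff (4 * j + r) (P3 (N + 1)) = coeff r ((1 - X : ℤ⟦X⟧) ^ 3) * coeff j (P3 N) := by
  rw [P3_succ, coeff_expand_mul']
  have h1 : (4 * j + r) / 4 = j := by omega
  rw [h1, sum_range_succ]
  have h2 : 4 * j + r - 4 * j = r := by omega
  rw [h2]
  rw [sum_eq_zero, zero_add, mul_comm]
  intro b hb
  rw [mem_range] at hb
  rw [coeff_cube, if_neg (by omega), if_neg (by omega), if_neg (by omega), if_neg (by omega),
    mul_zero]

theorem P3_odd (N n : ℕ) (hn : n < 4 ^ N) : coeff n (P3 N) % 2 = 1 := by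
  induction N generalizing n with
  | zero =>
    have : n = 0 := by simpa using hn
    subst this
    simp [P3]
  | succ N ih =>
    obtain ⟨j, r, hr, rfl⟩ : ∃ j r, r < 4 ∧ n = 4 * j + r :=
      ⟨n / 4, n % 4, Nat.mod_lt _ (by norm_num), by omega⟩
    have hj : j < 4 ^ N := by
      rw [pow_succ] at hn
      omega
    rw [coeff_P3_succ N j r hr, coeff_cube]
    have := ih j hj
    split_ifs with h1 h2 h3 h4
    · omega
    · omega
    · omega
    · omega
    · omega

/-- the pattern of residues, according to `v mod 4` -/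
def Q (v : ℕ) (z : ℤ) : Prop :=
  (v % 4 = 0 → z % 8 = 4) ∧ (v % 4 = 1 → z % 4 = 2) ∧ (v % 4 = 2 → z % 4 = 2) ∧
    (v % 4 = 3 → z = 0)

theorem nu_four_mul {j : ℕ} (hj : j ≠ 0) : padicValNat 2 (4 * j) = padicValNat 2 j + 2 := by
  have : Fact (Nat.Prime 2) := ⟨Nat.prime_two⟩
  rw [padicValNat.mul (by norm_num) hj, show (4 : ℕ) = 2 ^ 2 by norm_num, padicValNat.prime_pow]
  omega

theorem nu_odd {n : ℕ} (hn : n % 2 = 1) : padicValNat 2 n = 0 :=
  padicValNat.eq_zero_of_not_dvd (by omega)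

theorem nu_two_mod {j : ℕ} : padicValNat 2 (4 * j + 2) = 1 := by
  have : Fact (Nat.Prime 2) := ⟨Nat.prime_two⟩
  rw [show 4 * j + 2 = 2 * (2 * j + 1) by ring, padicValNat.mul (by norm_num) (by omega),
    padicValNat.self (by norm_num), padicValNat.eq_zero_of_not_dvd (by omega)]

theorem pattern (N n : ℕ) (hn : n < 4 ^ N) (h0 : n ≠ 0) :
    Q (padicValNat 2 n) (coeff n (P3 N) - coeff (n - 1) (P3 N)) ∧
      Q (padicValNat 2 n + 2) (coeff n (P3 N) + coeff (n - 1) (P3 N)) := by
  induction N generalizing n with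
  | zero =>
    have : n = 0 := by simpa using hn
    exact absurd this h0
  | succ N ih =>
    obtain ⟨j, r, hr, rfl⟩ : ∃ j r, r < 4 ∧ n = 4 * j + r :=
      ⟨n / 4, n % 4, Nat.mod_lt _ (by norm_num), by omega⟩
    have hj : j < 4 ^ N := by
      rw [pow_succ] at hn
      omega
    have hodd := P3_odd N j hj
    rcases r with _ | _ | _ | _ | r
    · have hj0 : j ≠ 0 := by omega
      have e1 : coeff (4 * j + 0) (P3 (N + 1)) = coeff j (P3 N) := by
        rw [coeff_P3_succ N j 0 (by norm_num), coeff_cube]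
        simp
      have e2 : coeff (4 * j + 0 - 1) (P3 (N + 1)) = - coeff (j - 1) (P3 N) := by
        have : 4 * j + 0 - 1 = 4 * (j - 1) + 3 := by omega
        rw [this, coeff_P3_succ N (j - 1) 3 (by norm_num), coeff_cube]
        simp
      rw [e1, e2, add_zero, nu_four_mul hj0]
      obtain ⟨h1, h2⟩ := ih j hj hj0
      constructor
      · have : coeff j (P3 N) - -coeff (j - 1) (P3 N) =
          coeff j (P3 N) + coeff (j - 1) (P3 N) := by ring
        rw [this]
        exact h2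
      · have : coeff j (P3 N) + -coeff (j - 1) (P3 N) =
          coeff j (P3 N) - coeff (j - 1) (P3 N) := by ring
        rw [this]
        unfold Q at h1 ⊢
        refine ⟨fun h => h1.1 (by omega), fun h => h1.2.1 (by omega),
          fun h => h1.2.2.1 (by omega), fun h => h1.2.2.2 (by omega)⟩
    · have e1 : coeff (4 * j + (0 + 1)) (P3 (N + 1)) = -3 * coeff j (P3 N) := by
        rw [coeff_P3_succ N j (0 + 1) (by norm_num), coeff_cube]
        simp
      have e2 : coeff (4 * j + (0 + 1) - 1) (P3 (N + 1)) = coeff j (P3 N) := by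
        have : 4 * j + (0 + 1) - 1 = 4 * j + 0 := by omega
        rw [this, coeff_P3_succ N j 0 (by norm_num), coeff_cube]
        simp
      rw [e1, e2, nu_odd (by omega)]
      unfold Q
      refine ⟨⟨fun _ => by omega, fun h => by omega, fun h => by omega, fun h => by omega⟩,
        ⟨fun h => by omega, fun h => by omega, fun _ => by omega, fun h => by omega⟩⟩
    · have e1 : coeff (4 * j + (0 + 1 + 1)) (P3 (N + 1)) = 3 * coeff j (P3 N) := by
        rw [coeff_P3_succ N j (0 + 1 + 1) (by norm_num), coeff_cube]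
        simp
      have e2 : coeff (4 * j + (0 + 1 + 1) - 1) (P3 (N + 1)) = -3 * coeff j (P3 N) := by
        have : 4 * j + (0 + 1 + 1) - 1 = 4 * j + 1 := by omega
        rw [this, coeff_P3_succ N j 1 (by norm_num), coeff_cube]
        simp
      rw [e1, e2, show 4 * j + (0 + 1 + 1) = 4 * j + 2 from rfl, nu_two_mod]
      unfold Q
      refine ⟨⟨fun h => by omega, fun _ => by omega, fun h => by omega, fun h => by omega⟩,
        ⟨fun h => by omega, fun h => by omega, fun h => by omega, fun _ => by omega⟩⟩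
    · have e1 : coeff (4 * j + (0 + 1 + 1 + 1)) (P3 (N + 1)) = - coeff j (P3 N) := by
        rw [coeff_P3_succ N j (0 + 1 + 1 + 1) (by norm_num), coeff_cube]
        simp
      have e2 : coeff (4 * j + (0 + 1 + 1 + 1) - 1) (P3 (N + 1)) = 3 * coeff j (P3 N) := by
        have : 4 * j + (0 + 1 + 1 + 1) - 1 = 4 * j + 2 := by omega
        rw [this, coeff_P3_succ N j 2 (by norm_num), coeff_cube]
        simp
      rw [e1, e2, nu_odd (by omega)]
      unfold Q
      refine ⟨⟨fun _ => by omega, fun h => by omega, fun h => by omega, fun h => by omega⟩,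
        ⟨fun h => by omega, fun h => by omega, fun _ => by omega, fun h => by omega⟩⟩
    · omega

theorem coeff_TT (N n : ℕ) (h0 : n ≠ 0) :
    coeff n (TT N) = coeff n (P3 N) - coeff (n - 1) (P3 N) := by
  obtain ⟨j, rfl⟩ : ∃ j, n = j + 1 := ⟨n - 1, by omega⟩
  unfold TT
  rw [sub_mul, one_mul, map_sub, coeff_succ_X_mul]
  simp

theorem coeff_TT_zero (N : ℕ) : coeff 0 (TT N) = 1 := by
  unfold TT P3
  rw [coeff_zero_eq_constantCoeff_apply, map_mul, map_prod]
  simp

/-- the decomposition of `S_m` for `m` odd -/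
theorem S_odd_decomp {m n : ℕ} (hm : m % 2 = 1) (hn : n ≠ 0) :
    ∃ z : ℤ, Q (padicValNat 2 n) z ∧
      (2 : ℤ) ^ (padicValNat 2 (m + 1) + 2) ∣ S 4 m n - z - S 4 (m + 1) n := by
  have : Fact (Nat.Prime 2) := ⟨Nat.prime_two⟩
  have hlt : n < 4 ^ (n + 1) := lt_of_lt_of_le (Nat.lt_succ_self n)
    (Nat.lt_pow_self (by norm_num)).le
  refine ⟨coeff n (TT (n + 1)), ?_, ?_⟩
  · rw [coeff_TT _ _ hn]
    exact (pattern (n + 1) n hlt hn).1
  · have h1 : S 4 m n = ∑ x ∈ antidiagonal n, coeff x.1 (TT (n + 1)) * S 4 (m + 1) x.2 := by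
      have h2 := TT_PK m (n + 1)
      have h3 := congrArg (coeff n) h2
      rw [coeff_PK (by norm_num) (by omega), coeff_mul] at h3
      rw [h3]
      apply sum_congr rfl
      intro x hx
      rw [HasAntidiagonal.mem_antidiagonal] at hx
      rw [coeff_PK (by norm_num) (by omega)]
    rw [Finset.Nat.sum_antidiagonal_eq_sum_range_succ_mk] at h1
    simp only at h1
    rw [sum_range_succ] at h1
    obtain ⟨n', rfl⟩ : ∃ j, n = j + 1 := ⟨n - 1, by omega⟩
    rw [sum_range_succ', Nat.sub_self, S_zero (by norm_num), mul_one, Nat.sub_zero,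
      coeff_TT_zero, one_mul] at h1
    rw [h1]
    have h4 : (2 : ℤ) ^ (padicValNat 2 (m + 1) + 2) ∣
        ∑ k ∈ range n', coeff (k + 1) (TT (n' + 1 + 1)) * S 4 (m + 1) (n' + 1 - (k + 1)) := by
      apply dvd_sum
      intro k hk
      rw [mem_range] at hk
      have h5 : (2 : ℤ) ∣ coeff (k + 1) (TT (n' + 1 + 1)) := by
        have hlt2 : k + 1 < 4 ^ (n' + 1 + 1) := by omega
        have h6 := (pattern (n' + 1 + 1) (k + 1) hlt2 (by omega)).1
        rw [← coeff_TT _ _ (by omega)] at h6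
        unfold Q at h6
        have h7 : padicValNat 2 (k + 1) % 4 < 4 := Nat.mod_lt _ (by norm_num)
        obtain ⟨q0, q1, q2, q3⟩ := h6
        rcases (by omega : padicValNat 2 (k + 1) % 4 = 0 ∨ padicValNat 2 (k + 1) % 4 = 1 ∨
          padicValNat 2 (k + 1) % 4 = 2 ∨ padicValNat 2 (k + 1) % 4 = 3) with h | h | h | h
        · have := q0 h
          omega
        · have := q1 h
          omega
        · have := q2 h
          omega
        · have := q3 h
          omega
      have h8 : (2 : ℤ) ^ (padicValNat 2 (m + 1) + 1) ∣ S 4 (m + 1) (n' + 1 - (k + 1)) := by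
        have h9 := even_val (m := m + 1) (n := n' + 1 - (k + 1)) (by omega) (by omega) (by omega)
        rcases Nat.mod_two_eq_zero_or_one (padicValNat 2 (n' + 1 - (k + 1))) with h | h
        · exact dvd_trans (pow_dvd_pow 2 (by omega)) (h9.2 h)
        · exact (h9.1 h).1
      have h10 := mul_dvd_mul h5 h8
      rw [← pow_succ'] at h10
      exact h10
    obtain ⟨c, hc⟩ := h4
    rw [hc]
    refine ⟨c, by ring⟩

theorem val_of_dvd {z : ℤ} {t : ℕ} (h1 : (2 : ℤ) ^ t ∣ z) (h2 : ¬ (2 : ℤ) ^ (t + 1) ∣ z) :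
    padicValInt 2 z = t := by
  have : Fact (Nat.Prime 2) := ⟨Nat.prime_two⟩
  have hz : z ≠ 0 := fun h => h2 (h ▸ dvd_zero _)
  have h3 : t ≤ padicValInt 2 z := by
    rcases (padicValInt_dvd_iff (p := 2) t z).mp (by exact_mod_cast h1) with h | h
    · exact absurd h hz
    · exact h
  have h4 : ¬ t + 1 ≤ padicValInt 2 z := by
    intro h
    exact h2 (by exact_mod_cast (padicValInt_dvd_iff (p := 2) (t + 1) z).mpr (Or.inr h))
  omega

theorem caseC_val {m n : ℕ} (hm : m % 2 = 1) (hn : n ≠ 0) :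
    padicValInt 2 (S 4 m n) =
      if padicValNat 2 n % 4 = 0 then 2 else if padicValNat 2 n % 4 = 3 then
        padicValNat 2 (m + 1) + 1 else 1 := by
  have : Fact (Nat.Prime 2) := ⟨Nat.prime_two⟩
  obtain ⟨z, hz, hd⟩ := S_odd_decomp hm hn
  obtain ⟨q0, q1, q2, q3⟩ := hz
  have ht : 1 ≤ padicValNat 2 (m + 1) := one_le_padicValNat_of_dvd (by omega) (by omega)
  have hev := even_val (m := m + 1) (n := n) (by omega) (by omega) hn
  set t := padicValNat 2 (m + 1) with htdef
  have hmod : padicValNat 2 n % 4 < 4 := Nat.mod_lt _ (by norm_num)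
  split_ifs with h1 h2
  · have h3 := hev.2 (by omega)
    have h4 : (8 : ℤ) ∣ 2 ^ (t + 2) := by
      have : (8 : ℤ) = 2 ^ 3 := by norm_num
      rw [this]
      exact pow_dvd_pow 2 (by omega)
    have h5 := q0 h1
    have h6 := dvd_trans h4 hd
    have h7 := dvd_trans h4 h3
    apply val_of_dvd
    · norm_num
      omega
    · norm_num
      omega
  · have h3 := hev.1 (by omega)
    have h5 := q3 h2
    rw [h5, sub_zero] at hd
    apply val_of_dvd
    · have h6 : (2 : ℤ) ^ (t + 1) ∣ S 4 m n - S 4 (m + 1) n :=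
        dvd_trans (pow_dvd_pow 2 (by omega)) hd
      have := dvd_add h6 h3.1
      simpa using this
    · intro h6
      apply h3.2
      have := dvd_sub h6 hd
      simpa using this
  · have h3 : (2 : ℤ) ^ (t + 1) ∣ S 4 (m + 1) n := by
      rcases Nat.mod_two_eq_zero_or_one (padicValNat 2 n) with h | h
      · exact dvd_trans (pow_dvd_pow 2 (by omega)) (hev.2 h)
      · exact (hev.1 h).1
    have h4 : (4 : ℤ) ∣ 2 ^ (t + 1) := by
      have : (4 : ℤ) = 2 ^ 2 := by norm_num
      rw [this]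
      exact pow_dvd_pow 2 (by omega)
    have h4' : (4 : ℤ) ∣ 2 ^ (t + 2) := by
      have : (4 : ℤ) = 2 ^ 2 := by norm_num
      rw [this]
      exact pow_dvd_pow 2 (by omega)
    have h6 := dvd_trans h4' hd
    have h7 := dvd_trans h4 h3
    have h8 : z % 4 = 2 := by
      rcases (by omega : padicValNat 2 n % 4 = 1 ∨ padicValNat 2 n % 4 = 2) with h | h
      · exact q1 h
      · exact q2 h
    apply val_of_dvd
    · norm_num
      omega
    · norm_num
      omega

end Pool.Agent.R443.SK
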