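import Pool.Agent.R443.SK

/-!
# The functional equation for `k = 4`
-/

set_option autoImplicit false

namespace Pool.Agent.R443.SK

open PowerSeries Finset
open Pool.Agent.R443.PS

/-- the full series -/
noncomputable def Hs (m : ℕ) : ℤ⟦X⟧ := mk (S 4 m)

/-- `C = (1 - x^4)/(1-x)^4` -/
noncomputable def Cs : ℤ⟦X⟧ := (1 - X ^ 4) * iv 1 ^ 4

theorem expand_iv {d e : ℕ} (hd : d ≠ 0) (he : e ≠ 0) : expand e he (iv d) = iv (e * d) := by
  have h1 := congrArg (expand e he) (iv_mul hd)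
  rw [map_mul, map_sub, map_pow, map_one, expand_X, ← pow_mul] at h1
  have h2 := eq_iv_pow (d := e * d) (k := 1) (mul_ne_zero he hd)
    (f := expand e he (iv d)) (by rw [pow_one]; exact h1)
  rw [h2, pow_one]

theorem PK_fun (m N : ℕ) :
    PK 4 m (N + 1) = Cs ^ m * expand 4 (by norm_num) (PK 4 m N) := by
  unfold PK Cs
  rw [prod_range_succ', map_mul, map_pow, map_prod, expand_iv one_ne_zero]
  have h1 : ∀ i ∈ range N, expand 4 (by norm_num) (iv (4 ^ i) ^ (m * (4 - 1))) =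
      iv (4 ^ (i + 1)) ^ (m * (4 - 1)) := by
    intro i _
    rw [map_pow, expand_iv (by positivity), pow_succ, mul_comm 4]
  rw [prod_congr rfl h1]
  have h2 : ((1 : ℤ⟦X⟧) - X ^ 4) * iv (4 * 1) = 1 := mul_iv (by norm_num)
  have h3 : (((1 : ℤ⟦X⟧) - X ^ 4)) ^ m * iv (4 * 1) ^ m = 1 := by
    rw [← mul_pow, h2, one_pow]
  rw [pow_zero, mul_pow, ← pow_mul]
  have h4 : iv 1 ^ m * ((∏ k ∈ range N, iv (4 ^ (k + 1)) ^ (m * (4 - 1))) *
      iv 1 ^ (m * (4 - 1))) =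
      (((1 : ℤ⟦X⟧) - X ^ 4)) ^ m * iv (4 * 1) ^ m * (iv 1 ^ m * iv 1 ^ (m * 3)) *
      (∏ k ∈ range N, iv (4 ^ (k + 1)) ^ (m * (4 - 1))) := by
    rw [h3]
    norm_num
    ring
  rw [h4]
  have h5 : iv 1 ^ (4 * m) = iv 1 ^ m * iv 1 ^ (m * 3) := by
    rw [← pow_add]
    congr 1
    ring
  rw [h5]
  ring

theorem coeff_expand_PK (m n N : ℕ) (h : n < N) :
    coeff n (expand 4 (by norm_num) (PK 4 m N)) = coeff n (expand 4 (by norm_num) (Hs m)) := by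
  rcases Classical.em (4 ∣ n) with h1 | h1
  · obtain ⟨j, rfl⟩ := h1
    rw [coeff_expand_mul, coeff_expand_mul, Hs, coeff_mk]
    exact coeff_PK (by norm_num) (by omega)
  · rw [coeff_expand_of_not_dvd _ _ _ h1, coeff_expand_of_not_dvd _ _ _ h1]

theorem Hs_fun (m : ℕ) : Hs m = Cs ^ m * expand 4 (by norm_num) (Hs m) := by
  ext n
  have h1 : coeff n (Hs m) = coeff n (PK 4 m (n + 1 + 1)) := by
    rw [Hs, coeff_mk, coeff_PK (by norm_num) (by omega)]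
  rw [h1, PK_fun, coeff_mul, coeff_mul]
  apply sum_congr rfl
  intro x hx
  rw [HasAntidiagonal.mem_antidiagonal] at hx
  rw [coeff_expand_PK m x.2 (n + 1) (by omega)]

/-- recursion for the coefficients -/
theorem S_fun (m n : ℕ) :
    S 4 m n = ∑ b ∈ range (n / 4 + 1), S 4 m b * coeff (n - 4 * b) (Cs ^ m) := by
  have h1 := congrArg (coeff n) (Hs_fun m)
  rw [mul_comm (Cs ^ m), coeff_expand_mul'] at h1
  simpa [Hs] using h1

/-- `κ = x/(1-x)^2` -/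
noncomputable def ka : ℤ⟦X⟧ := X * iv 1 ^ 2

/-- `κ(x^2)` -/
noncomputable def ka2 : ℤ⟦X⟧ := X ^ 2 * iv 2 ^ 2

theorem coeff_ka (n : ℕ) : coeff n ka = (n : ℤ) := by
  unfold ka
  rcases n with _ | n
  · rw [coeff_zero_eq_constantCoeff_apply, map_mul, constantCoeff_X, zero_mul]
    simp
  · rw [coeff_succ_X_mul, show (2 : ℕ) = 1 + 1 from rfl, coeff_iv_pow_succ one_ne_zero,
      if_pos (one_dvd n)]
    simp
    ring

theorem ka2_eq : ka2 = expand 2 (by norm_num) ka := by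
  unfold ka2 ka
  rw [map_mul, map_pow, expand_X, expand_iv one_ne_zero, mul_one]

theorem coeff_ka2 (n : ℕ) : coeff n ka2 = if 2 ∣ n then ((n / 2 : ℕ) : ℤ) else 0 := by
  rw [ka2_eq]
  split_ifs with h
  · obtain ⟨j, rfl⟩ := h
    rw [coeff_expand_mul, coeff_ka]
    congr 1
    omega
  · exact coeff_expand_of_not_dvd _ _ _ h

theorem coeff_ka_sq (n : ℕ) : coeff n (ka ^ 2) = ((Nat.choose (n + 1) 3 : ℕ) : ℤ) := by
  unfold ka
  rw [mul_pow, ← pow_mul]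
  rcases n with _ | _ | n
  · rw [coeff_X_pow_mul']
    simp [Nat.choose]
  · rw [coeff_X_pow_mul']
    simp [Nat.choose]
  · rw [show n + 1 + 1 = n + 2 from rfl, coeff_X_pow_mul, show 2 * 2 = 3 + 1 from rfl, coeff_iv_pow_succ one_ne_zero,
      if_pos (one_dvd n)]
    congr 2
    simp
    ring

theorem Cs_sq : Cs ^ 2 = (1 + 4 * ka) ^ 2 * (1 + 4 * ka2) := by
  unfold Cs ka ka2
  have hu : (1 - X : ℤ⟦X⟧) * iv 1 = 1 := by
    have := mul_iv one_ne_zero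
    rwa [pow_one] at this
  have hv : (1 - X ^ 2 : ℤ⟦X⟧) * iv 2 = 1 := mul_iv (by norm_num)
  have hw : (1 + X : ℤ⟦X⟧) * iv 2 = iv 1 := by
    calc (1 + X : ℤ⟦X⟧) * iv 2 = ((1 - X : ℤ⟦X⟧) * iv 1) * ((1 + X : ℤ⟦X⟧) * iv 2) := by
          rw [hu, one_mul]
      _ = iv 1 * ((1 - X ^ 2 : ℤ⟦X⟧) * iv 2) := by ring
      _ = iv 1 := by rw [hv, mul_one]
  generalize iv 1 = u at *
  generalize iv 2 = v at *
  have e1 : (1 + 4 * (X * u ^ 2) : ℤ⟦X⟧) = ((1 + X) * u) ^ 2 := by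
    linear_combination (-(1 - X) * u - 1) * hu
  have e2 : (1 + 4 * (X ^ 2 * v ^ 2) : ℤ⟦X⟧) = ((1 + X ^ 2) * v) ^ 2 := by
    linear_combination (-(1 - X ^ 2) * v - 1) * hv
  rw [e1, e2]
  have e3 : ((1 : ℤ⟦X⟧) - X ^ 4) * u ^ 4 = ((1 + X) * u) * (u ^ 2 * (1 + X ^ 2)) := by
    linear_combination (1 + X) * (1 + X ^ 2) * u ^ 3 * hu
  have e4 : u ^ 2 * (1 + X ^ 2 : ℤ⟦X⟧) = ((1 + X) * u) * ((1 + X ^ 2) * v) := by
    rw [← hw]
    ring
  rw [e3, e4]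
  ring

/-- binomial expansion to first order -/
theorem one_add_pow {R : Type*} [CommRing R] (c : R) (q : ℕ) :
    ∃ r : R, (1 + c) ^ q = 1 + q * c + c ^ 2 * r := by
  induction q with
  | zero => exact ⟨0, by simp⟩
  | succ q ih =>
    obtain ⟨r, hr⟩ := ih
    refine ⟨q + r + c * r, ?_⟩
    rw [pow_succ, hr]
    push_cast
    ring

end Pool.Agent.R443.SK
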