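import Pool.Agent.R443.SK

/-!
# Positivity of the coloured `k`-ary partition numbers
-/

set_option autoImplicit false

namespace Pool.Agent.R443.SK

open PowerSeries Finset
open Pool.Agent.R443.PS

theorem nonneg_mul {f g : ℤ⟦X⟧} (hf : ∀ n, 0 ≤ coeff n f) (hg : ∀ n, 0 ≤ coeff n g) (n : ℕ) :
    0 ≤ coeff n (f * g) := by
  rw [coeff_mul]
  exact sum_nonneg fun x _ => mul_nonneg (hf _) (hg _)

theorem nonneg_iv {d : ℕ} (hd : d ≠ 0) (r n : ℕ) : 0 ≤ coeff n (iv d ^ r) := by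
  rcases r with _ | r
  · rw [pow_zero, coeff_one]
    split_ifs <;> norm_num
  · rw [coeff_iv_pow_succ hd]
    split_ifs
    · positivity
    · exact le_rfl

theorem nonneg_prod {k e : ℕ} (hk : 2 ≤ k) (N : ℕ) :
    (∀ n, 0 ≤ coeff n (∏ i ∈ range N, iv (k ^ i) ^ e)) ∧
      coeff 0 (∏ i ∈ range N, iv (k ^ i) ^ e) = 1 := by
  induction N with
  | zero =>
    refine ⟨fun n => ?_, by simp⟩
    rw [prod_range_zero, coeff_one]
    split_ifs <;> norm_num
  | succ N ih =>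
    rw [prod_range_succ]
    refine ⟨nonneg_mul ih.1 (nonneg_iv (by positivity) e), ?_⟩
    have h1 : coeff 0 (iv (k ^ N) ^ e) = 1 := by
      have h := coeff_iv_pow_succ (d := k ^ N) (by positivity) 0 0
      rw [zero_add, pow_one] at h
      rw [coeff_zero_eq_constantCoeff_apply, map_pow, ← coeff_zero_eq_constantCoeff_apply, h]
      simp
    rw [coeff_zero_eq_constantCoeff_apply, map_mul, ← coeff_zero_eq_constantCoeff_apply,
      ← coeff_zero_eq_constantCoeff_apply, ih.2, h1, mul_one]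

theorem pos_mul {f g : ℤ⟦X⟧} (hf : ∀ n, 0 ≤ coeff n f) (hg : ∀ n, 0 ≤ coeff n g) {n : ℕ}
    (h1 : 0 < coeff n f) (h2 : coeff 0 g = 1) : 0 < coeff n (f * g) := by
  rw [coeff_mul]
  have h3 : ∀ x ∈ antidiagonal n, 0 ≤ coeff x.1 f * coeff x.2 g :=
    fun x _ => mul_nonneg (hf _) (hg _)
  have h4 : (n, 0) ∈ antidiagonal n := by
    rw [HasAntidiagonal.mem_antidiagonal, add_zero]
  have h5 := single_le_sum h3 h4
  simp only at h5
  rw [h2, mul_one] at h5
  exact lt_of_lt_of_le h1 h5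

/-- all the numbers `S_{k,m}(n)` with `m ≥ 1` are positive -/
theorem S_pos {k m : ℕ} (hk : 2 ≤ k) (hm : 0 < m) (n : ℕ) : 0 < S k m n := by
  have h := nonneg_prod (k := k) (e := m * (k - 1)) hk (n + 1)
  have h1 : 0 < coeff n (iv 1 ^ m) := by
    obtain ⟨m', rfl⟩ : ∃ j, m = j + 1 := ⟨m - 1, by omega⟩
    rw [coeff_iv_pow_succ one_ne_zero, if_pos (one_dvd n)]
    exact_mod_cast Nat.choose_pos (by omega)
  exact pos_mul (nonneg_iv one_ne_zero m) h.1 h1 h.2

end Pool.Agent.R443.SK
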