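import Pool.Agent.R443.SK

/-!
# `p`-adic valuation of the coloured `p^a`-ary partition numbers: the regular case
-/

set_option autoImplicit false

namespace Pool.Agent.R443.SK

open PowerSeries Finset
open Pool.Agent.R443.PS

section expo

set_option linter.unusedSectionVars false

variable {K : Type*} [Field K] [CharZero K]

/-- truncated coefficient of `exp G` -/
noncomputable def EC (G : K⟦X⟧) (R n : ℕ) : K :=
  ∑ r ∈ range R, ((r.factorial : K))⁻¹ * coeff n (G ^ r)

theorem coeff_pow_eq_zero {G : K⟦X⟧} (hG : coeff 0 G = 0) {r n : ℕ} (h : n < r) :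
    coeff n (G ^ r) = 0 := by
  have h1 : (X : K⟦X⟧) ∣ G := by
    rw [X_dvd_iff]
    rw [coeff_zero_eq_constantCoeff_apply] at hG
    exact hG
  have h2 : (X : K⟦X⟧) ^ r ∣ G ^ r := pow_dvd_pow_of_dvd h1 r
  exact X_pow_dvd_iff.mp h2 n h

theorem EC_eq {G : K⟦X⟧} (hG : coeff 0 G = 0) {R n : ℕ} (h : n < R) :
    EC G R n = EC G (n + 1) n := by
  unfold EC
  symm
  apply sum_subset (range_mono (by omega))
  intro r _ hr
  rw [mem_range] at hr
  rw [coeff_pow_eq_zero hG (by omega), mul_zero]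

theorem EC_zero {G : K⟦X⟧} : EC G 1 0 = 1 := by
  unfold EC
  simp

theorem EC_rec {G : K⟦X⟧} (hG : coeff 0 G = 0) (n : ℕ) :
    (n : K) * EC G (n + 1) n =
      ∑ x ∈ antidiagonal n, EC G (x.1 + 1) x.1 * coeff x.2 (th G) := by
  have h1 : EC G (n + 1) n = EC G (n + 2) n := (EC_eq hG (by omega)).symm
  rw [h1]
  have h2 : ∀ x ∈ antidiagonal n, EC G (x.1 + 1) x.1 * coeff x.2 (th G) =
      EC G (n + 1) x.1 * coeff x.2 (th G) := by
    intro x hx
    rw [HasAntidiagonal.mem_antidiagonal] at hx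
    rw [EC_eq hG (by omega : x.1 < n + 1)]
  rw [sum_congr rfl h2]
  unfold EC
  rw [sum_range_succ', mul_add]
  have h3 : (n : K) * (((Nat.factorial 0 : ℕ) : K)⁻¹ * coeff n (G ^ 0)) = 0 := by
    rw [pow_zero, coeff_one]
    split_ifs with h
    · subst h
      simp
    · simp
  rw [h3, add_zero, mul_sum]
  have h4 : ∀ r ∈ range (n + 1),
      (n : K) * ((((r + 1).factorial : ℕ) : K)⁻¹ * coeff n (G ^ (r + 1))) =
      ∑ x ∈ antidiagonal n, ((r.factorial : K))⁻¹ * coeff x.1 (G ^ r) * coeff x.2 (th G) := by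
    intro r _
    have h5 : (n : K) * coeff n (G ^ (r + 1)) =
        ((r : K) + 1) * ∑ x ∈ antidiagonal n, coeff x.1 (G ^ r) * coeff x.2 (th G) := by
      rw [← coeff_th, th_pow, ← coeff_mul]
      have h6 : ((r : K⟦X⟧) + 1) * (G ^ r * th G) = (r + 1 : ℕ) • (G ^ r * th G) := by
        rw [nsmul_eq_mul]
        push_cast
        ring
      rw [h6, map_nsmul, nsmul_eq_mul]
      push_cast
      ring
    have h7 : (((r + 1).factorial : ℕ) : K) = ((r : K) + 1) * (r.factorial : K) := by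
      rw [Nat.factorial_succ]
      push_cast
      ring
    have h8 : ((r : K) + 1) ≠ 0 := by
      have : ((r + 1 : ℕ) : K) ≠ 0 := Nat.cast_ne_zero.mpr (Nat.succ_ne_zero r)
      push_cast at this
      exact this
    have h9 : (r.factorial : K) ≠ 0 := Nat.cast_ne_zero.mpr (Nat.factorial_ne_zero r)
    calc (n : K) * ((((r + 1).factorial : ℕ) : K)⁻¹ * coeff n (G ^ (r + 1)))
        = (((r + 1).factorial : ℕ) : K)⁻¹ * ((n : K) * coeff n (G ^ (r + 1))) := by ring
      _ = (r.factorial : K)⁻¹ * ∑ x ∈ antidiagonal n, coeff x.1 (G ^ r) * coeff x.2 (th G) := by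
          rw [h5, h7]
          field_simp
      _ = _ := by
          rw [mul_sum]
          apply sum_congr rfl
          intro x _
          ring
  rw [sum_congr rfl h4, sum_comm]
  apply sum_congr rfl
  intro x _
  rw [sum_mul]

end expo

variable {p : ℕ} [hp : Fact p.Prime]

/-- the exponent of the recurrence, `m k^(φ_k(n)+1)` with `k = p^a` -/
def gz (p a m n : ℕ) : ℤ :=
  if n = 0 then 0 else (m : ℤ) * ((p : ℤ) ^ a) ^ (padicValNat p n / a + 1)

theorem pow_dvd_iff {a n : ℕ} (ha : 1 ≤ a) (hn : n ≠ 0) (i : ℕ) :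
    (p ^ a) ^ i ∣ n ↔ i ≤ padicValNat p n / a := by
  rw [← pow_mul, padicValNat_dvd_iff_le hn, Nat.le_div_iff_mul_le (by omega), mul_comm]

/-- logarithm of the generating function -/
noncomputable def GK (p a m : ℕ) [Fact p.Prime] : ℚ_[p]⟦X⟧ :=
  mk fun n => (gz p a m n : ℚ_[p]) / (n : ℚ_[p])

theorem coeff_GK_zero (a m : ℕ) : coeff 0 (GK p a m) = 0 := by
  unfold GK
  rw [coeff_mk]
  simp

theorem coeff_th_GK (a m n : ℕ) : coeff n (th (GK p a m)) = (gz p a m n : ℚ_[p]) := by
  rw [coeff_th]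
  unfold GK
  rw [coeff_mk]
  rcases Nat.eq_zero_or_pos n with h | h
  · subst h
    simp [gz]
  · have : (n : ℚ_[p]) ≠ 0 := Nat.cast_ne_zero.mpr (by omega)
    field_simp

theorem S_eq_EC {a m : ℕ} (ha : 1 ≤ a) (n : ℕ) :
    (S (p ^ a) m n : ℚ_[p]) = EC (GK p a m) (n + 1) n := by
  have hk : 2 ≤ p ^ a := by
    have h2 : 2 ≤ p := hp.out.two_le
    calc 2 ≤ p := h2
      _ = p ^ 1 := (pow_one p).symm
      _ ≤ p ^ a := Nat.pow_le_pow_right (by omega) ha
  induction n using Nat.strong_induction_on with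
  | _ n ih =>
    rcases Nat.eq_zero_or_pos n with h | h
    · subst h
      rw [S_zero hk, zero_add, EC_zero]
      simp
    · have hn : (n : ℚ_[p]) ≠ 0 := Nat.cast_ne_zero.mpr (by omega)
      apply mul_left_cancel₀ hn
      have h1 := rec (m := m) hk (gz p a m) (by simp [gz]) (by
        intro n hn
        refine ⟨padicValNat p n / a, fun i => pow_dvd_iff ha hn i, ?_⟩
        rw [gz, if_neg hn]
        push_cast
        rfl) n
      have h2 : (n : ℚ_[p]) * (S (p ^ a) m n : ℚ_[p]) =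
          ∑ x ∈ antidiagonal n, (S (p ^ a) m x.1 : ℚ_[p]) * (gz p a m x.2 : ℚ_[p]) := by
        have := congrArg (fun z : ℤ => (z : ℚ_[p])) h1
        push_cast at this
        exact this
      rw [h2, EC_rec (coeff_GK_zero a m) n]
      apply sum_congr rfl
      intro x hx
      rw [HasAntidiagonal.mem_antidiagonal] at hx
      rw [coeff_th_GK]
      rcases Nat.eq_zero_or_pos x.2 with h0 | h0
      · rw [h0]
        simp [gz]
      · rw [ih x.1 (by omega)]

theorem norm_nat {n : ℕ} (hn : n ≠ 0) :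
    ‖(n : ℚ_[p])‖ = (p : ℝ) ^ (-(padicValNat p n : ℤ)) := by
  have h1 : (n : ℚ_[p]) ≠ 0 := Nat.cast_ne_zero.mpr hn
  rw [Padic.norm_eq_zpow_neg_valuation h1, Padic.valuation_natCast]

theorem norm_gz {a m n : ℕ} (hm : m ≠ 0) (hn : n ≠ 0) :
    ‖coeff n (GK p a m)‖ =
      (p : ℝ) ^ (-((padicValNat p m + a : ℕ) : ℤ) + (padicValNat p n % a : ℕ)) := by
  have hp0 : (p : ℝ) ≠ 0 := Nat.cast_ne_zero.mpr hp.out.ne_zero
  unfold GK
  rw [coeff_mk, gz, if_neg hn, norm_div, norm_nat hn]
  rw [Int.cast_mul, norm_mul, Int.cast_natCast, norm_nat hm, ← pow_mul, Int.cast_pow,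
    Int.cast_natCast, Padic.norm_p_pow, ← zpow_add₀ hp0, ← zpow_sub₀ hp0]
  congr 1
  have h3 := Nat.div_add_mod (padicValNat p n) a
  generalize padicValNat p m = v
  generalize padicValNat p n = w at h3 ⊢
  generalize w / a = x at h3 ⊢
  generalize w % a = y at h3 ⊢
  subst h3
  push_cast
  ring

theorem norm_coeff_pow {G : ℚ_[p]⟦X⟧} {c : ℝ} (hc : 0 ≤ c) (hG : ∀ n, ‖coeff n G‖ ≤ c)
    (r n : ℕ) : ‖coeff n (G ^ (r + 1))‖ ≤ c ^ (r + 1) := by
  induction r generalizing n with
  | zero => simpa using hG n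
  | succ r ih =>
    rw [pow_succ, coeff_mul]
    apply IsUltrametricDist.norm_sum_le_of_forall_le_of_nonneg (by positivity)
    intro x _
    rw [norm_mul, pow_succ c (r + 1)]
    exact mul_le_mul (ih _) (hG _) (norm_nonneg _) (by positivity)

/-- **Main valuation theorem.** -/
theorem main_val {a m n : ℕ} (ha : 1 ≤ a) (hm : m ≠ 0) (hn : n ≠ 0)
    (h : (p ≠ 2 ∧ p ^ (a - 1) ∣ m) ∨ (p = 2 ∧ 2 ^ a ∣ m)) :
    padicValInt p (S (p ^ a) m n) + padicValNat p n % a = padicValNat p m + a := by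
  have hp1 : (1 : ℝ) < (p : ℝ) := by
    exact_mod_cast hp.out.one_lt
  have hp0 : (0 : ℝ) < (p : ℝ) := by linarith
  set v := padicValNat p m with hv
  set t := v + a - padicValNat p n % a with ht
  have hmod : padicValNat p n % a < a := Nat.mod_lt _ (by omega)
  -- bound for the coefficients of G
  have hG : ∀ j, ‖coeff j (GK p a m)‖ ≤ (p : ℝ) ^ (-((v + 1 : ℕ) : ℤ)) := by
    intro j
    rcases Nat.eq_zero_or_pos j with h0 | h0
    · rw [h0, coeff_GK_zero, norm_zero]
      exact (zpow_pos hp0 _).le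
    · rw [norm_gz hm (by omega)]
      apply zpow_le_zpow_right₀ hp1.le
      have : padicValNat p j % a < a := Nat.mod_lt _ (by omega)
      rw [← hv]
      generalize padicValNat p j % a = w at this ⊢
      omega
  -- factorial bound
  have hfac : ∀ r, 2 ≤ r → padicValNat p r.factorial + (v + a + 1) ≤ r * (v + 1) := by
    intro r hr
    have h1 := sub_one_mul_padicValNat_factorial_lt_of_ne_zero p (n := r) (by omega)
    obtain ⟨s, rfl⟩ : ∃ s, r = s + 2 := ⟨r - 2, by omega⟩
    rcases h with ⟨hp2, hd⟩ | ⟨hp2, hd⟩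
    · have h3 : a - 1 ≤ v := (padicValNat_dvd_iff_le hm).mp hd
      have h4 : 3 ≤ p := by
        have := hp.out.two_le
        omega
      have h5 : 2 * padicValNat p (s + 2).factorial ≤
          (p - 1) * padicValNat p (s + 2).factorial := Nat.mul_le_mul_right _ (by omega)
      have h6 : padicValNat p (s + 2).factorial ≤ (s + 1) / 2 := by omega
      have h7 : (s + 1) / 2 + a ≤ (s + 1) * a := by
        obtain ⟨b, rfl⟩ : ∃ b, a = b + 1 := ⟨a - 1, by omega⟩
        have h8 : (s + 1) / 2 ≤ s := by omega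
        nlinarith [Nat.zero_le (s * b)]
      have h9 : (s + 1) * a ≤ (s + 1) * (v + 1) := Nat.mul_le_mul_left _ (by omega)
      have h10 : (s + 2) * (v + 1) = (s + 1) * (v + 1) + (v + 1) := by ring
      omega
    · subst hp2
      have h3 : a ≤ v := (padicValNat_dvd_iff_le hm).mp hd
      have h4 : padicValNat 2 (s + 2).factorial ≤ s + 1 := by
        simp only [Nat.add_one_sub_one, one_mul] at h1
        omega
      have h9 : a ≤ (s + 1) * v := by nlinarith [Nat.zero_le (s * v)]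
      have h10 : (s + 2) * (v + 1) = (s + 1) * v + (s + 1) + (v + 1) := by ring
      omega
  -- the difference
  have hdiff : ‖(S (p ^ a) m n : ℚ_[p]) - coeff n (GK p a m)‖ ≤
      (p : ℝ) ^ (-((v + a + 1 : ℕ) : ℤ)) := by
    rw [S_eq_EC ha n]
    have h1 : EC (GK p a m) (n + 1) n = EC (GK p a m) (n + 2) n :=
      (EC_eq (coeff_GK_zero a m) (by omega)).symm
    rw [h1]
    unfold EC
    rw [sum_range_succ', sum_range_succ']
    have h2 : coeff n ((GK p a m) ^ 0) = 0 := by
      rw [pow_zero, coeff_one, if_neg hn]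
    rw [h2, mul_zero, add_zero]
    simp only [zero_add, Nat.factorial_one, Nat.cast_one, inv_one, one_mul, pow_one]
    rw [add_sub_cancel_right]
    apply IsUltrametricDist.norm_sum_le_of_forall_le_of_nonneg (by positivity)
    intro r _
    have h3 := norm_coeff_pow (by positivity) hG (r + 1) n
    have h4 := hfac (r + 1 + 1) (by omega)
    rw [norm_mul, norm_inv, norm_nat (Nat.factorial_ne_zero _)]
    calc ((p : ℝ) ^ (-(padicValNat p (r + 1 + 1).factorial : ℤ)))⁻¹ *
          ‖coeff n (GK p a m ^ (r + 1 + 1))‖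
        ≤ ((p : ℝ) ^ (-(padicValNat p (r + 1 + 1).factorial : ℤ)))⁻¹ *
          ((p : ℝ) ^ (-((v + 1 : ℕ) : ℤ))) ^ (r + 1 + 1) :=
          mul_le_mul_of_nonneg_left h3 (by positivity)
      _ = (p : ℝ) ^ ((padicValNat p (r + 1 + 1).factorial : ℤ) -
            ((r + 1 + 1) * (v + 1) : ℕ)) := by
          rw [← zpow_neg, neg_neg, ← zpow_natCast, ← zpow_mul, ← zpow_add₀ hp0.ne']
          congr 1
          push_cast
          ring
      _ ≤ (p : ℝ) ^ (-((v + a + 1 : ℕ) : ℤ)) := by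
          apply zpow_le_zpow_right₀ hp1.le
          have : ((padicValNat p (r + 1 + 1).factorial + (v + a + 1) : ℕ) : ℤ) ≤
            (((r + 1 + 1) * (v + 1) : ℕ) : ℤ) := by exact_mod_cast h4
          push_cast at this ⊢
          linarith
  have hg := norm_gz (p := p) (a := a) hm hn
  have hgt : -((padicValNat p m + a : ℕ) : ℤ) + (padicValNat p n % a : ℕ) = -(t : ℤ) := by
    rw [ht, ← hv]
    generalize padicValNat p n % a = w at hmod ⊢
    omega
  rw [hgt] at hg
  have hlt : (p : ℝ) ^ (-((v + a + 1 : ℕ) : ℤ)) < (p : ℝ) ^ (-(t : ℤ)) := by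
    apply zpow_lt_zpow_right₀ hp1
    have h1 : t ≤ v + a := by omega
    push_cast
    omega
  have hS : ‖(S (p ^ a) m n : ℚ_[p])‖ = (p : ℝ) ^ (-(t : ℤ)) := by
    rw [← hg]
    apply Padic.norm_eq_of_norm_sub_lt_right
    rw [hg]
    exact lt_of_le_of_lt hdiff hlt
  have hS0 : S (p ^ a) m n ≠ 0 := by
    intro h0
    rw [h0] at hS
    simp only [Int.cast_zero, norm_zero] at hS
    have : (0 : ℝ) < (p : ℝ) ^ (-(t : ℤ)) := by positivity
    linarith
  have h1 : ((p : ℤ) ^ t) ∣ S (p ^ a) m n := by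
    rw [← Padic.norm_int_le_pow_iff_dvd, hS]
  have h2 : ¬ ((p : ℤ) ^ (t + 1)) ∣ S (p ^ a) m n := by
    rw [← Padic.norm_int_le_pow_iff_dvd, hS, not_le]
    apply zpow_lt_zpow_right₀ hp1
    push_cast
    omega
  have h3 : t ≤ padicValInt p (S (p ^ a) m n) := by
    rcases (padicValInt_dvd_iff t (S (p ^ a) m n)).mp h1 with h | h
    · exact absurd h hS0
    · exact h
  have h4 : ¬ t + 1 ≤ padicValInt p (S (p ^ a) m n) := by
    intro h
    exact h2 ((padicValInt_dvd_iff (t + 1) (S (p ^ a) m n)).mpr (Or.inr h))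
  omega

end Pool.Agent.R443.SK
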